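import Mathlib

/-!
# The precision needed by conjugate gradients: definitions
-/

set_option autoImplicit false

open scoped ENNReal

namespace Pool.Agent.Lib.MP_02bbae_an

/-- `y` is a possible computed value of the exact value `z`, the unit roundoff being `u`:
`y = z * (1 + δ)` with `|δ| ≤ u`. -/
def Fl (u z y : ℝ) : Prop := ∃ δ : ℝ, |δ| ≤ u ∧ y = z * (1 + δ)

/-- `FlSum u s c`: `c` is a possible computed value of the sum of the numbers in the multiset `s`;
the additions may be carried out in any order and with any bracketing. -/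
inductive FlSum (u : ℝ) : Multiset ℝ → ℝ → Prop
  | single (z : ℝ) : FlSum u {z} z
  | add {s s' : Multiset ℝ} {a a' c : ℝ} :
      FlSum u s a → FlSum u s' a' → Fl u (a + a') c → FlSum u (s + s') c

/-- `s` is a possible computed value of the inner product of `x` and `y`. -/
def FlDot {n : ℕ} (u : ℝ) (x y : Fin n → ℝ) (s : ℝ) : Prop :=
  ∃ c : Fin n → ℝ, (∀ i, Fl u (x i * y i) (c i)) ∧ FlSum u (Finset.univ.val.map c) s

/-- `q` is a possible computed value of the matrix-vector product `A p`. -/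
def FlMulVec {n : ℕ} (u : ℝ) (A : Matrix (Fin n) (Fin n) ℝ) (p q : Fin n → ℝ) : Prop :=
  ∀ i, FlDot u (A i) p (q i)

/-- `w` is a possible computed value of the vector `z + a y`. -/
def FlAddMul {n : ℕ} (u : ℝ) (z : Fin n → ℝ) (a : ℝ) (y w : Fin n → ℝ) : Prop :=
  ∀ i, ∃ c, Fl u (a * y i) c ∧ Fl u (z i + c) (w i)

/-- `w` is a possible computed value of the vector `z - a y`. -/
def FlSubMul {n : ℕ} (u : ℝ) (z : Fin n → ℝ) (a : ℝ) (y w : Fin n → ℝ) : Prop :=
  ∀ i, ∃ c, Fl u (a * y i) c ∧ Fl u (z i - c) (w i)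

/-- The data of a run of conjugate gradients: the computed vectors `x k`, `r k`, `p k`, the two
computed values `q k`, `q' k` of `A p k` (for `α k` and for `r (k + 1)`), the two computed values
`ρ k`, `ρ' k` of `r kᵀ r k` (for `α k` and for the denominator of `β k`), the computed value `ρ'' k`
of `r (k + 1)ᵀ r (k + 1)` (for the numerator of `β k`), the computed value `σ k` of `p kᵀ A p k`,
and the computed `α k`, `β k`. -/
structure Run (n : ℕ) where
  /-- iterates -/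
  x : ℕ → Fin n → ℝ
  /-- residuals -/
  r : ℕ → Fin n → ℝ
  /-- directions -/
  p : ℕ → Fin n → ℝ
  /-- `A p` in the denominator of `α` -/
  q : ℕ → Fin n → ℝ
  /-- `A p` in the update of `r` -/
  q' : ℕ → Fin n → ℝ
  /-- `rᵀ r` in the numerator of `α` -/
  ρ : ℕ → ℝ
  /-- `rᵀ r` in the denominator of `β` -/
  ρ' : ℕ → ℝ
  /-- `rᵀ r` in the numerator of `β` -/
  ρ'' : ℕ → ℝ
  /-- `pᵀ A p` -/
  σ : ℕ → ℝ
  /-- step lengths -/
  α : ℕ → ℝ
  /-- the coefficients of the directions -/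
  β : ℕ → ℝ

/-- The first `K` steps of the run `R` are steps of conjugate gradients for `A x = b` in arithmetic
with unit roundoff `u`, all denominators being nonzero. -/
structure Run.Valid {n : ℕ} (R : Run n) (u : ℝ) (A : Matrix (Fin n) (Fin n) ℝ) (b : Fin n → ℝ)
    (K : ℕ) : Prop where
  x_zero : R.x 0 = 0
  r_zero : R.r 0 = b
  p_zero : R.p 0 = b
  rr : ∀ k < K, FlDot u (R.r k) (R.r k) (R.ρ k)
  Ap : ∀ k < K, FlMulVec u A (R.p k) (R.q k)
  pAp : ∀ k < K, FlDot u (R.p k) (R.q k) (R.σ k)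
  pAp_ne : ∀ k < K, R.σ k ≠ 0
  alpha : ∀ k < K, Fl u (R.ρ k / R.σ k) (R.α k)
  x_succ : ∀ k < K, FlAddMul u (R.x k) (R.α k) (R.p k) (R.x (k + 1))
  Ap' : ∀ k < K, FlMulVec u A (R.p k) (R.q' k)
  r_succ : ∀ k < K, FlSubMul u (R.r k) (R.α k) (R.q' k) (R.r (k + 1))
  rr' : ∀ k < K, FlDot u (R.r k) (R.r k) (R.ρ' k)
  rr'_ne : ∀ k < K, R.ρ' k ≠ 0
  rr'' : ∀ k < K, FlDot u (R.r (k + 1)) (R.r (k + 1)) (R.ρ'' k)
  beta : ∀ k < K, Fl u (R.ρ'' k / R.ρ' k) (R.β k)
  p_succ : ∀ k < K, FlAddMul u (R.r (k + 1)) (R.β k) (R.p k) (R.p (k + 1))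

/-- Every inner product `rᵀ r` and every product `A p` is computed only once in the run `R`. -/
def Run.Reuses {n : ℕ} (R : Run n) : Prop :=
  R.q' = R.q ∧ R.ρ' = R.ρ ∧ ∀ k, R.ρ'' k = R.ρ (k + 1)

/-- After `K` steps the run `R` breaks down: the computed value `σ K` of `p Kᵀ A p K`, the
denominator of `α K`, is zero. -/
def Run.BreaksDown {n : ℕ} (R : Run n) (u : ℝ) (A : Matrix (Fin n) (Fin n) ℝ) (K : ℕ) : Prop :=
  FlMulVec u A (R.p K) (R.q K) ∧ FlDot u (R.p K) (R.q K) (R.σ K) ∧ R.σ K = 0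

/-- Euclidean norm. -/
noncomputable def nrm {n : ℕ} (v : Fin n → ℝ) : ℝ :=
  ‖(WithLp.toLp 2 v : EuclideanSpace ℝ (Fin n))‖

/-- Spectral norm. -/
noncomputable def specNorm {n : ℕ} (A : Matrix (Fin n) (Fin n) ℝ) : ℝ :=
  ‖Matrix.toEuclideanCLM (𝕜 := ℝ) A‖

/-- The normwise backward error of `x`. -/
noncomputable def eta {n : ℕ} (A : Matrix (Fin n) (Fin n) ℝ) (b x : Fin n → ℝ) : ℝ :=
  nrm (b - A.mulVec x) / (specNorm A * nrm x + nrm b)

/-- `a` has a binary floating point representation with `t` significant bits. -/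
def IsFloat (t : ℕ) (a : ℝ) : Prop := ∃ m e : ℤ, |m| < 2 ^ t ∧ a = (m : ℝ) * 2 ^ e

/-- The condition number `lambda_max / lambda_min` of `A` is at most `κ`. -/
def CondLE {n : ℕ} {A : Matrix (Fin n) (Fin n) ℝ} (hA : A.PosDef) (κ : ℝ≥0∞) : Prop :=
  ∀ i j, ENNReal.ofReal (hA.1.eigenvalues i) ≤ κ * ENNReal.ofReal (hA.1.eigenvalues j)

/-- With `t` bits, every run of conjugate gradients that is not stopped by a zero denominator
reaches a backward error at most `ε` within `n` steps. A run is finished after `K` steps if `K = n`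
or the residual `r K` is zero. -/
def Guarantee (n : ℕ) (κ : ℝ≥0∞) (ε : ℝ) (t : ℕ) : Prop :=
  ∀ (A : Matrix (Fin n) (Fin n) ℝ) (b : Fin n → ℝ) (hA : A.PosDef), CondLE hA κ → b ≠ 0 →
    (∀ i j, IsFloat t (A i j)) → (∀ i, IsFloat t (b i)) →
    ∀ (R : Run n) (K : ℕ), R.Valid ((1 / 2) ^ t) A b K → (K = n ∨ K ≤ n ∧ R.r K = 0) →
      ∃ k ≤ K, eta A b (R.x k) ≤ ε

/-- As `Guarantee`, but a run stopped by a zero denominator must have reached a backward error at
most `ε` before it stopped. -/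
def StrongGuarantee (n : ℕ) (κ : ℝ≥0∞) (ε : ℝ) (t : ℕ) : Prop :=
  ∀ (A : Matrix (Fin n) (Fin n) ℝ) (b : Fin n → ℝ) (hA : A.PosDef), CondLE hA κ → b ≠ 0 →
    (∀ i j, IsFloat t (A i j)) → (∀ i, IsFloat t (b i)) →
    ∀ (R : Run n) (K : ℕ), R.Valid ((1 / 2) ^ t) A b K →
      (K = n ∨ K ≤ n ∧ (R.r K = 0 ∨ R.BreaksDown ((1 / 2) ^ t) A K)) →
      ∃ k ≤ K, eta A b (R.x k) ≤ ε

/-- `t^*(n, κ, ε)`, runs stopped by a zero denominator being left out of account. -/
noncomputable def tstar (n : ℕ) (κ : ℝ≥0∞) (ε : ℝ) : ℕ∞ :=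
  ⨅ t : {t : ℕ // 1 ≤ t ∧ Guarantee n κ ε t}, ((t : ℕ) : ℕ∞)

/-- `t^*(n, κ, ε)`, runs stopped by a zero denominator before they reach a backward error at most
`ε` being failures. -/
noncomputable def tstarStrong (n : ℕ) (κ : ℝ≥0∞) (ε : ℝ) : ℕ∞ :=
  ⨅ t : {t : ℕ // 1 ≤ t ∧ StrongGuarantee n κ ε t}, ((t : ℕ) : ℕ∞)

end Pool.Agent.Lib.MP_02bbae_an
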