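import Mathlib

/-!
# The tridiagonal matrix of the lower bound
-/

set_option autoImplicit false

open scoped InnerProductSpace RealInnerProductSpace

namespace Pool.Agent.Lib.MP_02bbae_an

variable {m : ℕ}

/-- extension by zero -/
noncomputable def ext (v : Fin (m + 1) → ℝ) (i : ℕ) : ℝ := if h : i < m + 1 then v ⟨i, h⟩ else 0

theorem ext_fin (v : Fin (m + 1) → ℝ) (i : Fin (m + 1)) : ext v i = v i := by
  unfold ext
  rw [dif_pos i.isLt]

theorem ext_ge (v : Fin (m + 1) → ℝ) {i : ℕ} (h : m + 1 ≤ i) : ext v i = 0 := by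
  simp [ext, Nat.not_lt.mpr h]

/-- differences -/
noncomputable def dif (v : Fin (m + 1) → ℝ) (i : ℕ) : ℝ := ext v i - ext v (i + 1)

/-- the entries -/
noncomputable def tent (i j : ℕ) : ℝ :=
  if i = j then (if i = 0 then 1 else 2) else if i + 1 = j ∨ j + 1 = i then -1 else 0

/-- the matrix -/
noncomputable def Tmat (m : ℕ) : Matrix (Fin (m + 1)) (Fin (m + 1)) ℝ := fun i j => tent i j

theorem tent_symm (i j : ℕ) : tent i j = tent j i := by
  unfold tent
  split_ifs <;> first | rfl | omega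

theorem sum_fin_ext (f : ℕ → ℝ) (v : Fin (m + 1) → ℝ) :
    ∑ j : Fin (m + 1), f j * v j = ∑ j ∈ Finset.range (m + 1), f j * ext v j := by
  rw [← Fin.sum_univ_eq_sum_range (fun j => f j * ext v j) (m + 1)]
  exact Finset.sum_congr rfl fun j _ => by rw [ext_fin]

theorem tent_split (i j : ℕ) (x : ℝ) : tent i j * x
    = (if i = j then (if i = 0 then 1 else 2) * x else 0) + (if i + 1 = j then -x else 0)
      + (if i = 0 then 0 else if i - 1 = j then -x else 0) := by
  unfold tent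
  split_ifs <;> first | (exfalso; omega) | ring

theorem Tmat_mulVec (v : Fin (m + 1) → ℝ) (i : Fin (m + 1)) :
    (Tmat m).mulVec v i = dif v i - (if (i : ℕ) = 0 then 0 else dif v ((i : ℕ) - 1)) := by
  have h1 : (Tmat m).mulVec v i = ∑ j ∈ Finset.range (m + 1), tent i j * ext v j := by
    rw [← sum_fin_ext (fun j => tent i j) v]
    rfl
  rw [h1]
  simp only [tent_split]
  rw [Finset.sum_add_distrib, Finset.sum_add_distrib]
  have hi := i.isLt
  have h2 : ∑ j ∈ Finset.range (m + 1), (if (i : ℕ) = j then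
      (if (i : ℕ) = 0 then (1 : ℝ) else 2) * ext v j else 0)
      = (if (i : ℕ) = 0 then (1 : ℝ) else 2) * ext v i := by
    rw [Finset.sum_ite_eq, if_pos (Finset.mem_range.mpr hi)]
  have h3 : ∑ j ∈ Finset.range (m + 1), (if (i : ℕ) + 1 = j then -ext v j else 0)
      = - ext v ((i : ℕ) + 1) := by
    rw [Finset.sum_ite_eq]
    split_ifs with h
    · rfl
    · rw [Finset.mem_range, Nat.not_lt] at h
      rw [ext_ge v h, neg_zero]
  have h4 : ∑ j ∈ Finset.range (m + 1), (if (i : ℕ) = 0 then (0 : ℝ) else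
      if (i : ℕ) - 1 = j then -ext v j else 0)
      = if (i : ℕ) = 0 then 0 else -ext v ((i : ℕ) - 1) := by
    split_ifs with h
    · simp
    · rw [Finset.sum_ite_eq, if_pos (Finset.mem_range.mpr (by omega))]
  rw [h2, h3, h4]
  unfold dif
  split_ifs with h
  · ring
  · have : (i : ℕ) - 1 + 1 = i := by omega
    rw [this]; ring

theorem abel_sum (a d : ℕ → ℝ) (N : ℕ) :
    ∑ i ∈ Finset.range (N + 1), a i * (d i - if i = 0 then 0 else d (i - 1))
      = ∑ i ∈ Finset.range (N + 1), (a i - a (i + 1)) * d i + a (N + 1) * d N := by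
  induction N with
  | zero => simp; ring
  | succ N ih =>
    rw [Finset.sum_range_succ, ih, Finset.sum_range_succ _ (N + 1)]
    simp
    ring

theorem Tmat_dot (w v : Fin (m + 1) → ℝ) :
    w ⬝ᵥ (Tmat m).mulVec v = ∑ i ∈ Finset.range (m + 1), dif w i * dif v i := by
  have h1 : w ⬝ᵥ (Tmat m).mulVec v
      = ∑ i : Fin (m + 1), (dif v i - (if (i : ℕ) = 0 then 0 else dif v ((i : ℕ) - 1))) * w i := by
    unfold dotProduct
    exact Finset.sum_congr rfl fun i _ => by rw [Tmat_mulVec]; ring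
  rw [h1, sum_fin_ext (fun i => dif v i - (if (i : ℕ) = 0 then 0 else dif v ((i : ℕ) - 1))) w]
  have h2 := abel_sum (ext w) (dif v) m
  rw [ext_ge w le_rfl, zero_mul, add_zero] at h2
  simp only [mul_comm _ (ext w _)]
  rw [h2]
  rfl

theorem Tmat_symm (w v : Fin (m + 1) → ℝ) :
    w ⬝ᵥ (Tmat m).mulVec v = v ⬝ᵥ (Tmat m).mulVec w := by
  rw [Tmat_dot, Tmat_dot]
  exact Finset.sum_congr rfl fun i _ => mul_comm _ _

theorem sum_ext_sq (v : Fin (m + 1) → ℝ) :
    ∑ i ∈ Finset.range (m + 1), ext v i ^ 2 = v ⬝ᵥ v := by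
  unfold dotProduct
  rw [← Fin.sum_univ_eq_sum_range (fun j => ext v j ^ 2) (m + 1)]
  exact Finset.sum_congr rfl fun j _ => by rw [ext_fin, sq]

theorem dif_sq_le (v : Fin (m + 1) → ℝ) :
    ∑ i ∈ Finset.range (m + 1), dif v i ^ 2 ≤ 4 * (v ⬝ᵥ v) := by
  have h1 : ∑ i ∈ Finset.range (m + 1), dif v i ^ 2
      ≤ ∑ i ∈ Finset.range (m + 1), (2 * ext v i ^ 2 + 2 * ext v (i + 1) ^ 2) := by
    apply Finset.sum_le_sum
    intro i _
    unfold dif
    nlinarith [sq_nonneg (ext v i + ext v (i + 1))]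
  have h2 : ∑ i ∈ Finset.range (m + 1), ext v (i + 1) ^ 2
      ≤ ∑ i ∈ Finset.range (m + 1), ext v i ^ 2 := by
    have h3 := Finset.sum_range_succ' (fun i => ext v i ^ 2) (m + 1)
    have h4 := Finset.sum_range_succ (fun i => ext v i ^ 2) (m + 1)
    simp only [ext_ge v le_rfl] at h4
    have : 0 ≤ ext v 0 ^ 2 := sq_nonneg _
    linarith
  rw [Finset.sum_add_distrib, ← Finset.mul_sum, ← Finset.mul_sum, sum_ext_sq] at h1
  rw [sum_ext_sq] at h2
  linarith

theorem ext_eq_sum (v : Fin (m + 1) → ℝ) {i : ℕ} (hi : i ≤ m + 1) :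
    ext v i = ∑ j ∈ Finset.Ico i (m + 1), dif v j := by
  have h := Finset.sum_Ico_eq_sub (fun j => dif v j) hi
  rw [h]
  have h2 : ∀ N, ∑ j ∈ Finset.range N, dif v j = ext v 0 - ext v N := by
    intro N
    unfold dif
    rw [Finset.sum_range_sub']
  rw [h2, h2, ext_ge v le_rfl]
  ring

theorem dot_le_dif (v : Fin (m + 1) → ℝ) :
    v ⬝ᵥ v ≤ (m + 1) ^ 2 * ∑ i ∈ Finset.range (m + 1), dif v i ^ 2 := by
  rw [← sum_ext_sq]
  have h1 : ∀ i ∈ Finset.range (m + 1), ext v i ^ 2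
      ≤ (m + 1) * ∑ i ∈ Finset.range (m + 1), dif v i ^ 2 := by
    intro i hi
    rw [Finset.mem_range] at hi
    rw [ext_eq_sum v hi.le]
    have hsub : Finset.Ico i (m + 1) ⊆ Finset.range (m + 1) := by
      intro j hj
      rw [Finset.mem_Ico] at hj
      exact Finset.mem_range.mpr hj.2
    calc (∑ j ∈ Finset.Ico i (m + 1), dif v j) ^ 2
        ≤ (Finset.Ico i (m + 1)).card * ∑ j ∈ Finset.Ico i (m + 1), dif v j ^ 2 :=
          sq_sum_le_card_mul_sum_sq
      _ ≤ (m + 1) * ∑ j ∈ Finset.range (m + 1), dif v j ^ 2 := by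
          apply mul_le_mul
          · rw [Nat.card_Ico]
            have : m + 1 - i ≤ m + 1 := Nat.sub_le _ _
            exact_mod_cast this
          · exact Finset.sum_le_sum_of_subset_of_nonneg hsub fun _ _ _ => sq_nonneg _
          · exact Finset.sum_nonneg fun _ _ => sq_nonneg _
          · positivity
  calc ∑ i ∈ Finset.range (m + 1), ext v i ^ 2
      ≤ ∑ i ∈ Finset.range (m + 1), (m + 1) * ∑ i ∈ Finset.range (m + 1), dif v i ^ 2 :=
        Finset.sum_le_sum h1
    _ = _ := by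
        rw [Finset.sum_const, Finset.card_range, nsmul_eq_mul]; push_cast; ring

/-! the operator on Euclidean space -/

/-- Euclidean space of dimension `m + 1` -/
abbrev EV (m : ℕ) := EuclideanSpace ℝ (Fin (m + 1))

/-- the operator -/
noncomputable def Top (m : ℕ) : EV m →ₗ[ℝ] EV m := Matrix.toEuclideanLin (Tmat m)

theorem Top_apply (v : EV m) : Top m v = WithLp.toLp 2 ((Tmat m).mulVec v.ofLp) := rfl

theorem inner_EV (v w : EV m) : ⟪v, w⟫_ℝ = v.ofLp ⬝ᵥ w.ofLp := by
  rw [EuclideanSpace.inner_eq_star_dotProduct]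
  simp [dotProduct_comm]

theorem Top_inner (w v : EV m) :
    ⟪w, Top m v⟫_ℝ = ∑ i ∈ Finset.range (m + 1), dif w.ofLp i * dif v.ofLp i := by
  rw [inner_EV, Top_apply]
  exact Tmat_dot _ _

theorem Top_sym (u v : EV m) : ⟪Top m u, v⟫_ℝ = ⟪u, Top m v⟫_ℝ := by
  rw [real_inner_comm, Top_inner, Top_inner]
  exact Finset.sum_congr rfl fun i _ => mul_comm _ _

theorem norm_sq_EV (v : EV m) : ‖v‖ ^ 2 = v.ofLp ⬝ᵥ v.ofLp := by
  rw [← real_inner_self_eq_norm_sq, inner_EV]

theorem Top_bd (v : EV m) : ‖Top m v‖ ≤ 4 * ‖v‖ := by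
  have h1 : ‖Top m v‖ ^ 2 ≤ (2 * ‖Top m v‖) * (2 * ‖v‖) := by
    rw [← real_inner_self_eq_norm_sq, Top_inner]
    refine (Real.sum_mul_le_sqrt_mul_sqrt _ _ _).trans ?_
    apply mul_le_mul
    · apply Real.sqrt_le_iff.mpr
      refine ⟨by positivity, ?_⟩
      refine (dif_sq_le _).trans (le_of_eq ?_)
      rw [← norm_sq_EV]; ring
    · apply Real.sqrt_le_iff.mpr
      refine ⟨by positivity, ?_⟩
      refine (dif_sq_le _).trans (le_of_eq ?_)
      rw [← norm_sq_EV]; ring
    · positivity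
    · positivity
  by_cases h : ‖Top m v‖ = 0
  · rw [h]; positivity
  · have h2 : 0 < ‖Top m v‖ := lt_of_le_of_ne (norm_nonneg _) (Ne.symm h)
    have h3 : ‖Top m v‖ * ‖Top m v‖ ≤ ‖Top m v‖ * (4 * ‖v‖) := by nlinarith
    exact le_of_mul_le_mul_left h3 h2

theorem Top_lower (v : EV m) : ‖v‖ ^ 2 ≤ (m + 1) ^ 2 * ⟪v, Top m v⟫_ℝ := by
  rw [norm_sq_EV, Top_inner]
  refine (dot_le_dif _).trans (le_of_eq ?_)
  simp only [sq]

/-- basis vectors, indexed from one -/
noncomputable def eV (m k : ℕ) : EV m := WithLp.toLp 2 (fun i => if (i : ℕ) + 1 = k then 1 else 0)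

/-- partial sums of the basis vectors -/
noncomputable def IV (m k : ℕ) : EV m := WithLp.toLp 2 (fun i => if (i : ℕ) + 1 ≤ k then 1 else 0)

theorem eV_norm {k : ℕ} (h1 : 1 ≤ k) (h2 : k ≤ m + 1) : ‖eV m k‖ = 1 := by
  have : ‖eV m k‖ ^ 2 = 1 := by
    rw [norm_sq_EV]
    unfold eV dotProduct
    simp only [mul_ite, mul_one, mul_zero]
    rw [Finset.sum_eq_single (⟨k - 1, by omega⟩ : Fin (m + 1))]
    · have : k - 1 + 1 = k := by omega
      simp [this]
    · intro b _ hb
      have : (b : ℕ) + 1 ≠ k := by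
        intro hc
        apply hb
        apply Fin.ext
        simp; omega
      simp [this]
    · intro h; exact absurd (Finset.mem_univ _) h
  have h0 := norm_nonneg (eV m k)
  nlinarith

theorem eV_norm_le (k : ℕ) : ‖eV m k‖ ≤ 1 := by
  by_cases h : 1 ≤ k ∧ k ≤ m + 1
  · rw [eV_norm h.1 h.2]
  · have : eV m k = 0 := by
      unfold eV
      have : (fun i : Fin (m + 1) => if (i : ℕ) + 1 = k then (1 : ℝ) else 0) = 0 := by
        funext i
        have := i.isLt
        rw [if_neg (by omega)]; rfl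
      rw [this]; rfl
    rw [this, norm_zero]; exact zero_le_one

theorem eV_orth {i : ℕ} (h1 : 2 ≤ i) : ⟪eV m 1, eV m i⟫_ℝ = 0 := by
  rw [inner_EV]
  unfold eV dotProduct
  apply Finset.sum_eq_zero
  intro j _
  change (if (j : ℕ) + 1 = 1 then (1 : ℝ) else 0) * (if (j : ℕ) + 1 = i then (1 : ℝ) else 0) = 0
  by_cases h : (j : ℕ) + 1 = 1
  · have : ¬ (j : ℕ) + 1 = i := by omega
    rw [if_neg this, mul_zero]
  · rw [if_neg h, zero_mul]

theorem IV_succ (k : ℕ) : IV m (k + 1) = IV m k + eV m (k + 1) := by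
  unfold IV eV
  rw [← WithLp.toLp_add]
  congr 1
  funext i
  simp only [Pi.add_apply]
  split_ifs <;> first | omega | simp

theorem IV_one : IV m 1 = eV m 1 := by
  unfold IV eV
  congr 1
  funext i
  split_ifs <;> first | rfl | omega

theorem IV_norm {k : ℕ} (h1 : 1 ≤ k) : ‖IV m k‖ ≤ k := by
  induction k, h1 using Nat.le_induction with
  | base => rw [IV_one]; simpa using eV_norm_le 1
  | succ k hk ih =>
    rw [IV_succ]
    refine (norm_add_le _ _).trans ?_
    push_cast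
    exact add_le_add ih (eV_norm_le _)

theorem ext_IV {k : ℕ} (h : k ≤ m + 1) (j : ℕ) :
    ext (IV m k).ofLp j = if j + 1 ≤ k then 1 else 0 := by
  unfold ext IV
  by_cases hj : j < m + 1
  · rw [dif_pos hj]
  · rw [dif_neg hj, if_neg (by omega)]

theorem dif_IV {k : ℕ} (h : k ≤ m + 1) (j : ℕ) :
    dif (IV m k).ofLp j = if j + 1 = k then 1 else 0 := by
  unfold dif
  rw [ext_IV h, ext_IV h]
  split_ifs <;> first | omega | simp

theorem Top_IV {k : ℕ} (h1 : 1 ≤ k) (h : k ≤ m + 1) :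
    Top m (IV m k) = eV m k - eV m (k + 1) := by
  rw [Top_apply]
  unfold eV
  rw [← WithLp.toLp_sub]
  congr 1
  funext i
  rw [Tmat_mulVec, dif_IV h, dif_IV h]
  simp only [Pi.sub_apply]
  split_ifs <;> first | omega | simp

theorem Top_IV_norm {k : ℕ} (h1 : 1 ≤ k) (h : k ≤ m + 1) : ‖Top m (IV m k)‖ ≤ 2 := by
  rw [Top_IV h1 h]
  refine (norm_sub_le _ _).trans ?_
  linarith [eV_norm_le (m := m) k, eV_norm_le (m := m) (k + 1)]

theorem Top_IV_inner {k : ℕ} (h1 : 1 ≤ k) (h : k ≤ m + 1) :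
    ⟪IV m k, Top m (IV m k)⟫_ℝ = 1 := by
  rw [Top_inner]
  simp only [dif_IV h]
  rw [Finset.sum_eq_single (k - 1)]
  · have : k - 1 + 1 = k := by omega
    simp [this]
  · intro b _ hb
    have : ¬ b + 1 = k := by omega
    simp [this]
  · intro hn
    exact absurd (Finset.mem_range.mpr (by omega)) hn

end Pool.Agent.Lib.MP_02bbae_an
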