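import Mathlib

/-!
# The perturbed conjugate gradient recurrence of the lower bound, in scaled variables
-/

set_option autoImplicit false

open scoped InnerProductSpace RealInnerProductSpace

namespace Pool.Agent.Lib.MP_02bbae_an

variable {V : Type*} [NormedAddCommGroup V] [InnerProductSpace ℝ V]

/-- the parameters of the lower bound construction -/
structure LPar (n : ℕ) (s lam δ : ℝ) : Prop where
  hn : 2 ≤ n
  hs : 0 < s
  hs1 : s * (64 * n) ≤ 1
  hl : 0 < lam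
  hl1 : lam * (3000 * n ^ 2) ≤ 1
  hδ : δ = s * lam ^ (n - 1)

/-- the scaled recurrences -/
structure LSys (n : ℕ) (s lam δ : ℝ) (T : V →ₗ[ℝ] V) (e I : ℕ → V)
    (c g a β : ℕ → ℝ) (ρ π : ℕ → V) : Prop where
  he1 : ∀ i, 1 ≤ i → i < n → ‖e i‖ = 1
  heo : ∀ i, 2 ≤ i → i < n → ⟪e 1, e i⟫_ℝ = 0
  hI : ∀ i, 1 ≤ i → i < n → ‖I i‖ ≤ n - 1
  hIs : ∀ i, 1 ≤ i → i + 1 < n → I (i + 1) = I i + e (i + 1)
  hI1 : I 1 = e 1
  hTI : ∀ i, 1 ≤ i → i + 1 < n → T (I i) = e i - e (i + 1)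
  hTI2 : ∀ i, 1 ≤ i → i < n → ‖T (I i)‖ ≤ 2
  hTI3 : ∀ i, 1 ≤ i → i < n → ⟪I i, T (I i)⟫_ℝ = 1
  sym : ∀ u v, ⟪T u, v⟫_ℝ = ⟪u, T v⟫_ℝ
  bd : ∀ v, ‖T v‖ ≤ 4 * ‖v‖
  c1 : c 1 = -δ
  g1 : g 1 = -δ * (1 - δ - s ^ 2 * (1 + δ))
  ρ1 : ρ 1 = (1 + δ) • e 1
  π1 : π 1 = (1 + δ) • e 1
  ha : ∀ k, 1 ≤ k → k < n →
    a k = (‖ρ k‖ ^ 2 + c k ^ 2 / s ^ 2) / (⟪π k, T (π k)⟫_ℝ + g k ^ 2 / (lam * s ^ 2))
  hc : ∀ k, 1 ≤ k → k < n → c (k + 1) = c k - a k / lam * g k
  hρ : ∀ k, 1 ≤ k → k < n → ρ (k + 1) = ρ k - a k • T (π k) + (a k / lam * g k) • e 1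
  hβ : ∀ k, 1 ≤ k → k < n →
    β k = (‖ρ (k + 1)‖ ^ 2 + c (k + 1) ^ 2 / s ^ 2) / (‖ρ k‖ ^ 2 + c k ^ 2 / s ^ 2)
  hg : ∀ k, 1 ≤ k → k < n → g (k + 1) = c (k + 1) - s ^ 2 * ⟪e 1, ρ (k + 1)⟫_ℝ + β k * g k
  hπ : ∀ k, 1 ≤ k → k < n → π (k + 1) = ρ (k + 1) + β k • π k

/-- the invariant -/
structure LInv (n : ℕ) (s : ℝ) (e I : ℕ → V) (c g : ℕ → ℝ) (ρ π : ℕ → V) (X : ℝ) (k : ℕ) :
    Prop where
  iρ : ‖ρ k - e k‖ ≤ X
  iπ : ‖π k - I k‖ ≤ 6 * n * X
  ic : |c k| ≤ 4 * (s * X)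
  igl : (1 - k / (4 * n)) * (s * X) ≤ |g k|
  igu : |g k| ≤ (1 + k / (2 * n)) * (s * X)

omit [InnerProductSpace ℝ V] in
theorem norm_sq_near {v e : V} {X : ℝ} (he : ‖e‖ = 1) (h : ‖v - e‖ ≤ X) :
    |‖v‖ ^ 2 - 1| ≤ 2 * X + X ^ 2 := by
  have h0 : 0 ≤ X := (norm_nonneg _).trans h
  have h1 : ‖v‖ ≤ 1 + X := by
    calc ‖v‖ = ‖e + (v - e)‖ := by congr 1; abel
      _ ≤ ‖e‖ + ‖v - e‖ := norm_add_le _ _
      _ ≤ 1 + X := by linarith
  have h2 : 1 - X ≤ ‖v‖ := by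
    have : ‖e‖ ≤ ‖v‖ + ‖v - e‖ := by
      calc ‖e‖ = ‖v - (v - e)‖ := by congr 1; abel
        _ ≤ ‖v‖ + ‖v - e‖ := norm_sub_le _ _
    linarith
  have h3 : 0 ≤ ‖v‖ := norm_nonneg _
  rw [abs_le]
  constructor
  · by_cases hX : X ≤ 1
    · nlinarith
    · push Not at hX; nlinarith
  · nlinarith

section

variable {n : ℕ} {s lam δ : ℝ} {T : V →ₗ[ℝ] V} {e I : ℕ → V} {c g a β : ℕ → ℝ} {ρ π : ℕ → V}

theorem LPar.hn' (h : LPar n s lam δ) : (2 : ℝ) ≤ n := by exact_mod_cast h.hn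

/-- estimates of `h_k`, `w_k`, `a_k` from the invariant -/
theorem LInv.hk (P : LPar n s lam δ) (S : LSys n s lam δ T e I c g a β ρ π) {X : ℝ} {k : ℕ}
    (hk1 : 1 ≤ k) (hkn : k < n) (hX0 : 0 < X) (hX : X ≤ lam)
    (iρ : ‖ρ k - e k‖ ≤ X) (ic : |c k| ≤ 4 * (s * X)) :
    |‖ρ k‖ ^ 2 + c k ^ 2 / s ^ 2 - 1| ≤ 3 * X := by
  have hn := P.hn'
  have hs := P.hs
  have hl1 := P.hl1
  have hX1 : X * 12000 ≤ 1 := by
    have : X * (3000 * (n : ℝ) ^ 2) ≤ lam * (3000 * n ^ 2) := by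
      apply mul_le_mul_of_nonneg_right hX; positivity
    have h4 : (4 : ℝ) ≤ n ^ 2 := by nlinarith
    have h5 : X * (3000 * 4) ≤ X * (3000 * (n : ℝ) ^ 2) := by
      apply mul_le_mul_of_nonneg_left _ hX0.le; linarith
    linarith
  have h1 := norm_sq_near (S.he1 k hk1 hkn) iρ
  have h2 : c k ^ 2 / s ^ 2 ≤ 16 * X ^ 2 := by
    rw [div_le_iff₀ (by positivity)]
    have := sq_le_sq' (by linarith [abs_nonneg (c k)]) ic
    rw [sq_abs] at this
    nlinarith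
  have h3 : 0 ≤ c k ^ 2 / s ^ 2 := by positivity
  rw [abs_le] at h1 ⊢
  constructor <;> nlinarith

theorem LInv.wk (P : LPar n s lam δ) (S : LSys n s lam δ T e I c g a β ρ π) {X : ℝ} {k : ℕ}
    (hk1 : 1 ≤ k) (hkn : k < n) (hX0 : 0 < X) (hX : X ≤ lam)
    (iπ : ‖π k - I k‖ ≤ 6 * n * X) (igu : |g k| ≤ 3 / 2 * (s * X)) :
    |⟪π k, T (π k)⟫_ℝ + g k ^ 2 / (lam * s ^ 2) - 1| ≤ 27 * n * X := by
  have hn := P.hn'
  have hs := P.hs
  have hl := P.hl
  have hl1 := P.hl1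
  have hnX : (n : ℝ) ^ 2 * X * 3000 ≤ 1 := by
    have : X * (3000 * (n : ℝ) ^ 2) ≤ lam * (3000 * n ^ 2) := by
      apply mul_le_mul_of_nonneg_right hX; positivity
    nlinarith
  set z := π k - I k with hz
  have e1 : π k = I k + z := by rw [hz]; abel
  have e2 : ⟪π k, T (π k)⟫_ℝ = 1 + 2 * ⟪z, T (I k)⟫_ℝ + ⟪z, T z⟫_ℝ := by
    rw [e1, map_add, inner_add_left, inner_add_right, inner_add_right, S.hTI3 k hk1 hkn]
    have : ⟪I k, T z⟫_ℝ = ⟪z, T (I k)⟫_ℝ := by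
      rw [← S.sym, real_inner_comm]
    rw [this]; ring
  have h1 : |⟪z, T (I k)⟫_ℝ| ≤ 6 * n * X * 2 := by
    refine (abs_real_inner_le_norm _ _).trans ?_
    exact mul_le_mul iπ (S.hTI2 k hk1 hkn) (norm_nonneg _) (by positivity)
  have h2 : |⟪z, T z⟫_ℝ| ≤ 6 * n * X * (4 * (6 * n * X)) := by
    refine (abs_real_inner_le_norm _ _).trans ?_
    refine mul_le_mul iπ ((S.bd z).trans ?_) (norm_nonneg _) (by positivity)
    linarith
  have h3 : g k ^ 2 / (lam * s ^ 2) ≤ 9 / 4 * X := by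
    rw [div_le_iff₀ (by positivity)]
    have h := sq_le_sq' (by linarith [abs_nonneg (g k)]) igu
    rw [sq_abs] at h
    have : X * X ≤ X * lam := mul_le_mul_of_nonneg_left hX hX0.le
    have h4 : (3 / 2 * (s * X)) ^ 2 = 9 / 4 * s ^ 2 * (X * X) := by ring
    have h5 : 9 / 4 * s ^ 2 * (X * X) ≤ 9 / 4 * s ^ 2 * (X * lam) :=
      mul_le_mul_of_nonneg_left this (by positivity)
    calc g k ^ 2 ≤ (3 / 2 * (s * X)) ^ 2 := h
      _ ≤ 9 / 4 * s ^ 2 * (X * lam) := by rw [h4]; exact h5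
      _ = 9 / 4 * X * (lam * s ^ 2) := by ring
  have h4 : 0 ≤ g k ^ 2 / (lam * s ^ 2) := by positivity
  have h5 : 6 * (n : ℝ) * X * (4 * (6 * n * X)) ≤ 144 / 3000 * X := by
    have : 6 * (n : ℝ) * X * (4 * (6 * n * X)) = 144 * ((n : ℝ) ^ 2 * X) * X := by ring
    rw [this]
    have : (n : ℝ) ^ 2 * X ≤ 1 / 3000 := by linarith
    nlinarith
  have h6 : 2 * X ≤ n * X := mul_le_mul_of_nonneg_right hn hX0.le
  rw [e2]
  rw [abs_le] at h1 h2 ⊢
  constructor <;> nlinarith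

theorem LInv.ak (P : LPar n s lam δ) (S : LSys n s lam δ T e I c g a β ρ π) {X : ℝ} {k : ℕ}
    (hk1 : 1 ≤ k) (hkn : k < n) (hX0 : 0 < X) (hX : X ≤ lam)
    (iρ : ‖ρ k - e k‖ ≤ X) (ic : |c k| ≤ 4 * (s * X))
    (iπ : ‖π k - I k‖ ≤ 6 * n * X) (igu : |g k| ≤ 3 / 2 * (s * X)) :
    |a k - 1| ≤ 30 * n * X := by
  have hn := P.hn'
  have hl1 := P.hl1
  have h1 := LInv.hk P S hk1 hkn hX0 hX iρ ic
  have h2 := LInv.wk P S hk1 hkn hX0 hX iπ igu
  have hnX : (n : ℝ) ^ 2 * X * 3000 ≤ 1 := by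
    have : X * (3000 * (n : ℝ) ^ 2) ≤ lam * (3000 * n ^ 2) := by
      apply mul_le_mul_of_nonneg_right hX; positivity
    nlinarith
  have hnX2 : (n : ℝ) * X * 6000 ≤ 1 := by nlinarith
  rw [S.ha k hk1 hkn]
  set h := ‖ρ k‖ ^ 2 + c k ^ 2 / s ^ 2
  set w := ⟪π k, T (π k)⟫_ℝ + g k ^ 2 / (lam * s ^ 2)
  have hw : 99 / 100 ≤ w := by
    have := (abs_le.mp h2).1
    nlinarith
  have hw0 : 0 < w := by linarith
  have h3 : h / w - 1 = (h - w) / w := by field_simp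
  rw [h3, abs_div, abs_of_pos hw0, div_le_iff₀ hw0]
  have h4 : |h - w| ≤ 3 * X + 27 * n * X := by
    have : h - w = (h - 1) - (w - 1) := by ring
    rw [this]
    exact (abs_sub _ _).trans (add_le_add h1 h2)
  have h5 : 3 * X + 27 * n * X ≤ 30 * n * X * (99 / 100) := by nlinarith
  calc |h - w| ≤ 3 * X + 27 * n * X := h4
    _ ≤ 30 * n * X * (99 / 100) := h5
    _ ≤ 30 * n * X * w := mul_le_mul_of_nonneg_left hw (by positivity)

omit [InnerProductSpace ℝ V] in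
theorem LInv.gu {X : ℝ} {k : ℕ} (h : LInv n s e I c g ρ π X k) (P : LPar n s lam δ)
    (hkn : k < n) (hX0 : 0 < X) : |g k| ≤ 3 / 2 * (s * X) := by
  have hn := P.hn'
  have hs := P.hs
  refine h.igu.trans ?_
  apply mul_le_mul_of_nonneg_right _ (by positivity)
  have h1 : (k : ℝ) ≤ n := by exact_mod_cast hkn.le
  have : (k : ℝ) / (2 * n) ≤ 1 / 2 := by
    rw [div_le_div_iff₀ (by positivity) (by norm_num)]
    linarith
  linarith

omit [InnerProductSpace ℝ V] in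
theorem LInv.gl {X : ℝ} {k : ℕ} (h : LInv n s e I c g ρ π X k) (P : LPar n s lam δ)
    (hkn : k < n) (hX0 : 0 < X) : 3 / 4 * (s * X) ≤ |g k| := by
  have hn := P.hn'
  have hs := P.hs
  refine le_trans ?_ h.igl
  apply mul_le_mul_of_nonneg_right _ (by positivity)
  have h1 : (k : ℝ) ≤ n := by exact_mod_cast hkn.le
  have : (k : ℝ) / (4 * n) ≤ 1 / 4 := by
    rw [div_le_div_iff₀ (by positivity) (by norm_num)]
    linarith
  linarith

theorem LInv.step (P : LPar n s lam δ) (S : LSys n s lam δ T e I c g a β ρ π) {X X' : ℝ} {k : ℕ}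
    (hk1 : 1 ≤ k) (hkn : k + 1 < n) (hX0 : 0 < X') (hX : X' ≤ lam) (hXX : X = lam * X')
    (h : LInv n s e I c g ρ π X k) : LInv n s e I c g ρ π X' (k + 1) := by
  have hn := P.hn'
  have hs := P.hs
  have hs1 := P.hs1
  have hl := P.hl
  have hl1 := P.hl1
  have hkn' : k < n := by omega
  have hk1' : 1 ≤ k + 1 := by omega
  -- sizes
  have hsn : s * n ≤ 1 / 64 := by linarith
  have hs2 : s ≤ 1 / 128 := by nlinarith
  have hln2 : lam * (n : ℝ) ^ 2 ≤ 1 / 3000 := by linarith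
  have hln : lam * n ≤ 1 / 6000 := by nlinarith
  have hlam : lam ≤ 1 / 12000 := by nlinarith
  have hX0' : 0 < X := by rw [hXX]; positivity
  have hXX' : X ≤ X' / 12000 := by
    rw [hXX]
    calc lam * X' ≤ 1 / 12000 * X' := mul_le_mul_of_nonneg_right hlam hX0.le
      _ = X' / 12000 := by ring
  have hXl : X ≤ lam := by linarith
  have hnX : n * X ≤ X' / 6000 := by
    rw [hXX]
    calc (n : ℝ) * (lam * X') = (lam * n) * X' := by ring
      _ ≤ 1 / 6000 * X' := mul_le_mul_of_nonneg_right hln hX0.le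
      _ = X' / 6000 := by ring
  have hn2X : n * (n * X) ≤ X' / 3000 := by
    rw [hXX]
    calc (n : ℝ) * (n * (lam * X')) = (lam * n ^ 2) * X' := by ring
      _ ≤ 1 / 3000 * X' := mul_le_mul_of_nonneg_right hln2 hX0.le
      _ = X' / 3000 := by ring
  have gu := h.gu P hkn' hX0'
  have gl := h.gl P hkn' hX0'
  have hak := LInv.ak P S hk1 hkn' hX0' hXl h.iρ h.ic h.iπ gu
  have hhk := LInv.hk P S hk1 hkn' hX0' hXl h.iρ h.ic
  have hX' : X' * 12000 ≤ 1 := by linarith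
  have hak1 : |a k - 1| ≤ X' / 200 := by linarith
  have hau : |a k| ≤ 101 / 100 := by
    have : |a k| ≤ |a k - 1| + 1 := by
      calc |a k| = |(a k - 1) + 1| := by congr 1; ring
        _ ≤ |a k - 1| + |1| := abs_add_le _ _
        _ = _ := by rw [abs_one]
    linarith
  -- |a g / lam|
  have hagl : |a k / lam * g k| ≤ 1.6 * (s * X') := by
    rw [abs_mul, abs_div, abs_of_pos hl]
    have h1 : |a k| / lam * |g k| ≤ (101 / 100) / lam * (3 / 2 * (s * X)) := by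
      apply mul_le_mul _ gu (abs_nonneg _) (by positivity)
      exact div_le_div_of_nonneg_right hau hl.le
    have h2 : (101 / 100) / lam * (3 / 2 * (s * X)) = 303 / 200 * (s * X') := by
      rw [hXX]; field_simp; ring
    rw [h2] at h1
    have : 0 ≤ s * X' := by positivity
    linarith
  have ee1 : ‖e 1‖ = 1 := S.he1 1 le_rfl (by omega)
  -- rho
  have e1 : ρ (k + 1) - e (k + 1) = (ρ k - e k) - (a k - 1) • (T (I k)) - a k • T (π k - I k)
      + (a k / lam * g k) • e 1 := by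
    have hek : e (k + 1) = e k - T (I k) := by rw [S.hTI k hk1 hkn]; abel
    rw [S.hρ k hk1 hkn', map_sub, sub_smul, one_smul, smul_sub, hek]
    abel
  have iρ' : ‖ρ (k + 1) - e (k + 1)‖ ≤ X' := by
    rw [e1]
    have h1 : ‖(a k - 1) • (T (I k))‖ ≤ X' / 200 * 2 := by
      rw [norm_smul, Real.norm_eq_abs]
      exact mul_le_mul hak1 (S.hTI2 k hk1 hkn') (norm_nonneg _) (by positivity)
    have h2 : ‖a k • T (π k - I k)‖ ≤ 101 / 100 * (4 * (6 * n * X)) := by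
      rw [norm_smul, Real.norm_eq_abs]
      apply mul_le_mul hau _ (norm_nonneg _) (by norm_num)
      refine (S.bd _).trans ?_
      apply mul_le_mul_of_nonneg_left h.iπ (by norm_num)
    have h3 : ‖(a k / lam * g k) • e 1‖ ≤ 1.6 * (s * X') := by
      rw [norm_smul, Real.norm_eq_abs, ee1, mul_one]; exact hagl
    have h4 : s * X' ≤ X' / 128 := by
      calc s * X' ≤ 1 / 128 * X' := mul_le_mul_of_nonneg_right hs2 hX0.le
        _ = X' / 128 := by ring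
    calc _ ≤ ‖ρ k - e k‖ + ‖(a k - 1) • (T (I k))‖ + ‖a k • T (π k - I k)‖
          + ‖(a k / lam * g k) • e 1‖ := by
          refine (norm_add_le _ _).trans (add_le_add ?_ le_rfl)
          refine (norm_sub_le _ _).trans (add_le_add ?_ le_rfl)
          exact norm_sub_le _ _
      _ ≤ X + X' / 200 * 2 + 101 / 100 * (4 * (6 * n * X)) + 1.6 * (s * X') :=
          add_le_add (add_le_add (add_le_add h.iρ h1) h2) h3
      _ ≤ X' := by nlinarith
  -- c
  have ic' : |c (k + 1)| ≤ 4 * (s * X') := by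
    rw [S.hc k hk1 hkn']
    have h1 : |c k - a k / lam * g k| ≤ |c k| + |a k / lam * g k| := abs_sub _ _
    have h2 : s * X ≤ s * X' / 12000 := by
      calc s * X ≤ s * (X' / 12000) := mul_le_mul_of_nonneg_left hXX' hs.le
        _ = s * X' / 12000 := by ring
    have h3 : 0 ≤ s * X' := by positivity
    linarith [h.ic]
  have hhk' := LInv.hk P S hk1' hkn hX0 hX iρ' ic'
  -- beta
  have hβ : |β k - 1| ≤ 4 * X' := by
    rw [S.hβ k hk1 hkn']
    set h0 := ‖ρ k‖ ^ 2 + c k ^ 2 / s ^ 2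
    set h1 := ‖ρ (k + 1)‖ ^ 2 + c (k + 1) ^ 2 / s ^ 2
    have hw : 99 / 100 ≤ h0 := by
      have := (abs_le.mp hhk).1
      linarith
    have hw0 : 0 < h0 := by linarith
    have h3 : h1 / h0 - 1 = (h1 - h0) / h0 := by field_simp
    rw [h3, abs_div, abs_of_pos hw0, div_le_iff₀ hw0]
    have h4 : |h1 - h0| ≤ 3 * X' + 3 * X := by
      have : h1 - h0 = (h1 - 1) - (h0 - 1) := by ring
      rw [this]
      exact (abs_sub _ _).trans (add_le_add hhk' hhk)
    calc |h1 - h0| ≤ 3 * X' + 3 * X := h4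
      _ ≤ 4 * X' * (99 / 100) := by linarith
      _ ≤ 4 * X' * h0 := mul_le_mul_of_nonneg_left hw (by positivity)
  have hβu : |β k| ≤ 101 / 100 := by
    have : |β k| ≤ |β k - 1| + 1 := by
      calc |β k| = |(β k - 1) + 1| := by congr 1; ring
        _ ≤ |β k - 1| + |1| := abs_add_le _ _
        _ = _ := by rw [abs_one]
    linarith
  -- pi
  have e2 : π (k + 1) - I (k + 1) = (ρ (k + 1) - e (k + 1)) + (β k - 1) • I k
      + β k • (π k - I k) := by
    rw [S.hπ k hk1 hkn', S.hIs k hk1 hkn, smul_sub, sub_smul, one_smul]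
    abel
  have iπ' : ‖π (k + 1) - I (k + 1)‖ ≤ 6 * n * X' := by
    rw [e2]
    have h1 : ‖(β k - 1) • I k‖ ≤ 4 * X' * (n - 1) := by
      rw [norm_smul, Real.norm_eq_abs]
      exact mul_le_mul hβ (S.hI k hk1 hkn') (norm_nonneg _) (by positivity)
    have h2 : ‖β k • (π k - I k)‖ ≤ 101 / 100 * (6 * n * X) := by
      rw [norm_smul, Real.norm_eq_abs]
      exact mul_le_mul hβu h.iπ (norm_nonneg _) (by norm_num)
    have h6 : 2 * X' ≤ n * X' := mul_le_mul_of_nonneg_right hn hX0.le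
    calc _ ≤ ‖ρ (k + 1) - e (k + 1)‖ + ‖(β k - 1) • I k‖ + ‖β k • (π k - I k)‖ := by
          refine (norm_add_le _ _).trans (add_le_add ?_ le_rfl)
          exact norm_add_le _ _
      _ ≤ X' + 4 * X' * (n - 1) + 101 / 100 * (6 * n * X) :=
          add_le_add (add_le_add iρ' h1) h2
      _ ≤ 6 * n * X' := by nlinarith
  -- g
  have e3 : g (k + 1) = -(g k / lam) + (c k - (a k - 1) / lam * g k
      - s ^ 2 * ⟪e 1, ρ (k + 1)⟫_ℝ + β k * g k) := by
    rw [S.hg k hk1 hkn', S.hc k hk1 hkn']; ring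
  have hG : 0 < |g k| := by
    have : 0 < s * X := by positivity
    linarith
  have hin : |⟪e 1, ρ (k + 1)⟫_ℝ| ≤ X' := by
    have h1 : ⟪e 1, ρ (k + 1)⟫_ℝ = ⟪e 1, ρ (k + 1) - e (k + 1)⟫_ℝ := by
      rw [inner_sub_right, S.heo (k + 1) (by omega) hkn, sub_zero]
    rw [h1]
    refine (abs_real_inner_le_norm _ _).trans ?_
    rw [ee1, one_mul]; exact iρ'
  have hsX : s * X' * lam ≤ 4 / 3 * |g k| := by
    have : s * X' * lam = s * X := by rw [hXX]; ring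
    rw [this]; linarith
  have hsX' : s * X' ≤ 4 / 3 * (|g k| / lam) := by
    have : 4 / 3 * (|g k| / lam) = 4 / 3 * |g k| / lam := by ring
    rw [this, le_div_iff₀ hl]; exact hsX
  have hgg : |g k| = lam * (|g k| / lam) := by field_simp
  set Y := |g k| / lam with hY
  have hY0 : 0 < Y := by positivity
  have err : |c k - (a k - 1) / lam * g k - s ^ 2 * ⟪e 1, ρ (k + 1)⟫_ℝ + β k * g k|
      ≤ 1 / (4 * n) * Y := by
    have hnpos : (0 : ℝ) < n := by linarith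
    have h1 : |c k| ≤ 16 / 3 * (lam * Y) := by
      have := h.ic
      have : 4 * (s * X) ≤ 16 / 3 * |g k| := by linarith
      rw [← hgg]; linarith [h.ic]
    have h2 : |(a k - 1) / lam * g k| ≤ (30 * n * X) * Y := by
      rw [abs_mul, abs_div, abs_of_pos hl]
      have : |a k - 1| / lam * |g k| = |a k - 1| * Y := by rw [hY]; ring
      rw [this]
      exact mul_le_mul_of_nonneg_right hak hY0.le
    have h3 : |s ^ 2 * ⟪e 1, ρ (k + 1)⟫_ℝ| ≤ s * (4 / 3 * Y) := by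
      rw [abs_mul, abs_of_pos (by positivity : (0 : ℝ) < s ^ 2)]
      calc s ^ 2 * |⟪e 1, ρ (k + 1)⟫_ℝ| ≤ s ^ 2 * X' := mul_le_mul_of_nonneg_left hin (by positivity)
        _ = s * (s * X') := by ring
        _ ≤ s * (4 / 3 * Y) := mul_le_mul_of_nonneg_left hsX' hs.le
    have h4 : |β k * g k| ≤ 101 / 100 * (lam * Y) := by
      rw [abs_mul, ← hgg]
      exact mul_le_mul_of_nonneg_right hβu (abs_nonneg _)
    have h5 : |c k - (a k - 1) / lam * g k - s ^ 2 * ⟪e 1, ρ (k + 1)⟫_ℝ + β k * g k|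
        ≤ |c k| + |(a k - 1) / lam * g k| + |s ^ 2 * ⟪e 1, ρ (k + 1)⟫_ℝ| + |β k * g k| := by
      refine (abs_add_le _ _).trans (add_le_add ?_ le_rfl)
      refine (abs_sub _ _).trans (add_le_add ?_ le_rfl)
      exact abs_sub _ _
    refine h5.trans ?_
    have h6 : 16 / 3 * (lam * Y) + (30 * n * X) * Y + s * (4 / 3 * Y) + 101 / 100 * (lam * Y)
        = (16 / 3 * lam + 30 * n * X + 4 / 3 * s + 101 / 100 * lam) * Y := by ring
    have h7 : (16 / 3 * lam + 30 * n * X + 4 / 3 * s + 101 / 100 * lam) ≤ 1 / (4 * n) := by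
      rw [le_div_iff₀ (by positivity)]
      have q1 : lam * n ≤ 1 / 6000 := hln
      have q2 : n * (n * X) ≤ 1 / 3000 := by linarith
      nlinarith
    calc _ ≤ 16 / 3 * (lam * Y) + (30 * n * X) * Y + s * (4 / 3 * Y) + 101 / 100 * (lam * Y) :=
          add_le_add (add_le_add (add_le_add h1 h2) h3) h4
      _ = _ := h6
      _ ≤ _ := mul_le_mul_of_nonneg_right h7 hY0.le
  have habs : |-(g k / lam)| = Y := by rw [abs_neg, abs_div, abs_of_pos hl]
  have g_up : |g (k + 1)| ≤ (1 + 1 / (4 * n)) * Y := by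
    rw [e3]
    refine (abs_add_le _ _).trans ?_
    rw [habs]; linarith
  have g_lo : (1 - 1 / (4 * n)) * Y ≤ |g (k + 1)| := by
    rw [e3]
    have h1 := abs_sub_abs_le_abs_sub (-(g k / lam)) (-(c k - (a k - 1) / lam * g k
      - s ^ 2 * ⟪e 1, ρ (k + 1)⟫_ℝ + β k * g k))
    rw [sub_neg_eq_add, abs_neg (c k - (a k - 1) / lam * g k
      - s ^ 2 * ⟪e 1, ρ (k + 1)⟫_ℝ + β k * g k), habs] at h1
    linarith
  have hYu : Y ≤ (1 + k / (2 * n)) * (s * X') := by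
    rw [hY, div_le_iff₀ hl]
    refine h.igu.trans (le_of_eq ?_)
    rw [hXX]; ring
  have hYl : (1 - k / (4 * n)) * (s * X') ≤ Y := by
    rw [hY, le_div_iff₀ hl]
    refine le_trans (le_of_eq ?_) h.igl
    rw [hXX]; ring
  have hkn2 : (k : ℝ) + 1 ≤ n := by exact_mod_cast hkn.le
  have hk0 : (0 : ℝ) ≤ k := Nat.cast_nonneg _
  have hnpos : (0 : ℝ) < n := by linarith
  have hq : 0 < 1 / (4 * (n : ℝ)) := by positivity
  set q := 1 / (4 * (n : ℝ)) with hq'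
  have hq1 : q * (4 * n) = 1 := by rw [hq']; field_simp
  have hkq : (k : ℝ) / (4 * n) = k * q := by rw [hq']; ring
  have hkq2 : (k : ℝ) / (2 * n) = 2 * k * q := by rw [hq']; ring
  have hkq1 : (k : ℝ) * q ≤ 1 / 4 := by nlinarith
  refine ⟨iρ', iπ', ic', ?_, ?_⟩
  · push_cast
    have h1 : ((k : ℝ) + 1) / (4 * n) = (k + 1) * q := by rw [hq']; ring
    rw [h1]
    rw [hkq] at hYl
    have hq2 : q ≤ 1 := by nlinarith
    calc (1 - ((k : ℝ) + 1) * q) * (s * X') ≤ (1 - q) * ((1 - k * q) * (s * X')) := by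
          have : (1 - q) * ((1 - k * q) * (s * X')) - (1 - ((k : ℝ) + 1) * q) * (s * X')
            = (k * q * q) * (s * X') := by ring
          have h2 : 0 ≤ (k * q * q) * (s * X') := by positivity
          linarith
      _ ≤ (1 - q) * Y := mul_le_mul_of_nonneg_left hYl (by linarith)
      _ ≤ _ := g_lo
  · push_cast
    have h1 : ((k : ℝ) + 1) / (2 * n) = 2 * (k + 1) * q := by rw [hq']; ring
    rw [h1]
    rw [hkq2] at hYu
    calc |g (k + 1)| ≤ (1 + q) * Y := g_up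
      _ ≤ (1 + q) * ((1 + 2 * k * q) * (s * X')) := mul_le_mul_of_nonneg_left hYu (by linarith)
      _ ≤ (1 + 2 * ((k : ℝ) + 1) * q) * (s * X') := by
          have : (1 + 2 * ((k : ℝ) + 1) * q) * (s * X') - (1 + q) * ((1 + 2 * k * q) * (s * X'))
            = (q * (1 - 2 * (k * q))) * (s * X') := by ring
          have h2 : 0 ≤ (q * (1 - 2 * (k * q))) * (s * X') := by
            have : 0 ≤ 1 - 2 * (k * q) := by linarith
            positivity
          linarith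

theorem LPar.consts (P : LPar n s lam δ) : s * n ≤ 1 / 64 ∧ s ≤ 1 / 128 ∧
    lam * (n : ℝ) ^ 2 ≤ 1 / 3000 ∧ lam * n ≤ 1 / 6000 ∧ lam ≤ 1 / 12000 := by
  have hn := P.hn'
  have hs := P.hs
  have hs1 := P.hs1
  have hl := P.hl
  have hl1 := P.hl1
  have hsn : s * n ≤ 1 / 64 := by linarith
  have hs2 : s ≤ 1 / 128 := by nlinarith
  have hln2 : lam * (n : ℝ) ^ 2 ≤ 1 / 3000 := by linarith
  have hln : lam * n ≤ 1 / 6000 := by nlinarith
  have hlam : lam ≤ 1 / 12000 := by nlinarith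
  exact ⟨hsn, hs2, hln2, hln, hlam⟩

theorem LPar.pow_le (P : LPar n s lam δ) {j : ℕ} (hj : 1 ≤ j) : lam ^ j ≤ lam := by
  have := P.consts.2.2.2.2
  exact pow_le_of_le_one P.hl.le (by linarith) (by omega)

theorem LInv.base (P : LPar n s lam δ) (S : LSys n s lam δ T e I c g a β ρ π) :
    LInv n s e I c g ρ π (lam ^ (n - 1)) 1 := by
  have hn := P.hn'
  have hs := P.hs
  have hl := P.hl
  obtain ⟨hsn, hs2, hln2, hln, hlam⟩ := P.consts
  have hX := P.pow_le (j := n - 1) (by have := P.hn; omega)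
  have hX0 : 0 < lam ^ (n - 1) := by positivity
  have hδ := P.hδ
  have hδ0 : 0 < δ := by rw [hδ]; positivity
  have ee1 : ‖e 1‖ = 1 := S.he1 1 le_rfl (by have := P.hn; omega)
  set X := lam ^ (n - 1)
  have hδX : δ ≤ X / 128 := by rw [hδ]; nlinarith
  have hd : ‖(1 + δ) • e 1 - e 1‖ = δ := by
    have : (1 + δ) • e 1 - e 1 = δ • e 1 := by rw [add_smul, one_smul]; abel
    rw [this, norm_smul, ee1, mul_one, Real.norm_eq_abs, abs_of_pos hδ0]
  have hnpos : (0 : ℝ) < n := by linarith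
  have hq : 0 < 1 / (4 * (n : ℝ)) := by positivity
  have hm : δ + s ^ 2 * (1 + δ) ≤ 1 / (4 * n) := by
    rw [le_div_iff₀ (by positivity)]
    have h1 : δ ≤ lam := by linarith
    have h2 : δ * n ≤ 1 / 6000 := by nlinarith
    have h3 : s ^ 2 * n ≤ 1 / 64 * (1 / 128) := by nlinarith
    have h4 : s ^ 2 * (1 + δ) * (4 * n) ≤ 8 * (s ^ 2 * n) := by
      have : s ^ 2 * (1 + δ) * (4 * n) = (4 * (1 + δ)) * (s ^ 2 * n) := by ring
      rw [this]
      apply mul_le_mul_of_nonneg_right _ (by positivity)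
      linarith
    nlinarith
  have hm0 : 0 ≤ δ + s ^ 2 * (1 + δ) := by positivity
  have hg : |g 1| = (s * X) * (1 - (δ + s ^ 2 * (1 + δ))) := by
    rw [S.g1, ← hδ]
    have h1 : -δ * (1 - δ - s ^ 2 * (1 + δ)) = -(δ * (1 - (δ + s ^ 2 * (1 + δ)))) := by ring
    rw [h1, abs_neg, abs_of_nonneg]
    apply mul_nonneg hδ0.le
    have : 1 / (4 * (n : ℝ)) ≤ 1 := by
      rw [div_le_one (by positivity)]; linarith
    linarith
  refine ⟨?_, ?_, ?_, ?_, ?_⟩
  · rw [S.ρ1, hd]; linarith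
  · rw [S.π1, S.hI1, hd]
    have : 1 * X ≤ 6 * n * X := by
      apply mul_le_mul_of_nonneg_right _ hX0.le; linarith
    linarith
  · rw [S.c1, abs_neg, abs_of_pos hδ0, ← hδ]
    linarith
  · rw [hg, mul_comm]
    apply mul_le_mul_of_nonneg_left _ (by positivity)
    push_cast; linarith
  · rw [hg, mul_comm]
    apply mul_le_mul_of_nonneg_right _ (by positivity)
    push_cast
    have : 0 ≤ 1 / (2 * (n : ℝ)) := by positivity
    linarith

theorem LInv.all (P : LPar n s lam δ) (S : LSys n s lam δ T e I c g a β ρ π) :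
    ∀ k, 1 ≤ k → k < n → LInv n s e I c g ρ π (lam ^ (n - k)) k := by
  intro k hk1
  induction k, hk1 using Nat.le_induction with
  | base => intro _; exact LInv.base P S
  | succ k hk1 ih =>
    intro hkn
    refine LInv.step P S hk1 hkn (pow_pos P.hl _) (P.pow_le (by omega)) ?_ (ih (by omega))
    have : n - k = (n - (k + 1)) + 1 := by omega
    rw [this, pow_succ]; ring

/-- what the analysis gives -/
theorem LInv.out (P : LPar n s lam δ) (S : LSys n s lam δ T e I c g a β ρ π) {k : ℕ}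
    (hk1 : 1 ≤ k) (hkn : k < n) :
    |a k - 1| ≤ 1 / 100 ∧ 1 / 2 ≤ ‖ρ k‖ ∧ |g k| ≤ s ∧ ‖π k‖ ≤ n ∧
    99 / 100 ≤ ⟪π k, T (π k)⟫_ℝ + g k ^ 2 / (lam * s ^ 2) ∧
    1 / 2 ≤ ‖ρ k‖ ^ 2 + c k ^ 2 / s ^ 2 := by
  have hn := P.hn'
  have hs := P.hs
  have hl := P.hl
  obtain ⟨hsn, hs2, hln2, hln, hlam⟩ := P.consts
  have h := LInv.all P S k hk1 hkn
  have hX := P.pow_le (j := n - k) (by omega)
  have hX0 : 0 < lam ^ (n - k) := pow_pos hl _
  set X := lam ^ (n - k)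
  have gu := h.gu P hkn hX0
  have hak := LInv.ak P S hk1 hkn hX0 hX h.iρ h.ic h.iπ gu
  have hwk := LInv.wk P S hk1 hkn hX0 hX h.iπ gu
  have hhk := LInv.hk P S hk1 hkn hX0 hX h.iρ h.ic
  have hnX : n * X ≤ 1 / 6000 := by nlinarith
  have ee : ‖e k‖ = 1 := S.he1 k hk1 hkn
  refine ⟨by linarith, ?_, ?_, ?_, ?_, ?_⟩
  · have : ‖e k‖ ≤ ‖ρ k‖ + ‖ρ k - e k‖ := by
      calc ‖e k‖ = ‖ρ k - (ρ k - e k)‖ := by congr 1; abel
        _ ≤ ‖ρ k‖ + ‖ρ k - e k‖ := norm_sub_le _ _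
    linarith [h.iρ]
  · have : s * X ≤ s * (1 / 12000) := mul_le_mul_of_nonneg_left (by linarith) hs.le
    linarith
  · have h1 : ‖π k‖ ≤ ‖I k‖ + ‖π k - I k‖ := by
      calc ‖π k‖ = ‖I k + (π k - I k)‖ := by congr 1; abel
        _ ≤ _ := norm_add_le _ _
    have := S.hI k hk1 hkn
    linarith [h.iπ]
  · linarith [(abs_le.mp hwk).1]
  · linarith [(abs_le.mp hhk).1]

theorem LInv.final (P : LPar n s lam δ) (S : LSys n s lam δ T e I c g a β ρ π) :
    s / 2 ≤ |c n| := by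
  have hn := P.hn'
  have hs := P.hs
  have hl := P.hl
  obtain ⟨hsn, hs2, hln2, hln, hlam⟩ := P.consts
  obtain ⟨k, rfl⟩ : ∃ k, n = k + 1 := ⟨n - 1, by have := P.hn; omega⟩
  have hk1 : 1 ≤ k := by have := P.hn; omega
  have hkn : k < k + 1 := by omega
  have h := LInv.all P S k hk1 hkn
  have hXe : lam ^ (k + 1 - k) = lam := by
    have : k + 1 - k = 1 := by omega
    rw [this, pow_one]
  rw [hXe] at h
  have gl := h.gl P hkn hl
  have hout := (LInv.out P S hk1 hkn).1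
  have hc := S.hc k hk1 hkn
  have ic := h.ic
  rw [hc]
  have h1 : 99 / 100 ≤ |a k| := by
    have h0 : |(1 : ℝ)| ≤ |a k| + |a k - 1| := by
      calc |(1 : ℝ)| = |a k - (a k - 1)| := by congr 1; ring
        _ ≤ _ := abs_sub _ _
    rw [abs_one] at h0
    linarith
  have h2 : 297 / 400 * s ≤ |a k / lam * g k| := by
    rw [abs_mul, abs_div, abs_of_pos hl]
    calc 297 / 400 * s = (99 / 100) / lam * (3 / 4 * (s * lam)) := by field_simp; ring
      _ ≤ |a k| / lam * |g k| := by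
        apply mul_le_mul (div_le_div_of_nonneg_right h1 hl.le) gl (by positivity) (by positivity)
  have h3 : |a k / lam * g k| ≤ |c k - a k / lam * g k| + |c k| := by
    calc |a k / lam * g k| = |c k - (c k - a k / lam * g k)| := by congr 1; ring
      _ ≤ |c k| + |c k - a k / lam * g k| := abs_sub _ _
      _ = _ := add_comm _ _
  have h4 : s * lam ≤ s * (1 / 12000) := mul_le_mul_of_nonneg_left hlam hs.le
  linarith

end

end Pool.Agent.Lib.MP_02bbae_an
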