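import Mathlib
import Pool.Agent.Lib.MP_02bbae_an.LowerSys
import Pool.Agent.Lib.MP_02bbae_an.LowerMat

/-!
# The matrix of the lower bound and the perturbed run
-/

set_option autoImplicit false

open scoped InnerProductSpace RealInnerProductSpace

namespace Pool.Agent.Lib.MP_02bbae_an

variable {m : ℕ}

/-- the entries -/
noncomputable def aent (s lam μ : ℝ) (i j : ℕ) : ℝ :=
  if i = 0 then (if j = 0 then 1 else if j = 1 then -s else 0)
  else if j = 0 then (if i = 1 then -s else 0)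
  else lam * tent (i - 1) (j - 1) + (if i = 1 ∧ j = 1 then μ else 0)

/-- the matrix -/
noncomputable def Amat (m : ℕ) (s lam μ : ℝ) : Matrix (Fin (m + 2)) (Fin (m + 2)) ℝ :=
  fun i j => aent s lam μ i j

/-- the tail of a vector -/
def tl (v : Fin (m + 2) → ℝ) : Fin (m + 1) → ℝ := fun i => v i.succ

theorem Amat_zero (s lam μ : ℝ) (v : Fin (m + 2) → ℝ) :
    (Amat m s lam μ).mulVec v 0 = v 0 - s * v 1 := by
  unfold Matrix.mulVec dotProduct Amat
  rw [Fin.sum_univ_succ, Fin.sum_univ_succ]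
  have : ∑ i : Fin m, aent s lam μ ((0 : Fin (m + 2)) : ℕ) (i.succ.succ : Fin (m + 2))
      * v i.succ.succ = 0 := by
    apply Finset.sum_eq_zero
    intro i _
    simp [aent]
  rw [this]
  simp [aent]
  ring

theorem Amat_succ (s lam μ : ℝ) (v : Fin (m + 2) → ℝ) (i : Fin (m + 1)) :
    (Amat m s lam μ).mulVec v i.succ = (if (i : ℕ) = 0 then -s * v 0 + μ * v 1 else 0)
      + lam * (Tmat m).mulVec (tl v) i := by
  unfold Matrix.mulVec dotProduct Amat
  rw [Fin.sum_univ_succ]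
  have h1 : ∀ j : Fin (m + 1), aent s lam μ (i.succ : Fin (m + 2)) (j.succ : Fin (m + 2)) * v j.succ
      = lam * (Tmat m i j * tl v j) + (if (i : ℕ) = 0 ∧ (j : ℕ) = 0 then μ * v j.succ else 0) := by
    intro j
    have hj : (j.succ : Fin (m + 2)).val = (j : ℕ) + 1 := rfl
    have hi : (i.succ : Fin (m + 2)).val = (i : ℕ) + 1 := rfl
    rw [hi, hj]
    unfold aent tl Tmat
    rw [if_neg (by omega), if_neg (by omega)]
    simp only [Nat.add_sub_cancel, Nat.add_eq_right]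
    split_ifs <;> ring
  rw [Finset.sum_congr rfl fun j _ => h1 j, Finset.sum_add_distrib, ← Finset.mul_sum]
  have h2 : ∑ j : Fin (m + 1), (if (i : ℕ) = 0 ∧ (j : ℕ) = 0 then μ * v j.succ else 0)
      = if (i : ℕ) = 0 then μ * v 1 else 0 := by
    by_cases hi : (i : ℕ) = 0
    · rw [if_pos hi, Fin.sum_univ_succ]
      rw [Finset.sum_eq_zero]
      · simp [hi]
      · intro j _
        simp
    · rw [if_neg hi]
      apply Finset.sum_eq_zero
      intro j _
      rw [if_neg]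
      exact fun h => hi h.1
  rw [h2]
  have h3 : aent s lam μ (i.succ : Fin (m + 2)) ((0 : Fin (m + 2)) : ℕ) * v 0
      = if (i : ℕ) = 0 then -s * v 0 else 0 := by
    have hi : (i.succ : Fin (m + 2)).val = (i : ℕ) + 1 := rfl
    rw [hi]
    unfold aent
    rw [if_neg (by omega)]
    simp only [Fin.val_zero, Nat.add_eq_right, if_true]
    split_ifs <;> ring
  rw [h3]
  split_ifs <;> ring

theorem dot_succ (v w : Fin (m + 2) → ℝ) : v ⬝ᵥ w = v 0 * w 0 + tl v ⬝ᵥ tl w := by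
  unfold dotProduct tl
  rw [Fin.sum_univ_succ]

/-- the quadratic form of the matrix -/
theorem Amat_quad (s lam μ : ℝ) (v : Fin (m + 2) → ℝ) :
    v ⬝ᵥ (Amat m s lam μ).mulVec v
      = (v 0 - s * v 1) ^ 2 + lam * (tl v ⬝ᵥ (Tmat m).mulVec (tl v)) - (s ^ 2 - μ) * v 1 ^ 2 := by
  rw [dot_succ, Amat_zero]
  have h1 : tl ((Amat m s lam μ).mulVec v) = fun i : Fin (m + 1) => (if (i : ℕ) = 0 then -s * v 0 + μ * v 1 else 0)
      + lam * (Tmat m).mulVec (tl v) i := by
    funext i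
    exact Amat_succ s lam μ v i
  rw [h1]
  have h2 : tl v ⬝ᵥ (fun i : Fin (m + 1) => (if (i : ℕ) = 0 then -s * v 0 + μ * v 1 else 0)
      + lam * (Tmat m).mulVec (tl v) i)
      = v 1 * (-s * v 0 + μ * v 1) + lam * (tl v ⬝ᵥ (Tmat m).mulVec (tl v)) := by
    unfold dotProduct
    simp only [mul_add]
    rw [Finset.sum_add_distrib]
    congr 1
    · rw [Fin.sum_univ_succ, Finset.sum_eq_zero]
      · simp [tl]
        ring
      · intro j _
        simp
    · rw [Finset.mul_sum]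
      exact Finset.sum_congr rfl fun i _ => by ring
  rw [h2]
  ring

/-! ## The run -/

section

variable {N : ℕ}

/-- the step length, with a relative error `δ` in the first one -/
noncomputable def cgA (A : Matrix (Fin N) (Fin N) ℝ) (δ : ℝ) (k : ℕ) (r p : Fin N → ℝ) : ℝ :=
  (r ⬝ᵥ r) / (p ⬝ᵥ A.mulVec p) * (1 + if k = 0 then δ else 0)

/-- conjugate gradients, with a relative error `δ` in the first step length -/
noncomputable def cg (A : Matrix (Fin N) (Fin N) ℝ) (b : Fin N → ℝ) (δ : ℝ) :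
    ℕ → (Fin N → ℝ) × (Fin N → ℝ) × (Fin N → ℝ)
  | 0 => (0, b, b)
  | k + 1 =>
    let t := cg A b δ k
    let α := cgA A δ k t.2.1 t.2.2
    let r := t.2.1 - α • A.mulVec t.2.2
    (t.1 + α • t.2.2, r, r + ((r ⬝ᵥ r) / (t.2.1 ⬝ᵥ t.2.1)) • t.2.2)

variable (A : Matrix (Fin N) (Fin N) ℝ) (b : Fin N → ℝ) (δ : ℝ)

/-- iterates -/
noncomputable def cgx (k : ℕ) : Fin N → ℝ := (cg A b δ k).1
/-- residuals -/
noncomputable def cgr (k : ℕ) : Fin N → ℝ := (cg A b δ k).2.1
/-- directions -/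
noncomputable def cgp (k : ℕ) : Fin N → ℝ := (cg A b δ k).2.2
/-- step lengths -/
noncomputable def cgα (k : ℕ) : ℝ := cgA A δ k (cgr A b δ k) (cgp A b δ k)
/-- beta -/
noncomputable def cgβ (k : ℕ) : ℝ :=
  (cgr A b δ (k + 1) ⬝ᵥ cgr A b δ (k + 1)) / (cgr A b δ k ⬝ᵥ cgr A b δ k)

theorem cgx_zero : cgx A b δ 0 = 0 := rfl
theorem cgr_zero : cgr A b δ 0 = b := rfl
theorem cgp_zero : cgp A b δ 0 = b := rfl
theorem cgx_succ (k : ℕ) : cgx A b δ (k + 1) = cgx A b δ k + cgα A b δ k • cgp A b δ k := rfl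
theorem cgr_succ (k : ℕ) :
    cgr A b δ (k + 1) = cgr A b δ k - cgα A b δ k • A.mulVec (cgp A b δ k) := rfl
theorem cgp_succ (k : ℕ) :
    cgp A b δ (k + 1) = cgr A b δ (k + 1) + cgβ A b δ k • cgp A b δ k := rfl

theorem cgr_eq (k : ℕ) : cgr A b δ k = b - A.mulVec (cgx A b δ k) := by
  induction k with
  | zero => rw [cgr_zero, cgx_zero, Matrix.mulVec_zero, sub_zero]
  | succ k ih =>
    rw [cgr_succ, cgx_succ, Matrix.mulVec_add, Matrix.mulVec_smul, ← sub_sub, ← ih]

end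

/-! ## The scaled variables -/

section

variable (m) (s lam δ : ℝ)

/-- the simulated matrix -/
noncomputable abbrev AS : Matrix (Fin (m + 2)) (Fin (m + 2)) ℝ := Amat m s lam (s ^ 2)

/-- the right-hand side -/
noncomputable def bS : Fin (m + 2) → ℝ := Pi.single 0 1

/-- residuals -/
noncomputable abbrev rS (k : ℕ) : Fin (m + 2) → ℝ := cgr (AS m s lam) (bS m) δ k
/-- directions -/
noncomputable abbrev pS (k : ℕ) : Fin (m + 2) → ℝ := cgp (AS m s lam) (bS m) δ k
/-- iterates -/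
noncomputable abbrev xS (k : ℕ) : Fin (m + 2) → ℝ := cgx (AS m s lam) (bS m) δ k

/-- scaled tail -/
noncomputable def sc (v : Fin (m + 2) → ℝ) : EV m := WithLp.toLp 2 (s⁻¹ • tl v)

theorem tl_add (v w : Fin (m + 2) → ℝ) : tl (v + w) = tl v + tl w := rfl
theorem tl_sub (v w : Fin (m + 2) → ℝ) : tl (v - w) = tl v - tl w := rfl
theorem tl_smul (c : ℝ) (v : Fin (m + 2) → ℝ) : tl (c • v) = c • tl v := rfl

theorem sc_add (v w : Fin (m + 2) → ℝ) : sc m s (v + w) = sc m s v + sc m s w := by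
  unfold sc; rw [tl_add, smul_add]; rfl
theorem sc_sub (v w : Fin (m + 2) → ℝ) : sc m s (v - w) = sc m s v - sc m s w := by
  unfold sc; rw [tl_sub, smul_sub]; rfl
theorem sc_smul (c : ℝ) (v : Fin (m + 2) → ℝ) : sc m s (c • v) = c • sc m s v := by
  unfold sc; rw [tl_smul, smul_comm]; rfl

variable {s}

theorem sc_norm (hs : s ≠ 0) (v : Fin (m + 2) → ℝ) :
    v ⬝ᵥ v = s ^ 2 * (‖sc m s v‖ ^ 2 + v 0 ^ 2 / s ^ 2) := by
  rw [dot_succ, norm_sq_EV]
  unfold sc
  simp only [dotProduct_smul, smul_dotProduct, smul_eq_mul]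
  field_simp
  ring

theorem sc_quad (hs : s ≠ 0) (hl : lam ≠ 0) (v : Fin (m + 2) → ℝ) :
    v ⬝ᵥ (AS m s lam).mulVec v = lam * s ^ 2 * (⟪sc m s v, Top m (sc m s v)⟫_ℝ
      + (v 0 - s * v 1) ^ 2 / (lam * s ^ 2)) := by
  rw [Amat_quad, inner_EV, Top_apply]
  unfold sc
  simp only [dotProduct_smul, smul_dotProduct, smul_eq_mul, Matrix.mulVec_smul]
  field_simp
  ring

theorem sc_mulVec (hs : s ≠ 0) (v : Fin (m + 2) → ℝ) :
    sc m s ((AS m s lam).mulVec v)
      = lam • Top m (sc m s v) - (v 0 - s * v 1) • eV m 1 := by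
  unfold sc eV
  rw [Top_apply]
  simp only [Matrix.mulVec_smul]
  rw [← WithLp.toLp_smul, ← WithLp.toLp_smul, ← WithLp.toLp_sub]
  congr 1
  funext i
  simp only [Pi.smul_apply, Pi.sub_apply, smul_eq_mul]
  have : tl ((AS m s lam).mulVec v) i = (if (i : ℕ) = 0 then -s * v 0 + s ^ 2 * v 1 else 0)
      + lam * (Tmat m).mulVec (tl v) i := Amat_succ s lam (s ^ 2) v i
  rw [this]
  by_cases hi : (i : ℕ) = 0
  · rw [if_pos hi, if_pos (by omega)]
    field_simp
    ring
  · rw [if_neg hi, if_neg (by omega)]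
    field_simp
    ring

theorem inner_e1_sc (hs : s ≠ 0) (v : Fin (m + 2) → ℝ) :
    s ^ 2 * ⟪eV m 1, sc m s v⟫_ℝ = s * v 1 := by
  rw [inner_EV]
  have : (eV m 1).ofLp ⬝ᵥ (sc m s v).ofLp = s⁻¹ * v 1 := by
    unfold eV sc dotProduct
    rw [Fin.sum_univ_succ, Finset.sum_eq_zero]
    · simp [tl]
    · intro j _
      simp
  rw [this]
  field_simp

theorem lsys (hs : s ≠ 0) (hl : lam ≠ 0) :
    LSys (m + 2) s lam δ (Top m) (eV m) (IV m)
      (fun k => rS m s lam δ k 0) (fun k => pS m s lam δ k 0 - s * pS m s lam δ k 1)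
      (fun k => lam * cgα (AS m s lam) (bS m) δ k) (fun k => cgβ (AS m s lam) (bS m) δ k)
      (fun k => sc m s (rS m s lam δ k)) (fun k => sc m s (pS m s lam δ k)) := by
  have hb0 : bS m 0 = 1 := by simp [bS]
  have hb1 : bS m 1 = 0 := by simp [bS]
  have hbtl : tl (bS m) = 0 := by
    funext i; simp [tl, bS]
  have hbb : bS m ⬝ᵥ bS m = 1 := by rw [dot_succ, hb0, hbtl]; simp
  have hAb0 : (AS m s lam).mulVec (bS m) 0 = 1 := by rw [Amat_zero, hb0, hb1]; ring
  have hbAb : bS m ⬝ᵥ (AS m s lam).mulVec (bS m) = 1 := by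
    rw [Amat_quad, hb0, hb1, hbtl]; simp
  have hα0 : cgα (AS m s lam) (bS m) δ 0 = 1 + δ := by
    unfold cgα cgA
    rw [cgr_zero, cgp_zero, hbb, hbAb, if_pos rfl]; ring
  have hr1 : rS m s lam δ 1 = bS m - (1 + δ) • (AS m s lam).mulVec (bS m) := by
    have := cgr_succ (AS m s lam) (bS m) δ 0
    rw [cgr_zero, cgp_zero, hα0] at this
    exact this
  have hc1 : rS m s lam δ 1 0 = -δ := by
    rw [hr1]
    simp only [Pi.sub_apply, Pi.smul_apply, smul_eq_mul, hAb0, hb0]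
    ring
  have hscb : sc m s (bS m) = 0 := by
    unfold sc; rw [hbtl, smul_zero]; rfl
  have hρ1 : sc m s (rS m s lam δ 1) = (1 + δ) • eV m 1 := by
    rw [hr1, sc_sub, sc_smul, sc_mulVec m lam hs, hscb, hb0, hb1, map_zero]
    simp
  have hrr1 : rS m s lam δ 1 ⬝ᵥ rS m s lam δ 1 = δ ^ 2 + s ^ 2 * (1 + δ) ^ 2 := by
    rw [sc_norm m hs, hρ1, hc1, norm_smul, eV_norm le_rfl (by omega), mul_one, Real.norm_eq_abs,
      sq_abs]
    field_simp
    ring
  have hp1 : pS m s lam δ 1 = rS m s lam δ 1 + (δ ^ 2 + s ^ 2 * (1 + δ) ^ 2) • bS m := by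
    have := cgp_succ (AS m s lam) (bS m) δ 0
    unfold cgβ at this
    rw [cgp_zero, cgr_zero, hbb, div_one] at this
    rw [← hrr1]; exact this
  have hr11 : rS m s lam δ 1 1 = s * (1 + δ) := by
    have h1 := inner_e1_sc m hs (rS m s lam δ 1)
    rw [hρ1, inner_smul_right, real_inner_self_eq_norm_sq, eV_norm le_rfl (by omega)] at h1
    have h2 : s * rS m s lam δ 1 1 = s * (s * (1 + δ)) := by rw [← h1]; ring
    exact mul_left_cancel₀ hs h2
  constructor
  · intro i h1 h2; exact eV_norm h1 (by omega)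
  · intro i h1 _; exact eV_orth h1
  · intro i h1 h2
    refine (IV_norm h1).trans ?_
    have : (i : ℝ) ≤ m + 1 := by exact_mod_cast (by omega : i ≤ m + 1)
    push_cast; linarith
  · intro i _ _; exact IV_succ i
  · exact IV_one
  · intro i h1 h2; exact Top_IV h1 (by omega)
  · intro i h1 h2; exact Top_IV_norm h1 (by omega)
  · intro i h1 h2; exact Top_IV_inner h1 (by omega)
  · exact Top_sym
  · exact Top_bd
  · exact hc1
  · show pS m s lam δ 1 0 - s * pS m s lam δ 1 1 = _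
    rw [hp1]
    simp only [Pi.add_apply, Pi.smul_apply, smul_eq_mul, hb0, hb1, hc1, hr11]
    ring
  · exact hρ1
  · show sc m s (pS m s lam δ 1) = _
    rw [hp1, sc_add, sc_smul, hscb, smul_zero, add_zero, hρ1]
  · intro k hk1 _
    show lam * cgα (AS m s lam) (bS m) δ k = _
    unfold cgα cgA
    rw [if_neg (by omega), sc_norm m hs, sc_quad m lam hs hl]
    set h := ‖sc m s (cgr (AS m s lam) (bS m) δ k)‖ ^ 2 + cgr (AS m s lam) (bS m) δ k 0 ^ 2 / s ^ 2
    set w := ⟪sc m s (cgp (AS m s lam) (bS m) δ k), Top m (sc m s (cgp (AS m s lam) (bS m) δ k))⟫_ℝ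
      + (cgp (AS m s lam) (bS m) δ k 0 - s * cgp (AS m s lam) (bS m) δ k 1) ^ 2 / (lam * s ^ 2)
    rw [add_zero, mul_one]
    by_cases hw : w = 0
    · rw [hw]; simp
    · field_simp
  · intro k _ _
    show rS m s lam δ (k + 1) 0 = _
    have := cgr_succ (AS m s lam) (bS m) δ k
    change rS m s lam δ (k + 1) = _ at this
    rw [this]
    simp only [Pi.sub_apply, Pi.smul_apply, smul_eq_mul, Amat_zero]
    field_simp
  · intro k _ _
    show sc m s (rS m s lam δ (k + 1)) = _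
    have := cgr_succ (AS m s lam) (bS m) δ k
    change rS m s lam δ (k + 1) = _ at this
    rw [this, sc_sub, sc_smul, sc_mulVec m lam hs, smul_sub, smul_smul, smul_smul]
    have h1 : cgα (AS m s lam) (bS m) δ k * lam = lam * cgα (AS m s lam) (bS m) δ k := mul_comm _ _
    have h2 : lam * cgα (AS m s lam) (bS m) δ k / lam = cgα (AS m s lam) (bS m) δ k := by
      field_simp
    rw [h1, h2]
    abel
  · intro k _ _
    show cgβ (AS m s lam) (bS m) δ k = _
    unfold cgβ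
    rw [sc_norm m hs, sc_norm m hs]
    have : s ^ 2 ≠ 0 := pow_ne_zero _ hs
    rw [mul_div_mul_left _ _ this]
  · intro k _ _
    show pS m s lam δ (k + 1) 0 - s * pS m s lam δ (k + 1) 1 = _
    rw [inner_e1_sc m hs]
    have := cgp_succ (AS m s lam) (bS m) δ k
    change pS m s lam δ (k + 1) = _ at this
    rw [this]
    simp only [Pi.add_apply, Pi.smul_apply, smul_eq_mul]
    ring
  · intro k _ _
    show sc m s (pS m s lam δ (k + 1)) = _
    have := cgp_succ (AS m s lam) (bS m) δ k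
    change pS m s lam δ (k + 1) = _ at this
    rw [this, sc_add, sc_smul]

end

end Pool.Agent.Lib.MP_02bbae_an
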