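import Mathlib
import Pool.Agent.Lib.MP_02bbae_an.Defs
import Pool.Agent.Lib.MP_02bbae_an.LowerCG

/-!
# The failing run
-/

set_option autoImplicit false

open scoped InnerProductSpace RealInnerProductSpace ENNReal

namespace Pool.Agent.Lib.MP_02bbae_an

/-! ## Exact operations -/

theorem Fl.exact {u : ℝ} (hu : 0 ≤ u) (z : ℝ) : Fl u z z := ⟨0, by simpa using hu, by simp⟩

theorem FlSum.exact {u : ℝ} (hu : 0 ≤ u) (s : Multiset ℝ) (hs : s ≠ 0) : FlSum u s s.sum := by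
  induction s using Multiset.induction with
  | empty => exact absurd rfl hs
  | cons a s ih =>
    by_cases h : s = 0
    · subst h
      simpa using FlSum.single (u := u) a
    · have h1 := FlSum.add (FlSum.single (u := u) a) (ih h) (Fl.exact hu (a + s.sum))
      have h2 : ({a} : Multiset ℝ) + s = a ::ₘ s := Multiset.singleton_add a s
      rw [h2] at h1
      rw [Multiset.sum_cons]
      exact h1

theorem FlDot.pert {n : ℕ} {u : ℝ} (hu : 0 ≤ u) (hn : 0 < n) (a a' p : Fin n → ℝ)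
    (h : ∀ j, ∃ δ, |δ| ≤ u ∧ a' j = a j * (1 + δ)) : FlDot u a p (a' ⬝ᵥ p) := by
  refine ⟨fun j => a' j * p j, fun j => ?_, ?_⟩
  · obtain ⟨δ, h1, h2⟩ := h j
    refine ⟨δ, h1, ?_⟩
    show a' j * p j = _
    rw [h2]; ring
  · have h1 := FlSum.exact hu (Finset.univ.val.map fun j => a' j * p j) (by
      intro h
      have h2 := congrArg Multiset.card h
      simp at h2
      omega)
    exact h1

theorem FlDot.exact {n : ℕ} {u : ℝ} (hu : 0 ≤ u) (hn : 0 < n) (a p : Fin n → ℝ) :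
    FlDot u a p (a ⬝ᵥ p) :=
  FlDot.pert hu hn a a p fun j => ⟨0, by simpa using hu, by simp⟩

theorem FlAddMul.exact {n : ℕ} {u : ℝ} (hu : 0 ≤ u) (z : Fin n → ℝ) (a : ℝ) (y : Fin n → ℝ) :
    FlAddMul u z a y (z + a • y) :=
  fun i => ⟨a * y i, Fl.exact hu _, Fl.exact hu _⟩

theorem FlSubMul.exact {n : ℕ} {u : ℝ} (hu : 0 ≤ u) (z : Fin n → ℝ) (a : ℝ) (y : Fin n → ℝ) :
    FlSubMul u z a y (z - a • y) :=
  fun i => ⟨a * y i, Fl.exact hu _, Fl.exact hu _⟩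

/-! ## Norms -/

theorem nrm_nonneg {n : ℕ} (v : Fin n → ℝ) : 0 ≤ nrm v := norm_nonneg _

theorem nrm_sq {n : ℕ} (v : Fin n → ℝ) : nrm v ^ 2 = v ⬝ᵥ v := by
  unfold nrm
  rw [EuclideanSpace.norm_sq_eq]
  unfold dotProduct
  exact Finset.sum_congr rfl fun i _ => by rw [Real.norm_eq_abs, sq_abs, sq]

theorem nrm_add_le {n : ℕ} (v w : Fin n → ℝ) : nrm (v + w) ≤ nrm v + nrm w := by
  unfold nrm; exact norm_add_le _ _

theorem nrm_sub_le {n : ℕ} (v w : Fin n → ℝ) : nrm (v - w) ≤ nrm v + nrm w := by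
  unfold nrm; exact norm_sub_le _ _

theorem nrm_smul {n : ℕ} (c : ℝ) (v : Fin n → ℝ) : nrm (c • v) = |c| * nrm v := by
  unfold nrm; exact norm_smul c (WithLp.toLp 2 v : EuclideanSpace ℝ (Fin n))

theorem nrm_le {n : ℕ} {v : Fin n → ℝ} {c : ℝ} (hc : 0 ≤ c) (h : v ⬝ᵥ v ≤ c ^ 2) : nrm v ≤ c := by
  rw [← nrm_sq] at h
  exact abs_le_of_sq_le_sq' h hc |>.2

theorem le_nrm {n : ℕ} {v : Fin n → ℝ} {c : ℝ} (h : c ^ 2 ≤ v ⬝ᵥ v) : c ≤ nrm v := by
  rw [← nrm_sq] at h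
  exact le_of_sq_le_sq h (nrm_nonneg v)

theorem abs_coord_le {n : ℕ} (v : Fin n → ℝ) (i : Fin n) : |v i| ≤ nrm v := by
  apply le_nrm
  rw [sq_abs]
  unfold dotProduct
  have := Finset.single_le_sum (f := fun j => v j * v j) (fun j _ => mul_self_nonneg (v j))
    (Finset.mem_univ i)
  simpa [sq] using this

theorem specNorm_le {n : ℕ} {A : Matrix (Fin n) (Fin n) ℝ} {c : ℝ} (hc : 0 ≤ c)
    (h : ∀ v, nrm (A.mulVec v) ≤ c * nrm v) : specNorm A ≤ c := by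
  unfold specNorm
  apply ContinuousLinearMap.opNorm_le_bound _ hc
  intro v
  exact h v.ofLp

theorem eigen_bounds {n : ℕ} {A : Matrix (Fin n) (Fin n) ℝ} (hA : A.IsHermitian) {lo hi : ℝ}
    (h1 : ∀ v, lo * (v ⬝ᵥ v) ≤ v ⬝ᵥ A.mulVec v) (h2 : ∀ v, v ⬝ᵥ A.mulVec v ≤ hi * (v ⬝ᵥ v))
    (i : Fin n) : lo ≤ hA.eigenvalues i ∧ hA.eigenvalues i ≤ hi := by
  have h3 := hA.mulVec_eigenvectorBasis i
  set w := (hA.eigenvectorBasis i).ofLp with hw
  have h4 : w ⬝ᵥ w = 1 := by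
    rw [← nrm_sq]
    have : nrm w = 1 := hA.eigenvectorBasis.orthonormal.1 i
    rw [this]; norm_num
  have h5 : w ⬝ᵥ A.mulVec w = hA.eigenvalues i := by
    rw [h3, dotProduct_smul, h4, smul_eq_mul, mul_one]
  have := h1 w
  have := h2 w
  rw [h4, h5] at *
  constructor <;> linarith

theorem CondLE_of_bounds {n : ℕ} {A : Matrix (Fin n) (Fin n) ℝ} (hA : A.PosDef) {lo hi : ℝ}
    {κ : ℝ≥0∞}
    (h1 : ∀ v, lo * (v ⬝ᵥ v) ≤ v ⬝ᵥ A.mulVec v) (h2 : ∀ v, v ⬝ᵥ A.mulVec v ≤ hi * (v ⬝ᵥ v))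
    (h3 : ENNReal.ofReal hi ≤ κ * ENNReal.ofReal lo) : CondLE hA κ := by
  intro i j
  have hi' := (eigen_bounds hA.1 h1 h2 i).2
  have hj' := (eigen_bounds hA.1 h1 h2 j).1
  calc ENNReal.ofReal (hA.1.eigenvalues i) ≤ ENNReal.ofReal hi := ENNReal.ofReal_le_ofReal hi'
    _ ≤ κ * ENNReal.ofReal lo := h3
    _ ≤ κ * ENNReal.ofReal (hA.1.eigenvalues j) := by
      gcongr

theorem eta_lb {n : ℕ} {A : Matrix (Fin n) (Fin n) ℝ} {b x : Fin n → ℝ} {s ε X : ℝ}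
    (hb : nrm b = 1) (hA : specNorm A ≤ 2) (hx : nrm x ≤ X) (h : s ≤ nrm (b - A.mulVec x))
    (hε : 0 < ε) (hs : (2 * X + 1) * ε < s) : ε < eta A b x := by
  unfold eta
  have h0 : 0 ≤ specNorm A := norm_nonneg _
  have h1 : 0 ≤ nrm x := nrm_nonneg x
  have hden : 0 < specNorm A * nrm x + nrm b := by rw [hb]; positivity
  rw [lt_div_iff₀ hden, hb]
  have h2 : specNorm A * nrm x ≤ 2 * X := mul_le_mul hA hx h1 (by norm_num)
  calc ε * (specNorm A * nrm x + 1) ≤ ε * (2 * X + 1) := by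
        apply mul_le_mul_of_nonneg_left _ hε.le; linarith
    _ < s := by linarith
    _ ≤ _ := h

/-! ## Properties of the matrix -/

section

variable {m : ℕ}

theorem aent_symm (s lam μ : ℝ) (i j : ℕ) : aent s lam μ i j = aent s lam μ j i := by
  unfold aent
  rw [tent_symm (i - 1) (j - 1)]
  split_ifs <;> first | rfl | (exfalso; omega)

theorem tl_dot_le (v : Fin (m + 2) → ℝ) : tl v ⬝ᵥ tl v ≤ v ⬝ᵥ v := by
  rw [dot_succ]; nlinarith [sq_nonneg (v 0)]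

theorem one_sq_le (v : Fin (m + 2) → ℝ) : v 1 ^ 2 ≤ tl v ⬝ᵥ tl v := by
  unfold dotProduct tl
  have := Finset.single_le_sum (f := fun j : Fin (m + 1) => v j.succ * v j.succ)
    (fun j _ => mul_self_nonneg (v j.succ)) (Finset.mem_univ 0)
  simpa [sq] using this

theorem T_upper (w : Fin (m + 1) → ℝ) : w ⬝ᵥ (Tmat m).mulVec w ≤ 4 * (w ⬝ᵥ w) := by
  rw [Tmat_dot]
  refine le_trans (le_of_eq ?_) (dif_sq_le w)
  simp only [sq]

theorem T_lower (w : Fin (m + 1) → ℝ) :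
    w ⬝ᵥ w ≤ (m + 1) ^ 2 * (w ⬝ᵥ (Tmat m).mulVec w) := by
  rw [Tmat_dot]
  refine (dot_le_dif w).trans (le_of_eq ?_)
  simp only [sq]

/-- the further parameters -/
structure LPar2 (m : ℕ) (s lam δ μ : ℝ) : Prop extends LPar (m + 2) s lam δ where
  hsl : 3 * ((m : ℝ) + 2) ^ 2 * s ≤ lam
  hμ0 : 0 ≤ μ
  hμ : μ ≤ s ^ 2

variable {s lam δ μ : ℝ}

theorem LPar2.c (P : LPar2 m s lam δ μ) : s * ((m : ℝ) + 2) ≤ 1 / 64 ∧ s ≤ 1 / 128 ∧
    lam * ((m : ℝ) + 2) ^ 2 ≤ 1 / 3000 ∧ lam ≤ 1 / 12000 ∧ 12 * s ≤ lam := by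
  obtain ⟨h1, h2, h3, -, h5⟩ := P.toLPar.consts
  push_cast at h1 h3
  refine ⟨h1, h2, h3, h5, ?_⟩
  have h6 := P.hsl
  have h7 : (4 : ℝ) ≤ ((m : ℝ) + 2) ^ 2 := by
    have : (0 : ℝ) ≤ m := Nat.cast_nonneg _
    nlinarith
  have h8 := P.hs
  nlinarith

theorem Amat_upper (P : LPar2 m s lam δ μ) (v : Fin (m + 2) → ℝ) :
    v ⬝ᵥ (Amat m s lam μ).mulVec v ≤ 2 * (v ⬝ᵥ v) := by
  obtain ⟨h1, h2, h3, h4, h5⟩ := P.c
  have hs := P.hs
  have hl := P.hl
  rw [Amat_quad]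
  have h6 : tl v ⬝ᵥ (Tmat m).mulVec (tl v) ≤ 4 * (tl v ⬝ᵥ tl v) := T_upper _
  have h7 := one_sq_le v
  have h8 := dot_succ v v
  have h9 : 0 ≤ (s ^ 2 - μ) * v 1 ^ 2 := mul_nonneg (by linarith [P.hμ]) (sq_nonneg _)
  have h10 : (v 0 - s * v 1) ^ 2 ≤ (1 + s ^ 2) * (v 0 ^ 2 + v 1 ^ 2) := by
    nlinarith [sq_nonneg (s * v 0 + v 1)]
  have h11 : lam * (tl v ⬝ᵥ (Tmat m).mulVec (tl v)) ≤ lam * (4 * (tl v ⬝ᵥ tl v)) :=
    mul_le_mul_of_nonneg_left h6 hl.le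
  have h12 : 0 ≤ v 0 ^ 2 := sq_nonneg _
  have h13 : 0 ≤ v 1 ^ 2 := sq_nonneg _
  have h14 : s ^ 2 ≤ 1 / 2 := by nlinarith
  have h15 : (1 + s ^ 2) * (v 0 ^ 2 + v 1 ^ 2) ≤ (3 / 2) * (v 0 ^ 2 + v 1 ^ 2) := by
    apply mul_le_mul_of_nonneg_right _ (by positivity); linarith
  have h16 : lam * (4 * (tl v ⬝ᵥ tl v)) ≤ 1 / 12000 * (4 * (tl v ⬝ᵥ tl v)) := by
    apply mul_le_mul_of_nonneg_right h4; linarith
  rw [h8]
  nlinarith

theorem Amat_lower (P : LPar2 m s lam δ μ) (v : Fin (m + 2) → ℝ) :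
    lam / (4 * ((m : ℝ) + 2) ^ 2) * (v ⬝ᵥ v) ≤ v ⬝ᵥ (Amat m s lam μ).mulVec v := by
  obtain ⟨h1, h2, h3, h4, h5⟩ := P.c
  have hs := P.hs
  have hl := P.hl
  rw [Amat_quad]
  have h6 : tl v ⬝ᵥ tl v ≤ ((m : ℝ) + 1) ^ 2 * (tl v ⬝ᵥ (Tmat m).mulVec (tl v)) := T_lower _
  have h7 := one_sq_le v
  have h8 := dot_succ v v
  have hm : (0 : ℝ) ≤ m := Nat.cast_nonneg _
  set Q := tl v ⬝ᵥ tl v with hQ
  set R := tl v ⬝ᵥ (Tmat m).mulVec (tl v) with hR
  set N := ((m : ℝ) + 2) ^ 2 with hN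
  have hN4 : 4 ≤ N := by rw [hN]; nlinarith
  have hQ0 : 0 ≤ Q := le_trans (sq_nonneg _) h7
  have hMN : ((m : ℝ) + 1) ^ 2 ≤ N := by rw [hN]; nlinarith
  have hR0 : 0 ≤ R := by
    by_contra hc
    push Not at hc
    have : ((m : ℝ) + 1) ^ 2 * R < 0 := mul_neg_of_pos_of_neg (by positivity) hc
    linarith
  have hQR : Q ≤ N * R := h6.trans (mul_le_mul_of_nonneg_right hMN hR0)
  have h9 : (s ^ 2 - μ) * v 1 ^ 2 ≤ s ^ 2 * Q := by
    have h91 : (s ^ 2 - μ) * v 1 ^ 2 ≤ s ^ 2 * v 1 ^ 2 :=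
      mul_le_mul_of_nonneg_right (by linarith [P.hμ0]) (sq_nonneg _)
    exact h91.trans (mul_le_mul_of_nonneg_left h7 (by positivity))
  have h10 : v 0 ^ 2 ≤ 2 * (v 0 - s * v 1) ^ 2 + 2 * s ^ 2 * v 1 ^ 2 := by
    nlinarith [sq_nonneg (v 0 - 2 * (s * v 1))]
  have h11 : 2 * s ^ 2 * v 1 ^ 2 ≤ 2 * s ^ 2 * Q := mul_le_mul_of_nonneg_left h7 (by positivity)
  have hs2 : s ^ 2 ≤ 1 / 100 := by nlinarith
  rw [h8]
  rw [div_mul_eq_mul_div, div_le_iff₀ (by positivity)]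
  have h12 : v 0 * v 0 = v 0 ^ 2 := by ring
  rw [h12]
  have hgg : 0 ≤ (v 0 - s * v 1) ^ 2 := sq_nonneg _
  set gg := (v 0 - s * v 1) ^ 2
  -- lam * (v0² + Q) ≤ (gg + lam R - (s²-μ) v1²) * (4N)
  have h13 : lam * (v 0 ^ 2 + Q) ≤ lam * (2 * gg + (1 + 2 * (1 / 100)) * Q) := by
    apply mul_le_mul_of_nonneg_left _ hl.le
    have : 2 * s ^ 2 * Q ≤ 2 * (1 / 100) * Q := by
      apply mul_le_mul_of_nonneg_right _ hQ0; linarith
    linarith
  have h14 : s ^ 2 * N ≤ lam / 300 := by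
    have := P.hsl
    have h141 : s * (3 * N * s) ≤ s * lam := mul_le_mul_of_nonneg_left this hs.le
    have h142 : s * lam ≤ 1 / 128 * lam := mul_le_mul_of_nonneg_right h2 hl.le
    nlinarith
  have h15 : (s ^ 2 - μ) * v 1 ^ 2 * (4 * N) ≤ 4 * (lam / 300) * Q := by
    calc (s ^ 2 - μ) * v 1 ^ 2 * (4 * N) ≤ s ^ 2 * Q * (4 * N) :=
          mul_le_mul_of_nonneg_right h9 (by positivity)
      _ = 4 * (s ^ 2 * N) * Q := by ring
      _ ≤ 4 * (lam / 300) * Q := by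
          apply mul_le_mul_of_nonneg_right _ hQ0; linarith
  have h16 : lam * Q * 4 ≤ lam * R * (4 * N) := by
    have := mul_le_mul_of_nonneg_left hQR hl.le
    nlinarith
  have h17 : lam * (2 * gg) ≤ gg * (4 * N) := by
    have : lam * 2 ≤ 4 * N := by linarith
    calc lam * (2 * gg) = (lam * 2) * gg := by ring
      _ ≤ (4 * N) * gg := mul_le_mul_of_nonneg_right this hgg
      _ = _ := by ring
  have h18 : 0 ≤ lam * Q := mul_nonneg hl.le hQ0
  calc lam * (v 0 ^ 2 + Q) ≤ lam * (2 * gg + (1 + 2 * (1 / 100)) * Q) := h13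
    _ = lam * (2 * gg) + 1.02 * (lam * Q) := by ring
    _ ≤ gg * (4 * N) + (4 - 4 / 300) * (lam * Q) := by linarith
    _ ≤ gg * (4 * N) + lam * R * (4 * N) - (s ^ 2 - μ) * v 1 ^ 2 * (4 * N) := by linarith
    _ = _ := by ring

theorem Amat_posDef (P : LPar2 m s lam δ μ) : (Amat m s lam μ).PosDef := by
  apply Matrix.PosDef.of_dotProduct_mulVec_pos
  · ext i j
    simp only [Matrix.conjTranspose_apply, star_trivial]
    exact aent_symm s lam μ j i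
  · intro x hx
    have h1 := Amat_lower P x
    have h2 : 0 < x ⬝ᵥ x := by
      rw [← nrm_sq]
      have : nrm x ≠ 0 := by
        unfold nrm
        rw [norm_ne_zero_iff]
        intro h
        apply hx
        have := congrArg WithLp.ofLp h
        simpa using this
      positivity
    have h3 := P.hl
    have h4 : 0 < lam / (4 * ((m : ℝ) + 2) ^ 2) * (x ⬝ᵥ x) := by positivity
    have h5 : star x ⬝ᵥ (Amat m s lam μ).mulVec x = x ⬝ᵥ (Amat m s lam μ).mulVec x := by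
      simp
    rw [h5]
    linarith

/-- the vector with one nonzero entry -/
theorem Amat_diff (v : Fin (m + 2) → ℝ) :
    (Amat m s lam (s ^ 2)).mulVec v - (Amat m s lam μ).mulVec v
      = Pi.single 1 ((s ^ 2 - μ) * v 1) := by
  funext i
  refine Fin.cases ?_ (fun i => ?_) i
  · simp only [Pi.sub_apply]
    rw [Amat_zero, Amat_zero, sub_self, Pi.single_eq_of_ne]
    exact (Fin.succ_ne_zero (0 : Fin (m + 1))).symm
  · simp only [Pi.sub_apply]
    rw [Amat_succ, Amat_succ]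
    by_cases h : (i : ℕ) = 0
    · have hi : i = 0 := Fin.ext h
      subst hi
      rw [if_pos h, if_pos h]
      have : (Fin.succ (0 : Fin (m + 1))) = (1 : Fin (m + 2)) := rfl
      rw [this, Pi.single_eq_same]
      ring
    · rw [if_neg h, if_neg h, sub_self, Pi.single_eq_of_ne]
      intro hc
      apply h
      have : (Fin.succ i) = (Fin.succ (0 : Fin (m + 1))) := hc
      have := Fin.succ_injective _ this
      rw [this]; rfl

theorem nrm_single {n : ℕ} (i : Fin n) (a : ℝ) : nrm (Pi.single i a) = |a| := by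
  have h : nrm (Pi.single i a : Fin n → ℝ) ^ 2 = |a| ^ 2 := by
    rw [nrm_sq]
    simp [sq]
  exact (pow_left_inj₀ (nrm_nonneg _) (abs_nonneg _) (by norm_num)).mp h

theorem Amat_spec (P : LPar2 m s lam δ μ) : specNorm (Amat m s lam μ) ≤ 2 := by
  apply specNorm_le (by norm_num)
  intro v
  obtain ⟨h1, h2, h3, h4, h5⟩ := P.c
  have hs := P.hs
  have hl := P.hl
  set N := nrm v with hN
  have hN0 : 0 ≤ N := nrm_nonneg v
  have hv0 := abs_coord_le v 0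
  have hv1 := abs_coord_le v 1
  -- the simulated matrix
  have e1 : (Amat m s lam μ).mulVec v
      = (Amat m s lam (s ^ 2)).mulVec v - Pi.single 1 ((s ^ 2 - μ) * v 1) := by
    rw [← Amat_diff (lam := lam)]; abel
  have e2 : nrm (Pi.single 1 ((s ^ 2 - μ) * v 1) : Fin (m + 2) → ℝ) ≤ 1 / 100 * N := by
    rw [nrm_single, abs_mul]
    apply mul_le_mul _ hv1 (abs_nonneg _) (by norm_num)
    rw [abs_of_nonneg (by linarith [P.hμ])]
    nlinarith [P.hμ0]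
  have e3 : nrm ((Amat m s lam (s ^ 2)).mulVec v) ≤ 3 / 2 * N := by
    apply nrm_le (by positivity)
    rw [sc_norm m hs.ne', Amat_zero]
    have e4 : ‖sc m s ((Amat m s lam (s ^ 2)).mulVec v)‖ ≤ (4 * lam * N + (2 * N) * s) / s := by
      rw [sc_mulVec m lam hs.ne']
      refine (norm_sub_le _ _).trans ?_
      rw [norm_smul, norm_smul, Real.norm_eq_abs, Real.norm_eq_abs, abs_of_pos hl,
        eV_norm le_rfl (by omega), mul_one]
      have e5 : ‖Top m (sc m s v)‖ ≤ 4 * (N / s) := by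
        refine (Top_bd _).trans ?_
        apply mul_le_mul_of_nonneg_left _ (by norm_num)
        have e6 := sc_norm m hs.ne' v
        rw [le_div_iff₀ hs]
        have e7 : (‖sc m s v‖ * s) ^ 2 ≤ N ^ 2 := by
          rw [hN, nrm_sq, e6]
          have : 0 ≤ v 0 ^ 2 / s ^ 2 := by positivity
          nlinarith [sq_nonneg s]
        exact le_of_sq_le_sq e7 hN0
      have e8 : |v 0 - s * v 1| ≤ 2 * N := by
        refine (abs_sub _ _).trans ?_
        rw [abs_mul, abs_of_pos hs]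
        nlinarith
      calc lam * ‖Top m (sc m s v)‖ + |v 0 - s * v 1|
          ≤ lam * (4 * (N / s)) + 2 * N :=
            add_le_add (mul_le_mul_of_nonneg_left e5 hl.le) e8
        _ = (4 * lam * N + (2 * N) * s) / s := by field_simp
    have e9 : (4 * lam * N + (2 * N) * s) ≤ 1 / 10 * N := by nlinarith
    have e10 : s ^ 2 * ‖sc m s ((Amat m s lam (s ^ 2)).mulVec v)‖ ^ 2 ≤ (1 / 10 * N) ^ 2 := by
      rw [← mul_pow]
      apply pow_le_pow_left₀ (by positivity)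
      rw [le_div_iff₀ hs] at e4
      linarith
    have e11 : |v 0 - s * v 1| ≤ 129 / 128 * N := by
      refine (abs_sub _ _).trans ?_
      rw [abs_mul, abs_of_pos hs]
      nlinarith
    have e12 : (v 0 - s * v 1) ^ 2 ≤ (129 / 128 * N) ^ 2 := by
      rw [← sq_abs]
      exact pow_le_pow_left₀ (abs_nonneg _) e11 2
    have e13 : s ^ 2 * (‖sc m s ((Amat m s lam (s ^ 2)).mulVec v)‖ ^ 2
        + (v 0 - s * v 1) ^ 2 / s ^ 2)
        = s ^ 2 * ‖sc m s ((Amat m s lam (s ^ 2)).mulVec v)‖ ^ 2 + (v 0 - s * v 1) ^ 2 := by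
      have := hs.ne'
      field_simp
    rw [e13]
    nlinarith
  rw [e1]
  refine (nrm_sub_le _ _).trans ?_
  linarith

end

end Pool.Agent.Lib.MP_02bbae_an
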