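import Mathlib
import Pool.Agent.Lib.MP_02bbae_an.LowerFail

/-!
# The guarantee fails when the precision is too low
-/

set_option autoImplicit false

open scoped InnerProductSpace RealInnerProductSpace ENNReal

namespace Pool.Agent.Lib.MP_02bbae_an

variable {m : ℕ} {s lam δ μ : ℝ}

/-- the failing run -/
noncomputable def failRun (m : ℕ) (s lam δ : ℝ) : Run (m + 2) where
  x := xS m s lam δ
  r := rS m s lam δ
  p := pS m s lam δ
  q := fun k => (AS m s lam).mulVec (pS m s lam δ k)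
  q' := fun k => (AS m s lam).mulVec (pS m s lam δ k)
  ρ := fun k => rS m s lam δ k ⬝ᵥ rS m s lam δ k
  ρ' := fun k => rS m s lam δ k ⬝ᵥ rS m s lam δ k
  ρ'' := fun k => rS m s lam δ (k + 1) ⬝ᵥ rS m s lam δ (k + 1)
  σ := fun k => pS m s lam δ k ⬝ᵥ (AS m s lam).mulVec (pS m s lam δ k)
  α := fun k => cgα (AS m s lam) (bS m) δ k
  β := fun k => cgβ (AS m s lam) (bS m) δ k

theorem failRun_reuses : (failRun m s lam δ).Reuses := ⟨rfl, rfl, fun _ => rfl⟩

section

variable (P : LPar2 m s lam δ μ)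
include P

theorem LPar2.sys : LSys (m + 2) s lam δ (Top m) (eV m) (IV m)
      (fun k => rS m s lam δ k 0) (fun k => pS m s lam δ k 0 - s * pS m s lam δ k 1)
      (fun k => lam * cgα (AS m s lam) (bS m) δ k) (fun k => cgβ (AS m s lam) (bS m) δ k)
      (fun k => sc m s (rS m s lam δ k)) (fun k => sc m s (pS m s lam δ k)) :=
  lsys m lam δ P.hs.ne' P.hl.ne'

theorem LPar2.r_pos {k : ℕ} (hk1 : 1 ≤ k) (hk : k ≤ m + 2) :
    s / 2 ≤ nrm (rS m s lam δ k) := by
  have hs := P.hs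
  apply le_nrm
  by_cases h : k < m + 2
  · obtain ⟨-, h2, -, -, -, -⟩ := LInv.out P.toLPar P.sys hk1 h
    rw [sc_norm m hs.ne']
    have h3 : (1 / 2 : ℝ) ^ 2 ≤ ‖sc m s (rS m s lam δ k)‖ ^ 2 :=
      pow_le_pow_left₀ (by norm_num) h2 2
    have h4 : 0 ≤ rS m s lam δ k 0 ^ 2 / s ^ 2 := by positivity
    have h5 : s ^ 2 * ((1 / 2 : ℝ) ^ 2) ≤ s ^ 2 * (‖sc m s (rS m s lam δ k)‖ ^ 2
      + rS m s lam δ k 0 ^ 2 / s ^ 2) := by
      apply mul_le_mul_of_nonneg_left _ (by positivity); linarith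
    calc (s / 2) ^ 2 = s ^ 2 * ((1 / 2 : ℝ) ^ 2) := by ring
      _ ≤ _ := h5
  · have hk2 : k = m + 2 := by omega
    subst hk2
    have h1 := LInv.final P.toLPar P.sys
    have h2 : (s / 2) ^ 2 ≤ |rS m s lam δ (m + 2) 0| ^ 2 :=
      pow_le_pow_left₀ (by positivity) h1 2
    rw [sq_abs] at h2
    rw [dot_succ]
    have h3 : 0 ≤ tl (rS m s lam δ (m + 2)) ⬝ᵥ tl (rS m s lam δ (m + 2)) := by
      rw [← nrm_sq]; positivity
    nlinarith

omit P in
theorem alpha_zero : cgα (AS m s lam) (bS m) δ 0 = 1 + δ ∧ nrm (bS m) = 1 ∧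
    pS m s lam δ 0 = bS m := by
  have hb0 : bS m 0 = 1 := by simp [bS]
  have hb1 : bS m 1 = 0 := by simp [bS]
  have hbtl : tl (bS m) = 0 := by
    funext i; simp [tl, bS]
  have hbb : bS m ⬝ᵥ bS m = 1 := by rw [dot_succ, hb0, hbtl]; simp
  have hbAb : bS m ⬝ᵥ (AS m s lam).mulVec (bS m) = 1 := by
    rw [Amat_quad, hb0, hb1, hbtl]; simp
  refine ⟨?_, ?_, rfl⟩
  · unfold cgα cgA
    rw [cgr_zero, cgp_zero, hbb, hbAb, if_pos rfl]; ring
  · unfold bS
    rw [nrm_single]; exact abs_one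

theorem LPar2.step_norm {k : ℕ} (hk1 : 1 ≤ k) (hk : k < m + 2) :
    nrm (cgα (AS m s lam) (bS m) δ k • pS m s lam δ k) ≤ 2.1 * ((m : ℝ) + 2) * s / lam := by
  have hs := P.hs
  have hl := P.hl
  obtain ⟨c1, c2, c3, c4, c5⟩ := P.c
  obtain ⟨h1, -, h3, h4, -, -⟩ := LInv.out P.toLPar P.sys hk1 hk
  have hm : (0 : ℝ) ≤ m := Nat.cast_nonneg _
  set N := (m : ℝ) + 2 with hN
  have hN' : ((m + 2 : ℕ) : ℝ) = N := by push_cast; rfl
  rw [hN'] at h4
  -- d
  have hd : |pS m s lam δ k 0| ≤ s * 1.02 := by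
    have e1 : pS m s lam δ k 0 = (pS m s lam δ k 0 - s * pS m s lam δ k 1)
        + s * pS m s lam δ k 1 := by ring
    have e0 := inner_e1_sc m hs.ne' (pS m s lam δ k)
    rw [e1]
    refine (abs_add_le _ _).trans ?_
    have e2 : |⟪eV m 1, sc m s (pS m s lam δ k)⟫_ℝ| ≤ N := by
      refine (abs_real_inner_le_norm _ _).trans ?_
      rw [eV_norm le_rfl (by omega), one_mul]; exact h4
    have e3 : |s * pS m s lam δ k 1| ≤ s ^ 2 * N := by
      rw [← e0, abs_mul, abs_of_pos (by positivity : (0 : ℝ) < s ^ 2)]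
      exact mul_le_mul_of_nonneg_left e2 (by positivity)
    have e4 : s ^ 2 * N ≤ s * (1 / 64) := by
      have : s ^ 2 * N = s * (s * N) := by ring
      rw [this]
      exact mul_le_mul_of_nonneg_left c1 hs.le
    linarith
  have hp : nrm (pS m s lam δ k) ≤ 2 * N * s := by
    apply nrm_le (by positivity)
    rw [sc_norm m hs.ne']
    have e1 : s ^ 2 * (‖sc m s (pS m s lam δ k)‖ ^ 2 + pS m s lam δ k 0 ^ 2 / s ^ 2)
        = s ^ 2 * ‖sc m s (pS m s lam δ k)‖ ^ 2 + pS m s lam δ k 0 ^ 2 := by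
      field_simp
    rw [e1]
    have e2 : pS m s lam δ k 0 ^ 2 ≤ (s * 1.02) ^ 2 := by
      rw [← sq_abs]
      exact pow_le_pow_left₀ (abs_nonneg _) hd 2
    have e3 : ‖sc m s (pS m s lam δ k)‖ ^ 2 ≤ N ^ 2 := pow_le_pow_left₀ (norm_nonneg _) h4 2
    have e4 : s ^ 2 * ‖sc m s (pS m s lam δ k)‖ ^ 2 ≤ s ^ 2 * N ^ 2 :=
      mul_le_mul_of_nonneg_left e3 (by positivity)
    have e5 : (4 : ℝ) ≤ N ^ 2 := by rw [hN]; nlinarith
    have e6 : s ^ 2 * 4 ≤ s ^ 2 * N ^ 2 := mul_le_mul_of_nonneg_left e5 (by positivity)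
    nlinarith
  have ha : |cgα (AS m s lam) (bS m) δ k| ≤ 1.01 / lam := by
    rw [le_div_iff₀ hl]
    have e1 : |lam * cgα (AS m s lam) (bS m) δ k| ≤ 1.01 := by
      calc |lam * cgα (AS m s lam) (bS m) δ k|
          = |(lam * cgα (AS m s lam) (bS m) δ k - 1) + 1| := by congr 1; ring
        _ ≤ |lam * cgα (AS m s lam) (bS m) δ k - 1| + |1| := abs_add_le _ _
        _ ≤ 1 / 100 + 1 := by rw [abs_one]; linarith
        _ = 1.01 := by norm_num
    rw [abs_mul, abs_of_pos hl] at e1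
    linarith
  rw [nrm_smul]
  calc |cgα (AS m s lam) (bS m) δ k| * nrm (pS m s lam δ k)
      ≤ 1.01 / lam * (2 * N * s) := mul_le_mul ha hp (nrm_nonneg _) (by positivity)
    _ ≤ 2.1 * N * s / lam := by
      have : 1.01 / lam * (2 * N * s) = 2.02 * N * s / lam := by ring
      rw [this]
      apply div_le_div_of_nonneg_right _ hl.le
      have : 0 < N * s := by positivity
      linarith

theorem LPar2.x_norm {k : ℕ} (hk : k ≤ m + 2) : nrm (xS m s lam δ k) ≤ 3 := by
  have hs := P.hs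
  have hl := P.hl
  obtain ⟨c1, c2, c3, c4, c5⟩ := P.c
  obtain ⟨a1, a2, a3⟩ := alpha_zero (m := m) (s := s) (lam := lam) (δ := δ)
  have hm : (0 : ℝ) ≤ m := Nat.cast_nonneg _
  have hδ : δ ≤ 1 / 2 := by
    rw [P.hδ]
    have := P.pow_le (j := m + 2 - 1) (by omega)
    have h1 : 0 < lam ^ (m + 2 - 1) := by positivity
    nlinarith
  have hδ0 : 0 < δ := by rw [P.hδ]; positivity
  have main : ∀ k, k + 1 ≤ m + 2 → nrm (xS m s lam δ (k + 1))
      ≤ 3 / 2 + k * (2.1 * ((m : ℝ) + 2) * s / lam) := by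
    intro k
    induction k with
    | zero =>
      intro _
      have e1 : xS m s lam δ (0 + 1) = (1 + δ) • bS m := by
        have := cgx_succ (AS m s lam) (bS m) δ 0
        rw [cgx_zero, cgp_zero, a1, zero_add, zero_add] at this
        exact this
      rw [e1, nrm_smul, a2, abs_of_pos (by linarith)]
      push_cast
      linarith
    | succ k ih =>
      intro hk
      have e1 := cgx_succ (AS m s lam) (bS m) δ (k + 1)
      change xS m s lam δ (k + 1 + 1) = _ at e1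
      rw [e1]
      refine (nrm_add_le _ _).trans ?_
      have e2 := ih (by omega)
      have e3 := P.step_norm (k := k + 1) (by omega) (by omega)
      push_cast
      have e4 : nrm (cgx (AS m s lam) (bS m) δ (k + 1)) ≤ 3 / 2
        + k * (2.1 * ((m : ℝ) + 2) * s / lam) := e2
      have e5 : nrm (cgα (AS m s lam) (bS m) δ (k + 1) • cgp (AS m s lam) (bS m) δ (k + 1))
        ≤ 2.1 * ((m : ℝ) + 2) * s / lam := e3
      linarith
  rcases Nat.eq_zero_or_pos k with h0 | h0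
  · subst h0
    have : xS m s lam δ 0 = 0 := rfl
    rw [this]
    have : nrm (0 : Fin (m + 2) → ℝ) = 0 := by unfold nrm; simp
    rw [this]; norm_num
  · obtain ⟨j, rfl⟩ : ∃ j, k = j + 1 := ⟨k - 1, by omega⟩
    refine (main j hk).trans ?_
    have hj : (j : ℝ) ≤ m + 2 := by
      have : j ≤ m + 2 := by omega
      exact_mod_cast this
    have h1 : (j : ℝ) * (2.1 * ((m : ℝ) + 2) * s / lam)
        ≤ (m + 2) * (2.1 * ((m : ℝ) + 2) * s / lam) :=
      mul_le_mul_of_nonneg_right hj (by positivity)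
    have h2 : ((m : ℝ) + 2) * (2.1 * ((m : ℝ) + 2) * s / lam) ≤ 0.7 := by
      have : ((m : ℝ) + 2) * (2.1 * ((m : ℝ) + 2) * s / lam)
        = 0.7 * (3 * ((m : ℝ) + 2) ^ 2 * s) / lam := by ring
      rw [this, div_le_iff₀ hl]
      exact mul_le_mul_of_nonneg_left P.hsl (by norm_num)
    linarith

theorem LPar2.eta_big {ε : ℝ} (hε : 0 < ε) (hsε : 22 * ε ≤ s) {k : ℕ} (hk : k ≤ m + 2) :
    ε < eta (Amat m s lam μ) (bS m) (xS m s lam δ k) := by
  have hs := P.hs
  obtain ⟨c1, c2, c3, c4, c5⟩ := P.c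
  obtain ⟨a1, a2, a3⟩ := alpha_zero (m := m) (s := s) (lam := lam) (δ := δ)
  have hx := P.x_norm hk
  rcases Nat.eq_zero_or_pos k with h0 | h0
  · subst h0
    have h00 : xS m s lam δ 0 = 0 := rfl
    rw [h00]
    apply eta_lb (X := 3) (s := 1) a2 (Amat_spec P) (by rw [← h00]; exact hx) _ hε
    · linarith
    · rw [Matrix.mulVec_zero, sub_zero, a2]
  · apply eta_lb (X := 3) (s := s / 3) a2 (Amat_spec P) hx _ hε
    · linarith
    · have e1 : bS m - (Amat m s lam μ).mulVec (xS m s lam δ k)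
          = rS m s lam δ k - -(Pi.single 1 ((s ^ 2 - μ) * xS m s lam δ k 1)) := by
        rw [← Amat_diff (lam := lam)]
        have := cgr_eq (AS m s lam) (bS m) δ k
        change rS m s lam δ k = _ at this
        rw [this]
        abel
      have e2 := P.r_pos h0 hk
      have e3 : nrm (Pi.single 1 ((s ^ 2 - μ) * xS m s lam δ k 1) : Fin (m + 2) → ℝ)
          ≤ 3 / 128 * s := by
        rw [nrm_single, abs_mul, abs_of_nonneg (by linarith [P.hμ])]
        have h1 : |xS m s lam δ k 1| ≤ 3 := (abs_coord_le _ _).trans hx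
        have h2 : s ^ 2 - μ ≤ 1 / 128 * s := by nlinarith [P.hμ0]
        calc (s ^ 2 - μ) * |xS m s lam δ k 1| ≤ (1 / 128 * s) * 3 :=
              mul_le_mul h2 h1 (abs_nonneg _) (by positivity)
          _ = _ := by ring
      have e4 : nrm (rS m s lam δ k) ≤ nrm (bS m - (Amat m s lam μ).mulVec (xS m s lam δ k))
          + nrm (Pi.single 1 ((s ^ 2 - μ) * xS m s lam δ k 1) : Fin (m + 2) → ℝ) := by
        have : rS m s lam δ k = (bS m - (Amat m s lam μ).mulVec (xS m s lam δ k))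
          - Pi.single 1 ((s ^ 2 - μ) * xS m s lam δ k 1) := by
          rw [e1]; abel
        calc nrm (rS m s lam δ k) = nrm ((bS m - (Amat m s lam μ).mulVec (xS m s lam δ k))
          - Pi.single 1 ((s ^ 2 - μ) * xS m s lam δ k 1)) := by rw [← this]
          _ ≤ _ := nrm_sub_le _ _
      linarith

theorem LPar2.valid {u : ℝ} (hu : 0 ≤ u) (hδ : δ ≤ u)
    (hμ' : μ = s ^ 2 ∨ (μ = 0 ∧ s ^ 2 ≤ u * lam)) :
    (failRun m s lam δ).Valid u (Amat m s lam μ) (bS m) (m + 2) := by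
  have hs := P.hs
  have hl := P.hl
  obtain ⟨c1, c2, c3, c4, c5⟩ := P.c
  obtain ⟨a1, a2, a3⟩ := alpha_zero (m := m) (s := s) (lam := lam) (δ := δ)
  have hδ0 : 0 < δ := by rw [P.hδ]; positivity
  have hr : ∀ k ≤ m + 2, rS m s lam δ k ⬝ᵥ rS m s lam δ k ≠ 0 := by
    intro k hk
    rw [← nrm_sq]
    rcases Nat.eq_zero_or_pos k with h0 | h0
    · subst h0
      have : rS m s lam δ 0 = bS m := rfl
      rw [this, a2]; norm_num
    · have := P.r_pos h0 hk
      have h2 : 0 < nrm (rS m s lam δ k) := by linarith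
      positivity
  have hp : ∀ k < m + 2, pS m s lam δ k ⬝ᵥ (AS m s lam).mulVec (pS m s lam δ k) ≠ 0 := by
    intro k hk
    rcases Nat.eq_zero_or_pos k with h0 | h0
    · subst h0
      have h1 : cgα (AS m s lam) (bS m) δ 0 = 1 + δ := a1
      intro hc
      unfold cgα cgA at h1
      change pS m s lam δ 0 ⬝ᵥ (AS m s lam).mulVec (pS m s lam δ 0) = 0 at hc
      change (rS m s lam δ 0 ⬝ᵥ rS m s lam δ 0) / (pS m s lam δ 0 ⬝ᵥ (AS m s lam).mulVec
        (pS m s lam δ 0)) * _ = _ at h1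
      rw [hc, div_zero, zero_mul] at h1
      linarith
    · obtain ⟨-, -, -, -, h5, -⟩ := LInv.out P.toLPar P.sys h0 hk
      rw [sc_quad m lam hs.ne' hl.ne']
      have : 0 < lam * s ^ 2 := by positivity
      have h6 : (0 : ℝ) < ⟪sc m s (pS m s lam δ k), Top m (sc m s (pS m s lam δ k))⟫_ℝ
        + (pS m s lam δ k 0 - s * pS m s lam δ k 1) ^ 2 / (lam * s ^ 2) := by
        have h7 : (99 / 100 : ℝ) ≤ ⟪sc m s (pS m s lam δ k), Top m (sc m s (pS m s lam δ k))⟫_ℝ
          + (pS m s lam δ k 0 - s * pS m s lam δ k 1) ^ 2 / (lam * s ^ 2) := h5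
        linarith
      positivity
  have hmv : ∀ p : Fin (m + 2) → ℝ, FlMulVec u (Amat m s lam μ) p ((AS m s lam).mulVec p) := by
    intro p i
    apply FlDot.pert hu (by omega)
    intro j
    rcases hμ' with h | ⟨h, h'⟩
    · refine ⟨0, by simpa using hu, ?_⟩
      rw [h]; simp
    · by_cases hij : (i : ℕ) = 1 ∧ (j : ℕ) = 1
      · refine ⟨s ^ 2 / lam, ?_, ?_⟩
        · rw [abs_of_pos (by positivity), div_le_iff₀ hl]; exact h'
        · unfold AS Amat
          rw [hij.1, hij.2, h]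
          unfold aent
          simp [tent]
          field_simp
      · refine ⟨0, by simpa using hu, ?_⟩
        unfold AS Amat aent
        rw [if_neg hij, if_neg hij]; ring
  constructor
  · rfl
  · rfl
  · rfl
  · intro k _; exact FlDot.exact hu (by omega) _ _
  · intro k _; exact hmv _
  · intro k _; exact FlDot.exact hu (by omega) _ _
  · intro k hk; exact hp k hk
  · intro k hk
    refine ⟨if k = 0 then δ else 0, ?_, rfl⟩
    split_ifs
    · rw [abs_of_pos hδ0]; exact hδ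
    · simpa using hu
  · intro k _
    have := cgx_succ (AS m s lam) (bS m) δ k
    show FlAddMul u (cgx (AS m s lam) (bS m) δ k) (cgα (AS m s lam) (bS m) δ k)
      (cgp (AS m s lam) (bS m) δ k) (cgx (AS m s lam) (bS m) δ (k + 1))
    rw [this]
    exact FlAddMul.exact hu _ _ _
  · intro k _; exact hmv _
  · intro k _
    have := cgr_succ (AS m s lam) (bS m) δ k
    show FlSubMul u (cgr (AS m s lam) (bS m) δ k) (cgα (AS m s lam) (bS m) δ k)
      ((AS m s lam).mulVec (cgp (AS m s lam) (bS m) δ k)) (cgr (AS m s lam) (bS m) δ (k + 1))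
    rw [this]
    exact FlSubMul.exact hu _ _ _
  · intro k _; exact FlDot.exact hu (by omega) _ _
  · intro k hk; exact hr k hk.le
  · intro k _; exact FlDot.exact hu (by omega) _ _
  · intro k _; exact Fl.exact hu _
  · intro k _
    have := cgp_succ (AS m s lam) (bS m) δ k
    show FlAddMul u (cgr (AS m s lam) (bS m) δ (k + 1)) (cgβ (AS m s lam) (bS m) δ k)
      (cgp (AS m s lam) (bS m) δ k) (cgp (AS m s lam) (bS m) δ (k + 1))
    rw [this]
    exact FlAddMul.exact hu _ _ _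

end

end Pool.Agent.Lib.MP_02bbae_an
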