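import Mathlib
import Pool.Agent.Lib.MP_02bbae_an.LowerMain

/-!
# The lower bound for the precision
-/

set_option autoImplicit false

open scoped InnerProductSpace RealInnerProductSpace ENNReal

namespace Pool.Agent.Lib.MP_02bbae_an

/-! ## Floating point numbers -/

theorem IsFloat.zero (t : ℕ) : IsFloat t 0 := ⟨0, 0, by simp, by simp⟩

theorem one_lt_two_pow_int {t : ℕ} (ht : 1 ≤ t) : (1 : ℤ) < 2 ^ t := by
  have : (2 : ℤ) ^ 1 ≤ 2 ^ t := pow_le_pow_right₀ (by norm_num) ht
  linarith

theorem IsFloat.zpow {t : ℕ} (ht : 1 ≤ t) (e : ℤ) : IsFloat t ((2 : ℝ) ^ e) :=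
  ⟨1, e, by simpa using one_lt_two_pow_int ht, by simp⟩

theorem IsFloat.neg {t : ℕ} {a : ℝ} (h : IsFloat t a) : IsFloat t (-a) := by
  obtain ⟨m, e, h1, h2⟩ := h
  exact ⟨-m, e, by rwa [abs_neg], by rw [h2]; push_cast; ring⟩

theorem half_pow (i : ℕ) : ((1 : ℝ) / 2) ^ i = (2 : ℝ) ^ (-(i : ℤ)) := by
  rw [zpow_neg, zpow_natCast, one_div, inv_pow]

theorem IsFloat.one {t : ℕ} (ht : 1 ≤ t) : IsFloat t 1 := by
  simpa using IsFloat.zpow ht 0

theorem IsFloat.half_pow {t : ℕ} (ht : 1 ≤ t) (i : ℕ) : IsFloat t (((1 : ℝ) / 2) ^ i) := by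
  rw [MP_02bbae_an.half_pow]; exact IsFloat.zpow ht _

/-- the entries of the matrix are floating point numbers -/
theorem isFloat_aent {t i l : ℕ} (ht : 1 ≤ t) (hi : 1 ≤ i) (hli : l ≤ i) {μ : ℝ}
    (hμ : (μ = ((1 / 2 : ℝ) ^ i) ^ 2 ∧ 2 * i + 1 ≤ t + l) ∨ μ = 0) (a b : ℕ) :
    IsFloat t (aent ((1 / 2) ^ i) ((1 / 2) ^ l) μ a b) := by
  have hlam : ∀ c d : ℕ, IsFloat t (((1 : ℝ) / 2) ^ l * tent c d) := by
    intro c d
    unfold tent
    split_ifs
    · rw [mul_one]; exact IsFloat.half_pow ht l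
    · have : ((1 : ℝ) / 2) ^ l * 2 = (2 : ℝ) ^ (-(l : ℤ) + 1) := by
        rw [half_pow, zpow_add₀ (by norm_num), zpow_one]
      rw [this]; exact IsFloat.zpow ht _
    · rw [mul_neg, mul_one]; exact (IsFloat.half_pow ht l).neg
    · rw [mul_zero]; exact IsFloat.zero t
  unfold aent
  by_cases h1 : a = 0
  · rw [if_pos h1]
    by_cases h2 : b = 0
    · rw [if_pos h2]; exact IsFloat.one ht
    · rw [if_neg h2]
      split_ifs
      · exact (IsFloat.half_pow ht i).neg
      · exact IsFloat.zero t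
  · rw [if_neg h1]
    by_cases h2 : b = 0
    · rw [if_pos h2]
      split_ifs
      · exact (IsFloat.half_pow ht i).neg
      · exact IsFloat.zero t
    · rw [if_neg h2]
      by_cases h3 : a = 1 ∧ b = 1
      · rw [if_pos h3]
        rcases hμ with ⟨hμ, h4⟩ | hμ
        · rw [hμ, h3.1, h3.2]
          have e1 : tent (1 - 1) (1 - 1) = 1 := by simp [tent]
          rw [e1, mul_one]
          refine ⟨2 ^ (2 * i - l) + 1, -(2 * i : ℤ), ?_, ?_⟩
          · have h5 : (2 : ℤ) ^ (2 * i - l) + 1 < 2 ^ t := by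
              have h6 : (2 : ℤ) ^ (2 * i - l + 1) ≤ 2 ^ t :=
                pow_le_pow_right₀ (by norm_num) (by omega)
              have h7 : (2 : ℤ) ^ 1 ≤ 2 ^ (2 * i - l) :=
                pow_le_pow_right₀ (by norm_num) (by omega)
              rw [pow_succ] at h6
              linarith
            rw [abs_of_pos (by positivity)]
            exact h5
          · push_cast
            rw [add_mul, one_mul, half_pow, half_pow]
            have e2 : (2 : ℝ) ^ (2 * i - l) = (2 : ℝ) ^ ((2 * i : ℤ) - l) := by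
              rw [← zpow_natCast]
              congr 1
              omega
            rw [e2, ← zpow_add₀ (by norm_num : (2 : ℝ) ≠ 0)]
            have e3 : (2 * i : ℤ) - l + -(2 * i : ℤ) = -(l : ℤ) := by ring
            rw [e3, ← zpow_natCast, ← zpow_mul]
            congr 2
            push_cast; ring
        · rw [hμ, add_zero]; exact hlam _ _
      · rw [if_neg h3, add_zero]; exact hlam _ _

/-- There is a failing run with `t` bits; it computes every inner product and every matrix-vector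
product only once. -/
def Fails (n : ℕ) (κ : ℝ≥0∞) (ε : ℝ) (t : ℕ) : Prop :=
  ∃ (A : Matrix (Fin n) (Fin n) ℝ) (b : Fin n → ℝ) (hA : A.PosDef), CondLE hA κ ∧ b ≠ 0 ∧
    (∀ i j, IsFloat t (A i j)) ∧ (∀ i, IsFloat t (b i)) ∧
    ∃ (R : Run n) (K : ℕ), R.Reuses ∧ R.Valid ((1 / 2) ^ t) A b K ∧
      (K = n ∨ K ≤ n ∧ R.r K = 0) ∧ ∀ k ≤ K, ε < eta A b (R.x k)

theorem Fails.not_guarantee {n : ℕ} {κ : ℝ≥0∞} {ε : ℝ} {t : ℕ} (h : Fails n κ ε t) :
    ¬ Guarantee n κ ε t := by
  obtain ⟨A, b, hA, h1, h2, h3, h4, R, K, -, h5, h6, h7⟩ := h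
  intro hG
  obtain ⟨k, hk, hk2⟩ := hG A b hA h1 h2 h3 h4 R K h5 h6
  exact absurd hk2 (not_le.mpr (h7 k hk))

theorem Fails.not_strong {n : ℕ} {κ : ℝ≥0∞} {ε : ℝ} {t : ℕ} (h : Fails n κ ε t) :
    ¬ StrongGuarantee n κ ε t := by
  obtain ⟨A, b, hA, h1, h2, h3, h4, R, K, -, h5, h6, h7⟩ := h
  intro hG
  obtain ⟨k, hk, hk2⟩ := hG A b hA h1 h2 h3 h4 R K h5
    (h6.elim Or.inl fun h => Or.inr ⟨h.1, Or.inl h.2⟩)
  exact absurd hk2 (not_le.mpr (h7 k hk))

/-! ## The failure for large `κ` and `1 / ε` -/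

theorem fails_main {m i l t : ℕ} {ε : ℝ} {κ : ℝ≥0∞} (hε : 0 < ε) (ht : 1 ≤ t)
    (h1 : ((1 : ℝ) / 2) ^ i * (64 * ((m : ℝ) + 2)) ≤ 1)
    (h2 : ((1 : ℝ) / 2) ^ l * (3000 * ((m : ℝ) + 2) ^ 2) ≤ 1)
    (h3 : 3 * ((m : ℝ) + 2) ^ 2 * ((1 : ℝ) / 2) ^ i ≤ (1 / 2) ^ l)
    (h4 : 22 * ε ≤ (1 / 2) ^ i)
    (h5 : ENNReal.ofReal 2
      ≤ κ * ENNReal.ofReal (((1 : ℝ) / 2) ^ l / (4 * ((m : ℝ) + 2) ^ 2)))
    (h6 : t ≤ i + l * (m + 1)) : Fails (m + 2) κ ε t := by
  set s : ℝ := (1 / 2) ^ i with hs
  set lam : ℝ := (1 / 2) ^ l with hlam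
  have hm : (0 : ℝ) ≤ m := Nat.cast_nonneg _
  have hs0 : 0 < s := by positivity
  have hl0 : 0 < lam := by positivity
  have hN : (4 : ℝ) ≤ ((m : ℝ) + 2) ^ 2 := by nlinarith
  have h12 : 12 * s ≤ lam := by nlinarith
  have hli : l ≤ i := by
    by_contra hc
    push Not at hc
    have : lam ≤ s := by
      rw [hs, hlam]
      exact pow_le_pow_of_le_one (by norm_num) (by norm_num) hc.le
    linarith
  have hi : 1 ≤ i := by
    by_contra hc
    have : i = 0 := by omega
    rw [hs, this] at h1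
    simp at h1
    linarith
  set μ : ℝ := if 2 * i + 1 ≤ t + l then s ^ 2 else 0 with hμ
  have P : LPar2 m s lam (s * lam ^ (m + 1)) μ := by
    refine ⟨⟨by omega, hs0, ?_, hl0, ?_, rfl⟩, h3, ?_, ?_⟩
    · push_cast; exact h1
    · push_cast; exact h2
    · rw [hμ]; split_ifs <;> positivity
    · rw [hμ]; split_ifs
      · exact le_rfl
      · positivity
  have hu : (0 : ℝ) ≤ (1 / 2) ^ t := by positivity
  have hδ : s * lam ^ (m + 1) ≤ (1 / 2) ^ t := by
    rw [hs, hlam, ← pow_mul, ← pow_add]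
    exact pow_le_pow_of_le_one (by norm_num) (by norm_num) h6
  have hμ' : μ = s ^ 2 ∨ (μ = 0 ∧ s ^ 2 ≤ (1 / 2) ^ t * lam) := by
    rw [hμ]
    split_ifs with hc
    · left; rfl
    · right
      refine ⟨rfl, ?_⟩
      rw [hs, hlam, ← pow_mul, ← pow_add]
      exact pow_le_pow_of_le_one (by norm_num) (by norm_num) (by omega)
  have hV := P.valid hu hδ hμ'
  have hb : bS m ≠ 0 := by
    intro h
    have := congrFun h 0
    simp [bS] at this
  exact ⟨Amat m s lam μ, bS m, Amat_posDef P,
    CondLE_of_bounds _ (Amat_lower P) (Amat_upper P) h5, hb,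
    (fun a b => isFloat_aent ht hi hli (by
      rw [hμ]
      split_ifs with hc
      · left; exact ⟨rfl, hc⟩
      · right; rfl) a b),
    (fun a => by
      unfold bS
      by_cases ha : a = 0
      · rw [ha, Pi.single_eq_same]; exact IsFloat.one ht
      · rw [Pi.single_eq_of_ne ha]; exact IsFloat.zero t),
    failRun m s lam (s * lam ^ (m + 1)), m + 2, failRun_reuses, hV, Or.inl rfl,
    fun k hk => P.eta_big hε h4 hk⟩

/-! ## The trivial failure -/

/-- the run for the identity matrix -/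
noncomputable def trivRun (n : ℕ) (b : Fin n → ℝ) (δ : ℝ) : Run n where
  x := fun k => if k = 0 then 0 else (1 + δ) • b
  r := fun k => if k = 0 then b else 0
  p := fun k => if k = 0 then b else 0
  q := fun _ => b
  q' := fun _ => b
  ρ := fun k => if k = 0 then 1 else 0
  ρ' := fun k => if k = 0 then 1 else 0
  ρ'' := fun _ => 0
  σ := fun _ => 1
  α := fun _ => 1
  β := fun _ => 0

theorem trivRun_reuses (n : ℕ) (b : Fin n → ℝ) (δ : ℝ) : (trivRun n b δ).Reuses :=
  ⟨rfl, rfl, fun k => by simp [trivRun]⟩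

theorem FlMulVec.one {n : ℕ} {u : ℝ} (hu : 0 ≤ u) (hn : 0 < n) (p : Fin n → ℝ) :
    FlMulVec u (1 : Matrix (Fin n) (Fin n) ℝ) p p := by
  intro i
  have h := FlDot.exact hu hn ((1 : Matrix (Fin n) (Fin n) ℝ) i) p
  have h2 : (1 : Matrix (Fin n) (Fin n) ℝ) i ⬝ᵥ p = p i := by
    have : (1 : Matrix (Fin n) (Fin n) ℝ).mulVec p i = p i := by rw [Matrix.one_mulVec]
    exact this
  rwa [h2] at h

theorem fails_triv {n t : ℕ} {ε : ℝ} {κ : ℝ≥0∞} (hn : 1 ≤ n) (hε : 0 < ε) (ht : 1 ≤ t)
    (hκ : 1 ≤ κ) (h : 3 * ε < (1 / 2) ^ t) : Fails n κ ε t := by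
  set u : ℝ := (1 / 2) ^ t with hu'
  have hu : 0 ≤ u := by positivity
  have hu1 : u ≤ 1 / 2 := by
    rw [hu']
    calc ((1 : ℝ) / 2) ^ t ≤ (1 / 2) ^ 1 :=
          pow_le_pow_of_le_one (by norm_num) (by norm_num) ht
      _ = 1 / 2 := by norm_num
  set b : Fin n → ℝ := Pi.single ⟨0, hn⟩ 1 with hb
  have hnb : nrm b = 1 := by rw [hb, nrm_single]; exact abs_one
  have hbb : b ⬝ᵥ b = 1 := by rw [← nrm_sq, hnb]; norm_num
  have hb0 : b ≠ 0 := by
    intro h0
    rw [h0] at hnb
    have : nrm (0 : Fin n → ℝ) = 0 := by unfold nrm; simp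
    rw [this] at hnb
    exact zero_ne_one hnb
  have hV : (trivRun n b u).Valid u (1 : Matrix (Fin n) (Fin n) ℝ) b 1 := by
    have hk0 : ∀ k, k < 1 → k = 0 := fun k hk => by omega
    constructor
    · rfl
    · rfl
    · rfl
    · intro k hk
      rw [hk0 k hk]
      have := FlDot.exact hu (by omega) b b
      rwa [hbb] at this
    · intro k hk
      rw [hk0 k hk]
      exact FlMulVec.one hu (by omega) b
    · intro k hk
      rw [hk0 k hk]
      have := FlDot.exact hu (by omega) b b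
      rwa [hbb] at this
    · intro k _; exact one_ne_zero
    · intro k hk
      rw [hk0 k hk]
      simpa [trivRun] using Fl.exact hu (1 : ℝ)
    · intro k hk
      rw [hk0 k hk]
      intro i
      refine ⟨1 * b i, Fl.exact hu _, u, ?_, ?_⟩
      · rw [abs_of_nonneg hu]
      · simp [trivRun]; ring
    · intro k hk
      rw [hk0 k hk]
      exact FlMulVec.one hu (by omega) b
    · intro k hk
      rw [hk0 k hk]
      have := FlSubMul.exact hu b 1 b
      simpa [trivRun] using this
    · intro k hk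
      rw [hk0 k hk]
      have := FlDot.exact hu (by omega) b b
      rwa [hbb] at this
    · intro k hk
      rw [hk0 k hk]; simp [trivRun]
    · intro k hk
      rw [hk0 k hk]
      have := FlDot.exact hu (by omega) (0 : Fin n → ℝ) (0 : Fin n → ℝ)
      simpa [trivRun] using this
    · intro k hk
      rw [hk0 k hk]
      have := Fl.exact hu ((0 : ℝ) / 1)
      simpa [trivRun] using this
    · intro k hk
      rw [hk0 k hk]
      have := FlAddMul.exact hu (0 : Fin n → ℝ) 0 b
      simpa [trivRun] using this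
  have hpd : (1 : Matrix (Fin n) (Fin n) ℝ).PosDef := Matrix.PosDef.one
  refine ⟨1, b, hpd,
    CondLE_of_bounds _ (lo := 1) (hi := 1) (fun v => by rw [Matrix.one_mulVec, one_mul])
      (fun v => by rw [Matrix.one_mulVec, one_mul]) (by simpa using hκ), hb0,
    (fun a c => by
      rw [Matrix.one_apply]
      split_ifs
      · exact IsFloat.one ht
      · exact IsFloat.zero t),
    (fun a => by
      by_cases ha : a = ⟨0, hn⟩
      · rw [hb, ha, Pi.single_eq_same]; exact IsFloat.one ht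
      · rw [hb, Pi.single_eq_of_ne ha]; exact IsFloat.zero t),
    trivRun n b u, 1, trivRun_reuses n b u, hV, Or.inr ⟨hn, by simp [trivRun]⟩, fun k hk => ?_⟩
  by_contra hk2
  rw [not_lt] at hk2
  have hsp : specNorm (1 : Matrix (Fin n) (Fin n) ℝ) ≤ 1 := by
    apply specNorm_le zero_le_one
    intro v
    rw [Matrix.one_mulVec, one_mul]
  have hsp0 : 0 ≤ specNorm (1 : Matrix (Fin n) (Fin n) ℝ) := norm_nonneg _
  have hε1 : ε < 1 := by linarith
  interval_cases k
  · have : (trivRun n b u).x 0 = 0 := rfl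
    rw [this] at hk2
    unfold eta at hk2
    have h0 : nrm (0 : Fin n → ℝ) = 0 := by unfold nrm; simp
    rw [Matrix.mulVec_zero, sub_zero, h0, mul_zero, zero_add, hnb] at hk2
    linarith
  · have : (trivRun n b u).x 1 = (1 + u) • b := rfl
    rw [this] at hk2
    unfold eta at hk2
    have h1 : b - (1 : Matrix (Fin n) (Fin n) ℝ).mulVec ((1 + u) • b) = (-u) • b := by
      rw [Matrix.one_mulVec, add_smul, one_smul, neg_smul]; abel
    rw [h1, nrm_smul, nrm_smul, hnb, abs_neg, abs_of_nonneg hu, abs_of_nonneg (by linarith)] at hk2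
    have h2 : 0 < specNorm (1 : Matrix (Fin n) (Fin n) ℝ) * ((1 + u) * 1) + 1 := by positivity
    rw [div_le_iff₀ h2] at hk2
    have h3 : specNorm (1 : Matrix (Fin n) (Fin n) ℝ) * ((1 + u) * 1) ≤ 1 * ((1 + u) * 1) :=
      mul_le_mul_of_nonneg_right hsp (by positivity)
    have h4 : ε * (specNorm (1 : Matrix (Fin n) (Fin n) ℝ) * ((1 + u) * 1) + 1) ≤ ε * 3 := by
      apply mul_le_mul_of_nonneg_left _ hε.le; linarith
    linarith

/-! ## The bound -/

theorem exists_half_pow {y : ℝ} (hy0 : 0 < y) (hy1 : y ≤ 1) :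
    ∃ i : ℕ, y ≤ (1 / 2) ^ i ∧ ((1 : ℝ) / 2) ^ i < 2 * y ∧ Real.logb 2 (1 / y) ≤ i + 1 := by
  obtain ⟨i, h1, h2⟩ := exists_nat_pow_near_of_lt_one hy0 hy1 (by norm_num : (0 : ℝ) < 1 / 2)
    (by norm_num)
  refine ⟨i, h2, ?_, ?_⟩
  · rw [pow_succ] at h1; linarith
  · have h3 : (1 / y : ℝ) ≤ 2 ^ ((i : ℝ) + 1) := by
      have h4 : ((2 : ℝ) ^ ((i : ℝ) + 1)) = (2 : ℝ) ^ (i + 1) := by
        rw [← Real.rpow_natCast]; push_cast; rfl
      rw [h4, div_le_iff₀ hy0]
      have h5 : (2 : ℝ) ^ (i + 1) * (1 / 2) ^ (i + 1) = 1 := by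
        rw [← mul_pow]; norm_num
      have h6 : (2 : ℝ) ^ (i + 1) * (1 / 2) ^ (i + 1) ≤ (2 : ℝ) ^ (i + 1) * y :=
        mul_le_mul_of_nonneg_left h1.le (by positivity)
      linarith
    calc Real.logb 2 (1 / y) ≤ Real.logb 2 (2 ^ ((i : ℝ) + 1)) :=
          Real.logb_le_logb_of_le (by norm_num) (by positivity) h3
      _ = i + 1 := Real.logb_rpow (by norm_num) (by norm_num)

theorem lower_bound (n : ℕ) (hn : 1 ≤ n) (ε : ℝ) (hε : 0 < ε) (hε1 : ε < 1) (κ : ℝ≥0∞)
    (hκ : 1 ≤ κ) (t : ℕ) (ht : 1 ≤ t)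
    (h : (t : ℝ) ≤ Real.logb 2 (1 / ε)
      + ((n : ℝ) - 1) * Real.logb 2 (min κ (ENNReal.ofReal (1 / ε))).toReal
      - 26 * (n * Real.logb 2 (n + 1))) :
    Fails n κ ε t := by
  set K : ℝ := (min κ (ENNReal.ofReal (1 / ε))).toReal with hK
  have hmt : min κ (ENNReal.ofReal (1 / ε)) ≠ ⊤ :=
    ne_top_of_le_ne_top ENNReal.ofReal_ne_top (min_le_right _ _)
  have hε2 : 1 < 1 / ε := by rw [lt_div_iff₀ hε]; linarith
  have hK1 : 1 ≤ K := by
    rw [hK, ← ENNReal.toReal_one]
    apply ENNReal.toReal_mono hmt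
    apply le_min hκ
    rw [← ENNReal.ofReal_one]
    exact ENNReal.ofReal_le_ofReal hε2.le
  have hKε : K ≤ 1 / ε := by
    rw [hK]
    exact ENNReal.toReal_le_of_le_ofReal (by positivity) (min_le_right _ _)
  have hKκ : ENNReal.ofReal K ≤ κ := by
    rw [hK, ENNReal.ofReal_toReal hmt]
    exact min_le_left _ _
  have hn1 : (1 : ℝ) ≤ n := by exact_mod_cast hn
  have hlog1 : 1 ≤ Real.logb 2 ((n : ℝ) + 1) := by
    rw [Real.le_logb_iff_rpow_le (by norm_num) (by positivity), Real.rpow_one]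
    linarith
  have hlogK : 0 ≤ Real.logb 2 K := Real.logb_nonneg (by norm_num) hK1
  have h2 : ∀ a : ℝ, 0 < a → Real.logb 2 (1 / a) = - Real.logb 2 a := by
    intro a _
    rw [one_div, Real.logb_inv]
  by_cases hcase : K < 2 ^ 20 * ((n : ℝ) + 1) ^ 4
  · -- trivial example
    apply fails_triv hn hε ht hκ
    have h3 : Real.logb 2 K ≤ 20 + 4 * Real.logb 2 ((n : ℝ) + 1) := by
      calc Real.logb 2 K ≤ Real.logb 2 (2 ^ 20 * ((n : ℝ) + 1) ^ 4) :=
            Real.logb_le_logb_of_le (by norm_num) (by linarith) hcase.le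
        _ = 20 + 4 * Real.logb 2 ((n : ℝ) + 1) := by
            rw [Real.logb_mul (by positivity) (by positivity), Real.logb_pow, Real.logb_pow,
              Real.logb_self_eq_one (by norm_num)]
            push_cast; ring
    have h4 : ((n : ℝ) - 1) * Real.logb 2 K ≤ 24 * ((n - 1) * Real.logb 2 ((n : ℝ) + 1)) := by
      calc ((n : ℝ) - 1) * Real.logb 2 K ≤ (n - 1) * (20 + 4 * Real.logb 2 ((n : ℝ) + 1)) :=
            mul_le_mul_of_nonneg_left h3 (by linarith)
        _ ≤ (n - 1) * (24 * Real.logb 2 ((n : ℝ) + 1)) :=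
            mul_le_mul_of_nonneg_left (by linarith) (by linarith)
        _ = _ := by ring
    have h5 : (t : ℝ) ≤ Real.logb 2 (1 / ε) - 26 := by
      have : (n : ℝ) * Real.logb 2 ((n : ℝ) + 1) = (n - 1) * Real.logb 2 ((n : ℝ) + 1)
        + Real.logb 2 ((n : ℝ) + 1) := by ring
      have h6 : 0 ≤ ((n : ℝ) - 1) * Real.logb 2 ((n : ℝ) + 1) :=
        mul_nonneg (by linarith) (by linarith)
      linarith
    have h6 : ε * 4 ≤ (1 / 2) ^ t := by
      have h7 : Real.logb 2 (1 / ε) = - Real.logb 2 ε := h2 ε hε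
      have h8 : Real.logb 2 (ε * 4) ≤ Real.logb 2 ((1 / 2) ^ t) := by
        rw [Real.logb_mul hε.ne' (by norm_num), Real.logb_pow, h2 2 (by norm_num),
          Real.logb_self_eq_one (by norm_num)]
        have : Real.logb 2 4 = 2 := by
          rw [show (4 : ℝ) = 2 ^ 2 by norm_num, Real.logb_pow, Real.logb_self_eq_one (by norm_num)]
          norm_num
        rw [this]; linarith
      exact (Real.logb_le_logb (by norm_num) (by positivity) (by positivity)).mp h8
    linarith
  · push Not at hcase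
    -- n ≥ 2 or n = 1
    rcases Nat.lt_or_ge n 2 with hn2 | hn2
    · have hn1' : n = 1 := by omega
      subst hn1'
      apply fails_triv hn hε ht hκ
      have h5 : (t : ℝ) ≤ Real.logb 2 (1 / ε) - 26 := by
        push_cast at h
        have e1 : Real.logb 2 ((1 : ℝ) + 1) = 1 := by
          rw [show (1 : ℝ) + 1 = 2 by norm_num]
          exact Real.logb_self_eq_one (by norm_num)
        rw [sub_self, zero_mul, add_zero, one_mul, e1] at h
        linarith
      have h6 : ε * 4 ≤ (1 / 2) ^ t := by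
        have h7 : Real.logb 2 (1 / ε) = - Real.logb 2 ε := h2 ε hε
        have h8 : Real.logb 2 (ε * 4) ≤ Real.logb 2 ((1 / 2) ^ t) := by
          rw [Real.logb_mul hε.ne' (by norm_num), Real.logb_pow, h2 2 (by norm_num),
            Real.logb_self_eq_one (by norm_num)]
          have : Real.logb 2 4 = 2 := by
            rw [show (4 : ℝ) = 2 ^ 2 by norm_num, Real.logb_pow,
              Real.logb_self_eq_one (by norm_num)]
            norm_num
          rw [this]; linarith
        exact (Real.logb_le_logb (by norm_num) (by positivity) (by positivity)).mp h8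
      linarith
    · obtain ⟨m, rfl⟩ : ∃ m, n = m + 2 := ⟨n - 2, by omega⟩
      have hm : (0 : ℝ) ≤ m := Nat.cast_nonneg _
      push_cast at hcase h hlog1 hn1
      set N : ℝ := (m : ℝ) + 2 with hN
      have hN2 : 2 ≤ N := by linarith
      have hKN : 2 ^ 20 * N ^ 4 ≤ K := by
        refine le_trans ?_ hcase
        apply mul_le_mul_of_nonneg_left _ (by positivity)
        exact pow_le_pow_left₀ (by linarith) (by linarith) 4
      have hK0 : 0 < K := by linarith
      have hN4 : N ^ 2 ≤ N ^ 4 := pow_le_pow_right₀ (by linarith) (by norm_num)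
      have hN24 : 4 ≤ N ^ 2 := by nlinarith
      have hN41 : N ≤ N ^ 4 := by
        calc N = N ^ 1 := (pow_one N).symm
          _ ≤ N ^ 4 := pow_le_pow_right₀ (by linarith) (by norm_num)
      have hεK : ε ≤ 1 / K := by
        rw [le_div_iff₀ hK0]
        rw [le_div_iff₀ hε] at hKε
        linarith
      -- s
      have hy : 22 * ε ≤ 1 := by
        have : 22 * ε ≤ 22 * (1 / K) := by linarith
        have h3 : 22 * (1 / K) ≤ 1 := by
          rw [mul_one_div, div_le_one hK0]
          nlinarith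
        linarith
      obtain ⟨i, hi1, hi2, hi3⟩ := exists_half_pow (by positivity : 0 < 22 * ε) hy
      -- lam
      have hz0 : 0 < 132 * N ^ 2 / K := by positivity
      have hz1 : 132 * N ^ 2 / K ≤ 1 := by
        rw [div_le_one hK0]
        nlinarith
      obtain ⟨l, hl1, hl2, hl3⟩ := exists_half_pow hz0 hz1
      have hKt : 3 * N ^ 2 * (1 / 2) ^ i ≤ (1 / 2) ^ l := by
        refine le_trans ?_ hl1
        have e1 : ((1 : ℝ) / 2) ^ i ≤ 44 * (1 / K) := by
          have : 2 * (22 * ε) ≤ 44 * (1 / K) := by linarith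
          linarith
        calc 3 * N ^ 2 * (1 / 2) ^ i ≤ 3 * N ^ 2 * (44 * (1 / K)) :=
              mul_le_mul_of_nonneg_left e1 (by positivity)
          _ = 132 * N ^ 2 / K := by ring
      refine fails_main (i := i) (l := l) hε ht ?_ ?_ hKt hi1 ?_ ?_
      · -- s small
        have e1 : ((1 : ℝ) / 2) ^ i ≤ 44 * (1 / K) := by
          have : 2 * (22 * ε) ≤ 44 * (1 / K) := by linarith
          linarith
        calc ((1 : ℝ) / 2) ^ i * (64 * N) ≤ 44 * (1 / K) * (64 * N) :=
              mul_le_mul_of_nonneg_right e1 (by positivity)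
          _ = 2816 * N / K := by ring
          _ ≤ 1 := by
            rw [div_le_one hK0]
            nlinarith
      · calc ((1 : ℝ) / 2) ^ l * (3000 * N ^ 2) ≤ 2 * (132 * N ^ 2 / K) * (3000 * N ^ 2) :=
              mul_le_mul_of_nonneg_right hl2.le (by positivity)
          _ = 792000 * N ^ 4 / K := by ring
          _ ≤ 1 := by
            rw [div_le_one hK0]
            have : 0 < N ^ 4 := by positivity
            linarith
      · calc ENNReal.ofReal 2 ≤ ENNReal.ofReal (K * (((1 : ℝ) / 2) ^ l / (4 * N ^ 2))) := by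
              apply ENNReal.ofReal_le_ofReal
              have e1 : K * (132 * N ^ 2 / K / (4 * N ^ 2)) = 33 := by
                field_simp
                norm_num
              have e2 : K * (132 * N ^ 2 / K / (4 * N ^ 2))
                  ≤ K * (((1 : ℝ) / 2) ^ l / (4 * N ^ 2)) := by
                apply mul_le_mul_of_nonneg_left _ hK0.le
                exact div_le_div_of_nonneg_right hl1 (by positivity)
              linarith
          _ = ENNReal.ofReal K * ENNReal.ofReal (((1 : ℝ) / 2) ^ l / (4 * N ^ 2)) :=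
              ENNReal.ofReal_mul hK0.le
          _ ≤ κ * ENNReal.ofReal (((1 : ℝ) / 2) ^ l / (4 * N ^ 2)) := by gcongr
      · -- the count
        have e1 : Real.logb 2 (1 / ε) - 5 ≤ Real.logb 2 (1 / (22 * ε)) := by
          rw [h2 (22 * ε) (by positivity), h2 ε hε, Real.logb_mul (by norm_num) hε.ne']
          have : Real.logb 2 22 ≤ 5 := by
            calc Real.logb 2 22 ≤ Real.logb 2 (2 ^ 5) :=
                  Real.logb_le_logb_of_le (by norm_num) (by norm_num) (by norm_num)
              _ = 5 := by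
                rw [Real.logb_pow, Real.logb_self_eq_one (by norm_num)]; norm_num
          linarith
        have e2 : Real.logb 2 K - 8 - 2 * Real.logb 2 (N + 1)
            ≤ Real.logb 2 (1 / (132 * N ^ 2 / K)) := by
          have e21 : (1 : ℝ) / (132 * N ^ 2 / K) = K / (132 * N ^ 2) := by
            field_simp
          rw [e21, Real.logb_div hK0.ne' (by positivity),
            Real.logb_mul (by norm_num) (by positivity), Real.logb_pow]
          have e22 : Real.logb 2 132 ≤ 8 := by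
            calc Real.logb 2 132 ≤ Real.logb 2 (2 ^ 8) :=
                  Real.logb_le_logb_of_le (by norm_num) (by norm_num) (by norm_num)
              _ = 8 := by
                rw [Real.logb_pow, Real.logb_self_eq_one (by norm_num)]; norm_num
          have e23 : Real.logb 2 N ≤ Real.logb 2 (N + 1) :=
            Real.logb_le_logb_of_le (by norm_num) (by linarith) (by linarith)
          push_cast
          linarith
        have e3 : Real.logb 2 (1 / ε) - 6 ≤ i := by linarith
        have e4 : Real.logb 2 K - 9 - 2 * Real.logb 2 (N + 1) ≤ l := by linarith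
        have e5 : (t : ℝ) ≤ i + l * (m + 1) := by
          have e6 : (Real.logb 2 K - 9 - 2 * Real.logb 2 (N + 1)) * ((m : ℝ) + 1)
              ≤ l * (m + 1) := mul_le_mul_of_nonneg_right e4 (by linarith)
          have e7 : N - 1 = (m : ℝ) + 1 := by rw [hN]; ring
          rw [e7] at h
          have e8 : N = ((m : ℝ) + 1) + 1 := by rw [hN]; ring
          set X := (m : ℝ) + 1
          set Y := Real.logb 2 (N + 1)
          have e9 : 0 ≤ X * (Y - 1) := mul_nonneg (by linarith) (by linarith)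
          have e10 : N * Y = X * Y + Y := by rw [e8]; ring
          have hX : 1 ≤ X := by linarith
          have e11 : 0 ≤ X * Y := mul_nonneg (by linarith) (by linarith)
          nlinarith
        exact_mod_cast e5

end Pool.Agent.Lib.MP_02bbae_an
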