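import Pool.Agent.Lib.MP_02bbae_an.BlockMat
import Pool.Agent.Lib.MP_02bbae_an.LowerCG
import Pool.Agent.Lib.MP_02bbae_an.LowerFail
import Pool.Agent.Lib.MP_02bbae_an.LowerBound

/-!
# The block version of the matrix of the lower bound, in dimension `m + 2`
-/

set_option autoImplicit false

open scoped InnerProductSpace RealInnerProductSpace ENNReal

namespace Pool.Agent.Lib.MP_02bbae_an

variable {m : ℕ}

/-- the entries -/
noncomputable def aentB (q : ℕ) (s lam μ : ℝ) (i j : ℕ) : ℝ :=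
  if i = 0 then (if j = 0 then 1 else if j = 1 then -s else 0)
  else if j = 0 then (if i = 1 then -s else 0)
  else lam * tentB q (i - 1) (j - 1) + (if i = 1 ∧ j = 1 then μ else 0)

/-- the matrix -/
noncomputable def AmatB (m q : ℕ) (s lam μ : ℝ) : Matrix (Fin (m + 2)) (Fin (m + 2)) ℝ :=
  fun i j => aentB q s lam μ i j

theorem AmatB_zero (q : ℕ) (s lam μ : ℝ) (v : Fin (m + 2) → ℝ) :
    (AmatB m q s lam μ).mulVec v 0 = v 0 - s * v 1 := by
  unfold Matrix.mulVec dotProduct AmatB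
  rw [Fin.sum_univ_succ, Fin.sum_univ_succ]
  have : ∑ i : Fin m, aentB q s lam μ ((0 : Fin (m + 2)) : ℕ) (i.succ.succ : Fin (m + 2))
      * v i.succ.succ = 0 := by
    apply Finset.sum_eq_zero
    intro i _
    simp [aentB]
  rw [this]
  simp [aentB]
  ring

theorem AmatB_succ (q : ℕ) (s lam μ : ℝ) (v : Fin (m + 2) → ℝ) (i : Fin (m + 1)) :
    (AmatB m q s lam μ).mulVec v i.succ = (if (i : ℕ) = 0 then -s * v 0 + μ * v 1 else 0)
      + lam * (TmatB m q).mulVec (tl v) i := by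
  unfold Matrix.mulVec dotProduct AmatB
  rw [Fin.sum_univ_succ]
  have h1 : ∀ j : Fin (m + 1),
      aentB q s lam μ (i.succ : Fin (m + 2)) (j.succ : Fin (m + 2)) * v j.succ
      = lam * (TmatB m q i j * tl v j)
        + (if (i : ℕ) = 0 ∧ (j : ℕ) = 0 then μ * v j.succ else 0) := by
    intro j
    have hj : (j.succ : Fin (m + 2)).val = (j : ℕ) + 1 := rfl
    have hi : (i.succ : Fin (m + 2)).val = (i : ℕ) + 1 := rfl
    rw [hi, hj]
    unfold aentB tl TmatB
    rw [if_neg (by omega), if_neg (by omega)]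
    simp only [Nat.add_sub_cancel, Nat.add_eq_right]
    split_ifs <;> ring
  rw [Finset.sum_congr rfl fun j _ => h1 j, Finset.sum_add_distrib, ← Finset.mul_sum]
  have h2 : ∑ j : Fin (m + 1), (if (i : ℕ) = 0 ∧ (j : ℕ) = 0 then μ * v j.succ else 0)
      = if (i : ℕ) = 0 then μ * v 1 else 0 := by
    by_cases hi : (i : ℕ) = 0
    · rw [if_pos hi, Fin.sum_univ_succ]
      rw [Finset.sum_eq_zero]
      · simp [hi]
      · intro j _
        simp
    · rw [if_neg hi]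
      apply Finset.sum_eq_zero
      intro j _
      rw [if_neg]
      exact fun h => hi h.1
  rw [h2]
  have h3 : aentB q s lam μ (i.succ : Fin (m + 2)) ((0 : Fin (m + 2)) : ℕ) * v 0
      = if (i : ℕ) = 0 then -s * v 0 else 0 := by
    have hi : (i.succ : Fin (m + 2)).val = (i : ℕ) + 1 := rfl
    rw [hi]
    unfold aentB
    rw [if_neg (by omega)]
    simp only [Fin.val_zero, Nat.add_eq_right, if_true]
    split_ifs <;> ring
  rw [h3]
  split_ifs <;> ring

/-- the quadratic form of the matrix -/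
theorem AmatB_quad (q : ℕ) (s lam μ : ℝ) (v : Fin (m + 2) → ℝ) :
    v ⬝ᵥ (AmatB m q s lam μ).mulVec v
      = (v 0 - s * v 1) ^ 2 + lam * (tl v ⬝ᵥ (TmatB m q).mulVec (tl v))
        - (s ^ 2 - μ) * v 1 ^ 2 := by
  rw [dot_succ, AmatB_zero]
  have h1 : tl ((AmatB m q s lam μ).mulVec v) = fun i : Fin (m + 1) =>
      (if (i : ℕ) = 0 then -s * v 0 + μ * v 1 else 0) + lam * (TmatB m q).mulVec (tl v) i := by
    funext i
    exact AmatB_succ q s lam μ v i
  rw [h1]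
  have h2 : tl v ⬝ᵥ (fun i : Fin (m + 1) => (if (i : ℕ) = 0 then -s * v 0 + μ * v 1 else 0)
      + lam * (TmatB m q).mulVec (tl v) i)
      = v 1 * (-s * v 0 + μ * v 1) + lam * (tl v ⬝ᵥ (TmatB m q).mulVec (tl v)) := by
    unfold dotProduct
    simp only [mul_add]
    rw [Finset.sum_add_distrib]
    congr 1
    · rw [Fin.sum_univ_succ, Finset.sum_eq_zero]
      · simp [tl]
        ring
      · intro j _
        simp
    · rw [Finset.mul_sum]
      exact Finset.sum_congr rfl fun i _ => by ring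
  rw [h2]
  ring

theorem AmatB_diff (q : ℕ) (s lam μ : ℝ) (v : Fin (m + 2) → ℝ) :
    (AmatB m q s lam (s ^ 2)).mulVec v - (AmatB m q s lam μ).mulVec v
      = Pi.single 1 ((s ^ 2 - μ) * v 1) := by
  funext i
  refine Fin.cases ?_ (fun i => ?_) i
  · simp only [Pi.sub_apply]
    rw [AmatB_zero, AmatB_zero, sub_self, Pi.single_eq_of_ne]
    exact (Fin.succ_ne_zero (0 : Fin (m + 1))).symm
  · simp only [Pi.sub_apply]
    rw [AmatB_succ, AmatB_succ]
    by_cases h : (i : ℕ) = 0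
    · have hi : i = 0 := Fin.ext h
      subst hi
      rw [if_pos h, if_pos h]
      have : (Fin.succ (0 : Fin (m + 1))) = (1 : Fin (m + 2)) := rfl
      rw [this, Pi.single_eq_same]
      ring
    · rw [if_neg h, if_neg h, sub_self, Pi.single_eq_of_ne]
      intro hc
      apply h
      have : (Fin.succ i) = (Fin.succ (0 : Fin (m + 1))) := hc
      have := Fin.succ_injective _ this
      rw [this]; rfl

/-! ### the scaled variables -/

theorem sc_quadB (q : ℕ) {s lam : ℝ} (hs : s ≠ 0) (hl : lam ≠ 0) (v : Fin (m + 2) → ℝ) :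
    v ⬝ᵥ (AmatB m q s lam (s ^ 2)).mulVec v
      = lam * s ^ 2 * (⟪sc m s v, TopB m q (sc m s v)⟫_ℝ
      + (v 0 - s * v 1) ^ 2 / (lam * s ^ 2)) := by
  rw [AmatB_quad, inner_EV, TopB_apply]
  unfold sc
  simp only [dotProduct_smul, smul_dotProduct, smul_eq_mul, Matrix.mulVec_smul]
  field_simp
  ring

theorem sc_mulVecB (q : ℕ) (lam : ℝ) {s : ℝ} (hs : s ≠ 0) (v : Fin (m + 2) → ℝ) :
    sc m s ((AmatB m q s lam (s ^ 2)).mulVec v)
      = lam • TopB m q (sc m s v) - (v 0 - s * v 1) • eV m 1 := by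
  unfold sc eV
  rw [TopB_apply]
  simp only [Matrix.mulVec_smul]
  rw [← WithLp.toLp_smul, ← WithLp.toLp_smul, ← WithLp.toLp_sub]
  congr 1
  funext i
  simp only [Pi.smul_apply, Pi.sub_apply, smul_eq_mul]
  have : tl ((AmatB m q s lam (s ^ 2)).mulVec v) i
      = (if (i : ℕ) = 0 then -s * v 0 + s ^ 2 * v 1 else 0)
      + lam * (TmatB m q).mulVec (tl v) i := AmatB_succ q s lam (s ^ 2) v i
  rw [this]
  by_cases hi : (i : ℕ) = 0
  · rw [if_pos hi, if_pos (by omega)]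
    field_simp
    ring
  · rw [if_neg hi, if_neg (by omega)]
    field_simp
    ring

/-! ### Properties of the matrix -/

theorem aentB_symm (q : ℕ) (s lam μ : ℝ) (i j : ℕ) : aentB q s lam μ i j = aentB q s lam μ j i := by
  unfold aentB
  rw [tentB_symm q (i - 1) (j - 1)]
  split_ifs <;> first | rfl | (exfalso; omega)

theorem TB_upper (q : ℕ) (w : Fin (m + 1) → ℝ) : w ⬝ᵥ (TmatB m q).mulVec w ≤ 4 * (w ⬝ᵥ w) := by
  rw [TmatB_dot]
  refine le_trans (le_of_eq ?_) (difB_sq_le q w)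
  simp only [sq]

theorem TB_lower {q : ℕ} (hq : 1 ≤ q) (w : Fin (m + 1) → ℝ) :
    w ⬝ᵥ w ≤ 4 * (q : ℝ) ^ 2 * (w ⬝ᵥ (TmatB m q).mulVec w) := by
  rw [TmatB_dot]
  refine (dot_le_difB hq w).trans (le_of_eq ?_)
  simp only [sq]

/-- the parameters -/
structure QB (m q : ℕ) (s lam μ : ℝ) : Prop where
  hq : 1 ≤ q
  hs : 0 < s
  hsq : 3 * (2 * (q : ℝ)) * s ≤ lam
  hl1 : 12000 * lam ≤ 1
  hμ0 : 0 ≤ μ
  hμ : μ ≤ s ^ 2

variable {q : ℕ} {s lam μ : ℝ}

theorem QB.consts (P : QB m q s lam μ) :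
    (1 : ℝ) ≤ q ∧ 0 < lam ∧ 6 * s ≤ lam ∧ s ≤ 1 / 72000 ∧ lam ≤ 1 / 12000 ∧
      36 * (q : ℝ) ^ 2 * s ^ 2 ≤ lam ^ 2 := by
  have h1 : (1 : ℝ) ≤ q := by exact_mod_cast P.hq
  have h2 := P.hs
  have h3 := P.hsq
  have h4 := P.hl1
  have h5 : 6 * s ≤ lam := by nlinarith
  have h6 : 0 < lam := by linarith
  refine ⟨h1, h6, h5, by linarith, by linarith, ?_⟩
  have h7 : (3 * (2 * (q : ℝ)) * s) ^ 2 ≤ lam ^ 2 := pow_le_pow_left₀ (by positivity) h3 2
  nlinarith

theorem AmatB_upper (P : QB m q s lam μ) (v : Fin (m + 2) → ℝ) :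
    v ⬝ᵥ (AmatB m q s lam μ).mulVec v ≤ 2 * (v ⬝ᵥ v) := by
  obtain ⟨h1, hl, h3, h2, h4, h5⟩ := P.consts
  have hs := P.hs
  rw [AmatB_quad]
  have h6 : tl v ⬝ᵥ (TmatB m q).mulVec (tl v) ≤ 4 * (tl v ⬝ᵥ tl v) := TB_upper q _
  have h7 := one_sq_le v
  have h8 := dot_succ v v
  have h9 : 0 ≤ (s ^ 2 - μ) * v 1 ^ 2 := mul_nonneg (by linarith [P.hμ]) (sq_nonneg _)
  have h10 : (v 0 - s * v 1) ^ 2 ≤ (1 + s ^ 2) * (v 0 ^ 2 + v 1 ^ 2) := by
    nlinarith [sq_nonneg (s * v 0 + v 1)]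
  have h11 : lam * (tl v ⬝ᵥ (TmatB m q).mulVec (tl v)) ≤ lam * (4 * (tl v ⬝ᵥ tl v)) :=
    mul_le_mul_of_nonneg_left h6 hl.le
  have h12 : 0 ≤ v 0 ^ 2 := sq_nonneg _
  have h13 : 0 ≤ v 1 ^ 2 := sq_nonneg _
  have h14 : s ^ 2 ≤ 1 / 2 := by nlinarith
  have h15 : (1 + s ^ 2) * (v 0 ^ 2 + v 1 ^ 2) ≤ (3 / 2) * (v 0 ^ 2 + v 1 ^ 2) := by
    apply mul_le_mul_of_nonneg_right _ (by positivity); linarith
  have h16 : lam * (4 * (tl v ⬝ᵥ tl v)) ≤ 1 / 12000 * (4 * (tl v ⬝ᵥ tl v)) := by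
    apply mul_le_mul_of_nonneg_right h4; linarith
  rw [h8]
  nlinarith

theorem AmatB_lower (P : QB m q s lam μ) (v : Fin (m + 2) → ℝ) :
    lam / (16 * (q : ℝ) ^ 2) * (v ⬝ᵥ v) ≤ v ⬝ᵥ (AmatB m q s lam μ).mulVec v := by
  obtain ⟨h1, hl, h3, h2, h4, h5⟩ := P.consts
  have hs := P.hs
  rw [AmatB_quad]
  have h6 : tl v ⬝ᵥ tl v ≤ 4 * (q : ℝ) ^ 2 * (tl v ⬝ᵥ (TmatB m q).mulVec (tl v)) :=
    TB_lower P.hq _
  have h7 := one_sq_le v
  have h8 := dot_succ v v
  set Q := tl v ⬝ᵥ tl v with hQ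
  set R := tl v ⬝ᵥ (TmatB m q).mulVec (tl v) with hR
  set N := (q : ℝ) ^ 2 with hN
  have hN1 : 1 ≤ N := by rw [hN]; nlinarith
  have hQ0 : 0 ≤ Q := le_trans (sq_nonneg _) h7
  have h9 : (s ^ 2 - μ) * v 1 ^ 2 ≤ s ^ 2 * Q := by
    have h91 : (s ^ 2 - μ) * v 1 ^ 2 ≤ s ^ 2 * v 1 ^ 2 :=
      mul_le_mul_of_nonneg_right (by linarith [P.hμ0]) (sq_nonneg _)
    exact h91.trans (mul_le_mul_of_nonneg_left h7 (by positivity))
  have h10 : v 0 ^ 2 ≤ 2 * (v 0 - s * v 1) ^ 2 + 2 * s ^ 2 * v 1 ^ 2 := by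
    nlinarith [sq_nonneg (v 0 - 2 * (s * v 1))]
  have h11 : 2 * s ^ 2 * v 1 ^ 2 ≤ 2 * s ^ 2 * Q := mul_le_mul_of_nonneg_left h7 (by positivity)
  have hs2 : s ^ 2 ≤ 1 / 100 := by nlinarith
  rw [h8]
  rw [div_mul_eq_mul_div, div_le_iff₀ (by positivity)]
  have h12 : v 0 * v 0 = v 0 ^ 2 := by ring
  rw [h12]
  have hgg : 0 ≤ (v 0 - s * v 1) ^ 2 := sq_nonneg _
  set gg := (v 0 - s * v 1) ^ 2
  have h13 : lam * (v 0 ^ 2 + Q) ≤ lam * (2 * gg + (1 + 2 * (1 / 100)) * Q) := by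
    apply mul_le_mul_of_nonneg_left _ hl.le
    have : 2 * s ^ 2 * Q ≤ 2 * (1 / 100) * Q := by
      apply mul_le_mul_of_nonneg_right _ hQ0; linarith
    linarith
  have h14 : s ^ 2 * N ≤ lam / 300 := by
    have h141 : lam ^ 2 ≤ lam * (1 / 12000) := by nlinarith
    nlinarith
  have h15 : (s ^ 2 - μ) * v 1 ^ 2 * (16 * N) ≤ 16 * (lam / 300) * Q := by
    calc (s ^ 2 - μ) * v 1 ^ 2 * (16 * N) ≤ s ^ 2 * Q * (16 * N) :=
          mul_le_mul_of_nonneg_right h9 (by positivity)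
      _ = 16 * (s ^ 2 * N) * Q := by ring
      _ ≤ 16 * (lam / 300) * Q := by
          apply mul_le_mul_of_nonneg_right _ hQ0; linarith
  have h16 : lam * Q * 4 ≤ lam * R * (16 * N) := by
    have := mul_le_mul_of_nonneg_left h6 hl.le
    nlinarith
  have h17 : lam * (2 * gg) ≤ gg * (16 * N) := by
    have : lam * 2 ≤ 16 * N := by linarith
    calc lam * (2 * gg) = (lam * 2) * gg := by ring
      _ ≤ (16 * N) * gg := mul_le_mul_of_nonneg_right this hgg
      _ = _ := by ring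
  have h18 : 0 ≤ lam * Q := mul_nonneg hl.le hQ0
  calc lam * (v 0 ^ 2 + Q) ≤ lam * (2 * gg + (1 + 2 * (1 / 100)) * Q) := h13
    _ = lam * (2 * gg) + 1.02 * (lam * Q) := by ring
    _ ≤ gg * (16 * N) + (4 - 16 / 300) * (lam * Q) := by linarith
    _ ≤ gg * (16 * N) + lam * R * (16 * N) - (s ^ 2 - μ) * v 1 ^ 2 * (16 * N) := by linarith
    _ = _ := by ring

theorem AmatB_posDef (P : QB m q s lam μ) : (AmatB m q s lam μ).PosDef := by
  apply Matrix.PosDef.of_dotProduct_mulVec_pos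
  · ext i j
    simp only [Matrix.conjTranspose_apply, star_trivial]
    exact aentB_symm q s lam μ j i
  · intro x hx
    have h1 := AmatB_lower P x
    have h2 : 0 < x ⬝ᵥ x := by
      rw [← nrm_sq]
      have : nrm x ≠ 0 := by
        unfold nrm
        rw [norm_ne_zero_iff]
        intro h
        apply hx
        have := congrArg WithLp.ofLp h
        simpa using this
      positivity
    obtain ⟨hq1, h3, -, -, -, -⟩ := P.consts
    have hq0 : (0 : ℝ) < q := by linarith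
    have h4 : 0 < lam / (16 * (q : ℝ) ^ 2) * (x ⬝ᵥ x) := by positivity
    have h5 : star x ⬝ᵥ (AmatB m q s lam μ).mulVec x = x ⬝ᵥ (AmatB m q s lam μ).mulVec x := by
      simp
    rw [h5]
    linarith

theorem AmatB_spec (P : QB m q s lam μ) : specNorm (AmatB m q s lam μ) ≤ 2 := by
  apply specNorm_le (by norm_num)
  intro v
  obtain ⟨h1, hl, h3, h2, h4, h5⟩ := P.consts
  have hs := P.hs
  set N := nrm v with hN
  have hN0 : 0 ≤ N := nrm_nonneg v
  have hv0 := abs_coord_le v 0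
  have hv1 := abs_coord_le v 1
  have e1 : (AmatB m q s lam μ).mulVec v
      = (AmatB m q s lam (s ^ 2)).mulVec v - Pi.single 1 ((s ^ 2 - μ) * v 1) := by
    rw [← AmatB_diff q s lam μ]; abel
  have e2 : nrm (Pi.single 1 ((s ^ 2 - μ) * v 1) : Fin (m + 2) → ℝ) ≤ 1 / 100 * N := by
    rw [nrm_single, abs_mul]
    apply mul_le_mul _ hv1 (abs_nonneg _) (by norm_num)
    rw [abs_of_nonneg (by linarith [P.hμ])]
    nlinarith [P.hμ0]
  have e3 : nrm ((AmatB m q s lam (s ^ 2)).mulVec v) ≤ 3 / 2 * N := by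
    apply nrm_le (by positivity)
    rw [sc_norm m hs.ne', AmatB_zero]
    have e4 : ‖sc m s ((AmatB m q s lam (s ^ 2)).mulVec v)‖
        ≤ (4 * lam * N + (2 * N) * s) / s := by
      rw [sc_mulVecB q lam hs.ne']
      refine (norm_sub_le _ _).trans ?_
      rw [norm_smul, norm_smul, Real.norm_eq_abs, Real.norm_eq_abs, abs_of_pos hl,
        eV_norm le_rfl (by omega), mul_one]
      have e5 : ‖TopB m q (sc m s v)‖ ≤ 4 * (N / s) := by
        refine (TopB_bd q _).trans ?_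
        apply mul_le_mul_of_nonneg_left _ (by norm_num)
        have e6 := sc_norm m hs.ne' v
        rw [le_div_iff₀ hs]
        have e7 : (‖sc m s v‖ * s) ^ 2 ≤ N ^ 2 := by
          rw [hN, nrm_sq, e6]
          have : 0 ≤ v 0 ^ 2 / s ^ 2 := by positivity
          nlinarith [sq_nonneg s]
        exact le_of_sq_le_sq e7 hN0
      have e8 : |v 0 - s * v 1| ≤ 2 * N := by
        refine (abs_sub _ _).trans ?_
        rw [abs_mul, abs_of_pos hs]
        nlinarith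
      calc lam * ‖TopB m q (sc m s v)‖ + |v 0 - s * v 1|
          ≤ lam * (4 * (N / s)) + 2 * N :=
            add_le_add (mul_le_mul_of_nonneg_left e5 hl.le) e8
        _ = (4 * lam * N + (2 * N) * s) / s := by field_simp
    have e9 : (4 * lam * N + (2 * N) * s) ≤ 1 / 10 * N := by nlinarith
    have e10 : s ^ 2 * ‖sc m s ((AmatB m q s lam (s ^ 2)).mulVec v)‖ ^ 2 ≤ (1 / 10 * N) ^ 2 := by
      rw [← mul_pow]
      apply pow_le_pow_left₀ (by positivity)
      rw [le_div_iff₀ hs] at e4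
      linarith
    have e11 : |v 0 - s * v 1| ≤ 129 / 128 * N := by
      refine (abs_sub _ _).trans ?_
      rw [abs_mul, abs_of_pos hs]
      nlinarith
    have e12 : (v 0 - s * v 1) ^ 2 ≤ (129 / 128 * N) ^ 2 := by
      rw [← sq_abs]
      exact pow_le_pow_left₀ (abs_nonneg _) e11 2
    have e13 : s ^ 2 * (‖sc m s ((AmatB m q s lam (s ^ 2)).mulVec v)‖ ^ 2
        + (v 0 - s * v 1) ^ 2 / s ^ 2)
        = s ^ 2 * ‖sc m s ((AmatB m q s lam (s ^ 2)).mulVec v)‖ ^ 2 + (v 0 - s * v 1) ^ 2 := by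
      have := hs.ne'
      field_simp
    rw [e13]
    nlinarith
  rw [e1]
  refine (nrm_sub_le _ _).trans ?_
  linarith

/-! ### the entries are floating point numbers -/

theorem isFloat_tentB (q : ℕ) {t : ℕ} (ht : 3 ≤ t) (l c d : ℕ) :
    IsFloat t (((1 : ℝ) / 2) ^ l * tentB q c d) := by
  have ht1 : 1 ≤ t := by omega
  have hhalf : ((1 : ℝ) / 2) ^ l * (1 / 2) = (1 / 2) ^ (l + 1) := by rw [pow_succ]
  unfold tentB bq
  split_ifs
  · rw [mul_one]; exact IsFloat.half_pow ht1 l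
  · refine ⟨5, -(l : ℤ) - 2, ?_, ?_⟩
    · have h1 : (2 : ℤ) ^ 3 ≤ 2 ^ t := pow_le_pow_right₀ (by norm_num) ht
      rw [abs_of_pos (by norm_num)]
      linarith
    · rw [half_pow, zpow_sub₀ (by norm_num)]
      norm_num
      ring
  · have : ((1 : ℝ) / 2) ^ l * (1 + 1 ^ 2) = (2 : ℝ) ^ (-(l : ℤ) + 1) := by
      rw [half_pow, zpow_add₀ (by norm_num), zpow_one]
      norm_num
    rw [this]; exact IsFloat.zpow ht1 _
  · rw [mul_neg, hhalf]; exact (IsFloat.half_pow ht1 (l + 1)).neg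
  · rw [mul_neg, mul_one]; exact (IsFloat.half_pow ht1 l).neg
  · rw [mul_neg, hhalf]; exact (IsFloat.half_pow ht1 (l + 1)).neg
  · rw [mul_neg, mul_one]; exact (IsFloat.half_pow ht1 l).neg
  · rw [mul_zero]; exact IsFloat.zero t

theorem isFloat_aentB (q : ℕ) {t i l : ℕ} (ht : 3 ≤ t) (hi : 1 ≤ i) (hli : l ≤ i) {μ : ℝ}
    (hμ : (μ = ((1 / 2 : ℝ) ^ i) ^ 2 ∧ 2 * i + 1 ≤ t + l) ∨ μ = 0) (a b : ℕ) :
    IsFloat t (aentB q ((1 / 2) ^ i) ((1 / 2) ^ l) μ a b) := by
  have ht1 : 1 ≤ t := by omega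
  have hlam : ∀ c d : ℕ, IsFloat t (((1 : ℝ) / 2) ^ l * tentB q c d) := isFloat_tentB q ht l
  unfold aentB
  by_cases h1 : a = 0
  · rw [if_pos h1]
    by_cases h2 : b = 0
    · rw [if_pos h2]; exact IsFloat.one ht1
    · rw [if_neg h2]
      split_ifs
      · exact (IsFloat.half_pow ht1 i).neg
      · exact IsFloat.zero t
  · rw [if_neg h1]
    by_cases h2 : b = 0
    · rw [if_pos h2]
      split_ifs
      · exact (IsFloat.half_pow ht1 i).neg
      · exact IsFloat.zero t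
    · rw [if_neg h2]
      by_cases h3 : a = 1 ∧ b = 1
      · rw [if_pos h3]
        rcases hμ with ⟨hμ, h4⟩ | hμ
        · rw [hμ, h3.1, h3.2]
          have e1 : tentB q (1 - 1) (1 - 1) = 1 := by simp [tentB]
          rw [e1, mul_one]
          refine ⟨2 ^ (2 * i - l) + 1, -(2 * i : ℤ), ?_, ?_⟩
          · have h5 : (2 : ℤ) ^ (2 * i - l) + 1 < 2 ^ t := by
              have h6 : (2 : ℤ) ^ (2 * i - l + 1) ≤ 2 ^ t :=
                pow_le_pow_right₀ (by norm_num) (by omega)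
              have h7 : (2 : ℤ) ^ 1 ≤ 2 ^ (2 * i - l) :=
                pow_le_pow_right₀ (by norm_num) (by omega)
              rw [pow_succ] at h6
              linarith
            rw [abs_of_pos (by positivity)]
            exact h5
          · push_cast
            rw [add_mul, one_mul, half_pow, half_pow]
            have e2 : (2 : ℝ) ^ (2 * i - l) = (2 : ℝ) ^ ((2 * i : ℤ) - l) := by
              rw [← zpow_natCast]
              congr 1
              omega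
            rw [e2, ← zpow_add₀ (by norm_num : (2 : ℝ) ≠ 0)]
            have e3 : (2 * i : ℤ) - l + -(2 * i : ℤ) = -(l : ℤ) := by ring
            rw [e3, ← zpow_natCast, ← zpow_mul]
            congr 2
            push_cast; ring
        · rw [hμ, add_zero]; exact hlam _ _
      · rw [if_neg h3, add_zero]; exact hlam _ _

end Pool.Agent.Lib.MP_02bbae_an
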