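import Mathlib
import Pool.Agent.Lib.MP_02bbae_an.LowerSys

/-!
# The perturbed recurrence of the lower bound, with blocks

All variables are divided by the size of the exact residual.  The errors are measured by the
actual amplitude `|g k| / s`.
-/

set_option autoImplicit false

open scoped InnerProductSpace RealInnerProductSpace

namespace Pool.Agent.Lib.MP_02bbae_an

variable {V : Type*} [NormedAddCommGroup V] [InnerProductSpace ℝ V]

/-- the parameters -/
structure BPar (s lam R : ℝ) : Prop where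
  hs : 0 < s
  hs2 : s ≤ lam
  hl1 : 20000 * lam ≤ 1
  hR : 1 ≤ R

/-- the recurrences, divided by the size of the exact residual -/
structure BSys (n : ℕ) (s lam R : ℝ) (T : V →ₗ[ℝ] V) (e I : ℕ → V) (b : ℕ → ℝ)
    (c g a β : ℕ → ℝ) (ρ π : ℕ → V) : Prop where
  he1 : ∀ i, 1 ≤ i → i < n → ‖e i‖ = 1
  heo : ∀ i, 2 ≤ i → i < n → ⟪e 1, e i⟫_ℝ = 0
  hb : ∀ i, 1 / 2 ≤ b i
  hb1 : ∀ i, b i ≤ 1
  hI : ∀ i, 1 ≤ i → i < n → ‖I i‖ ≤ R
  hIs : ∀ i, 1 ≤ i → i + 1 < n → I (i + 1) = e (i + 1) + b i • I i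
  hTI : ∀ i, 1 ≤ i → i + 1 < n → T (I i) = e i - b i • e (i + 1)
  hTI2 : ∀ i, 1 ≤ i → i < n → ‖T (I i)‖ ≤ 2
  hTI3 : ∀ i, 1 ≤ i → i < n → ⟪I i, T (I i)⟫_ℝ = 1
  sym : ∀ u v, ⟪T u, v⟫_ℝ = ⟪u, T v⟫_ℝ
  bd : ∀ v, ‖T v‖ ≤ 4 * ‖v‖
  ha : ∀ k, 1 ≤ k → k < n →
    a k = (‖ρ k‖ ^ 2 + c k ^ 2 / s ^ 2) / (⟪π k, T (π k)⟫_ℝ + g k ^ 2 / (lam * s ^ 2))
  hc : ∀ k, 1 ≤ k → k < n → b k * c (k + 1) = c k - a k / lam * g k
  hρ : ∀ k, 1 ≤ k → k < n → b k • ρ (k + 1) = ρ k - a k • T (π k) + (a k / lam * g k) • e 1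
  hβ : ∀ k, 1 ≤ k → k < n →
    β k = (‖ρ (k + 1)‖ ^ 2 + c (k + 1) ^ 2 / s ^ 2) / (‖ρ k‖ ^ 2 + c k ^ 2 / s ^ 2)
  hg : ∀ k, 1 ≤ k → k < n →
    g (k + 1) = c (k + 1) - s ^ 2 * ⟪e 1, ρ (k + 1)⟫_ℝ + b k * β k * g k
  hπ : ∀ k, 1 ≤ k → k < n → π (k + 1) = ρ (k + 1) + (b k * β k) • π k

/-- the invariant -/
structure BInv (T : V →ₗ[ℝ] V) (s R : ℝ) (e I : ℕ → V) (c g : ℕ → ℝ) (ρ π : ℕ → V)
    (X : ℝ) (k : ℕ) : Prop where
  iX : 0 ≤ X
  ig : |g k| = s * X
  ic : |c k| ≤ 2 * (s * X)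
  iρ : ‖ρ k - e k‖ ≤ X / 100
  iT : ‖T (π k - I k)‖ ≤ X
  iw : |⟪π k, T (π k)⟫_ℝ - 1| ≤ X
  iπ : ‖π k - I k‖ ≤ R * X

section

variable {n : ℕ} {s lam R : ℝ} {T : V →ₗ[ℝ] V} {e I : ℕ → V} {b c g a β : ℕ → ℝ} {ρ π : ℕ → V}

theorem BPar.hl (P : BPar s lam R) : 0 < lam := lt_of_lt_of_le P.hs P.hs2

theorem BPar.hs1 (P : BPar s lam R) : 20000 * s ≤ 1 := by
  linarith [P.hs2, P.hl1]

/-- the squared residual -/
theorem BInv.hk (P : BPar s lam R) (S : BSys n s lam R T e I b c g a β ρ π) {X : ℝ} {k : ℕ}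
    (hk1 : 1 ≤ k) (hkn : k < n) (hX : X ≤ lam) (h : BInv T s R e I c g ρ π X k) :
    |‖ρ k‖ ^ 2 + c k ^ 2 / s ^ 2 - 1| ≤ X / 40 := by
  have hs := P.hs
  have hl1 := P.hl1
  have hX0 := h.iX
  have h1 := norm_sq_near (S.he1 k hk1 hkn) h.iρ
  have hXX : X ^ 2 ≤ X / 20000 := by
    have : X * X ≤ X * (1 / 20000) := mul_le_mul_of_nonneg_left (by linarith) hX0
    linarith
  have h2 : c k ^ 2 / s ^ 2 ≤ 4 * X ^ 2 := by
    rw [div_le_iff₀ (by positivity)]
    have := sq_le_sq' (by linarith [abs_nonneg (c k), h.ic]) h.ic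
    rw [sq_abs] at this
    linarith
  have h3 : 0 ≤ c k ^ 2 / s ^ 2 := by positivity
  have h4 : 2 * (X / 100) + (X / 100) ^ 2 ≤ X / 49 := by
    have : (X / 100) ^ 2 = X ^ 2 / 10000 := by ring
    rw [this]; linarith
  rw [abs_le] at h1 ⊢
  constructor <;> linarith

/-- the step length -/
theorem BInv.ak (P : BPar s lam R) (S : BSys n s lam R T e I b c g a β ρ π) {X : ℝ} {k : ℕ}
    (hk1 : 1 ≤ k) (hkn : k < n) (hX : X ≤ lam) (h : BInv T s R e I c g ρ π X k) :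
    |a k - 1| ≤ 3 * X ∧ 99 / 100 ≤ ⟪π k, T (π k)⟫_ℝ + g k ^ 2 / (lam * s ^ 2) := by
  have hs := P.hs
  have hl := P.hl
  have hl1 := P.hl1
  have hX0 := h.iX
  have h1 := h.hk P S hk1 hkn hX
  have hiw := h.iw
  have h3 : g k ^ 2 / (lam * s ^ 2) ≤ X := by
    rw [div_le_iff₀ (by positivity), ← sq_abs, h.ig]
    have h2 : s ^ 2 * (X * X) ≤ s ^ 2 * (X * lam) := by
      apply mul_le_mul_of_nonneg_left _ (by positivity)
      exact mul_le_mul_of_nonneg_left hX hX0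
    calc (s * X) ^ 2 = s ^ 2 * (X * X) := by ring
      _ ≤ s ^ 2 * (X * lam) := h2
      _ = X * (lam * s ^ 2) := by ring
  have h4 : 0 ≤ g k ^ 2 / (lam * s ^ 2) := by positivity
  rw [S.ha k hk1 hkn]
  set hh := ‖ρ k‖ ^ 2 + c k ^ 2 / s ^ 2
  set w := ⟪π k, T (π k)⟫_ℝ + g k ^ 2 / (lam * s ^ 2) with hw'
  have h2 : |w - 1| ≤ 2 * X := by
    rw [abs_le] at hiw ⊢
    constructor <;> linarith [hiw.1, hiw.2]
  have hw : 99 / 100 ≤ w := by
    have := (abs_le.mp h2).1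
    linarith
  have hw0 : 0 < w := by linarith
  refine ⟨?_, hw⟩
  have h3 : hh / w - 1 = (hh - w) / w := by field_simp
  rw [h3, abs_div, abs_of_pos hw0, div_le_iff₀ hw0]
  have h4 : |hh - w| ≤ X / 40 + 2 * X := by
    have : hh - w = (hh - 1) - (w - 1) := by ring
    rw [this]
    exact (abs_sub _ _).trans (add_le_add h1 h2)
  calc |hh - w| ≤ X / 40 + 2 * X := h4
    _ ≤ 3 * X * (99 / 100) := by linarith
    _ ≤ 3 * X * w := mul_le_mul_of_nonneg_left hw (by positivity)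

/-- the next `c` -/
theorem BInv.cnext (P : BPar s lam R) (S : BSys n s lam R T e I b c g a β ρ π) {X : ℝ} {k : ℕ}
    (hk1 : 1 ≤ k) (hkn : k < n) (hX : X ≤ lam) (h : BInv T s R e I c g ρ π X k) :
    |b k * c (k + 1) + g k / lam| ≤ 1 / 1000 * (s * X / lam) := by
  have hs := P.hs
  have hl := P.hl
  have hl1 := P.hl1
  have hX0 := h.iX
  have h1 := (h.ak P S hk1 hkn hX).1
  rw [S.hc k hk1 hkn]
  have e1 : c k - a k / lam * g k + g k / lam = c k - (a k - 1) * (g k / lam) := by ring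
  rw [e1]
  have h2 : |(a k - 1) * (g k / lam)| ≤ 3 * X * (s * X / lam) := by
    rw [abs_mul, abs_div, abs_of_pos hl, h.ig]
    exact mul_le_mul_of_nonneg_right h1 (by positivity)
  have h3 : |c k| ≤ 2 * lam * (s * X / lam) := by
    have : 2 * lam * (s * X / lam) = 2 * (s * X) := by field_simp
    rw [this]; exact h.ic
  have h4 : 0 ≤ s * X / lam := by positivity
  calc |c k - (a k - 1) * (g k / lam)| ≤ |c k| + |(a k - 1) * (g k / lam)| := abs_sub _ _
    _ ≤ 2 * lam * (s * X / lam) + 3 * X * (s * X / lam) := add_le_add h3 h2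
    _ = (2 * lam + 3 * X) * (s * X / lam) := by ring
    _ ≤ 1 / 1000 * (s * X / lam) := mul_le_mul_of_nonneg_right (by linarith) h4

/-- everything after one step, in terms of `Y = X / (lam * b k)` -/
theorem BInv.next (P : BPar s lam R) (S : BSys n s lam R T e I b c g a β ρ π) {X Y : ℝ} {k : ℕ}
    (hk1 : 1 ≤ k) (hkn : k + 1 < n) (hX : X ≤ lam) (hY : X = lam * (b k * Y))
    (h : BInv T s R e I c g ρ π X k) :
    0 ≤ Y ∧ Y ≤ 2 ∧ |c (k + 1)| ≤ 1001 / 1000 * (s * Y) ∧ ‖ρ (k + 1) - e (k + 1)‖ ≤ Y / 2000 ∧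
    |g (k + 1)| ≤ 1002 / 1000 * (s * Y) ∧ 998 / 1000 * (s * Y) ≤ |g (k + 1)| := by
  have hs := P.hs
  have hs1 := P.hs1
  have hs2 := P.hs2
  have hl := P.hl
  have hl1 := P.hl1
  have hX0 := h.iX
  have hb := S.hb k
  have hb1 := S.hb1 k
  have hb0 : 0 < b k := by linarith
  have hY0 : 0 ≤ Y := by
    by_contra hc
    push Not at hc
    have : lam * (b k * Y) < 0 := mul_neg_of_pos_of_neg hl (mul_neg_of_pos_of_neg hb0 hc)
    linarith
  have hbY : b k * Y ≤ Y := by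
    have := mul_le_mul_of_nonneg_right hb1 hY0
    linarith
  have hbY2 : Y ≤ 2 * (b k * Y) := by
    have := mul_le_mul_of_nonneg_right hb hY0
    linarith
  have hXY : X ≤ lam * Y := by
    rw [hY]; exact mul_le_mul_of_nonneg_left hbY hl.le
  have hXY' : X ≤ Y / 20000 := by
    have : lam * Y ≤ 1 / 20000 * Y := mul_le_mul_of_nonneg_right (by linarith) hY0
    linarith
  have hY2 : Y ≤ 2 := by
    have : b k * Y ≤ 1 := by
      by_contra hc
      push Not at hc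
      have : lam * 1 < lam * (b k * Y) := mul_lt_mul_of_pos_left hc hl
      linarith
    linarith
  have hsY0 : 0 ≤ s * Y := by positivity
  have hkn' : k < n := by omega
  obtain ⟨hak, hw⟩ := h.ak P S hk1 hkn' hX
  have hau : |a k| ≤ 1001 / 1000 := by
    have : |a k| ≤ |a k - 1| + 1 := by
      calc |a k| = |(a k - 1) + 1| := by congr 1; ring
        _ ≤ |a k - 1| + |1| := abs_add_le _ _
        _ = _ := by rw [abs_one]
    linarith
  have hsXl : s * X / lam = b k * (s * Y) := by rw [hY]; field_simp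
  -- c
  have hc0 := h.cnext P S hk1 hkn' hX
  rw [hsXl] at hc0
  have hgl : |g k / lam| = b k * (s * Y) := by
    rw [abs_div, abs_of_pos hl, h.ig]; exact hsXl
  have hcu : |c (k + 1)| ≤ 1001 / 1000 * (s * Y) := by
    have h1 : |b k * c (k + 1)| ≤ 1001 / 1000 * (b k * (s * Y)) := by
      calc |b k * c (k + 1)| = |(b k * c (k + 1) + g k / lam) - g k / lam| := by congr 1; ring
        _ ≤ |b k * c (k + 1) + g k / lam| + |g k / lam| := abs_sub _ _
        _ ≤ 1 / 1000 * (b k * (s * Y)) + b k * (s * Y) := add_le_add hc0 hgl.le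
        _ = _ := by ring
    rw [abs_mul, abs_of_pos hb0] at h1
    have h2 : b k * |c (k + 1)| ≤ b k * (1001 / 1000 * (s * Y)) := by linarith
    exact le_of_mul_le_mul_left h2 hb0
  have hcl : 999 / 1000 * (s * Y) ≤ |c (k + 1)| := by
    have h1 : 999 / 1000 * (b k * (s * Y)) ≤ |b k * c (k + 1)| := by
      have : |g k / lam| ≤ |b k * c (k + 1)| + |b k * c (k + 1) + g k / lam| := by
        calc |g k / lam| = |(b k * c (k + 1) + g k / lam) - b k * c (k + 1)| := by congr 1; ring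
          _ ≤ |b k * c (k + 1) + g k / lam| + |b k * c (k + 1)| := abs_sub _ _
          _ = _ := add_comm _ _
      rw [hgl] at this
      linarith
    rw [abs_mul, abs_of_pos hb0] at h1
    have h2 : b k * (999 / 1000 * (s * Y)) ≤ b k * |c (k + 1)| := by linarith
    exact le_of_mul_le_mul_left h2 hb0
  -- rho
  have ee1 : ‖e 1‖ = 1 := S.he1 1 le_rfl (by omega)
  have e1 : b k • (ρ (k + 1) - e (k + 1)) = (ρ k - e k) - (a k - 1) • (T (I k))
      - a k • T (π k - I k) + (a k / lam * g k) • e 1 := by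
    have hek : b k • e (k + 1) = e k - T (I k) := by rw [S.hTI k hk1 hkn]; abel
    rw [smul_sub, S.hρ k hk1 hkn', map_sub, sub_smul, one_smul, smul_sub, hek]
    abel
  have hagl : |a k / lam * g k| ≤ 1001 / 1000 * (b k * (s * Y)) := by
    have : a k / lam * g k = a k * (g k / lam) := by ring
    rw [this, abs_mul, hgl]
    exact mul_le_mul_of_nonneg_right hau (by positivity)
  have hsY : s * Y ≤ Y / 20000 := by
    have : s * Y ≤ 1 / 20000 * Y := mul_le_mul_of_nonneg_right (by linarith) hY0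
    linarith
  have iρ' : ‖ρ (k + 1) - e (k + 1)‖ ≤ Y / 2000 := by
    have h0 : b k * ‖ρ (k + 1) - e (k + 1)‖ ≤ b k * (Y / 2000) := by
      have : b k * ‖ρ (k + 1) - e (k + 1)‖ = ‖b k • (ρ (k + 1) - e (k + 1))‖ := by
        rw [norm_smul, Real.norm_eq_abs, abs_of_pos hb0]
      rw [this, e1]
      have h1 : ‖(a k - 1) • (T (I k))‖ ≤ 3 * X * 2 := by
        rw [norm_smul, Real.norm_eq_abs]
        exact mul_le_mul hak (S.hTI2 k hk1 hkn') (norm_nonneg _) (by positivity)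
      have h2 : ‖a k • T (π k - I k)‖ ≤ 1001 / 1000 * X := by
        rw [norm_smul, Real.norm_eq_abs]
        exact mul_le_mul hau h.iT (norm_nonneg _) (by norm_num)
      have h3 : ‖(a k / lam * g k) • e 1‖ ≤ 1001 / 1000 * (b k * (s * Y)) := by
        rw [norm_smul, Real.norm_eq_abs, ee1, mul_one]; exact hagl
      have h4 : b k * (s * Y) ≤ b k * (Y / 20000) := mul_le_mul_of_nonneg_left hsY hb0.le
      have h5 : X ≤ b k * (Y / 20000) := by
        rw [hY]
        have : lam * (b k * Y) ≤ 1 / 20000 * (b k * Y) :=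
          mul_le_mul_of_nonneg_right (by linarith) (by positivity)
        linarith
      calc _ ≤ ‖ρ k - e k‖ + ‖(a k - 1) • (T (I k))‖ + ‖a k • T (π k - I k)‖
            + ‖(a k / lam * g k) • e 1‖ := by
            refine (norm_add_le _ _).trans (add_le_add ?_ le_rfl)
            refine (norm_sub_le _ _).trans (add_le_add ?_ le_rfl)
            exact norm_sub_le _ _
        _ ≤ X / 100 + 3 * X * 2 + 1001 / 1000 * X + 1001 / 1000 * (b k * (s * Y)) :=
            add_le_add (add_le_add (add_le_add h.iρ h1) h2) h3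
        _ ≤ b k * (Y / 2000) := by linarith
    exact le_of_mul_le_mul_left h0 hb0
  -- beta, crudely
  have hhk := h.hk P S hk1 hkn' hX
  have hβu : |β k| ≤ 6 := by
    rw [S.hβ k hk1 hkn']
    have h1 := norm_sq_near (S.he1 (k + 1) (by omega) hkn) iρ'
    have h2 : c (k + 1) ^ 2 / s ^ 2 ≤ (1001 / 1000 * Y) ^ 2 := by
      rw [div_le_iff₀ (by positivity), ← mul_pow, ← sq_abs]
      apply pow_le_pow_left₀ (abs_nonneg _)
      linarith
    have h3 : (1001 / 1000 * Y) ^ 2 ≤ 41 / 10 := by nlinarith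
    have h4 : 0 ≤ c (k + 1) ^ 2 / s ^ 2 := by positivity
    have h5 : 2 * (Y / 2000) + (Y / 2000) ^ 2 ≤ 1 / 100 := by nlinarith
    set h0 := ‖ρ k‖ ^ 2 + c k ^ 2 / s ^ 2
    have hw : 99 / 100 ≤ h0 := by
      have := (abs_le.mp hhk).1
      linarith
    have hw0 : 0 < h0 := by linarith
    rw [abs_div, abs_of_pos hw0, div_le_iff₀ hw0, abs_of_nonneg (by positivity)]
    have := (abs_le.mp h1).2
    linarith
  -- g
  have hin : |⟪e 1, ρ (k + 1)⟫_ℝ| ≤ Y / 2000 := by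
    have h1 : ⟪e 1, ρ (k + 1)⟫_ℝ = ⟪e 1, ρ (k + 1) - e (k + 1)⟫_ℝ := by
      rw [inner_sub_right, S.heo (k + 1) (by omega) hkn, sub_zero]
    rw [h1]
    refine (abs_real_inner_le_norm _ _).trans ?_
    rw [ee1, one_mul]; exact iρ'
  have hgc : |g (k + 1) - c (k + 1)| ≤ 1 / 1000 * (s * Y) := by
    have e2 : g (k + 1) - c (k + 1) = - (s ^ 2 * ⟪e 1, ρ (k + 1)⟫_ℝ) + b k * β k * g k := by
      rw [S.hg k hk1 hkn']; ring
    rw [e2]
    have h1 : |- (s ^ 2 * ⟪e 1, ρ (k + 1)⟫_ℝ)| ≤ s * Y / 2000 := by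
      rw [abs_neg, abs_mul, abs_of_pos (by positivity : (0 : ℝ) < s ^ 2)]
      calc s ^ 2 * |⟪e 1, ρ (k + 1)⟫_ℝ| ≤ s ^ 2 * (Y / 2000) :=
            mul_le_mul_of_nonneg_left hin (by positivity)
        _ = s * (s * Y / 2000) := by ring
        _ ≤ 1 * (s * Y / 2000) := mul_le_mul_of_nonneg_right (by linarith) (by positivity)
        _ = _ := one_mul _
    have h2 : |b k * β k * g k| ≤ 6 * (s * Y / 20000) := by
      rw [abs_mul, abs_mul, abs_of_pos hb0, h.ig]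
      have q1 : b k * |β k| ≤ 1 * 6 := mul_le_mul hb1 hβu (abs_nonneg _) (by norm_num)
      have q2 : s * X ≤ s * Y / 20000 := by
        have := mul_le_mul_of_nonneg_left hXY' hs.le
        linarith
      calc b k * |β k| * (s * X) ≤ (1 * 6) * (s * Y / 20000) :=
            mul_le_mul q1 q2 (by positivity) (by norm_num)
        _ = _ := by ring
    refine (abs_add_le _ _).trans ?_
    linarith
  refine ⟨hY0, hY2, hcu, iρ', ?_, ?_⟩
  · have : |g (k + 1)| ≤ |g (k + 1) - c (k + 1)| + |c (k + 1)| := by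
      calc |g (k + 1)| = |(g (k + 1) - c (k + 1)) + c (k + 1)| := by congr 1; ring
        _ ≤ _ := abs_add_le _ _
    linarith
  · have : |c (k + 1)| ≤ |g (k + 1)| + |g (k + 1) - c (k + 1)| := by
      calc |c (k + 1)| = |g (k + 1) - (g (k + 1) - c (k + 1))| := by congr 1; ring
        _ ≤ _ := abs_sub _ _
    linarith

/-- the step -/
theorem BInv.step (P : BPar s lam R) (S : BSys n s lam R T e I b c g a β ρ π) {X X' : ℝ} {k : ℕ}
    (hk1 : 1 ≤ k) (hkn : k + 1 < n) (hX : X ≤ lam) (hX' : X' ≤ lam) (hg' : |g (k + 1)| = s * X')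
    (h : BInv T s R e I c g ρ π X k) : BInv T s R e I c g ρ π X' (k + 1) := by
  have hs := P.hs
  have hs1 := P.hs1
  have hl := P.hl
  have hl1 := P.hl1
  have hR := P.hR
  have hX0 := h.iX
  have hb := S.hb k
  have hb1 := S.hb1 k
  have hb0 : 0 < b k := by linarith
  have hkn' : k < n := by omega
  obtain ⟨Y, hYd⟩ : ∃ Y, Y = X / (lam * b k) := ⟨_, rfl⟩
  have hXY : X = lam * (b k * Y) := by rw [hYd]; field_simp
  obtain ⟨hY0, hY2, hc', iρ', hgu, hgl⟩ := h.next P S hk1 hkn hX hXY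
  rw [hg'] at hgu hgl
  have hX0' : 0 ≤ X' := by
    have : 0 ≤ s * X' := by rw [← hg']; exact abs_nonneg _
    exact nonneg_of_mul_nonneg_right this hs
  have hYX : Y ≤ 1003 / 1000 * X' := by
    have h1 : s * (998 / 1000 * Y) ≤ s * X' := by linarith
    have := le_of_mul_le_mul_left h1 hs
    linarith
  have hYs : Y ≤ 1 / 19000 := by linarith
  have hXY2 : X ≤ Y / 20000 := by
    rw [hXY]
    have h1 : b k * Y ≤ Y := by
      have := mul_le_mul_of_nonneg_right hb1 hY0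
      linarith
    have : lam * (b k * Y) ≤ 1 / 20000 * Y :=
      mul_le_mul (by linarith) h1 (by positivity) (by norm_num)
    linarith
  have hYY : Y ^ 2 ≤ Y / 19000 := by
    have : Y * Y ≤ Y * (1 / 19000) := mul_le_mul_of_nonneg_left hYs hY0
    linarith
  have hhk := h.hk P S hk1 hkn' hX
  have hhk' : |‖ρ (k + 1)‖ ^ 2 + c (k + 1) ^ 2 / s ^ 2 - 1| ≤ Y / 500 := by
    have h1 := norm_sq_near (S.he1 (k + 1) (by omega) hkn) iρ'
    have h2 : c (k + 1) ^ 2 / s ^ 2 ≤ (1001 / 1000 * Y) ^ 2 := by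
      rw [div_le_iff₀ (by positivity), ← mul_pow, ← sq_abs]
      apply pow_le_pow_left₀ (abs_nonneg _)
      linarith
    have h3 : (1001 / 1000 * Y) ^ 2 ≤ 2 * Y ^ 2 := by
      have : 0 ≤ Y ^ 2 := sq_nonneg _
      have e : (1001 / 1000 * Y) ^ 2 = 1002001 / 1000000 * Y ^ 2 := by ring
      rw [e]; linarith
    have h4 : 0 ≤ c (k + 1) ^ 2 / s ^ 2 := by positivity
    have h5 : 2 * (Y / 2000) + (Y / 2000) ^ 2 ≤ Y / 900 := by
      have e : (Y / 2000) ^ 2 = Y ^ 2 / 4000000 := by ring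
      rw [e]; linarith
    rw [abs_le] at h1 ⊢
    constructor <;> linarith
  have hβ : |β k - 1| ≤ Y / 400 := by
    rw [S.hβ k hk1 hkn']
    set h0 := ‖ρ k‖ ^ 2 + c k ^ 2 / s ^ 2
    set h1 := ‖ρ (k + 1)‖ ^ 2 + c (k + 1) ^ 2 / s ^ 2
    have hw : 99 / 100 ≤ h0 := by
      have := (abs_le.mp hhk).1
      linarith
    have hw0 : 0 < h0 := by linarith
    have h3 : h1 / h0 - 1 = (h1 - h0) / h0 := by field_simp
    rw [h3, abs_div, abs_of_pos hw0, div_le_iff₀ hw0]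
    have h4 : |h1 - h0| ≤ Y / 500 + X / 40 := by
      have : h1 - h0 = (h1 - 1) - (h0 - 1) := by ring
      rw [this]
      exact (abs_sub _ _).trans (add_le_add hhk' hhk)
    calc |h1 - h0| ≤ Y / 500 + X / 40 := h4
      _ ≤ Y / 400 * (99 / 100) := by linarith
      _ ≤ Y / 400 * h0 := mul_le_mul_of_nonneg_left hw (by positivity)
  have hβu : |β k| ≤ 101 / 100 := by
    have : |β k| ≤ |β k - 1| + 1 := by
      calc |β k| = |(β k - 1) + 1| := by congr 1; ring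
        _ ≤ |β k - 1| + |1| := abs_add_le _ _
        _ = _ := by rw [abs_one]
    linarith
  have hbβ : |b k * (β k - 1)| ≤ Y / 400 := by
    rw [abs_mul, abs_of_pos hb0]
    have := mul_le_mul hb1 hβ (abs_nonneg _) (by norm_num)
    linarith
  have hbβu : |b k * β k| ≤ 101 / 100 := by
    rw [abs_mul, abs_of_pos hb0]
    have := mul_le_mul hb1 hβu (abs_nonneg _) (by norm_num)
    linarith
  -- pi
  have e2 : π (k + 1) - I (k + 1) = (ρ (k + 1) - e (k + 1)) + (b k * (β k - 1)) • I k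
      + (b k * β k) • (π k - I k) := by
    rw [S.hπ k hk1 hkn', S.hIs k hk1 hkn, smul_sub, mul_sub, sub_smul, mul_one]
    abel
  have iπ' : ‖π (k + 1) - I (k + 1)‖ ≤ R * X' := by
    rw [e2]
    have h1 : ‖(b k * (β k - 1)) • I k‖ ≤ Y / 400 * R := by
      rw [norm_smul, Real.norm_eq_abs]
      exact mul_le_mul hbβ (S.hI k hk1 hkn') (norm_nonneg _) (by positivity)
    have h2 : ‖(b k * β k) • (π k - I k)‖ ≤ 101 / 100 * (R * X) := by
      rw [norm_smul, Real.norm_eq_abs]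
      exact mul_le_mul hbβu h.iπ (norm_nonneg _) (by norm_num)
    have h6 : 1 * Y ≤ R * Y := mul_le_mul_of_nonneg_right hR hY0
    have h7 : R * X ≤ R * (Y / 20000) := mul_le_mul_of_nonneg_left hXY2 (by linarith)
    have h8 : R * Y ≤ R * (1003 / 1000 * X') := mul_le_mul_of_nonneg_left hYX (by linarith)
    have h9 : 0 ≤ R * X' := by positivity
    calc _ ≤ ‖ρ (k + 1) - e (k + 1)‖ + ‖(b k * (β k - 1)) • I k‖ + ‖(b k * β k) • (π k - I k)‖ := by
          refine (norm_add_le _ _).trans (add_le_add ?_ le_rfl)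
          exact norm_add_le _ _
      _ ≤ Y / 2000 + Y / 400 * R + 101 / 100 * (R * X) :=
          add_le_add (add_le_add iρ' h1) h2
      _ ≤ R * X' := by linarith
  have iT' : ‖T (π (k + 1) - I (k + 1))‖ ≤ X' := by
    rw [e2, map_add, map_add, map_smul, map_smul]
    have h0 : ‖T (ρ (k + 1) - e (k + 1))‖ ≤ 4 * (Y / 2000) :=
      (S.bd _).trans (mul_le_mul_of_nonneg_left iρ' (by norm_num))
    have h1 : ‖(b k * (β k - 1)) • T (I k)‖ ≤ Y / 400 * 2 := by
      rw [norm_smul, Real.norm_eq_abs]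
      exact mul_le_mul hbβ (S.hTI2 k hk1 hkn') (norm_nonneg _) (by positivity)
    have h2 : ‖(b k * β k) • T (π k - I k)‖ ≤ 101 / 100 * X := by
      rw [norm_smul, Real.norm_eq_abs]
      exact mul_le_mul hbβu h.iT (norm_nonneg _) (by norm_num)
    calc _ ≤ ‖T (ρ (k + 1) - e (k + 1))‖ + ‖(b k * (β k - 1)) • T (I k)‖
          + ‖(b k * β k) • T (π k - I k)‖ := by
          refine (norm_add_le _ _).trans (add_le_add ?_ le_rfl)
          exact norm_add_le _ _
      _ ≤ 4 * (Y / 2000) + Y / 400 * 2 + 101 / 100 * X := add_le_add (add_le_add h0 h1) h2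
      _ ≤ X' := by linarith
  -- w
  have iw' : |⟪π (k + 1), T (π (k + 1))⟫_ℝ - 1| ≤ X' := by
    have hee : ‖e (k + 1)‖ = 1 := S.he1 (k + 1) (by omega) hkn
    set z := ρ (k + 1) - e (k + 1) with hz
    have hρz : ρ (k + 1) = e (k + 1) + z := by rw [hz]; abel
    have q0 : ⟪e (k + 1), T (e (k + 1))⟫_ℝ + 2 * (b k * ⟪e (k + 1), T (I k)⟫_ℝ) + b k ^ 2 = 1 := by
      have q1 := S.hTI3 (k + 1) (by omega) hkn
      have q2 := S.hTI3 k hk1 hkn'
      rw [S.hIs k hk1 hkn, map_add, map_smul, inner_add_left, inner_add_right, inner_add_right,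
        inner_smul_left, inner_smul_left, inner_smul_right, inner_smul_right, q2,
        ← S.sym (I k) (e (k + 1)), real_inner_comm (e (k + 1)) (T (I k))] at q1
      simp only [conj_trivial, mul_one] at q1
      linarith
    have q1 : ⟪ρ (k + 1), T (ρ (k + 1))⟫_ℝ = ⟪e (k + 1), T (e (k + 1))⟫_ℝ
        + 2 * ⟪z, T (e (k + 1))⟫_ℝ + ⟪z, T z⟫_ℝ := by
      rw [hρz, map_add, inner_add_left, inner_add_right, inner_add_right,
        ← S.sym (e (k + 1)) z, real_inner_comm z (T (e (k + 1)))]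
      ring
    have q2 : ⟪π (k + 1), T (π (k + 1))⟫_ℝ = ⟪ρ (k + 1), T (ρ (k + 1))⟫_ℝ
        + 2 * (b k * β k) * ⟪ρ (k + 1), T (π k)⟫_ℝ + (b k * β k) ^ 2 * ⟪π k, T (π k)⟫_ℝ := by
      rw [S.hπ k hk1 hkn', map_add, map_smul, inner_add_left, inner_add_right, inner_add_right,
        inner_smul_left, inner_smul_left, inner_smul_right, inner_smul_right,
        ← S.sym (π k) (ρ (k + 1)), real_inner_comm (ρ (k + 1)) (T (π k))]
      simp only [conj_trivial]
      ring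
    have q3 : ⟪ρ (k + 1), T (π k)⟫_ℝ = ⟪e (k + 1), T (I k)⟫_ℝ + ⟪e (k + 1), T (π k - I k)⟫_ℝ
        + ⟪z, T (π k)⟫_ℝ := by
      rw [hρz, inner_add_left, map_sub, inner_sub_right]
      ring
    have hTπ : ‖T (π k)‖ ≤ 201 / 100 := by
      have : T (π k) = T (I k) + T (π k - I k) := by rw [map_sub]; abel
      rw [this]
      refine (norm_add_le _ _).trans ?_
      have := S.hTI2 k hk1 hkn'
      linarith [h.iT]
    have n1 : |⟪z, T (e (k + 1))⟫_ℝ| ≤ Y / 2000 * 4 := by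
      refine (abs_real_inner_le_norm _ _).trans ?_
      refine mul_le_mul iρ' ((S.bd _).trans ?_) (norm_nonneg _) (by positivity)
      rw [hee, mul_one]
    have n2 : |⟪z, T z⟫_ℝ| ≤ Y / 2000 * (4 * (Y / 2000)) := by
      refine (abs_real_inner_le_norm _ _).trans ?_
      refine mul_le_mul iρ' ((S.bd _).trans ?_) (norm_nonneg _) (by positivity)
      exact mul_le_mul_of_nonneg_left iρ' (by norm_num)
    have n2' : Y / 2000 * (4 * (Y / 2000)) ≤ Y / 1000000 := by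
      have e : Y / 2000 * (4 * (Y / 2000)) = Y ^ 2 / 1000000 := by ring
      rw [e]; linarith
    have n3 : |⟪e (k + 1), T (π k - I k)⟫_ℝ| ≤ X := by
      refine (abs_real_inner_le_norm _ _).trans ?_
      rw [hee, one_mul]; exact h.iT
    have n4 : |⟪z, T (π k)⟫_ℝ| ≤ Y / 2000 * (201 / 100) := by
      refine (abs_real_inner_le_norm _ _).trans ?_
      exact mul_le_mul iρ' hTπ (norm_nonneg _) (by positivity)
    have n5 : |⟪ρ (k + 1), T (π k)⟫_ℝ| ≤ 21 / 10 := by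
      refine (abs_real_inner_le_norm _ _).trans ?_
      have : ‖ρ (k + 1)‖ ≤ 1001 / 1000 := by
        rw [hρz]
        refine (norm_add_le _ _).trans ?_
        rw [hee]; linarith
      have := mul_le_mul this hTπ (norm_nonneg _) (by norm_num)
      linarith
    -- the middle term
    have m1 : |b k * β k * ⟪ρ (k + 1), T (π k)⟫_ℝ - b k * ⟪e (k + 1), T (I k)⟫_ℝ| ≤ Y / 100 := by
      have e3 : b k * β k * ⟪ρ (k + 1), T (π k)⟫_ℝ - b k * ⟪e (k + 1), T (I k)⟫_ℝ
          = b k * (β k - 1) * ⟪ρ (k + 1), T (π k)⟫_ℝ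
            + b k * (⟪e (k + 1), T (π k - I k)⟫_ℝ + ⟪z, T (π k)⟫_ℝ) := by
        rw [q3]; ring
      rw [e3]
      refine (abs_add_le _ _).trans ?_
      have r1 : |b k * (β k - 1) * ⟪ρ (k + 1), T (π k)⟫_ℝ| ≤ Y / 400 * (21 / 10) := by
        rw [abs_mul]
        exact mul_le_mul hbβ n5 (abs_nonneg _) (by positivity)
      have r2 : |b k * (⟪e (k + 1), T (π k - I k)⟫_ℝ + ⟪z, T (π k)⟫_ℝ)|
          ≤ 1 * (X + Y / 2000 * (201 / 100)) := by
        rw [abs_mul, abs_of_pos hb0]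
        exact mul_le_mul hb1 ((abs_add_le _ _).trans (add_le_add n3 n4)) (abs_nonneg _)
          (by norm_num)
      linarith
    -- the last term
    have m2 : |(b k * β k) ^ 2 * ⟪π k, T (π k)⟫_ℝ - b k ^ 2| ≤ Y / 100 := by
      have e3 : (b k * β k) ^ 2 * ⟪π k, T (π k)⟫_ℝ - b k ^ 2
          = (b k * (β k - 1)) * (b k * β k + b k) * ⟪π k, T (π k)⟫_ℝ
            + b k ^ 2 * (⟪π k, T (π k)⟫_ℝ - 1) := by ring
      rw [e3]
      refine (abs_add_le _ _).trans ?_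
      have hwu : |⟪π k, T (π k)⟫_ℝ| ≤ 101 / 100 := by
        have : |⟪π k, T (π k)⟫_ℝ| ≤ |⟪π k, T (π k)⟫_ℝ - 1| + 1 := by
          calc |⟪π k, T (π k)⟫_ℝ| = |(⟪π k, T (π k)⟫_ℝ - 1) + 1| := by congr 1; ring
            _ ≤ _ := abs_add_le _ _
            _ = _ := by rw [abs_one]
        linarith [h.iw]
      have r1 : |(b k * (β k - 1)) * (b k * β k + b k) * ⟪π k, T (π k)⟫_ℝ|
          ≤ Y / 400 * (201 / 100) * (101 / 100) := by
        rw [abs_mul, abs_mul]
        apply mul_le_mul _ hwu (abs_nonneg _) (by positivity)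
        apply mul_le_mul hbβ _ (abs_nonneg _) (by positivity)
        refine (abs_add_le _ _).trans ?_
        rw [abs_of_pos hb0]; linarith
      have r2 : |b k ^ 2 * (⟪π k, T (π k)⟫_ℝ - 1)| ≤ 1 * X := by
        rw [abs_mul, abs_of_pos (by positivity : (0 : ℝ) < b k ^ 2)]
        apply mul_le_mul _ h.iw (abs_nonneg _) (by norm_num)
        exact pow_le_one₀ hb0.le hb1
      linarith
    have e4 : ⟪π (k + 1), T (π (k + 1))⟫_ℝ - 1 = 2 * ⟪z, T (e (k + 1))⟫_ℝ + ⟪z, T z⟫_ℝ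
        + 2 * (b k * β k * ⟪ρ (k + 1), T (π k)⟫_ℝ - b k * ⟪e (k + 1), T (I k)⟫_ℝ)
        + ((b k * β k) ^ 2 * ⟪π k, T (π k)⟫_ℝ - b k ^ 2) := by
      rw [q2, q1]
      linarith
    rw [e4]
    rw [abs_le] at n1 n2 m1 m2 ⊢
    constructor <;> linarith [n1.1, n1.2, n2.1, n2.2, m1.1, m1.2, m2.1, m2.2]
  refine ⟨hX0', hg', ?_, ?_, iT', iw', iπ'⟩
  · have h1 : s * Y ≤ s * (1003 / 1000 * X') := mul_le_mul_of_nonneg_left hYX hs.le
    have h2 : 0 ≤ s * X' := by positivity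
    linarith
  · linarith

end

end Pool.Agent.Lib.MP_02bbae_an
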