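import Mathlib
import Pool.Agent.Lib.MP_02bbae_an.BlockStep

/-!
# The choice of the perturbation by the intermediate value theorem
-/

set_option autoImplicit false

open scoped InnerProductSpace RealInnerProductSpace
open Set

namespace Pool.Agent.Lib.MP_02bbae_an

/-- the first point where a continuous function takes a value -/
theorem first_hit {f : ℝ → ℝ} {d y : ℝ} (hd : 0 ≤ d) (hf : ContinuousOn f (Icc 0 d))
    (h0 : f 0 ≤ y) (h1 : y ≤ f d) :
    ∃ x ∈ Icc 0 d, f x = y ∧ ∀ z ∈ Icc 0 x, f z ≤ y := by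
  set S := Icc 0 d ∩ f ⁻¹' Ici y with hS
  have hcl : IsClosed S := hf.preimage_isClosed_of_isClosed isClosed_Icc isClosed_Ici
  have hne : S.Nonempty := ⟨d, ⟨hd, le_rfl⟩, h1⟩
  have hbd : BddBelow S := ⟨0, fun z hz => hz.1.1⟩
  have hx := hcl.csInf_mem hne hbd
  set x := sInf S with hxd
  have hxI : x ∈ Icc 0 d := hx.1
  have hfx : y ≤ f x := hx.2
  have key : f x = y := by
    have hc : ContinuousOn f (Icc 0 x) := hf.mono (Icc_subset_Icc_right hxI.2)
    obtain ⟨z, hz, hz2⟩ := intermediate_value_Icc hxI.1 hc ⟨h0, hfx⟩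
    have hzS : z ∈ S := ⟨⟨hz.1, hz.2.trans hxI.2⟩, by rw [mem_preimage, hz2]; exact self_mem_Ici⟩
    have : x ≤ z := csInf_le hbd hzS
    have hzx : z = x := le_antisymm hz.2 this
    rw [← hzx]; exact hz2
  refine ⟨x, hxI, key, fun z hz => ?_⟩
  by_contra hcon
  push Not at hcon
  have hzS : z ∈ S := ⟨⟨hz.1, hz.2.trans hxI.2⟩, hcon.le⟩
  have : x ≤ z := csInf_le hbd hzS
  have hzx : z = x := le_antisymm hz.2 this
  rw [hzx, key] at hcon
  exact lt_irrefl _ hcon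

variable {V : Type*} [NormedAddCommGroup V] [InnerProductSpace ℝ V]

section

variable {n : ℕ} {s lam R : ℝ} {T : V →ₗ[ℝ] V} {e I : ℕ → V} {b c g a β : ℕ → ℝ} {ρ π : ℕ → V}

/-- the start -/
theorem BInv.base (P : BPar s lam R) (S : BSys n s lam R T e I b c g a β ρ π) (hn : 1 < n)
    {δ X : ℝ} (hδ0 : 0 ≤ δ) (hδ : δ ≤ 1 / 100) (hI1 : I 1 = e 1)
    (hc1 : c 1 = -δ) (hg1 : g 1 = -δ * (1 - δ - s ^ 2 * (1 + δ)))
    (hρ1 : ρ 1 = (1 + δ) • e 1) (hπ1 : π 1 = (1 + δ) • e 1) (hX : |g 1| = s * X) :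
    BInv T s R e I c g ρ π X 1 ∧ δ ≤ 2 * (s * X) ∧ s * X ≤ δ := by
  have hs := P.hs
  have hs1 := P.hs1
  have hR := P.hR
  have ee1 : ‖e 1‖ = 1 := S.he1 1 le_rfl hn
  have hss : s ^ 2 ≤ 1 / 100 := by nlinarith
  have hm : δ + s ^ 2 * (1 + δ) ≤ 1 / 20 := by
    have : s ^ 2 * (1 + δ) ≤ 1 / 100 * 2 := mul_le_mul hss (by linarith) (by linarith) (by norm_num)
    linarith
  have hm0 : 0 ≤ δ + s ^ 2 * (1 + δ) := by positivity
  have hg : |g 1| = δ * (1 - (δ + s ^ 2 * (1 + δ))) := by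
    rw [hg1]
    have h1 : -δ * (1 - δ - s ^ 2 * (1 + δ)) = -(δ * (1 - (δ + s ^ 2 * (1 + δ)))) := by ring
    rw [h1, abs_neg, abs_of_nonneg]
    apply mul_nonneg hδ0
    linarith
  have hlow : 19 / 20 * δ ≤ s * X := by
    rw [← hX, hg]
    have := mul_le_mul_of_nonneg_left (show (19 / 20 : ℝ) ≤ 1 - (δ + s ^ 2 * (1 + δ)) by linarith) hδ0
    linarith
  have hup : s * X ≤ δ := by
    rw [← hX, hg]
    have := mul_le_mul_of_nonneg_left (show 1 - (δ + s ^ 2 * (1 + δ)) ≤ 1 by linarith) hδ0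
    linarith
  have hsX0 : 0 ≤ s * X := by rw [← hX]; exact abs_nonneg _
  have hX0 : 0 ≤ X := nonneg_of_mul_nonneg_right hsX0 hs
  have hsX : s * X ≤ X / 20000 := by
    have : s * X ≤ 1 / 20000 * X := mul_le_mul_of_nonneg_right (by linarith) hX0
    linarith
  have hd1 : (1 + δ) • e 1 - e 1 = δ • e 1 := by rw [add_smul, one_smul]; abel
  have hd : ‖(1 + δ) • e 1 - e 1‖ = δ := by
    rw [hd1, norm_smul, ee1, mul_one, Real.norm_eq_abs, abs_of_nonneg hδ0]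
  refine ⟨⟨hX0, hX, ?_, ?_, ?_, ?_, ?_⟩, by linarith, hup⟩
  · rw [hc1, abs_neg, abs_of_nonneg hδ0]; linarith
  · rw [hρ1, hd]; linarith
  · rw [hπ1, hI1, hd1]
    refine (S.bd _).trans ?_
    rw [norm_smul, ee1, mul_one, Real.norm_eq_abs, abs_of_nonneg hδ0]
    linarith
  · have h1 : ⟪e 1, T (e 1)⟫_ℝ = 1 := by
      have := S.hTI3 1 le_rfl hn
      rwa [hI1] at this
    rw [hπ1, map_smul, inner_smul_left, inner_smul_right, h1]
    simp only [conj_trivial, mul_one]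
    have h2 : (1 + δ) * (1 + δ) - 1 = δ * (2 + δ) := by ring
    rw [h2, abs_of_nonneg (by positivity)]
    have h3 : δ * (2 + δ) ≤ δ * 3 := mul_le_mul_of_nonneg_left (by linarith) hδ0
    linarith
  · rw [hπ1, hI1, hd]
    have : 1 * X ≤ R * X := mul_le_mul_of_nonneg_right hR hX0
    linarith

/-- all steps -/
theorem BInv.all (P : BPar s lam R) (S : BSys n s lam R T e I b c g a β ρ π) (hn : 1 < n)
    {δ : ℝ} (hδ0 : 0 ≤ δ) (hδ : δ ≤ 1 / 100) (hI1 : I 1 = e 1)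
    (hc1 : c 1 = -δ) (hg1 : g 1 = -δ * (1 - δ - s ^ 2 * (1 + δ)))
    (hρ1 : ρ 1 = (1 + δ) • e 1) (hπ1 : π 1 = (1 + δ) • e 1) {k : ℕ} (hk1 : 1 ≤ k) (hkn : k < n)
    (hg : ∀ j, 1 ≤ j → j ≤ k → |g j| ≤ s * lam) :
    BInv T s R e I c g ρ π (|g k| / s) k ∧ |g k| / s ≤ lam := by
  have hs := P.hs
  have hX : ∀ j, |g j| = s * (|g j| / s) := fun j => by field_simp
  have hl : ∀ j, 1 ≤ j → j ≤ k → |g j| / s ≤ lam := by
    intro j h1 h2
    rw [div_le_iff₀ hs, mul_comm]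
    exact hg j h1 h2
  refine ⟨?_, hl k hk1 le_rfl⟩
  induction k, hk1 using Nat.le_induction with
  | base => exact (BInv.base P S hn hδ0 hδ hI1 hc1 hg1 hρ1 hπ1 (hX 1)).1
  | succ k hk1 ih =>
    have h := ih (by omega) (fun j h1 h2 => hg j h1 (by omega)) (fun j h1 h2 => hl j h1 (by omega))
    exact BInv.step P S hk1 hkn (hl k hk1 (by omega)) (hl (k + 1) (by omega) le_rfl) (hX _) h

/-- the growth of the amplitude -/
theorem BInv.grow (P : BPar s lam R) (S : BSys n s lam R T e I b c g a β ρ π) {X : ℝ} {k : ℕ}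
    (hk1 : 1 ≤ k) (hkn : k + 1 < n) (hX : X ≤ lam) (h : BInv T s R e I c g ρ π X k) :
    s * X ≤ 2 * lam * |g (k + 1)| ∧ |g (k + 1)| ≤ 3 * (s * X) / lam := by
  have hs := P.hs
  have hl := P.hl
  have hb := S.hb k
  have hb1 := S.hb1 k
  have hb0 : 0 < b k := by linarith
  obtain ⟨Y, hYd⟩ : ∃ Y, Y = X / (lam * b k) := ⟨_, rfl⟩
  have hXY : X = lam * (b k * Y) := by rw [hYd]; field_simp
  obtain ⟨hY0, hY2, hc', iρ', hgu, hgl⟩ := h.next P S hk1 hkn hX hXY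
  have hsY : 0 ≤ s * Y := by positivity
  constructor
  · have h1 : b k * Y ≤ Y := by
      have := mul_le_mul_of_nonneg_right hb1 hY0
      linarith
    calc s * X = lam * (s * (b k * Y)) := by rw [hXY]; ring
      _ ≤ lam * (s * Y) := by
        apply mul_le_mul_of_nonneg_left _ hl.le
        exact mul_le_mul_of_nonneg_left h1 hs.le
      _ ≤ lam * (2 * |g (k + 1)|) := by
        apply mul_le_mul_of_nonneg_left _ hl.le
        linarith
      _ = _ := by ring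
  · have h1 : Y ≤ 2 * (b k * Y) := by
      have := mul_le_mul_of_nonneg_right hb hY0
      linarith
    have h2 : s * Y ≤ 2 * (s * X) / lam := by
      rw [le_div_iff₀ hl, hXY]
      have := mul_le_mul_of_nonneg_left h1 (mul_nonneg hs.le hl.le)
      nlinarith
    have h3 : 0 ≤ s * X / lam := by
      have : 0 ≤ s * X := mul_nonneg hs.le h.iX
      positivity
    calc |g (k + 1)| ≤ 1002 / 1000 * (s * Y) := hgu
      _ ≤ 1002 / 1000 * (2 * (s * X) / lam) := by linarith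
      _ = 2004 / 1000 * (s * X / lam) := by ring
      _ ≤ 3 * (s * X / lam) := by linarith
      _ = _ := by ring

end

/-- The choice of the perturbation: the amplitude reaches `lam` exactly before the last step. -/
theorem exists_delta {n : ℕ} {s lam R : ℝ} {T : V →ₗ[ℝ] V} {e I : ℕ → V} {b : ℕ → ℝ}
    {c g a β : ℝ → ℕ → ℝ} {ρ π : ℝ → ℕ → V} (hn : 2 ≤ n) (P : BPar s lam R)
    (S : ∀ δ, BSys n s lam R T e I b (c δ) (g δ) (a δ) (β δ) (ρ δ) (π δ)) (hI1 : I 1 = e 1)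
    (hc1 : ∀ δ, c δ 1 = -δ) (hg1 : ∀ δ, g δ 1 = -δ * (1 - δ - s ^ 2 * (1 + δ)))
    (hρ1 : ∀ δ, ρ δ 1 = (1 + δ) • e 1) (hπ1 : ∀ δ, π δ 1 = (1 + δ) • e 1)
    (hcont : ∀ k, 1 ≤ k → k < n → ∀ d, (∀ δ ∈ Icc (0 : ℝ) d, ∀ j, 1 ≤ j → j < k →
      ‖ρ δ j‖ ^ 2 + c δ j ^ 2 / s ^ 2 ≠ 0 ∧
        ⟪π δ j, T (π δ j)⟫_ℝ + g δ j ^ 2 / (lam * s ^ 2) ≠ 0) →
      ContinuousOn (fun δ => g δ k) (Icc 0 d)) :
    ∃ δ, 0 ≤ δ ∧ δ ≤ 1 / 100 ∧ δ ≤ s * (2 * lam) ^ (n - 1) ∧ |g δ (n - 1)| = s * lam ∧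
      ∀ k, 1 ≤ k → k < n → |g δ k| ≤ s * lam := by
  have hs := P.hs
  have hs1 := P.hs1
  have hs2 := P.hs2
  have hl := P.hl
  have hl1 := P.hl1
  have hsl : s * lam ≤ s / 20000 := by
    have := mul_le_mul_of_nonneg_left (show lam ≤ 1 / 20000 by linarith) hs.le
    linarith
  have hslp : 0 < s * lam := by positivity
  have all : ∀ δ ∈ Icc (0 : ℝ) (1 / 100), ∀ k, 1 ≤ k → k < n →
      (∀ j, 1 ≤ j → j ≤ k → |g δ j| ≤ s * lam) →
      BInv T s R e I (c δ) (g δ) (ρ δ) (π δ) (|g δ k| / s) k ∧ |g δ k| / s ≤ lam := by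
    intro δ hδ k hk1 hkn h
    exact BInv.all P (S δ) (by omega) hδ.1 hδ.2 hI1 (hc1 δ) (hg1 δ) (hρ1 δ) (hπ1 δ) hk1 hkn h
  have claim : ∀ k, 1 ≤ k → k < n → ∃ d ∈ Icc (0 : ℝ) (1 / 100), |g d k| = s * lam ∧
      g 0 k = 0 ∧ ∀ δ ∈ Icc (0 : ℝ) d, ∀ j, 1 ≤ j → j ≤ k → |g δ j| ≤ s * lam := by
    intro k hk1
    induction k, hk1 using Nat.le_induction with
    | base =>
      intro hkn
      have h0 : g 0 1 = 0 := by rw [hg1]; ring
      have hc : ContinuousOn (fun δ => |g δ 1|) (Icc 0 (1 / 100)) := by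
        simp only [hg1]
        fun_prop
      have h1 : s * lam ≤ |g (1 / 100) 1| := by
        have h2 := (BInv.base P (S (1 / 100)) (by omega) (by norm_num) le_rfl hI1 (hc1 _)
          (hg1 _) (hρ1 _) (hπ1 _) (X := |g (1 / 100) 1| / s) (by field_simp)).2.1
        have h3 : s * (|g (1 / 100) 1| / s) = |g (1 / 100) 1| := by field_simp
        rw [h3] at h2
        linarith
      obtain ⟨x, hx, hx1, hx2⟩ := first_hit (f := fun δ => |g δ 1|) (by norm_num) hc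
        (by rw [h0, abs_zero]; exact hslp.le) h1
      refine ⟨x, hx, hx1, h0, fun δ hδ j h1 h2 => ?_⟩
      have : j = 1 := by omega
      subst this
      exact hx2 δ hδ
    | succ k hk1 ih =>
      intro hkn
      obtain ⟨d, hd, hd1, h0, hd2⟩ := ih (by omega)
      have hsub : ∀ δ ∈ Icc (0 : ℝ) d, δ ∈ Icc (0 : ℝ) (1 / 100) :=
        fun δ hδ => ⟨hδ.1, hδ.2.trans hd.2⟩
      have hinv : ∀ δ ∈ Icc (0 : ℝ) d, ∀ j, 1 ≤ j → j ≤ k →
          BInv T s R e I (c δ) (g δ) (ρ δ) (π δ) (|g δ j| / s) j ∧ |g δ j| / s ≤ lam :=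
        fun δ hδ j h1 h2 => all δ (hsub δ hδ) j h1 (by omega)
          (fun i i1 i2 => hd2 δ hδ i i1 (by omega))
      have hc : ContinuousOn (fun δ => |g δ (k + 1)|) (Icc 0 d) := by
        apply ContinuousOn.abs
        apply hcont (k + 1) (by omega) hkn d
        intro δ hδ j h1 h2
        obtain ⟨q1, q2⟩ := hinv δ hδ j h1 (by omega)
        constructor
        · have := (abs_le.mp (q1.hk P (S δ) h1 (by omega) q2)).1
          have : 0 < ‖ρ δ j‖ ^ 2 + c δ j ^ 2 / s ^ 2 := by linarith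
          exact this.ne'
        · have := (q1.ak P (S δ) h1 (by omega) q2).2
          have : 0 < ⟪π δ j, T (π δ j)⟫_ℝ + g δ j ^ 2 / (lam * s ^ 2) := by linarith
          exact this.ne'
      have h0' : g 0 (k + 1) = 0 := by
        obtain ⟨q1, q2⟩ := hinv 0 ⟨le_rfl, hd.1⟩ k hk1 le_rfl
        have := (q1.grow P (S 0) hk1 hkn q2).2
        rw [h0, abs_zero, zero_div, mul_zero, mul_zero, zero_div] at this
        exact abs_nonpos_iff.mp this
      have h1 : s * lam ≤ |g d (k + 1)| := by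
        obtain ⟨q1, q2⟩ := hinv d ⟨hd.1, le_rfl⟩ k hk1 le_rfl
        have h2 := (q1.grow P (S d) hk1 hkn q2).1
        have h3 : s * (|g d k| / s) = |g d k| := by field_simp
        rw [h3, hd1] at h2
        have h4 : 2 * lam * |g d (k + 1)| ≤ 1 * |g d (k + 1)| :=
          mul_le_mul_of_nonneg_right (by linarith) (abs_nonneg _)
        linarith
      obtain ⟨x, hx, hx1, hx2⟩ := first_hit (f := fun δ => |g δ (k + 1)|) hd.1 hc
        (by rw [h0', abs_zero]; exact hslp.le) h1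
      refine ⟨x, hsub x hx, hx1, h0', fun δ hδ j h1 h2 => ?_⟩
      rcases Nat.lt_or_ge j (k + 1) with h | h
      · exact hd2 δ ⟨hδ.1, hδ.2.trans hx.2⟩ j h1 (by omega)
      · have : j = k + 1 := by omega
        subst this
        exact hx2 δ hδ
  obtain ⟨d, hd, hd1, -, hd2⟩ := claim (n - 1) (by omega) (by omega)
  have hd3 : ∀ k, 1 ≤ k → k < n → |g d k| ≤ s * lam := fun k h1 h2 =>
    hd2 d ⟨hd.1, le_rfl⟩ k h1 (by omega)
  refine ⟨d, hd.1, hd.2, ?_, hd1, hd3⟩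
  have hchain : ∀ k, 1 ≤ k → k < n → d ≤ 2 * ((2 * lam) ^ (k - 1) * |g d k|) := by
    intro k hk1
    induction k, hk1 using Nat.le_induction with
    | base =>
      intro hkn
      have h2 := (BInv.base P (S d) (by omega) hd.1 hd.2 hI1 (hc1 _)
          (hg1 _) (hρ1 _) (hπ1 _) (X := |g d 1| / s) (by field_simp)).2.1
      have h3 : s * (|g d 1| / s) = |g d 1| := by field_simp
      rw [h3] at h2
      simpa using h2
    | succ k hk1 ih =>
      intro hkn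
      have h1 := ih (by omega)
      obtain ⟨q1, q2⟩ := all d hd k hk1 (by omega) (fun j h1 h2 => hd3 j h1 (by omega))
      have h2 := (q1.grow P (S d) hk1 hkn q2).1
      have h3 : s * (|g d k| / s) = |g d k| := by field_simp
      rw [h3] at h2
      have e1 : k + 1 - 1 = (k - 1) + 1 := by omega
      rw [e1, pow_succ]
      have h4 : 0 ≤ (2 * lam) ^ (k - 1) := by positivity
      have h5 := mul_le_mul_of_nonneg_left h2 h4
      linarith
  have h := hchain (n - 1) (by omega) (by omega)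
  rw [hd1] at h
  obtain ⟨j, hj⟩ : ∃ j, n = j + 2 := ⟨n - 2, by omega⟩
  subst hj
  have e1 : j + 2 - 1 - 1 = j := by omega
  have e2 : j + 2 - 1 = j + 1 := by omega
  rw [e1] at h
  rw [e2, pow_succ]
  linarith

section

variable {n : ℕ} {s lam R : ℝ} {T : V →ₗ[ℝ] V} {e I : ℕ → V} {b c g a β : ℕ → ℝ} {ρ π : ℕ → V}

/-- what the analysis gives -/
theorem BInv.out (P : BPar s lam R) (S : BSys n s lam R T e I b c g a β ρ π) {X : ℝ} {k : ℕ}
    (hk1 : 1 ≤ k) (hkn : k < n) (hX : X ≤ lam) (h : BInv T s R e I c g ρ π X k) :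
    |a k - 1| ≤ 1 / 1000 ∧ 99 / 100 ≤ ‖ρ k‖ ∧ ‖π k‖ ≤ 101 / 100 * R ∧
    99 / 100 ≤ ⟪π k, T (π k)⟫_ℝ + g k ^ 2 / (lam * s ^ 2) ∧
    99 / 100 ≤ ‖ρ k‖ ^ 2 + c k ^ 2 / s ^ 2 := by
  have hs := P.hs
  have hR := P.hR
  have hl1 := P.hl1
  have hX0 := h.iX
  obtain ⟨hak, hw⟩ := h.ak P S hk1 hkn hX
  have hhk := (abs_le.mp (h.hk P S hk1 hkn hX)).1
  have ee : ‖e k‖ = 1 := S.he1 k hk1 hkn
  refine ⟨by linarith, ?_, ?_, hw, by linarith⟩
  · have : ‖e k‖ ≤ ‖ρ k‖ + ‖ρ k - e k‖ := by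
      calc ‖e k‖ = ‖ρ k - (ρ k - e k)‖ := by congr 1; abel
        _ ≤ ‖ρ k‖ + ‖ρ k - e k‖ := norm_sub_le _ _
    linarith [h.iρ]
  · have h1 : ‖π k‖ ≤ ‖I k‖ + ‖π k - I k‖ := by
      calc ‖π k‖ = ‖I k + (π k - I k)‖ := by congr 1; abel
        _ ≤ _ := norm_add_le _ _
    have h2 := S.hI k hk1 hkn
    have h3 : R * X ≤ R * (1 / 20000) := mul_le_mul_of_nonneg_left (by linarith) (by linarith)
    linarith [h.iπ]

/-- the last step -/
theorem BInv.final (P : BPar s lam R) (S : BSys n s lam R T e I b c g a β ρ π) (hn : 2 ≤ n)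
    (h : BInv T s R e I c g ρ π lam (n - 1)) : 999 / 1000 * s ≤ |b (n - 1) * c n| := by
  have hs := P.hs
  have hl := P.hl
  have h1 := h.cnext P S (by omega) (by omega) le_rfl
  have e1 : n - 1 + 1 = n := by omega
  rw [e1] at h1
  have e2 : s * lam / lam = s := by field_simp
  rw [e2] at h1
  have h2 : |g (n - 1) / lam| = s := by
    rw [abs_div, abs_of_pos hl, h.ig]; exact e2
  have h3 : |g (n - 1) / lam| ≤ |b (n - 1) * c n| + |b (n - 1) * c n + g (n - 1) / lam| := by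
    calc |g (n - 1) / lam| = |(b (n - 1) * c n + g (n - 1) / lam) - b (n - 1) * c n| := by
          congr 1; ring
      _ ≤ |b (n - 1) * c n + g (n - 1) / lam| + |b (n - 1) * c n| := abs_sub _ _
      _ = _ := add_comm _ _
  linarith

end

end Pool.Agent.Lib.MP_02bbae_an
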