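import Pool.Agent.Lib.MP_02bbae_an.BlockRun

/-!
# The block lower bound, with the parameters of the region
-/

set_option autoImplicit false

open scoped ENNReal

namespace Pool.Agent.Lib.MP_02bbae_an

namespace BlockLower

theorem pow_ell {ell : ℝ} (hell : 4 ≤ ell) :
    9 / 2 * (ell * (1 + ell)) ≤ ((2 : ℝ) ^ (ell / 4 : ℝ)) ^ 10 := by
  have h1 : (2 : ℝ) ^ (ell / 4 : ℝ) = Real.exp (Real.log 2 * (ell / 4)) := by
    rw [Real.rpow_def_of_pos (by norm_num)]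
  have h2 : ((2 : ℝ) ^ (ell / 4 : ℝ)) ^ 10
      = Real.exp (Real.log 2 * (5 * ell / 4)) ^ 2 := by
    rw [h1, ← Real.exp_nat_mul, ← Real.exp_nat_mul]
    congr 1
    push_cast
    ring
  have h3 : (0.86 : ℝ) * ell ≤ Real.log 2 * (5 * ell / 4) := by
    have := Real.log_two_gt_d9
    nlinarith
  have h4 : 1 + 0.86 * ell + (0.86 * ell) ^ 2 / 2 ≤ Real.exp (0.86 * ell) :=
    Real.quadratic_le_exp_of_nonneg (by linarith)
  have h5 : 1 + 0.86 * ell + (0.86 * ell) ^ 2 / 2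
      ≤ Real.exp (Real.log 2 * (5 * ell / 4)) := h4.trans (Real.exp_le_exp.mpr h3)
  have h6 : 1 + 2.3 * ell ≤ 1 + 0.86 * ell + (0.86 * ell) ^ 2 / 2 := by nlinarith
  have h7 : (1 + 2.3 * ell) ^ 2 ≤ Real.exp (Real.log 2 * (5 * ell / 4)) ^ 2 :=
    pow_le_pow_left₀ (by linarith) (h6.trans h5) 2
  rw [h2]
  nlinarith

theorem div_pow_le {m q : ℕ} {ell : ℝ} (hq1 : 1 ≤ q)
    (hq : 4 * ((m : ℝ) + 2) ≤ q * ell) : (2 : ℝ) ^ (m / q) ≤ (2 : ℝ) ^ (ell / 4 : ℝ) := by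
  rw [← Real.rpow_natCast]
  apply Real.rpow_le_rpow_of_exponent_le (by norm_num)
  have hq0 : (0 : ℝ) < q := by exact_mod_cast hq1
  have h1 : ((m / q : ℕ) : ℝ) ≤ (m : ℝ) / q := Nat.cast_div_le
  refine h1.trans ?_
  rw [div_le_iff₀ hq0]
  nlinarith

end BlockLower

open BlockLower in
theorem block_lower {m q l t : ℕ} {ε N ell : ℝ} {κ : ℝ≥0∞} (hε : 0 < ε) (hN : 512 ≤ N)
    (hk : ENNReal.ofReal (N ^ 2) ≤ κ) (hell : 4 ≤ ell)
    (hE : 1 / ε = N ^ (3 / 2 : ℝ) * 2 ^ (3 / 2 * ell : ℝ))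
    (hn : N ≤ ((m : ℝ) + 2) * (1 + ell)) (hq : 4 * ((m : ℝ) + 2) ≤ q * ell)
    (hl : 20000 ≤ (2 : ℝ) ^ l) (hl2 : 32 * (q : ℝ) ^ 2 * 2 ^ l ≤ N ^ 2) (ht : 3 ≤ t)
    (ht2 : t ≤ (l - 1) * (m + 1)) : Fails (m + 2) κ ε t := by
  have hN0 : 0 < N := by linarith
  have hell0 : 0 < ell := by linarith
  have hm : (0 : ℝ) ≤ m := Nat.cast_nonneg _
  have hq1 : 1 ≤ q := by
    rcases Nat.eq_zero_or_pos q with h | h
    · exfalso
      rw [h] at hq
      push_cast at hq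
      linarith
    · exact h
  have hq0 : (0 : ℝ) < q := by exact_mod_cast hq1
  have hv := div_pow_le hq1 hq
  set G : ℝ := (2 : ℝ) ^ (ell / 4 : ℝ) with hG
  set v : ℝ := (2 : ℝ) ^ (m / q) with hvdef
  have hv0 : 0 < v := by positivity
  have hG1 : 1 ≤ G := Real.one_le_rpow (by norm_num) (by linarith)
  have hG0 : 0 < G := by linarith
  have hG10 : 9 / 2 * (ell * (1 + ell)) ≤ G ^ 10 := pow_ell hell
  set r : ℝ := Real.sqrt N with hr
  have hr2 : r ^ 2 = N := Real.sq_sqrt hN0.le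
  have hr22 : 22 ≤ r := by
    apply Real.le_sqrt_of_sq_le
    norm_num
    linarith
  have hr0 : 0 < r := by linarith
  have hP : N ^ (3 / 2 : ℝ) = N * r := by
    rw [hr, Real.sqrt_eq_rpow, show (3 / 2 : ℝ) = 1 + 1 / 2 by norm_num, Real.rpow_add hN0,
      Real.rpow_one]
  have hE6 : (2 : ℝ) ^ (3 / 2 * ell : ℝ) = G ^ 6 := by
    rw [hG, ← Real.rpow_natCast, ← Real.rpow_mul (by norm_num)]
    congr 1
    push_cast
    ring
  rw [hP, hE6] at hE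
  have hεN : ε * (N * r * G ^ 6) = 1 := by
    rw [← hE]
    field_simp
  -- powers of `G` are at least one
  have hG2 : 1 ≤ G ^ 2 := one_le_pow₀ hG1
  have hG4 : 1 ≤ G ^ 4 := one_le_pow₀ hG1
  have hG5 : 1 ≤ G ^ 5 := one_le_pow₀ hG1
  have hNr : 11264 ≤ N * r := by nlinarith
  -- the bounds for `ε G` and `ε G ^ 2`
  have hεG : ε * G * (N * r * G ^ 5) = 1 := by
    rw [← hεN]; ring
  have hεG2 : ε * G ^ 2 * (N * r * G ^ 4) = 1 := by
    rw [← hεN]; ring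
  have hεG0 : 0 < ε * G := by positivity
  have hεG20 : 0 < ε * G ^ 2 := by positivity
  have h11 : ε * G * 11264 ≤ 1 := by
    rw [← hεG]
    apply mul_le_mul_of_nonneg_left _ hεG0.le
    nlinarith
  have h12 : ε * G ^ 2 * 11264 ≤ 1 := by
    rw [← hεG2]
    apply mul_le_mul_of_nonneg_left _ hεG20.le
    nlinarith
  -- the choice of `i`
  have hy0 : 0 < 8 * ε * v := by positivity
  have hyG : 8 * ε * v ≤ 8 * (ε * G) := by nlinarith
  obtain ⟨i, hi1, hi2, -⟩ := exists_half_pow hy0 (by linarith)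
  have hvi : (1 / 2 : ℝ) ^ (m / q) * v = 1 := by
    rw [hvdef, ← mul_pow]; norm_num
  have hvi0 : (0 : ℝ) < (1 / 2) ^ (m / q) := by positivity
  have hli : (1 / 2 : ℝ) ^ l * 2 ^ l = 1 := by
    rw [← mul_pow]; norm_num
  have hl0 : (0 : ℝ) < 2 ^ l := by positivity
  have hl0' : (0 : ℝ) < (1 / 2) ^ l := by positivity
  have hi16 : (1 / 2 : ℝ) ^ i ≤ 16 * (ε * G) := by linarith
  refine fails_block (i := i) hε hq1 ht ?_ ?_ ?_ ?_ ?_ (ht2.trans (Nat.le_add_left _ _))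
  · -- h2
    calc 20000 * (1 / 2 : ℝ) ^ l ≤ 2 ^ l * (1 / 2) ^ l :=
          mul_le_mul_of_nonneg_right hl hl0'.le
      _ = 1 := by rw [mul_comm]; exact hli
  · -- h3
    have hq18 : 18 * N ≤ q * G ^ 10 := by
      have h1 : 4 * N ≤ q * (ell * (1 + ell)) := by
        calc 4 * N ≤ 4 * (((m : ℝ) + 2) * (1 + ell)) := by linarith
          _ = (4 * ((m : ℝ) + 2)) * (1 + ell) := by ring
          _ ≤ (q * ell) * (1 + ell) := mul_le_mul_of_nonneg_right hq (by linarith)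
          _ = q * (ell * (1 + ell)) := by ring
      have h2 : (q : ℝ) * (9 / 2 * (ell * (1 + ell))) ≤ q * G ^ 10 :=
        mul_le_mul_of_nonneg_left hG10 hq0.le
      nlinarith
    set R : ℝ := Real.sqrt (2 * q) with hR
    have hR0 : 0 ≤ R := Real.sqrt_nonneg _
    have hR2 : R ^ 2 = 2 * q := Real.sq_sqrt (by positivity)
    -- `3 R r ≤ q G ^ 5`
    have hkey : 3 * R * r ≤ q * G ^ 5 := by
      apply abs_le_of_sq_le_sq' _ (by positivity) |>.2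
      calc (3 * R * r) ^ 2 = 9 * R ^ 2 * r ^ 2 := by ring
        _ = q * (18 * N) := by rw [hR2, hr2]; ring
        _ ≤ q * (q * G ^ 10) := mul_le_mul_of_nonneg_left hq18 hq0.le
        _ = (q * G ^ 5) ^ 2 := by ring
    -- everything multiplied by `N r G ^ 5`
    have h1 : 3 * (2 * (q : ℝ)) * R * (16 * (ε * G)) ≤ (1 / 2) ^ l := by
      have h2 : 32 * (q : ℝ) ^ 2 ≤ (1 / 2) ^ l * N ^ 2 := by
        calc 32 * (q : ℝ) ^ 2 = ((1 / 2) ^ l * 2 ^ l) * (32 * (q : ℝ) ^ 2) := by rw [hli, one_mul]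
          _ = (1 / 2) ^ l * (32 * (q : ℝ) ^ 2 * 2 ^ l) := by ring
          _ ≤ (1 / 2) ^ l * N ^ 2 := mul_le_mul_of_nonneg_left hl2 hl0'.le
      have h3 : (3 * (2 * (q : ℝ)) * R * (16 * (ε * G))) * N ^ 2 ≤ (1 / 2) ^ l * N ^ 2 := by
        refine le_trans ?_ h2
        have h4 : (3 * (2 * (q : ℝ)) * R * (16 * (ε * G))) * N ^ 2
            = 32 * q * (ε * G) * (N * r) * (3 * R * r) := by
          have : N ^ 2 = N * r ^ 2 := by rw [hr2]; ring
          rw [this]; ring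
        rw [h4]
        calc 32 * q * (ε * G) * (N * r) * (3 * R * r)
            ≤ 32 * q * (ε * G) * (N * r) * (q * G ^ 5) :=
              mul_le_mul_of_nonneg_left hkey (by positivity)
          _ = 32 * (q : ℝ) ^ 2 * (ε * G * (N * r * G ^ 5)) := by ring
          _ = 32 * (q : ℝ) ^ 2 := by rw [hεG, mul_one]
      exact le_of_mul_le_mul_right h3 (by positivity)
    refine le_trans ?_ h1
    exact mul_le_mul_of_nonneg_left hi16 (by positivity)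
  · -- h4
    calc 8 * ε = (8 * ε * v) * (1 / 2) ^ (m / q) := by
          rw [mul_assoc (8 * ε), mul_comm v, hvi, mul_one]
      _ ≤ (1 / 2) ^ i * (1 / 2) ^ (m / q) := mul_le_mul_of_nonneg_right hi1 hvi0.le
  · -- h4'
    have h1 : 300 * (1 / 2 : ℝ) ^ i * v ≤ 1 := by
      have h2 : (1 / 2 : ℝ) ^ i * v ≤ 16 * (ε * G ^ 2) := by
        calc (1 / 2 : ℝ) ^ i * v ≤ 16 * (ε * G) * G :=
              mul_le_mul hi16 hv hv0.le (by positivity)
          _ = 16 * (ε * G ^ 2) := by ring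
      nlinarith
    calc 300 * (1 / 2 : ℝ) ^ i = (300 * (1 / 2 : ℝ) ^ i * v) * (1 / 2) ^ (m / q) := by
          rw [mul_assoc (300 * (1 / 2 : ℝ) ^ i), mul_comm v, hvi, mul_one]
      _ ≤ 1 * (1 / 2) ^ (m / q) := mul_le_mul_of_nonneg_right h1 hvi0.le
      _ = _ := one_mul _
  · -- h5
    have h1 : (2 : ℝ) ≤ N ^ 2 * ((1 / 2) ^ l / (16 * (q : ℝ) ^ 2)) := by
      rw [mul_div_assoc', le_div_iff₀ (by positivity)]
      calc 2 * (16 * (q : ℝ) ^ 2) = ((1 / 2) ^ l * 2 ^ l) * (32 * (q : ℝ) ^ 2) := by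
            rw [hli]; ring
        _ = (32 * (q : ℝ) ^ 2 * 2 ^ l) * (1 / 2) ^ l := by ring
        _ ≤ N ^ 2 * (1 / 2) ^ l := mul_le_mul_of_nonneg_right hl2 hl0'.le
    calc ENNReal.ofReal 2 ≤ ENNReal.ofReal (N ^ 2 * ((1 / 2) ^ l / (16 * (q : ℝ) ^ 2))) :=
          ENNReal.ofReal_le_ofReal h1
      _ = ENNReal.ofReal (N ^ 2) * ENNReal.ofReal ((1 / 2) ^ l / (16 * (q : ℝ) ^ 2)) :=
          ENNReal.ofReal_mul (by positivity)
      _ ≤ κ * ENNReal.ofReal ((1 / 2) ^ l / (16 * (q : ℝ) ^ 2)) := by gcongr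

end Pool.Agent.Lib.MP_02bbae_an
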