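import Pool.Agent.Lib.MP_02bbae_an.LowerMat

/-!
# The block version of the tridiagonal matrix of the lower bound

The coefficients between neighbouring basis vectors are `1`, except `1/2` at every multiple of `q`.
-/

set_option autoImplicit false

open scoped InnerProductSpace RealInnerProductSpace

namespace Pool.Agent.Lib.MP_02bbae_an

variable {m : ℕ}

/-! ### the coefficients and their products -/

/-- the coefficient between `e_i` and `e_(i+1)` -/
noncomputable def bq (q i : ℕ) : ℝ := if q ∣ i then 1 / 2 else 1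

theorem bq_pos (q i : ℕ) : 0 < bq q i := by
  unfold bq; split_ifs <;> norm_num

theorem bq_nonneg (q i : ℕ) : 0 ≤ bq q i := (bq_pos q i).le

theorem bq_ne (q i : ℕ) : bq q i ≠ 0 := (bq_pos q i).ne'

theorem bq_le_one (q i : ℕ) : bq q i ≤ 1 := by
  unfold bq; split_ifs <;> norm_num

theorem half_le_bq (q i : ℕ) : 1 / 2 ≤ bq q i := by
  unfold bq; split_ifs <;> norm_num

/-- the products of the coefficients, indexed from one -/
noncomputable def nub (q k : ℕ) : ℝ := (1 / 2) ^ ((k - 1) / q)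

theorem nub_pos (q k : ℕ) : 0 < nub q k := by unfold nub; positivity

theorem nub_ne (q k : ℕ) : nub q k ≠ 0 := (nub_pos q k).ne'

theorem nub_one (q : ℕ) : nub q 1 = 1 := by
  unfold nub; simp

theorem nub_le_one (q k : ℕ) : nub q k ≤ 1 := by
  unfold nub
  exact pow_le_one₀ (by norm_num) (by norm_num)

theorem nub_succ {q k : ℕ} (hk : 1 ≤ k) : nub q (k + 1) = bq q k * nub q k := by
  obtain ⟨j, rfl⟩ := Nat.exists_eq_add_of_le' hk
  unfold nub bq
  rw [Nat.add_sub_cancel, Nat.add_sub_cancel, Nat.succ_div]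
  split_ifs with h
  · rw [pow_succ]; ring
  · rw [Nat.add_zero, one_mul]

theorem nub_succ' (q j : ℕ) : nub q (j + 2) = bq q (j + 1) * nub q (j + 1) :=
  nub_succ (Nat.succ_le_succ (Nat.zero_le j))

/-- the products do not increase -/
theorem nub_anti (q : ℕ) {i j : ℕ} (h : i ≤ j) : nub q j ≤ nub q i := by
  unfold nub
  exact pow_le_pow_of_le_one (by norm_num) (by norm_num) (Nat.div_le_div_right (by omega))

theorem nub_div_le_one (q : ℕ) {i j : ℕ} (h : i ≤ j) : nub q j / nub q i ≤ 1 := by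
  rw [div_le_one (nub_pos q i)]
  exact nub_anti q h

/-! ### the two geometric sums -/

theorem sum_half_telescope {q : ℕ} (hq : 1 ≤ q) (j : ℕ) :
    ((1 / 2 : ℝ) ^ (j / q) * (2 * q - j + q * ((j / q : ℕ) : ℝ)))
      - ((1 / 2 : ℝ) ^ ((j + 1) / q) * (2 * q - ((j + 1 : ℕ) : ℝ) + q * (((j + 1) / q : ℕ) : ℝ)))
      = (1 / 2 : ℝ) ^ (j / q) := by
  rw [Nat.succ_div]
  split_ifs with h
  · obtain ⟨c, hc⟩ := h
    have hc1 : 1 ≤ c := by
      rcases Nat.eq_zero_or_pos c with h0 | h0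
      · rw [h0] at hc; omega
      · exact h0
    have hj : j / q = c - 1 := by
      have : j = (q - 1) + q * (c - 1) := by
        obtain ⟨d, rfl⟩ := Nat.exists_eq_add_of_le' hc1
        obtain ⟨p, rfl⟩ := Nat.exists_eq_add_of_le' hq
        have : (p + 1) * (d + 1) = (p + 1) * d + p + 1 := by ring
        simp only [Nat.add_sub_cancel]
        omega
      rw [this, Nat.add_mul_div_left _ _ (by omega), Nat.div_eq_of_lt (by omega), Nat.zero_add]
    have hjr : (j : ℝ) = q * c - 1 := by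
      have : ((j + 1 : ℕ) : ℝ) = ((q * c : ℕ) : ℝ) := by rw [hc]
      push_cast at this
      linarith
    rw [hj]
    have hcr : ((c - 1 : ℕ) : ℝ) = c - 1 := by
      rw [Nat.cast_sub hc1, Nat.cast_one]
    have hcr2 : ((c - 1 + 1 : ℕ) : ℝ) = c := by
      rw [Nat.sub_add_cancel hc1]
    rw [hcr2, hcr, Nat.cast_add, Nat.cast_one, hjr, pow_succ]
    ring
  · rw [Nat.add_zero]
    push_cast
    ring

theorem sum_half_le {q : ℕ} (hq : 1 ≤ q) (a : ℕ) {b : ℕ} (hab : a ≤ b) :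
    ∑ j ∈ Finset.Ico a b, (1 / 2 : ℝ) ^ (j / q) ≤ 2 * q * (1 / 2) ^ (a / q) := by
  have hF : ∀ j, 0 ≤ (1 / 2 : ℝ) ^ (j / q) * (2 * q - j + q * ((j / q : ℕ) : ℝ)) ∧
      (1 / 2 : ℝ) ^ (j / q) * (2 * q - j + q * ((j / q : ℕ) : ℝ)) ≤ 2 * q * (1 / 2) ^ (j / q) := by
    intro j
    have h1 : (j : ℝ) = q * ((j / q : ℕ) : ℝ) + ((j % q : ℕ) : ℝ) := by
      have := Nat.div_add_mod j q
      exact_mod_cast this.symm
    have h2 : ((j % q : ℕ) : ℝ) ≤ q := by exact_mod_cast (Nat.mod_lt j (by omega)).le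
    have h3 : (0 : ℝ) ≤ ((j % q : ℕ) : ℝ) := Nat.cast_nonneg _
    have h4 : (0 : ℝ) ≤ q := Nat.cast_nonneg _
    have h5 : 2 * (q : ℝ) - j + q * ((j / q : ℕ) : ℝ) = 2 * q - ((j % q : ℕ) : ℝ) := by
      linarith
    rw [h5]
    have h6 : (0 : ℝ) < (1 / 2) ^ (j / q) := by positivity
    constructor
    · apply mul_nonneg h6.le; linarith
    · rw [mul_comm]
      exact mul_le_mul_of_nonneg_right (by linarith) h6.le
  have h7 : ∑ j ∈ Finset.Ico a b, (1 / 2 : ℝ) ^ (j / q)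
      = ((1 / 2 : ℝ) ^ (a / q) * (2 * q - a + q * ((a / q : ℕ) : ℝ)))
        - ((1 / 2 : ℝ) ^ (b / q) * (2 * q - b + q * ((b / q : ℕ) : ℝ))) := by
    induction b, hab using Nat.le_induction with
    | base => simp
    | succ b hb ih =>
      rw [Finset.sum_Ico_succ_top hb, ih]
      have := sum_half_telescope hq b
      linarith
  rw [h7]
  have h8 := (hF a).2
  have h9 := (hF b).1
  linarith

theorem sum_two_telescope {q : ℕ} (hq : 1 ≤ q) (j : ℕ) :
    ((2 : ℝ) ^ ((j + 1) / q) * (q + ((j + 1 : ℕ) : ℝ) - q * (((j + 1) / q : ℕ) : ℝ)))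
      - ((2 : ℝ) ^ (j / q) * (q + j - q * ((j / q : ℕ) : ℝ)))
      = (2 : ℝ) ^ (j / q) := by
  rw [Nat.succ_div]
  split_ifs with h
  · obtain ⟨c, hc⟩ := h
    have hc1 : 1 ≤ c := by
      rcases Nat.eq_zero_or_pos c with h0 | h0
      · rw [h0] at hc; omega
      · exact h0
    have hj : j / q = c - 1 := by
      have : j = (q - 1) + q * (c - 1) := by
        obtain ⟨d, rfl⟩ := Nat.exists_eq_add_of_le' hc1
        obtain ⟨p, rfl⟩ := Nat.exists_eq_add_of_le' hq
        have : (p + 1) * (d + 1) = (p + 1) * d + p + 1 := by ring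
        simp only [Nat.add_sub_cancel]
        omega
      rw [this, Nat.add_mul_div_left _ _ (by omega), Nat.div_eq_of_lt (by omega), Nat.zero_add]
    have hjr : (j : ℝ) = q * c - 1 := by
      have : ((j + 1 : ℕ) : ℝ) = ((q * c : ℕ) : ℝ) := by rw [hc]
      push_cast at this
      linarith
    rw [hj]
    have hcr : ((c - 1 : ℕ) : ℝ) = c - 1 := by
      rw [Nat.cast_sub hc1, Nat.cast_one]
    have hcr2 : ((c - 1 + 1 : ℕ) : ℝ) = c := by
      rw [Nat.sub_add_cancel hc1]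
    rw [hcr2, hcr, Nat.cast_add, Nat.cast_one, hjr, pow_succ]
    ring
  · rw [Nat.add_zero]
    push_cast
    ring

theorem sum_two_le {q : ℕ} (hq : 1 ≤ q) (j : ℕ) :
    ∑ i ∈ Finset.range (j + 1), (2 : ℝ) ^ (i / q) ≤ 2 * q * 2 ^ (j / q) := by
  have h7 : ∀ N, ∑ i ∈ Finset.range N, (2 : ℝ) ^ (i / q)
      = ((2 : ℝ) ^ (N / q) * (q + N - q * ((N / q : ℕ) : ℝ))) - q := by
    intro N
    induction N with
    | zero => simp
    | succ N ih =>
      rw [Finset.sum_range_succ, ih]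
      have := sum_two_telescope hq N
      linarith
  rw [Finset.sum_range_succ, h7]
  have h1 : (j : ℝ) = q * ((j / q : ℕ) : ℝ) + ((j % q : ℕ) : ℝ) := by
    have := Nat.div_add_mod j q
    exact_mod_cast this.symm
  have h2 : ((j % q : ℕ) : ℝ) + 1 ≤ q := by
    exact_mod_cast Nat.succ_le_of_lt (Nat.mod_lt j (by omega))
  have h5 : (q : ℝ) + j - q * ((j / q : ℕ) : ℝ) = q + ((j % q : ℕ) : ℝ) := by linarith
  rw [h5]
  have h6 : (0 : ℝ) < 2 ^ (j / q) := by positivity
  have h8 : (0 : ℝ) ≤ q := Nat.cast_nonneg _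
  nlinarith

/-- the row sums of the kernel -/
theorem row_sum_le {q : ℕ} (hq : 1 ≤ q) {i N : ℕ} (h : i ≤ N) :
    ∑ j ∈ Finset.Ico i N, nub q (j + 1) / nub q (i + 1) ≤ 2 * q := by
  rw [← Finset.sum_div, div_le_iff₀ (nub_pos q _)]
  unfold nub
  simp only [Nat.add_sub_cancel]
  exact sum_half_le hq i h

/-- the column sums of the kernel -/
theorem col_sum_le {q : ℕ} (hq : 1 ≤ q) (j : ℕ) :
    ∑ i ∈ Finset.range (j + 1), nub q (j + 1) / nub q (i + 1) ≤ 2 * q := by
  have h1 : ∀ i, nub q (j + 1) / nub q (i + 1) = (1 / 2) ^ (j / q) * 2 ^ (i / q) := by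
    intro i
    unfold nub
    simp only [Nat.add_sub_cancel]
    rw [div_eq_mul_inv, ← inv_pow]
    norm_num
  simp only [h1]
  rw [← Finset.mul_sum]
  have h2 := mul_le_mul_of_nonneg_left (sum_two_le hq j)
    (by positivity : (0 : ℝ) ≤ (1 / 2) ^ (j / q))
  refine h2.trans (le_of_eq ?_)
  have h3 : (1 / 2 : ℝ) ^ (j / q) * 2 ^ (j / q) = 1 := by
    rw [← mul_pow]; norm_num
  calc (1 / 2 : ℝ) ^ (j / q) * (2 * q * 2 ^ (j / q))
      = 2 * q * ((1 / 2 : ℝ) ^ (j / q) * 2 ^ (j / q)) := by ring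
    _ = 2 * q := by rw [h3, mul_one]

/-! ### the matrix -/

/-- the differences with coefficients -/
noncomputable def difB (q : ℕ) (v : Fin (m + 1) → ℝ) (i : ℕ) : ℝ :=
  ext v i - bq q (i + 1) * ext v (i + 1)

/-- the entries -/
noncomputable def tentB (q i j : ℕ) : ℝ :=
  if i = j then (if i = 0 then 1 else 1 + bq q i ^ 2)
  else if i + 1 = j then -bq q j else if j + 1 = i then -bq q i else 0

/-- the matrix -/
noncomputable def TmatB (m q : ℕ) : Matrix (Fin (m + 1)) (Fin (m + 1)) ℝ := fun i j => tentB q i j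

theorem tentB_symm (q i j : ℕ) : tentB q i j = tentB q j i := by
  unfold tentB
  split_ifs <;> first | rfl | omega | (subst_vars; rfl)

theorem tentB_split (q i j : ℕ) (x : ℝ) : tentB q i j * x
    = (if i = j then (if i = 0 then 1 else 1 + bq q i ^ 2) * x else 0)
      + (if i + 1 = j then -(bq q (i + 1) * x) else 0)
      + (if i = 0 then 0 else if i - 1 = j then -(bq q i * x) else 0) := by
  unfold tentB
  split_ifs with h1 h2 h3 h4 h5 h6 h7 h8 h9 <;>
    first | (exfalso; omega) | (subst_vars; ring)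

theorem TmatB_mulVec (q : ℕ) (v : Fin (m + 1) → ℝ) (i : Fin (m + 1)) :
    (TmatB m q).mulVec v i
      = difB q v i - (if (i : ℕ) = 0 then 0 else bq q i * difB q v ((i : ℕ) - 1)) := by
  have h1 : (TmatB m q).mulVec v i = ∑ j ∈ Finset.range (m + 1), tentB q i j * ext v j := by
    rw [← sum_fin_ext (fun j => tentB q i j) v]
    rfl
  rw [h1]
  simp only [tentB_split]
  rw [Finset.sum_add_distrib, Finset.sum_add_distrib]
  have hi := i.isLt
  have h2 : ∑ j ∈ Finset.range (m + 1), (if (i : ℕ) = j then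
      (if (i : ℕ) = 0 then (1 : ℝ) else 1 + bq q i ^ 2) * ext v j else 0)
      = (if (i : ℕ) = 0 then (1 : ℝ) else 1 + bq q i ^ 2) * ext v i := by
    rw [Finset.sum_ite_eq, if_pos (Finset.mem_range.mpr hi)]
  have h3 : ∑ j ∈ Finset.range (m + 1),
      (if (i : ℕ) + 1 = j then -(bq q ((i : ℕ) + 1) * ext v j) else 0)
      = -(bq q ((i : ℕ) + 1) * ext v ((i : ℕ) + 1)) := by
    rw [Finset.sum_ite_eq]
    split_ifs with h
    · rfl
    · rw [Finset.mem_range, Nat.not_lt] at h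
      rw [ext_ge v h, mul_zero, neg_zero]
  have h4 : ∑ j ∈ Finset.range (m + 1), (if (i : ℕ) = 0 then (0 : ℝ) else
      if (i : ℕ) - 1 = j then -(bq q i * ext v j) else 0)
      = if (i : ℕ) = 0 then 0 else -(bq q i * ext v ((i : ℕ) - 1)) := by
    split_ifs with h
    · simp
    · rw [Finset.sum_ite_eq, if_pos (Finset.mem_range.mpr (by omega))]
  rw [h2, h3, h4]
  unfold difB
  split_ifs with h
  · ring
  · have : (i : ℕ) - 1 + 1 = i := by omega
    rw [this]; ring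

theorem abel_sumB (a d b : ℕ → ℝ) (N : ℕ) :
    ∑ i ∈ Finset.range (N + 1), a i * (d i - if i = 0 then 0 else b i * d (i - 1))
      = ∑ i ∈ Finset.range (N + 1), (a i - b (i + 1) * a (i + 1)) * d i
        + b (N + 1) * a (N + 1) * d N := by
  induction N with
  | zero => simp; ring
  | succ N ih =>
    rw [Finset.sum_range_succ, ih, Finset.sum_range_succ _ (N + 1)]
    simp
    ring

theorem TmatB_dot (q : ℕ) (w v : Fin (m + 1) → ℝ) :
    w ⬝ᵥ (TmatB m q).mulVec v = ∑ i ∈ Finset.range (m + 1), difB q w i * difB q v i := by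
  have h1 : w ⬝ᵥ (TmatB m q).mulVec v
      = ∑ i : Fin (m + 1),
        (difB q v i - (if (i : ℕ) = 0 then 0 else bq q i * difB q v ((i : ℕ) - 1))) * w i := by
    unfold dotProduct
    exact Finset.sum_congr rfl fun i _ => by rw [TmatB_mulVec]; ring
  rw [h1, sum_fin_ext (fun i => difB q v i
    - (if (i : ℕ) = 0 then 0 else bq q i * difB q v ((i : ℕ) - 1))) w]
  have h2 := abel_sumB (ext w) (difB q v) (bq q) m
  rw [ext_ge w le_rfl, mul_zero, zero_mul, add_zero] at h2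
  simp only [mul_comm _ (ext w _)]
  rw [h2]
  refine Finset.sum_congr rfl fun i _ => ?_
  unfold difB
  ring

theorem TmatB_symm (q : ℕ) (w v : Fin (m + 1) → ℝ) :
    w ⬝ᵥ (TmatB m q).mulVec v = v ⬝ᵥ (TmatB m q).mulVec w := by
  rw [TmatB_dot, TmatB_dot]
  exact Finset.sum_congr rfl fun i _ => mul_comm _ _

theorem difB_sq_le (q : ℕ) (v : Fin (m + 1) → ℝ) :
    ∑ i ∈ Finset.range (m + 1), difB q v i ^ 2 ≤ 4 * (v ⬝ᵥ v) := by
  have h1 : ∑ i ∈ Finset.range (m + 1), difB q v i ^ 2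
      ≤ ∑ i ∈ Finset.range (m + 1), (2 * ext v i ^ 2 + 2 * ext v (i + 1) ^ 2) := by
    apply Finset.sum_le_sum
    intro i _
    unfold difB
    have hb0 := bq_nonneg q (i + 1)
    have hb1 := bq_le_one q (i + 1)
    have hb2 : bq q (i + 1) ^ 2 ≤ 1 := pow_le_one₀ hb0 hb1
    have h3 : bq q (i + 1) ^ 2 * ext v (i + 1) ^ 2 ≤ 1 * ext v (i + 1) ^ 2 :=
      mul_le_mul_of_nonneg_right hb2 (sq_nonneg _)
    nlinarith [sq_nonneg (ext v i + bq q (i + 1) * ext v (i + 1))]
  have h2 : ∑ i ∈ Finset.range (m + 1), ext v (i + 1) ^ 2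
      ≤ ∑ i ∈ Finset.range (m + 1), ext v i ^ 2 := by
    have h3 := Finset.sum_range_succ' (fun i => ext v i ^ 2) (m + 1)
    have h4 := Finset.sum_range_succ (fun i => ext v i ^ 2) (m + 1)
    simp only [ext_ge v le_rfl] at h4
    have : 0 ≤ ext v 0 ^ 2 := sq_nonneg _
    linarith
  rw [Finset.sum_add_distrib, ← Finset.mul_sum, ← Finset.mul_sum, sum_ext_sq] at h1
  rw [sum_ext_sq] at h2
  linarith

theorem ext_eq_sumB (q : ℕ) (v : Fin (m + 1) → ℝ) {i : ℕ} (hi : i ≤ m + 1) :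
    ext v i = ∑ j ∈ Finset.Ico i (m + 1), nub q (j + 1) / nub q (i + 1) * difB q v j := by
  have h1 : ∀ j, nub q (j + 1) * difB q v j
      = nub q (j + 1) * ext v j - nub q (j + 2) * ext v (j + 1) := by
    intro j
    unfold difB
    rw [nub_succ']; ring
  have h2 : ∀ N, i ≤ N → ∑ j ∈ Finset.Ico i N, nub q (j + 1) * difB q v j
      = nub q (i + 1) * ext v i - nub q (N + 1) * ext v N := by
    intro N hN
    induction N, hN using Nat.le_induction with
    | base => simp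
    | succ N hN ih =>
      rw [Finset.sum_Ico_succ_top hN, ih, h1]
      ring
  have h3 : ∑ j ∈ Finset.Ico i (m + 1), nub q (j + 1) / nub q (i + 1) * difB q v j
      = (∑ j ∈ Finset.Ico i (m + 1), nub q (j + 1) * difB q v j) / nub q (i + 1) := by
    rw [Finset.sum_div]
    exact Finset.sum_congr rfl fun j _ => by ring
  rw [h3, h2 _ hi, ext_ge v le_rfl, mul_zero, sub_zero, mul_div_cancel_left₀ _ (nub_ne q _)]

theorem dot_le_difB {q : ℕ} (hq : 1 ≤ q) (v : Fin (m + 1) → ℝ) :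
    v ⬝ᵥ v ≤ 4 * (q : ℝ) ^ 2 * ∑ i ∈ Finset.range (m + 1), difB q v i ^ 2 := by
  rw [← sum_ext_sq]
  have h1 : ∀ i ∈ Finset.range (m + 1), ext v i ^ 2
      ≤ 2 * q * ∑ j ∈ Finset.Ico i (m + 1), nub q (j + 1) / nub q (i + 1) * difB q v j ^ 2 := by
    intro i hi
    rw [Finset.mem_range] at hi
    rw [ext_eq_sumB q v hi.le]
    have hcs := Finset.sum_sq_le_sum_mul_sum_of_sq_le_mul (Finset.Ico i (m + 1))
      (r := fun j => nub q (j + 1) / nub q (i + 1) * difB q v j)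
      (f := fun j => nub q (j + 1) / nub q (i + 1))
      (g := fun j => nub q (j + 1) / nub q (i + 1) * difB q v j ^ 2)
      (fun j _ => (div_pos (nub_pos q _) (nub_pos q _)).le)
      (fun j _ => mul_nonneg (div_pos (nub_pos q _) (nub_pos q _)).le (sq_nonneg _))
      (fun j _ => le_of_eq (by ring))
    refine hcs.trans ?_
    apply mul_le_mul_of_nonneg_right (row_sum_le hq hi.le)
    exact Finset.sum_nonneg fun j _ =>
      mul_nonneg (div_pos (nub_pos q _) (nub_pos q _)).le (sq_nonneg _)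
  refine (Finset.sum_le_sum h1).trans ?_
  rw [← Finset.mul_sum]
  have h2 : ∑ i ∈ Finset.range (m + 1), ∑ j ∈ Finset.Ico i (m + 1),
      nub q (j + 1) / nub q (i + 1) * difB q v j ^ 2
      = ∑ j ∈ Finset.range (m + 1), ∑ i ∈ Finset.range (j + 1),
        nub q (j + 1) / nub q (i + 1) * difB q v j ^ 2 := by
    apply Finset.sum_comm'
    intro i j
    simp only [Finset.mem_range, Finset.mem_Ico]
    omega
  rw [h2]
  have h3 : ∑ j ∈ Finset.range (m + 1), ∑ i ∈ Finset.range (j + 1),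
      nub q (j + 1) / nub q (i + 1) * difB q v j ^ 2
      ≤ ∑ j ∈ Finset.range (m + 1), 2 * q * difB q v j ^ 2 := by
    apply Finset.sum_le_sum
    intro j _
    rw [← Finset.sum_mul]
    exact mul_le_mul_of_nonneg_right (col_sum_le hq j) (sq_nonneg _)
  have h4 : (0 : ℝ) ≤ 2 * q := by positivity
  refine (mul_le_mul_of_nonneg_left h3 h4).trans (le_of_eq ?_)
  rw [← Finset.mul_sum]
  ring

/-! ### the operator on Euclidean space -/

/-- the operator -/
noncomputable def TopB (m q : ℕ) : EV m →ₗ[ℝ] EV m := Matrix.toEuclideanLin (TmatB m q)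

theorem TopB_apply (q : ℕ) (v : EV m) :
    TopB m q v = WithLp.toLp 2 ((TmatB m q).mulVec v.ofLp) := rfl

theorem TopB_inner (q : ℕ) (w v : EV m) :
    ⟪w, TopB m q v⟫_ℝ = ∑ i ∈ Finset.range (m + 1), difB q w.ofLp i * difB q v.ofLp i := by
  rw [inner_EV, TopB_apply]
  exact TmatB_dot _ _ _

theorem TopB_sym (q : ℕ) (u v : EV m) : ⟪TopB m q u, v⟫_ℝ = ⟪u, TopB m q v⟫_ℝ := by
  rw [real_inner_comm, TopB_inner, TopB_inner]
  exact Finset.sum_congr rfl fun i _ => mul_comm _ _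

theorem TopB_bd (q : ℕ) (v : EV m) : ‖TopB m q v‖ ≤ 4 * ‖v‖ := by
  have h1 : ‖TopB m q v‖ ^ 2 ≤ (2 * ‖TopB m q v‖) * (2 * ‖v‖) := by
    rw [← real_inner_self_eq_norm_sq, TopB_inner]
    refine (Real.sum_mul_le_sqrt_mul_sqrt _ _ _).trans ?_
    apply mul_le_mul
    · apply Real.sqrt_le_iff.mpr
      refine ⟨by positivity, ?_⟩
      refine (difB_sq_le _ _).trans (le_of_eq ?_)
      rw [← norm_sq_EV]; ring
    · apply Real.sqrt_le_iff.mpr
      refine ⟨by positivity, ?_⟩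
      refine (difB_sq_le _ _).trans (le_of_eq ?_)
      rw [← norm_sq_EV]; ring
    · positivity
    · positivity
  by_cases h : ‖TopB m q v‖ = 0
  · rw [h]; positivity
  · have h2 : 0 < ‖TopB m q v‖ := lt_of_le_of_ne (norm_nonneg _) (Ne.symm h)
    have h3 : ‖TopB m q v‖ * ‖TopB m q v‖ ≤ ‖TopB m q v‖ * (4 * ‖v‖) := by nlinarith
    exact le_of_mul_le_mul_left h3 h2

theorem TopB_lower {q : ℕ} (hq : 1 ≤ q) (v : EV m) :
    ‖v‖ ^ 2 ≤ 4 * (q : ℝ) ^ 2 * ⟪v, TopB m q v⟫_ℝ := by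
  rw [norm_sq_EV, TopB_inner]
  refine (dot_le_difB hq _).trans (le_of_eq ?_)
  simp only [sq]

/-! ### the vectors of the conjugate directions -/

/-- the vector with coefficients `ν_k / ν_i` for `i ≤ k`, indexed from one -/
noncomputable def JV (m q k : ℕ) : EV m :=
  WithLp.toLp 2 (fun i => if (i : ℕ) + 1 ≤ k then nub q k / nub q ((i : ℕ) + 1) else 0)

theorem JV_zero (q : ℕ) : JV m q 0 = 0 := by
  unfold JV
  have : (fun i : Fin (m + 1) => if (i : ℕ) + 1 ≤ 0 then nub q 0 / nub q ((i : ℕ) + 1) else 0)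
      = 0 := by
    funext i
    rw [if_neg (by omega)]; rfl
  rw [this]; rfl

theorem JV_one (q : ℕ) : JV m q 1 = eV m 1 := by
  unfold JV eV
  congr 1
  funext i
  by_cases h : (i : ℕ) + 1 = 1
  · rw [if_pos h.le, if_pos h, h, div_self (nub_ne q 1)]
  · rw [if_neg (by omega), if_neg h]

theorem JV_succ (q : ℕ) {k : ℕ} (hk : 1 ≤ k) :
    JV m q (k + 1) = eV m (k + 1) + bq q k • JV m q k := by
  unfold JV eV
  rw [← WithLp.toLp_smul, ← WithLp.toLp_add]
  congr 1
  funext i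
  simp only [Pi.add_apply, Pi.smul_apply, smul_eq_mul]
  by_cases h1 : (i : ℕ) + 1 = k + 1
  · rw [if_pos h1.le, if_pos h1, if_neg (by omega), h1, div_self (nub_ne q _), mul_zero, add_zero]
  · by_cases h2 : (i : ℕ) + 1 ≤ k
    · rw [if_pos (by omega), if_neg h1, if_pos h2, nub_succ hk, zero_add, mul_div_assoc]
    · rw [if_neg (by omega), if_neg h1, if_neg h2, mul_zero, zero_add]

theorem ext_JV (q : ℕ) {k : ℕ} (h : k ≤ m + 1) (j : ℕ) :
    ext (JV m q k).ofLp j = if j + 1 ≤ k then nub q k / nub q (j + 1) else 0 := by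
  unfold ext JV
  by_cases hj : j < m + 1
  · rw [dif_pos hj]
  · rw [dif_neg hj, if_neg (by omega)]

theorem difB_JV (q : ℕ) {k : ℕ} (h : k ≤ m + 1) (j : ℕ) :
    difB q (JV m q k).ofLp j = if j + 1 = k then 1 else 0 := by
  unfold difB
  rw [ext_JV q h, ext_JV q h]
  by_cases h1 : j + 1 = k
  · rw [if_pos h1.le, if_neg (by omega), if_pos h1, h1, div_self (nub_ne q k), mul_zero, sub_zero]
  · by_cases h2 : j + 1 ≤ k
    · rw [if_pos h2, if_pos (by omega), if_neg h1, nub_succ']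
      have h3 := nub_ne q (j + 1)
      have h4 := bq_ne q (j + 1)
      field_simp
      ring
    · rw [if_neg h2, if_neg (by omega), if_neg h1, mul_zero, sub_zero]

theorem TopB_JV (q : ℕ) {k : ℕ} (h1 : 1 ≤ k) (h : k ≤ m + 1) :
    TopB m q (JV m q k) = eV m k - bq q k • eV m (k + 1) := by
  rw [TopB_apply]
  unfold eV
  rw [← WithLp.toLp_smul, ← WithLp.toLp_sub]
  congr 1
  funext i
  rw [TmatB_mulVec, difB_JV q h, difB_JV q h]
  simp only [Pi.sub_apply, Pi.smul_apply, smul_eq_mul]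
  by_cases h2 : (i : ℕ) + 1 = k
  · rw [if_pos h2, if_neg (by omega : ¬ (i : ℕ) + 1 = k + 1)]
    split_ifs <;> first | omega | simp
  · by_cases h3 : (i : ℕ) = k
    · rw [if_neg h2, if_neg (by omega : ¬ (i : ℕ) = 0), if_pos (by omega : (i : ℕ) - 1 + 1 = k),
        if_pos (by omega : (i : ℕ) + 1 = k + 1), h3]
    · rw [if_neg h2, if_neg (by omega : ¬ (i : ℕ) + 1 = k + 1)]
      split_ifs <;> first | omega | simp

theorem TopB_JV_norm (q : ℕ) {k : ℕ} (h1 : 1 ≤ k) (h : k ≤ m + 1) :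
    ‖TopB m q (JV m q k)‖ ≤ 2 := by
  rw [TopB_JV q h1 h]
  refine (norm_sub_le _ _).trans ?_
  rw [norm_smul, Real.norm_of_nonneg (bq_nonneg q k)]
  have h2 := mul_le_mul (bq_le_one q k) (eV_norm_le (m := m) (k + 1)) (norm_nonneg _) zero_le_one
  linarith [eV_norm_le (m := m) k]

theorem TopB_JV_inner (q : ℕ) {k : ℕ} (h1 : 1 ≤ k) (h : k ≤ m + 1) :
    ⟪JV m q k, TopB m q (JV m q k)⟫_ℝ = 1 := by
  rw [TopB_inner]
  simp only [difB_JV q h]
  rw [Finset.sum_eq_single (k - 1)]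
  · have : k - 1 + 1 = k := by omega
    simp [this]
  · intro b _ hb
    have : ¬ b + 1 = k := by omega
    simp [this]
  · intro hn
    exact absurd (Finset.mem_range.mpr (by omega)) hn

/-- the conjugate directions are conjugate -/
theorem TopB_JV_JV (q : ℕ) {k l : ℕ} (h : k ≤ m + 1) (h2 : l ≤ m + 1) (hne : k ≠ l) :
    ⟪JV m q k, TopB m q (JV m q l)⟫_ℝ = 0 := by
  rw [TopB_inner]
  simp only [difB_JV q h, difB_JV q h2]
  apply Finset.sum_eq_zero
  intro j _
  by_cases h3 : j + 1 = k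
  · rw [if_neg (by omega : ¬ j + 1 = l), mul_zero]
  · rw [if_neg h3, zero_mul]

theorem JV_norm_sq {q : ℕ} (hq : 1 ≤ q) {k : ℕ} (h1 : 1 ≤ k) (h : k ≤ m + 1) :
    ‖JV m q k‖ ^ 2 ≤ 2 * q := by
  obtain ⟨j, rfl⟩ := Nat.exists_eq_add_of_le' h1
  rw [norm_sq_EV, ← sum_ext_sq]
  refine le_trans ?_ (col_sum_le hq j)
  have h2 : ∑ i ∈ Finset.range (m + 1), ext (JV m q (j + 1)).ofLp i ^ 2
      = ∑ i ∈ Finset.range (j + 1), ext (JV m q (j + 1)).ofLp i ^ 2 := by
    symm
    apply Finset.sum_subset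
    · intro i hi
      rw [Finset.mem_range] at hi ⊢
      omega
    · intro i _ hi
      rw [Finset.mem_range] at hi
      rw [ext_JV q h, if_neg (by omega)]
      norm_num
  rw [h2]
  apply Finset.sum_le_sum
  intro i hi
  rw [Finset.mem_range] at hi
  rw [ext_JV q h, if_pos (by omega)]
  have h3 : 0 ≤ nub q (j + 1) / nub q (i + 1) := (div_pos (nub_pos q _) (nub_pos q _)).le
  have h4 : nub q (j + 1) / nub q (i + 1) ≤ 1 := nub_div_le_one q (by omega)
  nlinarith

theorem JV_norm {q : ℕ} (hq : 1 ≤ q) {k : ℕ} (h1 : 1 ≤ k) (h : k ≤ m + 1) :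
    ‖JV m q k‖ ≤ Real.sqrt (2 * q) :=
  Real.le_sqrt_of_sq_le (JV_norm_sq hq h1 h)

/-- the sum of the products of the coefficients -/
theorem sum_nub_le {q : ℕ} (hq : 1 ≤ q) (k : ℕ) :
    ∑ j ∈ Finset.Icc 1 k, nub q j ≤ 2 * q := by
  have h1 : ∑ j ∈ Finset.Icc 1 k, nub q j = ∑ j ∈ Finset.Ico 0 k, (1 / 2 : ℝ) ^ (j / q) := by
    rw [← Finset.range_eq_Ico]
    symm
    apply Finset.sum_bij (fun (j : ℕ) _ => j + 1)
    · intro j hj
      rw [Finset.mem_range] at hj
      rw [Finset.mem_Icc]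
      omega
    · intro a _ b _ hab
      omega
    · intro b hb
      rw [Finset.mem_Icc] at hb
      exact ⟨b - 1, Finset.mem_range.mpr (by omega), by omega⟩
    · intro j _
      unfold nub
      rw [Nat.add_sub_cancel]
  rw [h1]
  refine (sum_half_le hq 0 (Nat.zero_le k)).trans (le_of_eq ?_)
  simp

theorem sum_nub_JV_le {q : ℕ} (hq : 1 ≤ q) {k : ℕ} (h : k ≤ m + 1) :
    ∑ j ∈ Finset.Icc 1 k, nub q j * ‖JV m q j‖ ≤ 2 * q * Real.sqrt (2 * q) := by
  have h1 : ∑ j ∈ Finset.Icc 1 k, nub q j * ‖JV m q j‖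
      ≤ ∑ j ∈ Finset.Icc 1 k, nub q j * Real.sqrt (2 * q) := by
    apply Finset.sum_le_sum
    intro j hj
    rw [Finset.mem_Icc] at hj
    exact mul_le_mul_of_nonneg_left (JV_norm hq hj.1 (by omega)) (nub_pos q j).le
  refine h1.trans ?_
  rw [← Finset.sum_mul]
  exact mul_le_mul_of_nonneg_right (sum_nub_le hq k) (Real.sqrt_nonneg _)

end Pool.Agent.Lib.MP_02bbae_an
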