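import Mathlib
import Pool.Agent.Lib.MP_02bbae_an.BlockDelta
import Pool.Agent.Lib.MP_02bbae_an.BlockAmat

/-!
# The failing run of the block construction
-/

set_option autoImplicit false

open scoped InnerProductSpace RealInnerProductSpace ENNReal
open Set

namespace Pool.Agent.Lib.MP_02bbae_an

/-! ## Continuity of conjugate gradients in the perturbation -/

theorem cg_cont {N : ℕ} (A : Matrix (Fin N) (Fin N) ℝ) (b : Fin N → ℝ) {D : Set ℝ} (k : ℕ)
    (h : ∀ δ ∈ D, ∀ j < k, cgr A b δ j ⬝ᵥ cgr A b δ j ≠ 0 ∧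
      cgp A b δ j ⬝ᵥ A.mulVec (cgp A b δ j) ≠ 0) :
    ContinuousOn (fun δ => cgr A b δ k) D ∧ ContinuousOn (fun δ => cgp A b δ k) D := by
  induction k with
  | zero => exact ⟨continuousOn_const, continuousOn_const⟩
  | succ k ih =>
    obtain ⟨h1, h2⟩ := ih (fun δ hδ j hj => h δ hδ j (by omega))
    have hdot : Continuous (fun p : (Fin N → ℝ) × (Fin N → ℝ) => p.1 ⬝ᵥ p.2) :=
      Continuous.dotProduct continuous_fst continuous_snd
    have hA : Continuous (fun v : Fin N → ℝ => A.mulVec v) :=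
      Continuous.matrix_mulVec continuous_const continuous_id
    have hAp : ContinuousOn (fun δ => A.mulVec (cgp A b δ k)) D := hA.comp_continuousOn h2
    have hrr : ContinuousOn (fun δ => cgr A b δ k ⬝ᵥ cgr A b δ k) D :=
      hdot.comp_continuousOn (h1.prodMk h1)
    have hpp : ContinuousOn (fun δ => cgp A b δ k ⬝ᵥ A.mulVec (cgp A b δ k)) D :=
      hdot.comp_continuousOn (h2.prodMk hAp)
    have hα : ContinuousOn (fun δ => cgα A b δ k) D := by
      unfold cgα cgA
      apply ContinuousOn.mul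
      · exact hrr.div hpp (fun δ hδ => (h δ hδ k (by omega)).2)
      · split_ifs
        · exact (continuous_const.add continuous_id).continuousOn
        · exact continuousOn_const
    have hr : ContinuousOn (fun δ => cgr A b δ (k + 1)) D := by
      simp only [cgr_succ]
      exact h1.sub (hα.smul hAp)
    refine ⟨hr, ?_⟩
    have hβ : ContinuousOn (fun δ => cgβ A b δ k) D := by
      unfold cgβ
      exact (hdot.comp_continuousOn (hr.prodMk hr)).div hrr
        (fun δ hδ => (h δ hδ k (by omega)).1)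
    simp only [cgp_succ]
    exact hr.add (hβ.smul h2)

/-! ## The normalised variables -/

section

variable (m q : ℕ) (s lam δ : ℝ)

/-- the simulated matrix -/
noncomputable abbrev ASB : Matrix (Fin (m + 2)) (Fin (m + 2)) ℝ := AmatB m q s lam (s ^ 2)

/-- residuals -/
noncomputable abbrev rB (k : ℕ) : Fin (m + 2) → ℝ := cgr (ASB m q s lam) (bS m) δ k
/-- directions -/
noncomputable abbrev pB (k : ℕ) : Fin (m + 2) → ℝ := cgp (ASB m q s lam) (bS m) δ k
/-- iterates -/
noncomputable abbrev xB (k : ℕ) : Fin (m + 2) → ℝ := cgx (ASB m q s lam) (bS m) δ k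

/-- normalised first entry of the residual -/
noncomputable def cN (k : ℕ) : ℝ := rB m q s lam δ k 0 / nub q k
/-- normalised component of the direction -/
noncomputable def gN (k : ℕ) : ℝ := (pB m q s lam δ k 0 - s * pB m q s lam δ k 1) / nub q k
/-- normalised step length -/
noncomputable def aN (k : ℕ) : ℝ := lam * cgα (ASB m q s lam) (bS m) δ k
/-- normalised beta -/
noncomputable def βN (k : ℕ) : ℝ := cgβ (ASB m q s lam) (bS m) δ k / bq q k ^ 2
/-- normalised tail of the residual -/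
noncomputable def ρN (k : ℕ) : EV m := (nub q k)⁻¹ • sc m s (rB m q s lam δ k)
/-- normalised tail of the direction -/
noncomputable def πN (k : ℕ) : EV m := (nub q k)⁻¹ • sc m s (pB m q s lam δ k)

variable {m q s lam δ}

theorem rB_dot (hs : s ≠ 0) (k : ℕ) : rB m q s lam δ k ⬝ᵥ rB m q s lam δ k
    = s ^ 2 * nub q k ^ 2 * (‖ρN m q s lam δ k‖ ^ 2 + cN m q s lam δ k ^ 2 / s ^ 2) := by
  have hν := nub_ne q k
  rw [sc_norm m hs]
  unfold ρN cN
  rw [norm_smul, norm_inv, Real.norm_eq_abs, mul_pow, inv_pow, sq_abs]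
  field_simp

theorem pB_dot (hs : s ≠ 0) (hl : lam ≠ 0) (k : ℕ) :
    pB m q s lam δ k ⬝ᵥ (ASB m q s lam).mulVec (pB m q s lam δ k)
    = lam * s ^ 2 * nub q k ^ 2 * (⟪πN m q s lam δ k, TopB m q (πN m q s lam δ k)⟫_ℝ
      + gN m q s lam δ k ^ 2 / (lam * s ^ 2)) := by
  have hν := nub_ne q k
  rw [sc_quadB q hs hl]
  unfold πN gN
  rw [map_smul, inner_smul_left, inner_smul_right]
  simp only [conj_trivial]
  field_simp

/-- the values at the first step -/
theorem first_values (hs : s ≠ 0) :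
    cN m q s lam δ 1 = -δ ∧ gN m q s lam δ 1 = -δ * (1 - δ - s ^ 2 * (1 + δ)) ∧
    ρN m q s lam δ 1 = (1 + δ) • eV m 1 ∧ πN m q s lam δ 1 = (1 + δ) • eV m 1 ∧
    cgα (ASB m q s lam) (bS m) δ 0 = 1 + δ ∧ nrm (bS m) = 1 ∧
    bS m ⬝ᵥ bS m = 1 ∧ bS m ⬝ᵥ (ASB m q s lam).mulVec (bS m) = 1 := by
  have hb0 : bS m 0 = 1 := by simp [bS]
  have hb1 : bS m 1 = 0 := by simp [bS]
  have hbtl : tl (bS m) = 0 := by
    funext i; simp [tl, bS]
  have hbb : bS m ⬝ᵥ bS m = 1 := by rw [dot_succ, hb0, hbtl]; simp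
  have hAb0 : (ASB m q s lam).mulVec (bS m) 0 = 1 := by rw [AmatB_zero, hb0, hb1]; ring
  have hbAb : bS m ⬝ᵥ (ASB m q s lam).mulVec (bS m) = 1 := by
    rw [AmatB_quad, hb0, hb1, hbtl]; simp
  have hα0 : cgα (ASB m q s lam) (bS m) δ 0 = 1 + δ := by
    unfold cgα cgA
    rw [cgr_zero, cgp_zero, hbb, hbAb, if_pos rfl]; ring
  have hr1 : rB m q s lam δ 1 = bS m - (1 + δ) • (ASB m q s lam).mulVec (bS m) := by
    have := cgr_succ (ASB m q s lam) (bS m) δ 0
    rw [cgr_zero, cgp_zero, hα0] at this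
    exact this
  have hc1 : rB m q s lam δ 1 0 = -δ := by
    rw [hr1]
    simp only [Pi.sub_apply, Pi.smul_apply, smul_eq_mul, hAb0, hb0]
    ring
  have hscb : sc m s (bS m) = 0 := by
    unfold sc; rw [hbtl, smul_zero]; rfl
  have hρ1 : sc m s (rB m q s lam δ 1) = (1 + δ) • eV m 1 := by
    rw [hr1, sc_sub, sc_smul, sc_mulVecB q lam hs, hscb, hb0, hb1, map_zero]
    simp
  have hrr1 : rB m q s lam δ 1 ⬝ᵥ rB m q s lam δ 1 = δ ^ 2 + s ^ 2 * (1 + δ) ^ 2 := by
    rw [sc_norm m hs, hρ1, hc1, norm_smul, eV_norm le_rfl (by omega), mul_one, Real.norm_eq_abs,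
      sq_abs]
    field_simp
    ring
  have hp1 : pB m q s lam δ 1 = rB m q s lam δ 1 + (δ ^ 2 + s ^ 2 * (1 + δ) ^ 2) • bS m := by
    have := cgp_succ (ASB m q s lam) (bS m) δ 0
    unfold cgβ at this
    rw [cgp_zero, cgr_zero, hbb, div_one] at this
    rw [← hrr1]; exact this
  have hr11 : rB m q s lam δ 1 1 = s * (1 + δ) := by
    have h1 := inner_e1_sc m hs (rB m q s lam δ 1)
    rw [hρ1, inner_smul_right, real_inner_self_eq_norm_sq, eV_norm le_rfl (by omega)] at h1
    have h2 : s * rB m q s lam δ 1 1 = s * (s * (1 + δ)) := by rw [← h1]; ring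
    exact mul_left_cancel₀ hs h2
  refine ⟨?_, ?_, ?_, ?_, hα0, ?_, hbb, hbAb⟩
  · unfold cN; rw [nub_one, div_one]; exact hc1
  · unfold gN
    rw [nub_one, div_one, hp1]
    simp only [Pi.add_apply, Pi.smul_apply, smul_eq_mul, hb0, hb1, hc1, hr11]
    ring
  · unfold ρN; rw [nub_one, inv_one, one_smul]; exact hρ1
  · unfold πN
    rw [nub_one, inv_one, one_smul, hp1, sc_add, sc_smul, hscb, smul_zero, add_zero, hρ1]
  · unfold bS
    rw [nrm_single]; exact abs_one

/-- the normalised recurrences -/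
theorem bsys {R : ℝ} (hq : 1 ≤ q) (hs : s ≠ 0) (hl : lam ≠ 0) (hR : Real.sqrt (2 * q) ≤ R) :
    BSys (m + 2) s lam R (TopB m q) (eV m) (JV m q) (bq q)
      (cN m q s lam δ) (gN m q s lam δ) (aN m q s lam δ) (βN m q s lam δ)
      (ρN m q s lam δ) (πN m q s lam δ) := by
  constructor
  · intro i h1 h2; exact eV_norm h1 (by omega)
  · intro i h1 _; exact eV_orth h1
  · intro i; exact half_le_bq q i
  · intro i; exact bq_le_one q i
  · intro i h1 h2; exact (JV_norm hq h1 (by omega)).trans hR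
  · intro i h1 _; exact JV_succ q h1
  · intro i h1 h2; exact TopB_JV q h1 (by omega)
  · intro i h1 h2; exact TopB_JV_norm q h1 (by omega)
  · intro i h1 h2; exact TopB_JV_inner q h1 (by omega)
  · exact TopB_sym q
  · exact TopB_bd q
  · intro k hk1 _
    have hν := nub_ne q k
    have h1 : aN m q s lam δ k = lam * ((rB m q s lam δ k ⬝ᵥ rB m q s lam δ k) /
        (pB m q s lam δ k ⬝ᵥ (ASB m q s lam).mulVec (pB m q s lam δ k))) := by
      unfold aN cgα cgA
      rw [if_neg (by omega), add_zero, mul_one]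
    rw [h1, rB_dot hs, pB_dot hs hl]
    set w := ⟪πN m q s lam δ k, TopB m q (πN m q s lam δ k)⟫_ℝ
      + gN m q s lam δ k ^ 2 / (lam * s ^ 2)
    set h := ‖ρN m q s lam δ k‖ ^ 2 + cN m q s lam δ k ^ 2 / s ^ 2
    by_cases hw : w = 0
    · rw [hw]; simp
    · field_simp
  · intro k hk1 _
    have hν := nub_ne q k
    have hb := bq_ne q k
    have := cgr_succ (ASB m q s lam) (bS m) δ k
    change rB m q s lam δ (k + 1) = _ at this
    unfold cN aN gN
    rw [this, nub_succ hk1]
    simp only [Pi.sub_apply, Pi.smul_apply, smul_eq_mul, AmatB_zero]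
    field_simp
  · intro k hk1 _
    have hν := nub_ne q k
    have hb := bq_ne q k
    have h0 := cgr_succ (ASB m q s lam) (bS m) δ k
    change rB m q s lam δ (k + 1) = _ at h0
    unfold ρN πN gN aN
    rw [h0, sc_sub, sc_smul, sc_mulVecB q lam hs, nub_succ hk1, smul_smul]
    have e1 : bq q k * (bq q k * nub q k)⁻¹ = (nub q k)⁻¹ := by
      field_simp
    rw [e1, smul_sub, smul_sub, smul_sub, smul_smul, smul_smul, map_smul, smul_smul, smul_smul,
      smul_smul]
    set α := cgα (ASB m q s lam) (bS m) δ k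
    have e2 : (nub q k)⁻¹ * α * lam = lam * α * (nub q k)⁻¹ := by ring
    have e3 : (nub q k)⁻¹ * α * (pB m q s lam δ k 0 - s * pB m q s lam δ k 1)
        = lam * α / lam * ((pB m q s lam δ k 0 - s * pB m q s lam δ k 1) / nub q k) := by
      field_simp
    rw [e2]
    rw [show (nub q k)⁻¹ * α * (pB m q s lam δ k 0 - s * pB m q s lam δ k 1)
        = lam * α / lam * ((pB m q s lam δ k 0 - s * pB m q s lam δ k 1) / nub q k) from e3]
    abel
  · intro k hk1 _
    have hν := nub_ne q k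
    have hb := bq_ne q k
    have h1 : βN m q s lam δ k = (rB m q s lam δ (k + 1) ⬝ᵥ rB m q s lam δ (k + 1)) /
        (rB m q s lam δ k ⬝ᵥ rB m q s lam δ k) / bq q k ^ 2 := rfl
    rw [h1, rB_dot hs, rB_dot hs, nub_succ hk1]
    set h := ‖ρN m q s lam δ k‖ ^ 2 + cN m q s lam δ k ^ 2 / s ^ 2
    by_cases hw : h = 0
    · rw [hw]; simp
    · field_simp
  · intro k hk1 _
    have hν := nub_ne q k
    have hb := bq_ne q k
    have h0 := cgp_succ (ASB m q s lam) (bS m) δ k
    change pB m q s lam δ (k + 1) = _ at h0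
    have h1 := inner_e1_sc m hs (rB m q s lam δ (k + 1))
    unfold gN cN ρN βN
    rw [h0, inner_smul_right]
    have h2 : s ^ 2 * ((nub q (k + 1))⁻¹ * ⟪eV m 1, sc m s (rB m q s lam δ (k + 1))⟫_ℝ)
        = s * rB m q s lam δ (k + 1) 1 / nub q (k + 1) := by
      have : s ^ 2 * ((nub q (k + 1))⁻¹ * ⟪eV m 1, sc m s (rB m q s lam δ (k + 1))⟫_ℝ)
        = (s ^ 2 * ⟪eV m 1, sc m s (rB m q s lam δ (k + 1))⟫_ℝ) / nub q (k + 1) := by
          rw [div_eq_mul_inv]; ring
      rw [this, h1]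
    rw [h2, nub_succ hk1]
    simp only [Pi.add_apply, Pi.smul_apply, smul_eq_mul]
    field_simp
    ring
  · intro k hk1 _
    have hν := nub_ne q k
    have hb := bq_ne q k
    have h0 := cgp_succ (ASB m q s lam) (bS m) δ k
    change pB m q s lam δ (k + 1) = _ at h0
    unfold πN ρN βN
    rw [h0, sc_add, sc_smul, smul_add, smul_smul, smul_smul, nub_succ hk1]
    congr 2
    field_simp

end

/-! ## The parameters of the run -/

/-- the parameters -/
structure BP (m q : ℕ) (s lam μ : ℝ) : Prop extends QB m q s lam μ where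
  hl2 : 20000 * lam ≤ 1
  hsl : 3 * (2 * (q : ℝ)) * Real.sqrt (2 * q) * s ≤ lam
  hν : 300 * s ≤ nub q (m + 1)

variable {m q : ℕ} {s lam μ : ℝ}

theorem BP.R1 (P : BP m q s lam μ) : 1 ≤ Real.sqrt (2 * q) := by
  have h1 : (1 : ℝ) ≤ q := by exact_mod_cast P.hq
  rw [Real.one_le_sqrt]; linarith

theorem BP.hsR (P : BP m q s lam μ) : 6 * (Real.sqrt (2 * q) * s) ≤ lam := by
  have h1 : (1 : ℝ) ≤ q := by exact_mod_cast P.hq
  have h2 := P.hsl
  have hs := P.hs
  have h3 : 0 ≤ Real.sqrt (2 * q) * s := by positivity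
  have h4 : 1 * (Real.sqrt (2 * q) * s) ≤ q * (Real.sqrt (2 * q) * s) :=
    mul_le_mul_of_nonneg_right h1 h3
  linarith

theorem BP.toBPar (P : BP m q s lam μ) : BPar s lam (Real.sqrt (2 * q)) := by
  have hs := P.hs
  have h1 := P.hsR
  have h2 := P.R1
  refine ⟨hs, ?_, P.hl2, h2⟩
  have := mul_le_mul_of_nonneg_right h2 hs.le
  linarith

theorem BP.hl (P : BP m q s lam μ) : 0 < lam := P.toBPar.hl

theorem BP.sys (P : BP m q s lam μ) (δ : ℝ) :
    BSys (m + 2) s lam (Real.sqrt (2 * q)) (TopB m q) (eV m) (JV m q) (bq q)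
      (cN m q s lam δ) (gN m q s lam δ) (aN m q s lam δ) (βN m q s lam δ)
      (ρN m q s lam δ) (πN m q s lam δ) :=
  bsys P.hq P.hs.ne' P.hl.ne' le_rfl

/-- the choice of the perturbation -/
structure Good (m q : ℕ) (s lam δ : ℝ) : Prop where
  d0 : 0 ≤ δ
  d1 : δ ≤ 1 / 100
  d2 : δ ≤ s * (2 * lam) ^ (m + 1)
  last : |gN m q s lam δ (m + 1)| = s * lam
  gs : ∀ k, 1 ≤ k → k < m + 2 → |gN m q s lam δ k| ≤ s * lam

theorem BP.exists_good (P : BP m q s lam μ) : ∃ δ, Good m q s lam δ := by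
  have hs := P.hs
  have hl := P.hl
  obtain ⟨δ, h1, h2, h3, h4, h5⟩ := exists_delta (n := m + 2) (by omega) P.toBPar
    (fun δ => P.sys δ) (JV_one q) (fun δ => (first_values hs.ne').1)
    (fun δ => (first_values hs.ne').2.1) (fun δ => (first_values hs.ne').2.2.1)
    (fun δ => (first_values hs.ne').2.2.2.1) (by
      intro k hk1 hkn d h
      have hc := cg_cont (ASB m q s lam) (bS m) (D := Icc 0 d) k (by
        intro δ hδ j hj
        rcases Nat.eq_zero_or_pos j with h0 | h0
        · subst h0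
          obtain ⟨-, -, -, -, -, -, h7, h8⟩ := first_values (m := m) (q := q) (lam := lam) (δ := δ)
            hs.ne'
          rw [cgr_zero, cgp_zero, h7, h8]
          exact ⟨one_ne_zero, one_ne_zero⟩
        · obtain ⟨q1, q2⟩ := h δ hδ j h0 hj
          have hν := nub_pos q j
          constructor
          · have := rB_dot (m := m) (q := q) (lam := lam) (δ := δ) hs.ne' j
            change rB m q s lam δ j ⬝ᵥ rB m q s lam δ j ≠ 0
            rw [this]
            exact mul_ne_zero (by positivity) q1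
          · have := pB_dot (m := m) (q := q) (lam := lam) (δ := δ) hs.ne' hl.ne' j
            change pB m q s lam δ j ⬝ᵥ (ASB m q s lam).mulVec (pB m q s lam δ j) ≠ 0
            rw [this]
            exact mul_ne_zero (by positivity) q2)
      have hp := hc.2
      unfold gN
      apply ContinuousOn.div_const
      have c0 : ContinuousOn (fun δ => pB m q s lam δ k 0) (Icc 0 d) :=
        (continuous_apply (0 : Fin (m + 2))).comp_continuousOn hp
      have c1 : ContinuousOn (fun δ => pB m q s lam δ k 1) (Icc 0 d) :=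
        (continuous_apply (1 : Fin (m + 2))).comp_continuousOn hp
      exact c0.sub (continuousOn_const.mul c1))
  have e1 : m + 2 - 1 = m + 1 := by omega
  rw [e1] at h3 h4
  exact ⟨δ, h1, h2, h3, h4, h5⟩

section

variable {δ : ℝ}

theorem BP.inv (P : BP m q s lam μ) (G : Good m q s lam δ) {k : ℕ} (hk1 : 1 ≤ k)
    (hkn : k < m + 2) : BInv (TopB m q) s (Real.sqrt (2 * q)) (eV m) (JV m q)
      (cN m q s lam δ) (gN m q s lam δ) (ρN m q s lam δ) (πN m q s lam δ)
      (|gN m q s lam δ k| / s) k ∧ |gN m q s lam δ k| / s ≤ lam := by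
  obtain ⟨f1, f2, f3, f4, -, -, -, -⟩ := first_values (m := m) (q := q) (lam := lam) (δ := δ)
    P.hs.ne'
  exact BInv.all P.toBPar (P.sys δ) (by omega) G.d0 G.d1 (JV_one q) f1 f2 f3 f4 hk1 hkn
    (fun j h1 h2 => G.gs j h1 (by omega))

/-- the sizes of the residuals -/
theorem BP.r_pos (P : BP m q s lam μ) (G : Good m q s lam δ) {k : ℕ} (hk1 : 1 ≤ k)
    (hk : k ≤ m + 2) : 99 / 100 * (s * nub q (m + 1)) ≤ nrm (rB m q s lam δ k) := by
  have hs := P.hs
  have hν0 := nub_pos q (m + 1)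
  apply le_nrm
  by_cases h : k < m + 2
  · obtain ⟨h1, h2⟩ := P.inv G hk1 h
    have h3 := (h1.out P.toBPar (P.sys δ) hk1 h h2).2.1
    rw [rB_dot hs.ne']
    have hν := nub_anti q (show k ≤ m + 1 by omega)
    have h4 : nub q (m + 1) ^ 2 ≤ nub q k ^ 2 := pow_le_pow_left₀ hν0.le hν 2
    have h5 : (99 / 100 : ℝ) ^ 2 ≤ ‖ρN m q s lam δ k‖ ^ 2 + cN m q s lam δ k ^ 2 / s ^ 2 := by
      have := pow_le_pow_left₀ (by norm_num) h3 2
      have : 0 ≤ cN m q s lam δ k ^ 2 / s ^ 2 := by positivity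
      linarith
    calc (99 / 100 * (s * nub q (m + 1))) ^ 2 = s ^ 2 * nub q (m + 1) ^ 2 * (99 / 100) ^ 2 := by
          ring
      _ ≤ s ^ 2 * nub q k ^ 2 * (‖ρN m q s lam δ k‖ ^ 2 + cN m q s lam δ k ^ 2 / s ^ 2) := by
          apply mul_le_mul (mul_le_mul_of_nonneg_left h4 (by positivity)) h5 (by norm_num)
            (by positivity)
  · have hk2 : k = m + 2 := by omega
    subst hk2
    obtain ⟨h1, h2⟩ := P.inv G (k := m + 1) (by omega) (by omega)
    have hX : |gN m q s lam δ (m + 1)| / s = lam := by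
      rw [G.last]; field_simp
    rw [hX] at h1
    have h3 := BInv.final (n := m + 2) P.toBPar (P.sys δ) (by omega) h1
    have e1 : m + 2 - 1 = m + 1 := by omega
    rw [e1] at h3
    have h4 : bq q (m + 1) * cN m q s lam δ (m + 2)
        = rB m q s lam δ (m + 2) 0 / nub q (m + 1) := by
      unfold cN
      have hb := bq_ne q (m + 1)
      have hν := nub_ne q (m + 1)
      rw [nub_succ (q := q) (k := m + 1) (by omega)]
      field_simp
    rw [h4, abs_div, abs_of_pos hν0, le_div_iff₀ hν0] at h3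
    have h5 : 0 < s * nub q (m + 1) := by positivity
    have h6 : 99 / 100 * (s * nub q (m + 1)) ≤ |rB m q s lam δ (m + 2) 0| := by linarith
    have h7 : (99 / 100 * (s * nub q (m + 1))) ^ 2 ≤ |rB m q s lam δ (m + 2) 0| ^ 2 :=
      pow_le_pow_left₀ (by positivity) h6 2
    rw [sq_abs] at h7
    rw [dot_succ]
    have h8 : 0 ≤ tl (rB m q s lam δ (m + 2)) ⬝ᵥ tl (rB m q s lam δ (m + 2)) := by
      rw [← nrm_sq]; positivity
    nlinarith

/-- the sizes of the updates -/
theorem BP.step_norm (P : BP m q s lam μ) (G : Good m q s lam δ) {k : ℕ} (hk1 : 1 ≤ k)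
    (hk : k < m + 2) :
    nrm (cgα (ASB m q s lam) (bS m) δ k • pB m q s lam δ k)
      ≤ 103 / 100 * (Real.sqrt (2 * q) * s / lam) * nub q k := by
  have hs := P.hs
  have hl := P.hl
  have hl2 := P.hl2
  have hR1 := P.R1
  have hsR := P.hsR
  have hν := nub_pos q k
  obtain ⟨i1, i2⟩ := P.inv G hk1 hk
  obtain ⟨h1, -, h3, -, -⟩ := i1.out P.toBPar (P.sys δ) hk1 hk i2
  have hg := G.gs k hk1 hk
  set R := Real.sqrt (2 * q) with hR
  have hscp : ‖sc m s (pB m q s lam δ k)‖ ≤ 101 / 100 * R * nub q k := by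
    have : ‖πN m q s lam δ k‖ = ‖sc m s (pB m q s lam δ k)‖ / nub q k := by
      unfold πN
      rw [norm_smul, norm_inv, Real.norm_eq_abs, abs_of_pos hν]
      field_simp
    rw [this, div_le_iff₀ hν] at h3
    exact h3
  -- the first entry
  have hd : |pB m q s lam δ k 0| ≤ s * nub q k * (1 / 1000) := by
    have e1 : pB m q s lam δ k 0 = nub q k * gN m q s lam δ k
        + s * pB m q s lam δ k 1 := by
      unfold gN
      have := nub_ne q k
      field_simp
      ring
    have e0 := inner_e1_sc m hs.ne' (pB m q s lam δ k)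
    rw [e1]
    refine (abs_add_le _ _).trans ?_
    have e2 : |⟪eV m 1, sc m s (pB m q s lam δ k)⟫_ℝ| ≤ 101 / 100 * R * nub q k := by
      refine (abs_real_inner_le_norm _ _).trans ?_
      rw [eV_norm le_rfl (by omega), one_mul]; exact hscp
    have e3 : |s * pB m q s lam δ k 1| ≤ s ^ 2 * (101 / 100 * R * nub q k) := by
      rw [← e0, abs_mul, abs_of_pos (by positivity : (0 : ℝ) < s ^ 2)]
      exact mul_le_mul_of_nonneg_left e2 (by positivity)
    have e4 : |nub q k * gN m q s lam δ k| ≤ nub q k * (s * lam) := by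
      rw [abs_mul, abs_of_pos hν]
      exact mul_le_mul_of_nonneg_left hg hν.le
    have e5 : s ^ 2 * (101 / 100 * R * nub q k) = (101 / 100 * (R * s)) * (s * nub q k) := by ring
    have e6 : nub q k * (s * lam) = lam * (s * nub q k) := by ring
    have e7 : 0 < s * nub q k := by positivity
    have e8 : (101 / 100 * (R * s)) * (s * nub q k) ≤ (1 / 2000) * (s * nub q k) :=
      mul_le_mul_of_nonneg_right (by linarith) e7.le
    have e9 : lam * (s * nub q k) ≤ 1 / 20000 * (s * nub q k) :=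
      mul_le_mul_of_nonneg_right (by linarith) e7.le
    linarith
  have hp : nrm (pB m q s lam δ k) ≤ 102 / 100 * (R * s) * nub q k := by
    apply nrm_le (by positivity)
    rw [sc_norm m hs.ne']
    have e1 : s ^ 2 * (‖sc m s (pB m q s lam δ k)‖ ^ 2 + pB m q s lam δ k 0 ^ 2 / s ^ 2)
        = s ^ 2 * ‖sc m s (pB m q s lam δ k)‖ ^ 2 + pB m q s lam δ k 0 ^ 2 := by
      field_simp
    rw [e1]
    have e2 : pB m q s lam δ k 0 ^ 2 ≤ (s * nub q k * (1 / 1000)) ^ 2 := by
      rw [← sq_abs]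
      exact pow_le_pow_left₀ (abs_nonneg _) hd 2
    have e3 : ‖sc m s (pB m q s lam δ k)‖ ^ 2 ≤ (101 / 100 * R * nub q k) ^ 2 :=
      pow_le_pow_left₀ (norm_nonneg _) hscp 2
    have e4 : s ^ 2 * ‖sc m s (pB m q s lam δ k)‖ ^ 2 ≤ s ^ 2 * (101 / 100 * R * nub q k) ^ 2 :=
      mul_le_mul_of_nonneg_left e3 (by positivity)
    have e5 : (1 : ℝ) ≤ R ^ 2 := by nlinarith
    have e7 : (102 / 100 * (R * s) * nub q k) ^ 2 = 10404 / 10000 * (s ^ 2 * R ^ 2 * nub q k ^ 2) := by
      ring
    have e8 : s ^ 2 * (101 / 100 * R * nub q k) ^ 2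
        = 10201 / 10000 * (s ^ 2 * R ^ 2 * nub q k ^ 2) := by ring
    have e9 : (s * nub q k * (1 / 1000)) ^ 2 = 1 / 1000000 * (s ^ 2 * 1 * nub q k ^ 2) := by ring
    have e10 : s ^ 2 * 1 * nub q k ^ 2 ≤ s ^ 2 * R ^ 2 * nub q k ^ 2 := by
      apply mul_le_mul_of_nonneg_right _ (by positivity)
      exact mul_le_mul_of_nonneg_left e5 (by positivity)
    have e11 : 0 ≤ s ^ 2 * 1 * nub q k ^ 2 := by positivity
    rw [e7]
    rw [e8] at e4
    rw [e9] at e2
    linarith only [e2, e4, e10, e11]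
  have ha : |cgα (ASB m q s lam) (bS m) δ k| ≤ 1001 / 1000 / lam := by
    rw [le_div_iff₀ hl]
    have e1 : |aN m q s lam δ k| ≤ 1001 / 1000 := by
      calc |aN m q s lam δ k| = |(aN m q s lam δ k - 1) + 1| := by congr 1; ring
        _ ≤ |aN m q s lam δ k - 1| + |1| := abs_add_le _ _
        _ ≤ 1 / 1000 + 1 := by rw [abs_one]; linarith
        _ = 1001 / 1000 := by norm_num
    unfold aN at e1
    rw [abs_mul, abs_of_pos hl] at e1
    linarith
  rw [nrm_smul]
  calc |cgα (ASB m q s lam) (bS m) δ k| * nrm (pB m q s lam δ k)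
      ≤ 1001 / 1000 / lam * (102 / 100 * (R * s) * nub q k) :=
        mul_le_mul ha hp (nrm_nonneg _) (by positivity)
    _ = 102102 / 100000 * (R * s / lam) * nub q k := by ring
    _ ≤ 103 / 100 * (R * s / lam) * nub q k := by
      apply mul_le_mul_of_nonneg_right _ hν.le
      apply mul_le_mul_of_nonneg_right (by norm_num)
      positivity

theorem BP.x_norm (P : BP m q s lam μ) (G : Good m q s lam δ) {k : ℕ} (hk : k ≤ m + 2) :
    nrm (xB m q s lam δ k) ≤ 2 := by
  have hs := P.hs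
  have hl := P.hl
  have hR1 := P.R1
  have hsl := P.hsl
  obtain ⟨-, -, -, -, a1, a2, -, -⟩ := first_values (m := m) (q := q) (lam := lam) (δ := δ)
    P.hs.ne'
  have hδ := G.d1
  have hδ0 := G.d0
  set R := Real.sqrt (2 * q) with hR
  have main : ∀ k, k + 1 ≤ m + 2 → nrm (xB m q s lam δ (k + 1))
      ≤ 101 / 100 + 103 / 100 * (R * s / lam) * ∑ j ∈ Finset.Icc 1 k, nub q j := by
    intro k
    induction k with
    | zero =>
      intro _
      have e1 : xB m q s lam δ (0 + 1) = (1 + δ) • bS m := by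
        have := cgx_succ (ASB m q s lam) (bS m) δ 0
        rw [cgx_zero, cgp_zero, a1, zero_add, zero_add] at this
        exact this
      rw [e1, nrm_smul, a2, abs_of_pos (by linarith)]
      simp
      linarith
    | succ k ih =>
      intro hk
      have e1 := cgx_succ (ASB m q s lam) (bS m) δ (k + 1)
      change xB m q s lam δ (k + 1 + 1) = _ at e1
      rw [e1]
      refine (nrm_add_le _ _).trans ?_
      have e2 := ih (by omega)
      have e3 := P.step_norm G (k := k + 1) (by omega) (by omega)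
      rw [Finset.sum_Icc_succ_top (by omega), mul_add]
      change nrm (xB m q s lam δ (k + 1)) + nrm (cgα (ASB m q s lam) (bS m) δ (k + 1) •
        pB m q s lam δ (k + 1)) ≤ _
      linarith
  rcases Nat.eq_zero_or_pos k with h0 | h0
  · subst h0
    have : xB m q s lam δ 0 = 0 := rfl
    rw [this]
    have : nrm (0 : Fin (m + 2) → ℝ) = 0 := by unfold nrm; simp
    rw [this]; norm_num
  · obtain ⟨j, rfl⟩ : ∃ j, k = j + 1 := ⟨k - 1, by omega⟩
    refine (main j hk).trans ?_
    have h1 := sum_nub_le (q := q) P.hq j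
    have h2 : 103 / 100 * (R * s / lam) * ∑ j ∈ Finset.Icc 1 j, nub q j
        ≤ 103 / 100 * (R * s / lam) * (2 * q) := by
      apply mul_le_mul_of_nonneg_left h1
      positivity
    have h3 : 103 / 100 * (R * s / lam) * (2 * q) ≤ 103 / 300 := by
      have : 103 / 100 * (R * s / lam) * (2 * q) = 103 / 300 * (3 * (2 * q) * R * s) / lam := by
        ring
      rw [this, div_le_iff₀ hl]
      exact mul_le_mul_of_nonneg_left hsl (by norm_num)
    linarith

theorem BP.eta_big (P : BP m q s lam μ) (G : Good m q s lam δ) {ε : ℝ} (hε : 0 < ε)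
    (hsε : 8 * ε ≤ s * nub q (m + 1)) {k : ℕ} (hk : k ≤ m + 2) :
    ε < eta (AmatB m q s lam μ) (bS m) (xB m q s lam δ k) := by
  have hs := P.hs
  have hs1 := P.toBPar.hs1
  have hν := P.hν
  have hν0 := nub_pos q (m + 1)
  have hν1 := nub_le_one q (m + 1)
  obtain ⟨-, -, -, -, a1, a2, -, -⟩ := first_values (m := m) (q := q) (lam := lam) (δ := δ)
    P.hs.ne'
  have hx := P.x_norm G hk
  have hsν : s * nub q (m + 1) ≤ 1 := by
    have := mul_le_mul (show s ≤ 1 by linarith) hν1 hν0.le zero_le_one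
    linarith
  rcases Nat.eq_zero_or_pos k with h0 | h0
  · subst h0
    have h00 : xB m q s lam δ 0 = 0 := rfl
    rw [h00]
    apply eta_lb (X := 2) (s := 1) a2 (AmatB_spec P.toQB) (by rw [← h00]; exact hx) _ hε
    · linarith
    · rw [Matrix.mulVec_zero, sub_zero, a2]
  · apply eta_lb (X := 2) (s := 9 / 10 * (s * nub q (m + 1))) a2 (AmatB_spec P.toQB) hx _ hε
    · linarith
    · have e1 : bS m - (AmatB m q s lam μ).mulVec (xB m q s lam δ k)
          = rB m q s lam δ k - -(Pi.single 1 ((s ^ 2 - μ) * xB m q s lam δ k 1)) := by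
        rw [← AmatB_diff q s lam μ]
        have := cgr_eq (ASB m q s lam) (bS m) δ k
        change rB m q s lam δ k = _ at this
        rw [this]
        abel
      have e2 := P.r_pos G h0 hk
      have e3 : nrm (Pi.single 1 ((s ^ 2 - μ) * xB m q s lam δ k 1) : Fin (m + 2) → ℝ)
          ≤ 1 / 100 * (s * nub q (m + 1)) := by
        rw [nrm_single, abs_mul, abs_of_nonneg (by linarith [P.hμ])]
        have h1 : |xB m q s lam δ k 1| ≤ 2 := (abs_coord_le _ _).trans hx
        have h2 : s ^ 2 - μ ≤ 1 / 300 * (s * nub q (m + 1)) := by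
          have : s * (300 * s) ≤ s * nub q (m + 1) := mul_le_mul_of_nonneg_left hν hs.le
          nlinarith [P.hμ0]
        calc (s ^ 2 - μ) * |xB m q s lam δ k 1| ≤ (1 / 300 * (s * nub q (m + 1))) * 2 :=
              mul_le_mul h2 h1 (abs_nonneg _) (by positivity)
          _ ≤ _ := by
            have : 0 < s * nub q (m + 1) := by positivity
            linarith
      have e4 : nrm (rB m q s lam δ k) ≤ nrm (bS m - (AmatB m q s lam μ).mulVec (xB m q s lam δ k))
          + nrm (Pi.single 1 ((s ^ 2 - μ) * xB m q s lam δ k 1) : Fin (m + 2) → ℝ) := by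
        have : rB m q s lam δ k = (bS m - (AmatB m q s lam μ).mulVec (xB m q s lam δ k))
          - Pi.single 1 ((s ^ 2 - μ) * xB m q s lam δ k 1) := by
          rw [e1]; abel
        calc nrm (rB m q s lam δ k) = nrm ((bS m - (AmatB m q s lam μ).mulVec (xB m q s lam δ k))
          - Pi.single 1 ((s ^ 2 - μ) * xB m q s lam δ k 1)) := by rw [← this]
          _ ≤ _ := nrm_sub_le _ _
      have e5 : 0 < s * nub q (m + 1) := by positivity
      linarith

/-- the failing run -/
noncomputable def failRunB (m q : ℕ) (s lam δ : ℝ) : Run (m + 2) where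
  x := xB m q s lam δ
  r := rB m q s lam δ
  p := pB m q s lam δ
  q := fun k => (ASB m q s lam).mulVec (pB m q s lam δ k)
  q' := fun k => (ASB m q s lam).mulVec (pB m q s lam δ k)
  ρ := fun k => rB m q s lam δ k ⬝ᵥ rB m q s lam δ k
  ρ' := fun k => rB m q s lam δ k ⬝ᵥ rB m q s lam δ k
  ρ'' := fun k => rB m q s lam δ (k + 1) ⬝ᵥ rB m q s lam δ (k + 1)
  σ := fun k => pB m q s lam δ k ⬝ᵥ (ASB m q s lam).mulVec (pB m q s lam δ k)
  α := fun k => cgα (ASB m q s lam) (bS m) δ k
  β := fun k => cgβ (ASB m q s lam) (bS m) δ k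

theorem failRunB_reuses : (failRunB m q s lam δ).Reuses := ⟨rfl, rfl, fun _ => rfl⟩

theorem BP.valid (P : BP m q s lam μ) (G : Good m q s lam δ) {u : ℝ} (hu : 0 ≤ u) (hδ : δ ≤ u)
    (hμ' : μ = s ^ 2 ∨ (μ = 0 ∧ s ^ 2 ≤ u * lam)) :
    (failRunB m q s lam δ).Valid u (AmatB m q s lam μ) (bS m) (m + 2) := by
  have hs := P.hs
  have hl := P.hl
  have hν0 := nub_pos q (m + 1)
  obtain ⟨-, -, -, -, a1, a2, f7, f8⟩ := first_values (m := m) (q := q) (lam := lam) (δ := δ)
    P.hs.ne'
  have hδ0 := G.d0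
  have hr : ∀ k ≤ m + 2, rB m q s lam δ k ⬝ᵥ rB m q s lam δ k ≠ 0 := by
    intro k hk
    rw [← nrm_sq]
    rcases Nat.eq_zero_or_pos k with h0 | h0
    · subst h0
      have : rB m q s lam δ 0 = bS m := rfl
      rw [this, a2]; norm_num
    · have := P.r_pos G h0 hk
      have h3 : 0 < s * nub q (m + 1) := by positivity
      have h2 : 0 < nrm (rB m q s lam δ k) := by linarith
      positivity
  have hp : ∀ k < m + 2, pB m q s lam δ k ⬝ᵥ (ASB m q s lam).mulVec (pB m q s lam δ k) ≠ 0 := by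
    intro k hk
    rcases Nat.eq_zero_or_pos k with h0 | h0
    · subst h0
      change bS m ⬝ᵥ (ASB m q s lam).mulVec (bS m) ≠ 0
      rw [f8]; exact one_ne_zero
    · obtain ⟨i1, i2⟩ := P.inv G h0 hk
      obtain ⟨-, -, -, h5, -⟩ := i1.out P.toBPar (P.sys δ) h0 hk i2
      rw [pB_dot hs.ne' hl.ne']
      have hν := nub_pos q k
      have h6 : 0 < ⟪πN m q s lam δ k, TopB m q (πN m q s lam δ k)⟫_ℝ
        + gN m q s lam δ k ^ 2 / (lam * s ^ 2) := by linarith
      positivity
  have hmv : ∀ p : Fin (m + 2) → ℝ, FlMulVec u (AmatB m q s lam μ) p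
      ((ASB m q s lam).mulVec p) := by
    intro p i
    apply FlDot.pert hu (by omega)
    intro j
    rcases hμ' with h | ⟨h, h'⟩
    · refine ⟨0, by simpa using hu, ?_⟩
      rw [h]; simp
    · by_cases hij : (i : ℕ) = 1 ∧ (j : ℕ) = 1
      · refine ⟨s ^ 2 / lam, ?_, ?_⟩
        · rw [abs_of_pos (by positivity), div_le_iff₀ hl]; exact h'
        · unfold ASB AmatB
          rw [hij.1, hij.2, h]
          unfold aentB
          simp [tentB]
          field_simp
      · refine ⟨0, by simpa using hu, ?_⟩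
        unfold ASB AmatB aentB
        rw [if_neg hij, if_neg hij]; ring
  constructor
  · rfl
  · rfl
  · rfl
  · intro k _; exact FlDot.exact hu (by omega) _ _
  · intro k _; exact hmv _
  · intro k _; exact FlDot.exact hu (by omega) _ _
  · intro k hk; exact hp k hk
  · intro k hk
    refine ⟨if k = 0 then δ else 0, ?_, rfl⟩
    split_ifs
    · rw [abs_of_nonneg hδ0]; exact hδ
    · simpa using hu
  · intro k _
    have := cgx_succ (ASB m q s lam) (bS m) δ k
    show FlAddMul u (cgx (ASB m q s lam) (bS m) δ k) (cgα (ASB m q s lam) (bS m) δ k)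
      (cgp (ASB m q s lam) (bS m) δ k) (cgx (ASB m q s lam) (bS m) δ (k + 1))
    rw [this]
    exact FlAddMul.exact hu _ _ _
  · intro k _; exact hmv _
  · intro k _
    have := cgr_succ (ASB m q s lam) (bS m) δ k
    show FlSubMul u (cgr (ASB m q s lam) (bS m) δ k) (cgα (ASB m q s lam) (bS m) δ k)
      ((ASB m q s lam).mulVec (cgp (ASB m q s lam) (bS m) δ k))
      (cgr (ASB m q s lam) (bS m) δ (k + 1))
    rw [this]
    exact FlSubMul.exact hu _ _ _
  · intro k _; exact FlDot.exact hu (by omega) _ _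
  · intro k hk; exact hr k hk.le
  · intro k _; exact FlDot.exact hu (by omega) _ _
  · intro k _; exact Fl.exact hu _
  · intro k _
    have := cgp_succ (ASB m q s lam) (bS m) δ k
    show FlAddMul u (cgr (ASB m q s lam) (bS m) δ (k + 1)) (cgβ (ASB m q s lam) (bS m) δ k)
      (cgp (ASB m q s lam) (bS m) δ k) (cgp (ASB m q s lam) (bS m) δ (k + 1))
    rw [this]
    exact FlAddMul.exact hu _ _ _

end

/-- the failing run, parameters powers of two -/
theorem fails_block {m q i l t : ℕ} {ε : ℝ} {κ : ℝ≥0∞} (hε : 0 < ε) (hq : 1 ≤ q) (ht : 3 ≤ t)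
    (h2 : 20000 * ((1 : ℝ) / 2) ^ l ≤ 1)
    (h3 : 3 * (2 * (q : ℝ)) * Real.sqrt (2 * q) * ((1 : ℝ) / 2) ^ i ≤ (1 / 2) ^ l)
    (h4 : 8 * ε ≤ (1 / 2) ^ i * (1 / 2) ^ (m / q))
    (h4' : 300 * ((1 : ℝ) / 2) ^ i ≤ (1 / 2) ^ (m / q))
    (h5 : ENNReal.ofReal 2 ≤ κ * ENNReal.ofReal (((1 : ℝ) / 2) ^ l / (16 * (q : ℝ) ^ 2)))
    (h6 : t ≤ i + (l - 1) * (m + 1)) : Fails (m + 2) κ ε t := by
  set s : ℝ := (1 / 2) ^ i with hs
  set lam : ℝ := (1 / 2) ^ l with hlam
  have hs0 : 0 < s := by positivity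
  have hl0 : 0 < lam := by positivity
  have hq1 : (1 : ℝ) ≤ q := by exact_mod_cast hq
  have hR1 : 1 ≤ Real.sqrt (2 * q) := by rw [Real.one_le_sqrt]; linarith
  have hνe : nub q (m + 1) = (1 / 2) ^ (m / q) := by
    unfold nub; rw [Nat.add_sub_cancel]
  have h7 : 3 * (2 * (q : ℝ)) * 1 * s ≤ 3 * (2 * q) * Real.sqrt (2 * q) * s := by
    apply mul_le_mul_of_nonneg_right _ hs0.le
    apply mul_le_mul_of_nonneg_left hR1 (by positivity)
  have h8 : 0 < (q : ℝ) * s := by positivity
  have h9 : 1 * s ≤ q * s := mul_le_mul_of_nonneg_right hq1 hs0.le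
  have hsl : s < lam := by linarith
  have hli : l ≤ i := by
    by_contra hc
    push Not at hc
    have : lam ≤ s := by
      rw [hs, hlam]
      exact pow_le_pow_of_le_one (by norm_num) (by norm_num) hc.le
    linarith
  have hl1 : 1 ≤ l := by
    by_contra hc
    have : l = 0 := by omega
    rw [hlam, this] at h2
    norm_num at h2
  have hi : 1 ≤ i := by omega
  set μ : ℝ := if 2 * i + 1 ≤ t + l then s ^ 2 else 0 with hμ
  have P : BP m q s lam μ := by
    refine ⟨⟨hq, hs0, by linarith, by linarith, ?_, ?_⟩, h2, h3, ?_⟩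
    · rw [hμ]; split_ifs <;> positivity
    · rw [hμ]; split_ifs
      · exact le_rfl
      · positivity
    · rw [hνe]; exact h4'
  obtain ⟨δ, G⟩ := P.exists_good
  have hu : (0 : ℝ) ≤ (1 / 2) ^ t := by positivity
  have hδ : δ ≤ (1 / 2) ^ t := by
    have h9 : 2 * lam = (1 / 2) ^ (l - 1) := by
      rw [hlam]
      obtain ⟨l', rfl⟩ : ∃ l', l = l' + 1 := ⟨l - 1, by omega⟩
      rw [Nat.add_sub_cancel, pow_succ]
      ring
    calc δ ≤ s * (2 * lam) ^ (m + 1) := G.d2
      _ = (1 / 2) ^ (i + (l - 1) * (m + 1)) := by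
          rw [h9, hs, ← pow_mul, ← pow_add]
      _ ≤ (1 / 2) ^ t := pow_le_pow_of_le_one (by norm_num) (by norm_num) h6
  have hμ' : μ = s ^ 2 ∨ (μ = 0 ∧ s ^ 2 ≤ (1 / 2) ^ t * lam) := by
    rw [hμ]
    split_ifs with hc
    · left; rfl
    · right
      refine ⟨rfl, ?_⟩
      rw [hs, hlam, ← pow_mul, ← pow_add]
      exact pow_le_pow_of_le_one (by norm_num) (by norm_num) (by omega)
  have hV := P.valid G hu hδ hμ'
  have hb : bS m ≠ 0 := by
    intro h
    have := congrFun h 0
    simp [bS] at this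
  exact ⟨AmatB m q s lam μ, bS m, AmatB_posDef P.toQB,
    CondLE_of_bounds _ (AmatB_lower P.toQB) (AmatB_upper P.toQB) h5, hb,
    (fun a b => isFloat_aentB q ht hi hli (by
      rw [hμ]
      split_ifs with hc
      · left; exact ⟨rfl, hc⟩
      · right; rfl) a b),
    (fun a => by
      unfold bS
      by_cases ha : a = 0
      · rw [ha, Pi.single_eq_same]; exact IsFloat.one (by omega)
      · rw [Pi.single_eq_of_ne ha]; exact IsFloat.zero t),
    failRunB m q s lam δ, m + 2, failRunB_reuses, hV, Or.inl rfl,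
    fun k hk => P.eta_big G hε (by rw [hνe]; exact h4) hk⟩

end Pool.Agent.Lib.MP_02bbae_an
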