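import Mathlib
import Pool.Agent.Lib.MP_02bbae_an.LowerFail

set_option autoImplicit false

open Finset

namespace Pool.Agent.Lib.MP_02bbae_an

theorem FlSum.error {u : ℝ} (hu : 0 ≤ u) {s : Multiset ℝ} {c : ℝ} (h : FlSum u s c) :
    1 ≤ Multiset.card s ∧
      |c - s.sum| ≤ ((1 + u) ^ (Multiset.card s - 1) - 1) * (s.map abs).sum := by
  induction h with
  | single z => simp
  | @add s s' a a' c h1 h2 h3 ih1 ih2 =>
    obtain ⟨m1, e1⟩ := ih1
    obtain ⟨m2, e2⟩ := ih2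
    obtain ⟨δ, hδ, rfl⟩ := h3
    refine ⟨by rw [Multiset.card_add]; omega, ?_⟩
    rw [Multiset.card_add, Multiset.sum_add, Multiset.map_add, Multiset.sum_add]
    set k1 := Multiset.card s
    set k2 := Multiset.card s'
    have hA1 : |s.sum| ≤ (s.map abs).sum := Multiset.abs_sum_le_sum_abs
    have hA2 : |s'.sum| ≤ (s'.map abs).sum := Multiset.abs_sum_le_sum_abs
    set A1 := (s.map abs).sum
    set A2 := (s'.map abs).sum
    have hA10 : 0 ≤ A1 := le_trans (abs_nonneg _) hA1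
    have hA20 : 0 ≤ A2 := le_trans (abs_nonneg _) hA2
    have h1u : (1 : ℝ) ≤ 1 + u := by linarith
    have g1 : (1 + u) ^ (k1 - 1) ≤ (1 + u) ^ (k1 + k2 - 2) :=
      pow_le_pow_right₀ h1u (by omega)
    have g2 : (1 + u) ^ (k2 - 1) ≤ (1 + u) ^ (k1 + k2 - 2) :=
      pow_le_pow_right₀ h1u (by omega)
    have g3 : (1 + u) ^ (k1 + k2 - 1) = (1 + u) ^ (k1 + k2 - 2) * (1 + u) := by
      rw [← pow_succ]; congr 1; omega
    set G := (1 + u) ^ (k1 + k2 - 2)
    have e1' : |a - s.sum| ≤ (G - 1) * A1 := by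
      refine le_trans e1 ?_
      exact mul_le_mul_of_nonneg_right (by linarith) hA10
    have e2' : |a' - s'.sum| ≤ (G - 1) * A2 := by
      refine le_trans e2 ?_
      exact mul_le_mul_of_nonneg_right (by linarith) hA20
    have h4 : (a + a') * (1 + δ) - (s.sum + s'.sum) =
        (a - s.sum) * (1 + δ) + (a' - s'.sum) * (1 + δ) + δ * s.sum + δ * s'.sum := by ring
    have h5 : |1 + δ| ≤ 1 + u := by
      refine le_trans (abs_add_le _ _) ?_
      rw [abs_one]; linarith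
    have h6 : |(a - s.sum) * (1 + δ)| ≤ (G - 1) * A1 * (1 + u) := by
      rw [abs_mul]
      exact mul_le_mul e1' h5 (abs_nonneg _) (le_trans (abs_nonneg _) e1')
    have h7 : |(a' - s'.sum) * (1 + δ)| ≤ (G - 1) * A2 * (1 + u) := by
      rw [abs_mul]
      exact mul_le_mul e2' h5 (abs_nonneg _) (le_trans (abs_nonneg _) e2')
    have h8 : |δ * s.sum| ≤ u * A1 := by
      rw [abs_mul]; exact mul_le_mul hδ hA1 (abs_nonneg _) hu
    have h9 : |δ * s'.sum| ≤ u * A2 := by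
      rw [abs_mul]; exact mul_le_mul hδ hA2 (abs_nonneg _) hu
    rw [h4, g3]
    have t1 := abs_add_le ((a - s.sum) * (1 + δ) + (a' - s'.sum) * (1 + δ) + δ * s.sum) (δ * s'.sum)
    have t2 := abs_add_le ((a - s.sum) * (1 + δ) + (a' - s'.sum) * (1 + δ)) (δ * s.sum)
    have t3 := abs_add_le ((a - s.sum) * (1 + δ)) ((a' - s'.sum) * (1 + δ))
    linarith only [t1, t2, t3, h6, h7, h8, h9]

theorem pow_le_one_add {u : ℝ} (hu : 0 ≤ u) {n : ℕ} (hn : 2 * n * u ≤ 1) :
    (1 + u) ^ n ≤ 1 + 2 * n * u := by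
  have : ∀ k ≤ n, (1 + u) ^ k ≤ 1 + 2 * k * u := by
    intro k
    induction k with
    | zero => intro _; simp
    | succ k ih =>
      intro hk
      have h1 := ih (by omega)
      rw [pow_succ]
      have h2 := mul_le_mul_of_nonneg_right h1 (by linarith : 0 ≤ 1 + u)
      refine le_trans h2 ?_
      push_cast
      have h3 : 2 * (k : ℝ) * u ≤ 2 * n * u := by
        have : (k : ℝ) ≤ n := by
          have : k ≤ n := by omega
          exact_mod_cast this
        nlinarith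
      have h4 : 2 * (k : ℝ) * u * u ≤ 1 * u := mul_le_mul_of_nonneg_right (by linarith) hu
      nlinarith
  exact this n (le_refl n)

theorem FlDot.error {n : ℕ} {u : ℝ} (hu : 0 ≤ u) (hn : 2 * n * u ≤ 1) {x y : Fin n → ℝ} {s : ℝ}
    (h : FlDot u x y s) : |s - ∑ i, x i * y i| ≤ 2 * n * u * ∑ i, |x i * y i| := by
  obtain ⟨c, hc, hs⟩ := h
  obtain ⟨m1, e1⟩ := hs.error hu
  rw [Multiset.card_map] at m1 e1
  have hcard : Multiset.card (univ.val : Multiset (Fin n)) = n := by simp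
  rw [hcard] at m1 e1
  have hsum : (univ.val.map c).sum = ∑ i, c i := rfl
  have habs : ((univ.val.map c).map abs).sum = ∑ i, |c i| := by
    rw [Multiset.map_map]; rfl
  rw [hsum, habs] at e1
  have hc1 : |∑ i, c i - ∑ i, x i * y i| ≤ u * ∑ i, |x i * y i| := by
    rw [← sum_sub_distrib, mul_sum]
    refine le_trans (abs_sum_le_sum_abs _ _) ?_
    apply sum_le_sum
    intro i _
    obtain ⟨δ, hδ, h⟩ := hc i
    rw [h]
    have : x i * y i * (1 + δ) - x i * y i = δ * (x i * y i) := by ring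
    rw [this, abs_mul]
    exact mul_le_mul_of_nonneg_right hδ (abs_nonneg _)
  have hc2 : ∑ i, |c i| ≤ (1 + u) * ∑ i, |x i * y i| := by
    rw [mul_sum]
    apply sum_le_sum
    intro i _
    obtain ⟨δ, hδ, h⟩ := hc i
    rw [h, abs_mul, mul_comm]
    apply mul_le_mul_of_nonneg_right _ (abs_nonneg _)
    refine le_trans (abs_add_le _ _) ?_
    rw [abs_one]; linarith
  have hS0 : 0 ≤ ∑ i, |x i * y i| := sum_nonneg fun _ _ => abs_nonneg _
  have hg : 0 ≤ (1 + u) ^ (n - 1) - 1 := by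
    have : (1 : ℝ) ≤ (1 + u) ^ (n - 1) := one_le_pow₀ (by linarith)
    linarith
  have e2 := mul_le_mul_of_nonneg_left hc2 hg
  have e3 : (1 + u) ^ n = (1 + u) ^ (n - 1) * (1 + u) := by
    rw [← pow_succ]; congr 1; omega
  have e4 := pow_le_one_add hu hn
  have t1 := abs_sub_le s (∑ i, c i) (∑ i, x i * y i)
  have e5 : ((1 + u) ^ (n - 1) - 1) * ((1 + u) * ∑ i, |x i * y i|) + u * ∑ i, |x i * y i|
      = ((1 + u) ^ n - 1) * ∑ i, |x i * y i| := by rw [e3]; ring
  have e6 : ((1 + u) ^ n - 1) * ∑ i, |x i * y i| ≤ (2 * n * u) * ∑ i, |x i * y i| :=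
    mul_le_mul_of_nonneg_right (by linarith) hS0
  linarith

theorem nrm_sq_sum {n : ℕ} (v : Fin n → ℝ) : nrm v ^ 2 = ∑ i, v i ^ 2 := by
  unfold nrm
  rw [EuclideanSpace.norm_sq_eq]
  simp

theorem sum_abs_mul_le {n : ℕ} (x y : Fin n → ℝ) : ∑ i, |x i * y i| ≤ nrm x * nrm y := by
  have h := Finset.sum_mul_sq_le_sq_mul_sq univ (fun i => |x i|) (fun i => |y i|)
  have h1 : (∑ i, |x i * y i|) ^ 2 ≤ (nrm x * nrm y) ^ 2 := by
    rw [mul_pow, nrm_sq_sum, nrm_sq_sum]
    simpa [abs_mul, sq_abs] using h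
  exact le_of_sq_le_sq h1 (mul_nonneg (nrm_nonneg _) (nrm_nonneg _))

theorem FlDot.error' {n : ℕ} {u : ℝ} (hu : 0 ≤ u) (hn : 2 * n * u ≤ 1) {x y : Fin n → ℝ} {s : ℝ}
    (h : FlDot u x y s) : |s - ∑ i, x i * y i| ≤ 2 * n * u * (nrm x * nrm y) := by
  refine le_trans (h.error hu hn) ?_
  exact mul_le_mul_of_nonneg_left (sum_abs_mul_le x y) (by positivity)

theorem nrm_le_of_abs_le {n : ℕ} {v : Fin n → ℝ} {M : ℝ} (hM : 0 ≤ M) (h : ∀ i, |v i| ≤ M) :
    nrm v ≤ n * M := by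
  have h1 : nrm v ^ 2 ≤ (n * M) ^ 2 := by
    rw [nrm_sq_sum]
    have h2 : ∑ i, v i ^ 2 ≤ ∑ _i : Fin n, M ^ 2 := by
      apply sum_le_sum
      intro i _
      rw [← sq_abs]
      exact pow_le_pow_left₀ (abs_nonneg _) (h i) 2
    rw [sum_const, card_univ, Fintype.card_fin, nsmul_eq_mul] at h2
    refine le_trans h2 ?_
    rw [mul_pow]
    apply mul_le_mul_of_nonneg_right _ (by positivity)
    rcases Nat.eq_zero_or_pos n with h0 | h0
    · subst h0; simp
    · have : (1 : ℝ) ≤ n := by exact_mod_cast h0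
      nlinarith
  exact le_of_sq_le_sq h1 (by positivity)

/-- the norm of a vector whose entries are bounded by a combination of two others -/
theorem nrm_le_comb {n : ℕ} {v y z : Fin n → ℝ} {a b : ℝ} (ha : 0 ≤ a) (hb : 0 ≤ b)
    (h : ∀ i, |v i| ≤ a * |y i| + b * |z i|) : nrm v ≤ a * nrm y + b * nrm z := by
  have h1 : nrm v ≤ nrm (fun i => a * |y i| + b * |z i|) := by
    have : nrm v ^ 2 ≤ nrm (fun i => a * |y i| + b * |z i|) ^ 2 := by
      rw [nrm_sq_sum, nrm_sq_sum]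
      apply sum_le_sum
      intro i _
      rw [← sq_abs (v i)]
      exact pow_le_pow_left₀ (abs_nonneg _) (h i) 2
    exact le_of_sq_le_sq this (nrm_nonneg _)
  refine le_trans h1 ?_
  have h2 : nrm (fun i => a * |y i| + b * |z i|) ≤ nrm (fun i => a * |y i|) + nrm (fun i => b * |z i|) := by
    unfold nrm
    have : (WithLp.toLp 2 (fun i => a * |y i| + b * |z i|) : EuclideanSpace ℝ (Fin n)) =
        WithLp.toLp 2 (fun i => a * |y i|) + WithLp.toLp 2 (fun i => b * |z i|) := rfl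
    rw [this]
    exact norm_add_le _ _
  have h3 : ∀ (c : ℝ) (w : Fin n → ℝ), 0 ≤ c → nrm (fun i => c * |w i|) = c * nrm w := by
    intro c w hc
    have : nrm (fun i => c * |w i|) ^ 2 = (c * nrm w) ^ 2 := by
      rw [nrm_sq_sum, mul_pow, nrm_sq_sum, mul_sum]
      apply sum_congr rfl
      intro i _
      rw [mul_pow, sq_abs]
    exact (sq_eq_sq₀ (nrm_nonneg _) (mul_nonneg hc (nrm_nonneg _))).mp this
  rw [h3 a y ha, h3 b z hb] at h2
  exact h2

theorem FlAddMul.error {n : ℕ} {u : ℝ} (hu : 0 ≤ u) (hu1 : u ≤ 1) {z : Fin n → ℝ} {a : ℝ}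
    {y w : Fin n → ℝ} (h : FlAddMul u z a y w) :
    nrm (w - (z + a • y)) ≤ 3 * u * (nrm z + |a| * nrm y) := by
  have h1 : nrm (w - (z + a • y)) ≤ u * nrm z + (3 * u * |a|) * nrm y := by
    apply nrm_le_comb hu (by positivity)
    intro i
    obtain ⟨c, ⟨δ, hδ, hc⟩, ⟨δ', hδ', hw⟩⟩ := h i
    have e1 : (w - (z + a • y)) i = δ' * z i + (a * y i) * (δ + δ' + δ * δ') := by
      simp only [Pi.sub_apply, Pi.add_apply, Pi.smul_apply, smul_eq_mul]
      rw [hw, hc]; ring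
    rw [e1]
    refine le_trans (abs_add_le _ _) ?_
    rw [abs_mul, abs_mul, abs_mul a]
    have e2 : |δ + δ' + δ * δ'| ≤ 3 * u := by
      have t1 := abs_add_le (δ + δ') (δ * δ')
      have t2 := abs_add_le δ δ'
      have t3 : |δ * δ'| ≤ u * 1 := by
        rw [abs_mul]; exact mul_le_mul hδ (le_trans hδ' hu1) (abs_nonneg _) hu
      linarith
    have e3 := mul_le_mul_of_nonneg_right hδ' (abs_nonneg (z i))
    have e4 := mul_le_mul_of_nonneg_left e2 (mul_nonneg (abs_nonneg a) (abs_nonneg (y i)))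
    linarith
  have := nrm_nonneg z
  nlinarith

theorem FlSubMul.error {n : ℕ} {u : ℝ} (hu : 0 ≤ u) (hu1 : u ≤ 1) {z : Fin n → ℝ} {a : ℝ}
    {y w : Fin n → ℝ} (h : FlSubMul u z a y w) :
    nrm (w - (z - a • y)) ≤ u * nrm z + 3 * u * (|a| * nrm y) := by
  have h1 : nrm (w - (z - a • y)) ≤ u * nrm z + (3 * u * |a|) * nrm y := by
    apply nrm_le_comb hu (by positivity)
    intro i
    obtain ⟨c, ⟨δ, hδ, hc⟩, ⟨δ', hδ', hw⟩⟩ := h i
    have e1 : (w - (z - a • y)) i = δ' * z i + -((a * y i) * (δ + δ' + δ * δ')) := by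
      simp only [Pi.sub_apply, Pi.smul_apply, smul_eq_mul]
      rw [hw, hc]; ring
    rw [e1]
    refine le_trans (abs_add_le _ _) ?_
    rw [abs_neg, abs_mul, abs_mul, abs_mul a]
    have e2 : |δ + δ' + δ * δ'| ≤ 3 * u := by
      have t1 := abs_add_le (δ + δ') (δ * δ')
      have t2 := abs_add_le δ δ'
      have t3 : |δ * δ'| ≤ u * 1 := by
        rw [abs_mul]; exact mul_le_mul hδ (le_trans hδ' hu1) (abs_nonneg _) hu
      linarith
    have e3 := mul_le_mul_of_nonneg_right hδ' (abs_nonneg (z i))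
    have e4 := mul_le_mul_of_nonneg_left e2 (mul_nonneg (abs_nonneg a) (abs_nonneg (y i)))
    linarith
  linarith

end Pool.Agent.Lib.MP_02bbae_an
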