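import Mathlib

/-!
# Perturbed conjugate gradients: one step
-/

set_option autoImplicit false

open scoped InnerProductSpace RealInnerProductSpace

namespace Pool.Agent.Lib.MP_02bbae_an


variable {E : Type*} [NormedAddCommGroup E] [InnerProductSpace ℝ E]

/-- symmetric positive semidefinite operators of norm at most one -/
structure GoodOp (T : E →ₗ[ℝ] E) : Prop where
  sym : ∀ u v, ⟪T u, v⟫_ℝ = ⟪u, T v⟫_ℝ
  pos : ∀ v, 0 ≤ ⟪v, T v⟫_ℝ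
  bd : ∀ v, ‖T v‖ ≤ ‖v‖

/-- abstract perturbed conjugate gradient recurrences -/
structure PCG (T : E →ₗ[ℝ] E) (γ : ℝ) (m : ℕ) (b : E) (x r p : ℕ → E) (α β σ : ℕ → ℝ) :
    Prop where
  x0 : x 0 = 0
  r0 : r 0 = b
  p0 : p 0 = b
  hx : ∀ k < m, ‖x (k + 1) - (x k + α k • p k)‖ ≤ γ * (‖x k‖ + |α k| * ‖p k‖)
  hr : ∀ k < m, ‖r (k + 1) - (r k - α k • T (p k))‖ ≤ γ * (‖r k‖ + |α k| * ‖p k‖)
  hp : ∀ k < m, ‖p (k + 1) - (r (k + 1) + β k • p k)‖ ≤ γ * (‖r (k + 1)‖ + |β k| * ‖p k‖)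
  hσ : ∀ k < m, |σ k - ⟪p k, T (p k)⟫_ℝ| ≤ γ * ‖p k‖ ^ 2
  hα : ∀ k < m, |α k * σ k - ‖r k‖ ^ 2| ≤ γ * ‖r k‖ ^ 2
  hβ : ∀ k < m, |β k * ‖r k‖ ^ 2 - ‖r (k + 1)‖ ^ 2| ≤ γ * ‖r (k + 1)‖ ^ 2

/-- fewer steps -/
theorem PCG.mono {T : E →ₗ[ℝ] E} {γ : ℝ} {m k : ℕ} {b : E} {x r p : ℕ → E} {α β σ : ℕ → ℝ}
    (H : PCG T γ m b x r p α β σ) (hk : k ≤ m) : PCG T γ k b x r p α β σ :=
  ⟨H.x0, H.r0, H.p0, fun j hj => H.hx j (hj.trans_le hk), fun j hj => H.hr j (hj.trans_le hk),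
    fun j hj => H.hp j (hj.trans_le hk), fun j hj => H.hσ j (hj.trans_le hk),
    fun j hj => H.hα j (hj.trans_le hk), fun j hj => H.hβ j (hj.trans_le hk)⟩

/-- parameters -/
structure Par (ε L γ : ℝ) (m : ℕ) : Prop where
  hε : 0 < ε
  hε1 : ε ≤ 1
  hL : L * ε ^ 2 = 5
  hγ0 : 0 ≤ γ
  hm : 1 ≤ m
  hG : 1000 * L ^ 6 * (m : ℝ) ^ 2 * γ ≤ ε

namespace Par

variable {ε L γ : ℝ} {m : ℕ} (h : Par ε L γ m)
include h

theorem Lpos : 0 < L := by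
  by_contra hc
  push Not at hc
  have h1 := h.hL
  have h2 : 0 < ε ^ 2 := by have := h.hε; positivity
  nlinarith

theorem L5 : 5 ≤ L := by
  have h1 := h.hL
  have h2 : ε ^ 2 ≤ 1 := by
    have := h.hε; have := h.hε1; nlinarith
  nlinarith [h.Lpos]

theorem Lε5 : 5 ≤ L * ε := by
  have h2 : ε ^ 2 ≤ ε := by
    have := h.hε; have := h.hε1; nlinarith
  have := mul_le_mul_of_nonneg_left h2 h.Lpos.le
  rw [h.hL] at this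
  exact this

theorem small {c : ℝ} (hc : c ≤ L ^ 6 * (m : ℝ) ^ 2) : c * γ ≤ ε / 1000 := by
  have := mul_le_mul_of_nonneg_right hc h.hγ0
  have := h.hG
  linarith

theorem m1 : (1 : ℝ) ≤ m := by exact_mod_cast h.hm

theorem L1 : (1 : ℝ) ≤ L := by linarith [h.L5]

theorem bd (a : ℕ) (ha : a ≤ 6) {k : ℝ} (hk : k ≤ m) (hk0 : 0 ≤ k) :
    L ^ a * k * γ ≤ ε / 1000 := by
  apply h.small
  have h1 : L ^ a ≤ L ^ 6 := pow_le_pow_right₀ h.L1 ha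
  have h2 : k ≤ (m : ℝ) ^ 2 := by nlinarith [h.m1]
  have h3 : 0 ≤ L ^ a := pow_nonneg h.Lpos.le _
  exact mul_le_mul h1 h2 hk0 (pow_nonneg h.Lpos.le _)

theorem bd1 (a : ℕ) (ha : a ≤ 6) : L ^ a * γ ≤ ε / 1000 := by
  have := h.bd a ha (k := 1) h.m1 zero_le_one
  linarith

theorem γε : γ ≤ ε ^ 2 / 1000 := by
  have h1 := h.bd1 1 (by norm_num)
  have h2 := h.hL
  have h3 := h.hε
  have h4 : ε ^ 2 * (L ^ 1 * γ) ≤ ε ^ 2 * (ε / 1000) := mul_le_mul_of_nonneg_left h1 (by positivity)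
  have h5 : ε ^ 2 * (L ^ 1 * γ) = 5 * γ := by rw [← h2]; ring
  have h6 : ε ^ 2 * (ε / 1000) ≤ ε ^ 2 * (1 / 1000) := by
    apply mul_le_mul_of_nonneg_left _ (by positivity)
    linarith [h.hε1]
  have := h.hγ0
  linarith

end Par



/-- real arithmetic: bound for the step length -/
theorem y_bound {ε L γ R P X y e ρ ρ' X' tp ip σ a : ℝ}
    (hε : 0 < ε) (hε1 : ε ≤ 1) (hL : L * ε ^ 2 = 5) (hγ : γ ≤ ε ^ 2 / 1000)
    (hR : 0 < R) (hP : 99 / 100 * R ≤ P) (hX : 0 ≤ X)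
    (hρ : ε * (X + 1) < ρ) (hρR : ρ ≤ 51 / 50 * R)
    (hy : y = |a| * P)
    (he : e ≤ γ * (X + y)) (he0 : 0 ≤ e)
    (hρ' : ρ' ≤ ρ + |a| * tp + e) (hX' : y - X - e ≤ X') (hf : ε * (X' + 1) < ρ')
    (htp : tp ^ 2 ≤ ip)
    (hσ : |σ - ip| ≤ γ * P ^ 2) (ha : |a * σ - R ^ 2| ≤ γ * R ^ 2) :
    y ≤ L * R := by
  have hP0 : 0 < P := by linarith
  have hy0 : 0 ≤ y := by rw [hy]; positivity
  have hεsq : ε ^ 2 ≤ ε := by nlinarith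
  have hγ1 : γ ≤ ε / 1000 := by linarith
  have hγ2 : γ ≤ 1 / 1000 := by linarith
  by_cases hc : tp ≤ ε / 2 * P
  · have h1 : |a| * tp ≤ ε / 2 * y := by
      have := mul_le_mul_of_nonneg_left hc (abs_nonneg a)
      rw [hy]; linarith
    have h2 : ε * (y - X - e + 1) ≤ ε * (X' + 1) := by
      apply mul_le_mul_of_nonneg_left _ hε.le; linarith
    have h3 : ε * e ≤ 1 * e := mul_le_mul_of_nonneg_right hε1 he0
    have h4 : γ * X ≤ ε / 1000 * X := mul_le_mul_of_nonneg_right hγ1 hX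
    have h5 : γ * y ≤ ε / 1000 * y := mul_le_mul_of_nonneg_right hγ1 hy0
    have h6 : ε * y ≤ 5 * R := by linarith
    have h8 : 5 ≤ ε * L := by
      have h0 : 0 ≤ L := by
        by_contra h; push Not at h
        have : L * ε ^ 2 < 0 := mul_neg_of_neg_of_pos h (by positivity)
        linarith
      calc (5 : ℝ) = L * ε ^ 2 := hL.symm
        _ ≤ L * ε := mul_le_mul_of_nonneg_left hεsq h0
        _ = ε * L := by ring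
    have h9 : 5 * R ≤ (ε * L) * R := mul_le_mul_of_nonneg_right h8 hR.le
    have h7 : ε * y ≤ ε * (L * R) := by linarith
    exact le_of_mul_le_mul_left h7 hε
  · push Not at hc
    have h1 : (ε / 2 * P) ^ 2 ≤ ip := by
      refine le_trans ?_ htp
      apply pow_le_pow_left₀ (by positivity) hc.le
    have h1' : γ * P ^ 2 ≤ ε ^ 2 / 1000 * P ^ 2 := mul_le_mul_of_nonneg_right hγ (by positivity)
    have h2 : ε ^ 2 * (249 / 1000) * P ^ 2 ≤ σ := by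
      have := (abs_le.mp hσ).1
      nlinarith only [this, h1, h1']
    have hσ0 : 0 < σ := lt_of_lt_of_le (by positivity) h2
    have hR2 : 0 ≤ R ^ 2 := by positivity
    have h0 : γ * R ^ 2 ≤ 1 / 1000 * R ^ 2 := mul_le_mul_of_nonneg_right hγ2 hR2
    have h3 : |a| * σ ≤ 1001 / 1000 * R ^ 2 := by
      have h4 : a * σ ≤ 1001 / 1000 * R ^ 2 := by linarith [(abs_le.mp ha).2]
      have h5 : 0 ≤ a * σ := by
        have := (abs_le.mp ha).1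
        linarith
      have h6 : |a * σ| = a * σ := abs_of_nonneg h5
      rw [abs_mul, abs_of_pos hσ0] at h6
      linarith
    have h7 : |a| * (ε ^ 2 * (249 / 1000) * P ^ 2) ≤ 1001 / 1000 * R ^ 2 :=
      le_trans (mul_le_mul_of_nonneg_left h2 (abs_nonneg a)) h3
    have h8 : y * P * ε ^ 2 * (249 / 1000) ≤ (1001 / 1000) * R ^ 2 := by
      have : y * P * ε ^ 2 * (249 / 1000) = |a| * (ε ^ 2 * (249 / 1000) * P ^ 2) := by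
        rw [hy]; ring
      rw [this]; exact h7
    have h9 : y * (99 / 100 * R) * ε ^ 2 * (249 / 1000) ≤ (1001 / 1000) * R ^ 2 := by
      refine le_trans ?_ h8
      have h12 : 0 ≤ y * ε ^ 2 * (249 / 1000) := by positivity
      have := mul_le_mul_of_nonneg_left hP h12
      linarith
    have h10 : (y * ε ^ 2) * R ≤ (5 * R) * R := by nlinarith only [h9, hR2]
    have h11 : y * ε ^ 2 ≤ 5 * R := le_of_mul_le_mul_right h10 hR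
    have h12 : y * ε ^ 2 ≤ (L * R) * ε ^ 2 := by
      have : (L * R) * ε ^ 2 = 5 * R := by rw [← hL]; ring
      linarith
    exact le_of_mul_le_mul_right h12 (by positivity)





theorem GoodOp.sq_le {T : E →ₗ[ℝ] E} (hT : GoodOp T) (v : E) : ‖T v‖ ^ 2 ≤ ⟪v, T v⟫_ℝ := by
  have h := hT.pos (v - T v)
  have h1 : ⟪v - T v, T (v - T v)⟫_ℝ =
      ⟪v, T v⟫_ℝ - 2 * ‖T v‖ ^ 2 + ⟪T v, T (T v)⟫_ℝ := by
    rw [map_sub, inner_sub_left, inner_sub_right, inner_sub_right, ← hT.sym v (T v),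
      real_inner_self_eq_norm_sq]
    ring
  have h2 : ⟪T v, T (T v)⟫_ℝ ≤ ‖T v‖ ^ 2 := by
    refine le_trans (real_inner_le_norm _ _) ?_
    have := hT.bd (T v)
    nlinarith [norm_nonneg (T v)]
  linarith

theorem GoodOp.inner_le {T : E →ₗ[ℝ] E} (hT : GoodOp T) (v : E) : ⟪v, T v⟫_ℝ ≤ ‖v‖ ^ 2 := by
  refine le_trans (real_inner_le_norm _ _) ?_
  have := hT.bd v
  nlinarith [norm_nonneg v]

/-- real arithmetic: the step length is at least `19/20` -/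
theorem a_lower {L γ R P ip σ a : ℝ}
    (hL : 1 ≤ L) (hγ0 : 0 ≤ γ) (hγ : γ ≤ 1 / 1000) (h3 : L ^ 3 * γ ≤ 1 / 1000)
    (h4 : L ^ 4 * γ ≤ 1 / 1000)
    (hR : 0 < R) (hP0 : 0 ≤ P) (hP : P ≤ 3 / 2 * L ^ 2 * R) (hy : |a| * P ≤ L * R)
    (hip0 : 0 ≤ ip) (hip : ip ≤ 101 / 100 * R ^ 2)
    (hσ : |σ - ip| ≤ γ * P ^ 2) (ha : |a * σ - R ^ 2| ≤ γ * R ^ 2) :
    0 < σ ∧ 19 / 20 ≤ a := by
  have hR2 : 0 < R ^ 2 := by positivity
  obtain ⟨hσ1, hσ2⟩ := abs_le.mp hσ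
  obtain ⟨ha1, ha2⟩ := abs_le.mp ha
  have hγR : γ * R ^ 2 ≤ 1 / 1000 * R ^ 2 := mul_le_mul_of_nonneg_right hγ hR2.le
  have hσpos : 0 < σ := by
    by_contra hc
    push Not at hc
    have h1 : |a| * |σ| = |a * σ| := (abs_mul a σ).symm
    have h2 : |a * σ| = a * σ := abs_of_nonneg (by linarith)
    have h5 : |σ| ≤ γ * P ^ 2 := by
      rw [abs_of_nonpos hc]; linarith
    have h6 : |a| * |σ| ≤ |a| * (γ * P ^ 2) := mul_le_mul_of_nonneg_left h5 (abs_nonneg a)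
    have h7 : |a| * (γ * P ^ 2) = γ * (|a| * P) * P := by ring
    have h8 : γ * (|a| * P) * P ≤ γ * (L * R) * (3 / 2 * L ^ 2 * R) := by
      apply mul_le_mul (mul_le_mul_of_nonneg_left hy hγ0) hP hP0 (by positivity)
    have h9 : γ * (L * R) * (3 / 2 * L ^ 2 * R) = 3 / 2 * (L ^ 3 * γ) * R ^ 2 := by ring
    have h10 : 3 / 2 * (L ^ 3 * γ) * R ^ 2 ≤ 3 / 2 * (1 / 1000) * R ^ 2 := by
      apply mul_le_mul_of_nonneg_right _ hR2.le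
      linarith
    linarith
  refine ⟨hσpos, ?_⟩
  by_contra hc
  push Not at hc
  have h1 : P ^ 2 ≤ (3 / 2 * L ^ 2 * R) ^ 2 := pow_le_pow_left₀ hP0 hP 2
  have h2 : γ * P ^ 2 ≤ γ * (3 / 2 * L ^ 2 * R) ^ 2 := mul_le_mul_of_nonneg_left h1 hγ0
  have h5 : γ * (3 / 2 * L ^ 2 * R) ^ 2 = 9 / 4 * (L ^ 4 * γ) * R ^ 2 := by ring
  have h6 : 9 / 4 * (L ^ 4 * γ) * R ^ 2 ≤ 9 / 4 * (1 / 1000) * R ^ 2 := by
    apply mul_le_mul_of_nonneg_right _ hR2.le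
    linarith
  have h7 : σ ≤ 102 / 100 * R ^ 2 := by linarith
  have h8 : a * σ ≤ 19 / 20 * σ := mul_le_mul_of_nonneg_right hc.le hσpos.le
  linarith

/-- upper bounds for the energy of the new direction and of the scaled old direction -/
theorem energy_bound {T : E →ₗ[ℝ] E} (hT : GoodOp T) {p p' r' : E} {β L γ μ R R' : ℝ}
    (hγ : γ ≤ 1 / 1000) (h2 : L ^ 2 * γ ≤ 1 / 1000)
    (hμ : μ ≤ 1 / 1000) (hR' : ‖r'‖ = R') 
    (hep : ‖p' - (r' + β • p)‖ ≤ 3 / 2 * L ^ 2 * γ * R')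
    (hmu : |⟪p', T p⟫_ℝ| ≤ μ * R ^ 2) (hβ : |β| * R ^ 2 ≤ (1 + γ) * R' ^ 2) :
    ⟪p', T p'⟫_ℝ ≤ 101 / 100 * R' ^ 2 ∧ β ^ 2 * ⟪p, T p⟫_ℝ ≤ 101 / 100 * R' ^ 2 := by
  have hR'0 : 0 ≤ R' := by rw [← hR']; exact norm_nonneg _
  have hR2 : 0 ≤ R' ^ 2 := by positivity
  set v := p' - β • p with hv
  have hv1 : ‖v‖ ≤ (1 + 3 / 2 * (1 / 1000)) * R' := by
    have : v = (p' - (r' + β • p)) + r' := by rw [hv]; abel
    rw [this]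
    refine le_trans (norm_add_le _ _) ?_
    rw [hR']
    have h5 : 3 / 2 * L ^ 2 * γ * R' ≤ 3 / 2 * (1 / 1000) * R' := by
      apply mul_le_mul_of_nonneg_right _ hR'0
      linarith
    linarith
  have hv2 : ⟪v, T v⟫_ℝ ≤ 1004 / 1000 * R' ^ 2 := by
    refine le_trans (hT.inner_le v) ?_
    have := pow_le_pow_left₀ (norm_nonneg v) hv1 2
    nlinarith
  have hexp : ⟪v, T v⟫_ℝ = ⟪p', T p'⟫_ℝ - 2 * β * ⟪p', T p⟫_ℝ + β ^ 2 * ⟪p, T p⟫_ℝ := by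
    rw [hv, map_sub, map_smul, inner_sub_left, inner_sub_right, inner_sub_right, inner_smul_left,
      inner_smul_right, inner_smul_left, inner_smul_right, ← hT.sym p p', real_inner_comm p' (T p)]
    simp
    ring
  have hcross : |β * ⟪p', T p⟫_ℝ| ≤ 2 / 1000 * R' ^ 2 := by
    rw [abs_mul]
    have h5 : |β| * |⟪p', T p⟫_ℝ| ≤ |β| * (μ * R ^ 2) := mul_le_mul_of_nonneg_left hmu (abs_nonneg _)
    have h6 : |β| * (μ * R ^ 2) ≤ |β| * (1 / 1000 * R ^ 2) := by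
      apply mul_le_mul_of_nonneg_left _ (abs_nonneg _)
      exact mul_le_mul_of_nonneg_right hμ (by positivity)
    have h7 : |β| * (1 / 1000 * R ^ 2) = 1 / 1000 * (|β| * R ^ 2) := by ring
    have h8 : (1 + γ) * R' ^ 2 ≤ 2 * R' ^ 2 := by
      apply mul_le_mul_of_nonneg_right _ hR2
      linarith
    linarith
  obtain ⟨hc1, hc2⟩ := abs_le.mp hcross
  have hp1 := hT.pos p'
  have hp2 : 0 ≤ β ^ 2 * ⟪p, T p⟫_ℝ := mul_nonneg (sq_nonneg _) (hT.pos p)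
  constructor <;> nlinarith





theorem step_norms {T : E →ₗ[ℝ] E} (hT : GoodOp T) {r p r' p' : E} {a β γ L : ℝ}
    (hγ0 : 0 ≤ γ) (hγ : γ ≤ 1 / 1000) (hL : 5 ≤ L) (h2 : L ^ 2 * γ ≤ 1 / 1000)
    (hr0 : 0 < ‖r‖)
    (her : ‖r' - (r - a • T p)‖ ≤ γ * (‖r‖ + |a| * ‖p‖))
    (hep : ‖p' - (r' + β • p)‖ ≤ γ * (‖r'‖ + |β| * ‖p‖))
    (hβ : |β * ‖r‖ ^ 2 - ‖r'‖ ^ 2| ≤ γ * ‖r'‖ ^ 2)
    (hy : |a| * ‖p‖ ≤ L * ‖r‖) (hP : ‖p‖ ≤ 11 / 10 * L * ‖r‖) :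
    ‖r'‖ ≤ 5 / 4 * L * ‖r‖ ∧ |β| * ‖r‖ ^ 2 ≤ (1 + γ) * ‖r'‖ ^ 2 ∧
    |β| * ‖p‖ ≤ 7 / 5 * L ^ 2 * ‖r'‖ ∧ ‖p' - (r' + β • p)‖ ≤ 3 / 2 * L ^ 2 * γ * ‖r'‖ ∧
    ‖p'‖ ≤ 3 / 2 * L ^ 2 * ‖r'‖ := by
  set R := ‖r‖ with hR
  set P := ‖p‖ with hPd
  set R' := ‖r'‖ with hR'
  have hR'0 : 0 ≤ R' := norm_nonneg _
  have hP0 : 0 ≤ P := norm_nonneg _
  have h1 : R' ≤ 5 / 4 * L * R := by
    have e1 : r' = (r' - (r - a • T p)) + (r - a • T p) := by abel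
    have e2 : ‖r - a • T p‖ ≤ R + |a| * P := by
      refine le_trans (norm_sub_le _ _) ?_
      rw [norm_smul, Real.norm_eq_abs]
      have := mul_le_mul_of_nonneg_left (hT.bd p) (abs_nonneg a)
      linarith
    have e3 : R' ≤ γ * (R + |a| * P) + (R + |a| * P) := by
      have : R' ≤ ‖r' - (r - a • T p)‖ + ‖r - a • T p‖ := by
        conv_lhs => rw [hR', e1]
        exact norm_add_le _ _
      linarith
    have e4 : R + |a| * P ≤ 6 / 5 * L * R := by nlinarith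
    have e5 : γ * (R + |a| * P) ≤ 1 / 1000 * (6 / 5 * L * R) := by
      apply mul_le_mul hγ e4 (by positivity) (by norm_num)
    have : 0 ≤ L * R := by positivity
    nlinarith
  have hb : |β| * R ^ 2 ≤ (1 + γ) * R' ^ 2 := by
    have h3 : |β| * R ^ 2 = |β * R ^ 2| := by
      rw [abs_mul, abs_of_nonneg (by positivity : (0 : ℝ) ≤ R ^ 2)]
    rw [h3]
    obtain ⟨h4, h5⟩ := abs_le.mp hβ
    have : 0 ≤ R' ^ 2 := by positivity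
    rw [abs_le]
    constructor
    · have : γ * R' ^ 2 ≤ 1 / 1000 * R' ^ 2 := mul_le_mul_of_nonneg_right hγ this
      nlinarith
    · linarith
  have hbP : |β| * P ≤ 7 / 5 * L ^ 2 * R' := by
    have e1 : |β| * P ≤ |β| * (11 / 10 * L * R) := mul_le_mul_of_nonneg_left hP (abs_nonneg _)
    have e2 : (|β| * (11 / 10 * L * R)) * R = 11 / 10 * L * (|β| * R ^ 2) := by ring
    have e3 : 11 / 10 * L * (|β| * R ^ 2) ≤ 11 / 10 * L * ((1 + γ) * R' ^ 2) :=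
      mul_le_mul_of_nonneg_left hb (by positivity)
    have e4 : 11 / 10 * L * ((1 + γ) * R' ^ 2) ≤ 11 / 10 * L * ((1001 / 1000) * (R' * (5 / 4 * L * R))) := by
      apply mul_le_mul_of_nonneg_left _ (by positivity)
      apply mul_le_mul (by linarith) _ (by positivity) (by norm_num)
      rw [pow_two]
      exact mul_le_mul_of_nonneg_left h1 hR'0
    have e5 : (|β| * (11 / 10 * L * R)) * R ≤ (7 / 5 * L ^ 2 * R') * R := by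
      have : 0 ≤ L ^ 2 * R' * R := by positivity
      nlinarith
    exact le_trans e1 (le_of_mul_le_mul_right e5 hr0)
  have hL2 : 25 ≤ L ^ 2 := by nlinarith
  have hepb : ‖p' - (r' + β • p)‖ ≤ 3 / 2 * L ^ 2 * γ * R' := by
    refine le_trans hep ?_
    have e1 : R' + |β| * P ≤ 3 / 2 * L ^ 2 * R' := by
      have : 25 * R' ≤ L ^ 2 * R' := mul_le_mul_of_nonneg_right hL2 hR'0
      linarith
    have e2 := mul_le_mul_of_nonneg_left e1 hγ0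
    linarith
  refine ⟨h1, hb, hbP, hepb, ?_⟩
  have e1 : p' = (p' - (r' + β • p)) + (r' + β • p) := by abel
  have e2 : ‖r' + β • p‖ ≤ R' + |β| * P := by
    refine le_trans (norm_add_le _ _) ?_
    rw [norm_smul, Real.norm_eq_abs]
  have e3 : ‖p'‖ ≤ ‖p' - (r' + β • p)‖ + ‖r' + β • p‖ := by
    conv_lhs => rw [e1]
    exact norm_add_le _ _
  have e4 : 3 / 2 * L ^ 2 * γ * R' ≤ 3 / 2 * (1 / 1000) * R' := by
    apply mul_le_mul_of_nonneg_right _ hR'0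
    linarith
  have : 25 * R' ≤ L ^ 2 * R' := mul_le_mul_of_nonneg_right hL2 hR'0
  linarith

/-- The new local orthogonality defect -/
theorem nu_bound {T : E →ₗ[ℝ] E} {r p r' : E} {a γ L σ ℓ : ℝ}
    (hγ0 : 0 ≤ γ) (hL : 5 ≤ L)
    (her : ‖r' - (r - a • T p)‖ ≤ γ * (‖r‖ + |a| * ‖p‖))
    (hσ : |σ - ⟪p, T p⟫_ℝ| ≤ γ * ‖p‖ ^ 2) (ha : |a * σ - ‖r‖ ^ 2| ≤ γ * ‖r‖ ^ 2)
    (hy : |a| * ‖p‖ ≤ L * ‖r‖) (hP : ‖p‖ ≤ 11 / 10 * L * ‖r‖)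
    (hip : |⟪r, p⟫_ℝ - ‖r‖ ^ 2| ≤ ℓ * ‖r‖ ^ 2) :
    |⟪r', p⟫_ℝ| ≤ (ℓ + 5 / 2 * L ^ 2 * γ) * ‖r‖ ^ 2 := by
  set R := ‖r‖ with hR
  set P := ‖p‖ with hPd
  have hR0 : 0 ≤ R := norm_nonneg _
  have hP0 : 0 ≤ P := norm_nonneg _
  set e := r' - (r - a • T p) with he
  have h1 : ⟪r', p⟫_ℝ = (⟪r, p⟫_ℝ - R ^ 2) - (a * σ - R ^ 2) + a * (σ - ⟪p, T p⟫_ℝ) + ⟪e, p⟫_ℝ := by
    have : r' = r - a • T p + e := by rw [he]; abel
    rw [this, inner_add_left, inner_sub_left, inner_smul_left, real_inner_comm p (T p)]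
    simp
    ring
  have h2 : |a * (σ - ⟪p, T p⟫_ℝ)| ≤ γ * (L * R) * (11 / 10 * L * R) := by
    rw [abs_mul]
    calc |a| * |σ - ⟪p, T p⟫_ℝ| ≤ |a| * (γ * P ^ 2) := mul_le_mul_of_nonneg_left hσ (abs_nonneg _)
      _ = γ * (|a| * P) * P := by ring
      _ ≤ γ * (L * R) * (11 / 10 * L * R) := by
        apply mul_le_mul (mul_le_mul_of_nonneg_left hy hγ0) hP hP0 (by positivity)
  have h3 : |⟪e, p⟫_ℝ| ≤ γ * (6 / 5 * L * R) * (11 / 10 * L * R) := by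
    refine le_trans (abs_real_inner_le_norm _ _) ?_
    have h4 : ‖e‖ ≤ γ * (6 / 5 * L * R) := by
      refine le_trans her ?_
      apply mul_le_mul_of_nonneg_left _ hγ0
      nlinarith
    exact mul_le_mul h4 hP hP0 (by positivity)
  have hg : 0 ≤ γ * R ^ 2 := by positivity
  have hL2 : 25 ≤ L ^ 2 := by nlinarith
  have hL3 : 25 * (γ * R ^ 2) ≤ L ^ 2 * (γ * R ^ 2) := mul_le_mul_of_nonneg_right hL2 hg
  rw [h1, abs_le]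
  obtain ⟨a1, a2⟩ := abs_le.mp hip
  obtain ⟨b1, b2⟩ := abs_le.mp ha
  obtain ⟨c1, c2⟩ := abs_le.mp h2
  obtain ⟨d1, d2⟩ := abs_le.mp h3
  constructor <;> nlinarith





/-- `⟪r', p'⟫` is close to `‖r'‖ ^ 2` -/
theorem ip_update {p r' p' : E} {β γ L R ν : ℝ}
    (hb : |β| * R ^ 2 ≤ (1 + γ) * ‖r'‖ ^ 2) (hν : 0 ≤ ν)
    (hep : ‖p' - (r' + β • p)‖ ≤ 3 / 2 * L ^ 2 * γ * ‖r'‖)
    (hnu : |⟪r', p⟫_ℝ| ≤ ν * R ^ 2) :
    |⟪r', p'⟫_ℝ - ‖r'‖ ^ 2| ≤ ((1 + γ) * ν + 3 / 2 * L ^ 2 * γ) * ‖r'‖ ^ 2 := by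
  set e := p' - (r' + β • p) with he
  have h1 : ⟪r', p'⟫_ℝ - ‖r'‖ ^ 2 = β * ⟪r', p⟫_ℝ + ⟪r', e⟫_ℝ := by
    have : p' = r' + β • p + e := by rw [he]; abel
    rw [this, inner_add_right, inner_add_right, inner_smul_right, real_inner_self_eq_norm_sq]
    ring
  rw [h1]
  refine le_trans (abs_add_le _ _) ?_
  have h2 : |β * ⟪r', p⟫_ℝ| ≤ (1 + γ) * ν * ‖r'‖ ^ 2 := by
    rw [abs_mul]
    calc |β| * |⟪r', p⟫_ℝ| ≤ |β| * (ν * R ^ 2) := mul_le_mul_of_nonneg_left hnu (abs_nonneg _)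
      _ = ν * (|β| * R ^ 2) := by ring
      _ ≤ ν * ((1 + γ) * ‖r'‖ ^ 2) := mul_le_mul_of_nonneg_left hb hν
      _ = _ := by ring
  have h3 : |⟪r', e⟫_ℝ| ≤ 3 / 2 * L ^ 2 * γ * ‖r'‖ ^ 2 := by
    refine le_trans (abs_real_inner_le_norm _ _) ?_
    have := mul_le_mul_of_nonneg_left hep (norm_nonneg r')
    nlinarith
  linarith

/-- `‖p‖ ^ 2 / ‖r‖ ^ 4` grows -/
theorem W_update {p r' p' : E} {β γ L R ν w c : ℝ}
    (hγ0 : 0 ≤ γ) (hγ : γ ≤ 1 / 1000) (hL : 5 ≤ L) 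
    (hr' : 0 < ‖r'‖)
    (hb : |β| * R ^ 2 ≤ (1 + γ) * ‖r'‖ ^ 2)
    (hb2 : (1 - γ) * ‖r'‖ ^ 2 ≤ β * R ^ 2)
    (hbp : |β| * ‖p‖ ≤ 7 / 5 * L ^ 2 * ‖r'‖)
    (hep : ‖p' - (r' + β • p)‖ ≤ 3 / 2 * L ^ 2 * γ * ‖r'‖)
    (hν : 0 ≤ ν)
    (hnu : |⟪r', p⟫_ℝ| ≤ ν * R ^ 2)
    (hw : 0 ≤ w) (hc : 0 ≤ c)
    (hW : c * w * R ^ 4 ≤ ‖p‖ ^ 2) :
    ((1 - (3 * ν + 5 * L ^ 4 * γ)) * (1 / ‖r'‖ ^ 2) + (1 - 2 * γ) * (c * w)) * ‖r'‖ ^ 4
      ≤ ‖p'‖ ^ 2 := by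
  set R' := ‖r'‖ with hR'
  set P := ‖p‖ with hP
  have hP0 : 0 ≤ P := norm_nonneg _
  set v := r' + β • p with hv
  have hL2 : 25 ≤ L ^ 2 := by nlinarith
  have hvn : ‖v‖ ≤ 3 / 2 * L ^ 2 * R' := by
    refine le_trans (norm_add_le _ _) ?_
    rw [norm_smul, Real.norm_eq_abs]
    have : 25 * R' ≤ L ^ 2 * R' := mul_le_mul_of_nonneg_right hL2 hr'.le
    linarith
  have hv2 : ‖v‖ ^ 2 = R' ^ 2 + 2 * (β * ⟪r', p⟫_ℝ) + β ^ 2 * P ^ 2 := by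
    rw [hv, norm_add_sq_real, inner_smul_right, norm_smul, Real.norm_eq_abs, mul_pow, sq_abs]
  have hcross : |β * ⟪r', p⟫_ℝ| ≤ (1 + γ) * ν * R' ^ 2 := by
    rw [abs_mul]
    calc |β| * |⟪r', p⟫_ℝ| ≤ |β| * (ν * R ^ 2) := mul_le_mul_of_nonneg_left hnu (abs_nonneg _)
      _ = ν * (|β| * R ^ 2) := by ring
      _ ≤ ν * ((1 + γ) * R' ^ 2) := mul_le_mul_of_nonneg_left hb hν
      _ = _ := by ring
  have hp' : ‖v‖ ^ 2 - 2 * ‖v‖ * ‖p' - v‖ ≤ ‖p'‖ ^ 2 := by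
    have h1 : ‖v‖ ≤ ‖p'‖ + ‖p' - v‖ := by
      have : v = p' - (p' - v) := by abel
      conv_lhs => rw [this]
      exact norm_sub_le _ _
    by_cases h2 : ‖v‖ ≤ ‖p' - v‖
    · nlinarith [norm_nonneg v, norm_nonneg p', norm_nonneg (p' - v)]
    · push Not at h2
      have h3 : 0 ≤ ‖v‖ - ‖p' - v‖ := by linarith
      have h4 : (‖v‖ - ‖p' - v‖) ^ 2 ≤ ‖p'‖ ^ 2 := pow_le_pow_left₀ h3 (by linarith) 2
      nlinarith [sq_nonneg ‖p' - v‖]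
  have he : 2 * ‖v‖ * ‖p' - v‖ ≤ 2 * (3 / 2 * L ^ 2 * R') * (3 / 2 * L ^ 2 * γ * R') := by
    apply mul_le_mul _ hep (norm_nonneg _) (by positivity)
    linarith
  have hβP : (1 - 2 * γ) * (c * w) * R' ^ 4 ≤ β ^ 2 * P ^ 2 := by
    have h1 : ((1 - γ) * R' ^ 2) ^ 2 ≤ (β * R ^ 2) ^ 2 := by
      apply pow_le_pow_left₀ _ hb2
      apply mul_nonneg (by linarith) (by positivity)
    have h2 : (c * w) * ((1 - γ) * R' ^ 2) ^ 2 ≤ (c * w) * (β * R ^ 2) ^ 2 :=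
      mul_le_mul_of_nonneg_left h1 (by positivity)
    have h3 : (c * w) * (β * R ^ 2) ^ 2 = β ^ 2 * (c * w * R ^ 4) := by ring
    have h4 : β ^ 2 * (c * w * R ^ 4) ≤ β ^ 2 * P ^ 2 := mul_le_mul_of_nonneg_left hW (sq_nonneg _)
    have h5 : (1 - 2 * γ) * (c * w) * R' ^ 4 ≤ (c * w) * ((1 - γ) * R' ^ 2) ^ 2 := by
      have : 0 ≤ c * w * R' ^ 4 := by positivity
      nlinarith [sq_nonneg γ]
    linarith
  have h6 : ((1 - (3 * ν + 5 * L ^ 4 * γ)) * (1 / R' ^ 2) + (1 - 2 * γ) * (c * w)) * R' ^ 4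
      = (1 - (3 * ν + 5 * L ^ 4 * γ)) * R' ^ 2 + (1 - 2 * γ) * (c * w) * R' ^ 4 := by
    field_simp
  rw [h6]
  obtain ⟨c1, c2⟩ := abs_le.mp hcross
  have h7 : 2 * (3 / 2 * L ^ 2 * R') * (3 / 2 * L ^ 2 * γ * R') = 9 / 2 * L ^ 4 * γ * R' ^ 2 := by ring
  have h8 : γ * ν * R' ^ 2 ≤ 1 / 1000 * ν * R' ^ 2 := by
    apply mul_le_mul_of_nonneg_right _ (by positivity)
    exact mul_le_mul_of_nonneg_right hγ hν
  have h9 : 0 ≤ ν * R' ^ 2 := by positivity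
  have h10 : 0 ≤ L ^ 4 * γ * R' ^ 2 := by positivity
  nlinarith





/-- consecutive residuals are nearly orthogonal -/
theorem rr_bound {T : E →ₗ[ℝ] E} {r p r' : E} {a γ L σ μ : ℝ}
    (hγ0 : 0 ≤ γ) (hL : 5 ≤ L) (ha0 : 0 ≤ a)
    (her : ‖r' - (r - a • T p)‖ ≤ γ * (‖r‖ + |a| * ‖p‖))
    (hσ : |σ - ⟪p, T p⟫_ℝ| ≤ γ * ‖p‖ ^ 2) (ha : |a * σ - ‖r‖ ^ 2| ≤ γ * ‖r‖ ^ 2)
    (hy : |a| * ‖p‖ ≤ L * ‖r‖) (hP : ‖p‖ ≤ 11 / 10 * L * ‖r‖)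
    (hpr : |⟪T p, p - r⟫_ℝ| ≤ (1 + γ) * μ * ‖r‖ ^ 2 + ‖p‖ * (3 / 2 * L ^ 2 * γ * ‖r‖)) :
    |⟪r', r⟫_ℝ| ≤ (9 / 5 * L ^ 3 * γ + a * ((1 + γ) * μ)) * ‖r‖ ^ 2 := by
  set R := ‖r‖ with hR
  set P := ‖p‖ with hPd
  have hR0 : 0 ≤ R := norm_nonneg _
  have hP0 : 0 ≤ P := norm_nonneg _
  rw [abs_of_nonneg ha0] at hy her
  set e := r' - (r - a • T p) with he
  have h1 : ⟪r', r⟫_ℝ = -(a * σ - R ^ 2) + a * (σ - ⟪p, T p⟫_ℝ) + a * ⟪T p, p - r⟫_ℝ + ⟪e, r⟫_ℝ := by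
    have : r' = r - a • T p + e := by rw [he]; abel
    rw [this, inner_add_left, inner_sub_left, inner_smul_left, inner_sub_right,
      real_inner_comm p (T p), real_inner_self_eq_norm_sq]
    simp
    ring
  have h2 : |a * (σ - ⟪p, T p⟫_ℝ)| ≤ γ * (L * R) * (11 / 10 * L * R) := by
    rw [abs_mul, abs_of_nonneg ha0]
    calc a * |σ - ⟪p, T p⟫_ℝ| ≤ a * (γ * P ^ 2) := mul_le_mul_of_nonneg_left hσ ha0
      _ = γ * (a * P) * P := by ring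
      _ ≤ γ * (L * R) * (11 / 10 * L * R) := by
        apply mul_le_mul (mul_le_mul_of_nonneg_left hy hγ0) hP hP0 (by positivity)
  have h3 : |⟪e, r⟫_ℝ| ≤ γ * (6 / 5 * L * R) * R := by
    refine le_trans (abs_real_inner_le_norm _ _) ?_
    have h4 : ‖e‖ ≤ γ * (6 / 5 * L * R) := by
      refine le_trans her ?_
      apply mul_le_mul_of_nonneg_left _ hγ0
      nlinarith
    exact mul_le_mul_of_nonneg_right h4 hR0
  have h5 : |a * ⟪T p, p - r⟫_ℝ| ≤ a * ((1 + γ) * μ) * R ^ 2 + 3 / 2 * L ^ 3 * γ * R ^ 2 := by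
    rw [abs_mul, abs_of_nonneg ha0]
    have h6 := mul_le_mul_of_nonneg_left hpr ha0
    have h7 : a * P * (3 / 2 * L ^ 2 * γ * R) ≤ L * R * (3 / 2 * L ^ 2 * γ * R) :=
      mul_le_mul_of_nonneg_right hy (by positivity)
    nlinarith
  have hg : 0 ≤ γ * R ^ 2 := by positivity
  have hL2 : 25 ≤ L ^ 2 := by nlinarith only [hL]
  have hL3 : 125 ≤ L ^ 3 := by nlinarith only [hL, hL2]
  have g1 : 125 * (γ * R ^ 2) ≤ L ^ 3 * (γ * R ^ 2) := mul_le_mul_of_nonneg_right hL3 hg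
  have g2 : 5 * (L ^ 2 * (γ * R ^ 2)) ≤ L * (L ^ 2 * (γ * R ^ 2)) :=
    mul_le_mul_of_nonneg_right hL (by positivity)
  have g3 : 25 * (L * (γ * R ^ 2)) ≤ L ^ 2 * (L * (γ * R ^ 2)) :=
    mul_le_mul_of_nonneg_right hL2 (by positivity)
  rw [h1, abs_le]
  obtain ⟨b1, b2⟩ := abs_le.mp ha
  obtain ⟨c1, c2⟩ := abs_le.mp h2
  obtain ⟨d1, d2⟩ := abs_le.mp h3
  obtain ⟨f1, f2⟩ := abs_le.mp h5
  constructor <;> linarith only [b1, b2, c1, c2, d1, d2, f1, f2, g1, g2, g3, hg]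

/-- consecutive directions are nearly conjugate -/
theorem mu_update {T : E →ₗ[ℝ] E} (hT : GoodOp T) {r p r' p' : E} {a β γ L σ μ : ℝ}
    (hγ0 : 0 ≤ γ) (hγ : γ ≤ 1 / 1000) (hL : 5 ≤ L) (ha0 : 19 / 20 ≤ a)
    (her : ‖r' - (r - a • T p)‖ ≤ γ * (‖r‖ + |a| * ‖p‖))
    (hσ : |σ - ⟪p, T p⟫_ℝ| ≤ γ * ‖p‖ ^ 2) (ha : |a * σ - ‖r‖ ^ 2| ≤ γ * ‖r‖ ^ 2)
    (hβ : |β * ‖r‖ ^ 2 - ‖r'‖ ^ 2| ≤ γ * ‖r'‖ ^ 2)
    (hy : |a| * ‖p‖ ≤ L * ‖r‖)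
    (hR' : ‖r'‖ ≤ 5 / 4 * L * ‖r‖)
    (hb : |β| * ‖r‖ ^ 2 ≤ (1 + γ) * ‖r'‖ ^ 2)
    (hbp : |β| * ‖p‖ ≤ 7 / 5 * L ^ 2 * ‖r'‖)
    (hep : ‖p' - (r' + β • p)‖ ≤ 3 / 2 * L ^ 2 * γ * ‖r'‖)
    (hrr : |⟪r', r⟫_ℝ| ≤ (9 / 5 * L ^ 3 * γ + a * ((1 + γ) * μ)) * ‖r‖ ^ 2) :
    |⟪p', T p⟫_ℝ| ≤ ((1 + γ) * μ + 9 / 2 * L ^ 4 * γ) * ‖r‖ ^ 2 := by
  set R := ‖r‖ with hRd
  set P := ‖p‖ with hPd
  set R' := ‖r'‖ with hRd'
  have hR0 : 0 ≤ R := norm_nonneg _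
  have hP0 : 0 ≤ P := norm_nonneg _
  have hR'0 : 0 ≤ R' := norm_nonneg _
  have ha0' : 0 ≤ a := by linarith
  rw [abs_of_nonneg ha0'] at hy her
  set e := r' - (r - a • T p) with he
  set f := p' - (r' + β • p) with hf
  have h1 : a * ⟪p', T p⟫_ℝ = ⟪r', r⟫_ℝ + ⟪r', e⟫_ℝ + (β * R ^ 2 - R' ^ 2) + β * (a * σ - R ^ 2)
      - β * (a * (σ - ⟪p, T p⟫_ℝ)) + a * ⟪f, T p⟫_ℝ := by
    have e1 : p' = r' + β • p + f := by rw [hf]; abel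
    have e2 : a • T p = r - r' + e := by rw [he]; abel
    have e3 : a * ⟪r', T p⟫_ℝ = ⟪r', r⟫_ℝ - R' ^ 2 + ⟪r', e⟫_ℝ := by
      have : a * ⟪r', T p⟫_ℝ = ⟪r', a • T p⟫_ℝ := by rw [inner_smul_right]
      rw [this, e2, inner_add_right, inner_sub_right, real_inner_self_eq_norm_sq]
    rw [e1, inner_add_left, inner_add_left, inner_smul_left]
    simp only [conj_trivial]
    linear_combination e3
  have h2 : |⟪r', e⟫_ℝ| ≤ R' * (γ * (6 / 5 * L * R)) := by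
    refine le_trans (abs_real_inner_le_norm _ _) ?_
    apply mul_le_mul_of_nonneg_left _ hR'0
    refine le_trans her ?_
    apply mul_le_mul_of_nonneg_left _ hγ0
    nlinarith
  have h3 : |β * (a * σ - R ^ 2)| ≤ γ * ((1 + γ) * R' ^ 2) := by
    rw [abs_mul]
    calc |β| * |a * σ - R ^ 2| ≤ |β| * (γ * R ^ 2) := mul_le_mul_of_nonneg_left ha (abs_nonneg _)
      _ = γ * (|β| * R ^ 2) := by ring
      _ ≤ _ := mul_le_mul_of_nonneg_left hb hγ0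
  have h4 : |β * (a * (σ - ⟪p, T p⟫_ℝ))| ≤ γ * (L * R) * (7 / 5 * L ^ 2 * R') := by
    rw [abs_mul, abs_mul, abs_of_nonneg ha0']
    calc |β| * (a * |σ - ⟪p, T p⟫_ℝ|) ≤ |β| * (a * (γ * P ^ 2)) := by
          apply mul_le_mul_of_nonneg_left _ (abs_nonneg _)
          exact mul_le_mul_of_nonneg_left hσ ha0'
      _ = γ * (a * P) * (|β| * P) := by ring
      _ ≤ _ := by
        apply mul_le_mul (mul_le_mul_of_nonneg_left hy hγ0) hbp (by positivity) (by positivity)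
  have h5 : |a * ⟪f, T p⟫_ℝ| ≤ (L * R) * (3 / 2 * L ^ 2 * γ * R') := by
    rw [abs_mul, abs_of_nonneg ha0']
    calc a * |⟪f, T p⟫_ℝ| ≤ a * (‖f‖ * ‖T p‖) :=
          mul_le_mul_of_nonneg_left (abs_real_inner_le_norm _ _) ha0'
      _ ≤ a * (‖f‖ * P) := by
          apply mul_le_mul_of_nonneg_left _ ha0'
          exact mul_le_mul_of_nonneg_left (hT.bd p) (norm_nonneg _)
      _ = (a * P) * ‖f‖ := by ring
      _ ≤ _ := mul_le_mul hy hep (norm_nonneg _) (by positivity)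
  have hg : 0 ≤ γ * R ^ 2 := by positivity
  have hL2 : 25 ≤ L ^ 2 := by nlinarith only [hL]
  -- products with R'
  have k1 : R' * R ≤ 5 / 4 * L * R ^ 2 := by
    have := mul_le_mul_of_nonneg_right hR' hR0
    linarith only [this]
  have k2 : R' ^ 2 ≤ 25 / 16 * L ^ 2 * R ^ 2 := by
    have := pow_le_pow_left₀ hR'0 hR' 2
    linarith only [this]
  have k3 : γ * (R' ^ 2) ≤ γ * (25 / 16 * L ^ 2 * R ^ 2) := mul_le_mul_of_nonneg_left k2 hγ0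
  have k4 : (L * γ) * (R' * R) ≤ (L * γ) * (5 / 4 * L * R ^ 2) :=
    mul_le_mul_of_nonneg_left k1 (by positivity)
  have k5 : (L ^ 3 * γ) * (R' * R) ≤ (L ^ 3 * γ) * (5 / 4 * L * R ^ 2) :=
    mul_le_mul_of_nonneg_left k1 (by positivity)
  have k6 : 0 ≤ L ^ 2 * (γ * R ^ 2) := by positivity
  have k7 : 25 * (L ^ 2 * (γ * R ^ 2)) ≤ L ^ 2 * (L ^ 2 * (γ * R ^ 2)) :=
    mul_le_mul_of_nonneg_right hL2 k6
  have k8 : 5 * (L ^ 3 * (γ * R ^ 2)) ≤ L * (L ^ 3 * (γ * R ^ 2)) :=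
    mul_le_mul_of_nonneg_right hL (by positivity)
  have k9 : γ * (γ * R' ^ 2) ≤ 1 / 1000 * (γ * R' ^ 2) :=
    mul_le_mul_of_nonneg_right hγ (by positivity)
  have hA : |a * ⟪p', T p⟫_ℝ| ≤ (a * ((1 + γ) * μ) + 42 / 10 * L ^ 4 * γ) * R ^ 2 := by
    rw [h1, abs_le]
    obtain ⟨a1, a2⟩ := abs_le.mp hrr
    obtain ⟨b1, b2⟩ := abs_le.mp h2
    obtain ⟨c1, c2⟩ := abs_le.mp hβ
    obtain ⟨d1, d2⟩ := abs_le.mp h3
    obtain ⟨f1, f2⟩ := abs_le.mp h4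
    obtain ⟨g1, g2⟩ := abs_le.mp h5
    constructor <;> linarith only [a1, a2, b1, b2, c1, c2, d1, d2, f1, f2, g1, g2, k3, k4, k5, k6,
      k7, k8, k9]
  have hB : a * |⟪p', T p⟫_ℝ| ≤ a * (((1 + γ) * μ + 9 / 2 * L ^ 4 * γ) * R ^ 2) := by
    have : a * |⟪p', T p⟫_ℝ| = |a * ⟪p', T p⟫_ℝ| := by rw [abs_mul, abs_of_nonneg ha0']
    rw [this]
    refine le_trans hA ?_
    have h6 : 0 ≤ L ^ 4 * γ * R ^ 2 := by positivity
    have h7 : 19 / 20 * (L ^ 4 * γ * R ^ 2) ≤ a * (L ^ 4 * γ * R ^ 2) :=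
      mul_le_mul_of_nonneg_right ha0 h6
    nlinarith only [h6, h7]
  exact le_of_mul_le_mul_left hB (by linarith)


end Pool.Agent.Lib.MP_02bbae_an
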