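import Mathlib
import Pool.Agent.Lib.MP_02bbae_an.Rounding
import Pool.Agent.Lib.MP_02bbae_an.Step

set_option autoImplicit false

open scoped InnerProductSpace RealInnerProductSpace Matrix
open Finset

namespace Pool.Agent.Lib.MP_02bbae_an

variable {n : ℕ}

theorem inner_toLp (x y : Fin n → ℝ) :
    ⟪(WithLp.toLp 2 x : EuclideanSpace ℝ (Fin n)), WithLp.toLp 2 y⟫_ℝ = ∑ i, x i * y i := by
  rw [EuclideanSpace.inner_toLp_toLp]
  unfold dotProduct
  apply sum_congr rfl
  intro i _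
  simp [mul_comm]

theorem nrm_mulVec_le (A : Matrix (Fin n) (Fin n) ℝ) (v : Fin n → ℝ) :
    nrm (A.mulVec v) ≤ specNorm A * nrm v := by
  unfold nrm specNorm
  rw [← Matrix.toEuclideanCLM_toLp]
  exact ContinuousLinearMap.le_opNorm _ _

theorem mulVec_symm {A : Matrix (Fin n) (Fin n) ℝ} (hA : A.IsHermitian) (x y : Fin n → ℝ) :
    ∑ i, A.mulVec x i * y i = ∑ i, x i * A.mulVec y i := by
  have hs : ∀ i j, A i j = A j i := by
    intro i j
    have := hA.apply j i
    simpa using this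
  simp only [Matrix.mulVec, dotProduct, sum_mul, mul_sum]
  rw [sum_comm]
  apply sum_congr rfl
  intro i _
  apply sum_congr rfl
  intro j _
  rw [hs j i]; ring

theorem row_le {A : Matrix (Fin n) (Fin n) ℝ} (hA : A.IsHermitian) (i : Fin n) :
    nrm (A i) ≤ specNorm A := by
  have h1 := nrm_mulVec_le A (Pi.single i 1)
  have h2 : A.mulVec (Pi.single i 1) = A i := by
    ext j
    rw [Matrix.mulVec_single_one]
    have := hA.apply i j
    simpa using this
  have h3 : nrm (Pi.single i (1 : ℝ) : Fin n → ℝ) = 1 := by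
    have : nrm (Pi.single i (1 : ℝ) : Fin n → ℝ) ^ 2 = 1 := by
      rw [nrm_sq_sum]
      simp [Pi.single_apply]
    have h0 := nrm_nonneg (Pi.single i (1 : ℝ) : Fin n → ℝ)
    nlinarith
  rw [h2, h3, mul_one] at h1
  exact h1

theorem specNorm_nonneg (A : Matrix (Fin n) (Fin n) ℝ) : 0 ≤ specNorm A := norm_nonneg _

theorem posDef_quad {A : Matrix (Fin n) (Fin n) ℝ} (hA : A.PosDef) {v : Fin n → ℝ} (hv : v ≠ 0) :
    0 < ∑ i, v i * A.mulVec v i := by
  have := hA.dotProduct_mulVec_pos hv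
  simpa [dotProduct] using this

theorem posDef_quad' {A : Matrix (Fin n) (Fin n) ℝ} (hA : A.PosDef) (v : Fin n → ℝ) :
    0 ≤ ∑ i, v i * A.mulVec v i := by
  by_cases hv : v = 0
  · subst hv; simp
  · exact (posDef_quad hA hv).le

theorem nrm_pos {v : Fin n → ℝ} (hv : v ≠ 0) : 0 < nrm v := by
  unfold nrm
  rw [norm_pos_iff]
  intro h
  apply hv
  have := congrArg WithLp.ofLp h
  simpa using this

theorem specNorm_pos {A : Matrix (Fin n) (Fin n) ℝ} (hA : A.PosDef) {b : Fin n → ℝ} (hb : b ≠ 0) :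
    0 < specNorm A := by
  rcases lt_or_eq_of_le (specNorm_nonneg A) with h | h
  · exact h
  · exfalso
    have h1 := nrm_mulVec_le A b
    rw [← h, zero_mul] at h1
    have h2 : A.mulVec b = 0 := by
      by_contra h2
      exact absurd (nrm_pos h2) (not_lt.mpr h1)
    have h3 := posDef_quad hA hb
    rw [h2] at h3
    simp at h3

/-- `A / ‖A‖` -/
noncomputable def opT (A : Matrix (Fin n) (Fin n) ℝ) :
    EuclideanSpace ℝ (Fin n) →ₗ[ℝ] EuclideanSpace ℝ (Fin n) :=
  (specNorm A)⁻¹ • (Matrix.toEuclideanCLM (𝕜 := ℝ) A : EuclideanSpace ℝ (Fin n) →L[ℝ]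
    EuclideanSpace ℝ (Fin n)).toLinearMap

theorem opT_toLp (A : Matrix (Fin n) (Fin n) ℝ) (v : Fin n → ℝ) :
    opT A (WithLp.toLp 2 v) = WithLp.toLp 2 ((specNorm A)⁻¹ • A.mulVec v) := by
  unfold opT
  rw [LinearMap.smul_apply, ContinuousLinearMap.coe_coe, Matrix.toEuclideanCLM_toLp,
    WithLp.toLp_smul]

theorem opT_inner (A : Matrix (Fin n) (Fin n) ℝ) (v w : Fin n → ℝ) :
    ⟪(WithLp.toLp 2 v : EuclideanSpace ℝ (Fin n)), opT A (WithLp.toLp 2 w)⟫_ℝ =
      (specNorm A)⁻¹ * ∑ i, v i * A.mulVec w i := by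
  rw [opT_toLp, inner_toLp, mul_sum]
  apply sum_congr rfl
  intro i _
  simp only [Pi.smul_apply, smul_eq_mul]; ring

theorem goodOp_opT {A : Matrix (Fin n) (Fin n) ℝ} (hA : A.PosDef) {b : Fin n → ℝ} (hb : b ≠ 0) :
    GoodOp (opT A) := by
  have hN := specNorm_pos hA hb
  constructor
  · intro u v
    have hu : u = WithLp.toLp 2 u.ofLp := rfl
    have hv : v = WithLp.toLp 2 v.ofLp := rfl
    rw [hu, hv, real_inner_comm, opT_inner, opT_inner]
    congr 1
    rw [← mulVec_symm hA.1]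
    apply sum_congr rfl
    intro i _; ring
  · intro v
    have hv : v = WithLp.toLp 2 v.ofLp := rfl
    rw [hv, opT_inner]
    exact mul_nonneg (inv_nonneg.mpr hN.le) (posDef_quad' hA _)
  · intro v
    have hv : v = WithLp.toLp 2 v.ofLp := rfl
    rw [hv, opT_toLp]
    have h1 : ‖(WithLp.toLp 2 ((specNorm A)⁻¹ • A.mulVec v.ofLp) : EuclideanSpace ℝ (Fin n))‖ =
        (specNorm A)⁻¹ * nrm (A.mulVec v.ofLp) := by
      have := nrm_smul (specNorm A)⁻¹ (A.mulVec v.ofLp)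
      rw [abs_of_pos (inv_pos.mpr hN)] at this
      exact this
    rw [h1]
    have h2 := nrm_mulVec_le A v.ofLp
    calc (specNorm A)⁻¹ * nrm (A.mulVec v.ofLp) ≤ (specNorm A)⁻¹ * (specNorm A * nrm v.ofLp) :=
          mul_le_mul_of_nonneg_left h2 (inv_nonneg.mpr hN.le)
      _ = nrm v.ofLp := by field_simp
      _ = _ := rfl

/-- a matrix whose eigenvalues have ratios at most `κ` is coercive -/
theorem coercive {A : Matrix (Fin n) (Fin n) ℝ} (hA : A.PosDef) {κ : ℝ}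
    (h : ∀ i j, hA.1.eigenvalues i ≤ κ * hA.1.eigenvalues j) (v : Fin n → ℝ) :
    specNorm A * ∑ i, v i ^ 2 ≤ κ * ∑ i, v i * A.mulVec v i := by
  rcases Nat.eq_zero_or_pos n with h0 | h0
  · subst h0; simp
  have : Nonempty (Fin n) := ⟨⟨0, h0⟩⟩
  obtain ⟨i0, _, hi0⟩ := exists_max_image univ hA.1.eigenvalues univ_nonempty
  set B := hA.1.eigenvectorBasis with hB
  have hpos := hA.eigenvalues_pos
  -- expansion in the eigenbasis
  have hAB : ∀ (w : Fin n → ℝ) (i : Fin n),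
      ⟪B i, (WithLp.toLp 2 (A.mulVec w) : EuclideanSpace ℝ (Fin n))⟫_ℝ =
      hA.1.eigenvalues i * ⟪B i, (WithLp.toLp 2 w : EuclideanSpace ℝ (Fin n))⟫_ℝ := by
    intro w i
    have h1 : (B i : EuclideanSpace ℝ (Fin n)) = WithLp.toLp 2 (B i).ofLp := rfl
    rw [h1, inner_toLp, ← mulVec_symm hA.1, hA.1.mulVec_eigenvectorBasis i, inner_toLp, mul_sum]
    apply sum_congr rfl
    intro j _
    simp only [Pi.smul_apply, smul_eq_mul]; ring
  have hsq : ∀ w : Fin n → ℝ, nrm w ^ 2 =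
      ∑ i, ⟪B i, (WithLp.toLp 2 w : EuclideanSpace ℝ (Fin n))⟫_ℝ ^ 2 := by
    intro w
    have := B.sum_sq_norm_inner_right (WithLp.toLp 2 w : EuclideanSpace ℝ (Fin n))
    unfold nrm
    rw [← this]
    apply sum_congr rfl
    intro i _
    rw [Real.norm_eq_abs, sq_abs]
  have hN : specNorm A ≤ hA.1.eigenvalues i0 := by
    apply specNorm_le (hpos i0).le
    intro w
    have h2 : nrm (A.mulVec w) ^ 2 ≤ (hA.1.eigenvalues i0 * nrm w) ^ 2 := by
      rw [hsq, mul_pow, hsq, mul_sum]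
      apply sum_le_sum
      intro i _
      rw [hAB, mul_pow]
      apply mul_le_mul_of_nonneg_right _ (sq_nonneg _)
      exact pow_le_pow_left₀ (hpos i).le (hi0 i (mem_univ i)) 2
    exact le_of_sq_le_sq h2 (mul_nonneg (hpos i0).le (nrm_nonneg _))
  have hq : ∑ i, v i * A.mulVec v i = ∑ i, hA.1.eigenvalues i *
      ⟪B i, (WithLp.toLp 2 v : EuclideanSpace ℝ (Fin n))⟫_ℝ ^ 2 := by
    rw [← inner_toLp, ← B.sum_inner_mul_inner]
    apply sum_congr rfl
    intro i _
    rw [hAB, real_inner_comm (B i)]; ring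
  rw [← nrm_sq_sum, hq, hsq, mul_sum, mul_sum]
  apply sum_le_sum
  intro i _
  rw [← mul_assoc]
  apply mul_le_mul_of_nonneg_right _ (sq_nonneg _)
  exact le_trans hN (h i0 i)

end Pool.Agent.Lib.MP_02bbae_an
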