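import Mathlib
import Pool.Agent.Lib.MP_02bbae_an.Operator

set_option autoImplicit false

open scoped InnerProductSpace RealInnerProductSpace Matrix
open Finset

namespace Pool.Agent.Lib.MP_02bbae_an

variable {n : ℕ} {u : ℝ}

/-- the smallness condition for the unit roundoff -/
structure Small (n : ℕ) (u : ℝ) : Prop where
  u0 : 0 ≤ u
  n1 : 1 ≤ n
  sm : 16 * (n : ℝ) ^ 2 * u ≤ 1

namespace Small

variable (h : Small n u)
include h

theorem n1' : (1 : ℝ) ≤ n := by exact_mod_cast h.n1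

theorem u1 : u ≤ 1 / 16 := by
  have h1 := h.n1'
  have h2 := h.sm
  have h3 : (1 : ℝ) ≤ (n : ℝ) ^ 2 := by nlinarith
  have h4 := mul_le_mul_of_nonneg_right h3 h.u0
  linarith

theorem nu : (n : ℝ) * u ≤ (n : ℝ) ^ 2 * u := by
  apply mul_le_mul_of_nonneg_right _ h.u0
  have := h.n1'
  nlinarith

theorem unn : u ≤ n * u := by
  have := mul_le_mul_of_nonneg_right h.n1' h.u0
  linarith

theorem dot {x y : Fin n → ℝ} {s : ℝ} (hs : FlDot u x y s) :
    |s - ∑ i, x i * y i| ≤ 2 * n * u * (nrm x * nrm y) := by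
  apply hs.error' h.u0
  have := h.nu
  have := h.sm
  linarith

theorem mulVec {A : Matrix (Fin n) (Fin n) ℝ} (hA : A.IsHermitian) {p q : Fin n → ℝ}
    (hq : FlMulVec u A p q) :
    nrm (q - A.mulVec p) ≤ 2 * (n : ℝ) ^ 2 * u * (specNorm A * nrm p) := by
  have h0 := h.u0
  have h1 : nrm (q - A.mulVec p) ≤ n * (2 * n * u * (specNorm A * nrm p)) := by
    apply nrm_le_of_abs_le
    · have := specNorm_nonneg A
      have := nrm_nonneg p
      positivity
    · intro i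
      have h2 := h.dot (hq i)
      have h3 : (q - A.mulVec p) i = q i - ∑ j, A i j * p j := rfl
      rw [h3]
      refine le_trans h2 ?_
      apply mul_le_mul_of_nonneg_left _ (by positivity)
      exact mul_le_mul_of_nonneg_right (row_le hA i) (nrm_nonneg _)
  refine le_trans h1 (le_of_eq ?_)
  ring

theorem q_le {A : Matrix (Fin n) (Fin n) ℝ} (hA : A.IsHermitian) {p q : Fin n → ℝ}
    (hq : FlMulVec u A p q) : nrm q ≤ 9 / 8 * (specNorm A * nrm p) := by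
  have h1 := h.mulVec hA hq
  have h2 := nrm_mulVec_le A p
  have h3 : nrm q ≤ nrm (q - A.mulVec p) + nrm (A.mulVec p) := by
    have : q = (q - A.mulVec p) + A.mulVec p := by abel
    conv_lhs => rw [this]
    exact nrm_add_le _ _
  have h4 : 0 ≤ specNorm A * nrm p := mul_nonneg (specNorm_nonneg A) (nrm_nonneg p)
  have h5 : 2 * (n : ℝ) ^ 2 * u * (specNorm A * nrm p) ≤ 1 / 8 * (specNorm A * nrm p) := by
    apply mul_le_mul_of_nonneg_right _ h4
    linarith [h.sm]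
  linarith

theorem sigma {A : Matrix (Fin n) (Fin n) ℝ} (hA : A.IsHermitian) {p q : Fin n → ℝ} {s : ℝ}
    (hq : FlMulVec u A p q) (hs : FlDot u p q s) :
    |s - ∑ i, p i * A.mulVec p i| ≤ 8 * (n : ℝ) ^ 2 * u * (specNorm A * nrm p ^ 2) := by
  have h1 := h.mulVec hA hq
  have h2 := h.q_le hA hq
  have h3 := h.dot hs
  have h0 := h.u0
  have hp := nrm_nonneg p
  have h4 : |∑ i, p i * (q - A.mulVec p) i| ≤ nrm p * nrm (q - A.mulVec p) :=
    le_trans (abs_sum_le_sum_abs _ _) (sum_abs_mul_le _ _)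
  have h5 : s - ∑ i, p i * A.mulVec p i = (s - ∑ i, p i * q i)
      + ∑ i, p i * (q - A.mulVec p) i := by
    have : ∑ i, p i * (q - A.mulVec p) i = ∑ i, p i * q i - ∑ i, p i * A.mulVec p i := by
      rw [← sum_sub_distrib]
      apply sum_congr rfl
      intro i _
      simp only [Pi.sub_apply]; ring
    rw [this]; ring
  rw [h5]
  refine le_trans (abs_add_le _ _) ?_
  have hW : 0 ≤ specNorm A * nrm p ^ 2 := mul_nonneg (specNorm_nonneg A) (by positivity)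
  have h6 : 2 * n * u * (nrm p * nrm q) ≤ 2 * n * u * (nrm p * (9 / 8 * (specNorm A * nrm p))) := by
    apply mul_le_mul_of_nonneg_left _ (by positivity)
    exact mul_le_mul_of_nonneg_left h2 hp
  have h7 : 2 * n * u * (nrm p * (9 / 8 * (specNorm A * nrm p))) =
      9 / 4 * ((n * u) * (specNorm A * nrm p ^ 2)) := by ring
  have h8 : (n * u) * (specNorm A * nrm p ^ 2) ≤ ((n : ℝ) ^ 2 * u) * (specNorm A * nrm p ^ 2) :=
    mul_le_mul_of_nonneg_right h.nu hW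
  have h9 : nrm p * nrm (q - A.mulVec p) ≤ nrm p * (2 * (n : ℝ) ^ 2 * u * (specNorm A * nrm p)) :=
    mul_le_mul_of_nonneg_left h1 hp
  have h10 : nrm p * (2 * (n : ℝ) ^ 2 * u * (specNorm A * nrm p)) =
      2 * (((n : ℝ) ^ 2 * u) * (specNorm A * nrm p ^ 2)) := by ring
  have h11 : 0 ≤ ((n : ℝ) ^ 2 * u) * (specNorm A * nrm p ^ 2) := by positivity
  linarith

theorem rho {r : Fin n → ℝ} {s : ℝ} (hs : FlDot u r r s) :
    |s - nrm r ^ 2| ≤ 2 * n * u * nrm r ^ 2 := by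
  have h1 := h.dot hs
  have h2 : ∑ i, r i * r i = nrm r ^ 2 := by
    rw [nrm_sq_sum]
    apply sum_congr rfl
    intro i _; ring
  rw [h2] at h1
  refine le_trans h1 (le_of_eq ?_)
  ring

theorem alpha {r : Fin n → ℝ} {ρ σ α : ℝ} (hs : FlDot u r r ρ) (hσ : σ ≠ 0)
    (hα : Fl u (ρ / σ) α) : |α * σ - nrm r ^ 2| ≤ 8 * (n : ℝ) ^ 2 * u * nrm r ^ 2 := by
  obtain ⟨δ, hδ, rfl⟩ := hα
  have h1 := h.rho hs
  have h0 := h.u0
  have hR : 0 ≤ nrm r ^ 2 := by positivity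
  have h2 : ρ / σ * (1 + δ) * σ - nrm r ^ 2 = (1 + δ) * (ρ - nrm r ^ 2) + δ * nrm r ^ 2 := by
    field_simp
    ring
  rw [h2]
  refine le_trans (abs_add_le _ _) ?_
  rw [abs_mul, abs_mul, abs_of_nonneg hR]
  have h3 : |1 + δ| ≤ 17 / 16 := by
    refine le_trans (abs_add_le _ _) ?_
    rw [abs_one]
    have := h.u1
    linarith
  have h4 : |1 + δ| * |ρ - nrm r ^ 2| ≤ 17 / 16 * (2 * n * u * nrm r ^ 2) :=
    mul_le_mul h3 h1 (abs_nonneg _) (by norm_num)
  have h5 : |δ| * nrm r ^ 2 ≤ (n : ℝ) ^ 2 * u * nrm r ^ 2 := by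
    apply mul_le_mul_of_nonneg_right _ hR
    have := h.unn
    have := h.nu
    linarith
  have h6 : (n * u) * nrm r ^ 2 ≤ ((n : ℝ) ^ 2 * u) * nrm r ^ 2 :=
    mul_le_mul_of_nonneg_right h.nu hR
  have h7 : 0 ≤ ((n : ℝ) ^ 2 * u) * nrm r ^ 2 := by positivity
  linarith

theorem beta {r r' : Fin n → ℝ} {ρ' ρ'' β : ℝ} (hs : FlDot u r r ρ') (hs' : FlDot u r' r' ρ'')
    (hρ : ρ' ≠ 0) (hβ : Fl u (ρ'' / ρ') β) :
    |β * nrm r ^ 2 - nrm r' ^ 2| ≤ 8 * (n : ℝ) ^ 2 * u * nrm r' ^ 2 := by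
  obtain ⟨δ, hδ, rfl⟩ := hβ
  have h1 := h.rho hs
  have h2 := h.rho hs'
  have h0 := h.u0
  set M := nrm r ^ 2 with hM
  set M' := nrm r' ^ 2 with hM'
  have hM0 : 0 ≤ M := by positivity
  have hM0' : 0 ≤ M' := by positivity
  have hnu : 2 * n * u ≤ 1 / 8 := by
    have := h.nu
    have := h.sm
    linarith
  have hMpos : 0 < M := by
    rcases lt_or_eq_of_le hM0 with h' | h'
    · exact h'
    · exfalso
      rw [← h', mul_zero, sub_zero] at h1
      exact hρ (abs_nonpos_iff.mp h1)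
  obtain ⟨a1, a2⟩ := abs_le.mp h1
  have hρpos : 7 / 8 * M ≤ ρ' := by
    have := mul_le_mul_of_nonneg_right hnu hM0
    linarith
  have hρ0 : 0 < ρ' := by linarith
  have h3 : ρ'' / ρ' * (1 + δ) * M - M' =
      ((1 + δ) * (ρ'' - M') * M + δ * M' * M - M' * (ρ' - M)) / ρ' := by
    field_simp
    ring
  rw [h3, abs_div, abs_of_pos hρ0, div_le_iff₀ hρ0]
  have h4 : |1 + δ| ≤ 17 / 16 := by
    refine le_trans (abs_add_le _ _) ?_
    rw [abs_one]
    have := h.u1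
    linarith
  have e1 : |(1 + δ) * (ρ'' - M') * M| ≤ 17 / 16 * (2 * n * u * M') * M := by
    rw [abs_mul, abs_mul, abs_of_nonneg hM0]
    apply mul_le_mul_of_nonneg_right _ hM0
    exact mul_le_mul h4 h2 (abs_nonneg _) (by norm_num)
  have e2 : |δ * M' * M| ≤ (n * u) * M' * M := by
    rw [abs_mul, abs_mul, abs_of_nonneg hM0, abs_of_nonneg hM0']
    apply mul_le_mul_of_nonneg_right _ hM0
    apply mul_le_mul_of_nonneg_right _ hM0'
    have := h.unn
    linarith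
  have e3 : |M' * (ρ' - M)| ≤ M' * (2 * n * u * M) := by
    rw [abs_mul, abs_of_nonneg hM0']
    exact mul_le_mul_of_nonneg_left h1 hM0'
  have e4 := abs_sub ((1 + δ) * (ρ'' - M') * M + δ * M' * M) (M' * (ρ' - M))
  have e5 := abs_add_le ((1 + δ) * (ρ'' - M') * M) (δ * M' * M)
  have e6 : 0 ≤ (n * u) * (M' * M) := by positivity
  have e7 : (n * u) * (M' * M) ≤ ((n : ℝ) ^ 2 * u) * (M' * M) :=
    mul_le_mul_of_nonneg_right h.nu (by positivity)
  have e8 : 8 * (n : ℝ) ^ 2 * u * M' * (7 / 8 * M) ≤ 8 * (n : ℝ) ^ 2 * u * M' * ρ' :=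
    mul_le_mul_of_nonneg_left hρpos (by positivity)
  nlinarith only [e1, e2, e3, e4, e5, e6, e7, e8]

theorem rstep {A : Matrix (Fin n) (Fin n) ℝ} (hA : A.IsHermitian) {r p q r' : Fin n → ℝ} {α : ℝ}
    (hq : FlMulVec u A p q) (hr : FlSubMul u r α q r') :
    nrm (r' - (r - α • A.mulVec p)) ≤
      8 * (n : ℝ) ^ 2 * u * (nrm r + |α| * (specNorm A * nrm p)) := by
  have h0 := h.u0
  have h1 := hr.error h0 (by linarith [h.u1])
  have h2 := h.mulVec hA hq
  have h3 := h.q_le hA hq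
  have hW : 0 ≤ specNorm A * nrm p := mul_nonneg (specNorm_nonneg A) (nrm_nonneg p)
  have h4 : nrm (r' - (r - α • A.mulVec p)) ≤ nrm (r' - (r - α • q)) +
      |α| * nrm (q - A.mulVec p) := by
    have e1 : r' - (r - α • A.mulVec p) = (r' - (r - α • q)) - α • (q - A.mulVec p) := by
      rw [smul_sub]; abel
    rw [e1]
    refine le_trans (nrm_sub_le _ _) ?_
    rw [nrm_smul]
  have h5 : |α| * nrm q ≤ |α| * (9 / 8 * (specNorm A * nrm p)) :=
    mul_le_mul_of_nonneg_left h3 (abs_nonneg _)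
  have h6 : |α| * nrm (q - A.mulVec p) ≤
      |α| * (2 * (n : ℝ) ^ 2 * u * (specNorm A * nrm p)) :=
    mul_le_mul_of_nonneg_left h2 (abs_nonneg _)
  have h7 : u ≤ (n : ℝ) ^ 2 * u := by
    have := h.unn
    have := h.nu
    linarith
  have hV : 0 ≤ |α| * (specNorm A * nrm p) := by positivity
  have hR := nrm_nonneg r
  have h8 : u * nrm r ≤ (n : ℝ) ^ 2 * u * nrm r := mul_le_mul_of_nonneg_right h7 hR
  have h9 : u * (|α| * (specNorm A * nrm p)) ≤ (n : ℝ) ^ 2 * u * (|α| * (specNorm A * nrm p)) :=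
    mul_le_mul_of_nonneg_right h7 hV
  have h10 : u * (|α| * nrm q) ≤ u * (|α| * (9 / 8 * (specNorm A * nrm p))) :=
    mul_le_mul_of_nonneg_left h5 h0
  have h11 : 0 ≤ (n : ℝ) ^ 2 * u * nrm r := by positivity
  have h12 : 0 ≤ (n : ℝ) ^ 2 * u * (|α| * (specNorm A * nrm p)) := by positivity
  linarith

theorem addMul {z y w : Fin n → ℝ} {a : ℝ} (hw : FlAddMul u z a y w) :
    nrm (w - (z + a • y)) ≤ 8 * (n : ℝ) ^ 2 * u * (nrm z + |a| * nrm y) := by
  have h0 := h.u0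
  refine le_trans (hw.error h0 (by linarith [h.u1])) ?_
  apply mul_le_mul_of_nonneg_right
  · have := h.unn
    have := h.nu
    have : 0 ≤ (n : ℝ) ^ 2 * u := by positivity
    linarith
  · have := nrm_nonneg z
    have := nrm_nonneg y
    positivity

end Small

theorem norm_toLp_smul {c : ℝ} (hc : 0 ≤ c) (v : Fin n → ℝ) :
    ‖(WithLp.toLp 2 (c • v) : EuclideanSpace ℝ (Fin n))‖ = c * nrm v := by
  have := nrm_smul c v
  rw [abs_of_nonneg hc] at this
  exact this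

/-- the normalised run -/
theorem Run.Valid.pcg {A : Matrix (Fin n) (Fin n) ℝ} {b : Fin n → ℝ} {K : ℕ} {R : Run n}
    (hR : R.Valid u A b K) (hA : A.PosDef) (hb : b ≠ 0) (h : Small n u) :
    PCG (opT A) (8 * (n : ℝ) ^ 2 * u) K
      (WithLp.toLp 2 ((nrm b)⁻¹ • b) : EuclideanSpace ℝ (Fin n))
      (fun k => WithLp.toLp 2 ((specNorm A * (nrm b)⁻¹) • R.x k))
      (fun k => WithLp.toLp 2 ((nrm b)⁻¹ • R.r k))
      (fun k => WithLp.toLp 2 ((nrm b)⁻¹ • R.p k))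
      (fun k => specNorm A * R.α k) R.β
      (fun k => (specNorm A)⁻¹ * (nrm b)⁻¹ ^ 2 * R.σ k) := by
  have hN := specNorm_pos hA hb
  have hB := nrm_pos hb
  have hBi : 0 < (nrm b)⁻¹ := inv_pos.mpr hB
  set N := specNorm A with hNdef
  set c := (nrm b)⁻¹ with hc
  have hNc : 0 ≤ N * c := by positivity
  have h0 := h.u0
  refine ⟨?_, ?_, ?_, ?_, ?_, ?_, ?_, ?_, ?_⟩
  · simp only [hR.x_zero, smul_zero, WithLp.toLp_zero]
  · simp only [hR.r_zero]
  · simp only [hR.p_zero]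
  · intro k hk
    have h1 := h.addMul (hR.x_succ k hk)
    have e1 : (WithLp.toLp 2 ((N * c) • R.x (k + 1)) : EuclideanSpace ℝ (Fin n)) -
        (WithLp.toLp 2 ((N * c) • R.x k) + (N * R.α k) • WithLp.toLp 2 (c • R.p k)) =
        WithLp.toLp 2 ((N * c) • (R.x (k + 1) - (R.x k + R.α k • R.p k))) := by
      ext i; simp; ring
    rw [e1, norm_toLp_smul hNc, norm_toLp_smul hNc, norm_toLp_smul hBi.le, abs_mul,
      abs_of_pos hN]
    calc N * c * nrm (R.x (k + 1) - (R.x k + R.α k • R.p k))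
        ≤ N * c * (8 * (n : ℝ) ^ 2 * u * (nrm (R.x k) + |R.α k| * nrm (R.p k))) :=
          mul_le_mul_of_nonneg_left h1 hNc
      _ = _ := by ring
  · intro k hk
    have h1 := h.rstep hA.1 (hR.Ap' k hk) (hR.r_succ k hk)
    have e1 : (WithLp.toLp 2 (c • R.r (k + 1)) : EuclideanSpace ℝ (Fin n)) -
        (WithLp.toLp 2 (c • R.r k) - (N * R.α k) • opT A (WithLp.toLp 2 (c • R.p k))) =
        WithLp.toLp 2 (c • (R.r (k + 1) - (R.r k - R.α k • A.mulVec (R.p k)))) := by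
      rw [opT_toLp, ← hNdef]
      ext i
      simp [Matrix.mulVec_smul]
      field_simp
    rw [e1, norm_toLp_smul hBi.le, norm_toLp_smul hBi.le, norm_toLp_smul hBi.le, abs_mul,
      abs_of_pos hN]
    calc c * nrm (R.r (k + 1) - (R.r k - R.α k • A.mulVec (R.p k)))
        ≤ c * (8 * (n : ℝ) ^ 2 * u * (nrm (R.r k) + |R.α k| * (N * nrm (R.p k)))) :=
          mul_le_mul_of_nonneg_left h1 hBi.le
      _ = _ := by ring
  · intro k hk
    have h1 := h.addMul (hR.p_succ k hk)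
    have e1 : (WithLp.toLp 2 (c • R.p (k + 1)) : EuclideanSpace ℝ (Fin n)) -
        (WithLp.toLp 2 (c • R.r (k + 1)) + R.β k • WithLp.toLp 2 (c • R.p k)) =
        WithLp.toLp 2 (c • (R.p (k + 1) - (R.r (k + 1) + R.β k • R.p k))) := by
      ext i; simp; ring
    rw [e1, norm_toLp_smul hBi.le, norm_toLp_smul hBi.le, norm_toLp_smul hBi.le]
    calc c * nrm (R.p (k + 1) - (R.r (k + 1) + R.β k • R.p k))
        ≤ c * (8 * (n : ℝ) ^ 2 * u * (nrm (R.r (k + 1)) + |R.β k| * nrm (R.p k))) :=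
          mul_le_mul_of_nonneg_left h1 hBi.le
      _ = _ := by ring
  · intro k hk
    have h1 := h.sigma hA.1 (hR.Ap k hk) (hR.pAp k hk)
    have e1 : N⁻¹ * c ^ 2 * R.σ k - ⟪(WithLp.toLp 2 (c • R.p k) : EuclideanSpace ℝ (Fin n)),
        opT A (WithLp.toLp 2 (c • R.p k))⟫_ℝ =
        (N⁻¹ * c ^ 2) * (R.σ k - ∑ i, R.p k i * A.mulVec (R.p k) i) := by
      rw [opT_inner, mul_sub, mul_sum, mul_sum]
      congr 1
      apply sum_congr rfl
      intro i _
      simp only [Pi.smul_apply, smul_eq_mul, Matrix.mulVec_smul]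
      ring
    rw [e1, abs_mul, abs_of_nonneg (by positivity), norm_toLp_smul hBi.le]
    calc N⁻¹ * c ^ 2 * |R.σ k - ∑ i, R.p k i * A.mulVec (R.p k) i|
        ≤ N⁻¹ * c ^ 2 * (8 * (n : ℝ) ^ 2 * u * (N * nrm (R.p k) ^ 2)) :=
          mul_le_mul_of_nonneg_left h1 (by positivity)
      _ = _ := by field_simp
  · intro k hk
    have h1 := h.alpha (hR.rr k hk) (hR.pAp_ne k hk) (hR.alpha k hk)
    have e1 : N * R.α k * (N⁻¹ * c ^ 2 * R.σ k) - (c * nrm (R.r k)) ^ 2 =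
        c ^ 2 * (R.α k * R.σ k - nrm (R.r k) ^ 2) := by
      field_simp
    rw [norm_toLp_smul hBi.le, e1, abs_mul, abs_of_nonneg (by positivity)]
    calc c ^ 2 * |R.α k * R.σ k - nrm (R.r k) ^ 2|
        ≤ c ^ 2 * (8 * (n : ℝ) ^ 2 * u * nrm (R.r k) ^ 2) :=
          mul_le_mul_of_nonneg_left h1 (by positivity)
      _ = _ := by ring
  · intro k hk
    have h1 := h.beta (hR.rr' k hk) (hR.rr'' k hk) (hR.rr'_ne k hk) (hR.beta k hk)
    have e1 : R.β k * (c * nrm (R.r k)) ^ 2 - (c * nrm (R.r (k + 1))) ^ 2 =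
        c ^ 2 * (R.β k * nrm (R.r k) ^ 2 - nrm (R.r (k + 1)) ^ 2) := by ring
    rw [norm_toLp_smul hBi.le, norm_toLp_smul hBi.le, e1, abs_mul, abs_of_nonneg (by positivity)]
    calc c ^ 2 * |R.β k * nrm (R.r k) ^ 2 - nrm (R.r (k + 1)) ^ 2|
        ≤ c ^ 2 * (8 * (n : ℝ) ^ 2 * u * nrm (R.r (k + 1)) ^ 2) :=
          mul_le_mul_of_nonneg_left h1 (by positivity)
      _ = _ := by ring

end Pool.Agent.Lib.MP_02bbae_an
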