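import Mathlib
import Pool.Agent.Lib.MP_02bbae_an.Step

set_option autoImplicit false

open scoped InnerProductSpace RealInnerProductSpace
open Finset

namespace Pool.Agent.Lib.MP_02bbae_an

set_option linter.unusedSectionVars false

variable {E : Type*} [NormedAddCommGroup E] [InnerProductSpace ℝ E]

/-- `Σ_{i ≤ k} 1 / ‖r i‖` -/
noncomputable def Sk (r : ℕ → E) (k : ℕ) : ℝ := ∑ i ∈ range (k + 1), 1 / ‖r i‖

/-- `‖r k‖² Σ_{i ≤ k} 1 / ‖r i‖` -/
noncomputable def Pk (r : ℕ → E) (k : ℕ) : ℝ := ‖r k‖ ^ 2 * Sk r k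

/-- `Σ_{j < k} |α j| Pk j` -/
noncomputable def Tk (r : ℕ → E) (α : ℕ → ℝ) (k : ℕ) : ℝ := ∑ j ∈ range k, |α j| * Pk r j

theorem Sk_nonneg (r : ℕ → E) (k : ℕ) : 0 ≤ Sk r k :=
  sum_nonneg fun _ _ => by positivity

theorem Pk_nonneg (r : ℕ → E) (k : ℕ) : 0 ≤ Pk r k := mul_nonneg (by positivity) (Sk_nonneg r k)

theorem Tk_nonneg (r : ℕ → E) (α : ℕ → ℝ) (k : ℕ) : 0 ≤ Tk r α k :=
  sum_nonneg fun _ _ => mul_nonneg (abs_nonneg _) (Pk_nonneg r _)

theorem Tk_succ (r : ℕ → E) (α : ℕ → ℝ) (k : ℕ) : Tk r α (k + 1) = Tk r α k + |α k| * Pk r k := by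
  unfold Tk; rw [sum_range_succ]

theorem Pk_zero {r : ℕ → E} (h : 0 < ‖r 0‖) : Pk r 0 = ‖r 0‖ := by
  unfold Pk Sk
  simp
  field_simp

theorem Pk_ge {r : ℕ → E} {k i : ℕ} (hik : i ≤ k) (h : 0 < ‖r i‖) :
    ‖r k‖ ^ 2 ≤ ‖r i‖ * Pk r k := by
  have h1 : 1 / ‖r i‖ ≤ Sk r k := by
    unfold Sk
    apply single_le_sum (f := fun i => 1 / ‖r i‖) (fun _ _ => by positivity)
    simp; omega
  have h2 : ‖r k‖ ^ 2 * (1 / ‖r i‖) ≤ Pk r k := mul_le_mul_of_nonneg_left h1 (by positivity)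
  have h3 := mul_le_mul_of_nonneg_left h2 h.le
  have h4 : ‖r i‖ * (‖r k‖ ^ 2 * (1 / ‖r i‖)) = ‖r k‖ ^ 2 := by field_simp
  linarith

theorem Pk_ge' {r : ℕ → E} {k : ℕ} (h : 0 < ‖r k‖) : ‖r k‖ ≤ Pk r k := by
  have := Pk_ge (le_refl k) h
  have h2 : ‖r k‖ * ‖r k‖ ≤ ‖r k‖ * Pk r k := by nlinarith
  exact le_of_mul_le_mul_left h2 h

theorem Pk_succ {r : ℕ → E} {k : ℕ} (h : 0 < ‖r k‖) (h' : 0 < ‖r (k + 1)‖) :
    Pk r (k + 1) = ‖r (k + 1)‖ + ‖r (k + 1)‖ ^ 2 / ‖r k‖ ^ 2 * Pk r k := by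
  unfold Pk Sk
  rw [sum_range_succ _ (k + 1)]
  field_simp
  ring

/-- `β k Pk k` -/
theorem beta_Pk {r : ℕ → E} {k : ℕ} {β γ : ℝ} (h : 0 < ‖r k‖) (h' : 0 < ‖r (k + 1)‖)
    (hβ : |β * ‖r k‖ ^ 2 - ‖r (k + 1)‖ ^ 2| ≤ γ * ‖r (k + 1)‖ ^ 2) :
    |β| * Pk r k ≤ (1 + γ) * (Pk r (k + 1) - ‖r (k + 1)‖) := by
  have h1 : |β| * ‖r k‖ ^ 2 ≤ (1 + γ) * ‖r (k + 1)‖ ^ 2 := by
    have h3 : |β| * ‖r k‖ ^ 2 = |β * ‖r k‖ ^ 2| := by
      rw [abs_mul, abs_of_nonneg (by positivity : (0 : ℝ) ≤ ‖r k‖ ^ 2)]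
    rw [h3]
    have h4 : |β * ‖r k‖ ^ 2| ≤ |β * ‖r k‖ ^ 2 - ‖r (k + 1)‖ ^ 2| + |‖r (k + 1)‖ ^ 2| := by
      have := abs_add_le (β * ‖r k‖ ^ 2 - ‖r (k + 1)‖ ^ 2) (‖r (k + 1)‖ ^ 2)
      simpa using this
    rw [abs_of_nonneg (by positivity : (0 : ℝ) ≤ ‖r (k + 1)‖ ^ 2)] at h4
    linarith
  have h2 : Pk r (k + 1) - ‖r (k + 1)‖ = ‖r (k + 1)‖ ^ 2 / ‖r k‖ ^ 2 * Pk r k := by
    rw [Pk_succ h h']; ring
  rw [h2]
  have h3 : |β| ≤ (1 + γ) * (‖r (k + 1)‖ ^ 2 / ‖r k‖ ^ 2) := by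
    rw [← mul_div_assoc, le_div_iff₀ (by positivity)]
    exact h1
  have := mul_le_mul_of_nonneg_right h3 (Pk_nonneg r k)
  linarith

/-- the norm of the directions -/
theorem p_norm {r p : ℕ → E} {β : ℕ → ℝ} {γ : ℝ} {k : ℕ} (hγ0 : 0 ≤ γ) (hkγ : k * γ ≤ 1 / 100)
    (h0 : p 0 = r 0)
    (hp : ∀ j < k, ‖p (j + 1) - (r (j + 1) + β j • p j)‖ ≤ γ * (‖r (j + 1)‖ + |β j| * ‖p j‖))
    (hβ : ∀ j < k, |β j * ‖r j‖ ^ 2 - ‖r (j + 1)‖ ^ 2| ≤ γ * ‖r (j + 1)‖ ^ 2)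
    (hpos : ∀ j ≤ k, 0 < ‖r j‖) :
    ∀ j ≤ k, ‖p j‖ ≤ (1 + 3 * j * γ) * Pk r j := by
  intro j
  induction j with
  | zero =>
    intro _
    rw [h0, Pk_zero (hpos 0 (Nat.zero_le _))]
    simp
  | succ j ih =>
    intro hj
    have ih' := ih (by omega)
    have hN := hpos j (by omega)
    have hN' := hpos (j + 1) hj
    have hb := beta_Pk hN hN' (hβ j (by omega))
    have h1 : ‖p (j + 1)‖ ≤ (1 + γ) * (‖r (j + 1)‖ + |β j| * ‖p j‖) := by
      have e1 : p (j + 1) = (p (j + 1) - (r (j + 1) + β j • p j)) + (r (j + 1) + β j • p j) := by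
        abel
      have e2 : ‖r (j + 1) + β j • p j‖ ≤ ‖r (j + 1)‖ + |β j| * ‖p j‖ := by
        refine le_trans (norm_add_le _ _) ?_
        rw [norm_smul, Real.norm_eq_abs]
      have e3 : ‖p (j + 1)‖ ≤ ‖p (j + 1) - (r (j + 1) + β j • p j)‖ + ‖r (j + 1) + β j • p j‖ := by
        conv_lhs => rw [e1]
        exact norm_add_le _ _
      have := hp j (by omega)
      linarith
    have h2 : |β j| * ‖p j‖ ≤ (1 + 3 * j * γ) * ((1 + γ) * (Pk r (j + 1) - ‖r (j + 1)‖)) := by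
      have e1 := mul_le_mul_of_nonneg_left ih' (abs_nonneg (β j))
      have e2 : |β j| * ((1 + 3 * j * γ) * Pk r j) = (1 + 3 * j * γ) * (|β j| * Pk r j) := by ring
      rw [e2] at e1
      refine le_trans e1 ?_
      apply mul_le_mul_of_nonneg_left hb
      positivity
    have hPN := Pk_ge' hN'
    set Q := Pk r (j + 1) with hQ
    set N := ‖r (j + 1)‖ with hNd
    have hjγ : j * γ ≤ 1 / 100 := by
      refine le_trans ?_ hkγ
      apply mul_le_mul_of_nonneg_right _ hγ0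
      have : j ≤ k := by omega
      exact_mod_cast this
    have hγ1 : γ ≤ 1 / 100 := by
      refine le_trans ?_ hkγ
      have : (1 : ℝ) ≤ k := by
        have : 1 ≤ k := by omega
        exact_mod_cast this
      nlinarith
    have hj0 : 0 ≤ j * γ := by positivity
    have h3 : N + (1 + 3 * j * γ) * ((1 + γ) * (Q - N)) ≤ (1 + 3 * j * γ) * (1 + γ) * Q := by
      have e1 : 1 ≤ (1 + 3 * j * γ) * (1 + γ) := by nlinarith
      nlinarith
    have h4 : ‖p (j + 1)‖ ≤ (1 + γ) * ((1 + 3 * j * γ) * (1 + γ) * Q) := by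
      refine le_trans h1 ?_
      apply mul_le_mul_of_nonneg_left _ (by linarith)
      linarith
    refine le_trans h4 ?_
    have h5 : (1 + γ) * ((1 + 3 * j * γ) * (1 + γ)) ≤ 1 + 3 * (j + 1 : ℕ) * γ := by
      push_cast
      have e1 : γ * γ ≤ 1 / 100 * γ := mul_le_mul_of_nonneg_right hγ1 hγ0
      have e2 : (j * γ) * γ ≤ 1 / 100 * γ := mul_le_mul_of_nonneg_right hjγ hγ0
      have e3 : (j * γ) * (γ * γ) ≤ 1 / 100 * (γ * γ) :=
        mul_le_mul_of_nonneg_right hjγ (by positivity)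
      nlinarith only [e1, e2, e3, hγ0]
    have h6 := mul_le_mul_of_nonneg_right h5 (Pk_nonneg r (j + 1))
    rw [← hQ] at h6
    linarith

/-- inner products of residuals and directions -/
theorem rp_inner {r p : ℕ → E} {β : ℕ → ℝ} {γ w : ℝ} {k : ℕ} (hγ0 : 0 ≤ γ)
    (hw0 : 0 ≤ w) (hw : w + 3 * k * γ ≤ 1 / 10) (hkγ : k * γ ≤ 1 / 100)
    (h0 : p 0 = r 0)
    (hp : ∀ j < k, ‖p (j + 1) - (r (j + 1) + β j • p j)‖ ≤ γ * (‖r (j + 1)‖ + |β j| * ‖p j‖))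
    (hβ : ∀ j < k, |β j * ‖r j‖ ^ 2 - ‖r (j + 1)‖ ^ 2| ≤ γ * ‖r (j + 1)‖ ^ 2)
    (hpos : ∀ j ≤ k, 0 < ‖r j‖)
    (horth : ∀ i j, i < j → j ≤ k → |⟪r i, r j⟫_ℝ| ≤ w * ‖r i‖ * ‖r j‖) :
    ∀ j ≤ k, ∀ i ≤ k, |⟪r i, p j⟫_ℝ - (if i ≤ j then ‖r j‖ ^ 2 else 0)|
      ≤ (w + 3 * j * γ) * (‖r i‖ * Pk r j) := by
  have horth' : ∀ i j, i ≤ k → j ≤ k → i ≠ j → |⟪r i, r j⟫_ℝ| ≤ w * ‖r i‖ * ‖r j‖ := by
    intro i j hi hj hij
    rcases lt_or_gt_of_ne hij with h | h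
    · exact horth i j h hj
    · rw [real_inner_comm]
      have := horth j i h hi
      linarith
  intro j
  induction j with
  | zero =>
    intro _ i hi
    rw [h0, Pk_zero (hpos 0 (Nat.zero_le _))]
    by_cases h : i = 0
    · subst h
      simp only [le_refl, if_true, real_inner_self_eq_norm_sq, sub_self, abs_zero]
      positivity
    · have : ¬ i ≤ 0 := by omega
      simp only [this, if_false, sub_zero]
      have := horth' i 0 hi (Nat.zero_le _) h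
      simp only [Nat.cast_zero, mul_zero, zero_mul, add_zero]
      linarith
  | succ j ih =>
    intro hj i hi
    have ih' := ih (by omega) i hi
    have hN := hpos j (by omega)
    have hN' := hpos (j + 1) hj
    have hNi := hpos i hi
    have hb := beta_Pk hN hN' (hβ j (by omega))
    have hPN := Pk_ge' hN'
    have hpn := p_norm hγ0 hkγ h0 hp hβ hpos j (by omega)
    set Q := Pk r (j + 1) with hQ
    set N := ‖r (j + 1)‖ with hNd
    set M := ‖r i‖ with hM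
    set e := p (j + 1) - (r (j + 1) + β j • p j) with he
    have hjγ : j * γ ≤ 1 / 100 := by
      refine le_trans ?_ hkγ
      apply mul_le_mul_of_nonneg_right _ hγ0
      have : j ≤ k := by omega
      exact_mod_cast this
    have hγ1 : γ ≤ 1 / 100 := by
      refine le_trans ?_ hkγ
      have : (1 : ℝ) ≤ k := by
        have : 1 ≤ k := by omega
        exact_mod_cast this
      nlinarith
    have hj0 : 0 ≤ j * γ := by positivity
    have hQN : 0 ≤ Q - N := by linarith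
    have hep : ‖e‖ ≤ γ * (105 / 100 * Q) := by
      refine le_trans (hp j (by omega)) ?_
      apply mul_le_mul_of_nonneg_left _ hγ0
      have e1 := mul_le_mul_of_nonneg_left hpn (abs_nonneg (β j))
      have e2 : |β j| * ((1 + 3 * j * γ) * Pk r j) = (1 + 3 * j * γ) * (|β j| * Pk r j) := by ring
      rw [e2] at e1
      have e3 : (1 + 3 * j * γ) * (|β j| * Pk r j) ≤ (103 / 100) * ((101 / 100) * (Q - N)) := by
        apply mul_le_mul (by linarith) _ (mul_nonneg (abs_nonneg _) (Pk_nonneg r j)) (by norm_num)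
        refine le_trans hb ?_
        apply mul_le_mul_of_nonneg_right (by linarith) hQN
      linarith
    have he2 : |⟪r i, e⟫_ℝ| ≤ M * (γ * (105 / 100 * Q)) := by
      refine le_trans (abs_real_inner_le_norm _ _) ?_
      exact mul_le_mul_of_nonneg_left hep hNi.le
    have hsplit : ⟪r i, p (j + 1)⟫_ℝ = ⟪r i, r (j + 1)⟫_ℝ + β j * ⟪r i, p j⟫_ℝ + ⟪r i, e⟫_ℝ := by
      have : p (j + 1) = r (j + 1) + β j • p j + e := by rw [he]; abel
      rw [this, inner_add_right, inner_add_right, inner_smul_right]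
    -- the product `β j * (error)`
    have herr : |β j * (⟪r i, p j⟫_ℝ - (if i ≤ j then ‖r j‖ ^ 2 else 0))|
        ≤ (w + 3 * j * γ) * (M * ((1 + γ) * (Q - N))) := by
      rw [abs_mul]
      have e1 := mul_le_mul_of_nonneg_left ih' (abs_nonneg (β j))
      have e2 : |β j| * ((w + 3 * j * γ) * (M * Pk r j)) = (w + 3 * j * γ) * (M * (|β j| * Pk r j)) := by
        ring
      rw [e2] at e1
      refine le_trans e1 ?_
      apply mul_le_mul_of_nonneg_left _ (by positivity)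
      exact mul_le_mul_of_nonneg_left hb hNi.le
    have hwj : w + 3 * j * γ ≤ 1 / 10 := by
      have : 3 * j * γ ≤ 3 * k * γ := by
        have : (j : ℝ) ≤ k := by
          have : j ≤ k := by omega
          exact_mod_cast this
        nlinarith
      linarith
    have hMQ : 0 ≤ M * Q := mul_nonneg hNi.le (Pk_nonneg r (j + 1))
    have hMN : M * N ≤ M * Q := mul_le_mul_of_nonneg_left hPN hNi.le
    have key : (w + 3 * j * γ) * (M * ((1 + γ) * (Q - N))) ≤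
        (w + 3 * j * γ) * (M * Q) + 1 / 10 * (γ * (M * Q)) - (w + 3 * j * γ) * (M * N) := by
      have e1 : (w + 3 * j * γ) * (M * ((1 + γ) * (Q - N))) = (w + 3 * j * γ) * (M * Q)
        - (w + 3 * j * γ) * (M * N) + (w + 3 * j * γ) * (γ * (M * (Q - N))) := by ring
      have e2 : (w + 3 * j * γ) * (γ * (M * (Q - N))) ≤ 1 / 10 * (γ * (M * (Q - N))) := by
        apply mul_le_mul_of_nonneg_right hwj
        positivity
      have e3 : γ * (M * (Q - N)) ≤ γ * (M * Q) := by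
        apply mul_le_mul_of_nonneg_left _ hγ0
        apply mul_le_mul_of_nonneg_left _ hNi.le
        linarith
      linarith
    have hwMN : 0 ≤ 3 * j * γ * (M * N) := by positivity
    by_cases hij : i ≤ j
    · have hij' : i ≤ j + 1 := by omega
      simp only [hij, hij', if_true] at herr ⊢
      have hβj := hβ j (by omega)
      have hNQ : N ^ 2 ≤ M * Q := Pk_ge hij' hNi
      have h1 : |⟪r i, r (j + 1)⟫_ℝ| ≤ w * M * N := horth' i (j + 1) hi hj (by omega)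
      have h2 : γ * N ^ 2 ≤ γ * (M * Q) := mul_le_mul_of_nonneg_left hNQ hγ0
      have h3 : ⟪r i, p (j + 1)⟫_ℝ - N ^ 2 = ⟪r i, r (j + 1)⟫_ℝ
          + β j * (⟪r i, p j⟫_ℝ - ‖r j‖ ^ 2) + (β j * ‖r j‖ ^ 2 - N ^ 2) + ⟪r i, e⟫_ℝ := by
        rw [hsplit]; ring
      rw [h3]
      have h4 := abs_add_le (⟪r i, r (j + 1)⟫_ℝ + β j * (⟪r i, p j⟫_ℝ - ‖r j‖ ^ 2)
        + (β j * ‖r j‖ ^ 2 - N ^ 2)) ⟪r i, e⟫_ℝ
      have h5 := abs_add_le (⟪r i, r (j + 1)⟫_ℝ + β j * (⟪r i, p j⟫_ℝ - ‖r j‖ ^ 2))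
        (β j * ‖r j‖ ^ 2 - N ^ 2)
      have h6 := abs_add_le (⟪r i, r (j + 1)⟫_ℝ) (β j * (⟪r i, p j⟫_ℝ - ‖r j‖ ^ 2))
      push_cast
      have hγMQ : 0 ≤ γ * (M * Q) := mul_nonneg hγ0 hMQ
      linarith only [h1, h2, h4, h5, h6, herr, key, hwMN, he2, hβj, hMQ, hγ0, hγMQ]
    · by_cases hij' : i = j + 1
      · subst hij'
        simp only [hij, le_refl, if_true, if_false, sub_zero] at herr ⊢
        have h3 : ⟪r (j + 1), p (j + 1)⟫_ℝ - N ^ 2 = β j * ⟪r (j + 1), p j⟫_ℝ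
            + ⟪r (j + 1), e⟫_ℝ := by
          rw [hsplit, real_inner_self_eq_norm_sq]; ring
        rw [h3]
        have h4 := abs_add_le (β j * ⟪r (j + 1), p j⟫_ℝ) ⟪r (j + 1), e⟫_ℝ
        push_cast
        have hwMN' : 0 ≤ w * (M * N) := by positivity
        have hγMQ : 0 ≤ γ * (M * Q) := mul_nonneg hγ0 hMQ
        linarith only [h4, herr, key, hwMN, he2, hMQ, hγ0, hwMN', hγMQ]
      · have hij'' : ¬ i ≤ j + 1 := by omega
        simp only [hij, hij'', if_false, sub_zero] at herr ⊢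
        have h1 : |⟪r i, r (j + 1)⟫_ℝ| ≤ w * M * N := horth' i (j + 1) hi hj hij'
        rw [hsplit]
        have h4 := abs_add_le (⟪r i, r (j + 1)⟫_ℝ + β j * ⟪r i, p j⟫_ℝ) ⟪r i, e⟫_ℝ
        have h6 := abs_add_le (⟪r i, r (j + 1)⟫_ℝ) (β j * ⟪r i, p j⟫_ℝ)
        push_cast
        have hγMQ : 0 ≤ γ * (M * Q) := mul_nonneg hγ0 hMQ
        linarith only [h1, h4, h6, herr, key, hwMN, he2, hMQ, hγ0, hγMQ]

end Pool.Agent.Lib.MP_02bbae_an
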