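import Mathlib
import Pool.Agent.Lib.MP_02bbae_an.Sums

set_option autoImplicit false
set_option linter.unusedSectionVars false

open scoped InnerProductSpace RealInnerProductSpace
open Finset

namespace Pool.Agent.Lib.MP_02bbae_an

variable {E : Type*} [NormedAddCommGroup E] [InnerProductSpace ℝ E]

/-- the norm of the iterates -/
theorem x_norm {r p x : ℕ → E} {α : ℕ → ℝ} {γ c : ℝ} {k : ℕ} (hγ0 : 0 ≤ γ)
    (hc1 : 1 ≤ c) (hc : c + 2 * k * γ ≤ 11 / 10)
    (h0 : x 0 = 0)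
    (hx : ∀ j < k, ‖x (j + 1) - (x j + α j • p j)‖ ≤ γ * (‖x j‖ + |α j| * ‖p j‖))
    (hp : ∀ j < k, ‖p j‖ ≤ c * Pk r j) :
    ∀ j ≤ k, ‖x j‖ ≤ (c + 2 * j * γ) * Tk r α j := by
  intro j
  induction j with
  | zero =>
    intro _
    rw [h0, norm_zero]
    have := Tk_nonneg r α 0
    simp only [Nat.cast_zero, mul_zero, zero_mul, add_zero]
    positivity
  | succ j ih =>
    intro hj
    have ih' := ih (by omega)
    have hpj := hp j (by omega)
    have h1 : ‖x (j + 1)‖ ≤ (1 + γ) * (‖x j‖ + |α j| * ‖p j‖) := by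
      have e1 : x (j + 1) = (x (j + 1) - (x j + α j • p j)) + (x j + α j • p j) := by abel
      have e2 : ‖x j + α j • p j‖ ≤ ‖x j‖ + |α j| * ‖p j‖ := by
        refine le_trans (norm_add_le _ _) ?_
        rw [norm_smul, Real.norm_eq_abs]
      have e3 : ‖x (j + 1)‖ ≤ ‖x (j + 1) - (x j + α j • p j)‖ + ‖x j + α j • p j‖ := by
        conv_lhs => rw [e1]
        exact norm_add_le _ _
      have := hx j (by omega)
      linarith
    have hT0 := Tk_nonneg r α j
    have hA0 : 0 ≤ |α j| * Pk r j := mul_nonneg (abs_nonneg _) (Pk_nonneg r j)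
    have h2 : |α j| * ‖p j‖ ≤ c * (|α j| * Pk r j) := by
      have := mul_le_mul_of_nonneg_left hpj (abs_nonneg (α j))
      linarith
    have hjk : (j : ℝ) * γ ≤ k * γ := by
      apply mul_le_mul_of_nonneg_right _ hγ0
      have : j ≤ k := by omega
      exact_mod_cast this
    rw [Tk_succ]
    set T := Tk r α j
    set A := |α j| * Pk r j
    have hj0 : 0 ≤ (j : ℝ) * γ := by positivity
    have h3 : (1 + γ) * (‖x j‖ + |α j| * ‖p j‖) ≤ (1 + γ) * ((c + 2 * j * γ) * (T + A)) := by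
      apply mul_le_mul_of_nonneg_left _ (by linarith)
      have : 0 ≤ 2 * (j * γ) * A := by positivity
      nlinarith
    refine le_trans h1 (le_trans h3 ?_)
    have h4 : (1 + γ) * (c + 2 * j * γ) ≤ c + 2 * ((j + 1 : ℕ) : ℝ) * γ := by
      push_cast
      have : γ * (c + 2 * j * γ) ≤ γ * 2 := by
        apply mul_le_mul_of_nonneg_left _ hγ0
        linarith
      nlinarith
    have h5 := mul_le_mul_of_nonneg_right h4 (add_nonneg hT0 hA0)
    linarith

/-- the iterates are nearly combinations of the directions -/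
theorem x_approx {r p x : ℕ → E} {α : ℕ → ℝ} {γ c : ℝ} {k : ℕ} (hγ0 : 0 ≤ γ)
    (hc1 : 1 ≤ c) (hc : c + 2 * k * γ ≤ 11 / 10)
    (h0 : x 0 = 0)
    (hx : ∀ j < k, ‖x (j + 1) - (x j + α j • p j)‖ ≤ γ * (‖x j‖ + |α j| * ‖p j‖))
    (hp : ∀ j < k, ‖p j‖ ≤ c * Pk r j) :
    ∀ j ≤ k, ‖x j - ∑ i ∈ range j, α i • p i‖ ≤ (2 * j * γ) * Tk r α j := by
  intro j
  induction j with
  | zero =>
    intro _
    simp [h0]
  | succ j ih =>
    intro hj
    have ih' := ih (by omega)
    have hpj := hp j (by omega)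
    have hxj := x_norm hγ0 hc1 hc h0 hx hp j (by omega)
    have hT0 := Tk_nonneg r α j
    have hA0 : 0 ≤ |α j| * Pk r j := mul_nonneg (abs_nonneg _) (Pk_nonneg r j)
    have h2 : |α j| * ‖p j‖ ≤ c * (|α j| * Pk r j) := by
      have := mul_le_mul_of_nonneg_left hpj (abs_nonneg (α j))
      linarith
    have hjk : (j : ℝ) * γ ≤ k * γ := by
      apply mul_le_mul_of_nonneg_right _ hγ0
      have : j ≤ k := by omega
      exact_mod_cast this
    have hk0 : 0 ≤ (k : ℝ) * γ := by positivity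
    rw [Tk_succ]
    set T := Tk r α j
    set A := |α j| * Pk r j
    have hj0 : 0 ≤ (j : ℝ) * γ := by positivity
    have h1 : ‖x (j + 1) - ∑ i ∈ range (j + 1), α i • p i‖ ≤
        ‖x j - ∑ i ∈ range j, α i • p i‖ + γ * (‖x j‖ + |α j| * ‖p j‖) := by
      have e1 : x (j + 1) - ∑ i ∈ range (j + 1), α i • p i =
          (x j - ∑ i ∈ range j, α i • p i) + (x (j + 1) - (x j + α j • p j)) := by
        rw [sum_range_succ]; abel
      rw [e1]
      refine le_trans (norm_add_le _ _) ?_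
      have := hx j (by omega)
      linarith
    have h3 : ‖x j‖ ≤ 11 / 10 * T := by
      refine le_trans hxj ?_
      apply mul_le_mul_of_nonneg_right _ hT0
      linarith
    have h4 : |α j| * ‖p j‖ ≤ 11 / 10 * A := by
      refine le_trans h2 ?_
      apply mul_le_mul_of_nonneg_right _ hA0
      linarith
    have h5 : γ * (‖x j‖ + |α j| * ‖p j‖) ≤ γ * (11 / 10 * (T + A)) := by
      apply mul_le_mul_of_nonneg_left _ hγ0
      linarith
    push_cast
    have h6 : 0 ≤ (j * γ) * A := by positivity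
    have h7 : 0 ≤ γ * (T + A) := by positivity
    nlinarith

/-- the sum of the step sizes is controlled by the norm of the iterate -/
theorem T_le {r p x : ℕ → E} {α : ℕ → ℝ} {ω δ : ℝ} {k : ℕ}
    (hα : ∀ j < k, 0 ≤ α j) (hpos : ∀ j < k, 0 < ‖r j‖)
    (hrp : ∀ j < k, ∀ i < k, |⟪r i, p j⟫_ℝ - (if i ≤ j then ‖r j‖ ^ 2 else 0)|
      ≤ ω * (‖r i‖ * Pk r j))
    (hx : ‖x k - ∑ i ∈ range k, α i • p i‖ ≤ δ * Tk r α k) :
    (1 - k * (ω + δ)) * Tk r α k ≤ k * ‖x k‖ := by
  have hT : Tk r α k = ∑ j ∈ range k, α j * Pk r j := by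
    unfold Tk
    apply sum_congr rfl
    intro j hj
    rw [abs_of_nonneg (hα j (mem_range.mp hj))]
  -- for every i
  have hi : ∀ i ∈ range k, (∑ j ∈ range k, α j * (if i ≤ j then ‖r j‖ ^ 2 * (1 / ‖r i‖) else 0))
      - (ω + δ) * Tk r α k ≤ ‖x k‖ := by
    intro i hi
    have hi' := mem_range.mp hi
    have hNi := hpos i hi'
    have h1 : ⟪r i, ∑ j ∈ range k, α j • p j⟫_ℝ = ∑ j ∈ range k, α j * ⟪r i, p j⟫_ℝ := by
      rw [inner_sum]
      apply sum_congr rfl
      intro j _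
      rw [inner_smul_right]
    have h2 : ⟪r i, x k⟫_ℝ = ⟪r i, ∑ j ∈ range k, α j • p j⟫_ℝ
        + ⟪r i, x k - ∑ j ∈ range k, α j • p j⟫_ℝ := by
      rw [← inner_add_right]; congr 1; abel
    have h3 : ⟪r i, x k⟫_ℝ ≤ ‖r i‖ * ‖x k‖ := real_inner_le_norm _ _
    have h4 : -(‖r i‖ * (δ * Tk r α k)) ≤ ⟪r i, x k - ∑ j ∈ range k, α j • p j⟫_ℝ := by
      have := abs_real_inner_le_norm (r i) (x k - ∑ j ∈ range k, α j • p j)
      have h5 := mul_le_mul_of_nonneg_left hx hNi.le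
      have := (abs_le.mp (le_trans this h5)).1
      exact this
    have h5 : ∑ j ∈ range k, (α j * (if i ≤ j then ‖r j‖ ^ 2 else 0) - ω * (‖r i‖ * (α j * Pk r j)))
        ≤ ∑ j ∈ range k, α j * ⟪r i, p j⟫_ℝ := by
      apply sum_le_sum
      intro j hj
      have hj' := mem_range.mp hj
      have := (abs_le.mp (hrp j hj' i hi')).1
      have h6 := mul_le_mul_of_nonneg_left this (hα j hj')
      linarith
    rw [sum_sub_distrib] at h5
    have h6 : ∑ j ∈ range k, ω * (‖r i‖ * (α j * Pk r j)) = ω * ‖r i‖ * Tk r α k := by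
      rw [hT, mul_sum]
      apply sum_congr rfl
      intro j _; ring
    rw [h6] at h5
    have h7 : ∑ j ∈ range k, α j * (if i ≤ j then ‖r j‖ ^ 2 * (1 / ‖r i‖) else 0)
        = (1 / ‖r i‖) * ∑ j ∈ range k, (α j * (if i ≤ j then ‖r j‖ ^ 2 else 0)) := by
      rw [mul_sum]
      apply sum_congr rfl
      intro j _
      split_ifs <;> ring
    have h8 : ∑ j ∈ range k, (α j * (if i ≤ j then ‖r j‖ ^ 2 else 0)) - (ω + δ) * Tk r α k * ‖r i‖
        ≤ ‖x k‖ * ‖r i‖ := by nlinarith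
    have h9 : (1 / ‖r i‖) * (∑ j ∈ range k, (α j * (if i ≤ j then ‖r j‖ ^ 2 else 0))
        - (ω + δ) * Tk r α k * ‖r i‖) ≤ (1 / ‖r i‖) * (‖x k‖ * ‖r i‖) :=
      mul_le_mul_of_nonneg_left h8 (by positivity)
    rw [h7]
    have h10 : (1 / ‖r i‖) * (‖x k‖ * ‖r i‖) = ‖x k‖ := by field_simp
    have h11 : (1 / ‖r i‖) * ((ω + δ) * Tk r α k * ‖r i‖) = (ω + δ) * Tk r α k := by field_simp
    rw [h10, mul_sub, h11] at h9
    exact h9
  have hsum := sum_le_sum hi
  rw [sum_sub_distrib, sum_comm, sum_const, sum_const, card_range] at hsum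
  have hswap : ∑ j ∈ range k, ∑ i ∈ range k, α j * (if i ≤ j then ‖r j‖ ^ 2 * (1 / ‖r i‖) else 0)
      = Tk r α k := by
    rw [hT]
    apply sum_congr rfl
    intro j hj
    have hj' := mem_range.mp hj
    rw [← mul_sum]
    congr 1
    unfold Pk Sk
    rw [mul_sum, ← sum_filter]
    apply sum_congr _ (fun _ _ => rfl)
    ext i
    simp only [mem_filter, mem_range]
    omega
  rw [hswap] at hsum
  simp only [nsmul_eq_mul] at hsum
  linarith

end Pool.Agent.Lib.MP_02bbae_an
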