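import Mathlib
import Pool.Agent.Lib.MP_02bbae_an.Iterates

set_option autoImplicit false
set_option linter.unusedSectionVars false

open scoped InnerProductSpace RealInnerProductSpace
open Finset

namespace Pool.Agent.Lib.MP_02bbae_an

variable {E : Type*} [NormedAddCommGroup E] [InnerProductSpace ℝ E]

/-- the recursively computed residual is close to the true residual -/
theorem gap {T : E →ₗ[ℝ] E} (hT : GoodOp T) {b : E} {r p x : ℕ → E} {α : ℕ → ℝ} {γ c : ℝ} {k : ℕ}
    (hγ0 : 0 ≤ γ) (hc1 : 1 ≤ c) (hc : c + 2 * k * γ ≤ 11 / 10) (hkγ : 5 * k * γ ≤ 1 / 10)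
    (hb : ‖b‖ = 1) (h0 : x 0 = 0) (hr0 : r 0 = b)
    (hx : ∀ j < k, ‖x (j + 1) - (x j + α j • p j)‖ ≤ γ * (‖x j‖ + |α j| * ‖p j‖))
    (hr : ∀ j < k, ‖r (j + 1) - (r j - α j • T (p j))‖ ≤ γ * (‖r j‖ + |α j| * ‖p j‖))
    (hp : ∀ j < k, ‖p j‖ ≤ c * Pk r j) :
    ∀ j ≤ k, ‖b - T (x j) - r j‖ ≤ (5 * j * γ) * (1 + Tk r α j) := by
  intro j
  induction j with
  | zero =>
    intro _
    simp [h0, hr0]
  | succ j ih =>
    intro hj
    have ih' := ih (by omega)
    have hpj := hp j (by omega)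
    have hxj := x_norm hγ0 hc1 hc h0 hx hp j (by omega)
    have hT0 := Tk_nonneg r α j
    have hA0 : 0 ≤ |α j| * Pk r j := mul_nonneg (abs_nonneg _) (Pk_nonneg r j)
    have h2 : |α j| * ‖p j‖ ≤ c * (|α j| * Pk r j) := by
      have := mul_le_mul_of_nonneg_left hpj (abs_nonneg (α j))
      linarith
    have hjk : (j : ℝ) * γ ≤ k * γ := by
      apply mul_le_mul_of_nonneg_right _ hγ0
      have : j ≤ k := by omega
      exact_mod_cast this
    have hk0 : 0 ≤ (k : ℝ) * γ := by positivity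
    rw [Tk_succ]
    set W := Tk r α j
    set A := |α j| * Pk r j
    have hj0 : 0 ≤ (j : ℝ) * γ := by positivity
    have h3 : ‖x j‖ ≤ 11 / 10 * W := by
      refine le_trans hxj ?_
      apply mul_le_mul_of_nonneg_right _ hT0
      linarith
    have h4 : |α j| * ‖p j‖ ≤ 11 / 10 * A := by
      refine le_trans h2 ?_
      apply mul_le_mul_of_nonneg_right _ hA0
      linarith
    have hN : ‖r j‖ ≤ 12 / 10 * (1 + W) := by
      have e1 : r j = b - T (x j) - (b - T (x j) - r j) := by abel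
      have e2 : ‖r j‖ ≤ ‖b - T (x j)‖ + ‖b - T (x j) - r j‖ := by
        conv_lhs => rw [e1]
        exact norm_sub_le _ _
      have e3 : ‖b - T (x j)‖ ≤ 1 + ‖x j‖ := by
        refine le_trans (norm_sub_le _ _) ?_
        rw [hb]
        linarith [hT.bd (x j)]
      have e4 : (5 * j * γ) * (1 + W) ≤ 1 / 10 * (1 + W) := by
        apply mul_le_mul_of_nonneg_right _ (by linarith)
        linarith
      linarith
    have hsplit : b - T (x (j + 1)) - r (j + 1) = (b - T (x j) - r j)
        - T (x (j + 1) - (x j + α j • p j)) - (r (j + 1) - (r j - α j • T (p j))) := by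
      simp only [map_sub, map_add, map_smul]
      abel
    have h5 : ‖b - T (x (j + 1)) - r (j + 1)‖ ≤ ‖b - T (x j) - r j‖
        + γ * (‖x j‖ + |α j| * ‖p j‖) + γ * (‖r j‖ + |α j| * ‖p j‖) := by
      rw [hsplit]
      refine le_trans (norm_sub_le _ _) ?_
      have e1 := norm_sub_le (b - T (x j) - r j) (T (x (j + 1) - (x j + α j • p j)))
      have e2 := hT.bd (x (j + 1) - (x j + α j • p j))
      have e3 := hx j (by omega)
      have e4 := hr j (by omega)
      linarith
    have h6 : γ * (‖x j‖ + |α j| * ‖p j‖) ≤ γ * (11 / 10 * (W + A)) := by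
      apply mul_le_mul_of_nonneg_left _ hγ0
      linarith
    have h7 : γ * (‖r j‖ + |α j| * ‖p j‖) ≤ γ * (12 / 10 * (1 + W) + 11 / 10 * A) := by
      apply mul_le_mul_of_nonneg_left _ hγ0
      linarith
    push_cast
    have h8 : 0 ≤ (j * γ) * A := by positivity
    have h9 : 0 ≤ γ * W := by positivity
    have h10 : 0 ≤ γ * A := by positivity
    nlinarith

end Pool.Agent.Lib.MP_02bbae_an
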