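import Mathlib
import Pool.Agent.Lib.MP_02bbae_an.Gap

set_option autoImplicit false
set_option linter.unusedSectionVars false

open scoped InnerProductSpace RealInnerProductSpace
open Finset

namespace Pool.Agent.Lib.MP_02bbae_an

variable {E : Type*} [NormedAddCommGroup E] [InnerProductSpace ℝ E]

/-- elementary consequences of the bounds on the step length and on the residual norms -/
theorem nn_facts {N N' a β γ : ℝ} (hN : 0 < N) (hN' : 0 < N') (ha : 1 / 2 ≤ a) (hγ0 : 0 ≤ γ)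
    (hNN : N' ^ 2 ≤ 7 * a * N ^ 2) (hb : |β| * N ^ 2 ≤ (1 + γ) * N' ^ 2) :
    N' ≤ 4 * a * N ∧ |β| * N ≤ (1 + γ) * (4 * a * N') ∧ |β| ≤ (1 + γ) * (7 * a) := by
  have h1 : N' ≤ 4 * a * N := by
    have : N' ^ 2 ≤ (4 * a * N) ^ 2 := by
      have e1 : 7 * a * N ^ 2 ≤ 16 * a * a * N ^ 2 := by
        apply mul_le_mul_of_nonneg_right _ (by positivity)
        nlinarith
      nlinarith
    exact le_of_sq_le_sq this (by positivity)
  refine ⟨h1, ?_, ?_⟩
  · have h2 : (|β| * N) * N ≤ ((1 + γ) * (4 * a * N')) * N := by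
      have e1 : (1 + γ) * N' ^ 2 ≤ (1 + γ) * (N' * (4 * a * N)) := by
        apply mul_le_mul_of_nonneg_left _ (by linarith)
        nlinarith
      nlinarith
    exact le_of_mul_le_mul_right h2 hN
  · have h2 : |β| * N ^ 2 ≤ ((1 + γ) * (7 * a)) * N ^ 2 := by
      refine le_trans hb ?_
      have := mul_le_mul_of_nonneg_left hNN (by linarith : 0 ≤ 1 + γ)
      linarith
    exact le_of_mul_le_mul_right h2 (by positivity)

/-- `α j ⟪p k, T (p j)⟫` is small -/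
theorem X0 {T : E →ₗ[ℝ] E} {pk r r' p : E} {a γ ω Pik Pij Nk2 : ℝ}
    (ha : 1 / 2 ≤ a) (hγ0 : 0 ≤ γ) (hPik : 0 ≤ Pik)
    (hr : ‖r' - (r - a • T p)‖ ≤ γ * (‖r‖ + |a| * ‖p‖))
    (hpk : ‖pk‖ ≤ 1001 / 1000 * Pik) (hp : ‖p‖ ≤ 1001 / 1000 * Pij)
    (h1 : |⟪r, pk⟫_ℝ - Nk2| ≤ ω * (‖r‖ * Pik)) (h2 : |⟪r', pk⟫_ℝ - Nk2| ≤ ω * (‖r'‖ * Pik)) :
    |a * ⟪pk, T p⟫_ℝ| ≤ Pik * (ω * (‖r‖ + ‖r'‖) + 1001 / 1000 * γ * (‖r‖ + 1001 / 1000 * a * Pij)) := by
  set e := r' - (r - a • T p) with he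
  have h3 : a * ⟪pk, T p⟫_ℝ = (⟪r, pk⟫_ℝ - Nk2) - (⟪r', pk⟫_ℝ - Nk2) + ⟪pk, e⟫_ℝ := by
    have : a * ⟪pk, T p⟫_ℝ = ⟪pk, a • T p⟫_ℝ := by rw [inner_smul_right]
    rw [this]
    have e2 : a • T p = r - r' + e := by rw [he]; abel
    rw [e2, inner_add_right, inner_sub_right, real_inner_comm r pk, real_inner_comm r' pk]
    ring
  have h4 : |⟪pk, e⟫_ℝ| ≤ (1001 / 1000 * Pik) * (γ * (‖r‖ + 1001 / 1000 * a * Pij)) := by
    refine le_trans (abs_real_inner_le_norm _ _) ?_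
    apply mul_le_mul hpk _ (norm_nonneg _) (by positivity)
    refine le_trans hr ?_
    apply mul_le_mul_of_nonneg_left _ hγ0
    rw [abs_of_nonneg (by linarith)]
    have := mul_le_mul_of_nonneg_left hp (by linarith : 0 ≤ a)
    linarith
  rw [h3, abs_le]
  obtain ⟨a1, a2⟩ := abs_le.mp h1
  obtain ⟨b1, b2⟩ := abs_le.mp h2
  obtain ⟨c1, c2⟩ := abs_le.mp h4
  constructor <;> linarith

/-- `⟪p k, T (p j)⟫` is small -/
theorem X1 {a γ ω L Pik Pij N N' q : ℝ}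
    (ha : 1 / 2 ≤ a) (hγ0 : 0 ≤ γ) (hω : 0 ≤ ω) (hL : 4 ≤ L) (hPik : 0 ≤ Pik) (hN : 0 < N)
    (hN' : N' ≤ 4 * a * N) (hPij : Pij ≤ 8 * L * N)
    (h : |a * q| ≤ Pik * (ω * (N + N') + 1001 / 1000 * γ * (N + 1001 / 1000 * a * Pij))) :
    |q| ≤ Pik * N * (6 * ω + 9 * (γ * L)) := by
  have ha0 : 0 < a := by linarith
  have h1 : a * |q| ≤ a * (Pik * N * (6 * ω + 9 * (γ * L))) := by
    have e0 : a * |q| = |a * q| := by rw [abs_mul, abs_of_pos ha0]
    rw [e0]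
    refine le_trans h ?_
    have e1 : N ≤ 2 * a * N := by nlinarith
    have e2 : ω * (N + N') ≤ ω * (6 * a * N) := mul_le_mul_of_nonneg_left (by linarith) hω
    have e3 : a * Pij ≤ a * (8 * L * N) := mul_le_mul_of_nonneg_left hPij ha0.le
    have e4 : N ≤ 1 / 2 * (a * (L * N)) := by
      have : 4 * (a * N) ≤ L * (a * N) := mul_le_mul_of_nonneg_right hL (by positivity)
      nlinarith
    have e5 : γ * (N + 1001 / 1000 * a * Pij) ≤ γ * (8508 / 1000 * (a * (L * N))) := by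
      apply mul_le_mul_of_nonneg_left _ hγ0
      nlinarith
    have e6 : ω * (N + N') + 1001 / 1000 * γ * (N + 1001 / 1000 * a * Pij)
        ≤ a * N * (6 * ω + 9 * (γ * L)) := by
      have : 0 ≤ γ * (a * (L * N)) := by positivity
      nlinarith
    have := mul_le_mul_of_nonneg_left e6 hPik
    linarith
  exact le_of_mul_le_mul_left h1 ha0

/-- `β j ⟪p k, T (p j)⟫` is small -/
theorem X2 {a γ ω L Pik Pij Pij' N N' q β : ℝ}
    (ha : 1 / 2 ≤ a) (hγ0 : 0 ≤ γ) (hγ : γ ≤ 1 / 1000) (hω : 0 ≤ ω) (hL : 4 ≤ L) (hPik : 0 ≤ Pik)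
    (hN' : 0 < N')
    (hβN : |β| * N ≤ (1 + γ) * (4 * a * N')) (hβ : |β| ≤ (1 + γ) * (7 * a))
    (hβP : |β| * Pij ≤ (1 + γ) * (Pij' - N')) (hPij : Pij' ≤ 8 * L * N')
    (h : |a * q| ≤ Pik * (ω * (N + N') + 1001 / 1000 * γ * (N + 1001 / 1000 * a * Pij))) :
    |β * q| ≤ Pik * N' * (112 / 10 * ω + 10 * (γ * L)) := by
  have ha0 : 0 < a := by linarith
  have h1 : a * |β * q| ≤ a * (Pik * N' * (112 / 10 * ω + 10 * (γ * L))) := by
    have e0 : a * |β * q| = |β| * |a * q| := by rw [abs_mul, abs_mul, abs_of_pos ha0]; ring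
    rw [e0]
    have e1 := mul_le_mul_of_nonneg_left h (abs_nonneg β)
    refine le_trans e1 ?_
    have e2 : |β| * N ≤ 4004 / 1000 * (a * N') := by
      refine le_trans hβN ?_
      have : 0 ≤ a * N' := by positivity
      nlinarith
    have e3 : |β| * N' ≤ 7007 / 1000 * (a * N') := by
      have e4 := mul_le_mul_of_nonneg_right hβ hN'.le
      refine le_trans e4 ?_
      have : 0 ≤ a * N' := by positivity
      nlinarith
    have e4 : |β| * Pij ≤ 8008 / 1000 * (L * N') := by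
      refine le_trans hβP ?_
      have e5 : Pij' - N' ≤ 8 * L * N' := by linarith
      have e6 : (1 + γ) * (Pij' - N') ≤ (1 + γ) * (8 * L * N') :=
        mul_le_mul_of_nonneg_left e5 (by linarith)
      have : 0 ≤ L * N' := by positivity
      nlinarith
    have e5 : ω * (|β| * N + |β| * N') ≤ ω * (11011 / 1000 * (a * N')) :=
      mul_le_mul_of_nonneg_left (by linarith) hω
    have e6 : a * (|β| * Pij) ≤ a * (8008 / 1000 * (L * N')) := mul_le_mul_of_nonneg_left e4 ha0.le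
    have e7 : a * N' ≤ 1 / 4 * (a * (L * N')) := by
      have : 4 * (a * N') ≤ L * (a * N') := mul_le_mul_of_nonneg_right hL (by positivity)
      linarith
    have e8 : γ * (|β| * N + 1001 / 1000 * (a * (|β| * Pij))) ≤ γ * (9018 / 1000 * (a * (L * N'))) := by
      apply mul_le_mul_of_nonneg_left _ hγ0
      have f0 : 0 ≤ a * (L * N') := by positivity
      linarith
    have e9 : |β| * (ω * (N + N') + 1001 / 1000 * γ * (N + 1001 / 1000 * a * Pij))
        ≤ a * N' * (112 / 10 * ω + 10 * (γ * L)) := by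
      have f1 : 0 ≤ γ * (a * (L * N')) := by positivity
      have f2 : 0 ≤ ω * (a * N') := by positivity
      nlinarith only [e5, e8, f1, f2]
    have := mul_le_mul_of_nonneg_left e9 hPik
    linarith
  exact le_of_mul_le_mul_left h1 ha0

end Pool.Agent.Lib.MP_02bbae_an
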