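import Mathlib
import Pool.Agent.Lib.MP_02bbae_an.Step

set_option autoImplicit false

open scoped InnerProductSpace RealInnerProductSpace
open Finset

namespace Pool.Agent.Lib.MP_02bbae_an

/-- parameters of the global argument -/
structure Par2 (ε L B γ : ℝ) (m : ℕ) : Prop where
  hε : 0 < ε
  hε1 : ε ≤ 1
  hm : 2 ≤ m
  hL : L * ε = 2 * m
  hB : B = 100 * L
  hγ0 : 0 ≤ γ
  H : 2 * (m + 1) * (γ * B ^ m) ≤ 1

namespace Par2

variable {ε L B γ : ℝ} {m : ℕ} (h : Par2 ε L B γ m)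
include h

theorem m2 : (2 : ℝ) ≤ m := by exact_mod_cast h.hm

theorem Lpos : 0 < L := by
  by_contra hc
  push Not at hc
  have h1 := h.hL
  have h2 := h.m2
  have h3 : L * ε ≤ 0 := mul_nonpos_of_nonpos_of_nonneg hc h.hε.le
  linarith

theorem mL : 2 * (m : ℝ) ≤ L := by
  rw [← h.hL]
  have := mul_le_mul_of_nonneg_left h.hε1 h.Lpos.le
  linarith

theorem L4 : 4 ≤ L := by linarith [h.mL, h.m2]

theorem B1 : 1 ≤ B := by rw [h.hB]; linarith [h.L4]

theorem Bpos : 0 < B := by linarith [h.B1]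

theorem wk {k : ℕ} (hk : k ≤ m) : 2 * (m + 1) * (γ * B ^ k) ≤ 1 := by
  refine le_trans ?_ h.H
  have h1 : B ^ k ≤ B ^ m := pow_le_pow_right₀ h.B1 hk
  have h2 : γ * B ^ k ≤ γ * B ^ m := mul_le_mul_of_nonneg_left h1 h.hγ0
  exact mul_le_mul_of_nonneg_left h2 (by positivity)

/-- `γ L² (m+1) ≤ 1/20000` -/
theorem g1 : (m + 1) * (γ * L ^ 2) ≤ 1 / 20000 := by
  have h1 := h.wk h.hm
  have h2 : γ * B ^ 2 = 10000 * (γ * L ^ 2) := by rw [h.hB]; ring
  rw [h2] at h1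
  linarith

theorem g2 {k : ℕ} (hk : k < m) : (m + 1) * (γ * B ^ k * L) ≤ 1 / 200 := by
  have h1 := h.wk (Nat.succ_le_of_lt hk)
  have h2 : γ * B ^ (k + 1) = 100 * (γ * B ^ k * L) := by
    rw [pow_succ, h.hB]; ring
  rw [Nat.succ_eq_add_one, h2] at h1
  linarith

theorem γL2 : γ * L ^ 2 ≤ 1 / 60000 := by
  have h1 := h.g1
  have h2 : 3 * (γ * L ^ 2) ≤ (m + 1) * (γ * L ^ 2) := by
    apply mul_le_mul_of_nonneg_right _ (mul_nonneg h.hγ0 (by positivity))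
    linarith [h.m2]
  linarith

theorem γL : γ * L ≤ 1 / 240000 := by
  have h1 := h.γL2
  have h2 : 4 * (γ * L) ≤ L * (γ * L) := by
    apply mul_le_mul_of_nonneg_right h.L4 (mul_nonneg h.hγ0 h.Lpos.le)
  nlinarith only [h1, h2]

theorem γs : γ ≤ 1 / 960000 := by
  have h1 := h.γL
  have h2 : 4 * γ ≤ L * γ := mul_le_mul_of_nonneg_right h.L4 h.hγ0
  linarith

theorem mγL : (m + 1) * (γ * L) ≤ 1 / 80000 := by
  have h1 := h.g1
  have h2 : 4 * ((m + 1) * (γ * L)) ≤ L * ((m + 1) * (γ * L)) := by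
    apply mul_le_mul_of_nonneg_right h.L4
    have := h.hγ0; have := h.Lpos
    positivity
  nlinarith only [h1, h2]

theorem mγ : (m + 1) * γ ≤ 1 / 320000 := by
  have h1 := h.mγL
  have h2 : 4 * ((m + 1) * γ) ≤ L * ((m + 1) * γ) := by
    apply mul_le_mul_of_nonneg_right h.L4
    have := h.hγ0
    positivity
  nlinarith only [h1, h2]

/-- `(m+1) m γ ≤ ...` -/
theorem mmγL : (m + 1) * (m * γ * L) ≤ 1 / 40000 := by
  have h1 := h.g1
  have h2 : 2 * (m : ℝ) * ((m + 1) * (γ * L)) ≤ L * ((m + 1) * (γ * L)) := by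
    apply mul_le_mul_of_nonneg_right h.mL
    have := h.hγ0; have := h.Lpos
    positivity
  nlinarith only [h1, h2]

theorem kγ {k : ℕ} (hk : k ≤ m) : (k : ℝ) * γ ≤ 1 / 320000 := by
  have h1 := h.mγ
  have h2 : (k : ℝ) * γ ≤ (m + 1) * γ := by
    apply mul_le_mul_of_nonneg_right _ h.hγ0
    have : (k : ℝ) ≤ m := by exact_mod_cast hk
    linarith
  linarith

end Par2

end Pool.Agent.Lib.MP_02bbae_an
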