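import Mathlib
import Pool.Agent.Lib.MP_02bbae_an.Params
import Pool.Agent.Lib.MP_02bbae_an.Cross

set_option autoImplicit false
set_option linter.unusedSectionVars false

open scoped InnerProductSpace RealInnerProductSpace
open Finset

namespace Pool.Agent.Lib.MP_02bbae_an

variable {E : Type*} [NormedAddCommGroup E] [InnerProductSpace ℝ E]

/-- real arithmetic: bounds for the step length in the global argument -/
theorem a_facts {ε L γ N P Q s tp σ a X X' ρ ρ' e : ℝ}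
    (hε : 0 < ε) (hε1 : ε ≤ 1) (hLε : 4 ≤ L * ε) (hL4 : 4 ≤ L) (hγ0 : 0 ≤ γ)
    (hγL2 : γ * L ^ 2 ≤ 1 / 60000)
    (hN : 0 < N) (hP0 : 0 ≤ P) (hP : P ≤ 1001 / 1000 * Q) (hQ : Q ≤ 8 * L * N)
    (hX : 0 ≤ X) (hρ : ε * (X + 1) < ρ) (hρN : ρ ≤ 11 / 10 * N)
    (htp : tp ^ 2 ≤ s) (hs : s ≤ 3 / 2 * N ^ 2)
    (hσ : |σ - s| ≤ γ * P ^ 2) (ha : |a * σ - N ^ 2| ≤ γ * N ^ 2)
    (he0 : 0 ≤ e) (he : e ≤ γ * (X + |a| * P))
    (hρ' : ρ' ≤ ρ + |a| * tp + e) (hX' : |a| * P - X - e ≤ X') (hf : ε * (X' + 1) < ρ') :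
    1 / 2 ≤ a ∧ a * s ≤ 11 / 10 * N ^ 2 := by
  have hγε : γ ≤ ε ^ 2 / 960000 := by
    have e1 : 16 ≤ (L * ε) ^ 2 := by nlinarith
    have e2 : γ * 16 ≤ γ * (L * ε) ^ 2 := mul_le_mul_of_nonneg_left e1 hγ0
    have e3 : γ * (L * ε) ^ 2 = (γ * L ^ 2) * ε ^ 2 := by ring
    have e4 : (γ * L ^ 2) * ε ^ 2 ≤ 1 / 60000 * ε ^ 2 :=
      mul_le_mul_of_nonneg_right hγL2 (by positivity)
    linarith
  have hεsq : ε ^ 2 ≤ ε := by nlinarith
  have hγε1 : γ ≤ ε / 960000 := by linarith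
  have hγ1 : γ ≤ 1 / 960000 := by linarith
  have hN2 : 0 < N ^ 2 := by positivity
  have hγN : γ * N ^ 2 ≤ 1 / 960000 * N ^ 2 := mul_le_mul_of_nonneg_right hγ1 hN2.le
  obtain ⟨hσ1, hσ2⟩ := abs_le.mp hσ
  obtain ⟨ha1, ha2⟩ := abs_le.mp ha
  have hs0 : 0 ≤ s := le_trans (sq_nonneg _) htp
  have haσ : 99 / 100 * N ^ 2 ≤ a * σ := by linarith
  by_cases hc : s < 12 * γ * P ^ 2
  · exfalso
    have h1 : |σ| ≤ 13 * γ * P ^ 2 := by
      have e1 : 0 ≤ γ * P ^ 2 := by positivity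
      rw [abs_le]; constructor <;> linarith only [e1, hσ1, hσ2, hs0, hc]
    have h2 : 99 / 100 * N ^ 2 ≤ |a| * |σ| := by
      rw [← abs_mul]; exact le_trans haσ (le_abs_self _)
    have h3 : |a| * |σ| ≤ |a| * (13 * γ * P ^ 2) := mul_le_mul_of_nonneg_left h1 (abs_nonneg a)
    have hP8 : P ≤ 801 / 100 * (L * N) := by
      have : 0 ≤ L * N := by positivity
      linarith only [this, hP, hQ]
    set y := |a| * P with hy
    have hy0 : 0 ≤ y := by positivity
    have h4 : |a| * (13 * γ * P ^ 2) = 13 * γ * y * P := by rw [hy]; ring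
    have h5 : 13 * γ * y * P ≤ 13 * γ * y * (801 / 100 * (L * N)) :=
      mul_le_mul_of_nonneg_left hP8 (by positivity)
    have h6 : (99 / 100 * N) * N ≤ (13 * γ * y * (801 / 100 * L)) * N := by
      linarith only [h2, h3, h4, h5]
    have h7 : 99 / 100 * N ≤ 13 * γ * y * (801 / 100 * L) := le_of_mul_le_mul_right h6 hN
    have h8 : tp ≤ ε / 4 * P := by
      have : tp ^ 2 ≤ (ε / 4 * P) ^ 2 := by
        have e1 : 12 * γ * P ^ 2 ≤ ε ^ 2 / 16 * P ^ 2 := by
          apply mul_le_mul_of_nonneg_right _ (by positivity)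
          linarith
        linarith only [e1, htp, hc]
      exact le_of_sq_le_sq this (by positivity)
    have h9 : |a| * tp ≤ ε / 4 * y := by
      have := mul_le_mul_of_nonneg_left h8 (abs_nonneg a)
      rw [hy]; linarith
    have h10 : ε * (y - X - e + 1) ≤ ε * (X' + 1) := by
      apply mul_le_mul_of_nonneg_left _ hε.le; linarith
    have h11 : ε * e ≤ 1 * e := mul_le_mul_of_nonneg_right hε1 he0
    have h12 : γ * X ≤ ε / 960000 * X := mul_le_mul_of_nonneg_right hγε1 hX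
    have h13 : γ * y ≤ ε / 960000 * y := mul_le_mul_of_nonneg_right hγε1 hy0
    have h14 : ε * y ≤ 3 * N := by linarith
    have h15 : y ≤ 3 / 4 * (L * N) := by
      have e1 : 4 * y ≤ (L * ε) * y := mul_le_mul_of_nonneg_right hLε hy0
      have e2 : L * (ε * y) ≤ L * (3 * N) := mul_le_mul_of_nonneg_left h14 (by linarith)
      linarith
    have h16 : 13 * γ * y * (801 / 100 * L) ≤ 13 * γ * (3 / 4 * (L * N)) * (801 / 100 * L) := by
      apply mul_le_mul_of_nonneg_right _ (by linarith)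
      exact mul_le_mul_of_nonneg_left h15 (by positivity)
    have h17 : 13 * γ * (3 / 4 * (L * N)) * (801 / 100 * L) = 78.0975 * (γ * L ^ 2) * N := by ring
    have h18 : 78.0975 * (γ * L ^ 2) * N ≤ 78.0975 * (1 / 60000) * N := by
      apply mul_le_mul_of_nonneg_right _ hN.le
      linarith
    linarith
  · push Not at hc
    have h1 : γ * P ^ 2 ≤ s / 12 := by linarith
    have h2 : 11 / 12 * s ≤ σ := by linarith
    have h3 : σ ≤ 13 / 12 * s := by linarith
    have hσ0 : 0 < σ := by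
      rcases lt_or_eq_of_le (by linarith : 0 ≤ σ) with h | h
      · exact h
      · rw [← h] at haσ; linarith
    have ha0 : 0 < a := by
      by_contra h
      push Not at h
      have : a * σ ≤ 0 := mul_nonpos_of_nonpos_of_nonneg h hσ0.le
      linarith
    constructor
    · by_contra h
      push Not at h
      have : a * σ ≤ 1 / 2 * σ := mul_le_mul_of_nonneg_right h.le hσ0.le
      linarith
    · have := mul_le_mul_of_nonneg_left h2 ha0.le
      linarith

/-- real arithmetic: growth of the residual norms -/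
theorem NN_step {γ L N N' Q a s tp : ℝ} (hγ0 : 0 ≤ γ) (hγ : γ ≤ 1 / 960000)
    (hγL : γ * L ≤ 1 / 240000)
    (hN : 0 < N) (hN' : 0 ≤ N') (ha : 1 / 2 ≤ a) (htp : tp ^ 2 ≤ s)
    (has : a * s ≤ 11 / 10 * N ^ 2) (haQ : a * Q ≤ L * N')
    (h : N' ≤ N + a * tp + γ * (N + 1001 / 1000 * (a * Q))) :
    N' ^ 2 ≤ 7 * a * N ^ 2 := by
  have h1 : γ * (a * Q) ≤ 1 / 240000 * N' := by
    have e1 := mul_le_mul_of_nonneg_left haQ hγ0
    have e2 : γ * (L * N') = (γ * L) * N' := by ring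
    have e3 := mul_le_mul_of_nonneg_right hγL hN'
    linarith
  have h2 : γ * N ≤ 1 / 960000 * N := mul_le_mul_of_nonneg_right hγ hN.le
  have h3 : 99 / 100 * N' ≤ 101 / 100 * N + a * tp := by linarith
  have h4 : (99 / 100 * N') ^ 2 ≤ (101 / 100 * N + a * tp) ^ 2 :=
    pow_le_pow_left₀ (by linarith) h3 2
  have ha0 : 0 < a := by linarith
  have h5 : (101 / 100 * N + a * tp) ^ 2 ≤ 2 * (101 / 100 * N) ^ 2 + 2 * (a * tp) ^ 2 := by
    nlinarith [sq_nonneg (101 / 100 * N - a * tp)]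
  have h6 : (a * tp) ^ 2 ≤ a * (11 / 10 * N ^ 2) := by
    have e1 : (a * tp) ^ 2 = a * (a * tp ^ 2) := by ring
    rw [e1]
    apply mul_le_mul_of_nonneg_left _ ha0.le
    have := mul_le_mul_of_nonneg_left htp ha0.le
    linarith
  have h7 : N ^ 2 ≤ 2 * a * N ^ 2 := by
    have : 0 < N ^ 2 := by positivity
    nlinarith
  have h8 : 0 ≤ a * N ^ 2 := by positivity
  nlinarith only [h4, h5, h6, h7, h8]

end Pool.Agent.Lib.MP_02bbae_an
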