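import Mathlib
import Pool.Agent.Lib.MP_02bbae_an.Scalars

set_option autoImplicit false
set_option linter.unusedSectionVars false

open scoped InnerProductSpace RealInnerProductSpace
open Finset

namespace Pool.Agent.Lib.MP_02bbae_an

variable {E : Type*} [NormedAddCommGroup E] [InnerProductSpace ℝ E]

/-- the state of the induction after `k` steps -/
structure St (r : ℕ → E) (α : ℕ → ℝ) (γ L B : ℝ) (k : ℕ) : Prop where
  pos : ∀ j ≤ k, 0 < ‖r j‖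
  Tb : ∀ j ≤ k, 1 + Tk r α j ≤ L * ‖r j‖
  Pb : ∀ j ≤ k, Pk r j ≤ 8 * L * ‖r j‖
  ab : ∀ j < k, 1 / 2 ≤ α j
  NN : ∀ j < k, ‖r (j + 1)‖ ^ 2 ≤ 7 * α j * ‖r j‖ ^ 2
  orth : ∀ i j, i < j → j ≤ k → |⟪r i, r j⟫_ℝ| ≤ γ * B ^ k * ‖r i‖ * ‖r j‖

variable {T : E →ₗ[ℝ] E} {ε L B γ : ℝ} {m : ℕ} {b : E} {x r p : ℕ → E} {α β σ : ℕ → ℝ}

theorem St_zero (hP : Par2 ε L B γ m) (hb : ‖b‖ = 1) (hr : r 0 = b) : St r α γ L B 0 := by
  have h1 : ‖r 0‖ = 1 := by rw [hr, hb]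
  refine ⟨?_, ?_, ?_, ?_, ?_, ?_⟩
  · intro j hj
    have : j = 0 := by omega
    subst this; rw [h1]; norm_num
  · intro j hj
    have : j = 0 := by omega
    subst this
    rw [h1]
    simp only [Tk, range_zero, sum_empty]
    linarith [hP.L4]
  · intro j hj
    have : j = 0 := by omega
    subst this
    rw [Pk_zero (by rw [h1]; norm_num), h1]
    linarith [hP.L4]
  · intro j hj; omega
  · intro j hj; omega
  · intro i j h1 h2; omega

/-- the small parameter of the orthogonality estimates -/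
theorem omega_bd (hP : Par2 ε L B γ m) {k : ℕ} (hk : k < m) :
    (γ * B ^ k + 3 * k * γ) * L ≤ 1 / 580 ∧ 0 ≤ γ * B ^ k ∧
    (m : ℝ) * (γ * B ^ k + 5 * m * γ) ≤ 1 / 600 := by
  have h1 := hP.g2 hk
  have h2 := hP.mγL
  have hk' : (k : ℝ) ≤ m := by exact_mod_cast hk.le
  have hγ0 := hP.hγ0
  have hL0 := hP.Lpos
  have hB0 := hP.Bpos
  have h0 : 0 ≤ γ * B ^ k := by positivity
  have hm := hP.m2
  have h3 : 3 * (γ * B ^ k * L) ≤ (m + 1) * (γ * B ^ k * L) := by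
    apply mul_le_mul_of_nonneg_right (by linarith) (by positivity)
  have h4 : (k : ℝ) * (γ * L) ≤ (m + 1) * (γ * L) := by
    apply mul_le_mul_of_nonneg_right (by linarith) (by positivity)
  refine ⟨by linarith, h0, ?_⟩
  have h5 := hP.mmγL
  have h6 : 4 * ((m + 1) * (γ * B ^ k)) ≤ L * ((m + 1) * (γ * B ^ k)) :=
    mul_le_mul_of_nonneg_right hP.L4 (by positivity)
  have h7 : 4 * ((m + 1) * (m * γ)) ≤ L * ((m + 1) * (m * γ)) :=
    mul_le_mul_of_nonneg_right hP.L4 (by positivity)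
  have h8 : 0 ≤ m * γ := by positivity
  nlinarith only [h1, h5, h6, h7, h0, h8]

/-- bounds for directions in state `k` -/
theorem St.pn (hP : Par2 ε L B γ m) {k : ℕ}
    (H : PCG T γ (k + 1) b x r p α β σ) (hk : k < m)
    (hS : St r α γ L B k) : ∀ j ≤ k, ‖p j‖ ≤ 1001 / 1000 * Pk r j := by
  intro j hj
  have hkγ := hP.kγ hk.le
  have h1 := p_norm hP.hγ0 (k := k) (by linarith) (by rw [H.p0, H.r0])
    (fun j hj => H.hp j (by omega)) (fun j hj => H.hβ j (by omega)) hS.pos j hj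
  refine le_trans h1 ?_
  apply mul_le_mul_of_nonneg_right _ (Pk_nonneg r j)
  have : (j : ℝ) * γ ≤ k * γ := by
    apply mul_le_mul_of_nonneg_right _ hP.hγ0
    exact_mod_cast hj
  linarith

/-- inner products in state `k` -/
theorem St.rp (hP : Par2 ε L B γ m) {k : ℕ}
    (H : PCG T γ (k + 1) b x r p α β σ) (hk : k < m)
    (hS : St r α γ L B k) : ∀ j ≤ k, ∀ i ≤ k, |⟪r i, p j⟫_ℝ - (if i ≤ j then ‖r j‖ ^ 2 else 0)|
      ≤ (γ * B ^ k + 3 * k * γ) * (‖r i‖ * Pk r j) := by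
  intro j hj i hi
  have hkγ := hP.kγ hk.le
  obtain ⟨h1, h2, _⟩ := omega_bd hP hk
  have hL := hP.L4
  have h3 : γ * B ^ k + 3 * k * γ ≤ 1 / 10 := by
    have e0 : 0 ≤ γ * B ^ k + 3 * k * γ := by
      have := hP.hγ0
      positivity
    have : (γ * B ^ k + 3 * k * γ) * 4 ≤ (γ * B ^ k + 3 * k * γ) * L :=
      mul_le_mul_of_nonneg_left hL e0
    linarith
  have h4 := rp_inner hP.hγ0 h2 h3 (by linarith) (by rw [H.p0, H.r0])
    (fun j hj => H.hp j (by omega)) (fun j hj => H.hβ j (by omega)) hS.pos hS.orth j hj i hi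
  refine le_trans h4 ?_
  apply mul_le_mul_of_nonneg_right
  · have : (j : ℝ) * γ ≤ k * γ := by
      apply mul_le_mul_of_nonneg_right _ hP.hγ0
      exact_mod_cast hj
    linarith
  · exact mul_nonneg (norm_nonneg _) (Pk_nonneg r j)

/-- `β`-bounds -/
theorem beta_le (H : PCG T γ m b x r p α β σ) {j : ℕ} (hj : j < m) :
    |β j| * ‖r j‖ ^ 2 ≤ (1 + γ) * ‖r (j + 1)‖ ^ 2 := by
  have h3 : |β j| * ‖r j‖ ^ 2 = |β j * ‖r j‖ ^ 2| := by
    rw [abs_mul, abs_of_nonneg (by positivity : (0 : ℝ) ≤ ‖r j‖ ^ 2)]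
  rw [h3]
  have h4 : |β j * ‖r j‖ ^ 2| ≤ |β j * ‖r j‖ ^ 2 - ‖r (j + 1)‖ ^ 2| + |‖r (j + 1)‖ ^ 2| := by
    have := abs_add_le (β j * ‖r j‖ ^ 2 - ‖r (j + 1)‖ ^ 2) (‖r (j + 1)‖ ^ 2)
    simpa using this
  rw [abs_of_nonneg (by positivity : (0 : ℝ) ≤ ‖r (j + 1)‖ ^ 2)] at h4
  have := H.hβ j hj
  linarith

/-- the error in the update of the directions -/
theorem St.ep (hP : Par2 ε L B γ m) {k : ℕ}
    (H : PCG T γ (k + 1) b x r p α β σ) (hk : k < m)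
    (hS : St r α γ L B k) : ∀ j < k, ‖p (j + 1) - (r (j + 1) + β j • p j)‖
      ≤ γ * (101 / 100 * Pk r (j + 1)) := by
  intro j hj
  refine le_trans (H.hp j (by omega)) ?_
  apply mul_le_mul_of_nonneg_left _ hP.hγ0
  have h1 := hS.pn hP H hk j (by omega)
  have hN' := hS.pos (j + 1) (by omega)
  have h2 := beta_Pk (hS.pos j (by omega)) hN' (H.hβ j (by omega))
  have h3 := mul_le_mul_of_nonneg_left h1 (abs_nonneg (β j))
  have h4 := Pk_ge' hN'
  have hγ := hP.γs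
  have h5 : (1 + γ) * (Pk r (j + 1) - ‖r (j + 1)‖) ≤ 1001 / 1000 * (Pk r (j + 1) - ‖r (j + 1)‖) := by
    apply mul_le_mul_of_nonneg_right _ (by linarith)
    linarith
  have h6 := Pk_nonneg r (j + 1)
  nlinarith only [h2, h3, h5, h6, hN', h4]

/-- `⟪p k, T (p j)⟫` and `β j ⟪p k, T (p j)⟫` for `j < k` -/
theorem St.cross (hP : Par2 ε L B γ m) {k : ℕ}
    (H : PCG T γ (k + 1) b x r p α β σ) (hk : k < m)
    (hS : St r α γ L B k) : ∀ j < k,
      |⟪p k, T (p j)⟫_ℝ| ≤ Pk r k * ‖r j‖ * (6 * (γ * B ^ k + 3 * k * γ) + 9 * (γ * L)) ∧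
      |β j * ⟪p k, T (p j)⟫_ℝ| ≤ Pk r k * ‖r (j + 1)‖ *
        (112 / 10 * (γ * B ^ k + 3 * k * γ) + 10 * (γ * L)) := by
  intro j hj
  have hγ0 := hP.hγ0
  have hγ := hP.γs
  have hN := hS.pos j (by omega)
  have hN' := hS.pos (j + 1) (by omega)
  have ha := hS.ab j hj
  have hb := beta_le H (show j < k + 1 by omega)
  obtain ⟨f1, f2, f3⟩ := nn_facts hN hN' ha hγ0 (hS.NN j hj) hb
  have hω : 0 ≤ γ * B ^ k + 3 * k * γ := by
    have := hP.Bpos
    positivity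
  have hPik := Pk_nonneg r k
  have e1 := hS.rp hP H hk k (le_refl k) j (by omega)
  have e2 := hS.rp hP H hk k (le_refl k) (j + 1) (by omega)
  rw [if_pos (by omega)] at e1 e2
  have h0 := X0 (T := T) (a := α j) (γ := γ) (Pik := Pk r k) (Pij := Pk r j) ha hγ0 hPik
    (H.hr j (by omega)) (hS.pn hP H hk k (le_refl k)) (hS.pn hP H hk j (by omega))
    (ω := γ * B ^ k + 3 * k * γ) (Nk2 := ‖r k‖ ^ 2) (by linarith) (by linarith)
  constructor
  · exact X1 ha hγ0 hω hP.L4 hPik hN f1 (hS.Pb j (by omega)) h0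
  · exact X2 ha hγ0 (by linarith) hω hP.L4 hPik hN' f2 f3
      (beta_Pk hN hN' (H.hβ j (by omega))) (hS.Pb (j + 1) (by omega)) h0

end Pool.Agent.Lib.MP_02bbae_an
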