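import Mathlib
import Pool.Agent.Lib.MP_02bbae_an.State

set_option autoImplicit false
set_option linter.unusedSectionVars false

open scoped InnerProductSpace RealInnerProductSpace
open Finset

namespace Pool.Agent.Lib.MP_02bbae_an

variable {E : Type*} [NormedAddCommGroup E] [InnerProductSpace ℝ E]
variable {T : E →ₗ[ℝ] E} {ε L B γ : ℝ} {m : ℕ} {b : E} {x r p : ℕ → E} {α β σ : ℕ → ℝ}

/-- the energy of the current direction -/
theorem St.energy (hT : GoodOp T) (hP : Par2 ε L B γ m) {k : ℕ}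
    (H : PCG T γ (k + 1) b x r p α β σ) (hk : k < m) (hS : St r α γ L B k) : ⟪p k, T (p k)⟫_ℝ ≤ 3 / 2 * ‖r k‖ ^ 2 := by
  have hN := hS.pos k (le_refl k)
  rcases Nat.eq_zero_or_pos k with h0 | h0
  · subst h0
    have := hT.inner_le (p 0)
    rw [H.p0, ← H.r0] at this ⊢
    have : 0 < ‖r 0‖ ^ 2 := by positivity
    linarith
  · obtain ⟨j, rfl⟩ : ∃ j, k = j + 1 := ⟨k - 1, by omega⟩
    have hPb := hS.Pb (j + 1) (le_refl _)
    have hcr := (hS.cross hP H hk j (Nat.lt_succ_self j)).2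
    have hep := hS.ep hP H hk j (Nat.lt_succ_self j)
    obtain ⟨hω1, hω2, _⟩ := omega_bd hP hk
    have hγL2 := hP.γL2
    have hγL := hP.γL
    set N := ‖r (j + 1)‖ with hNd
    set Q := Pk r (j + 1) with hQd
    have hQ0 : 0 ≤ Q := Pk_nonneg _ _
    set ω := γ * B ^ (j + 1) + 3 * ((j + 1 : ℕ) : ℝ) * γ with hωd
    have hω0 : 0 ≤ ω := by
      have := hP.hγ0; have := hP.Bpos
      positivity
    have hγ0 := hP.hγ0
    -- the cross term
    have h1 : |β j * ⟪p (j + 1), T (p j)⟫_ℝ| ≤ 17 / 100 * N ^ 2 := by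
      refine le_trans hcr ?_
      have e1 : Q * N * (112 / 10 * ω + 10 * (γ * L)) ≤ (8 * L * N) * N * (112 / 10 * ω + 10 * (γ * L)) := by
        apply mul_le_mul_of_nonneg_right
        · exact mul_le_mul_of_nonneg_right hPb hN.le
        · have := hP.Lpos
          positivity
      refine le_trans e1 ?_
      have e2 : (8 * L * N) * N * (112 / 10 * ω + 10 * (γ * L)) =
          (896 / 10 * (ω * L) + 80 * (γ * L ^ 2)) * N ^ 2 := by ring
      rw [e2]
      apply mul_le_mul_of_nonneg_right _ (by positivity)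
      linarith
    set v := p (j + 1) - β j • p j with hv
    have hv1 : ‖v‖ ≤ 1001 / 1000 * N := by
      have : v = (p (j + 1) - (r (j + 1) + β j • p j)) + r (j + 1) := by rw [hv]; abel
      rw [this]
      refine le_trans (norm_add_le _ _) ?_
      have e1 : γ * (101 / 100 * Q) ≤ γ * (101 / 100 * (8 * L * N)) := by
        apply mul_le_mul_of_nonneg_left _ hγ0
        linarith
      have e2 : γ * (101 / 100 * (8 * L * N)) = 808 / 100 * ((γ * L) * N) := by ring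
      have e3 : (γ * L) * N ≤ 1 / 240000 * N := mul_le_mul_of_nonneg_right hγL hN.le
      linarith
    have hv2 : ⟪v, T v⟫_ℝ ≤ 101 / 100 * N ^ 2 := by
      refine le_trans (hT.inner_le v) ?_
      have := pow_le_pow_left₀ (norm_nonneg v) hv1 2
      have e1 : 0 ≤ N ^ 2 := by positivity
      linarith
    have hexp : ⟪v, T v⟫_ℝ = ⟪p (j + 1), T (p (j + 1))⟫_ℝ - 2 * (β j * ⟪p (j + 1), T (p j)⟫_ℝ)
        + β j ^ 2 * ⟪p j, T (p j)⟫_ℝ := by
      rw [hv, map_sub, map_smul, inner_sub_left, inner_sub_right, inner_sub_right, inner_smul_left,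
        inner_smul_right, inner_smul_left, inner_smul_right, ← hT.sym (p j) (p (j + 1)),
        real_inner_comm (p (j + 1)) (T (p j))]
      simp
      ring
    have hp2 : 0 ≤ β j ^ 2 * ⟪p j, T (p j)⟫_ℝ := mul_nonneg (sq_nonneg _) (hT.pos (p j))
    obtain ⟨c1, c2⟩ := abs_le.mp h1
    have : 0 ≤ N ^ 2 := by positivity
    linarith

/-- a failing iterate -/
def Fail (T : E →ₗ[ℝ] E) (ε : ℝ) (b : E) (x : ℕ → E) (k : ℕ) : Prop :=
  ε * (‖x k‖ + 1) < ‖b - T (x k)‖

/-- bounds for iterates and residuals after `k + 1` steps, given the state after `k` steps -/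
theorem St.next_x (hT : GoodOp T) (hP : Par2 ε L B γ m) {k : ℕ}
    (H : PCG T γ (k + 1) b x r p α β σ) (hb : ‖b‖ = 1) (hk : k < m) (hS : St r α γ L B k) {j : ℕ} (hj : j ≤ k + 1) :
    ‖x j‖ ≤ 11 / 10 * Tk r α j ∧ ‖b - T (x j) - r j‖ ≤ (5 * m * γ) * (1 + Tk r α j) ∧
    ‖x j - ∑ i ∈ range j, α i • p i‖ ≤ (2 * m * γ) * Tk r α j := by
  have hγ0 := hP.hγ0
  have hkγ : ((k + 1 : ℕ) : ℝ) * γ ≤ 1 / 320000 := hP.kγ hk
  have hp : ∀ j < k + 1, ‖p j‖ ≤ 1001 / 1000 * Pk r j := fun j hj => hS.pn hP H hk j (by omega)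
  have hc : 1001 / 1000 + 2 * ((k + 1 : ℕ) : ℝ) * γ ≤ 11 / 10 := by linarith
  have h1 := x_norm (k := k + 1) hγ0 (by norm_num) hc H.x0 (fun j hj => H.hx j (by omega)) hp j hj
  have h2 := x_approx (k := k + 1) hγ0 (by norm_num) hc H.x0 (fun j hj => H.hx j (by omega)) hp j hj
  have h3 := gap (k := k + 1) hT hγ0 (by norm_num) hc (by linarith) hb H.x0 H.r0
    (fun j hj => H.hx j (by omega)) (fun j hj => H.hr j (by omega)) hp j hj
  have hT0 := Tk_nonneg r α j
  have hjk : (j : ℝ) * γ ≤ ((k + 1 : ℕ) : ℝ) * γ := by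
    apply mul_le_mul_of_nonneg_right _ hγ0
    exact_mod_cast hj
  have hjm : (j : ℝ) * γ ≤ m * γ := by
    apply mul_le_mul_of_nonneg_right _ hγ0
    have : j ≤ m := by omega
    exact_mod_cast this
  refine ⟨le_trans h1 ?_, le_trans h3 ?_, le_trans h2 ?_⟩
  · apply mul_le_mul_of_nonneg_right _ hT0
    linarith
  · apply mul_le_mul_of_nonneg_right _ (by linarith)
    linarith
  · apply mul_le_mul_of_nonneg_right _ hT0
    linarith

/-- in a state, a failing iterate has a true residual close to the computed one -/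
theorem St.rho (hT : GoodOp T) (hP : Par2 ε L B γ m) {k : ℕ}
    (H : PCG T γ (k + 1) b x r p α β σ) (hb : ‖b‖ = 1) (hk : k < m) (hS : St r α γ L B k) :
    ‖b - T (x k)‖ ≤ 11 / 10 * ‖r k‖ := by
  obtain ⟨_, h2, _⟩ := hS.next_x hT hP H hb hk (Nat.le_succ k)
  have h3 := hS.Tb k (le_refl k)
  have h4 := hP.mγL
  have hγ0 := hP.hγ0
  have e1 : b - T (x k) = (b - T (x k) - r k) + r k := by abel
  have e2 : ‖b - T (x k)‖ ≤ ‖b - T (x k) - r k‖ + ‖r k‖ := by
    conv_lhs => rw [e1]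
    exact norm_add_le _ _
  have e3 : (5 * m * γ) * (1 + Tk r α k) ≤ (5 * m * γ) * (L * ‖r k‖) :=
    mul_le_mul_of_nonneg_left h3 (by positivity)
  have e4 : (5 * m * γ) * (L * ‖r k‖) = 5 * ((m * (γ * L)) * ‖r k‖) := by ring
  have e5 : (m * (γ * L)) * ‖r k‖ ≤ 1 / 80000 * ‖r k‖ := by
    apply mul_le_mul_of_nonneg_right _ (norm_nonneg _)
    have : 0 ≤ γ * L := mul_nonneg hγ0 hP.Lpos.le
    linarith
  have := norm_nonneg (r k)
  linarith

/-- the step length in step `k` -/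
theorem St.step_len (hT : GoodOp T) (hP : Par2 ε L B γ m) {k : ℕ}
    (H : PCG T γ (k + 1) b x r p α β σ) (hb : ‖b‖ = 1) (hk : k < m) (hS : St r α γ L B k)
    (hF : Fail T ε b x k) (hF' : Fail T ε b x (k + 1)) :
    1 / 2 ≤ α k ∧ α k * ⟪p k, T (p k)⟫_ℝ ≤ 11 / 10 * ‖r k‖ ^ 2 := by
  have hex := H.hx k (Nat.lt_succ_self k)
  set e := x (k + 1) - (x k + α k • p k) with he
  have hLε : 4 ≤ L * ε := by rw [hP.hL]; linarith [hP.m2]
  refine a_facts (ε := ε) (L := L) (γ := γ) (N := ‖r k‖) (P := ‖p k‖) (Q := Pk r k)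
    (tp := ‖T (p k)‖) (X := ‖x k‖) (X' := ‖x (k + 1)‖) (ρ := ‖b - T (x k)‖)
    (ρ' := ‖b - T (x (k + 1))‖) (e := ‖e‖) (σ := σ k)
    hP.hε hP.hε1 hLε hP.L4 hP.hγ0 hP.γL2 (hS.pos k (le_refl k))
    (norm_nonneg _) (hS.pn hP H hk k (le_refl k)) (hS.Pb k (le_refl k)) (norm_nonneg _)
    hF (hS.rho hT hP H hb hk) (hT.sq_le (p k)) (hS.energy hT hP H hk) (H.hσ k (Nat.lt_succ_self k)) (H.hα k (Nat.lt_succ_self k))
    (norm_nonneg _) hex ?_ ?_ hF'
  · have h1 : b - T (x (k + 1)) = (b - T (x k)) - α k • T (p k) - T e := by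
      rw [he]; simp only [map_sub, map_add, map_smul]; abel
    rw [h1]
    refine le_trans (norm_sub_le _ _) ?_
    have h2 := norm_sub_le (b - T (x k)) (α k • T (p k))
    rw [norm_smul, Real.norm_eq_abs] at h2
    have h3 := hT.bd e
    linarith
  · have h1 : α k • p k = x (k + 1) - x k - e := by rw [he]; abel
    have h2 : |α k| * ‖p k‖ = ‖α k • p k‖ := by rw [norm_smul, Real.norm_eq_abs]
    rw [h2, h1]
    have h3 := norm_sub_le (x (k + 1) - x k) e
    have h4 := norm_sub_le (x (k + 1)) (x k)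
    linarith

end Pool.Agent.Lib.MP_02bbae_an
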