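import Mathlib
import Pool.Agent.Lib.MP_02bbae_an.StepLength

/-!
# Many steps: a bound for the number of steps from the decrease of the energy
-/

set_option autoImplicit false
set_option linter.unusedSectionVars false

open scoped InnerProductSpace RealInnerProductSpace
open Finset

namespace Pool.Agent.Lib.MP_02bbae_an

variable {E : Type*} [NormedAddCommGroup E] [InnerProductSpace ℝ E]

/-- parameters of the local argument -/
structure Par3 (ε L γ : ℝ) (m : ℕ) : Prop where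
  hε : 0 < ε
  hε1 : ε ≤ 1
  hL : L * ε ^ 2 = 5
  hγ0 : 0 ≤ γ
  hm : 1 ≤ m
  H : 10000 * (m * (L ^ 4 * γ)) ≤ ε

namespace Par3

variable {ε L γ : ℝ} {m : ℕ} (h : Par3 ε L γ m)
include h

theorem Lpos : 0 < L := by
  by_contra hc
  push Not at hc
  have h1 := h.hL
  have h2 : 0 < ε ^ 2 := by have := h.hε; positivity
  nlinarith

theorem εsq : ε ^ 2 ≤ ε := by
  have := h.hε; have := h.hε1; nlinarith

theorem Lε5 : 5 ≤ L * ε := by
  have := mul_le_mul_of_nonneg_left h.εsq h.Lpos.le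
  rw [h.hL] at this
  exact this

theorem L5 : 5 ≤ L := by
  have h1 := h.Lε5
  have := mul_le_mul_of_nonneg_left h.hε1 h.Lpos.le
  linarith

theorem m1 : (1 : ℝ) ≤ m := by exact_mod_cast h.hm

theorem q4 : m * (L ^ 4 * γ) ≤ ε / 10000 := by linarith [h.H]

theorem q3 : m * (L ^ 3 * γ) ≤ ε / 50000 := by
  have h1 := h.q4
  have h2 : 5 * (m * (L ^ 3 * γ)) ≤ L * (m * (L ^ 3 * γ)) := by
    apply mul_le_mul_of_nonneg_right h.L5
    have := h.hγ0; have := h.Lpos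
    positivity
  have h3 : L * (m * (L ^ 3 * γ)) = m * (L ^ 4 * γ) := by ring
  linarith

theorem q2 : m * (L ^ 2 * γ) ≤ ε / 250000 := by
  have h1 := h.q3
  have h2 : 5 * (m * (L ^ 2 * γ)) ≤ L * (m * (L ^ 2 * γ)) := by
    apply mul_le_mul_of_nonneg_right h.L5
    have := h.hγ0; have := h.Lpos
    positivity
  have h3 : L * (m * (L ^ 2 * γ)) = m * (L ^ 3 * γ) := by ring
  linarith

theorem le_m {x : ℝ} (hx : 0 ≤ x) : x ≤ m * x := by
  have := mul_le_mul_of_nonneg_right h.m1 hx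
  linarith

theorem s4 : L ^ 4 * γ ≤ ε / 10000 :=
  (h.le_m (by have := h.hγ0; have := h.Lpos; positivity)).trans h.q4

theorem s3 : L ^ 3 * γ ≤ ε / 50000 :=
  (h.le_m (by have := h.hγ0; have := h.Lpos; positivity)).trans h.q3

theorem s2 : L ^ 2 * γ ≤ ε / 250000 :=
  (h.le_m (by have := h.hγ0; have := h.Lpos; positivity)).trans h.q2

theorem s1 : L * γ ≤ ε / 1250000 := by
  have h1 := h.s2
  have h2 : 5 * (L * γ) ≤ L * (L * γ) := by
    apply mul_le_mul_of_nonneg_right h.L5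
    have := h.hγ0; have := h.Lpos
    positivity
  have h3 : L * (L * γ) = L ^ 2 * γ := by ring
  linarith

theorem s0 : γ ≤ ε ^ 2 / 1000 := by
  have h1 := h.s1
  have h2 : 5 * γ ≤ ε * ε ^ 2 := by
    have h3 : ε ^ 2 * (L * γ) ≤ ε ^ 2 * (ε / 1250000) :=
      mul_le_mul_of_nonneg_left h1 (by positivity)
    have h4 : ε ^ 2 * (L * γ) = (L * ε ^ 2) * γ := by ring
    rw [h4, h.hL] at h3
    have h5 : 0 ≤ ε ^ 2 * ε := by have := h.hε; positivity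
    linarith
  have h3 : 5 * γ ≤ ε ^ 2 * (ε / 1250000) := by
    have h3 : ε ^ 2 * (L * γ) ≤ ε ^ 2 * (ε / 1250000) :=
      mul_le_mul_of_nonneg_left h1 (by positivity)
    have h4 : ε ^ 2 * (L * γ) = (L * ε ^ 2) * γ := by ring
    rw [h4, h.hL] at h3
    exact h3
  have h4 : ε ^ 2 * (ε / 1250000) ≤ ε ^ 2 * (1 / 1250000) := by
    apply mul_le_mul_of_nonneg_left _ (by positivity)
    linarith [h.hε1]
  have h5 : 0 ≤ ε ^ 2 := by positivity
  linarith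

theorem s0' : γ ≤ 1 / 1000000 := by
  have h1 := h.s1
  have h2 : 5 * γ ≤ L * γ := mul_le_mul_of_nonneg_right h.L5 h.hγ0
  have := h.hε1
  have := h.hε
  linarith

end Par3

/-- the energy gained -/
noncomputable def Ek (r : ℕ → E) (α : ℕ → ℝ) (k : ℕ) : ℝ := ∑ j ∈ range k, α j * ‖r j‖ ^ 2

theorem Ek_succ (r : ℕ → E) (α : ℕ → ℝ) (k : ℕ) :
    Ek r α (k + 1) = Ek r α k + α k * ‖r k‖ ^ 2 := by
  unfold Ek; rw [sum_range_succ]

/-- the local state -/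
structure LS (T : E →ₗ[ℝ] E) (ε L γ : ℝ) (b : E) (x r p : ℕ → E) (α : ℕ → ℝ) (k : ℕ) : Prop where
  pos : 0 < ‖r k‖
  ip : |⟪r k, p k⟫_ℝ - ‖r k‖ ^ 2| ≤ (8 * k * (L ^ 4 * γ)) * ‖r k‖ ^ 2
  pr : |⟪T (p k), p k - r k⟫_ℝ| ≤ (1 + γ) * (8 * k * (L ^ 4 * γ)) * ‖r k‖ ^ 2
    + ‖p k‖ * (3 / 2 * L ^ 2 * γ * ‖r k‖)
  en : ⟪p k, T (p k)⟫_ℝ ≤ 101 / 100 * ‖r k‖ ^ 2
  Pn : ‖p k‖ ≤ 3 / 2 * L ^ 2 * ‖r k‖
  gap : ‖b - T (x k) - r k‖ ≤ 6 * k * (L ^ 2 * γ)
  Ef : 49 / 100 * Ek r α k ≤ ⟪b, x k⟫_ℝ - 1 / 2 * ⟪x k, T (x k)⟫_ℝ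
  Ru : ‖r k‖ * ε ≤ 12
  E0 : 0 ≤ Ek r α k

variable {T : E →ₗ[ℝ] E} {ε L γ : ℝ} {m : ℕ} {b : E} {x r p : ℕ → E} {α β σ : ℕ → ℝ}

/-- consequences of the state and of the failure -/
structure LS2 (T : E →ₗ[ℝ] E) (ε L γ : ℝ) (b : E) (x r p : ℕ → E) (α : ℕ → ℝ) (k : ℕ) : Prop where
  Rl : 99 / 100 * ε ≤ ‖r k‖
  gL : ‖b - T (x k) - r k‖ * L ≤ 1 / 5000 * ‖r k‖
  g1 : ‖b - T (x k) - r k‖ ≤ 1 / 25000 * ‖r k‖
  rho : ‖b - T (x k)‖ ≤ 51 / 50 * ‖r k‖
  xn : ‖x k‖ * ε ≤ 51 / 50 * ‖r k‖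
  Pl : 99 / 100 * ‖r k‖ ≤ ‖p k‖
  EU : Ek r α k * ε ≤ 21 / 10 * ‖r k‖

theorem LS.two (hT : GoodOp T) (hP : Par3 ε L γ m) (hb : ‖b‖ = 1) {k : ℕ} (hk : k ≤ m)
    (hR : 0 < ‖r k‖)
    (hip : |⟪r k, p k⟫_ℝ - ‖r k‖ ^ 2| ≤ (8 * k * (L ^ 4 * γ)) * ‖r k‖ ^ 2)
    (hgap : ‖b - T (x k) - r k‖ ≤ 6 * k * (L ^ 2 * γ))
    (hEf : 49 / 100 * Ek r α k ≤ ⟪b, x k⟫_ℝ - 1 / 2 * ⟪x k, T (x k)⟫_ℝ)
    (hF : Fail T ε b x k) : LS2 T ε L γ b x r p α k := by
  have hε := hP.hε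
  have hε1 := hP.hε1
  have hγ0 := hP.hγ0
  have hL0 := hP.Lpos
  have hkm : (k : ℝ) ≤ m := by exact_mod_cast hk
  have hF1 : ε * (‖x k‖ + 1) < ‖b - T (x k)‖ := hF
  have hx0 := norm_nonneg (x k)
  have hFε : ε < ‖b - T (x k)‖ := by
    have : 0 ≤ ε * ‖x k‖ := by positivity
    linarith
  have hFx : ε * ‖x k‖ < ‖b - T (x k)‖ := by linarith
  set g := ‖b - T (x k) - r k‖ with hg
  have hg0 : 0 ≤ g := norm_nonneg _
  have hgm : g ≤ 6 * (m * (L ^ 2 * γ)) := by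
    refine hgap.trans ?_
    have : (k : ℝ) * (L ^ 2 * γ) ≤ m * (L ^ 2 * γ) :=
      mul_le_mul_of_nonneg_right hkm (by positivity)
    linarith
  have hgε : g ≤ 6 / 250000 * ε := by linarith [hP.q2]
  have hgLε : g * L ≤ 6 / 50000 * ε := by
    have h1 : g * L ≤ 6 * (m * (L ^ 2 * γ)) * L := mul_le_mul_of_nonneg_right hgm hL0.le
    have h2 : 6 * (m * (L ^ 2 * γ)) * L = 6 * (m * (L ^ 3 * γ)) := by ring
    linarith [hP.q3]
  have hρ : ‖b - T (x k)‖ ≤ ‖r k‖ + g := by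
    have : b - T (x k) = (b - T (x k) - r k) + r k := by abel
    calc ‖b - T (x k)‖ = ‖(b - T (x k) - r k) + r k‖ := by rw [← this]
      _ ≤ g + ‖r k‖ := norm_add_le _ _
      _ = _ := add_comm _ _
  have hRl : 99 / 100 * ε ≤ ‖r k‖ := by linarith
  have hkl : 8 * (k : ℝ) * (L ^ 4 * γ) ≤ 1 / 1000 := by
    have h1 : (k : ℝ) * (L ^ 4 * γ) ≤ m * (L ^ 4 * γ) :=
      mul_le_mul_of_nonneg_right hkm (by positivity)
    have := hP.q4
    linarith
  have hR2 : 0 < ‖r k‖ ^ 2 := by positivity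
  have hin : 999 / 1000 * ‖r k‖ ^ 2 ≤ ⟪r k, p k⟫_ℝ := by
    have h1 := (abs_le.mp hip).1
    have h2 : (8 * (k : ℝ) * (L ^ 4 * γ)) * ‖r k‖ ^ 2 ≤ 1 / 1000 * ‖r k‖ ^ 2 :=
      mul_le_mul_of_nonneg_right hkl hR2.le
    linarith
  refine ⟨hRl, by linarith, by linarith, by linarith, by linarith, ?_, ?_⟩
  · have h1 := real_inner_le_norm (r k) (p k)
    have h2 : 99 / 100 * ‖r k‖ * ‖r k‖ ≤ ‖p k‖ * ‖r k‖ := by nlinarith
    exact le_of_mul_le_mul_right h2 hR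
  · have h1 : ⟪b, x k⟫_ℝ ≤ ‖x k‖ := by
      have := real_inner_le_norm b (x k)
      rwa [hb, one_mul] at this
    have h2 := hT.pos (x k)
    have h3 : 49 / 100 * Ek r α k ≤ ‖x k‖ := by linarith
    have h4 : 49 / 100 * Ek r α k * ε ≤ ‖x k‖ * ε := mul_le_mul_of_nonneg_right h3 hε.le
    have h5 : ‖x k‖ * ε ≤ ‖r k‖ + g := by linarith
    linarith

/-- what is known about a step between failing iterates -/
structure StepOut (T : E →ₗ[ℝ] E) (ε L γ : ℝ) (b : E) (x r p : ℕ → E) (α : ℕ → ℝ) (k : ℕ) :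
    Prop where
  ha : 19 / 20 ≤ α k
  two : LS2 T ε L γ b x r p α k
  next : LS T ε L γ b x r p α (k + 1)
  y : |α k| * ‖p k‖ ≤ L * ‖r k‖
  nu : |⟪r (k + 1), p k⟫_ℝ| ≤ (8 * k * (L ^ 4 * γ) + 5 / 2 * L ^ 2 * γ) * ‖r k‖ ^ 2
  eb : ‖x (k + 1) - (x k + α k • p k)‖ ≤ 5 / 4 * (γ * (L * ‖r k‖))
  fb : ‖r (k + 1) - (r k - α k • T (p k))‖ ≤ 6 / 5 * (γ * (L * ‖r k‖))
  inc : ⟪b, x k⟫_ℝ - 1 / 2 * ⟪x k, T (x k)⟫_ℝ + 49 / 100 * (α k * ‖r k‖ ^ 2) ≤
    ⟪b, x (k + 1)⟫_ℝ - 1 / 2 * ⟪x (k + 1), T (x (k + 1))⟫_ℝ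
  R5 : ‖r (k + 1)‖ ^ 2 ≤ 5 * (α k * ‖r k‖ ^ 2)

/-- one step -/
theorem LS.stepOut (hT : GoodOp T) (hP : Par3 ε L γ m) (H : PCG T γ m b x r p α β σ)
    (hb : ‖b‖ = 1) {k : ℕ} (hk : k < m) (hS : LS T ε L γ b x r p α k)
    (hF : Fail T ε b x k) (hF' : Fail T ε b x (k + 1)) :
    StepOut T ε L γ b x r p α k := by
  have hε := hP.hε
  have hε1 := hP.hε1
  have hγ0 := hP.hγ0
  have hL0 := hP.Lpos
  have hL5 := hP.L5
  have s4 := hP.s4
  have s3 := hP.s3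
  have s2 := hP.s2
  have s1 := hP.s1
  have s0' := hP.s0'
  have hR := hS.pos
  have h2 := LS.two (α := α) hT hP hb hk.le hR hS.ip hS.gap hS.Ef hF
  obtain ⟨hRl, hgL, hg1, hrho, hxn, hPl, hEU⟩ := h2
  have hkm : (k : ℝ) + 1 ≤ m := by exact_mod_cast hk
  have hk0 : (0 : ℝ) ≤ k := Nat.cast_nonneg _
  have hex := H.hx k hk
  set e := x (k + 1) - (x k + α k • p k) with he
  have he1 : x (k + 1) = x k + α k • p k + e := by rw [he]; abel
  -- bound for the step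
  have hy : |α k| * ‖p k‖ ≤ L * ‖r k‖ := by
    refine y_bound (ε := ε) (L := L) (γ := γ) (R := ‖r k‖) (P := ‖p k‖) (X := ‖x k‖)
      (y := |α k| * ‖p k‖) (e := ‖e‖) (ρ := ‖b - T (x k)‖) (ρ' := ‖b - T (x (k + 1))‖)
      (X' := ‖x (k + 1)‖) (tp := ‖T (p k)‖) (ip := ⟪p k, T (p k)⟫_ℝ) (σ := σ k) (a := α k)
      hε hε1 hP.hL hP.s0 hR hPl (norm_nonneg _) hF hrho rfl hex (norm_nonneg _) ?_ ?_ hF'
      (hT.sq_le (p k)) (H.hσ k hk) (H.hα k hk)
    · have h1 : b - T (x (k + 1)) = (b - T (x k)) - α k • T (p k) - T e := by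
        rw [he]; simp only [map_sub, map_add, map_smul]; abel
      rw [h1]
      refine le_trans (norm_sub_le _ _) ?_
      have h2 := norm_sub_le (b - T (x k)) (α k • T (p k))
      rw [norm_smul, Real.norm_eq_abs] at h2
      have h3 := hT.bd e
      linarith
    · have h1 : α k • p k = x (k + 1) - x k - e := by rw [he]; abel
      have h2 : |α k| * ‖p k‖ = ‖α k • p k‖ := by rw [norm_smul, Real.norm_eq_abs]
      rw [h2, h1]
      have h3 := norm_sub_le (x (k + 1) - x k) e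
      have h4 := norm_sub_le (x (k + 1)) (x k)
      linarith
  obtain ⟨hσ0, ha⟩ := a_lower (L := L) (γ := γ) (R := ‖r k‖) (P := ‖p k‖)
    (ip := ⟪p k, T (p k)⟫_ℝ) (σ := σ k) (a := α k) (by linarith) hγ0 (by linarith) (by linarith)
    (by linarith) hR (norm_nonneg _) hS.Pn hy (hT.pos _) hS.en (H.hσ k hk) (H.hα k hk)
  have ha0 : 0 < α k := by linarith
  have habs : |α k| = α k := abs_of_pos ha0
  have hP' : ‖p k‖ ≤ 11 / 10 * L * ‖r k‖ := by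
    rw [habs] at hy
    have h1 : 19 / 20 * ‖p k‖ ≤ α k * ‖p k‖ := mul_le_mul_of_nonneg_right ha (norm_nonneg _)
    have h3 : 0 ≤ L * ‖r k‖ := by positivity
    linarith
  obtain ⟨n1, n2, n3, n4, n5⟩ := step_norms hT hγ0 (by linarith) hL5 (by linarith) hR
    (H.hr k hk) (H.hp k hk) (H.hβ k hk) hy hP'
  set R := ‖r k‖ with hRd
  set R' := ‖r (k + 1)‖ with hRd'
  set P := ‖p k‖ with hPd
  have hR2 : 0 < R ^ 2 := by positivity
  have hR'0 : 0 ≤ R' := norm_nonneg _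
  have hP0 : 0 ≤ P := norm_nonneg _
  set lk : ℝ := 8 * k * (L ^ 4 * γ) with hlk
  have hL4γ : 0 ≤ L ^ 4 * γ := by positivity
  have hlk0 : 0 ≤ lk := by positivity
  have hlk1 : lk ≤ 1 / 1000 := by
    have h1 : (k : ℝ) * (L ^ 4 * γ) ≤ m * (L ^ 4 * γ) :=
      mul_le_mul_of_nonneg_right (by linarith) hL4γ
    have := hP.q4
    rw [hlk]; linarith
  have hL24 : 25 * (L ^ 2 * γ) ≤ L ^ 4 * γ := by
    have h1 : (25 : ℝ) ≤ L ^ 2 := by nlinarith only [hL5]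
    have h3 : L ^ 4 * γ = L ^ 2 * (L ^ 2 * γ) := by ring
    rw [h3]
    exact mul_le_mul_of_nonneg_right h1 (by positivity)
  have hγL4 : 625 * γ ≤ L ^ 4 * γ := by
    have h1 : (25 : ℝ) ≤ L ^ 2 := by nlinarith only [hL5]
    have h3 : (625 : ℝ) ≤ L ^ 4 := by nlinarith only [h1]
    exact mul_le_mul_of_nonneg_right h3 hγ0
  -- local orthogonality
  have hnu := nu_bound (T := T) hγ0 hL5 (H.hr k hk) (H.hσ k hk) (H.hα k hk) hy hP' hS.ip
  have hν0 : 0 ≤ lk + 5 / 2 * L ^ 2 * γ := by positivity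
  have hip' := ip_update n2 hν0 n4 hnu
  have hrr := rr_bound (T := T) hγ0 hL5 ha0.le (H.hr k hk) (H.hσ k hk) (H.hα k hk) hy hP' hS.pr
  have hmu := mu_update hT hγ0 (by linarith) hL5 ha (H.hr k hk) (H.hσ k hk) (H.hα k hk)
    (H.hβ k hk) hy n1 n2 n3 n4 hrr
  have hγlk : γ * lk ≤ γ * (1 / 1000) := mul_le_mul_of_nonneg_left hlk1 hγ0
  have hlk' : 8 * ((k + 1 : ℕ) : ℝ) * (L ^ 4 * γ) = lk + 8 * (L ^ 4 * γ) := by
    rw [hlk]; push_cast; ring
  have hip1 : |⟪r (k + 1), p (k + 1)⟫_ℝ - R' ^ 2|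
      ≤ (8 * ((k + 1 : ℕ) : ℝ) * (L ^ 4 * γ)) * R' ^ 2 := by
    refine hip'.trans ?_
    apply mul_le_mul_of_nonneg_right _ (by positivity)
    rw [hlk']
    have h3 : γ * (5 / 2 * L ^ 2 * γ) ≤ 1 * (5 / 2 * L ^ 2 * γ) :=
      mul_le_mul_of_nonneg_right (by linarith) (by positivity)
    linarith
  have hmu1 : |⟪p (k + 1), T (p k)⟫_ℝ| ≤ (8 * ((k + 1 : ℕ) : ℝ) * (L ^ 4 * γ)) * R ^ 2 := by
    refine hmu.trans ?_
    apply mul_le_mul_of_nonneg_right _ (by positivity)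
    rw [hlk']
    linarith
  have hmuS : 8 * ((k + 1 : ℕ) : ℝ) * (L ^ 4 * γ) ≤ 1 / 1000 := by
    have h1 : ((k + 1 : ℕ) : ℝ) * (L ^ 4 * γ) ≤ m * (L ^ 4 * γ) := by
      apply mul_le_mul_of_nonneg_right _ hL4γ
      push_cast; exact hkm
    have := hP.q4
    linarith
  obtain ⟨hen', -⟩ := energy_bound hT (by linarith) (by linarith) hmuS rfl n4 hmu1 n2
  -- errors
  have hLR : 0 ≤ L * R := by positivity
  have hX : ‖x k‖ ≤ 1 / 4 * (L * R) := by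
    -- ‖x‖ ε ≤ 1.02 R and 5 ≤ L ε
    have h1 : ‖x k‖ * 5 ≤ ‖x k‖ * (L * ε) := mul_le_mul_of_nonneg_left hP.Lε5 (norm_nonneg _)
    have h3 : L * (‖x k‖ * ε) ≤ L * (51 / 50 * R) := mul_le_mul_of_nonneg_left hxn hL0.le
    linarith only [h1, h3, hLR]
  have hRLR : R ≤ 1 / 5 * (L * R) := by
    have := mul_le_mul_of_nonneg_right hL5 hR.le
    linarith only [this]
  have heb : ‖e‖ ≤ 5 / 4 * (γ * (L * R)) := by
    refine hex.trans ?_
    have : ‖x k‖ + |α k| * P ≤ 5 / 4 * (L * R) := by linarith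
    have h3 := mul_le_mul_of_nonneg_left this hγ0
    linarith
  have her := H.hr k hk
  set f := r (k + 1) - (r k - α k • T (p k)) with hf
  have hfb : ‖f‖ ≤ 6 / 5 * (γ * (L * R)) := by
    refine her.trans ?_
    have : R + |α k| * P ≤ 6 / 5 * (L * R) := by linarith
    have h3 := mul_le_mul_of_nonneg_left this hγ0
    linarith
  -- gap
  have hRLu : R ≤ 12 / 5 * L := by
    have h1 := hS.Ru
    have h3 : R * 5 ≤ R * (L * ε) := mul_le_mul_of_nonneg_left hP.Lε5 hR.le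
    have h4 : L * (R * ε) ≤ L * 12 := mul_le_mul_of_nonneg_left h1 hL0.le
    linarith only [h3, h4]
  have hgap' : ‖b - T (x (k + 1)) - r (k + 1)‖ ≤ 6 * ((k + 1 : ℕ) : ℝ) * (L ^ 2 * γ) := by
    have e1 : b - T (x (k + 1)) - r (k + 1) = (b - T (x k) - r k) - T e - f := by
      rw [he, hf]; simp only [map_sub, map_add, map_smul]; abel
    rw [e1]
    have e2 := norm_sub_le (b - T (x k) - r k - T e) f
    have e3 := norm_sub_le (b - T (x k) - r k) (T e)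
    have e4 := hT.bd e
    have e5 := hS.gap
    have e6 : γ * (L * R) ≤ 12 / 5 * (L ^ 2 * γ) := by
      have : γ * (L * R) ≤ γ * (L * (12 / 5 * L)) := by
        apply mul_le_mul_of_nonneg_left _ hγ0
        exact mul_le_mul_of_nonneg_left hRLu hL0.le
      calc γ * (L * R) ≤ γ * (L * (12 / 5 * L)) := this
        _ = _ := by ring
    have e7 : 0 ≤ L ^ 2 * γ := by positivity
    push_cast
    linarith only [e2, e3, e4, e5, e6, e7, heb, hfb]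
  -- energy
  have haip : α k * ⟪p k, T (p k)⟫_ℝ ≤ 1002 / 1000 * R ^ 2 := by
    have e1 := (abs_le.mp (H.hσ k hk)).1
    have e2 := (abs_le.mp (H.hα k hk)).2
    have e3 : ⟪p k, T (p k)⟫_ℝ ≤ σ k + γ * P ^ 2 := by linarith
    have e4 : α k * ⟪p k, T (p k)⟫_ℝ ≤ α k * (σ k + γ * P ^ 2) :=
      mul_le_mul_of_nonneg_left e3 ha0.le
    have e5 : α k * (γ * P ^ 2) ≤ γ * ((L * R) * (11 / 10 * L * R)) := by
      have : α k * (γ * P ^ 2) = γ * ((α k * P) * P) := by ring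
      rw [this]
      apply mul_le_mul_of_nonneg_left _ hγ0
      rw [habs] at hy
      exact mul_le_mul hy hP' hP0 hLR
    have e6 : γ * ((L * R) * (11 / 10 * L * R)) = 11 / 10 * (L ^ 2 * γ) * R ^ 2 := by ring
    have e7 : 11 / 10 * (L ^ 2 * γ) * R ^ 2 ≤ 1 / 1000 * R ^ 2 := by
      apply mul_le_mul_of_nonneg_right _ hR2.le
      linarith
    have e8 : γ * R ^ 2 ≤ 1 / 1000 * R ^ 2 := mul_le_mul_of_nonneg_right (by linarith) hR2.le
    linarith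
  have hΦ : ⟪b, x (k + 1)⟫_ℝ - 1 / 2 * ⟪x (k + 1), T (x (k + 1))⟫_ℝ
      = (⟪b, x k⟫_ℝ - 1 / 2 * ⟪x k, T (x k)⟫_ℝ)
        + (α k * ⟪r k, p k⟫_ℝ + ⟪r k, e⟫_ℝ + α k * ⟪b - T (x k) - r k, p k⟫_ℝ
          + ⟪b - T (x k) - r k, e⟫_ℝ - 1 / 2 * (α k * (α k * ⟪p k, T (p k)⟫_ℝ))
          - α k * ⟪T (p k), e⟫_ℝ - 1 / 2 * ⟪e, T e⟫_ℝ) := by
    rw [he1]
    simp only [map_add, map_smul, inner_add_left, inner_add_right, inner_smul_left,
      inner_smul_right, inner_sub_left, conj_trivial]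
    have q1 : ⟪p k, T (x k)⟫_ℝ = ⟪x k, T (p k)⟫_ℝ := by
      rw [← hT.sym, real_inner_comm]
    have q2 : ⟪e, T (x k)⟫_ℝ = ⟪x k, T e⟫_ℝ := by
      rw [← hT.sym, real_inner_comm]
    have q3 : ⟪e, T (p k)⟫_ℝ = ⟪p k, T e⟫_ℝ := by
      rw [← hT.sym, real_inner_comm]
    have q4 : ⟪T (x k), p k⟫_ℝ = ⟪x k, T (p k)⟫_ℝ := hT.sym _ _
    have q5 : ⟪T (x k), e⟫_ℝ = ⟪x k, T e⟫_ℝ := hT.sym _ _
    have q6 : ⟪T (p k), e⟫_ℝ = ⟪p k, T e⟫_ℝ := hT.sym _ _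
    rw [q1, q2, q3, q4, q5, q6]
    ring
  have hinc : ⟪b, x k⟫_ℝ - 1 / 2 * ⟪x k, T (x k)⟫_ℝ + 49 / 100 * (α k * R ^ 2) ≤
      ⟪b, x (k + 1)⟫_ℝ - 1 / 2 * ⟪x (k + 1), T (x (k + 1))⟫_ℝ := by
    rw [hΦ]
    -- terms
    have t1 : 999 / 1000 * (α k * R ^ 2) ≤ α k * ⟪r k, p k⟫_ℝ := by
      have h1 := (abs_le.mp hS.ip).1
      have h3 : lk * R ^ 2 ≤ 1 / 1000 * R ^ 2 := mul_le_mul_of_nonneg_right hlk1 hR2.le
      have h4 : 999 / 1000 * R ^ 2 ≤ ⟪r k, p k⟫_ℝ := by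
        rw [← hRd] at h1
        linarith
      have := mul_le_mul_of_nonneg_left h4 ha0.le
      linarith
    have aR : 19 / 20 * R ^ 2 ≤ α k * R ^ 2 := mul_le_mul_of_nonneg_right ha hR2.le
    have ub : ∀ {c : ℝ}, c ≤ ε / 50000 → c * R ^ 2 ≤ 1 / 50000 * R ^ 2 := fun {c} hc =>
      mul_le_mul_of_nonneg_right (by linarith) hR2.le
    have eR : R * ‖e‖ ≤ 1 / 10000 * R ^ 2 := by
      have h1 : R * ‖e‖ ≤ R * (5 / 4 * (γ * (L * R))) := mul_le_mul_of_nonneg_left heb hR.le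
      have h3 : R * (5 / 4 * (γ * (L * R))) = 5 / 4 * ((L * γ) * R ^ 2) := by ring
      have h4 := ub (c := L * γ) (by linarith)
      linarith
    have eL : (L * R) * ‖e‖ ≤ 1 / 10000 * R ^ 2 := by
      have h1 : (L * R) * ‖e‖ ≤ (L * R) * (5 / 4 * (γ * (L * R))) :=
        mul_le_mul_of_nonneg_left heb hLR
      have h3 : (L * R) * (5 / 4 * (γ * (L * R))) = 5 / 4 * ((L ^ 2 * γ) * R ^ 2) := by ring
      have h4 := ub (c := L ^ 2 * γ) (by linarith)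
      linarith
    have ee : ‖e‖ ≤ R := by
      have h1 : (L * γ) * R ≤ 1 / 2 * R := mul_le_mul_of_nonneg_right (by linarith) hR.le
      have h3 : γ * (L * R) = (L * γ) * R := by ring
      linarith
    have t2 : -(1 / 10000 * R ^ 2) ≤ ⟪r k, e⟫_ℝ := by
      have h1 := abs_le.mp (abs_real_inner_le_norm (r k) e)
      linarith [h1.1]
    have hgR : ‖b - T (x k) - r k‖ * (L * R) ≤ 1 / 5000 * R ^ 2 := by
      have : ‖b - T (x k) - r k‖ * (L * R) = (‖b - T (x k) - r k‖ * L) * R := by ring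
      rw [this]
      have := mul_le_mul_of_nonneg_right hgL hR.le
      linarith
    have t3 : -(1 / 5000 * R ^ 2) ≤ α k * ⟪b - T (x k) - r k, p k⟫_ℝ := by
      have h1 := abs_real_inner_le_norm (b - T (x k) - r k) (p k)
      have h3 : |α k * ⟪b - T (x k) - r k, p k⟫_ℝ| ≤ ‖b - T (x k) - r k‖ * (L * R) := by
        rw [abs_mul]
        calc |α k| * |⟪b - T (x k) - r k, p k⟫_ℝ| ≤ |α k| * (‖b - T (x k) - r k‖ * P) :=
              mul_le_mul_of_nonneg_left h1 (abs_nonneg _)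
          _ = ‖b - T (x k) - r k‖ * (|α k| * P) := by ring
          _ ≤ _ := mul_le_mul_of_nonneg_left hy (norm_nonneg _)
      have := (abs_le.mp h3).1
      linarith
    have t4 : -(1 / 10000 * R ^ 2) ≤ ⟪b - T (x k) - r k, e⟫_ℝ := by
      have h1 := abs_le.mp (abs_real_inner_le_norm (b - T (x k) - r k) e)
      have h3 : ‖b - T (x k) - r k‖ * ‖e‖ ≤ R * ‖e‖ :=
        mul_le_mul_of_nonneg_right (by linarith) (norm_nonneg _)
      linarith [h1.1]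
    have t5 : α k * (α k * ⟪p k, T (p k)⟫_ℝ) ≤ 1002 / 1000 * (α k * R ^ 2) := by
      have := mul_le_mul_of_nonneg_left haip ha0.le
      linarith
    have t6 : α k * ⟪T (p k), e⟫_ℝ ≤ 1 / 10000 * R ^ 2 := by
      have h1 := real_inner_le_norm (T (p k)) e
      have h3 : α k * ⟪T (p k), e⟫_ℝ ≤ α k * (P * ‖e‖) := by
        apply mul_le_mul_of_nonneg_left _ ha0.le
        refine h1.trans ?_
        exact mul_le_mul_of_nonneg_right (hT.bd _) (norm_nonneg _)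
      have h4 : α k * (P * ‖e‖) ≤ (L * R) * ‖e‖ := by
        rw [habs] at hy
        have : α k * (P * ‖e‖) = (α k * P) * ‖e‖ := by ring
        rw [this]
        exact mul_le_mul_of_nonneg_right hy (norm_nonneg _)
      linarith
    have t7 : ⟪e, T e⟫_ℝ ≤ 1 / 10000 * R ^ 2 := by
      refine (hT.inner_le e).trans ?_
      have : ‖e‖ ^ 2 ≤ R * ‖e‖ := by
        rw [pow_two]
        exact mul_le_mul_of_nonneg_right ee (norm_nonneg _)
      linarith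
    linarith
  have hEf' : 49 / 100 * Ek r α (k + 1)
      ≤ ⟪b, x (k + 1)⟫_ℝ - 1 / 2 * ⟪x (k + 1), T (x (k + 1))⟫_ℝ := by
    rw [Ek_succ, ← hRd]
    have e0 := hS.Ef
    linarith
  have hE' : 0 ≤ Ek r α (k + 1) := by
    rw [Ek_succ]
    have := hS.E0
    have : 0 ≤ α k * ‖r k‖ ^ 2 := by positivity
    linarith
  -- size of the new residual
  have hR'sq : R' ^ 2 ≤ 5 * (α k * R ^ 2) := by
    have e1 : r (k + 1) = r k - α k • T (p k) + f := by rw [hf]; abel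
    have e2 : R' ≤ R + α k * ‖T (p k)‖ + ‖f‖ := by
      have h1 : R' = ‖r k - α k • T (p k) + f‖ := by rw [hRd', ← e1]
      rw [h1]
      refine (norm_add_le _ _).trans ?_
      have h3 := norm_sub_le (r k) (α k • T (p k))
      rw [norm_smul, Real.norm_eq_abs, habs] at h3
      linarith
    have e3 : ‖f‖ ≤ 1 / 1000 * R := by
      have h1 : (L * γ) * R ≤ 1 / 10000 * R := mul_le_mul_of_nonneg_right (by linarith) hR.le
      have h3 : γ * (L * R) = (L * γ) * R := by ring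
      linarith
    have e4 : R' ≤ 1001 / 1000 * R + α k * ‖T (p k)‖ := by linarith
    have e5 : (α k * ‖T (p k)‖) ^ 2 ≤ 1002 / 1000 * (α k * R ^ 2) := by
      have h1 : (α k * ‖T (p k)‖) ^ 2 = α k * (α k * ‖T (p k)‖ ^ 2) := by ring
      rw [h1]
      have h3 : α k * ‖T (p k)‖ ^ 2 ≤ 1002 / 1000 * R ^ 2 :=
        (mul_le_mul_of_nonneg_left (hT.sq_le (p k)) ha0.le).trans haip
      have := mul_le_mul_of_nonneg_left h3 ha0.le
      linarith
    have e6 : R' ^ 2 ≤ (1001 / 1000 * R + α k * ‖T (p k)‖) ^ 2 := pow_le_pow_left₀ hR'0 e4 2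
    have e7 : (1001 / 1000 * R + α k * ‖T (p k)‖) ^ 2
        ≤ 2 * (1001 / 1000 * R) ^ 2 + 2 * (α k * ‖T (p k)‖) ^ 2 := by
      nlinarith only [sq_nonneg (1001 / 1000 * R - α k * ‖T (p k)‖)]
    have aR : 19 / 20 * R ^ 2 ≤ α k * R ^ 2 := mul_le_mul_of_nonneg_right ha hR2.le
    linarith only [e5, e6, e7, aR, hR2]
  -- positivity of the new residual
  have hF1 : ε * (‖x (k + 1)‖ + 1) < ‖b - T (x (k + 1))‖ := hF'
  have hR'pos : 0 < R' := by
    have h1 : ε < ‖b - T (x (k + 1))‖ := by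
      have : 0 ≤ ε * ‖x (k + 1)‖ := by positivity
      linarith
    have h3 : ‖b - T (x (k + 1))‖ ≤ ‖b - T (x (k + 1)) - r (k + 1)‖ + R' := by
      have : b - T (x (k + 1)) = (b - T (x (k + 1)) - r (k + 1)) + r (k + 1) := by abel
      calc ‖b - T (x (k + 1))‖ = ‖(b - T (x (k + 1)) - r (k + 1)) + r (k + 1)‖ := by rw [← this]
        _ ≤ _ := norm_add_le _ _
    have h4 : ‖b - T (x (k + 1)) - r (k + 1)‖ ≤ ε / 2 := by
      refine hgap'.trans ?_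
      have h5 : ((k + 1 : ℕ) : ℝ) * (L ^ 2 * γ) ≤ m * (L ^ 2 * γ) := by
        apply mul_le_mul_of_nonneg_right _ (by positivity)
        push_cast; exact hkm
      have := hP.q2
      linarith
    linarith
  have h2' := LS.two (α := α) (p := p) hT hP hb hk hR'pos hip1 hgap' hEf' hF'
  refine ⟨ha, ⟨hRl, hgL, hg1, hrho, hxn, hPl, hEU⟩,
    ⟨hR'pos, hip1, ?_, hen', n5, hgap', hEf', ?_, hE'⟩, hy, hnu, heb, hfb, hinc, hR'sq⟩
  · -- pr
    set fp := p (k + 1) - (r (k + 1) + β k • p k) with hfp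
    have e1 : p (k + 1) - r (k + 1) = β k • p k + fp := by rw [hfp]; abel
    rw [e1, inner_add_right, inner_smul_right]
    refine (abs_add_le _ _).trans ?_
    have e2 : |β k * ⟪T (p (k + 1)), p k⟫_ℝ|
        ≤ (1 + γ) * (8 * ((k + 1 : ℕ) : ℝ) * (L ^ 4 * γ)) * R' ^ 2 := by
      rw [hT.sym, abs_mul]
      calc |β k| * |⟪p (k + 1), T (p k)⟫_ℝ|
          ≤ |β k| * ((8 * ((k + 1 : ℕ) : ℝ) * (L ^ 4 * γ)) * R ^ 2) :=
            mul_le_mul_of_nonneg_left hmu1 (abs_nonneg _)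
        _ = (8 * ((k + 1 : ℕ) : ℝ) * (L ^ 4 * γ)) * (|β k| * R ^ 2) := by ring
        _ ≤ (8 * ((k + 1 : ℕ) : ℝ) * (L ^ 4 * γ)) * ((1 + γ) * R' ^ 2) :=
            mul_le_mul_of_nonneg_left n2 (by positivity)
        _ = _ := by ring
    have e3 : |⟪T (p (k + 1)), fp⟫_ℝ| ≤ ‖p (k + 1)‖ * (3 / 2 * L ^ 2 * γ * R') := by
      refine (abs_real_inner_le_norm _ _).trans ?_
      exact mul_le_mul (hT.bd _) n4 (norm_nonneg _) (norm_nonneg _)
    exact add_le_add e2 e3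
  · -- upper bound
    have e1 := h2'.EU
    have e2 : α k * R ^ 2 ≤ Ek r α (k + 1) := by
      rw [Ek_succ]
      have := hS.E0
      linarith
    have e3 : R' ^ 2 ≤ 5 * Ek r α (k + 1) := by linarith
    have e4 : (R' * ε) * R' ≤ 12 * R' := by
      have h1 : R' ^ 2 * ε ≤ 5 * Ek r α (k + 1) * ε := mul_le_mul_of_nonneg_right e3 hε.le
      have h3 : (R' * ε) * R' = R' ^ 2 * ε := by ring
      rw [h3]
      linarith
    exact le_of_mul_le_mul_right e4 hR'pos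

/-- one step -/
theorem LS.step (hT : GoodOp T) (hP : Par3 ε L γ m) (H : PCG T γ m b x r p α β σ)
    (hb : ‖b‖ = 1) {k : ℕ} (hk : k < m) (hS : LS T ε L γ b x r p α k)
    (hF : Fail T ε b x k) (hF' : Fail T ε b x (k + 1)) :
    19 / 20 ≤ α k ∧ LS2 T ε L γ b x r p α k ∧ LS T ε L γ b x r p α (k + 1) := by
  have h := LS.stepOut hT hP H hb hk hS hF hF'
  exact ⟨h.ha, h.two, h.next⟩

/-- the initial state -/
theorem LS.zero {m' : ℕ} (hT : GoodOp T) (hP : Par3 ε L γ m) (H : PCG T γ m' b x r p α β σ)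
    (hb : ‖b‖ = 1) : LS T ε L γ b x r p α 0 := by
  have hL5 := hP.L5
  have hγ0 := hP.hγ0
  have hr : ‖r 0‖ = 1 := by rw [H.r0, hb]
  have hp : ‖p 0‖ = 1 := by rw [H.p0, hb]
  have hpr : p 0 = r 0 := by rw [H.p0, H.r0]
  refine ⟨by rw [hr]; exact one_pos, ?_, ?_, ?_, ?_, ?_, ?_, ?_, ?_⟩
  · rw [hpr, real_inner_self_eq_norm_sq, sub_self, abs_zero]
    simp
  · rw [hpr, sub_self, inner_zero_right, abs_zero, hr]
    have : 0 ≤ L ^ 2 * γ := by positivity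
    push_cast
    linarith
  · refine (hT.inner_le _).trans ?_
    rw [hp, hr]; norm_num
  · rw [hp, hr]
    nlinarith only [hL5]
  · rw [H.x0, H.r0]; simp
  · rw [H.x0]; simp [Ek]
  · rw [hr]; linarith [hP.hε1]
  · simp [Ek]

/-- the growth of the energy -/
theorem growth {ε D D' R a : ℝ} (hε : 0 < ε) (hD : 0 < D) (ha : 19 / 20 ≤ a)
    (hDR : D * ε ≤ 21 / 10 * R) (hD' : D' = D + a * R ^ 2) (hDu : D * ε ^ 2 ≤ 26) :
    1 / D' ≤ 1 / D - ε ^ 2 / 35 := by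
  have h1 : (D * ε) ^ 2 ≤ (21 / 10 * R) ^ 2 := pow_le_pow_left₀ (by positivity) hDR 2
  have h2 : 19 / 20 * R ^ 2 ≤ a * R ^ 2 := mul_le_mul_of_nonneg_right ha (by positivity)
  have h3 : D + 1 / 5 * (D * ε) ^ 2 ≤ D' := by
    rw [hD']
    have h4 : (21 / 10 * R) ^ 2 = 441 / 100 * R ^ 2 := by ring
    have h5 : 0 ≤ R ^ 2 := by positivity
    linarith
  have hD'0 : 0 < D' := by
    have : 0 ≤ 1 / 5 * (D * ε) ^ 2 := by positivity
    linarith
  have h4 : 1 / D - 1 / D' = (D' - D) / (D * D') := by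
    field_simp
  have h5 : ε ^ 2 / 35 ≤ (D' - D) / (D * D') := by
    rw [div_le_div_iff₀ (by norm_num) (by positivity)]
    -- ε² D D' ≤ 35 (D' - D)
    set y := 1 / 5 * (D * ε ^ 2) with hy
    have hy0 : 0 ≤ y := by positivity
    have hy1 : y ≤ 26 / 5 := by rw [hy]; linarith
    have h6 : D * (1 + y) ≤ D' := by
      calc D * (1 + y) = D + 1 / 5 * (D * ε) ^ 2 := by rw [hy]; ring
        _ ≤ D' := h3
    -- (D' - D)*35 - 5 y D' ≥ 0
    have h7 : ε ^ 2 * (D * D') = 5 * y * D' := by rw [hy]; ring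
    rw [h7]
    -- D ≤ D'/(1+y);  35 (D' - D) ≥ 35 D' y/(1+y) ≥ 5 y D' as 1 + y ≤ 7
    have h8 : (35 * (D' - D) - 5 * y * D') * (1 + y) ≥ 0 := by
      have h9 : 35 * (D * (1 + y)) ≤ 35 * D' := by linarith
      have h10 : (35 * (D' - D) - 5 * y * D') * (1 + y)
          = 35 * D' - 35 * (D * (1 + y)) + y * D' * (30 - 5 * y) := by ring
      rw [h10]
      have h11 : 0 ≤ y * D' * (30 - 5 * y) := by
        apply mul_nonneg (by positivity)
        linarith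
      linarith
    have h9 : 0 ≤ 35 * (D' - D) - 5 * y * D' := by
      by_contra hc
      push Not at hc
      have : (35 * (D' - D) - 5 * y * D') * (1 + y) < 0 :=
        mul_neg_of_neg_of_pos hc (by linarith)
      linarith
    linarith
  linarith

/-- as long as all iterates fail, the energy grows -/
theorem LS.all (hT : GoodOp T) (hP : Par3 ε L γ m) (H : PCG T γ m b x r p α β σ)
    (hb : ‖b‖ = 1) (k : ℕ) (hk : k + 1 ≤ m) (hF : ∀ j ≤ k + 1, Fail T ε b x j) :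
    LS T ε L γ b x r p α (k + 1) ∧ 0 < Ek r α (k + 1) ∧
      1 / Ek r α (k + 1) ≤ 2 - k * (ε ^ 2 / 35) := by
  induction k with
  | zero =>
    obtain ⟨h1, h2, h3⟩ := LS.step hT hP H hb (by omega) (LS.zero hT hP H hb)
      (hF 0 (by omega)) (hF 1 (by omega))
    have hr : ‖r 0‖ = 1 := by rw [H.r0, hb]
    have hE : Ek r α (0 + 1) = α 0 := by
      rw [Ek_succ, hr]; simp [Ek]
    refine ⟨h3, ?_, ?_⟩
    · rw [hE]; linarith
    · rw [hE, div_le_iff₀ (by linarith)]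
      push_cast
      linarith
  | succ k ih =>
    obtain ⟨i1, i2, i3⟩ := ih (by omega) (fun j hj => hF j (by omega))
    obtain ⟨h1, h2, h3⟩ := LS.step hT hP H hb (by omega) i1
      (hF (k + 1) (by omega)) (hF (k + 1 + 1) (by omega))
    have hε := hP.hε
    have hR := i1.pos
    have hDu : Ek r α (k + 1) * ε ^ 2 ≤ 26 := by
      have e1 := h2.EU
      have e2 := i1.Ru
      have e3 : Ek r α (k + 1) * ε * ε ≤ 21 / 10 * ‖r (k + 1)‖ * ε :=
        mul_le_mul_of_nonneg_right e1 hε.le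
      nlinarith only [e2, e3]
    have hg := growth hε i2 h1 h2.EU (Ek_succ r α (k + 1)) hDu
    refine ⟨h3, ?_, ?_⟩
    · rw [Ek_succ]
      have : 0 < α (k + 1) * ‖r (k + 1)‖ ^ 2 := by
        have : 0 < α (k + 1) := by linarith
        positivity
      linarith
    · push_cast
      linarith

/-- with enough steps some iterate is good -/
theorem large_good (hT : GoodOp T) (hP : Par3 ε L γ m) (H : PCG T γ m b x r p α β σ)
    (hb : ‖b‖ = 1) (hm : 71 ≤ ((m : ℝ) - 1) * ε ^ 2) : ∃ k ≤ m, ¬ Fail T ε b x k := by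
  by_contra hc
  push Not at hc
  obtain ⟨k, rfl⟩ : ∃ k, m = k + 1 := ⟨m - 1, by have := hP.hm; omega⟩
  obtain ⟨-, h2, h3⟩ := LS.all hT hP H hb k le_rfl hc
  have h4 : 0 < 1 / Ek r α (k + 1) := by positivity
  push_cast at hm
  linarith

end Pool.Agent.Lib.MP_02bbae_an
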