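import Mathlib
import Pool.Agent.Lib.MP_02bbae_an.StepLength

set_option autoImplicit false
set_option linter.unusedSectionVars false

open scoped InnerProductSpace RealInnerProductSpace
open Finset

namespace Pool.Agent.Lib.MP_02bbae_an

variable {E : Type*} [NormedAddCommGroup E] [InnerProductSpace ℝ E]
variable {T : E →ₗ[ℝ] E} {ε L B γ : ℝ} {m : ℕ} {b : E} {x r p : ℕ → E} {α β σ : ℕ → ℝ}

/-- the new residual norm is at least `(1 + T) / L` -/
theorem St.next_T (hT : GoodOp T) (hP : Par2 ε L B γ m) {k : ℕ}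
    (H : PCG T γ (k + 1) b x r p α β σ) (hb : ‖b‖ = 1) (hk : k < m) (hS : St r α γ L B k)
    (hF : Fail T ε b x k) (hF' : Fail T ε b x (k + 1)) :
    1 + Tk r α (k + 1) ≤ L * ‖r (k + 1)‖ := by
  obtain ⟨ha, _⟩ := hS.step_len hT hP H hb hk hF hF'
  obtain ⟨_, h2, h3⟩ := hS.next_x hT hP H hb hk (le_refl (k + 1))
  have hγ0 := hP.hγ0
  have hε := hP.hε
  obtain ⟨_, hω2, hω3⟩ := omega_bd hP hk
  have hm := hP.m2
  have hkm : ((k + 1 : ℕ) : ℝ) ≤ m := by exact_mod_cast hk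
  have hkm' : (k : ℝ) ≤ m := by exact_mod_cast hk.le
  have hαk : ∀ j < k + 1, 0 ≤ α j := by
    intro j hj
    rcases Nat.lt_succ_iff_lt_or_eq.mp hj with h | h
    · have := hS.ab j h; linarith
    · rw [h]; linarith
  have h4 := T_le (k := k + 1) hαk (fun j hj => hS.pos j (by omega))
    (fun j hj i hi => hS.rp hP H hk j (by omega) i (by omega)) h3
  set W := Tk r α (k + 1) with hW
  have hW0 : 0 ≤ W := Tk_nonneg _ _ _
  have h5 : W ≤ 101 / 100 * (m * ‖x (k + 1)‖) := by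
    have e1 : ((k + 1 : ℕ) : ℝ) * ‖x (k + 1)‖ ≤ m * ‖x (k + 1)‖ :=
      mul_le_mul_of_nonneg_right hkm (norm_nonneg _)
    have e2 : ((k + 1 : ℕ) : ℝ) * ((γ * B ^ k + 3 * k * γ) + 2 * m * γ) ≤ 1 / 600 := by
      refine le_trans ?_ hω3
      have e3 : (γ * B ^ k + 3 * k * γ) + 2 * m * γ ≤ γ * B ^ k + 5 * m * γ := by
        have : 3 * k * γ ≤ 3 * m * γ := by nlinarith
        linarith
      apply mul_le_mul hkm e3 (by positivity) (by positivity)
    have e4 := mul_le_mul_of_nonneg_right e2 hW0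
    linarith
  have h6 : ε * (‖x (k + 1)‖ + 1) < ‖b - T (x (k + 1))‖ := hF'
  have h7 : ‖b - T (x (k + 1))‖ ≤ ‖r (k + 1)‖ + (5 * m * γ) * (1 + W) := by
    have e1 : b - T (x (k + 1)) = (b - T (x (k + 1)) - r (k + 1)) + r (k + 1) := by abel
    have e2 : ‖b - T (x (k + 1))‖ ≤ ‖b - T (x (k + 1)) - r (k + 1)‖ + ‖r (k + 1)‖ := by
      conv_lhs => rw [e1]
      exact norm_add_le _ _
    linarith
  -- multiply by `L`
  have hL0 := hP.Lpos
  have h8 : 1 + W ≤ 101 / 100 * (m * (‖x (k + 1)‖ + 1)) := by nlinarith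
  have h9 : L * (ε * (‖x (k + 1)‖ + 1)) = 2 * (m * (‖x (k + 1)‖ + 1)) := by
    rw [← mul_assoc, hP.hL]; ring
  have h10 : L * (ε * (‖x (k + 1)‖ + 1)) ≤ L * (‖r (k + 1)‖ + (5 * m * γ) * (1 + W)) :=
    mul_le_mul_of_nonneg_left (by linarith) hL0.le
  have h11 : L * ((5 * m * γ) * (1 + W)) ≤ 1 / 16000 * (1 + W) := by
    have e1 : L * ((5 * m * γ) * (1 + W)) = 5 * (m * (γ * L)) * (1 + W) := by ring
    rw [e1]
    apply mul_le_mul_of_nonneg_right _ (by linarith)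
    have e2 := hP.mγL
    have : 0 ≤ γ * L := mul_nonneg hγ0 hL0.le
    linarith
  have h12 : L * (‖r (k + 1)‖ + (5 * m * γ) * (1 + W)) = L * ‖r (k + 1)‖
    + L * ((5 * m * γ) * (1 + W)) := by ring
  linarith

/-- the new residual is not zero -/
theorem St.next_pos (hT : GoodOp T) (hP : Par2 ε L B γ m) {k : ℕ}
    (H : PCG T γ (k + 1) b x r p α β σ) (hb : ‖b‖ = 1) (hk : k < m) (hS : St r α γ L B k)
    (hF : Fail T ε b x k) (hF' : Fail T ε b x (k + 1)) : 0 < ‖r (k + 1)‖ := by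
  have h1 := hS.next_T hT hP H hb hk hF hF'
  have h2 := Tk_nonneg r α (k + 1)
  have h3 : 0 < L * ‖r (k + 1)‖ := by linarith
  rcases lt_or_eq_of_le (norm_nonneg (r (k + 1))) with h' | h'
  · exact h'
  · rw [← h', mul_zero] at h3; exact absurd h3 (lt_irrefl _)

/-- growth of the residual norms, step `k` -/
theorem St.next_NN (hT : GoodOp T) (hP : Par2 ε L B γ m) {k : ℕ}
    (H : PCG T γ (k + 1) b x r p α β σ) (hb : ‖b‖ = 1) (hk : k < m) (hS : St r α γ L B k)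
    (hF : Fail T ε b x k) (hF' : Fail T ε b x (k + 1)) :
    ‖r (k + 1)‖ ^ 2 ≤ 7 * α k * ‖r k‖ ^ 2 ∧ α k * Pk r k ≤ L * ‖r (k + 1)‖ ∧
    Pk r (k + 1) ≤ 8 * L * ‖r (k + 1)‖ := by
  obtain ⟨ha, has⟩ := hS.step_len hT hP H hb hk hF hF'
  have hT1 := hS.next_T hT hP H hb hk hF hF'
  have hpos' := hS.next_pos hT hP H hb hk hF hF'
  have hγ0 := hP.hγ0
  have hN := hS.pos k (le_refl k)
  have hT0 := Tk_nonneg r α k
  have hα0 : 0 ≤ α k := by linarith
  have haQ : α k * Pk r k ≤ L * ‖r (k + 1)‖ := by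
    rw [Tk_succ, abs_of_nonneg hα0] at hT1
    linarith
  have h1 : ‖r (k + 1)‖ ^ 2 ≤ 7 * α k * ‖r k‖ ^ 2 := by
    refine NN_step (L := L) (Q := Pk r k) (s := ⟪p k, T (p k)⟫_ℝ) (tp := ‖T (p k)‖) hγ0 hP.γs hP.γL
      hN hpos'.le ha (hT.sq_le (p k)) has haQ ?_
    have e1 : r (k + 1) = (r (k + 1) - (r k - α k • T (p k))) + (r k - α k • T (p k)) := by abel
    have e2 : ‖r (k + 1)‖ ≤ ‖r (k + 1) - (r k - α k • T (p k))‖ + ‖r k - α k • T (p k)‖ := by
      conv_lhs => rw [e1]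
      exact norm_add_le _ _
    have e3 := norm_sub_le (r k) (α k • T (p k))
    rw [norm_smul, Real.norm_eq_abs, abs_of_nonneg hα0] at e3
    have e4 := H.hr k (Nat.lt_succ_self k)
    rw [abs_of_nonneg hα0] at e4
    have e5 : γ * (‖r k‖ + α k * ‖p k‖) ≤ γ * (‖r k‖ + 1001 / 1000 * (α k * Pk r k)) := by
      apply mul_le_mul_of_nonneg_left _ hγ0
      have := mul_le_mul_of_nonneg_left (hS.pn hP H hk k (le_refl k)) hα0
      linarith
    linarith
  refine ⟨h1, haQ, ?_⟩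
  rw [Pk_succ hN hpos']
  have h2 : ‖r (k + 1)‖ ^ 2 / ‖r k‖ ^ 2 ≤ 7 * α k := by
    rw [div_le_iff₀ (by positivity)]
    exact h1
  have h3 := mul_le_mul_of_nonneg_right h2 (Pk_nonneg r k)
  have h4 : ‖r (k + 1)‖ ≤ L * ‖r (k + 1)‖ := by
    have := hP.L4
    nlinarith
  linarith

/-- The inner product `⟪r (k+1), r j⟫` for `j < k` -/
theorem St.next_orth_lt (hT : GoodOp T) (hP : Par2 ε L B γ m) {k : ℕ}
    (H : PCG T γ (k + 1) b x r p α β σ) (hb : ‖b‖ = 1) (hk : k < m) (hS : St r α γ L B k)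
    (hF : Fail T ε b x k) (hF' : Fail T ε b x (k + 1)) {j : ℕ} (hj : j < k) :
    |⟪r j, r (k + 1)⟫_ℝ| ≤
      L * (20 * (γ * B ^ k + 3 * k * γ) + 40 * (γ * L)) * (‖r j‖ * ‖r (k + 1)‖) := by
  obtain ⟨ha, has⟩ := hS.step_len hT hP H hb hk hF hF'
  obtain ⟨_, haQ, _⟩ := hS.next_NN hT hP H hb hk hF hF'
  have hpos' := hS.next_pos hT hP H hb hk hF hF'
  have hγ0 := hP.hγ0
  have hL4 := hP.L4
  have hN := hS.pos k (le_refl k)
  have hNj := hS.pos j hj.le
  have hα0 : 0 ≤ α k := by linarith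
  have hQ := Pk_ge' hN
  have hQ0 := Pk_nonneg r k
  have hBk : 0 ≤ γ * B ^ k := (omega_bd hP hk).2.1
  set ω := γ * B ^ k + 3 * k * γ with hω
  have hω0 : 0 ≤ ω := by positivity
  have hwω : γ * B ^ k ≤ ω := by
    have : 0 ≤ 3 * (k : ℝ) * γ := by positivity
    linarith
  set N := ‖r k‖ with hNd
  set N' := ‖r (k + 1)‖ with hN'd
  set M := ‖r j‖ with hMd
  set Q := Pk r k with hQd
  -- `N ≤ 2 L N'`
  have hNN' : N ≤ 2 * (L * N') := by
    have : 1 / 2 * Q ≤ α k * Q := mul_le_mul_of_nonneg_right ha hQ0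
    linarith
  -- `T (r j)`
  have hTr : |⟪p k, T (r j)⟫_ℝ| ≤ Q * M * (172 / 10 * ω + 28 * (γ * L)) := by
    have h1 := (hS.cross hP H hk j hj).1
    rcases Nat.eq_zero_or_pos j with h0 | h0
    · subst h0
      have : r 0 = p 0 := by rw [H.p0, H.r0]
      rw [this]
      refine le_trans h1 ?_
      apply mul_le_mul_of_nonneg_left _ (by positivity)
      have := hP.Lpos
      have : 0 ≤ γ * L := by positivity
      linarith
    · obtain ⟨i, rfl⟩ : ∃ i, j = i + 1 := ⟨j - 1, by omega⟩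
      have h2 := (hS.cross hP H hk i (by omega)).2
      have h3 := hS.ep hP H hk i (by omega)
      set e := p (i + 1) - (r (i + 1) + β i • p i) with he
      have h4 : r (i + 1) = p (i + 1) - β i • p i - e := by rw [he]; abel
      have h5 : ⟪p k, T (r (i + 1))⟫_ℝ = ⟪p k, T (p (i + 1))⟫_ℝ - β i * ⟪p k, T (p i)⟫_ℝ
          - ⟪p k, T e⟫_ℝ := by
        rw [h4, map_sub, map_sub, map_smul, inner_sub_right, inner_sub_right, inner_smul_right]
      have h6 : |⟪p k, T e⟫_ℝ| ≤ (1001 / 1000 * Q) * (γ * (101 / 100 * (8 * L * M))) := by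
        refine le_trans (abs_real_inner_le_norm _ _) ?_
        apply mul_le_mul (hS.pn hP H hk k (le_refl k)) _ (norm_nonneg _) (by positivity)
        refine le_trans (hT.bd e) (le_trans h3 ?_)
        apply mul_le_mul_of_nonneg_left _ hγ0
        have := hS.Pb (i + 1) (by omega)
        linarith
      rw [h5]
      have h7 := abs_sub (⟪p k, T (p (i + 1))⟫_ℝ - β i * ⟪p k, T (p i)⟫_ℝ) ⟪p k, T e⟫_ℝ
      have h8 := abs_sub ⟪p k, T (p (i + 1))⟫_ℝ (β i * ⟪p k, T (p i)⟫_ℝ)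
      have h9 : 0 ≤ Q * M * (γ * L) := by
        have := hP.Lpos
        positivity
      linarith only [h1, h2, h6, h7, h8, h9]
  -- the recursion
  set e := r (k + 1) - (r k - α k • T (p k)) with he
  have h1 : ⟪r j, r (k + 1)⟫_ℝ = ⟪r j, r k⟫_ℝ - α k * ⟪p k, T (r j)⟫_ℝ + ⟪r j, e⟫_ℝ := by
    have : r (k + 1) = r k - α k • T (p k) + e := by rw [he]; abel
    rw [this, inner_add_right, inner_sub_right, inner_smul_right, real_inner_comm (T (p k)) (r j),
      hT.sym (p k) (r j)]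
  have h2 : |⟪r j, r k⟫_ℝ| ≤ ω * M * (2 * (L * N')) := by
    refine le_trans (hS.orth j k hj (le_refl k)) ?_
    apply mul_le_mul _ hNN' hN.le (by positivity)
    exact mul_le_mul_of_nonneg_right hwω hNj.le
  have h3 : |α k * ⟪p k, T (r j)⟫_ℝ| ≤ (L * N') * (M * (172 / 10 * ω + 28 * (γ * L))) := by
    rw [abs_mul, abs_of_nonneg hα0]
    calc α k * |⟪p k, T (r j)⟫_ℝ| ≤ α k * (Q * M * (172 / 10 * ω + 28 * (γ * L))) :=
          mul_le_mul_of_nonneg_left hTr hα0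
      _ = (α k * Q) * (M * (172 / 10 * ω + 28 * (γ * L))) := by ring
      _ ≤ _ := by
          apply mul_le_mul_of_nonneg_right haQ
          have := hP.Lpos
          positivity
  have h4 : |⟪r j, e⟫_ℝ| ≤ M * (γ * (4 * (L * N'))) := by
    refine le_trans (abs_real_inner_le_norm _ _) ?_
    apply mul_le_mul_of_nonneg_left _ hNj.le
    refine le_trans (H.hr k (Nat.lt_succ_self k)) ?_
    apply mul_le_mul_of_nonneg_left _ hγ0
    rw [abs_of_nonneg hα0]
    have e1 := mul_le_mul_of_nonneg_left (hS.pn hP H hk k (le_refl k)) hα0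
    have e2 : 0 ≤ L * N' := by have := hP.Lpos; positivity
    linarith
  rw [h1]
  have h5 := abs_add_le (⟪r j, r k⟫_ℝ - α k * ⟪p k, T (r j)⟫_ℝ) ⟪r j, e⟫_ℝ
  have h6 := abs_sub ⟪r j, r k⟫_ℝ (α k * ⟪p k, T (r j)⟫_ℝ)
  have hML : 0 ≤ γ * (M * (L * N')) := by have := hP.Lpos; positivity
  have hML2 : 4 * (γ * (M * (L * N'))) ≤ L * (γ * (M * (L * N'))) :=
    mul_le_mul_of_nonneg_right hL4 hML
  have hML3 : 0 ≤ ω * (M * (L * N')) := by have := hP.Lpos; positivity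
  linarith only [h2, h3, h4, h5, h6, hML, hML2, hML3]

/-- The inner product `⟪r (k+1), r k⟫` -/
theorem St.next_orth_eq (hT : GoodOp T) (hP : Par2 ε L B γ m) {k : ℕ}
    (H : PCG T γ (k + 1) b x r p α β σ) (hb : ‖b‖ = 1) (hk : k < m) (hS : St r α γ L B k)
    (hF : Fail T ε b x k) (hF' : Fail T ε b x (k + 1)) :
    (0 < k → |⟪r k, r (k + 1)⟫_ℝ| ≤
      L * (20 * (γ * B ^ k + 3 * k * γ) + 40 * (γ * L)) * (‖r k‖ * ‖r (k + 1)‖)) ∧
    (k = 0 → |⟪r k, r (k + 1)⟫_ℝ| ≤ 10 * (γ * L) * (‖r k‖ * ‖r (k + 1)‖)) := by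
  obtain ⟨ha, has⟩ := hS.step_len hT hP H hb hk hF hF'
  obtain ⟨_, haQ, _⟩ := hS.next_NN hT hP H hb hk hF hF'
  have hpos' := hS.next_pos hT hP H hb hk hF hF'
  have hγ0 := hP.hγ0
  have hL4 := hP.L4
  have hN := hS.pos k (le_refl k)
  have hα0 : 0 ≤ α k := by linarith
  have hQ := Pk_ge' hN
  have hQ0 := Pk_nonneg r k
  have hPb := hS.Pb k (le_refl k)
  have hpn := hS.pn hP H hk k (le_refl k)
  have hBk : 0 ≤ γ * B ^ k := (omega_bd hP hk).2.1
  have hσ := H.hσ k (Nat.lt_succ_self k)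
  have hαk := H.hα k (Nat.lt_succ_self k)
  set ω := γ * B ^ k + 3 * k * γ with hω
  have hω0 : 0 ≤ ω := by positivity
  set N := ‖r k‖ with hNd
  set N' := ‖r (k + 1)‖ with hN'd
  set Q := Pk r k with hQd
  have hNN' : N ≤ 2 * (L * N') := by
    have : 1 / 2 * Q ≤ α k * Q := mul_le_mul_of_nonneg_right ha hQ0
    linarith
  set e := r (k + 1) - (r k - α k • T (p k)) with he
  have hLN' : 0 ≤ L * N' := by have := hP.Lpos; positivity
  have h4 : |⟪r k, e⟫_ℝ| ≤ N * (γ * (4 * (L * N'))) := by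
    refine le_trans (abs_real_inner_le_norm _ _) ?_
    apply mul_le_mul_of_nonneg_left _ hN.le
    refine le_trans (H.hr k (Nat.lt_succ_self k)) ?_
    apply mul_le_mul_of_nonneg_left _ hγ0
    rw [abs_of_nonneg hα0]
    have e1 := mul_le_mul_of_nonneg_left hpn hα0
    linarith
  -- `γ ‖r k‖²`
  have h5 : γ * N ^ 2 ≤ 2 * (γ * (N * (L * N'))) := by
    have := mul_le_mul_of_nonneg_left hNN' (mul_nonneg hγ0 hN.le)
    linarith
  -- `α γ ‖p‖²`
  have h6 : |α k * (σ k - ⟪p k, T (p k)⟫_ℝ)| ≤ 1003 / 1000 * (γ * ((L * N') * Q)) := by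
    rw [abs_mul, abs_of_nonneg hα0]
    have e1 : ‖p k‖ ^ 2 ≤ (1001 / 1000 * Q) ^ 2 := pow_le_pow_left₀ (norm_nonneg _) hpn 2
    have e2 : α k * |σ k - ⟪p k, T (p k)⟫_ℝ| ≤ α k * (γ * (1001 / 1000 * Q) ^ 2) := by
      apply mul_le_mul_of_nonneg_left _ hα0
      refine le_trans hσ ?_
      exact mul_le_mul_of_nonneg_left e1 hγ0
    have e3 : α k * (γ * (1001 / 1000 * Q) ^ 2) = (1001 / 1000) ^ 2 * (γ * ((α k * Q) * Q)) := by ring
    have e4 : γ * ((α k * Q) * Q) ≤ γ * ((L * N') * Q) := by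
      apply mul_le_mul_of_nonneg_left _ hγ0
      exact mul_le_mul_of_nonneg_right haQ hQ0
    have e5 : 0 ≤ γ * ((L * N') * Q) := by positivity
    linarith
  constructor
  · intro hk0
    obtain ⟨i, rfl⟩ : ∃ i, k = i + 1 := ⟨k - 1, by omega⟩
    have h2 := (hS.cross hP H hk i (by omega)).2
    have h3 := hS.ep hP H hk i (by omega)
    set f := p (i + 1) - (r (i + 1) + β i • p i) with hf
    have h7 : ⟪r (i + 1), r (i + 1 + 1)⟫_ℝ = -(α (i + 1) * σ (i + 1) - N ^ 2)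
        + α (i + 1) * (σ (i + 1) - ⟪p (i + 1), T (p (i + 1))⟫_ℝ)
        + α (i + 1) * (β i * ⟪p (i + 1), T (p i)⟫_ℝ) + α (i + 1) * ⟪p (i + 1), T f⟫_ℝ
        + ⟪r (i + 1), e⟫_ℝ := by
      have g1 : r (i + 1 + 1) = r (i + 1) - α (i + 1) • T (p (i + 1)) + e := by rw [he]; abel
      have g2 : ⟪r (i + 1), T (p (i + 1))⟫_ℝ = ⟪p (i + 1), T (p (i + 1))⟫_ℝ
          - β i * ⟪p (i + 1), T (p i)⟫_ℝ - ⟪p (i + 1), T f⟫_ℝ := by
        rw [real_inner_comm, hT.sym]
        have : r (i + 1) = p (i + 1) - β i • p i - f := by rw [hf]; abel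
        conv_lhs => rw [this]
        rw [map_sub, map_sub, map_smul, inner_sub_right, inner_sub_right, inner_smul_right]
      conv_lhs => rw [g1]
      rw [inner_add_right, inner_sub_right, inner_smul_right, real_inner_self_eq_norm_sq, g2]
      ring
    have h8 : |α (i + 1) * (β i * ⟪p (i + 1), T (p i)⟫_ℝ)| ≤
        (L * N') * (N * (112 / 10 * ω + 10 * (γ * L))) := by
      rw [abs_mul, abs_of_nonneg hα0]
      calc α (i + 1) * |β i * ⟪p (i + 1), T (p i)⟫_ℝ|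
          ≤ α (i + 1) * (Q * N * (112 / 10 * ω + 10 * (γ * L))) :=
            mul_le_mul_of_nonneg_left h2 hα0
        _ = (α (i + 1) * Q) * (N * (112 / 10 * ω + 10 * (γ * L))) := by ring
        _ ≤ _ := by
            apply mul_le_mul_of_nonneg_right haQ
            have := hP.Lpos
            positivity
    have h9 : |α (i + 1) * ⟪p (i + 1), T f⟫_ℝ| ≤ 102 / 100 * (γ * ((L * N') * Q)) := by
      rw [abs_mul, abs_of_nonneg hα0]
      have e1 : |⟪p (i + 1), T f⟫_ℝ| ≤ (1001 / 1000 * Q) * (γ * (101 / 100 * Q)) := by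
        refine le_trans (abs_real_inner_le_norm _ _) ?_
        exact mul_le_mul hpn (le_trans (hT.bd f) h3) (norm_nonneg _) (by positivity)
      have e2 := mul_le_mul_of_nonneg_left e1 hα0
      have e3 : α (i + 1) * ((1001 / 1000 * Q) * (γ * (101 / 100 * Q))) =
        (1001 / 1000 * (101 / 100)) * (γ * ((α (i + 1) * Q) * Q)) := by ring
      have e4 : γ * ((α (i + 1) * Q) * Q) ≤ γ * ((L * N') * Q) := by
        apply mul_le_mul_of_nonneg_left _ hγ0
        exact mul_le_mul_of_nonneg_right haQ hQ0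
      have e5 : 0 ≤ γ * ((L * N') * Q) := by positivity
      linarith
    have h10 : γ * ((L * N') * Q) ≤ 8 * (L * (γ * ((L * N') * N))) := by
      have := mul_le_mul_of_nonneg_left hPb (mul_nonneg hγ0 hLN')
      linarith
    have hML : 0 ≤ γ * (N * (L * N')) := by positivity
    have hML2 : 4 * (γ * (N * (L * N'))) ≤ L * (γ * (N * (L * N'))) :=
      mul_le_mul_of_nonneg_right hL4 hML
    have hML3 : 0 ≤ ω * (N * (L * N')) := by positivity
    rw [h7, abs_le]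
    obtain ⟨a1, a2⟩ := abs_le.mp hαk
    obtain ⟨b1, b2⟩ := abs_le.mp h6
    obtain ⟨c1, c2⟩ := abs_le.mp h8
    obtain ⟨d1, d2⟩ := abs_le.mp h9
    obtain ⟨f1, f2⟩ := abs_le.mp h4
    constructor <;> linarith only [a1, a2, b1, b2, c1, c2, d1, d2, f1, f2, h5, h10, hML, hML2, hML3]
  · intro hk0
    subst hk0
    have hQN : Q = N := Pk_zero hN
    have h7 : ⟪r 0, r (0 + 1)⟫_ℝ = -(α 0 * σ 0 - N ^ 2) + α 0 * (σ 0 - ⟪p 0, T (p 0)⟫_ℝ)
        + ⟪r 0, e⟫_ℝ := by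
      have g1 : r (0 + 1) = r 0 - α 0 • T (p 0) + e := by rw [he]; abel
      have g2 : p 0 = r 0 := by rw [H.p0, H.r0]
      conv_lhs => rw [g1]
      rw [inner_add_right, inner_sub_right, inner_smul_right, real_inner_self_eq_norm_sq, g2]
      ring
    rw [hQN] at h6
    have hML : 0 ≤ γ * (N * (L * N')) := by positivity
    rw [h7, abs_le]
    obtain ⟨a1, a2⟩ := abs_le.mp hαk
    obtain ⟨b1, b2⟩ := abs_le.mp h6
    obtain ⟨f1, f2⟩ := abs_le.mp h4
    constructor <;> linarith only [a1, a2, b1, b2, f1, f2, h5, hML]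

end Pool.Agent.Lib.MP_02bbae_an
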