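import Mathlib
import Pool.Agent.Lib.MP_02bbae_an.Next

set_option autoImplicit false
set_option linter.unusedSectionVars false

open scoped InnerProductSpace RealInnerProductSpace
open Finset

namespace Pool.Agent.Lib.MP_02bbae_an

variable {E : Type*} [NormedAddCommGroup E] [InnerProductSpace ℝ E]
variable {T : E →ₗ[ℝ] E} {ε L B γ : ℝ} {m : ℕ} {b : E} {x r p : ℕ → E} {α β σ : ℕ → ℝ}

theorem St.succ (hT : GoodOp T) (hP : Par2 ε L B γ m) {k : ℕ}
    (H : PCG T γ (k + 1) b x r p α β σ) (hb : ‖b‖ = 1) (hk : k < m) (hS : St r α γ L B k)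
    (hF : Fail T ε b x k) (hF' : Fail T ε b x (k + 1)) : St r α γ L B (k + 1) := by
  obtain ⟨ha, has⟩ := hS.step_len hT hP H hb hk hF hF'
  obtain ⟨hNN, haQ, hPb⟩ := hS.next_NN hT hP H hb hk hF hF'
  have hpos' := hS.next_pos hT hP H hb hk hF hF'
  have hTb := hS.next_T hT hP H hb hk hF hF'
  have hγ0 := hP.hγ0
  have hL4 := hP.L4
  have hB1 := hP.B1
  have hBk : 0 ≤ γ * B ^ k := (omega_bd hP hk).2.1
  have hstep : γ * B ^ (k + 1) = 100 * (L * (γ * B ^ k)) := by rw [pow_succ, hP.hB]; ring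
  have hmon : γ * B ^ k ≤ γ * B ^ (k + 1) := by
    rw [pow_succ]
    have := mul_le_mul_of_nonneg_left hB1 hBk
    linarith
  have hγL0 : 0 ≤ γ * L := mul_nonneg hγ0 hP.Lpos.le
  refine ⟨?_, ?_, ?_, ?_, ?_, ?_⟩
  · intro j hj
    rcases Nat.le_succ_iff.mp hj with h | h
    · exact hS.pos j h
    · rw [h]; exact hpos'
  · intro j hj
    rcases Nat.le_succ_iff.mp hj with h | h
    · exact hS.Tb j h
    · rw [h]; exact hTb
  · intro j hj
    rcases Nat.le_succ_iff.mp hj with h | h
    · exact hS.Pb j h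
    · rw [h]; exact hPb
  · intro j hj
    rcases Nat.lt_succ_iff_lt_or_eq.mp hj with h | h
    · exact hS.ab j h
    · rw [h]; exact ha
  · intro j hj
    rcases Nat.lt_succ_iff_lt_or_eq.mp hj with h | h
    · exact hS.NN j h
    · rw [h]; exact hNN
  · intro i j hij hj
    rcases Nat.le_succ_iff.mp hj with h | h
    · refine le_trans (hS.orth i j hij h) ?_
      apply mul_le_mul_of_nonneg_right _ (norm_nonneg _)
      exact mul_le_mul_of_nonneg_right hmon (norm_nonneg _)
    · subst h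
      have hcoef : 0 < k → L * (20 * (γ * B ^ k + 3 * k * γ) + 40 * (γ * L)) ≤ γ * B ^ (k + 1) := by
        intro hk0
        have e1 : γ * B ≤ γ * B ^ k := by
          apply mul_le_mul_of_nonneg_left _ hγ0
          calc B = B ^ 1 := (pow_one B).symm
            _ ≤ B ^ k := pow_le_pow_right₀ hB1 hk0
        have e2 : 100 * (γ * L) ≤ γ * B ^ k := by
          rw [hP.hB] at e1 ⊢
          linarith
        have e3 : (k : ℝ) * γ ≤ 1 / 2 * (γ * L) := by
          have : (k : ℝ) ≤ m := by exact_mod_cast hk.le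
          have h2 := hP.mL
          have : (k : ℝ) * γ ≤ (L / 2) * γ := mul_le_mul_of_nonneg_right (by linarith) hγ0
          linarith
        rw [hstep]
        have e4 : 20 * (γ * B ^ k + 3 * k * γ) + 40 * (γ * L) ≤ 100 * (γ * B ^ k) := by linarith
        have := mul_le_mul_of_nonneg_left e4 hP.Lpos.le
        linarith
      have hMN : ∀ i, 0 ≤ ‖r i‖ * ‖r (k + 1)‖ := fun i => by positivity
      rcases Nat.lt_succ_iff_lt_or_eq.mp hij with h | h
      · have h1 := hS.next_orth_lt hT hP H hb hk hF hF' h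
        have h2 := mul_le_mul_of_nonneg_right (hcoef (by omega)) (hMN i)
        linarith
      · subst h
        obtain ⟨h1, h2⟩ := hS.next_orth_eq hT hP H hb hk hF hF'
        rcases Nat.eq_zero_or_pos i with h0 | h0
        · have h3 := h2 h0
          have e1 : 10 * (γ * L) ≤ γ * B ^ (i + 1) := by
            rw [hstep, h0, pow_zero]
            linarith
          have h4 := mul_le_mul_of_nonneg_right e1 (hMN i)
          linarith
        · have h3 := h1 h0
          have h4 := mul_le_mul_of_nonneg_right (hcoef h0) (hMN i)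
          linarith

/-- all states are reached as long as no iterate is good -/
theorem St_all (hT : GoodOp T) (hP : Par2 ε L B γ m) {k : ℕ} (H : PCG T γ k b x r p α β σ)
    (hb : ‖b‖ = 1) (hk : k ≤ m) (hF : ∀ j ≤ k, Fail T ε b x j) : St r α γ L B k := by
  induction k with
  | zero => exact St_zero hP hb H.r0
  | succ k ih =>
    have ih' := ih (H.mono (Nat.le_succ k)) (by omega) (fun j hj => hF j (by omega))
    exact ih'.succ hT hP H hb (by omega) (hF k (by omega)) (hF (k + 1) (le_refl _))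

/-- the next direction is not zero -/
theorem St.p_ne (hP : Par2 ε L B γ m) {k : ℕ} (H : PCG T γ k b x r p α β σ) (hk : k < m)
    (hS : St r α γ L B k) : p k ≠ 0 := by
  intro h0
  have hkγ := hP.kγ hk.le
  obtain ⟨h1, h2, _⟩ := omega_bd hP hk
  have hL := hP.L4
  have hγ0 := hP.hγ0
  have e0 : 0 ≤ γ * B ^ k + 3 * k * γ := by positivity
  have h3 : γ * B ^ k + 3 * k * γ ≤ 1 / 10 := by
    have : (γ * B ^ k + 3 * k * γ) * 4 ≤ (γ * B ^ k + 3 * k * γ) * L :=
      mul_le_mul_of_nonneg_left hL e0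
    linarith
  have h4 := rp_inner hP.hγ0 h2 h3 (by linarith) (by rw [H.p0, H.r0])
    (fun j hj => H.hp j (by omega)) (fun j hj => H.hβ j (by omega)) hS.pos hS.orth k (le_refl k)
    k (le_refl k)
  rw [if_pos (le_refl k), h0, inner_zero_right, zero_sub, abs_neg,
    abs_of_nonneg (by positivity)] at h4
  have hN := hS.pos k (le_refl k)
  have hPb := hS.Pb k (le_refl k)
  have h5 : (γ * B ^ k + 3 * k * γ) * (‖r k‖ * Pk r k) ≤
      (γ * B ^ k + 3 * k * γ) * (‖r k‖ * (8 * L * ‖r k‖)) := by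
    apply mul_le_mul_of_nonneg_left _ e0
    exact mul_le_mul_of_nonneg_left hPb hN.le
  have h6 : (γ * B ^ k + 3 * k * γ) * (‖r k‖ * (8 * L * ‖r k‖)) =
      8 * ((γ * B ^ k + 3 * k * γ) * L) * ‖r k‖ ^ 2 := by ring
  have h7 : 8 * ((γ * B ^ k + 3 * k * γ) * L) * ‖r k‖ ^ 2 ≤ 8 * (1 / 580) * ‖r k‖ ^ 2 := by
    apply mul_le_mul_of_nonneg_right _ (by positivity)
    linarith
  have h8 : 0 < ‖r k‖ ^ 2 := by positivity
  linarith

/-- no breakdown as long as no iterate is good -/
theorem no_breakdown (hT : GoodOp T) (hP : Par2 ε L B γ m) {k : ℕ} (H : PCG T γ k b x r p α β σ)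
    (hb : ‖b‖ = 1) (hk : k < m) (hF : ∀ j ≤ k, Fail T ε b x j) : p k ≠ 0 :=
  (St_all hT hP H hb hk.le hF).p_ne hP H hk

/-- nearly orthogonal nonzero vectors are linearly independent -/
theorem card_le_finrank [FiniteDimensional ℝ E] {k : ℕ} {r : ℕ → E} {w : ℝ}
    (hpos : ∀ j ≤ k, 0 < ‖r j‖) (hw0 : 0 ≤ w) (hw : (k : ℝ) * w < 1)
    (horth : ∀ i j, i < j → j ≤ k → |⟪r i, r j⟫_ℝ| ≤ w * ‖r i‖ * ‖r j‖) :
    k + 1 ≤ Module.finrank ℝ E := by
  set v : Fin (k + 1) → E := fun i => (1 / ‖r i‖) • r i with hv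
  have hin : ∀ i j : Fin (k + 1), ⟪v i, v j⟫_ℝ = (1 / ‖r i‖) * (1 / ‖r j‖) * ⟪r i, r j⟫_ℝ := by
    intro i j
    rw [hv]
    simp only [inner_smul_left, inner_smul_right]
    simp
    ring
  have hdet : (Matrix.of fun i j : Fin (k + 1) => ⟪v i, v j⟫_ℝ).det ≠ 0 := by
    apply det_ne_zero_of_sum_row_lt_diag
    intro i
    have hi := hpos i (by omega)
    have hdiag : ‖(Matrix.of fun i j : Fin (k + 1) => ⟪v i, v j⟫_ℝ) i i‖ = 1 := by
      rw [Matrix.of_apply, hin, real_inner_self_eq_norm_sq, Real.norm_eq_abs]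
      have : 1 / ‖r i‖ * (1 / ‖r i‖) * ‖r i‖ ^ 2 = 1 := by field_simp
      rw [this, abs_one]
    rw [hdiag]
    have hoff : ∀ j ∈ univ.erase i, ‖(Matrix.of fun i j : Fin (k + 1) => ⟪v i, v j⟫_ℝ) i j‖ ≤ w := by
      intro j hj
      have hij : j ≠ i := (mem_erase.mp hj).1
      have hj' := hpos j (by omega)
      rw [Matrix.of_apply, hin, Real.norm_eq_abs, abs_mul, abs_of_nonneg (by positivity)]
      have h1 : |⟪r i, r j⟫_ℝ| ≤ w * ‖r i‖ * ‖r j‖ := by
        rcases lt_or_gt_of_ne (fun h => hij (Fin.ext h) : (j : ℕ) ≠ i) with h | h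
        · rw [real_inner_comm]
          have := horth j i h (by omega)
          linarith
        · exact horth i j h (by omega)
      have h2 : 1 / ‖r i‖ * (1 / ‖r j‖) * |⟪r i, r j⟫_ℝ| ≤
          1 / ‖r i‖ * (1 / ‖r j‖) * (w * ‖r i‖ * ‖r j‖) :=
        mul_le_mul_of_nonneg_left h1 (by positivity)
      refine le_trans h2 (le_of_eq ?_)
      field_simp
    have := sum_le_card_nsmul _ _ w hoff
    rw [card_erase_of_mem (mem_univ i), card_univ, Fintype.card_fin, Nat.add_sub_cancel,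
      nsmul_eq_mul] at this
    linarith
  have hli : LinearIndependent ℝ v := by
    rw [Fintype.linearIndependent_iff]
    intro g hg i
    by_contra hne
    have h1 : (Matrix.of fun i j : Fin (k + 1) => ⟪v i, v j⟫_ℝ).mulVec g = 0 := by
      ext j
      simp only [Matrix.mulVec, dotProduct, Matrix.of_apply, Pi.zero_apply]
      have h2 : ∑ x, ⟪v j, v x⟫_ℝ * g x = ⟪v j, ∑ x, g x • v x⟫_ℝ := by
        rw [inner_sum]
        apply sum_congr rfl
        intro y _
        have h3 : ⟪v j, g y • v y⟫_ℝ = g y * ⟪v j, v y⟫_ℝ := inner_smul_right _ _ _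
        rw [h3]; ring
      rw [h2, hg, inner_zero_right]
    have h2 : g = 0 := Matrix.eq_zero_of_mulVec_eq_zero hdet h1
    exact hne (by rw [h2]; rfl)
  have := hli.fintype_card_le_finrank
  simpa using this

/-- The main abstract theorem: some iterate is good. -/
theorem exists_good [FiniteDimensional ℝ E] (hT : GoodOp T) (hP : Par2 ε L B γ m)
    (H : PCG T γ m b x r p α β σ) (hb : ‖b‖ = 1) (hm : Module.finrank ℝ E ≤ m) :
    ∃ k ≤ m, ‖b - T (x k)‖ ≤ ε * (‖x k‖ + 1) := by
  by_contra hcon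
  push Not at hcon
  have hS := St_all hT hP H hb (le_refl m) hcon
  have hw := hP.H
  have hγ0 := hP.hγ0
  have hB := hP.Bpos
  have := card_le_finrank (w := γ * B ^ m) hS.pos (by positivity) (by
    have : 0 ≤ γ * B ^ m := by positivity
    nlinarith [hP.m2]) hS.orth
  omega

end Pool.Agent.Lib.MP_02bbae_an
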