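import Mathlib

set_option autoImplicit false
set_option linter.unusedSectionVars false

namespace Pool.Agent.Lib.MP_02bbae_an

/-- the bound for `⟪pih j, r l⟫` -/
noncomputable def zf (γ κ : ℝ) (m l : ℕ) : ℝ :=
  100 * (m : ℝ) ^ 2 * γ * κ * (30 * (m : ℝ) ^ 2 * κ) ^ (l - 2)

/-- parameters of the argument for finite condition number -/
structure ParZ (ε L κ γ : ℝ) (m : ℕ) : Prop where
  hε : 0 < ε
  hε1 : ε ≤ 1
  hκ : 1 ≤ κ
  hm : 2 ≤ m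
  hL : L * ε = 2 * m
  hγ0 : 0 ≤ γ
  H : 300 * m * (L * zf γ κ m m) ≤ 1

namespace ParZ

variable {ε L κ γ : ℝ} {m : ℕ} (h : ParZ ε L κ γ m)
include h

theorem m2 : (2 : ℝ) ≤ m := by exact_mod_cast h.hm

theorem κ0 : 0 < κ := by linarith [h.hκ]

theorem Lpos : 0 < L := by
  by_contra hc
  push Not at hc
  have h1 := h.hL
  have h2 := h.m2
  have h3 : L * ε ≤ 0 := mul_nonpos_of_nonpos_of_nonneg hc h.hε.le
  linarith

theorem mL : 2 * (m : ℝ) ≤ L := by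
  rw [← h.hL]
  have := mul_le_mul_of_nonneg_left h.hε1 h.Lpos.le
  linarith

theorem L4 : 4 ≤ L := by linarith [h.mL, h.m2]

theorem base1 : 1 ≤ 30 * (m : ℝ) ^ 2 * κ := by
  have h1 := h.m2
  have h2 := h.hκ
  have h3 : (4 : ℝ) ≤ (m : ℝ) ^ 2 := by nlinarith
  nlinarith

theorem pre0 : 0 ≤ 100 * (m : ℝ) ^ 2 * γ * κ := by
  have := h.hγ0
  have := h.κ0
  positivity

theorem z0 (l : ℕ) : 0 ≤ zf γ κ m l := by
  unfold zf
  have := h.pre0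
  have := h.base1
  positivity

theorem zge (l : ℕ) : 100 * (m : ℝ) ^ 2 * γ * κ ≤ zf γ κ m l := by
  unfold zf
  have h1 := h.pre0
  have h2 : (1 : ℝ) ≤ (30 * (m : ℝ) ^ 2 * κ) ^ (l - 2) := one_le_pow₀ h.base1
  nlinarith

theorem zmono {k l : ℕ} (hkl : k ≤ l) : zf γ κ m k ≤ zf γ κ m l := by
  unfold zf
  apply mul_le_mul_of_nonneg_left _ h.pre0
  exact pow_le_pow_right₀ h.base1 (by omega)

theorem zsucc {k : ℕ} (hk : 2 ≤ k) : zf γ κ m (k + 1) = 30 * (m : ℝ) ^ 2 * κ * zf γ κ m k := by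
  unfold zf
  have : k + 1 - 2 = (k - 2) + 1 := by omega
  rw [this, pow_succ]; ring

/-- `m L z_k ≤ 1/300` -/
theorem mLz {k : ℕ} (hk : k ≤ m) : (m : ℝ) * (L * zf γ κ m k) ≤ 1 / 300 := by
  have h1 := h.H
  have h2 := mul_le_mul_of_nonneg_left (h.zmono hk) h.Lpos.le
  have h3 := mul_le_mul_of_nonneg_left h2 (by positivity : (0 : ℝ) ≤ m)
  linarith

/-- `L z_k ≤ 1/600` -/
theorem Lz {k : ℕ} (hk : k ≤ m) : L * zf γ κ m k ≤ 1 / 600 := by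
  have h1 := h.mLz hk
  have h2 := mul_nonneg h.Lpos.le (h.z0 k)
  have := h.m2
  nlinarith

/-- `z_k ≤ 1/2400` -/
theorem zs {k : ℕ} (hk : k ≤ m) : zf γ κ m k ≤ 1 / 2400 := by
  have h1 := h.Lz hk
  have := h.L4
  have := h.z0 k
  nlinarith

/-- `m³ L γ κ ≤ 1/30000` -/
theorem m3 : (m : ℝ) ^ 3 * (L * (γ * κ)) ≤ 1 / 30000 := by
  have h1 := h.mLz (le_refl m)
  have h2 := mul_le_mul_of_nonneg_left (h.zge m) h.Lpos.le
  have h3 := mul_le_mul_of_nonneg_left h2 (by positivity : (0 : ℝ) ≤ m)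
  linarith

/-- `m² L γ ≤ 1/60000` -/
theorem m2γL : (m : ℝ) ^ 2 * (L * γ) ≤ 1 / 60000 := by
  have h1 := h.m3
  have h2 := h.hκ
  have h3 := h.m2
  have h4 := mul_nonneg h.Lpos.le h.hγ0
  have h5 : (m : ℝ) ^ 2 * (L * γ) * 2 ≤ (m : ℝ) ^ 3 * (L * (γ * κ)) := by
    have e1 : (m : ℝ) ^ 3 * (L * (γ * κ)) = (m : ℝ) ^ 2 * (L * γ) * (m * κ) := by ring
    rw [e1]
    apply mul_le_mul_of_nonneg_left _ (by positivity)
    nlinarith
  linarith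

/-- `m L γ ≤ 1/120000` -/
theorem mγL : (m : ℝ) * (L * γ) ≤ 1 / 120000 := by
  have h1 := h.m2γL
  have h3 := h.m2
  have h4 := mul_nonneg h.Lpos.le h.hγ0
  have h5 : (m : ℝ) * (L * γ) * 2 ≤ (m : ℝ) ^ 2 * (L * γ) := by
    have e1 : (m : ℝ) ^ 2 * (L * γ) = (m : ℝ) * (L * γ) * m := by ring
    rw [e1]
    exact mul_le_mul_of_nonneg_left h3 (by positivity)
  linarith

theorem γL : γ * L ≤ 1 / 240000 := by
  have h1 := h.mγL
  have h3 := h.m2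
  have h4 := mul_nonneg h.Lpos.le h.hγ0
  nlinarith

theorem γs : γ ≤ 1 / 960000 := by
  have h1 := h.γL
  have := h.L4
  have := h.hγ0
  nlinarith

/-- `m γ ≤ 1/480000` -/
theorem mγ : (m : ℝ) * γ ≤ 1 / 480000 := by
  have h1 := h.mγL
  have h2 := h.L4
  have h4 : 0 ≤ (m : ℝ) * γ := mul_nonneg (by positivity) h.hγ0
  have h5 : (m : ℝ) * γ * 4 ≤ m * (L * γ) := by nlinarith
  linarith

/-- `m² γ ≤ 1/240000` -/
theorem m2γ : (m : ℝ) ^ 2 * γ ≤ 1 / 240000 := by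
  have h1 := h.m2γL
  have h2 := h.L4
  have h4 : 0 ≤ (m : ℝ) ^ 2 * γ := mul_nonneg (by positivity) h.hγ0
  have h5 : (m : ℝ) ^ 2 * γ * 4 ≤ (m : ℝ) ^ 2 * (L * γ) := by nlinarith
  linarith

theorem kγ {k : ℕ} (hk : k ≤ m) : (k : ℝ) * γ ≤ 1 / 480000 := by
  refine le_trans ?_ h.mγ
  apply mul_le_mul_of_nonneg_right _ h.hγ0
  exact_mod_cast hk

/-- `m³ γ κ ≤ 1/120000` -/
theorem m3γκ : (m : ℝ) ^ 3 * (γ * κ) ≤ 1 / 120000 := by
  have h1 := h.m3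
  have h2 := h.L4
  have h4 : 0 ≤ (m : ℝ) ^ 3 * (γ * κ) :=
    mul_nonneg (by positivity) (mul_nonneg h.hγ0 h.κ0.le)
  nlinarith

/-- `m² γ κ ≤ 1/240000` -/
theorem m2γκ : (m : ℝ) ^ 2 * (γ * κ) ≤ 1 / 240000 := by
  have h1 := h.m3γκ
  have h2 := h.m2
  have h4 : 0 ≤ (m : ℝ) ^ 2 * (γ * κ) :=
    mul_nonneg (by positivity) (mul_nonneg h.hγ0 h.κ0.le)
  nlinarith

theorem γκ : γ * κ ≤ 1 / 960000 := by
  have h1 := h.m2γκ
  have h2 := h.m2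
  have h4 : 0 ≤ γ * κ := mul_nonneg h.hγ0 h.κ0.le
  have h5 : (4 : ℝ) ≤ (m : ℝ) ^ 2 := by nlinarith
  nlinarith

/-- the small parameter of the orthogonality estimates -/
theorem omega {k : ℕ} (hk : k ≤ m) : (m : ℝ) * (14 * (L * zf γ κ m k) + 5 * m * γ) ≤ 1 / 20 := by
  have h1 := h.mLz hk
  have h2 := h.m2γ
  nlinarith

theorem omega' {k : ℕ} (hk : k ≤ m) : 14 * (L * zf γ κ m k) + 3 * k * γ ≤ 1 / 40 := by
  have h1 := h.Lz hk
  have h2 := h.kγ hk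
  linarith

end ParZ

end Pool.Agent.Lib.MP_02bbae_an
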