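import Mathlib
import Pool.Agent.Lib.MP_02bbae_an.Sums

set_option autoImplicit false
set_option linter.unusedSectionVars false

open scoped InnerProductSpace RealInnerProductSpace
open Finset

namespace Pool.Agent.Lib.MP_02bbae_an

variable {E : Type*} [NormedAddCommGroup E] [InnerProductSpace ℝ E]

/-- `Σ_{i ≤ k} r i / ‖r i‖²` -/
noncomputable def pih (r : ℕ → E) (k : ℕ) : E := ∑ i ∈ range (k + 1), (1 / ‖r i‖ ^ 2) • r i

theorem pih_succ (r : ℕ → E) (k : ℕ) :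
    pih r (k + 1) = pih r k + (1 / ‖r (k + 1)‖ ^ 2) • r (k + 1) := by
  unfold pih; rw [sum_range_succ]

theorem pih_zero (r : ℕ → E) : pih r 0 = (1 / ‖r 0‖ ^ 2) • r 0 := by
  unfold pih; simp

theorem pih_norm {r : ℕ → E} {k : ℕ} (hpos : ∀ j ≤ k, 0 < ‖r j‖) : ‖pih r k‖ ≤ Sk r k := by
  unfold pih Sk
  refine le_trans (norm_sum_le _ _) ?_
  apply sum_le_sum
  intro i hi
  have hi' : 0 < ‖r i‖ := hpos i (by simp at hi; omega)
  rw [norm_smul, Real.norm_eq_abs, abs_of_nonneg (by positivity)]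
  apply le_of_eq
  field_simp

theorem Sk_succ (r : ℕ → E) (k : ℕ) : Sk r (k + 1) = Sk r k + 1 / ‖r (k + 1)‖ := by
  unfold Sk; rw [sum_range_succ]

theorem Sk_mono {r : ℕ → E} {j k : ℕ} (h : j ≤ k) : Sk r j ≤ Sk r k := by
  unfold Sk
  apply sum_le_sum_of_subset_of_nonneg
  · intro i hi
    simp only [mem_range] at hi ⊢
    omega
  · intro i _ _
    positivity

theorem Sk_ge {r : ℕ → E} {j k : ℕ} (h : j ≤ k) : 1 / ‖r j‖ ≤ Sk r k := by
  unfold Sk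
  apply single_le_sum (f := fun i => 1 / ‖r i‖) (fun _ _ => by positivity)
  simp; omega

theorem Sk_ge2 {r : ℕ → E} {j k : ℕ} (h : j + 1 ≤ k) :
    1 / ‖r j‖ + 1 / ‖r (j + 1)‖ ≤ Sk r k := by
  refine le_trans ?_ (Sk_mono h)
  rw [Sk_succ]
  have := Sk_ge (r := r) (le_refl j)
  linarith

/-- the error of the directions -/
theorem f_bound {r p : ℕ → E} {β : ℕ → ℝ} {γ : ℝ} {k : ℕ} (hγ0 : 0 ≤ γ) (hkγ : k * γ ≤ 1 / 100)
    (h0 : p 0 = r 0)
    (hp : ∀ j < k, ‖p (j + 1) - (r (j + 1) + β j • p j)‖ ≤ γ * (‖r (j + 1)‖ + |β j| * ‖p j‖))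
    (hβ : ∀ j < k, |β j * ‖r j‖ ^ 2 - ‖r (j + 1)‖ ^ 2| ≤ γ * ‖r (j + 1)‖ ^ 2)
    (hpos : ∀ j ≤ k, 0 < ‖r j‖) :
    ∀ j ≤ k, ‖p j - ‖r j‖ ^ 2 • pih r j‖ ≤ (3 * j * γ) * Pk r j := by
  intro j
  induction j with
  | zero =>
    intro _
    have h1 : (0 : ℝ) < ‖r 0‖ := hpos 0 (Nat.zero_le _)
    rw [h0, pih_zero, smul_smul]
    have : ‖r 0‖ ^ 2 * (1 / ‖r 0‖ ^ 2) = 1 := by field_simp
    rw [this, one_smul, sub_self, norm_zero]
    simp
  | succ j ih =>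
    intro hj
    have ih' := ih (by omega)
    have hN := hpos j (by omega)
    have hN' := hpos (j + 1) hj
    have hb := beta_Pk hN hN' (hβ j (by omega))
    have hPN := Pk_ge' hN'
    have hpn := p_norm hγ0 hkγ h0 hp hβ hpos j (by omega)
    have hpi : ‖pih r j‖ ≤ Sk r j := pih_norm fun i hi => hpos i (by omega)
    set Q := Pk r (j + 1) with hQ
    set N := ‖r (j + 1)‖ with hNd
    set e := p (j + 1) - (r (j + 1) + β j • p j) with he
    set f := p j - ‖r j‖ ^ 2 • pih r j with hf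
    have hjγ : j * γ ≤ 1 / 100 := by
      refine le_trans ?_ hkγ
      apply mul_le_mul_of_nonneg_right _ hγ0
      have : j ≤ k := by omega
      exact_mod_cast this
    have hγ1 : γ ≤ 1 / 100 := by
      refine le_trans ?_ hkγ
      have : (1 : ℝ) ≤ k := by
        have : 1 ≤ k := by omega
        exact_mod_cast this
      nlinarith
    have hj0 : 0 ≤ j * γ := by positivity
    have hQN : 0 ≤ Q - N := by linarith
    have hep : ‖e‖ ≤ γ * (105 / 100 * Q) := by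
      refine le_trans (hp j (by omega)) ?_
      apply mul_le_mul_of_nonneg_left _ hγ0
      have e1 := mul_le_mul_of_nonneg_left hpn (abs_nonneg (β j))
      have e2 : |β j| * ((1 + 3 * j * γ) * Pk r j) = (1 + 3 * j * γ) * (|β j| * Pk r j) := by ring
      rw [e2] at e1
      have e3 : (1 + 3 * j * γ) * (|β j| * Pk r j) ≤ (103 / 100) * ((101 / 100) * (Q - N)) := by
        apply mul_le_mul (by linarith) _ (mul_nonneg (abs_nonneg _) (Pk_nonneg r j)) (by norm_num)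
        refine le_trans hb ?_
        apply mul_le_mul_of_nonneg_right (by linarith) hQN
      linarith
    have hsplit : p (j + 1) - N ^ 2 • pih r (j + 1) =
        e + β j • f + (β j * ‖r j‖ ^ 2 - N ^ 2) • pih r j := by
      have e1 : N ^ 2 • pih r (j + 1) = N ^ 2 • pih r j + r (j + 1) := by
        rw [pih_succ, smul_add, smul_smul]
        have : N ^ 2 * (1 / ‖r (j + 1)‖ ^ 2) = 1 := by rw [← hNd]; field_simp
        rw [this, one_smul]
      rw [e1, he, hf, smul_sub, smul_smul, sub_smul]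
      abel
    rw [hsplit]
    have h2'' : ‖β j • f‖ ≤ (3 * j * γ) * Q + 3 / 100 * (γ * Q) := by
      rw [norm_smul, Real.norm_eq_abs]
      have e1 := mul_le_mul_of_nonneg_left ih' (abs_nonneg (β j))
      have e2 : |β j| * ((3 * j * γ) * Pk r j) = (3 * j * γ) * (|β j| * Pk r j) := by ring
      rw [e2] at e1
      refine le_trans e1 ?_
      have e3 : (3 * j * γ) * (|β j| * Pk r j) ≤ (3 * j * γ) * ((1 + γ) * (Q - N)) :=
        mul_le_mul_of_nonneg_left hb (by positivity)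
      have e4 : (3 * j * γ) * ((1 + γ) * (Q - N)) ≤ (3 * j * γ) * ((1 + γ) * Q) := by
        apply mul_le_mul_of_nonneg_left _ (by positivity)
        apply mul_le_mul_of_nonneg_left (by linarith) (by linarith)
      have e5 : (j * γ) * (γ * Q) ≤ 1 / 100 * (γ * Q) := by
        apply mul_le_mul_of_nonneg_right hjγ
        have : 0 ≤ Q := by linarith
        positivity
      linarith
    have h3 : ‖(β j * ‖r j‖ ^ 2 - N ^ 2) • pih r j‖ ≤ γ * Q := by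
      rw [norm_smul, Real.norm_eq_abs]
      have e1 := hβ j (by omega)
      have e2 : |β j * ‖r j‖ ^ 2 - N ^ 2| * ‖pih r j‖ ≤ (γ * N ^ 2) * Sk r j :=
        mul_le_mul e1 hpi (norm_nonneg _) (by positivity)
      refine le_trans e2 ?_
      have e3 : (γ * N ^ 2) * Sk r j ≤ (γ * N ^ 2) * Sk r (j + 1) :=
        mul_le_mul_of_nonneg_left (Sk_mono (Nat.le_succ j)) (by positivity)
      refine le_trans e3 (le_of_eq ?_)
      rw [hQ]; unfold Pk; ring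
    have h4 := norm_add_le (e + β j • f) ((β j * ‖r j‖ ^ 2 - N ^ 2) • pih r j)
    have h5 := norm_add_le e (β j • f)
    push_cast
    have hQ0 : 0 ≤ γ * Q := by
      have : 0 ≤ Q := by linarith
      positivity
    linarith

/-- inner products of residuals from those with the sums `pih` -/
theorem inner_of_Z {r : ℕ → E} {k : ℕ} {z : ℕ → ℝ} (hpos : ∀ j ≤ k, 0 < ‖r j‖)
    (hz : ∀ l, 0 ≤ z l)
    (hZ : ∀ j l, j < l → l ≤ k → |⟪pih r j, r l⟫_ℝ| ≤ z l) {j l : ℕ} (hjl : j < l) (hl : l ≤ k) :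
    |⟪r j, r l⟫_ℝ| ≤ 2 * ‖r j‖ ^ 2 * z l := by
  have hN := hpos j (by omega)
  have h1 := hZ j l hjl hl
  have hzl := hz l
  rcases Nat.eq_zero_or_pos j with h0 | h0
  · subst h0
    have e1 : r 0 = ‖r 0‖ ^ 2 • pih r 0 := by
      rw [pih_zero, smul_smul]
      have : ‖r 0‖ ^ 2 * (1 / ‖r 0‖ ^ 2) = 1 := by field_simp
      rw [this, one_smul]
    have e2 : ⟪r 0, r l⟫_ℝ = ‖r 0‖ ^ 2 * ⟪pih r 0, r l⟫_ℝ := by
      conv_lhs => rw [e1]
      rw [inner_smul_left]; simp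
    rw [e2, abs_mul, abs_of_nonneg (by positivity)]
    have := mul_le_mul_of_nonneg_left h1 (by positivity : 0 ≤ ‖r 0‖ ^ 2)
    have h3 : 0 ≤ ‖r 0‖ ^ 2 * z l := by positivity
    linarith
  · obtain ⟨i, rfl⟩ : ∃ i, j = i + 1 := ⟨j - 1, by omega⟩
    have h2 := hZ i l (by omega) hl
    have e1 : r (i + 1) = ‖r (i + 1)‖ ^ 2 • (pih r (i + 1) - pih r i) := by
      rw [pih_succ, add_sub_cancel_left, smul_smul]
      have : ‖r (i + 1)‖ ^ 2 * (1 / ‖r (i + 1)‖ ^ 2) = 1 := by field_simp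
      rw [this, one_smul]
    have e2 : ⟪r (i + 1), r l⟫_ℝ =
        ‖r (i + 1)‖ ^ 2 * (⟪pih r (i + 1), r l⟫_ℝ - ⟪pih r i, r l⟫_ℝ) := by
      conv_lhs => rw [e1]
      rw [inner_smul_left, inner_sub_left]; simp
    rw [e2, abs_mul, abs_of_nonneg (by positivity)]
    have e3 := abs_sub ⟪pih r (i + 1), r l⟫_ℝ ⟪pih r i, r l⟫_ℝ
    have := mul_le_mul_of_nonneg_left (show |⟪pih r (i + 1), r l⟫_ℝ - ⟪pih r i, r l⟫_ℝ| ≤ 2 * z l by
      linarith) (by positivity : 0 ≤ ‖r (i + 1)‖ ^ 2)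
    linarith

theorem rpi_self {r : ℕ → E} {k : ℕ} {z : ℕ → ℝ} (hpos : ∀ j ≤ k, 0 < ‖r j‖)
    (hz : ∀ l, 0 ≤ z l)
    (hZ : ∀ j l, j < l → l ≤ k → |⟪pih r j, r l⟫_ℝ| ≤ z l) {l : ℕ} (hl : l ≤ k) :
    |⟪r l, pih r l⟫_ℝ - 1| ≤ z l := by
  have hN := hpos l hl
  rcases Nat.eq_zero_or_pos l with h0 | h0
  · subst h0
    rw [pih_zero, inner_smul_right, real_inner_self_eq_norm_sq]
    have : 1 / ‖r 0‖ ^ 2 * ‖r 0‖ ^ 2 = 1 := by field_simp
    rw [this, sub_self, abs_zero]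
    exact hz 0
  · obtain ⟨i, rfl⟩ : ∃ i, l = i + 1 := ⟨l - 1, by omega⟩
    rw [pih_succ, inner_add_right, inner_smul_right, real_inner_self_eq_norm_sq]
    have : 1 / ‖r (i + 1)‖ ^ 2 * ‖r (i + 1)‖ ^ 2 = 1 := by field_simp
    rw [this, add_sub_cancel_right, real_inner_comm]
    exact hZ i (i + 1) (Nat.lt_succ_self i) hl

theorem rpi_succ {r : ℕ → E} {k : ℕ} {z : ℕ → ℝ} (hpos : ∀ j ≤ k, 0 < ‖r j‖)
    (hz : ∀ l, 0 ≤ z l)
    (hZ : ∀ j l, j < l → l ≤ k → |⟪pih r j, r l⟫_ℝ| ≤ z l) {i l : ℕ} (hil : i ≤ l)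
    (hl : l + 1 ≤ k) :
    |⟪r i, pih r (l + 1)⟫_ℝ - 1| ≤
      |⟪r i, pih r l⟫_ℝ - 1| + 2 * ‖r i‖ ^ 2 * z (l + 1) / ‖r (l + 1)‖ ^ 2 := by
  have hN := hpos (l + 1) hl
  rw [pih_succ, inner_add_right, inner_smul_right]
  have h1 := inner_of_Z hpos hz hZ (show i < l + 1 by omega) hl
  have h2 : |1 / ‖r (l + 1)‖ ^ 2 * ⟪r i, r (l + 1)⟫_ℝ| ≤
      2 * ‖r i‖ ^ 2 * z (l + 1) / ‖r (l + 1)‖ ^ 2 := by
    rw [abs_mul, abs_of_nonneg (by positivity), one_div, inv_mul_eq_div]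
    exact div_le_div_of_nonneg_right h1 (by positivity)
  have h3 : ⟪r i, pih r l⟫_ℝ + 1 / ‖r (l + 1)‖ ^ 2 * ⟪r i, r (l + 1)⟫_ℝ - 1 =
      (⟪r i, pih r l⟫_ℝ - 1) + 1 / ‖r (l + 1)‖ ^ 2 * ⟪r i, r (l + 1)⟫_ℝ := by ring
  rw [h3]
  exact le_trans (abs_add_le _ _) (add_le_add (le_refl _) h2)

/-- the general bound -/
theorem rpi_le {r : ℕ → E} {k : ℕ} {z : ℕ → ℝ} {y : ℝ} (hpos : ∀ j ≤ k, 0 < ‖r j‖)
    (hz : ∀ l, 0 ≤ z l) (hy : ∀ l ≤ k, z l ≤ y)
    (hZ : ∀ j l, j < l → l ≤ k → |⟪pih r j, r l⟫_ℝ| ≤ z l) {i : ℕ} :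
    ∀ l, i ≤ l → l ≤ k → |⟪r i, pih r l⟫_ℝ - 1| ≤ 2 * y * ‖r i‖ ^ 2 * Sk r l ^ 2 := by
  intro l hil
  induction l, hil using Nat.le_induction with
  | base =>
    intro hi
    have h1 := rpi_self hpos hz hZ hi
    have h2 := hy i hi
    have hN := hpos i hi
    have h3 := Sk_ge (r := r) (le_refl i)
    have hy0 : 0 ≤ y := le_trans (hz i) h2
    have h4 : (1 : ℝ) ≤ ‖r i‖ * Sk r i := by
      have := mul_le_mul_of_nonneg_left h3 hN.le
      have e : ‖r i‖ * (1 / ‖r i‖) = 1 := by field_simp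
      linarith
    have h5 : (1 : ℝ) ≤ (‖r i‖ * Sk r i) ^ 2 := by nlinarith
    have h6 : y ≤ y * (‖r i‖ * Sk r i) ^ 2 := by nlinarith
    have h7 : 2 * y * ‖r i‖ ^ 2 * Sk r i ^ 2 = 2 * (y * (‖r i‖ * Sk r i) ^ 2) := by ring
    rw [h7]
    have : 0 ≤ y * (‖r i‖ * Sk r i) ^ 2 := by positivity
    linarith
  | succ l hil ih =>
    intro hl
    have h1 := rpi_succ hpos hz hZ hil hl
    have h2 := ih (by omega)
    have h3 := hy (l + 1) hl
    have hN := hpos (l + 1) hl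
    have hy0 : 0 ≤ y := le_trans (hz (l + 1)) h3
    rw [Sk_succ]
    have h4 : 2 * ‖r i‖ ^ 2 * z (l + 1) / ‖r (l + 1)‖ ^ 2 ≤
        2 * y * ‖r i‖ ^ 2 * (1 / ‖r (l + 1)‖) ^ 2 := by
      rw [div_eq_mul_inv]
      have e1 : (1 / ‖r (l + 1)‖) ^ 2 = (‖r (l + 1)‖ ^ 2)⁻¹ := by
        rw [one_div, inv_pow]
      rw [e1]
      apply mul_le_mul_of_nonneg_right _ (by positivity)
      have := mul_le_mul_of_nonneg_left h3 (by positivity : 0 ≤ 2 * ‖r i‖ ^ 2)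
      linarith
    have h5 : 0 ≤ 2 * y * ‖r i‖ ^ 2 * (2 * Sk r l * (1 / ‖r (l + 1)‖)) := by
      have := Sk_nonneg r l
      positivity
    nlinarith

end Pool.Agent.Lib.MP_02bbae_an
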