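import Mathlib
import Pool.Agent.Lib.MP_02bbae_an.Pih

set_option autoImplicit false
set_option linter.unusedSectionVars false

open scoped InnerProductSpace RealInnerProductSpace
open Finset

namespace Pool.Agent.Lib.MP_02bbae_an

variable {E : Type*} [NormedAddCommGroup E] [InnerProductSpace ℝ E]

/-- `α k N_k² S_k²` -/
noncomputable def Uk (r : ℕ → E) (α : ℕ → ℝ) (k : ℕ) : ℝ := α k * (Pk r k * Sk r k)

/-- an elementary bound -/
theorem NN_sum {N N' a S : ℝ} (hN : 0 < N) (hN' : 0 < N') (ha : 1 / 2 ≤ a)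
    (hNN : N' ^ 2 ≤ 7 * a * N ^ 2) (hS : 1 / N + 1 / N' ≤ S) :
    N + N' ≤ 7 * (a * N ^ 2) * S := by
  have h1 : N ≤ 7 * (a * N ^ 2) * (1 / N) := by
    have : 7 * (a * N ^ 2) * (1 / N) = 7 * a * N := by field_simp
    rw [this]; nlinarith
  have h2 : N' ≤ 7 * (a * N ^ 2) * (1 / N') := by
    rw [mul_one_div, le_div_iff₀ hN']
    nlinarith
  have h3 : 7 * (a * N ^ 2) * (1 / N + 1 / N') ≤ 7 * (a * N ^ 2) * S :=
    mul_le_mul_of_nonneg_left hS (by positivity)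
  linarith

/-- The change of `⟪pih j, r l⟫` in a step, `j < k` -/
theorem Z_lt {T : E →ₗ[ℝ] E} (hT : GoodOp T) {r p : ℕ → E} {α : ℕ → ℝ} {γ : ℝ} {j k : ℕ}
    (hγ0 : 0 ≤ γ) (hjk : j < k) (hpos : ∀ j ≤ k, 0 < ‖r j‖)
    (haj : 1 / 2 ≤ α j) (hak : 1 / 2 ≤ α k) (hNN : ‖r (j + 1)‖ ^ 2 ≤ 7 * α j * ‖r j‖ ^ 2)
    (hrj : ‖r (j + 1) - (r j - α j • T (p j))‖ ≤ γ * (‖r j‖ + |α j| * ‖p j‖))
    (hrk : ‖r (k + 1) - (r k - α k • T (p k))‖ ≤ γ * (‖r k‖ + |α k| * ‖p k‖))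
    (hpj : ‖p j‖ ≤ 1001 / 1000 * Pk r j) (hpk : ‖p k‖ ≤ 1001 / 1000 * Pk r k)
    (hfj : ‖p j - ‖r j‖ ^ 2 • pih r j‖ ≤ (3 * j * γ) * Pk r j)
    (hfk : ‖p k - ‖r k‖ ^ 2 • pih r k‖ ≤ (3 * k * γ) * Pk r k) :
    |⟪pih r j, r (k + 1)⟫_ℝ| ≤ |⟪pih r j, r k⟫_ℝ| +
      α k * ‖r k‖ ^ 2 / (α j * ‖r j‖ ^ 2) * |⟪r j, pih r k⟫_ℝ - ⟪r (j + 1), pih r k⟫_ℝ| +
      31 * k * γ * Uk r α k := by
  have hNj := hpos j hjk.le
  have hNj' := hpos (j + 1) hjk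
  have hNk := hpos k (le_refl k)
  have haj0 : 0 < α j := by linarith
  have hak0 : 0 < α k := by linarith
  have hPj := Pk_nonneg r j
  have hPk := Pk_nonneg r k
  have hSk := Sk_nonneg r k
  have hSj := Sk_nonneg r j
  have hSjk : Sk r j ≤ Sk r k := Sk_mono hjk.le
  have hpij : ‖pih r j‖ ≤ Sk r j := pih_norm fun i hi => hpos i (by omega)
  have hNPj := Pk_ge' hNj
  have hNPk := Pk_ge' hNk
  have hk1 : (1 : ℝ) ≤ k := by
    have : 1 ≤ k := by omega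
    exact_mod_cast this
  have hjk' : (j : ℝ) ≤ k := by exact_mod_cast hjk.le
  set ej := r (j + 1) - (r j - α j • T (p j)) with hej
  set ek := r (k + 1) - (r k - α k • T (p k)) with hek
  set fj := p j - ‖r j‖ ^ 2 • pih r j with hfjd
  set fk := p k - ‖r k‖ ^ 2 • pih r k with hfkd
  set τj := α j * ‖r j‖ ^ 2 with hτj
  have hτj0 : 0 < τj := by positivity
  set W := ⟪r j, pih r k⟫_ℝ - ⟪r (j + 1), pih r k⟫_ℝ with hW
  -- bounds for the errors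
  have hejb : ‖ej‖ ≤ γ * (3001 / 1000 * (α j * Pk r j)) := by
    refine le_trans hrj ?_
    apply mul_le_mul_of_nonneg_left _ hγ0
    rw [abs_of_pos haj0]
    have := mul_le_mul_of_nonneg_left hpj haj0.le
    nlinarith
  have hekb : ‖ek‖ ≤ γ * (3001 / 1000 * (α k * Pk r k)) := by
    refine le_trans hrk ?_
    apply mul_le_mul_of_nonneg_left _ hγ0
    rw [abs_of_pos hak0]
    have := mul_le_mul_of_nonneg_left hpk hak0.le
    nlinarith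
  -- the identity
  have hid : τj * ⟪pih r j, T (p k)⟫_ℝ = ‖r k‖ ^ 2 * W +
      (⟪r j - r (j + 1), fk⟫_ℝ + ⟪ej, p k⟫_ℝ - α j * ⟪T fj, p k⟫_ℝ) := by
    have e1 : ‖r j‖ ^ 2 • pih r j = p j - fj := by rw [hfjd]; abel
    have e2 : ‖r k‖ ^ 2 • pih r k = p k - fk := by rw [hfkd]; abel
    have e3 : α j • T (p j) = r j - r (j + 1) + ej := by rw [hej]; abel
    have e4 : τj * ⟪pih r j, T (p k)⟫_ℝ = ⟪r j - r (j + 1), p k⟫_ℝ + ⟪ej, p k⟫_ℝ
        - α j * ⟪T fj, p k⟫_ℝ := by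
      calc τj * ⟪pih r j, T (p k)⟫_ℝ = α j * ⟪‖r j‖ ^ 2 • pih r j, T (p k)⟫_ℝ := by
            rw [hτj, inner_smul_left]; simp; ring
        _ = α j * ⟪T (p j - fj), p k⟫_ℝ := by rw [e1, hT.sym]
        _ = ⟪α j • T (p j), p k⟫_ℝ - α j * ⟪T fj, p k⟫_ℝ := by
            rw [map_sub, inner_sub_left, inner_smul_left]; simp; ring
        _ = _ := by rw [e3, inner_add_left]
    have e5 : ‖r k‖ ^ 2 * W = ⟪r j - r (j + 1), p k⟫_ℝ - ⟪r j - r (j + 1), fk⟫_ℝ := by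
      rw [hW, ← inner_sub_left, ← inner_smul_right, e2, inner_sub_right]
    rw [e4, e5]; ring
  -- the bound for the error term
  have herr : |⟪r j - r (j + 1), fk⟫_ℝ + ⟪ej, p k⟫_ℝ - α j * ⟪T fj, p k⟫_ℝ| ≤
      τj * (γ * (21 * k + 301 / 100 + 301 / 100 * j) * (Pk r k * Sk r k)) := by
    have g1 : |⟪r j - r (j + 1), fk⟫_ℝ| ≤ (7 * τj * Sk r k) * ((3 * k * γ) * Pk r k) := by
      refine le_trans (abs_real_inner_le_norm _ _) ?_
      apply mul_le_mul _ hfk (norm_nonneg _) (by positivity)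
      refine le_trans (norm_sub_le _ _) ?_
      exact NN_sum hNj hNj' haj hNN (Sk_ge2 hjk)
    have hPτ : α j * Pk r j ≤ τj * Sk r k := by
      have : α j * Pk r j = τj * Sk r j := by rw [hτj]; unfold Pk; ring
      rw [this]
      exact mul_le_mul_of_nonneg_left hSjk hτj0.le
    have g2 : |⟪ej, p k⟫_ℝ| ≤ (γ * (3001 / 1000 * (τj * Sk r k))) * (1001 / 1000 * Pk r k) := by
      refine le_trans (abs_real_inner_le_norm _ _) ?_
      apply mul_le_mul _ hpk (norm_nonneg _) (by positivity)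
      refine le_trans hejb ?_
      apply mul_le_mul_of_nonneg_left _ hγ0
      linarith
    have g3 : |α j * ⟪T fj, p k⟫_ℝ| ≤ ((3 * j * γ) * (τj * Sk r k)) * (1001 / 1000 * Pk r k) := by
      rw [abs_mul, abs_of_pos haj0]
      have e1 : |⟪T fj, p k⟫_ℝ| ≤ ((3 * j * γ) * Pk r j) * (1001 / 1000 * Pk r k) := by
        refine le_trans (abs_real_inner_le_norm _ _) ?_
        exact mul_le_mul (le_trans (hT.bd fj) hfj) hpk (norm_nonneg _) (by positivity)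
      have e2 := mul_le_mul_of_nonneg_left e1 haj0.le
      refine le_trans e2 ?_
      have e3 : α j * (((3 * j * γ) * Pk r j) * (1001 / 1000 * Pk r k)) =
        ((3 * j * γ) * (α j * Pk r j)) * (1001 / 1000 * Pk r k) := by ring
      rw [e3]
      apply mul_le_mul_of_nonneg_right _ (by positivity)
      exact mul_le_mul_of_nonneg_left hPτ (by positivity)
    have g4 := abs_sub (⟪r j - r (j + 1), fk⟫_ℝ + ⟪ej, p k⟫_ℝ) (α j * ⟪T fj, p k⟫_ℝ)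
    have g5 := abs_add_le ⟪r j - r (j + 1), fk⟫_ℝ ⟪ej, p k⟫_ℝ
    have hX : 0 ≤ τj * (γ * (Pk r k * Sk r k)) := by positivity
    have hX2 : 0 ≤ τj * (γ * j * (Pk r k * Sk r k)) := by positivity
    nlinarith only [g1, g2, g3, g4, g5, hX, hX2]
  -- divide by `τj`
  have hV : |α k * ⟪pih r j, T (p k)⟫_ℝ| ≤ α k * ‖r k‖ ^ 2 / τj * |W| +
      γ * (21 * k + 301 / 100 + 301 / 100 * j) * Uk r α k := by
    have e1 : α k * ⟪pih r j, T (p k)⟫_ℝ = α k * ‖r k‖ ^ 2 / τj * W + α k / τj *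
        (⟪r j - r (j + 1), fk⟫_ℝ + ⟪ej, p k⟫_ℝ - α j * ⟪T fj, p k⟫_ℝ) := by
      have e2 : ⟪pih r j, T (p k)⟫_ℝ = (‖r k‖ ^ 2 * W +
        (⟪r j - r (j + 1), fk⟫_ℝ + ⟪ej, p k⟫_ℝ - α j * ⟪T fj, p k⟫_ℝ)) / τj := by
        rw [eq_div_iff hτj0.ne', ← hid]; ring
      rw [e2]; field_simp
    rw [e1]
    refine le_trans (abs_add_le _ _) ?_
    rw [abs_mul, abs_of_nonneg (by positivity : 0 ≤ α k * ‖r k‖ ^ 2 / τj), abs_mul,
      abs_of_nonneg (by positivity : 0 ≤ α k / τj)]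
    have e3 := mul_le_mul_of_nonneg_left herr (by positivity : 0 ≤ α k / τj)
    have e4 : α k / τj * (τj * (γ * (21 * k + 301 / 100 + 301 / 100 * j) * (Pk r k * Sk r k))) =
        γ * (21 * k + 301 / 100 + 301 / 100 * j) * Uk r α k := by
      unfold Uk; field_simp
    linarith
  -- the new residual
  have hnew : ⟪pih r j, r (k + 1)⟫_ℝ = ⟪pih r j, r k⟫_ℝ - α k * ⟪pih r j, T (p k)⟫_ℝ
      + ⟪pih r j, ek⟫_ℝ := by
    have : r (k + 1) = r k - α k • T (p k) + ek := by rw [hek]; abel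
    rw [this, inner_add_right, inner_sub_right, inner_smul_right]
  have hlast : |⟪pih r j, ek⟫_ℝ| ≤ γ * (3001 / 1000) * Uk r α k := by
    refine le_trans (abs_real_inner_le_norm _ _) ?_
    have e1 : ‖pih r j‖ * ‖ek‖ ≤ Sk r k * (γ * (3001 / 1000 * (α k * Pk r k))) :=
      mul_le_mul (le_trans hpij hSjk) hekb (norm_nonneg _) hSk
    refine le_trans e1 (le_of_eq ?_)
    unfold Uk; ring
  have hU : 0 ≤ γ * Uk r α k := by unfold Uk; positivity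
  rw [hnew]
  have t1 := abs_add_le (⟪pih r j, r k⟫_ℝ - α k * ⟪pih r j, T (p k)⟫_ℝ) ⟪pih r j, ek⟫_ℝ
  have t2 := abs_sub ⟪pih r j, r k⟫_ℝ (α k * ⟪pih r j, T (p k)⟫_ℝ)
  have hUk : γ * (21 * k + 301 / 100 + 301 / 100 * j) * Uk r α k + γ * (3001 / 1000) * Uk r α k
      ≤ 31 * k * γ * Uk r α k := by
    have : 21 * (k : ℝ) + 301 / 100 + 301 / 100 * j + 3001 / 1000 ≤ 31 * k := by linarith
    have := mul_le_mul_of_nonneg_right this hU
    linarith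
  linarith

/-- The new `⟪pih k, r (k+1)⟫` -/
theorem Z_eq {T : E →ₗ[ℝ] E} (hT : GoodOp T) {r p : ℕ → E} {α σ : ℕ → ℝ} {γ : ℝ} {k : ℕ}
    (hγ0 : 0 ≤ γ) (hpos : ∀ j ≤ k, 0 < ‖r j‖) (hak : 1 / 2 ≤ α k)
    (hrk : ‖r (k + 1) - (r k - α k • T (p k))‖ ≤ γ * (‖r k‖ + |α k| * ‖p k‖))
    (hσ : |σ k - ⟪p k, T (p k)⟫_ℝ| ≤ γ * ‖p k‖ ^ 2)
    (hα : |α k * σ k - ‖r k‖ ^ 2| ≤ γ * ‖r k‖ ^ 2)
    (hpk : ‖p k‖ ≤ 1001 / 1000 * Pk r k)
    (hfk : ‖p k - ‖r k‖ ^ 2 • pih r k‖ ≤ (3 * k * γ) * Pk r k) :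
    |⟪pih r k, r (k + 1)⟫_ℝ| ≤ |⟪r k, pih r k⟫_ℝ - 1| + (7 + 4 * k) * γ * Uk r α k := by
  have hNk := hpos k (le_refl k)
  have hak0 : 0 < α k := by linarith
  have hPk := Pk_nonneg r k
  have hSk := Sk_nonneg r k
  have hpik : ‖pih r k‖ ≤ Sk r k := pih_norm fun i hi => hpos i (by omega)
  have hNPk := Pk_ge' hNk
  have hk0 : (0 : ℝ) ≤ k := Nat.cast_nonneg _
  set ek := r (k + 1) - (r k - α k • T (p k)) with hek
  set fk := p k - ‖r k‖ ^ 2 • pih r k with hfkd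
  have hekb : ‖ek‖ ≤ γ * (3001 / 1000 * (α k * Pk r k)) := by
    refine le_trans hrk ?_
    apply mul_le_mul_of_nonneg_left _ hγ0
    rw [abs_of_pos hak0]
    have := mul_le_mul_of_nonneg_left hpk hak0.le
    nlinarith
  have hnew : ⟪pih r k, r (k + 1)⟫_ℝ = (⟪r k, pih r k⟫_ℝ - 1) + (1 - α k * ⟪pih r k, T (p k)⟫_ℝ)
      + ⟪pih r k, ek⟫_ℝ := by
    have : r (k + 1) = r k - α k • T (p k) + ek := by rw [hek]; abel
    rw [this, inner_add_right, inner_sub_right, inner_smul_right, real_inner_comm (pih r k) (r k)]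
    ring
  have hlast : |⟪pih r k, ek⟫_ℝ| ≤ γ * (3001 / 1000) * Uk r α k := by
    refine le_trans (abs_real_inner_le_norm _ _) ?_
    have e1 : ‖pih r k‖ * ‖ek‖ ≤ Sk r k * (γ * (3001 / 1000 * (α k * Pk r k))) :=
      mul_le_mul hpik hekb (norm_nonneg _) hSk
    refine le_trans e1 (le_of_eq ?_)
    unfold Uk; ring
  -- the middle term
  have hid : ‖r k‖ ^ 2 * (1 - α k * ⟪pih r k, T (p k)⟫_ℝ) = -(α k * σ k - ‖r k‖ ^ 2)
      + α k * (σ k - ⟪p k, T (p k)⟫_ℝ) + α k * ⟪fk, T (p k)⟫_ℝ := by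
    have e2 : ‖r k‖ ^ 2 • pih r k = p k - fk := by rw [hfkd]; abel
    have e3 : ‖r k‖ ^ 2 * ⟪pih r k, T (p k)⟫_ℝ = ⟪p k, T (p k)⟫_ℝ - ⟪fk, T (p k)⟫_ℝ := by
      rw [← inner_sub_left, ← e2, inner_smul_left]; simp
    linear_combination (-α k) * e3
  have hPU : α k * Pk r k ^ 2 = ‖r k‖ ^ 2 * Uk r α k := by unfold Uk Pk; ring
  have hmid : |‖r k‖ ^ 2 * (1 - α k * ⟪pih r k, T (p k)⟫_ℝ)| ≤
      γ * ‖r k‖ ^ 2 + (1003 / 1000 + 4 * k) * γ * (‖r k‖ ^ 2 * Uk r α k) := by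
    rw [hid]
    have t1 := abs_add_le (-(α k * σ k - ‖r k‖ ^ 2) + α k * (σ k - ⟪p k, T (p k)⟫_ℝ))
      (α k * ⟪fk, T (p k)⟫_ℝ)
    have t2 := abs_add_le (-(α k * σ k - ‖r k‖ ^ 2)) (α k * (σ k - ⟪p k, T (p k)⟫_ℝ))
    rw [abs_neg] at t2
    have g1 : |α k * (σ k - ⟪p k, T (p k)⟫_ℝ)| ≤ 1003 / 1000 * γ * (α k * Pk r k ^ 2) := by
      rw [abs_mul, abs_of_pos hak0]
      have e1 : ‖p k‖ ^ 2 ≤ (1001 / 1000 * Pk r k) ^ 2 := pow_le_pow_left₀ (norm_nonneg _) hpk 2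
      have e2 : α k * |σ k - ⟪p k, T (p k)⟫_ℝ| ≤ α k * (γ * (1001 / 1000 * Pk r k) ^ 2) := by
        apply mul_le_mul_of_nonneg_left _ hak0.le
        refine le_trans hσ ?_
        exact mul_le_mul_of_nonneg_left e1 hγ0
      have e3 : 0 ≤ γ * (α k * Pk r k ^ 2) := by positivity
      linarith
    have g2 : |α k * ⟪fk, T (p k)⟫_ℝ| ≤ 4 * k * γ * (α k * Pk r k ^ 2) := by
      rw [abs_mul, abs_of_pos hak0]
      have e1 : |⟪fk, T (p k)⟫_ℝ| ≤ ((3 * k * γ) * Pk r k) * (1001 / 1000 * Pk r k) := by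
        refine le_trans (abs_real_inner_le_norm _ _) ?_
        exact mul_le_mul hfk (le_trans (hT.bd _) hpk) (norm_nonneg _) (by positivity)
      have e2 := mul_le_mul_of_nonneg_left e1 hak0.le
      have e3 : 0 ≤ k * γ * (α k * Pk r k ^ 2) := by positivity
      linarith
    rw [hPU] at g1 g2
    linarith
  have hmid' : |1 - α k * ⟪pih r k, T (p k)⟫_ℝ| ≤ γ + (1003 / 1000 + 4 * k) * γ * Uk r α k := by
    rw [abs_mul, abs_of_nonneg (by positivity : (0 : ℝ) ≤ ‖r k‖ ^ 2)] at hmid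
    have e1 : γ * ‖r k‖ ^ 2 + (1003 / 1000 + 4 * k) * γ * (‖r k‖ ^ 2 * Uk r α k) =
      ‖r k‖ ^ 2 * (γ + (1003 / 1000 + 4 * k) * γ * Uk r α k) := by ring
    rw [e1] at hmid
    exact le_of_mul_le_mul_left hmid (by positivity)
  have hU12 : 1 / 2 ≤ Uk r α k := by
    have e1 : (1 : ℝ) ≤ ‖r k‖ * Sk r k := by
      have := mul_le_mul_of_nonneg_left (Sk_ge (r := r) (le_refl k)) hNk.le
      have e : ‖r k‖ * (1 / ‖r k‖) = 1 := by field_simp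
      linarith
    have e2 : Uk r α k = α k * (‖r k‖ * Sk r k) ^ 2 := by unfold Uk Pk; ring
    rw [e2]
    nlinarith
  have hγU : γ ≤ 2 * (γ * Uk r α k) := by
    have := mul_le_mul_of_nonneg_left hU12 hγ0
    linarith
  rw [hnew]
  have t1 := abs_add_le ((⟪r k, pih r k⟫_ℝ - 1) + (1 - α k * ⟪pih r k, T (p k)⟫_ℝ)) ⟪pih r k, ek⟫_ℝ
  have t2 := abs_add_le (⟪r k, pih r k⟫_ℝ - 1) (1 - α k * ⟪pih r k, T (p k)⟫_ℝ)
  have : 0 ≤ γ * Uk r α k := by positivity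
  linarith

end Pool.Agent.Lib.MP_02bbae_an
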