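import Mathlib
import Pool.Agent.Lib.MP_02bbae_an.Recursion
import Pool.Agent.Lib.MP_02bbae_an.ParamsZ
import Pool.Agent.Lib.MP_02bbae_an.State

set_option autoImplicit false
set_option linter.unusedSectionVars false

open scoped InnerProductSpace RealInnerProductSpace
open Finset

namespace Pool.Agent.Lib.MP_02bbae_an

variable {E : Type*} [NormedAddCommGroup E] [InnerProductSpace ℝ E]

/-- the state of the induction after `k` steps, finite condition number -/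
structure StZ (r : ℕ → E) (α : ℕ → ℝ) (γ L κ : ℝ) (m k : ℕ) : Prop where
  pos : ∀ j ≤ k, 0 < ‖r j‖
  N0 : ‖r 0‖ = 1
  Tb : ∀ j ≤ k, 1 + Tk r α j ≤ L * ‖r j‖
  ab : ∀ j < k, 1 / 2 ≤ α j
  NN : ∀ j < k, ‖r (j + 1)‖ ^ 2 ≤ 7 * α j * ‖r j‖ ^ 2
  Z : ∀ j l, j < l → l ≤ k → |⟪pih r j, r l⟫_ℝ| ≤ zf γ κ m l
  Z0 : 1 ≤ k → |⟪pih r 0, r 1⟫_ℝ| ≤ 7 * γ * α 0

variable {T : E →ₗ[ℝ] E} {ε L κ γ : ℝ} {m : ℕ} {b : E} {x r p : ℕ → E} {α β σ : ℕ → ℝ}

theorem StZ_zero (hP : ParZ ε L κ γ m) (hb : ‖b‖ = 1) (hr : r 0 = b) : StZ r α γ L κ m 0 := by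
  have h1 : ‖r 0‖ = 1 := by rw [hr, hb]
  refine ⟨?_, h1, ?_, ?_, ?_, ?_, ?_⟩
  · intro j hj
    have : j = 0 := by omega
    subst this; rw [h1]; norm_num
  · intro j hj
    have : j = 0 := by omega
    subst this
    rw [h1]
    simp only [Tk, range_zero, sum_empty]
    linarith [hP.L4]
  · intro j hj; omega
  · intro j hj; omega
  · intro i j h1 h2; omega
  · intro h; omega

namespace StZ

/-- bounds for directions in state `k` -/
theorem pn (hP : ParZ ε L κ γ m) {k : ℕ} (H : PCG T γ k b x r p α β σ) (hk : k < m)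
    (hS : StZ r α γ L κ m k) : ∀ j ≤ k, ‖p j‖ ≤ 1001 / 1000 * Pk r j := by
  intro j hj
  have hkγ := hP.kγ hk.le
  have h1 := p_norm hP.hγ0 (k := k) (by linarith) (by rw [H.p0, H.r0])
    (fun j hj => H.hp j (by omega)) (fun j hj => H.hβ j (by omega)) hS.pos j hj
  refine le_trans h1 ?_
  apply mul_le_mul_of_nonneg_right _ (Pk_nonneg r j)
  have : (j : ℝ) * γ ≤ k * γ := by
    apply mul_le_mul_of_nonneg_right _ hP.hγ0
    exact_mod_cast hj
  linarith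

theorem fb (hP : ParZ ε L κ γ m) {k : ℕ} (H : PCG T γ k b x r p α β σ) (hk : k < m)
    (hS : StZ r α γ L κ m k) :
    ∀ j ≤ k, ‖p j - ‖r j‖ ^ 2 • pih r j‖ ≤ (3 * j * γ) * Pk r j := by
  have hkγ := hP.kγ hk.le
  exact f_bound hP.hγ0 (by linarith) (by rw [H.p0, H.r0])
    (fun j hj => H.hp j (by omega)) (fun j hj => H.hβ j (by omega)) hS.pos

/-- the ratios of residual norms -/
theorem ratio {k : ℕ} (hS : StZ r α γ L κ m k) {l : ℕ} (hl : l ≤ k) :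
    ∀ j ≤ l, ‖r j‖ ≤ 7 * (L * ‖r l‖) := by
  have hTl := hS.Tb l hl
  have hT0 := Tk_nonneg r α l
  intro j
  induction j with
  | zero =>
    intro _
    rw [hS.N0]
    linarith
  | succ j ih =>
    intro hj
    have ih' := ih (by omega)
    have hN := hS.pos j (by omega)
    have hN' := hS.pos (j + 1) (by omega)
    have ha := hS.ab j (by omega)
    have hNN := hS.NN j (by omega)
    have h1 : |α j| * Pk r j ≤ Tk r α l := by
      unfold Tk
      apply single_le_sum (f := fun j => |α j| * Pk r j)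
        (fun i _ => mul_nonneg (abs_nonneg _) (Pk_nonneg r _))
      simp; omega
    rw [abs_of_nonneg (by linarith)] at h1
    have h2 : α j * ‖r j‖ ≤ α j * Pk r j := mul_le_mul_of_nonneg_left (Pk_ge' hN) (by linarith)
    have h3 : α j * ‖r j‖ ≤ L * ‖r l‖ := by linarith
    have h4 : ‖r (j + 1)‖ ^ 2 ≤ (7 * (L * ‖r l‖)) ^ 2 := by
      have e1 : 7 * α j * ‖r j‖ ^ 2 = 7 * ((α j * ‖r j‖) * ‖r j‖) := by ring
      have e2 : (α j * ‖r j‖) * ‖r j‖ ≤ (L * ‖r l‖) * (7 * (L * ‖r l‖)) :=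
        mul_le_mul h3 ih' hN.le (by linarith)
      rw [e1] at hNN
      nlinarith
    exact le_of_sq_le_sq h4 (by linarith)

/-- near orthogonality -/
theorem orth (hP : ParZ ε L κ γ m) {k : ℕ} (hS : StZ r α γ L κ m k) :
    ∀ i j, i < j → j ≤ k → |⟪r i, r j⟫_ℝ| ≤ 14 * (L * zf γ κ m k) * ‖r i‖ * ‖r j‖ := by
  intro i j hij hj
  have h1 := inner_of_Z hS.pos hP.z0 hS.Z hij hj
  have h2 := hS.ratio hj i hij.le
  have hN := hS.pos i (by omega)
  have h3 := hP.zmono hj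
  have h4 : 2 * ‖r i‖ ^ 2 * zf γ κ m j ≤ 2 * ‖r i‖ ^ 2 * zf γ κ m k :=
    mul_le_mul_of_nonneg_left h3 (by positivity)
  have h5 : ‖r i‖ * (‖r i‖ * zf γ κ m k) ≤ (7 * (L * ‖r j‖)) * (‖r i‖ * zf γ κ m k) :=
    mul_le_mul_of_nonneg_right h2 (mul_nonneg hN.le (hP.z0 k))
  linarith

/-- inner products in state `k` -/
theorem rp (hP : ParZ ε L κ γ m) {k : ℕ} (H : PCG T γ k b x r p α β σ) (hk : k < m)
    (hS : StZ r α γ L κ m k) : ∀ j ≤ k, ∀ i ≤ k, |⟪r i, p j⟫_ℝ - (if i ≤ j then ‖r j‖ ^ 2 else 0)|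
      ≤ (14 * (L * zf γ κ m k) + 3 * k * γ) * (‖r i‖ * Pk r j) := by
  intro j hj i hi
  have hkγ := hP.kγ hk.le
  have h3 := hP.omega' hk.le
  have h2 : 0 ≤ 14 * (L * zf γ κ m k) := by
    have := hP.Lpos
    have := hP.z0 k
    positivity
  have h4 := rp_inner hP.hγ0 h2 (by linarith) (by linarith) (by rw [H.p0, H.r0])
    (fun j hj => H.hp j (by omega)) (fun j hj => H.hβ j (by omega)) hS.pos (hS.orth hP) j hj i hi
  refine le_trans h4 ?_
  apply mul_le_mul_of_nonneg_right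
  · have : (j : ℝ) * γ ≤ k * γ := by
      apply mul_le_mul_of_nonneg_right _ hP.hγ0
      exact_mod_cast hj
    linarith
  · exact mul_nonneg (norm_nonneg _) (Pk_nonneg r j)

/-- the direction is not short -/
theorem P_le (hP : ParZ ε L κ γ m) {k : ℕ} (H : PCG T γ k b x r p α β σ) (hk : k < m)
    (hS : StZ r α γ L κ m k) : Pk r k ≤ 20 / 19 * (m * ‖p k‖) := by
  have hrp := hS.rp hP H hk k (le_refl k)
  set ω := 14 * (L * zf γ κ m k) + 3 * k * γ with hω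
  have hω0 : 0 ≤ ω := by
    have := hP.Lpos
    have := hP.z0 k
    have := hP.hγ0
    positivity
  have hP0 := Pk_nonneg r k
  have h1 : ∀ i ∈ range (k + 1), ‖r k‖ ^ 2 * (1 / ‖r i‖) ≤ ‖p k‖ + ω * Pk r k := by
    intro i hi
    have hi' : i ≤ k := by simp at hi; omega
    have hN := hS.pos i hi'
    have h2 := hrp i hi'
    rw [if_pos hi'] at h2
    have h3 := (abs_le.mp h2).1
    have h4 : ⟪r i, p k⟫_ℝ ≤ ‖r i‖ * ‖p k‖ := real_inner_le_norm _ _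
    rw [mul_one_div, div_le_iff₀ hN]
    linarith
  have h2 := sum_le_card_nsmul _ _ _ h1
  rw [← mul_sum, card_range, nsmul_eq_mul] at h2
  have h3 : ‖r k‖ ^ 2 * ∑ i ∈ range (k + 1), 1 / ‖r i‖ = Pk r k := rfl
  rw [h3] at h2
  have hkm : ((k + 1 : ℕ) : ℝ) ≤ m := by exact_mod_cast hk
  have h4 : ((k + 1 : ℕ) : ℝ) * (‖p k‖ + ω * Pk r k) ≤ m * (‖p k‖ + ω * Pk r k) := by
    apply mul_le_mul_of_nonneg_right hkm
    have := norm_nonneg (p k)
    positivity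
  have h5 : (m : ℝ) * ω ≤ 1 / 20 := by
    refine le_trans ?_ (hP.omega hk.le)
    apply mul_le_mul_of_nonneg_left _ (by positivity)
    rw [hω]
    have : (k : ℝ) * γ ≤ m * γ := by
      apply mul_le_mul_of_nonneg_right _ hP.hγ0
      exact_mod_cast hk.le
    have : 0 ≤ (m : ℝ) * γ := mul_nonneg (by positivity) hP.hγ0
    linarith
  have h6 := mul_le_mul_of_nonneg_right h5 hP0
  linarith

theorem p_ne (hP : ParZ ε L κ γ m) {k : ℕ} (H : PCG T γ k b x r p α β σ) (hk : k < m)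
    (hS : StZ r α γ L κ m k) : p k ≠ 0 := by
  intro h0
  have h1 := hS.P_le hP H hk
  rw [h0, norm_zero] at h1
  have h2 := hS.pos k (le_refl k)
  have h3 := Pk_ge' h2
  linarith

/-- `Π_k² ≤ (5/4) m² κ ⟪p k, T (p k)⟫` -/
theorem Psq (hc : ∀ v, ‖v‖ ^ 2 ≤ κ * ⟪v, T v⟫_ℝ) (hP : ParZ ε L κ γ m) {k : ℕ}
    (H : PCG T γ k b x r p α β σ) (hk : k < m) (hS : StZ r α γ L κ m k) :
    Pk r k ^ 2 ≤ 5 / 4 * ((m : ℝ) ^ 2 * (κ * ⟪p k, T (p k)⟫_ℝ)) := by
  have h1 := hS.P_le hP H hk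
  have h2 : Pk r k ^ 2 ≤ (20 / 19 * (m * ‖p k‖)) ^ 2 := pow_le_pow_left₀ (Pk_nonneg r k) h1 2
  have h3 := hc (p k)
  have h4 : (m : ℝ) ^ 2 * ‖p k‖ ^ 2 ≤ (m : ℝ) ^ 2 * (κ * ⟪p k, T (p k)⟫_ℝ) :=
    mul_le_mul_of_nonneg_left h3 (by positivity)
  have h5 : 0 ≤ (m : ℝ) ^ 2 * ‖p k‖ ^ 2 := by positivity
  nlinarith

/-- the error in the update of the directions -/
theorem ep (hP : ParZ ε L κ γ m) {k : ℕ} (H : PCG T γ k b x r p α β σ) (hk : k < m)
    (hS : StZ r α γ L κ m k) : ∀ j < k, ‖p (j + 1) - (r (j + 1) + β j • p j)‖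
      ≤ γ * (101 / 100 * Pk r (j + 1)) := by
  intro j hj
  refine le_trans (H.hp j (by omega)) ?_
  apply mul_le_mul_of_nonneg_left _ hP.hγ0
  have h1 := hS.pn hP H hk j (by omega)
  have hN' := hS.pos (j + 1) (by omega)
  have h2 := beta_Pk (hS.pos j (by omega)) hN' (H.hβ j (by omega))
  have h3 := mul_le_mul_of_nonneg_left h1 (abs_nonneg (β j))
  have h4 := Pk_ge' hN'
  have hγ := hP.γs
  have h5 : (1 + γ) * (Pk r (j + 1) - ‖r (j + 1)‖) ≤ 1001 / 1000 * (Pk r (j + 1) - ‖r (j + 1)‖) := by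
    apply mul_le_mul_of_nonneg_right _ (by linarith)
    linarith
  have h6 := Pk_nonneg r (j + 1)
  nlinarith only [h2, h3, h5, h6, hN', h4]

end StZ

/-- the cross term of two consecutive directions -/
theorem cross_Z {r p : ℕ → E} {T : E →ₗ[ℝ] E} {α β : ℕ → ℝ} {γ z : ℝ} {j : ℕ}
    (hγ0 : 0 ≤ γ) (hγs : γ ≤ 1 / 1000) (hz0 : 0 ≤ z) (hpos : ∀ i ≤ j + 1, 0 < ‖r i‖)
    (ha : 1 / 2 ≤ α j) (hNN : ‖r (j + 1)‖ ^ 2 ≤ 7 * α j * ‖r j‖ ^ 2)
    (hb : |β j| * ‖r j‖ ^ 2 ≤ (1 + γ) * ‖r (j + 1)‖ ^ 2)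
    (hr : ‖r (j + 1) - (r j - α j • T (p j))‖ ≤ γ * (‖r j‖ + |α j| * ‖p j‖))
    (hpj : ‖p j‖ ≤ 1001 / 1000 * Pk r j) (hpk : ‖p (j + 1)‖ ≤ 1001 / 1000 * Pk r (j + 1))
    (hf : ‖p (j + 1) - ‖r (j + 1)‖ ^ 2 • pih r (j + 1)‖ ≤ (3 * (j + 1 : ℕ) * γ) * Pk r (j + 1))
    (h1 : |⟪r j, pih r (j + 1)⟫_ℝ - 1| ≤ z + 2 * ‖r j‖ ^ 2 * z / ‖r (j + 1)‖ ^ 2)
    (h2 : |⟪r (j + 1), pih r (j + 1)⟫_ℝ - 1| ≤ z) :
    |β j * ⟪p (j + 1), T (p j)⟫_ℝ| ≤ 19 * z * ‖r (j + 1)‖ ^ 2 +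
      26 * ((j + 1 : ℕ) * γ) * Pk r (j + 1) ^ 2 := by
  have hN := hpos j (by omega)
  have hN' := hpos (j + 1) (le_refl _)
  have ha0 : 0 < α j := by linarith
  have hPj := Pk_nonneg r j
  have hPk := Pk_nonneg r (j + 1)
  have hSk := Sk_nonneg r (j + 1)
  set e := r (j + 1) - (r j - α j • T (p j)) with he
  set f := p (j + 1) - ‖r (j + 1)‖ ^ 2 • pih r (j + 1) with hfd
  set N := ‖r j‖ with hNd
  set N' := ‖r (j + 1)‖ with hNd'
  set Q := Pk r (j + 1) with hQ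
  set c : ℝ := ((j + 1 : ℕ) : ℝ) with hc
  have hc1 : 1 ≤ c := by rw [hc]; push_cast; linarith [(Nat.cast_nonneg j : (0 : ℝ) ≤ j)]
  -- identity
  have hid : α j * ⟪p (j + 1), T (p j)⟫_ℝ =
      N' ^ 2 * ((⟪r j, pih r (j + 1)⟫_ℝ - 1) - (⟪r (j + 1), pih r (j + 1)⟫_ℝ - 1)) +
      ⟪f, r j - r (j + 1)⟫_ℝ + ⟪p (j + 1), e⟫_ℝ := by
    have e1 : α j • T (p j) = r j - r (j + 1) + e := by rw [he]; abel
    have e2 : α j * ⟪p (j + 1), T (p j)⟫_ℝ = ⟪p (j + 1), r j - r (j + 1)⟫_ℝ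
        + ⟪p (j + 1), e⟫_ℝ := by
      rw [← inner_smul_right, e1, inner_add_right]
    have e3 : ⟪p (j + 1), r j - r (j + 1)⟫_ℝ = N' ^ 2 * ⟪pih r (j + 1), r j - r (j + 1)⟫_ℝ
        + ⟪f, r j - r (j + 1)⟫_ℝ := by
      have : p (j + 1) = N' ^ 2 • pih r (j + 1) + f := by rw [hfd]; abel
      conv_lhs => rw [this]
      rw [inner_add_left, inner_smul_left]; simp
    rw [e2, e3, inner_sub_right, real_inner_comm (r j), real_inner_comm (r (j + 1))]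
    ring
  -- bounds of the three terms multiplied by `|β|`
  have hbN : |β j| * N ^ 2 ≤ 7 * (1 + γ) * α j * N ^ 2 := by
    refine le_trans hb ?_
    have := mul_le_mul_of_nonneg_left hNN (by linarith : 0 ≤ 1 + γ)
    linarith
  have hβ7 : |β j| ≤ 7 * (1 + γ) * α j := le_of_mul_le_mul_right hbN (by positivity)
  have g1 : |β j| * |N' ^ 2 * ((⟪r j, pih r (j + 1)⟫_ℝ - 1) -
      (⟪r (j + 1), pih r (j + 1)⟫_ℝ - 1))| ≤ α j * (19 * z * N' ^ 2) := by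
    rw [abs_mul, abs_of_nonneg (by positivity : (0 : ℝ) ≤ N' ^ 2)]
    have t1 : |(⟪r j, pih r (j + 1)⟫_ℝ - 1) - (⟪r (j + 1), pih r (j + 1)⟫_ℝ - 1)| ≤
        2 * z + 2 * N ^ 2 * z / N' ^ 2 := by
      refine le_trans (abs_sub _ _) ?_
      linarith
    have t2 : N' ^ 2 * |(⟪r j, pih r (j + 1)⟫_ℝ - 1) - (⟪r (j + 1), pih r (j + 1)⟫_ℝ - 1)| ≤
        2 * z * N' ^ 2 + 2 * z * N ^ 2 := by
      have := mul_le_mul_of_nonneg_left t1 (by positivity : (0 : ℝ) ≤ N' ^ 2)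
      refine le_trans this (le_of_eq ?_)
      field_simp
    have t3 := mul_le_mul_of_nonneg_left t2 (abs_nonneg (β j))
    have t4 : |β j| * (2 * z * N' ^ 2) ≤ (7 * (1 + γ) * α j) * (2 * z * N' ^ 2) :=
      mul_le_mul_of_nonneg_right hβ7 (by positivity)
    have t5 : |β j| * (2 * z * N ^ 2) ≤ 2 * z * ((1 + γ) * N' ^ 2) := by
      have := mul_le_mul_of_nonneg_left hb (by positivity : 0 ≤ 2 * z)
      linarith
    have t6 : 2 * z * ((1 + γ) * N' ^ 2) ≤ 4 * (1 + γ) * α j * (z * N' ^ 2) := by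
      have : 0 ≤ z * N' ^ 2 * (1 + γ) := by positivity
      nlinarith only [this, ha]
    have t7 : 0 ≤ α j * (z * N' ^ 2) := by positivity
    have t8 : 18 * (1 + γ) * (α j * (z * N' ^ 2)) ≤ 19 * (α j * (z * N' ^ 2)) := by
      apply mul_le_mul_of_nonneg_right _ t7
      linarith only [hγs]
    linarith only [t3, t4, t5, t6, t7, t8]
  have hbτ : |β j| * (N + N') ≤ α j * (7 * (1 + γ) * Q) := by
    have s1 := NN_sum hN hN' ha hNN (Sk_ge2 (le_refl (j + 1)))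
    have s2 := mul_le_mul_of_nonneg_left s1 (abs_nonneg (β j))
    have s3 : |β j| * (7 * (α j * N ^ 2) * Sk r (j + 1)) =
      7 * α j * Sk r (j + 1) * (|β j| * N ^ 2) := by ring
    rw [s3] at s2
    have s4 : 7 * α j * Sk r (j + 1) * (|β j| * N ^ 2) ≤
        7 * α j * Sk r (j + 1) * ((1 + γ) * N' ^ 2) :=
      mul_le_mul_of_nonneg_left hb (by positivity)
    have s5 : 7 * α j * Sk r (j + 1) * ((1 + γ) * N' ^ 2) = α j * (7 * (1 + γ) * Q) := by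
      rw [hQ]; unfold Pk; ring
    linarith
  have g2 : |β j| * |⟪f, r j - r (j + 1)⟫_ℝ| ≤ α j * (22 * (c * γ) * Q ^ 2) := by
    have t1 : |⟪f, r j - r (j + 1)⟫_ℝ| ≤ ((3 * c * γ) * Q) * (N + N') := by
      refine le_trans (abs_real_inner_le_norm _ _) ?_
      exact mul_le_mul hf (norm_sub_le _ _) (norm_nonneg _) (by positivity)
    have t2 := mul_le_mul_of_nonneg_left t1 (abs_nonneg (β j))
    have t3 : |β j| * (((3 * c * γ) * Q) * (N + N')) = ((3 * c * γ) * Q) * (|β j| * (N + N')) := by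
      ring
    rw [t3] at t2
    have t4 := mul_le_mul_of_nonneg_left hbτ (by positivity : 0 ≤ (3 * c * γ) * Q)
    have t5 : 0 ≤ α j * ((c * γ) * Q ^ 2) := by positivity
    have t6 : 21 * (1 + γ) * (α j * ((c * γ) * Q ^ 2)) ≤ 22 * (α j * ((c * γ) * Q ^ 2)) := by
      apply mul_le_mul_of_nonneg_right _ t5
      linarith only [hγs]
    linarith only [t2, t4, t5, t6]
  have g3 : |β j| * |⟪p (j + 1), e⟫_ℝ| ≤ α j * (4 * γ * Q ^ 2) := by
    have hQN : N' ≤ Q := Pk_ge' hN'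
    have t1 : |⟪p (j + 1), e⟫_ℝ| ≤ (1001 / 1000 * Q) * (γ * (N + α j * (1001 / 1000 * Pk r j))) := by
      refine le_trans (abs_real_inner_le_norm _ _) ?_
      apply mul_le_mul hpk _ (norm_nonneg _) (by positivity)
      refine le_trans hr ?_
      apply mul_le_mul_of_nonneg_left _ hγ0
      rw [abs_of_pos ha0]
      have := mul_le_mul_of_nonneg_left hpj ha0.le
      linarith
    have t2 := mul_le_mul_of_nonneg_left t1 (abs_nonneg (β j))
    -- `|β| N ≤ 2 α (1+γ) Q`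
    have t3 : |β j| * N ≤ α j * (2 * (1 + γ) * Q) := by
      have u1 : |β j| * N * N ≤ (1 + γ) * N' ^ 2 := by
        have : |β j| * N * N = |β j| * N ^ 2 := by ring
        rw [this]; exact hb
      have u2 : N' ^ 2 ≤ N * Q := Pk_ge (Nat.le_succ j) hN
      have u3 : |β j| * N * N ≤ (1 + γ) * Q * N := by
        have := mul_le_mul_of_nonneg_left u2 (by linarith : 0 ≤ 1 + γ)
        linarith
      have u4 := le_of_mul_le_mul_right u3 hN
      have u5 : (1 + γ) * Q ≤ 2 * α j * ((1 + γ) * Q) := by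
        have : 0 ≤ (1 + γ) * Q := by positivity
        nlinarith only [this, ha]
      linarith only [u4, u5]
    -- `|β| Π_j ≤ (1+γ) Q`
    have t4 : |β j| * Pk r j ≤ (1 + γ) * Q := by
      have u1 : |β j| * Pk r j = (|β j| * N ^ 2) * Sk r j := by unfold Pk; ring
      rw [u1]
      have u2 := mul_le_mul_of_nonneg_right hb (Sk_nonneg r j)
      have u3 : (1 + γ) * N' ^ 2 * Sk r j ≤ (1 + γ) * N' ^ 2 * Sk r (j + 1) :=
        mul_le_mul_of_nonneg_left (Sk_mono (Nat.le_succ j)) (by positivity)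
      have u4 : (1 + γ) * N' ^ 2 * Sk r (j + 1) = (1 + γ) * Q := by rw [hQ]; unfold Pk; ring
      linarith
    have t5 : |β j| * ((1001 / 1000 * Q) * (γ * (N + α j * (1001 / 1000 * Pk r j)))) =
        (1001 / 1000 * Q) * (γ * ((|β j| * N) + α j * (1001 / 1000 * (|β j| * Pk r j)))) := by ring
    rw [t5] at t2
    have t6 : (|β j| * N) + α j * (1001 / 1000 * (|β j| * Pk r j)) ≤
        α j * ((2 * (1 + γ) + 1001 / 1000 * (1 + γ)) * Q) := by
      have := mul_le_mul_of_nonneg_left t4 ha0.le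
      linarith only [t3, this]
    have t7 := mul_le_mul_of_nonneg_left t6 (by positivity : 0 ≤ (1001 / 1000 * Q) * γ)
    have t8 : 0 ≤ α j * (γ * Q ^ 2) := by positivity
    have t9 : (3001 / 1000 * (1001 / 1000)) * (1 + γ) * (α j * (γ * Q ^ 2)) ≤
        4 * (α j * (γ * Q ^ 2)) := by
      apply mul_le_mul_of_nonneg_right _ t8
      linarith
    linarith only [t2, t7, t8, t9]
  -- conclusion
  have hmain : α j * |β j * ⟪p (j + 1), T (p j)⟫_ℝ| ≤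
      α j * (19 * z * N' ^ 2 + 26 * (c * γ) * Q ^ 2) := by
    have e0 : α j * |β j * ⟪p (j + 1), T (p j)⟫_ℝ| = |β j| * |α j * ⟪p (j + 1), T (p j)⟫_ℝ| := by
      rw [abs_mul, abs_mul, abs_of_pos ha0]; ring
    rw [e0, hid]
    have t1 := abs_add_le (N' ^ 2 * ((⟪r j, pih r (j + 1)⟫_ℝ - 1) -
      (⟪r (j + 1), pih r (j + 1)⟫_ℝ - 1)) + ⟪f, r j - r (j + 1)⟫_ℝ) ⟪p (j + 1), e⟫_ℝ
    have t2 := abs_add_le (N' ^ 2 * ((⟪r j, pih r (j + 1)⟫_ℝ - 1) -
      (⟪r (j + 1), pih r (j + 1)⟫_ℝ - 1))) ⟪f, r j - r (j + 1)⟫_ℝ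
    have t3 := mul_le_mul_of_nonneg_left (le_trans t1 (add_le_add t2 (le_refl _))) (abs_nonneg (β j))
    have t4 : γ * Q ^ 2 ≤ (c * γ) * Q ^ 2 := by
      apply mul_le_mul_of_nonneg_right _ (by positivity)
      nlinarith only [hc1, hγ0]
    have t5 := mul_le_mul_of_nonneg_left t4 ha0.le
    linarith only [t3, t5, g1, g2, g3]
  exact le_of_mul_le_mul_left hmain ha0

end Pool.Agent.Lib.MP_02bbae_an
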