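import Mathlib
import Pool.Agent.Lib.MP_02bbae_an.StateZ
import Pool.Agent.Lib.MP_02bbae_an.StepLength

set_option autoImplicit false
set_option linter.unusedSectionVars false

open scoped InnerProductSpace RealInnerProductSpace
open Finset

namespace Pool.Agent.Lib.MP_02bbae_an

variable {E : Type*} [NormedAddCommGroup E] [InnerProductSpace ℝ E]
variable {T : E →ₗ[ℝ] E} {ε L κ γ : ℝ} {m : ℕ} {b : E} {x r p : ℕ → E} {α β σ : ℕ → ℝ}

/-- real arithmetic for the energy -/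
theorem energy_arith {N Q s v2 c z γ a μ : ℝ} (hN : 0 < N)
    (hs0 : 0 ≤ s) (hγ0 : 0 ≤ γ) (hγs : γ ≤ 1 / 960000) (hz : z ≤ 1 / 2400)
    (hμ : γ ≤ μ) (hv : a ≤ N + γ * (101 / 100 * Q)) (ha : 0 ≤ a) (hQ : 0 ≤ Q) (hv2 : v2 ≤ a ^ 2)
    (hc : c ≤ 19 * z * N ^ 2 + 26 * μ * Q ^ 2) (hs : s ≤ v2 + 2 * c)
    (hQs : μ * Q ^ 2 ≤ 1 / 90000 * s) : s ≤ 3 / 2 * N ^ 2 := by
  have h1 : a ^ 2 ≤ (N + γ * (101 / 100 * Q)) ^ 2 := pow_le_pow_left₀ ha hv 2
  have h2 : (N + γ * (101 / 100 * Q)) ^ 2 ≤ 2 * (γ * (101 / 100 * Q)) ^ 2 * 50 + 51 / 50 * N ^ 2 := by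
    nlinarith [sq_nonneg (N - 50 * (γ * (101 / 100 * Q))), sq_nonneg (γ * (101 / 100 * Q))]
  have h3 : (γ * (101 / 100 * Q)) ^ 2 ≤ 2 / 960000 * (γ * Q ^ 2) := by
    have e1 : (γ * (101 / 100 * Q)) ^ 2 = (101 / 100) ^ 2 * (γ * (γ * Q ^ 2)) := by ring
    have e2 : γ * (γ * Q ^ 2) ≤ 1 / 960000 * (γ * Q ^ 2) :=
      mul_le_mul_of_nonneg_right hγs (by positivity)
    have e3 : 0 ≤ γ * Q ^ 2 := by positivity
    rw [e1]; linarith only [e2, e3]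
  have h4 : γ * Q ^ 2 ≤ μ * Q ^ 2 := mul_le_mul_of_nonneg_right hμ (by positivity)
  have h5 : z * N ^ 2 ≤ 1 / 2400 * N ^ 2 := mul_le_mul_of_nonneg_right hz (by positivity)
  have h6 : 0 < N ^ 2 := by positivity
  linarith only [h1, h2, h3, h4, h5, h6, hv2, hc, hs, hQs, hs0]

/-- the energy of the current direction -/
theorem StZ.energy (hT : GoodOp T) (hc : ∀ v, ‖v‖ ^ 2 ≤ κ * ⟪v, T v⟫_ℝ) (hP : ParZ ε L κ γ m)
    {k : ℕ} (H : PCG T γ k b x r p α β σ) (hk : k < m) (hS : StZ r α γ L κ m k) :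
    ⟪p k, T (p k)⟫_ℝ ≤ 3 / 2 * ‖r k‖ ^ 2 := by
  have hN := hS.pos k (le_refl k)
  rcases Nat.eq_zero_or_pos k with h0 | h0
  · subst h0
    have := hT.inner_le (p 0)
    rw [H.p0, ← H.r0] at this ⊢
    have : 0 < ‖r 0‖ ^ 2 := by positivity
    linarith
  · obtain ⟨j, rfl⟩ : ∃ j, k = j + 1 := ⟨k - 1, by omega⟩
    have hγ0 := hP.hγ0
    have hγs := hP.γs
    have hNj := hS.pos j (by omega)
    have ha := hS.ab j (Nat.lt_succ_self j)
    have hNN := hS.NN j (Nat.lt_succ_self j)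
    have hb := beta_le H (Nat.lt_succ_self j)
    have hpj := hS.pn hP H hk j (by omega)
    have hpk := hS.pn hP H hk (j + 1) (le_refl _)
    have hf := hS.fb hP H hk (j + 1) (le_refl _)
    have h1 : |⟪r j, pih r (j + 1)⟫_ℝ - 1| ≤ zf γ κ m (j + 1) +
        2 * ‖r j‖ ^ 2 * zf γ κ m (j + 1) / ‖r (j + 1)‖ ^ 2 := by
      have e1 := rpi_succ hS.pos hP.z0 hS.Z (le_refl j) (le_refl (j + 1))
      have e2 := rpi_self hS.pos hP.z0 hS.Z (Nat.le_succ j)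
      have e3 := hP.zmono (Nat.le_succ j)
      linarith
    have h2 := rpi_self hS.pos hP.z0 hS.Z (le_refl (j + 1))
    have hcr := cross_Z hγ0 (by linarith) (hP.z0 (j + 1)) hS.pos ha hNN hb
      (H.hr j (Nat.lt_succ_self j)) hpj hpk hf h1 h2
    have hep := hS.ep hP H hk j (Nat.lt_succ_self j)
    have hQ0 := Pk_nonneg r (j + 1)
    have hPsq := hS.Psq hc hP H hk
    set N := ‖r (j + 1)‖ with hNd
    set Q := Pk r (j + 1) with hQd
    set v := p (j + 1) - β j • p j with hv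
    have hv1 : ‖v‖ ≤ N + γ * (101 / 100 * Q) := by
      have : v = (p (j + 1) - (r (j + 1) + β j • p j)) + r (j + 1) := by rw [hv]; abel
      rw [this]
      refine le_trans (norm_add_le _ _) ?_
      linarith
    have hv2 : ⟪v, T v⟫_ℝ ≤ ‖v‖ ^ 2 := hT.inner_le v
    have hexp : ⟪v, T v⟫_ℝ = ⟪p (j + 1), T (p (j + 1))⟫_ℝ - 2 * (β j * ⟪p (j + 1), T (p j)⟫_ℝ)
        + β j ^ 2 * ⟪p j, T (p j)⟫_ℝ := by
      rw [hv, map_sub, map_smul, inner_sub_left, inner_sub_right, inner_sub_right, inner_smul_left,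
        inner_smul_right, inner_smul_left, inner_smul_right, ← hT.sym (p j) (p (j + 1)),
        real_inner_comm (p (j + 1)) (T (p j))]
      simp
      ring
    have hp2 : 0 ≤ β j ^ 2 * ⟪p j, T (p j)⟫_ℝ := mul_nonneg (sq_nonneg _) (hT.pos (p j))
    set s := ⟪p (j + 1), T (p (j + 1))⟫_ℝ with hs
    have hs0 : 0 ≤ s := hT.pos _
    set μ : ℝ := ((j + 1 : ℕ) : ℝ) * γ with hμ
    have hμγ : γ ≤ μ := by
      rw [hμ]; push_cast
      have : (0 : ℝ) ≤ j * γ := by positivity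
      linarith
    have hμQ : μ * Q ^ 2 ≤ 1 / 90000 * s := by
      have e1 : μ ≤ m * γ := by
        rw [hμ]
        apply mul_le_mul_of_nonneg_right _ hγ0
        exact_mod_cast hk.le
      have e2 : μ * Q ^ 2 ≤ (m * γ) * Q ^ 2 := mul_le_mul_of_nonneg_right e1 (by positivity)
      have e3 : (m * γ) * Q ^ 2 ≤ (m * γ) * (5 / 4 * ((m : ℝ) ^ 2 * (κ * s))) :=
        mul_le_mul_of_nonneg_left hPsq (by positivity)
      have e4 : (m * γ) * (5 / 4 * ((m : ℝ) ^ 2 * (κ * s))) = 5 / 4 * (((m : ℝ) ^ 3 * (γ * κ)) * s) := by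
        ring
      have e5 := mul_le_mul_of_nonneg_right hP.m3γκ hs0
      linarith
    exact energy_arith (N := N) (Q := Q) (s := s) (v2 := ⟪v, T v⟫_ℝ)
      (c := |β j * ⟪p (j + 1), T (p j)⟫_ℝ|) (z := zf γ κ m (j + 1)) (γ := γ) (a := ‖v‖) (μ := μ)
      hN hs0 hγ0 hγs (hP.zs hk.le) hμγ hv1 (norm_nonneg _) hQ0 hv2 hcr
      (by have := le_abs_self (β j * ⟪p (j + 1), T (p j)⟫_ℝ); linarith) hμQ

/-- the step length -/
theorem StZ.step_len (hT : GoodOp T) (hc : ∀ v, ‖v‖ ^ 2 ≤ κ * ⟪v, T v⟫_ℝ) (hP : ParZ ε L κ γ m)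
    {k : ℕ} (H : PCG T γ (k + 1) b x r p α β σ) (hk : k < m) (hS : StZ r α γ L κ m k) :
    1 / 2 ≤ α k ∧ α k * ⟪p k, T (p k)⟫_ℝ ≤ 11 / 10 * ‖r k‖ ^ 2 := by
  have H' := H.mono (Nat.le_succ k)
  have hs := hS.energy hT hc hP H' hk
  have hN := hS.pos k (le_refl k)
  have hσ := H.hσ k (Nat.lt_succ_self k)
  have hα := H.hα k (Nat.lt_succ_self k)
  have hck := hc (p k)
  have hγ0 := hP.hγ0
  have hγs := hP.γs
  have hγκ := hP.γκ
  set s := ⟪p k, T (p k)⟫_ℝ with hsd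
  have hs0 : 0 ≤ s := hT.pos _
  have h1 : γ * ‖p k‖ ^ 2 ≤ 1 / 960000 * s := by
    have e1 := mul_le_mul_of_nonneg_left hck hγ0
    have e2 : γ * (κ * s) = (γ * κ) * s := by ring
    have e3 := mul_le_mul_of_nonneg_right hγκ hs0
    linarith
  have hN2 : 0 < ‖r k‖ ^ 2 := by positivity
  have h2 : γ * ‖r k‖ ^ 2 ≤ 1 / 960000 * ‖r k‖ ^ 2 := mul_le_mul_of_nonneg_right hγs hN2.le
  obtain ⟨a1, a2⟩ := abs_le.mp hσ
  obtain ⟨b1, b2⟩ := abs_le.mp hα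
  have h3 : 99 / 100 * ‖r k‖ ^ 2 ≤ α k * σ k := by linarith
  have h4 : 99 / 100 * s ≤ σ k := by linarith
  have h5 : σ k ≤ 101 / 100 * s := by linarith
  have hσ0 : 0 ≤ σ k := by linarith
  have hσpos : 0 < σ k := by
    rcases lt_or_eq_of_le hσ0 with h | h
    · exact h
    · rw [← h, mul_zero] at h3; linarith
  have ha0 : 0 < α k := by
    by_contra hcon
    push Not at hcon
    have : α k * σ k ≤ 0 := mul_nonpos_of_nonpos_of_nonneg hcon hσpos.le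
    linarith
  constructor
  · by_contra hcon
    push Not at hcon
    have : α k * σ k ≤ 1 / 2 * σ k := mul_le_mul_of_nonneg_right hcon.le hσpos.le
    linarith
  · have := mul_le_mul_of_nonneg_left h4 ha0.le
    linarith

/-- bound for `U k` -/
theorem StZ.U_le (hT : GoodOp T) (hc : ∀ v, ‖v‖ ^ 2 ≤ κ * ⟪v, T v⟫_ℝ) (hP : ParZ ε L κ γ m)
    {k : ℕ} (H : PCG T γ (k + 1) b x r p α β σ) (hk : k < m) (hS : StZ r α γ L κ m k) :
    1 / 2 ≤ Uk r α k ∧ Uk r α k ≤ 7 / 5 * ((m : ℝ) ^ 2 * κ) := by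
  obtain ⟨ha, has⟩ := hS.step_len hT hc hP H hk
  have hPsq := hS.Psq hc hP (H.mono (Nat.le_succ k)) hk
  have hN := hS.pos k (le_refl k)
  have hκ := hP.κ0
  have ha0 : 0 < α k := by linarith
  have hN2 : 0 < ‖r k‖ ^ 2 := by positivity
  constructor
  · have e1 : (1 : ℝ) ≤ ‖r k‖ * Sk r k := by
      have := mul_le_mul_of_nonneg_left (Sk_ge (r := r) (le_refl k)) hN.le
      have e : ‖r k‖ * (1 / ‖r k‖) = 1 := by field_simp
      linarith
    have e2 : Uk r α k = α k * (‖r k‖ * Sk r k) ^ 2 := by unfold Uk Pk; ring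
    rw [e2]
    nlinarith
  · have e1 : ‖r k‖ ^ 2 * Uk r α k = α k * Pk r k ^ 2 := by unfold Uk Pk; ring
    have e2 := mul_le_mul_of_nonneg_left hPsq ha0.le
    have e3 : α k * (5 / 4 * ((m : ℝ) ^ 2 * (κ * ⟪p k, T (p k)⟫_ℝ))) =
      5 / 4 * ((m : ℝ) ^ 2 * κ) * (α k * ⟪p k, T (p k)⟫_ℝ) := by ring
    have e4 := mul_le_mul_of_nonneg_left has (by positivity : 0 ≤ 5 / 4 * ((m : ℝ) ^ 2 * κ))
    have e5 : ‖r k‖ ^ 2 * Uk r α k ≤ ‖r k‖ ^ 2 * (7 / 5 * ((m : ℝ) ^ 2 * κ)) := by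
      rw [e1]
      have : 0 ≤ (m : ℝ) ^ 2 * κ * ‖r k‖ ^ 2 := by positivity
      linarith
    exact le_of_mul_le_mul_left e5 hN2

/-- bounds for iterates and residuals after `k + 1` steps, given the state after `k` steps -/
theorem StZ.next_x (hT : GoodOp T) (hP : ParZ ε L κ γ m) {k : ℕ}
    (H : PCG T γ (k + 1) b x r p α β σ) (hb : ‖b‖ = 1) (hk : k < m) (hS : StZ r α γ L κ m k)
    {j : ℕ} (hj : j ≤ k + 1) :
    ‖b - T (x j) - r j‖ ≤ (5 * m * γ) * (1 + Tk r α j) ∧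
    ‖x j - ∑ i ∈ range j, α i • p i‖ ≤ (2 * m * γ) * Tk r α j := by
  have hγ0 := hP.hγ0
  have hkγ : ((k + 1 : ℕ) : ℝ) * γ ≤ 1 / 480000 := hP.kγ hk
  have H' := H.mono (Nat.le_succ k)
  have hp : ∀ j < k + 1, ‖p j‖ ≤ 1001 / 1000 * Pk r j := fun j hj => hS.pn hP H' hk j (by omega)
  have hc : 1001 / 1000 + 2 * ((k + 1 : ℕ) : ℝ) * γ ≤ 11 / 10 := by linarith
  have h2 := x_approx (k := k + 1) hγ0 (by norm_num) hc H.x0 (fun j hj => H.hx j (by omega)) hp j hj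
  have h3 := gap (k := k + 1) hT hγ0 (by norm_num) hc (by linarith) hb H.x0 H.r0
    (fun j hj => H.hx j (by omega)) (fun j hj => H.hr j (by omega)) hp j hj
  have hT0 := Tk_nonneg r α j
  have hjm : (j : ℝ) * γ ≤ m * γ := by
    apply mul_le_mul_of_nonneg_right _ hγ0
    have : j ≤ m := by omega
    exact_mod_cast this
  refine ⟨le_trans h3 ?_, le_trans h2 ?_⟩
  · apply mul_le_mul_of_nonneg_right _ (by linarith)
    linarith
  · apply mul_le_mul_of_nonneg_right _ hT0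
    linarith

/-- the new residual norm is at least `(1 + T) / L` -/
theorem StZ.next_T (hT : GoodOp T) (hc : ∀ v, ‖v‖ ^ 2 ≤ κ * ⟪v, T v⟫_ℝ) (hP : ParZ ε L κ γ m)
    {k : ℕ} (H : PCG T γ (k + 1) b x r p α β σ) (hb : ‖b‖ = 1) (hk : k < m)
    (hS : StZ r α γ L κ m k) (hF' : Fail T ε b x (k + 1)) :
    1 + Tk r α (k + 1) ≤ L * ‖r (k + 1)‖ := by
  obtain ⟨ha, _⟩ := hS.step_len hT hc hP H hk
  obtain ⟨h2, h3⟩ := hS.next_x hT hP H hb hk (le_refl (k + 1))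
  have hγ0 := hP.hγ0
  have hε := hP.hε
  have hω3 := hP.omega hk.le
  have hm := hP.m2
  have hkm : ((k + 1 : ℕ) : ℝ) ≤ m := by exact_mod_cast hk
  have hkm' : (k : ℝ) ≤ m := by exact_mod_cast hk.le
  have hαk : ∀ j < k + 1, 0 ≤ α j := by
    intro j hj
    rcases Nat.lt_succ_iff_lt_or_eq.mp hj with h | h
    · have := hS.ab j h; linarith
    · rw [h]; linarith
  have h4 := T_le (k := k + 1) hαk (fun j hj => hS.pos j (by omega))
    (fun j hj i hi => hS.rp hP (H.mono (Nat.le_succ k)) hk j (by omega) i (by omega)) h3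
  set W := Tk r α (k + 1) with hW
  have hW0 : 0 ≤ W := Tk_nonneg _ _ _
  have hz0 := hP.z0 k
  have hL0 := hP.Lpos
  have h5 : 19 / 20 * W ≤ m * ‖x (k + 1)‖ := by
    have e1 : ((k + 1 : ℕ) : ℝ) * ‖x (k + 1)‖ ≤ m * ‖x (k + 1)‖ :=
      mul_le_mul_of_nonneg_right hkm (norm_nonneg _)
    have e2 : ((k + 1 : ℕ) : ℝ) * ((14 * (L * zf γ κ m k) + 3 * k * γ) + 2 * m * γ) ≤ 1 / 20 := by
      refine le_trans ?_ hω3
      have e3 : (14 * (L * zf γ κ m k) + 3 * k * γ) + 2 * m * γ ≤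
          14 * (L * zf γ κ m k) + 5 * m * γ := by
        have : 3 * k * γ ≤ 3 * m * γ := by nlinarith
        linarith
      apply mul_le_mul hkm e3 (by positivity) (by positivity)
    have e4 := mul_le_mul_of_nonneg_right e2 hW0
    linarith
  have h6 : ε * (‖x (k + 1)‖ + 1) < ‖b - T (x (k + 1))‖ := hF'
  have h7 : ‖b - T (x (k + 1))‖ ≤ ‖r (k + 1)‖ + (5 * m * γ) * (1 + W) := by
    have e1 : b - T (x (k + 1)) = (b - T (x (k + 1)) - r (k + 1)) + r (k + 1) := by abel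
    have e2 : ‖b - T (x (k + 1))‖ ≤ ‖b - T (x (k + 1)) - r (k + 1)‖ + ‖r (k + 1)‖ := by
      conv_lhs => rw [e1]
      exact norm_add_le _ _
    linarith
  have h8 : 1 + W ≤ 20 / 19 * (m * (‖x (k + 1)‖ + 1)) := by nlinarith
  have h9 : L * (ε * (‖x (k + 1)‖ + 1)) = 2 * (m * (‖x (k + 1)‖ + 1)) := by
    rw [← mul_assoc, hP.hL]; ring
  have h10 : L * (ε * (‖x (k + 1)‖ + 1)) ≤ L * (‖r (k + 1)‖ + (5 * m * γ) * (1 + W)) :=
    mul_le_mul_of_nonneg_left (by linarith) hL0.le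
  have h11 : L * ((5 * m * γ) * (1 + W)) ≤ 1 / 16000 * (1 + W) := by
    have e1 : L * ((5 * m * γ) * (1 + W)) = 5 * (m * (L * γ)) * (1 + W) := by ring
    rw [e1]
    apply mul_le_mul_of_nonneg_right _ (by linarith)
    have e2 := hP.mγL
    linarith
  have h12 : L * (‖r (k + 1)‖ + (5 * m * γ) * (1 + W)) = L * ‖r (k + 1)‖
    + L * ((5 * m * γ) * (1 + W)) := by ring
  linarith

/-- the new residual is not zero -/
theorem StZ.next_pos (hT : GoodOp T) (hc : ∀ v, ‖v‖ ^ 2 ≤ κ * ⟪v, T v⟫_ℝ) (hP : ParZ ε L κ γ m)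
    {k : ℕ} (H : PCG T γ (k + 1) b x r p α β σ) (hb : ‖b‖ = 1) (hk : k < m)
    (hS : StZ r α γ L κ m k) (hF' : Fail T ε b x (k + 1)) : 0 < ‖r (k + 1)‖ := by
  have h1 := hS.next_T hT hc hP H hb hk hF'
  have h2 := Tk_nonneg r α (k + 1)
  have h3 : 0 < L * ‖r (k + 1)‖ := by linarith
  rcases lt_or_eq_of_le (norm_nonneg (r (k + 1))) with h' | h'
  · exact h'
  · rw [← h', mul_zero] at h3; exact absurd h3 (lt_irrefl _)

/-- growth of the residual norms, step `k` -/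
theorem StZ.next_NN (hT : GoodOp T) (hc : ∀ v, ‖v‖ ^ 2 ≤ κ * ⟪v, T v⟫_ℝ) (hP : ParZ ε L κ γ m)
    {k : ℕ} (H : PCG T γ (k + 1) b x r p α β σ) (hb : ‖b‖ = 1) (hk : k < m)
    (hS : StZ r α γ L κ m k) (hF' : Fail T ε b x (k + 1)) :
    ‖r (k + 1)‖ ^ 2 ≤ 7 * α k * ‖r k‖ ^ 2 := by
  obtain ⟨ha, has⟩ := hS.step_len hT hc hP H hk
  have hT1 := hS.next_T hT hc hP H hb hk hF'
  have hpos' := hS.next_pos hT hc hP H hb hk hF'
  have hγ0 := hP.hγ0
  have hN := hS.pos k (le_refl k)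
  have hT0 := Tk_nonneg r α k
  have hα0 : 0 ≤ α k := by linarith
  have haQ : α k * Pk r k ≤ L * ‖r (k + 1)‖ := by
    rw [Tk_succ, abs_of_nonneg hα0] at hT1
    linarith
  refine NN_step (L := L) (Q := Pk r k) (s := ⟪p k, T (p k)⟫_ℝ) (tp := ‖T (p k)‖) hγ0 hP.γs hP.γL
    hN hpos'.le ha (hT.sq_le (p k)) has haQ ?_
  have e1 : r (k + 1) = (r (k + 1) - (r k - α k • T (p k))) + (r k - α k • T (p k)) := by abel
  have e2 : ‖r (k + 1)‖ ≤ ‖r (k + 1) - (r k - α k • T (p k))‖ + ‖r k - α k • T (p k)‖ := by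
    conv_lhs => rw [e1]
    exact norm_add_le _ _
  have e3 := norm_sub_le (r k) (α k • T (p k))
  rw [norm_smul, Real.norm_eq_abs, abs_of_nonneg hα0] at e3
  have e4 := H.hr k (Nat.lt_succ_self k)
  rw [abs_of_nonneg hα0] at e4
  have e5 : γ * (‖r k‖ + α k * ‖p k‖) ≤ γ * (‖r k‖ + 1001 / 1000 * (α k * Pk r k)) := by
    apply mul_le_mul_of_nonneg_left _ hγ0
    have := mul_le_mul_of_nonneg_left (hS.pn hP (H.mono (Nat.le_succ k)) hk k (le_refl k)) hα0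
    linarith
  linarith

end Pool.Agent.Lib.MP_02bbae_an
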