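import Mathlib
import Pool.Agent.Lib.MP_02bbae_an.StepZ
import Pool.Agent.Lib.MP_02bbae_an.Main

set_option autoImplicit false
set_option linter.unusedSectionVars false

open scoped InnerProductSpace RealInnerProductSpace
open Finset

namespace Pool.Agent.Lib.MP_02bbae_an

variable {E : Type*} [NormedAddCommGroup E] [InnerProductSpace ℝ E]
variable {T : E →ₗ[ℝ] E} {ε L κ γ : ℝ} {m : ℕ} {b : E} {x r p : ℕ → E} {α β σ : ℕ → ℝ}

/-- the state, with a bound for the first step length -/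
structure StY (r : ℕ → E) (α : ℕ → ℝ) (γ L κ : ℝ) (m k : ℕ) : Prop
    extends StZ r α γ L κ m k where
  A0 : 1 ≤ k → α 0 ≤ 7 / 5 * ((m : ℝ) ^ 2 * κ)

theorem Uk_zero {r : ℕ → E} {α : ℕ → ℝ} (h : ‖r 0‖ = 1) : Uk r α 0 = α 0 := by
  unfold Uk
  rw [Pk_zero (by rw [h]; norm_num)]
  unfold Sk
  simp [h]

/-- the bound for `⟪pih j, r (k+1)⟫`, `j < k`, `k ≥ 2` -/
theorem StY.Z_lt_two (hT : GoodOp T) (hc : ∀ v, ‖v‖ ^ 2 ≤ κ * ⟪v, T v⟫_ℝ) (hP : ParZ ε L κ γ m)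
    {k : ℕ} (H : PCG T γ (k + 1) b x r p α β σ) (hk : k < m) (hS : StY r α γ L κ m k)
    (hk2 : 2 ≤ k) {j : ℕ} (hj : j < k) : |⟪pih r j, r (k + 1)⟫_ℝ| ≤ zf γ κ m (k + 1) := by
  obtain ⟨ha, has⟩ := hS.step_len hT hc hP H hk
  obtain ⟨hU1, hU2⟩ := hS.U_le hT hc hP H hk
  have H' := H.mono (Nat.le_succ k)
  have hγ0 := hP.hγ0
  have hκ0 := hP.κ0
  have haj := hS.ab j hj
  have hNNj := hS.NN j hj
  have hNj := hS.pos j hj.le
  have hNj' := hS.pos (j + 1) hj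
  have hNk := hS.pos k (le_refl k)
  have h1 := Z_lt hT hγ0 hj hS.pos haj ha hNNj (H.hr j (by omega)) (H.hr k (Nat.lt_succ_self k))
    (hS.pn hP H' hk j hj.le) (hS.pn hP H' hk k (le_refl k)) (hS.fb hP H' hk j hj.le)
    (hS.fb hP H' hk k (le_refl k))
  set z := zf γ κ m k with hz
  have hz0 : 0 ≤ z := hP.z0 k
  have hzy : ∀ l ≤ k, zf γ κ m l ≤ z := fun l hl => hP.zmono hl
  have h2 := hS.Z j k hj (le_refl k)
  have h3 := rpi_le hS.pos hP.z0 hzy hS.Z k hj.le (le_refl k)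
  have h4 := rpi_le hS.pos hP.z0 hzy hS.Z (i := j + 1) k hj (le_refl k)
  set S := Sk r k with hSd
  set τj := α j * ‖r j‖ ^ 2 with hτj
  have hτj0 : 0 < τj := by positivity
  have hW : |⟪r j, pih r k⟫_ℝ - ⟪r (j + 1), pih r k⟫_ℝ| ≤ 18 * z * S ^ 2 * τj := by
    have e1 : ⟪r j, pih r k⟫_ℝ - ⟪r (j + 1), pih r k⟫_ℝ = (⟪r j, pih r k⟫_ℝ - 1)
      - (⟪r (j + 1), pih r k⟫_ℝ - 1) := by ring
    rw [e1]
    refine le_trans (abs_sub _ _) ?_
    have e2 : ‖r j‖ ^ 2 ≤ 2 * τj := by rw [hτj]; nlinarith [sq_nonneg ‖r j‖]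
    have e3 : ‖r (j + 1)‖ ^ 2 ≤ 7 * τj := by rw [hτj]; linarith
    have e4 : 2 * z * ‖r j‖ ^ 2 * S ^ 2 ≤ 2 * z * (2 * τj) * S ^ 2 := by
      apply mul_le_mul_of_nonneg_right _ (sq_nonneg _)
      exact mul_le_mul_of_nonneg_left e2 (by positivity)
    have e5 : 2 * z * ‖r (j + 1)‖ ^ 2 * S ^ 2 ≤ 2 * z * (7 * τj) * S ^ 2 := by
      apply mul_le_mul_of_nonneg_right _ (sq_nonneg _)
      exact mul_le_mul_of_nonneg_left e3 (by positivity)
    linarith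
  have hmid : α k * ‖r k‖ ^ 2 / τj * |⟪r j, pih r k⟫_ℝ - ⟪r (j + 1), pih r k⟫_ℝ| ≤
      18 * z * Uk r α k := by
    have e1 := mul_le_mul_of_nonneg_left hW (by positivity : 0 ≤ α k * ‖r k‖ ^ 2 / τj)
    refine le_trans e1 (le_of_eq ?_)
    unfold Uk Pk
    rw [← hSd]
    field_simp
  have hzU : z ≤ 2 * z * Uk r α k := by nlinarith
  have hkm : (k : ℝ) ≤ m := by exact_mod_cast hk.le
  have hU0 : 0 ≤ Uk r α k := by linarith
  have h5 : |⟪pih r j, r (k + 1)⟫_ℝ| ≤ (20 * z + 31 * (m * γ)) * Uk r α k := by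
    have e1 : 31 * k * γ * Uk r α k ≤ 31 * (m * γ) * Uk r α k := by
      apply mul_le_mul_of_nonneg_right _ hU0
      nlinarith
    linarith
  have h6 : (20 * z + 31 * (m * γ)) * Uk r α k ≤
      (20 * z + 31 * (m * γ)) * (7 / 5 * ((m : ℝ) ^ 2 * κ)) := by
    apply mul_le_mul_of_nonneg_left hU2
    positivity
  have h7 : 200 * (m * γ) ≤ z := by
    have e1 := hP.zge k
    have e2 := hP.m2
    have e3 := hP.hκ
    have e4 : 0 ≤ m * γ := by positivity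
    have e5 : 2 * (m * γ) ≤ (m : ℝ) * (m * γ) := mul_le_mul_of_nonneg_right e2 e4
    have e6 : (m : ℝ) ^ 2 * γ * 1 ≤ (m : ℝ) ^ 2 * γ * κ :=
      mul_le_mul_of_nonneg_left e3 (by positivity)
    nlinarith
  rw [hP.zsucc hk2]
  have h8 : (20 * z + 31 * (m * γ)) * (7 / 5 * ((m : ℝ) ^ 2 * κ)) ≤ 30 * (m : ℝ) ^ 2 * κ * z := by
    have e1 : 20 * z + 31 * (m * γ) ≤ 30 * (5 / 7) * z := by linarith
    have e2 := mul_le_mul_of_nonneg_right e1 (by positivity : 0 ≤ 7 / 5 * ((m : ℝ) ^ 2 * κ))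
    linarith
  linarith

/-- the bound for `⟪pih 0, r 2⟫` -/
theorem StY.Z_lt_one (hT : GoodOp T) (hc : ∀ v, ‖v‖ ^ 2 ≤ κ * ⟪v, T v⟫_ℝ) (hP : ParZ ε L κ γ m)
    (H : PCG T γ 2 b x r p α β σ) (hk : 1 < m) (hS : StY r α γ L κ m 1) :
    |⟪pih r 0, r 2⟫_ℝ| ≤ zf γ κ m 2 := by
  obtain ⟨ha, has⟩ := hS.step_len hT hc hP H hk
  obtain ⟨hU1, hU2⟩ := hS.U_le hT hc hP H hk
  have H' := H.mono (show 1 ≤ 2 by norm_num)
  have hγ0 := hP.hγ0
  have hκ0 := hP.κ0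
  have ha0 := hS.ab 0 (by norm_num)
  have hNN0 := hS.NN 0 (by norm_num)
  have hN0 := hS.N0
  have hN1 := hS.pos 1 (le_refl 1)
  have h1 := Z_lt hT hγ0 (show 0 < 1 by norm_num) hS.pos ha0 ha hNN0 (H.hr 0 (by norm_num))
    (H.hr 1 (by norm_num))
    (hS.pn hP H' hk 0 (by norm_num)) (hS.pn hP H' hk 1 (le_refl 1)) (hS.fb hP H' hk 0 (by norm_num))
    (hS.fb hP H' hk 1 (le_refl 1))
  have hZ0 := hS.Z0 (le_refl 1)
  have hA0 := hS.A0 (le_refl 1)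
  set y := ⟪pih r 0, r 1⟫_ℝ with hy
  -- the difference of the two inner products
  have hW : ⟪r 0, pih r 1⟫_ℝ - ⟪r (0 + 1), pih r 1⟫_ℝ = y * (1 / ‖r 1‖ ^ 2 - 1) := by
    have e0 : pih r 0 = r 0 := by rw [pih_zero, hN0]; simp
    have e1 : pih r 1 = r 0 + (1 / ‖r 1‖ ^ 2) • r 1 := by
      have := pih_succ r 0
      rw [e0] at this
      exact this
    rw [hy, e0, e1, zero_add, inner_add_right, inner_add_right, inner_smul_right, inner_smul_right,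
      real_inner_self_eq_norm_sq, real_inner_self_eq_norm_sq, hN0, real_inner_comm (r 0) (r 1)]
    field_simp
    ring
  have hmid : α 1 * ‖r 1‖ ^ 2 / (α 0 * ‖r 0‖ ^ 2) *
      |⟪r 0, pih r 1⟫_ℝ - ⟪r (0 + 1), pih r 1⟫_ℝ| ≤ 7 * γ * Uk r α 1 := by
    rw [hW, abs_mul, hN0]
    have e1 : |1 / ‖r 1‖ ^ 2 - 1| ≤ 1 / ‖r 1‖ ^ 2 + 1 := by
      refine le_trans (abs_sub _ _) ?_
      rw [abs_one, abs_of_nonneg (by positivity)]
    have e2 : |y| * |1 / ‖r 1‖ ^ 2 - 1| ≤ (7 * γ * α 0) * (1 / ‖r 1‖ ^ 2 + 1) :=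
      mul_le_mul hZ0 e1 (abs_nonneg _) (by positivity)
    have e3 := mul_le_mul_of_nonneg_left e2
      (by positivity : 0 ≤ α 1 * ‖r 1‖ ^ 2 / (α 0 * 1 ^ 2))
    refine le_trans e3 ?_
    have e4 : α 1 * ‖r 1‖ ^ 2 / (α 0 * 1 ^ 2) * ((7 * γ * α 0) * (1 / ‖r 1‖ ^ 2 + 1)) =
        7 * γ * (α 1 * (1 + ‖r 1‖ ^ 2)) := by
      have : α 0 ≠ 0 := by linarith
      field_simp
    rw [e4]
    apply mul_le_mul_of_nonneg_left _ (by positivity)
    have e5 : Uk r α 1 = α 1 * (‖r 1‖ * (1 + 1 / ‖r 1‖)) ^ 2 := by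
      unfold Uk Pk Sk
      rw [sum_range_succ, sum_range_one, hN0]
      ring
    rw [e5]
    apply mul_le_mul_of_nonneg_left _ (by linarith)
    have e6 : ‖r 1‖ * (1 + 1 / ‖r 1‖) = ‖r 1‖ + 1 := by field_simp
    rw [e6]
    nlinarith
  have hfirst : |y| ≤ 10 * ((m : ℝ) ^ 2 * γ * κ) := by
    have e1 : 7 * γ * α 0 ≤ 7 * γ * (7 / 5 * ((m : ℝ) ^ 2 * κ)) :=
      mul_le_mul_of_nonneg_left hA0 (by positivity)
    have e2 : 0 ≤ (m : ℝ) ^ 2 * γ * κ := by positivity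
    linarith
  have hlast : γ * Uk r α 1 ≤ 7 / 5 * ((m : ℝ) ^ 2 * γ * κ) := by
    have := mul_le_mul_of_nonneg_left hU2 hγ0
    linarith
  have h9 := hP.zge 2
  have h10 : |⟪pih r 0, r (1 + 1)⟫_ℝ| ≤ |y| + 7 * γ * Uk r α 1 + 31 * γ * Uk r α 1 := by
    push_cast at h1
    linarith
  have e2 : 0 ≤ (m : ℝ) ^ 2 * γ * κ := by positivity
  have e3 : (r (1 + 1)) = r 2 := rfl
  rw [e3] at h10
  linarith

/-- the bound for `⟪pih k, r (k+1)⟫` -/
theorem StY.Z_eq' (hT : GoodOp T) (hc : ∀ v, ‖v‖ ^ 2 ≤ κ * ⟪v, T v⟫_ℝ) (hP : ParZ ε L κ γ m)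
    {k : ℕ} (H : PCG T γ (k + 1) b x r p α β σ) (hk : k < m) (hS : StY r α γ L κ m k) :
    |⟪pih r k, r (k + 1)⟫_ℝ| ≤ zf γ κ m (k + 1) ∧
    (k = 0 → |⟪pih r 0, r 1⟫_ℝ| ≤ 7 * γ * α 0 ∧ α 0 ≤ 7 / 5 * ((m : ℝ) ^ 2 * κ)) := by
  obtain ⟨ha, has⟩ := hS.step_len hT hc hP H hk
  obtain ⟨hU1, hU2⟩ := hS.U_le hT hc hP H hk
  have H' := H.mono (Nat.le_succ k)
  have hγ0 := hP.hγ0
  have hκ0 := hP.κ0
  have h1 := Z_eq hT hγ0 hS.pos ha (H.hr k (Nat.lt_succ_self k)) (H.hσ k (Nat.lt_succ_self k))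
    (H.hα k (Nat.lt_succ_self k)) (hS.pn hP H' hk k (le_refl k)) (hS.fb hP H' hk k (le_refl k))
  have hz1 := hP.zge (k + 1)
  have hm := hP.m2
  have hκ := hP.hκ
  have hX : 0 ≤ (m : ℝ) ^ 2 * γ * κ := by positivity
  have hγU : γ * Uk r α k ≤ 7 / 5 * ((m : ℝ) ^ 2 * γ * κ) := by
    have := mul_le_mul_of_nonneg_left hU2 hγ0
    linarith
  have hγU0 : 0 ≤ γ * Uk r α k := mul_nonneg hγ0 (by linarith)
  rcases Nat.eq_zero_or_pos k with h0 | h0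
  · subst h0
    have hN0 := hS.N0
    have e1 : ⟪r 0, pih r 0⟫_ℝ - 1 = 0 := by
      rw [pih_zero, hN0, inner_smul_right, real_inner_self_eq_norm_sq, hN0]; norm_num
    rw [e1, abs_zero, zero_add] at h1
    push_cast at h1
    rw [Uk_zero hN0] at h1 hγU hU2
    refine ⟨?_, fun _ => ⟨?_, hU2⟩⟩
    · rw [zero_add] at h1 hz1 ⊢
      linarith
    · rw [zero_add] at h1
      linarith
  · refine ⟨?_, fun h => by omega⟩
    rcases Nat.eq_or_lt_of_le (show 1 ≤ k by omega) with h2 | h2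
    · -- k = 1
      subst h2
      have e1 : |⟪r 1, pih r 1⟫_ℝ - 1| ≤ 7 * γ * α 0 := by
        have hN1 := hS.pos 1 (le_refl 1)
        have e2 : ⟪r 1, pih r 1⟫_ℝ - 1 = ⟪pih r 0, r 1⟫_ℝ := by
          rw [show pih r 1 = pih r 0 + (1 / ‖r 1‖ ^ 2) • r 1 from pih_succ r 0, inner_add_right,
            inner_smul_right, real_inner_self_eq_norm_sq, real_inner_comm]
          have : 1 / ‖r 1‖ ^ 2 * ‖r 1‖ ^ 2 = 1 := by field_simp
          rw [this]; ring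
        rw [e2]
        exact hS.Z0 (le_refl 1)
      have hA0 := hS.A0 (le_refl 1)
      have e3 : 7 * γ * α 0 ≤ 7 * γ * (7 / 5 * ((m : ℝ) ^ 2 * κ)) :=
        mul_le_mul_of_nonneg_left hA0 (by positivity)
      push_cast at h1
      linarith
    · -- k ≥ 2
      have e1 := rpi_self hS.pos hP.z0 hS.Z (le_refl k)
      have hzk := hP.zge k
      have hzk0 := hP.z0 k
      rw [hP.zsucc h2]
      set z := zf γ κ m k with hz
      have hkm : (k : ℝ) ≤ m := by exact_mod_cast hk.le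
      -- `z ≤ m² κ z`
      have e2 : z ≤ (m : ℝ) ^ 2 * κ * z := by
        have : (1 : ℝ) ≤ (m : ℝ) ^ 2 * κ := by nlinarith
        nlinarith
      have e3 : (7 + 4 * k) * γ * Uk r α k ≤ (7 + 4 * m) * (7 / 5 * ((m : ℝ) ^ 2 * γ * κ)) := by
        have e4 : (7 + 4 * (k : ℝ)) * (γ * Uk r α k) ≤ (7 + 4 * m) * (γ * Uk r α k) :=
          mul_le_mul_of_nonneg_right (by linarith) hγU0
        have e5 : (7 + 4 * (m : ℝ)) * (γ * Uk r α k) ≤
            (7 + 4 * m) * (7 / 5 * ((m : ℝ) ^ 2 * γ * κ)) :=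
          mul_le_mul_of_nonneg_left hγU (by positivity)
        linarith
      have e6 : (7 + 4 * (m : ℝ)) * (7 / 5 * ((m : ℝ) ^ 2 * γ * κ)) ≤
          8 * (m * ((m : ℝ) ^ 2 * γ * κ)) * (7 / 5) := by
        have : (7 + 4 * (m : ℝ)) ≤ 8 * m := by linarith
        have := mul_le_mul_of_nonneg_right this (by positivity : 0 ≤ 7 / 5 * ((m : ℝ) ^ 2 * γ * κ))
        linarith
      have e7 : m * ((m : ℝ) ^ 2 * γ * κ) ≤ (m : ℝ) ^ 2 * κ * z := by
        have f1 : (m : ℝ) * γ ≤ z := by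
          have g1 : (m : ℝ) * γ ≤ (m : ℝ) ^ 2 * γ * κ := by
            have g2 : (m : ℝ) * γ * 1 ≤ (m : ℝ) * γ * (m * κ) := by
              apply mul_le_mul_of_nonneg_left _ (by positivity)
              nlinarith
            linarith
          linarith
        have f2 := mul_le_mul_of_nonneg_left f1 (by positivity : 0 ≤ (m : ℝ) ^ 2 * κ)
        linarith
      linarith

theorem StY.succ (hT : GoodOp T) (hc : ∀ v, ‖v‖ ^ 2 ≤ κ * ⟪v, T v⟫_ℝ) (hP : ParZ ε L κ γ m)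
    {k : ℕ} (H : PCG T γ (k + 1) b x r p α β σ) (hb : ‖b‖ = 1) (hk : k < m)
    (hS : StY r α γ L κ m k) (hF' : Fail T ε b x (k + 1)) : StY r α γ L κ m (k + 1) := by
  obtain ⟨ha, has⟩ := hS.step_len hT hc hP H hk
  have hNN := hS.next_NN hT hc hP H hb hk hF'
  have hpos' := hS.next_pos hT hc hP H hb hk hF'
  have hTb := hS.next_T hT hc hP H hb hk hF'
  obtain ⟨hZe, hZ0⟩ := hS.Z_eq' hT hc hP H hk
  refine ⟨⟨?_, hS.N0, ?_, ?_, ?_, ?_, ?_⟩, ?_⟩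
  · intro j hj
    rcases Nat.le_succ_iff.mp hj with h | h
    · exact hS.pos j h
    · rw [h]; exact hpos'
  · intro j hj
    rcases Nat.le_succ_iff.mp hj with h | h
    · exact hS.Tb j h
    · rw [h]; exact hTb
  · intro j hj
    rcases Nat.lt_succ_iff_lt_or_eq.mp hj with h | h
    · exact hS.ab j h
    · rw [h]; exact ha
  · intro j hj
    rcases Nat.lt_succ_iff_lt_or_eq.mp hj with h | h
    · exact hS.NN j h
    · rw [h]; exact hNN
  · intro i j hij hj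
    rcases Nat.le_succ_iff.mp hj with h | h
    · exact hS.Z i j hij h
    · subst h
      rcases Nat.lt_succ_iff_lt_or_eq.mp hij with h | h
      · rcases Nat.lt_or_ge k 2 with h2 | h2
        · have hk1 : k = 1 := by omega
          subst hk1
          have hi0 : i = 0 := by omega
          subst hi0
          exact hS.Z_lt_one hT hc hP H hk
        · exact hS.Z_lt_two hT hc hP H hk h2 h
      · subst h
        exact hZe
  · intro _
    rcases Nat.eq_zero_or_pos k with h0 | h0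
    · exact (hZ0 h0).1
    · exact hS.Z0 h0
  · intro _
    rcases Nat.eq_zero_or_pos k with h0 | h0
    · exact (hZ0 h0).2
    · exact hS.A0 h0

theorem StY_zero (hP : ParZ ε L κ γ m) (hb : ‖b‖ = 1) (hr : r 0 = b) : StY r α γ L κ m 0 :=
  ⟨StZ_zero hP hb hr, fun h => by omega⟩

/-- all states are reached as long as no iterate is good -/
theorem StY_all (hT : GoodOp T) (hc : ∀ v, ‖v‖ ^ 2 ≤ κ * ⟪v, T v⟫_ℝ) (hP : ParZ ε L κ γ m)
    {k : ℕ} (H : PCG T γ k b x r p α β σ) (hb : ‖b‖ = 1) (hk : k ≤ m)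
    (hF : ∀ j ≤ k, Fail T ε b x j) : StY r α γ L κ m k := by
  induction k with
  | zero => exact StY_zero hP hb H.r0
  | succ k ih =>
    have ih' := ih (H.mono (Nat.le_succ k)) (by omega) (fun j hj => hF j (by omega))
    exact ih'.succ hT hc hP H hb (by omega) (hF (k + 1) (le_refl _))

/-- no breakdown as long as no iterate is good -/
theorem no_breakdownZ (hT : GoodOp T) (hc : ∀ v, ‖v‖ ^ 2 ≤ κ * ⟪v, T v⟫_ℝ)
    (hP : ParZ ε L κ γ m) {k : ℕ} (H : PCG T γ k b x r p α β σ)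
    (hb : ‖b‖ = 1) (hk : k < m) (hF : ∀ j ≤ k, Fail T ε b x j) : p k ≠ 0 :=
  (StY_all hT hc hP H hb hk.le hF).p_ne hP H hk

/-- The main abstract theorem for finite condition number: some iterate is good. -/
theorem exists_goodZ [FiniteDimensional ℝ E] (hT : GoodOp T)
    (hc : ∀ v, ‖v‖ ^ 2 ≤ κ * ⟪v, T v⟫_ℝ) (hP : ParZ ε L κ γ m)
    (H : PCG T γ m b x r p α β σ) (hb : ‖b‖ = 1) (hm : Module.finrank ℝ E ≤ m) :
    ∃ k ≤ m, ‖b - T (x k)‖ ≤ ε * (‖x k‖ + 1) := by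
  by_contra hcon
  push Not at hcon
  have hS := StY_all hT hc hP H hb (le_refl m) hcon
  have h1 := hP.mLz (le_refl m)
  have h2 := hP.z0 m
  have h3 := hP.Lpos
  have := card_le_finrank (w := 14 * (L * zf γ κ m m)) hS.pos (by positivity) (by
    linarith) (hS.orth hP)
  omega

end Pool.Agent.Lib.MP_02bbae_an
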