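import Mathlib
import Pool.Agent.Lib.MP_02bbae_an.Convert
import Pool.Agent.Lib.MP_02bbae_an.MainZ

/-!
# From the abstract recurrences to runs of conjugate gradients
-/

set_option autoImplicit false

open scoped InnerProductSpace RealInnerProductSpace ENNReal

namespace Pool.Agent.Lib.MP_02bbae_an

/-- a run that stopped with a zero residual can be prolonged -/
theorem PCG.extend {E : Type*} [NormedAddCommGroup E] [InnerProductSpace ℝ E] {T : E →ₗ[ℝ] E}
    {γ : ℝ} {K : ℕ} {b : E} {x r p : ℕ → E} {α β σ : ℕ → ℝ}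
    (H : PCG T γ K b x r p α β σ) (hr : r K = 0) (hγ : 0 ≤ γ) (m : ℕ) :
    ∃ (x' r' p' : ℕ → E) (α' β' σ' : ℕ → ℝ), PCG T γ m b x' r' p' α' β' σ' ∧
      ∀ k, ∃ j ≤ K, x' k = x j := by
  refine ⟨fun k => if k ≤ K then x k else x K, fun k => if k ≤ K then r k else 0,
    fun k => if k ≤ K then p k else 0, fun k => if k < K then α k else 0,
    fun k => if k < K then β k else 0,
    fun k => if k < K then σ k else ⟪(if k ≤ K then p k else 0), T (if k ≤ K then p k else 0)⟫_ℝ,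
    ⟨?_, ?_, ?_, ?_, ?_, ?_, ?_, ?_, ?_⟩, ?_⟩
  · simp [H.x0]
  · simp [H.r0]
  · simp [H.p0]
  · intro k _
    rcases Nat.lt_or_ge k K with h | h
    · have h1 : k ≤ K := h.le
      have h2 : k + 1 ≤ K := h
      simp only [if_pos h1, if_pos h2, if_pos h]
      exact H.hx k h
    · have h2 : ¬ (k + 1 ≤ K) := by omega
      have h3 : ¬ (k < K) := by omega
      have h4 : (if k ≤ K then x k else x K) = x K := by
        split_ifs with h5
        · have : k = K := by omega
          rw [this]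
        · rfl
      simp only [if_neg h2, if_neg h3, h4, zero_smul, add_zero, sub_self, norm_zero]
      positivity
  · intro k _
    rcases Nat.lt_or_ge k K with h | h
    · have h1 : k ≤ K := h.le
      have h2 : k + 1 ≤ K := h
      simp only [if_pos h1, if_pos h2, if_pos h]
      exact H.hr k h
    · have h2 : ¬ (k + 1 ≤ K) := by omega
      have h3 : ¬ (k < K) := by omega
      have h4 : (if k ≤ K then r k else 0) = 0 := by
        split_ifs with h5
        · have : k = K := by omega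
          rw [this, hr]
        · rfl
      simp only [if_neg h2, if_neg h3, h4, zero_smul, sub_self, norm_zero]
      positivity
  · intro k _
    rcases Nat.lt_or_ge k K with h | h
    · have h1 : k ≤ K := h.le
      have h2 : k + 1 ≤ K := h
      simp only [if_pos h1, if_pos h2, if_pos h]
      exact H.hp k h
    · have h2 : ¬ (k + 1 ≤ K) := by omega
      have h3 : ¬ (k < K) := by omega
      simp only [if_neg h2, if_neg h3, zero_smul, add_zero, sub_self, norm_zero]
      positivity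
  · intro k _
    rcases Nat.lt_or_ge k K with h | h
    · have h1 : k ≤ K := h.le
      simp only [if_pos h1, if_pos h]
      exact H.hσ k h
    · have h3 : ¬ (k < K) := by omega
      simp only [if_neg h3, sub_self, abs_zero]
      positivity
  · intro k _
    rcases Nat.lt_or_ge k K with h | h
    · have h1 : k ≤ K := h.le
      simp only [if_pos h1, if_pos h]
      exact H.hα k h
    · have h3 : ¬ (k < K) := by omega
      have h4 : (if k ≤ K then r k else 0) = 0 := by
        split_ifs with h5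
        · have : k = K := by omega
          rw [this, hr]
        · rfl
      simp only [if_neg h3, h4, zero_mul, norm_zero]
      simp
  · intro k _
    rcases Nat.lt_or_ge k K with h | h
    · have h1 : k ≤ K := h.le
      have h2 : k + 1 ≤ K := h
      simp only [if_pos h1, if_pos h2, if_pos h]
      exact H.hβ k h
    · have h2 : ¬ (k + 1 ≤ K) := by omega
      have h3 : ¬ (k < K) := by omega
      simp only [if_neg h2, if_neg h3, zero_mul, norm_zero]
      simp
  · intro k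
    by_cases h : k ≤ K
    · exact ⟨k, h, by simp [h]⟩
    · exact ⟨K, le_refl K, by simp [h]⟩

variable {n : ℕ} {u ε : ℝ}

theorem norm_toLp_inv {b : Fin n → ℝ} (hb : b ≠ 0) :
    ‖(WithLp.toLp 2 ((nrm b)⁻¹ • b) : EuclideanSpace ℝ (Fin n))‖ = 1 := by
  have h := nrm_pos hb
  rw [norm_toLp_smul (inv_nonneg.mpr h.le)]
  field_simp

/-- the backward error in terms of the normalised quantities -/
theorem eta_le {A : Matrix (Fin n) (Fin n) ℝ} (hA : A.PosDef) {b x : Fin n → ℝ} (hb : b ≠ 0)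
    (h : ‖(WithLp.toLp 2 ((nrm b)⁻¹ • b) : EuclideanSpace ℝ (Fin n)) -
      opT A (WithLp.toLp 2 ((specNorm A * (nrm b)⁻¹) • x))‖ ≤
      ε * (‖(WithLp.toLp 2 ((specNorm A * (nrm b)⁻¹) • x) : EuclideanSpace ℝ (Fin n))‖ + 1)) :
    eta A b x ≤ ε := by
  have hN := specNorm_pos hA hb
  have hB := nrm_pos hb
  have hBi : 0 < (nrm b)⁻¹ := inv_pos.mpr hB
  have e1 : (WithLp.toLp 2 ((nrm b)⁻¹ • b) : EuclideanSpace ℝ (Fin n)) -
      opT A (WithLp.toLp 2 ((specNorm A * (nrm b)⁻¹) • x)) =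
      WithLp.toLp 2 ((nrm b)⁻¹ • (b - A.mulVec x)) := by
    rw [opT_toLp]
    ext i
    simp [Matrix.mulVec_smul]
    field_simp
  rw [e1, norm_toLp_smul hBi.le, norm_toLp_smul (by positivity)] at h
  unfold eta
  have hx := nrm_nonneg x
  rw [div_le_iff₀ (by positivity)]
  have h2 : nrm b * ((nrm b)⁻¹ * nrm (b - A.mulVec x)) ≤
      nrm b * (ε * (specNorm A * (nrm b)⁻¹ * nrm x + 1)) := mul_le_mul_of_nonneg_left h hB.le
  have h3 : nrm b * ((nrm b)⁻¹ * nrm (b - A.mulVec x)) = nrm (b - A.mulVec x) := by field_simp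
  have h4 : nrm b * (ε * (specNorm A * (nrm b)⁻¹ * nrm x + 1)) =
      ε * (specNorm A * nrm x + nrm b) := by field_simp
  rw [h3, h4] at h2
  exact h2

/-- converse: an iterate with large backward error fails -/
theorem fail_of_eta {A : Matrix (Fin n) (Fin n) ℝ} (hA : A.PosDef) {b x : Fin n → ℝ} (hb : b ≠ 0)
    (h : ε < eta A b x) :
    ε * (‖(WithLp.toLp 2 ((specNorm A * (nrm b)⁻¹) • x) : EuclideanSpace ℝ (Fin n))‖ + 1) <
    ‖(WithLp.toLp 2 ((nrm b)⁻¹ • b) : EuclideanSpace ℝ (Fin n)) -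
      opT A (WithLp.toLp 2 ((specNorm A * (nrm b)⁻¹) • x))‖ := by
  by_contra hcon
  push Not at hcon
  exact absurd (eta_le hA hb hcon) (not_le.mpr h)

/-- transfer of abstract results to runs: if every sequence satisfying the perturbed recurrences
contains a good iterate, then every finished run does. -/
theorem good_run {A : Matrix (Fin n) (Fin n) ℝ} {b : Fin n → ℝ} {K : ℕ} {R : Run n}
    (hA : A.PosDef) (hb : b ≠ 0) (h : Small n u)
    (habs : ∀ (x r p : ℕ → EuclideanSpace ℝ (Fin n)) (α β σ : ℕ → ℝ),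
      PCG (opT A) (8 * (n : ℝ) ^ 2 * u) n (WithLp.toLp 2 ((nrm b)⁻¹ • b)) x r p α β σ →
      ∃ k ≤ n, ‖WithLp.toLp 2 ((nrm b)⁻¹ • b) - opT A (x k)‖ ≤ ε * (‖x k‖ + 1))
    (hR : R.Valid u A b K) (hK : K = n ∨ K ≤ n ∧ R.r K = 0) :
    ∃ k ≤ K, eta A b (R.x k) ≤ ε := by
  have H := hR.pcg hA hb h
  rcases hK with hK | ⟨hKn, hr⟩
  · subst hK
    obtain ⟨k, hk, hg⟩ := habs _ _ _ _ _ _ H
    exact ⟨k, hk, eta_le hA hb hg⟩
  · obtain ⟨x', r', p', α', β', σ', H', hx⟩ := H.extend (by simp [hr])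
      (by have := h.u0; positivity) n
    obtain ⟨k, hk, hg⟩ := habs _ _ _ _ _ _ H'
    obtain ⟨j, hj, hxj⟩ := hx k
    refine ⟨j, hj, eta_le hA hb ?_⟩
    rw [hxj] at hg
    exact hg

/-- no zero denominator if the direction is not zero -/
theorem not_breaksDown {A : Matrix (Fin n) (Fin n) ℝ} {K : ℕ} {R : Run n} {κ : ℝ}
    (hA : A.PosDef) (h : Small n u)
    (hκ : ∀ i j, hA.1.eigenvalues i ≤ κ * hA.1.eigenvalues j)
    (hsm : 8 * (n : ℝ) ^ 2 * u * κ < 1) (hp : R.p K ≠ 0) : ¬ R.BreaksDown u A K := by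
  rintro ⟨hq, hs, h0⟩
  have h1 := h.sigma hA.1 hq hs
  rw [h0, zero_sub, abs_neg] at h1
  have h2 := coercive hA hκ (R.p K)
  rw [← nrm_sq_sum] at h2
  have h3 := posDef_quad hA hp
  rw [abs_of_pos h3] at h1
  have hu := h.u0
  have h4 := mul_le_mul_of_nonneg_left h2 (by positivity : 0 ≤ 8 * (n : ℝ) ^ 2 * u)
  have h5 := mul_lt_mul_of_pos_right hsm h3
  linarith

/-- dimension one -/
theorem exists_good_one {E : Type*} [NormedAddCommGroup E] [InnerProductSpace ℝ E]
    {T : E →ₗ[ℝ] E} (hT : GoodOp T) (hc : ∀ v, ‖v‖ ^ 2 ≤ 1 * ⟪v, T v⟫_ℝ) {γ : ℝ}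
    {b : E} {x r p : ℕ → E} {α β σ : ℕ → ℝ} (H : PCG T γ 1 b x r p α β σ) (hb : ‖b‖ = 1)
    (hγ0 : 0 ≤ γ) (hε1 : ε ≤ 1) (hγ : 7 * γ ≤ ε) :
    ∃ k ≤ 1, ‖b - T (x k)‖ ≤ ε * (‖x k‖ + 1) := by
  have hid : ∀ v, T v = v := by
    intro v
    have h1 : ‖v - T v‖ ^ 2 ≤ 0 := by
      rw [norm_sub_sq_real]
      have h2 := hc v
      have h3 := pow_le_pow_left₀ (norm_nonneg _) (hT.bd v) 2
      linarith
    have h2 : ‖v - T v‖ = 0 := by
      have := norm_nonneg (v - T v)
      nlinarith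
    rw [norm_eq_zero, sub_eq_zero] at h2
    exact h2.symm
  refine ⟨1, le_refl 1, ?_⟩
  have hσ := H.hσ 0 (by norm_num)
  have hα := H.hα 0 (by norm_num)
  have hx := H.hx 0 (by norm_num)
  rw [hid, H.p0, real_inner_self_eq_norm_sq, hb] at hσ
  rw [H.r0, hb] at hα
  rw [H.x0, H.p0, hb, norm_zero] at hx
  rw [hid]
  obtain ⟨s1, s2⟩ := abs_le.mp hσ
  obtain ⟨a1, a2⟩ := abs_le.mp hα
  have hα0 : 0 ≤ α 0 := by
    by_contra hcon
    push Not at hcon
    have : α 0 * σ 0 ≤ 0 := mul_nonpos_of_nonpos_of_nonneg hcon.le (by linarith)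
    linarith
  have hα3 : α 0 ≤ 2 := by
    by_contra hcon
    push Not at hcon
    have : 2 * σ 0 ≤ α 0 * σ 0 := mul_le_mul_of_nonneg_right hcon.le (by linarith)
    linarith
  rw [abs_of_nonneg hα0] at hx
  have h1 : |1 - α 0| ≤ 3 * γ := by
    have e1 : 1 - α 0 = -(α 0 * σ 0 - 1) + α 0 * (σ 0 - 1) := by ring
    rw [e1]
    refine le_trans (abs_add_le _ _) ?_
    rw [abs_neg, abs_mul, abs_of_nonneg hα0]
    have e2 : α 0 * |σ 0 - 1| ≤ 2 * γ := by
      refine mul_le_mul hα3 ?_ (abs_nonneg _) (by norm_num)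
      simpa using hσ
    have e3 : |α 0 * σ 0 - 1| ≤ γ := by simpa using hα
    linarith
  have h2 : b - x 1 = (1 - α 0) • b - (x (0 + 1) - (0 + α 0 • b)) := by
    rw [sub_smul, one_smul, zero_add]; abel
  rw [h2]
  refine le_trans (norm_sub_le _ _) ?_
  rw [norm_smul, hb, Real.norm_eq_abs, mul_one]
  have h3 : γ * (0 + α 0 * 1) ≤ 2 * γ := by nlinarith
  have h4 : 0 ≤ ‖x 1‖ := norm_nonneg _
  have hε0 : 0 ≤ ε := by linarith
  nlinarith

end Pool.Agent.Lib.MP_02bbae_an
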