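import Mathlib
import Pool.Agent.Lib.MP_02bbae_an.Transfer

/-!
# The upper bounds for the precision
-/

set_option autoImplicit false

open scoped InnerProductSpace RealInnerProductSpace ENNReal

namespace Pool.Agent.Lib.MP_02bbae_an

/-! ## Elementary estimates -/

/-- the smallness of the unit roundoff -/
theorem half_pow_mul {t : ℕ} {X : ℝ} (h : X ≤ 2 ^ t) : X * (1 / 2) ^ t ≤ 1 := by
  have h1 : (0 : ℝ) < (1 / 2) ^ t := by positivity
  have h2 := mul_le_mul_of_nonneg_right h h1.le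
  have h3 : (2 : ℝ) ^ t * (1 / 2) ^ t = 1 := by rw [← mul_pow]; norm_num
  linarith

theorem pow_of_logb {X : ℝ} (hX : 0 < X) {t : ℕ} (h : Real.logb 2 X ≤ t) : X ≤ 2 ^ t := by
  have h1 : X = (2 : ℝ) ^ (Real.logb 2 X) := (Real.rpow_logb (by norm_num) (by norm_num) hX).symm
  rw [h1]
  calc (2 : ℝ) ^ (Real.logb 2 X) ≤ (2 : ℝ) ^ (t : ℝ) :=
        Real.rpow_le_rpow_of_exponent_le (by norm_num) h
    _ = 2 ^ t := Real.rpow_natCast 2 t

/-- the main estimate for `2 ^ t` -/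
theorem two_pow_ge {n t : ℕ} (hn : 1 ≤ n) {ε μ : ℝ} (hε : 0 < ε) (hμ : 1 ≤ μ)
    (h : Real.logb 2 (1 / ε) + ((n : ℝ) - 1) * Real.logb 2 μ + 25 * (n * Real.logb 2 (n + 1)) ≤ t) :
    1 / ε * μ ^ (n - 1) * ((n : ℝ) + 1) ^ (25 * n) ≤ 2 ^ t := by
  apply pow_of_logb (by positivity)
  have h1 : (1 / ε) ≠ 0 := by positivity
  have h2 : μ ^ (n - 1) ≠ 0 := by positivity
  have h3 : ((n : ℝ) + 1) ^ (25 * n) ≠ 0 := by positivity
  rw [Real.logb_mul (mul_ne_zero h1 h2) h3, Real.logb_mul h1 h2, Real.logb_pow, Real.logb_pow]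
  have h4 : ((n - 1 : ℕ) : ℝ) = (n : ℝ) - 1 := by rw [Nat.cast_sub hn, Nat.cast_one]
  rw [h4]
  push_cast
  linarith

theorem two_pow_ge' {n t : ℕ} {κ : ℝ} (hκ : 1 ≤ κ)
    (h : Real.logb 2 κ + 25 * (n * Real.logb 2 (n + 1)) ≤ t) :
    κ * ((n : ℝ) + 1) ^ (25 * n) ≤ 2 ^ t := by
  apply pow_of_logb (by positivity)
  have h2 : κ ≠ 0 := by positivity
  have h3 : ((n : ℝ) + 1) ^ (25 * n) ≠ 0 := by positivity
  rw [Real.logb_mul h2 h3, Real.logb_pow]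
  push_cast
  linarith

/-- `16 n² ≤ (n+1)^(25 n)` -/
theorem num_small {n : ℕ} (hn : 1 ≤ n) : 16 * (n : ℝ) ^ 2 ≤ ((n : ℝ) + 1) ^ (25 * n) := by
  have hn1 : (1 : ℝ) ≤ n := by exact_mod_cast hn
  set N : ℝ := (n : ℝ) + 1 with hN
  have hN2 : 2 ≤ N := by linarith
  have h1 : (16 : ℝ) ≤ N ^ 4 := by
    calc (16 : ℝ) = 2 ^ 4 := by norm_num
      _ ≤ N ^ 4 := pow_le_pow_left₀ (by norm_num) hN2 4
  have h2 : (n : ℝ) ^ 2 ≤ N ^ 2 := pow_le_pow_left₀ (by linarith) (by linarith) 2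
  calc 16 * (n : ℝ) ^ 2 ≤ N ^ 4 * N ^ 2 := mul_le_mul h1 h2 (by positivity) (by positivity)
    _ = N ^ 6 := by ring
    _ ≤ N ^ (25 * n) := pow_le_pow_right₀ (by linarith) (by omega)

theorem num_inf {n : ℕ} (hn : 2 ≤ n) :
    16 * ((n : ℝ) + 1) * (n : ℝ) ^ 2 * (200 * n) ^ n ≤ ((n : ℝ) + 1) ^ (25 * n) := by
  have hn1 : (2 : ℝ) ≤ n := by exact_mod_cast hn
  set N : ℝ := (n : ℝ) + 1 with hN
  have hN3 : 3 ≤ N := by linarith
  have h1 : (16 : ℝ) ≤ N ^ 3 := by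
    calc (16 : ℝ) ≤ 3 ^ 3 := by norm_num
      _ ≤ N ^ 3 := pow_le_pow_left₀ (by norm_num) hN3 3
  have h2 : (n : ℝ) ^ 2 ≤ N ^ 2 := pow_le_pow_left₀ (by linarith) (by linarith) 2
  have h3 : (200 : ℝ) ≤ N ^ 5 := by
    calc (200 : ℝ) ≤ 3 ^ 5 := by norm_num
      _ ≤ N ^ 5 := pow_le_pow_left₀ (by norm_num) hN3 5
  have h4 : 200 * (n : ℝ) ≤ N ^ 6 := by
    have : 200 * (n : ℝ) ≤ N ^ 5 * N := mul_le_mul h3 (by linarith) (by linarith) (by positivity)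
    calc 200 * (n : ℝ) ≤ N ^ 5 * N := this
      _ = N ^ 6 := by ring
  have h5 : (200 * (n : ℝ)) ^ n ≤ (N ^ 6) ^ n := pow_le_pow_left₀ (by positivity) h4 n
  calc 16 * N * (n : ℝ) ^ 2 * (200 * n) ^ n ≤ N ^ 3 * N * N ^ 2 * (N ^ 6) ^ n := by
        apply mul_le_mul _ h5 (by positivity) (by positivity)
        apply mul_le_mul _ h2 (by positivity) (by positivity)
        exact mul_le_mul_of_nonneg_right h1 (by positivity)
    _ = N ^ (6 + 6 * n) := by rw [← pow_mul]; ring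
    _ ≤ N ^ (25 * n) := pow_le_pow_right₀ (by linarith) (by omega)

theorem num_fin {n : ℕ} (hn : 2 ≤ n) :
    480000 * (n : ℝ) ^ 6 * (30 * (n : ℝ) ^ 2) ^ (n - 2) ≤ ((n : ℝ) + 1) ^ (25 * n) := by
  have hn1 : (2 : ℝ) ≤ n := by exact_mod_cast hn
  set N : ℝ := (n : ℝ) + 1 with hN
  have hN3 : 3 ≤ N := by linarith
  have h1 : (480000 : ℝ) ≤ N ^ 12 := by
    calc (480000 : ℝ) ≤ 3 ^ 12 := by norm_num
      _ ≤ N ^ 12 := pow_le_pow_left₀ (by norm_num) hN3 12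
  have h2 : (n : ℝ) ^ 6 ≤ N ^ 6 := pow_le_pow_left₀ (by linarith) (by linarith) 6
  have h3 : (30 : ℝ) ≤ N ^ 4 := by
    calc (30 : ℝ) ≤ 3 ^ 4 := by norm_num
      _ ≤ N ^ 4 := pow_le_pow_left₀ (by norm_num) hN3 4
  have h3' : (n : ℝ) ^ 2 ≤ N ^ 2 := pow_le_pow_left₀ (by linarith) (by linarith) 2
  have h4 : 30 * (n : ℝ) ^ 2 ≤ N ^ 6 := by
    calc 30 * (n : ℝ) ^ 2 ≤ N ^ 4 * N ^ 2 := mul_le_mul h3 h3' (by positivity) (by positivity)
      _ = N ^ 6 := by ring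
  have h5 : (30 * (n : ℝ) ^ 2) ^ (n - 2) ≤ (N ^ 6) ^ (n - 2) :=
    pow_le_pow_left₀ (by positivity) h4 _
  calc 480000 * (n : ℝ) ^ 6 * (30 * (n : ℝ) ^ 2) ^ (n - 2) ≤ N ^ 12 * N ^ 6 * (N ^ 6) ^ (n - 2) := by
        apply mul_le_mul _ h5 (by positivity) (by positivity)
        exact mul_le_mul h1 h2 (by positivity) (by positivity)
    _ = N ^ (18 + 6 * (n - 2)) := by rw [← pow_mul]; ring
    _ ≤ N ^ (25 * n) := pow_le_pow_right₀ (by linarith) (by omega)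

/-! ## The parameters -/

/-- a bound `X ≤ 2 ^ t` for the quantities needed -/
structure Big (n t : ℕ) (ε μ : ℝ) : Prop where
  hn : 1 ≤ n
  hε : 0 < ε
  hε1 : ε < 1
  hμ : 1 ≤ μ
  big : 1 / ε * μ ^ (n - 1) * ((n : ℝ) + 1) ^ (25 * n) ≤ 2 ^ t

namespace Big

variable {n t : ℕ} {ε μ : ℝ} (h : Big n t ε μ)
include h

theorem ε1 : 1 ≤ 1 / ε := by
  rw [le_div_iff₀ h.hε]; linarith [h.hε1]

theorem big0 : ((n : ℝ) + 1) ^ (25 * n) ≤ 2 ^ t := by
  refine le_trans ?_ h.big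
  have h1 := h.ε1
  have h2 : (1 : ℝ) ≤ μ ^ (n - 1) := one_le_pow₀ h.hμ
  have h3 : 1 * 1 ≤ 1 / ε * μ ^ (n - 1) := mul_le_mul h1 h2 (by norm_num) (by linarith)
  have h4 : (0 : ℝ) ≤ ((n : ℝ) + 1) ^ (25 * n) := by positivity
  nlinarith

theorem small : Small n ((1 / 2) ^ t) :=
  ⟨by positivity, h.hn, half_pow_mul (le_trans (num_small h.hn) h.big0)⟩

theorem par2 (hn : 2 ≤ n) (hμ : μ = 1 / ε) :
    Par2 ε (2 * n / ε) (200 * n / ε) (8 * (n : ℝ) ^ 2 * (1 / 2) ^ t) n := by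
  have hε := h.hε
  refine ⟨hε, h.hε1.le, hn, by field_simp, by ring, by positivity, ?_⟩
  have h1 := num_inf hn
  have h2 : 16 * ((n : ℝ) + 1) * (n : ℝ) ^ 2 * (200 * n / ε) ^ n ≤ 2 ^ t := by
    refine le_trans ?_ h.big
    rw [hμ]
    have e1 : (1 / ε) * (1 / ε) ^ (n - 1) = (1 / ε) ^ n := by
      rw [← pow_succ']; congr 1; omega
    rw [e1]
    have e2 : 16 * ((n : ℝ) + 1) * (n : ℝ) ^ 2 * (200 * n / ε) ^ n =
        (1 / ε) ^ n * (16 * ((n : ℝ) + 1) * (n : ℝ) ^ 2 * (200 * n) ^ n) := by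
      rw [div_eq_mul_one_div (200 * (n : ℝ)) ε, mul_pow]; ring
    rw [e2]
    exact mul_le_mul_of_nonneg_left h1 (by positivity)
  have h3 := half_pow_mul h2
  refine le_trans (le_of_eq ?_) h3
  ring

theorem parZ (hn : 2 ≤ n) :
    ParZ ε (2 * n / ε) μ (8 * (n : ℝ) ^ 2 * (1 / 2) ^ t) n := by
  have hε := h.hε
  refine ⟨hε, h.hε1.le, h.hμ, hn, by field_simp, by positivity, ?_⟩
  have h1 := num_fin hn
  have hμ0 : 0 < μ := by linarith [h.hμ]
  have h2 : 1 / ε * μ ^ (n - 1) * (480000 * (n : ℝ) ^ 6 * (30 * (n : ℝ) ^ 2) ^ (n - 2)) ≤ 2 ^ t :=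
    le_trans (mul_le_mul_of_nonneg_left h1 (by positivity)) h.big
  have h3 := half_pow_mul h2
  refine le_trans (le_of_eq ?_) h3
  unfold zf
  have e1 : μ ^ (n - 1) = μ * μ ^ (n - 2) := by
    rw [← pow_succ']; congr 1; omega
  rw [e1, mul_pow (30 * (n : ℝ) ^ 2) μ]
  field_simp
  ring

end Big

/-! ## Finished runs -/

section

variable {n t : ℕ} {ε : ℝ}

/-- the condition numbers -/
theorem CondLE.real {A : Matrix (Fin n) (Fin n) ℝ} {hA : A.PosDef} {κ : ℝ≥0∞}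
    (h : CondLE hA κ) (hκ : κ ≠ ⊤) (i j : Fin n) :
    hA.1.eigenvalues i ≤ κ.toReal * hA.1.eigenvalues j := by
  have h1 := h i j
  have h2 := (hA.eigenvalues_pos i).le
  have h3 := (hA.eigenvalues_pos j).le
  have h4 := ENNReal.toReal_mono (ENNReal.mul_ne_top hκ ENNReal.ofReal_ne_top) h1
  rw [ENNReal.toReal_mul, ENNReal.toReal_ofReal h2, ENNReal.toReal_ofReal h3] at h4
  exact h4

theorem coercive_opT {A : Matrix (Fin n) (Fin n) ℝ} (hA : A.PosDef) {b : Fin n → ℝ} (hb : b ≠ 0)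
    {κ : ℝ} (h : ∀ i j, hA.1.eigenvalues i ≤ κ * hA.1.eigenvalues j)
    (v : EuclideanSpace ℝ (Fin n)) : ‖v‖ ^ 2 ≤ κ * ⟪v, opT A v⟫_ℝ := by
  have hN := specNorm_pos hA hb
  have h1 := coercive hA h v.ofLp
  have hv : v = WithLp.toLp 2 v.ofLp := rfl
  have h2 : ‖v‖ ^ 2 = ∑ i, v.ofLp i ^ 2 := nrm_sq_sum v.ofLp
  rw [h2]
  conv_rhs => rw [hv]
  rw [opT_inner]
  have h3 : specNorm A * ∑ i, v.ofLp i ^ 2 ≤
      specNorm A * (κ * ((specNorm A)⁻¹ * ∑ i, v.ofLp i * A.mulVec v.ofLp i)) := by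
    refine le_trans h1 (le_of_eq ?_)
    field_simp
  exact le_of_mul_le_mul_left h3 hN

theorem CondLE.one {A : Matrix (Fin 1) (Fin 1) ℝ} (hA : A.PosDef) (i j : Fin 1) :
    hA.1.eigenvalues i ≤ 1 * hA.1.eigenvalues j := by
  rw [Subsingleton.elim i j, one_mul]

/-- finished runs, dimension one -/
theorem run_one (h : Big 1 t ε 1) {A : Matrix (Fin 1) (Fin 1) ℝ} {b : Fin 1 → ℝ} (hA : A.PosDef)
    (hb : b ≠ 0) {K : ℕ} {R : Run 1} (hR : R.Valid ((1 / 2) ^ t) A b K)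
    (hK : K = 1 ∨ K ≤ 1 ∧ R.r K = 0) : ∃ k ≤ K, eta A b (R.x k) ≤ ε := by
  refine good_run hA hb h.small ?_ hR hK
  intro x r p α β σ H
  refine exists_good_one (goodOp_opT hA hb) (coercive_opT hA hb (CondLE.one hA)) H
    (norm_toLp_inv hb) (by positivity) h.hε1.le ?_
  have h1 := h.big
  have h2 : 56 / ε ≤ 2 ^ t := by
    refine le_trans ?_ h1
    have : (0 : ℝ) < 1 / ε := by have := h.hε; positivity
    norm_num
    rw [div_eq_mul_inv]
    have h3 : 0 < ε⁻¹ := inv_pos.mpr h.hε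
    nlinarith
  have h3 := half_pow_mul h2
  have hε := h.hε
  have h4 := mul_le_mul_of_nonneg_left h3 hε.le
  have h5 : ε * (56 / ε * (1 / 2) ^ t) = 56 * (1 / 2) ^ t := by field_simp
  rw [h5] at h4
  push_cast
  linarith

/-- finished runs, any condition number -/
theorem run_inf (hn : 2 ≤ n) (h : Big n t ε (1 / ε)) {A : Matrix (Fin n) (Fin n) ℝ}
    {b : Fin n → ℝ} (hA : A.PosDef) (hb : b ≠ 0) {K : ℕ} {R : Run n}
    (hR : R.Valid ((1 / 2) ^ t) A b K) (hK : K = n ∨ K ≤ n ∧ R.r K = 0) :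
    ∃ k ≤ K, eta A b (R.x k) ≤ ε := by
  refine good_run hA hb h.small ?_ hR hK
  intro x r p α β σ H
  exact exists_good (goodOp_opT hA hb) (h.par2 hn rfl) H (norm_toLp_inv hb)
    (le_of_eq finrank_euclideanSpace_fin)

/-- finished runs, bounded condition number -/
theorem run_fin (hn : 2 ≤ n) {κ : ℝ} (h : Big n t ε κ) {A : Matrix (Fin n) (Fin n) ℝ}
    {b : Fin n → ℝ} (hA : A.PosDef) (hκ : ∀ i j, hA.1.eigenvalues i ≤ κ * hA.1.eigenvalues j)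
    (hb : b ≠ 0) {K : ℕ} {R : Run n}
    (hR : R.Valid ((1 / 2) ^ t) A b K) (hK : K = n ∨ K ≤ n ∧ R.r K = 0) :
    ∃ k ≤ K, eta A b (R.x k) ≤ ε := by
  refine good_run hA hb h.small ?_ hR hK
  intro x r p α β σ H
  exact exists_goodZ (goodOp_opT hA hb) (coercive_opT hA hb hκ) (h.parZ hn) H (norm_toLp_inv hb)
    (le_of_eq finrank_euclideanSpace_fin)

end

/-- the regimes -/
theorem regimes {n t : ℕ} (hn : 1 ≤ n) {ε : ℝ} (hε : 0 < ε) (hε1 : ε < 1) {κ : ℝ≥0∞}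
    (hκ : 1 ≤ κ)
    (h : Real.logb 2 (1 / ε) + ((n : ℝ) - 1) *
      Real.logb 2 (min κ (ENNReal.ofReal (1 / ε))).toReal + 25 * (n * Real.logb 2 (n + 1)) ≤ t) :
    (n = 1 ∧ Big 1 t ε 1) ∨ (2 ≤ n ∧ ENNReal.ofReal (1 / ε) ≤ κ ∧ Big n t ε (1 / ε)) ∨
      (2 ≤ n ∧ κ ≠ ⊤ ∧ κ < ENNReal.ofReal (1 / ε) ∧ Big n t ε κ.toReal) := by
  have hε2 : 1 ≤ 1 / ε := by rw [le_div_iff₀ hε]; linarith
  rcases Nat.eq_or_lt_of_le hn with h1 | h1
  · left
    subst h1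
    refine ⟨rfl, le_refl 1, hε, hε1, le_refl 1, ?_⟩
    apply two_pow_ge (le_refl 1) hε (le_refl 1)
    refine le_trans (le_of_eq ?_) h
    push_cast
    ring
  · right
    rcases le_or_gt (ENNReal.ofReal (1 / ε)) κ with h2 | h2
    · left
      rw [min_eq_right h2, ENNReal.toReal_ofReal (by linarith)] at h
      exact ⟨h1, h2, hn, hε, hε1, hε2, two_pow_ge hn hε hε2 h⟩
    · right
      rw [min_eq_left h2.le] at h
      have hκt : κ ≠ ⊤ := ne_top_of_lt h2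
      have hκ1 : 1 ≤ κ.toReal := by
        rw [← ENNReal.toReal_one]
        exact ENNReal.toReal_mono hκt hκ
      exact ⟨h1, hκt, h2, hn, hε, hε1, hκ1, two_pow_ge hn hε hκ1 h⟩

/-- The upper bound for `t^*`. -/
theorem upper_bound (n : ℕ) (hn : 1 ≤ n) (ε : ℝ) (hε : 0 < ε) (hε1 : ε < 1) (κ : ℝ≥0∞)
    (hκ : 1 ≤ κ) (t : ℕ)
    (h : Real.logb 2 (1 / ε) + ((n : ℝ) - 1) *
      Real.logb 2 (min κ (ENNReal.ofReal (1 / ε))).toReal + 25 * (n * Real.logb 2 (n + 1)) ≤ t) :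
    Guarantee n κ ε t := by
  intro A b hA hcond hb _ _ R K hR hK
  rcases regimes hn hε hε1 hκ h with ⟨h1, hB⟩ | ⟨h1, _, hB⟩ | ⟨h1, hκt, _, hB⟩
  · subst h1; exact run_one hB hA hb hR hK
  · exact run_inf h1 hB hA hb hR hK
  · exact run_fin h1 hB hA (hcond.real hκt) hb hR hK

/-- The upper bound for `t^*` in the strict reading, dimension one. -/
theorem upper_strong_one (ε : ℝ) (hε : 0 < ε) (hε1 : ε < 1) (κ : ℝ≥0∞)
    (t : ℕ) (h : Real.logb 2 (1 / ε) + 25 ≤ t) : StrongGuarantee 1 κ ε t := by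
  have hB : Big 1 t ε 1 := by
    refine ⟨le_refl 1, hε, hε1, le_refl 1, ?_⟩
    apply two_pow_ge (le_refl 1) hε (le_refl 1)
    refine le_trans (le_of_eq ?_) h
    have : Real.logb 2 ((1 : ℕ) + 1 : ℝ) = 1 := by
      rw [Nat.cast_one, one_add_one_eq_two, Real.logb_self_eq_one (by norm_num)]
    rw [this]
    push_cast
    ring
  intro A b hA _ hb _ _ R K hR hK
  rcases hK with h1 | ⟨h1, h2 | h2⟩
  · exact run_one hB hA hb hR (Or.inl h1)
  · exact run_one hB hA hb hR (Or.inr ⟨h1, h2⟩)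
  · rcases Nat.eq_or_lt_of_le h1 with h3 | h3
    · exact run_one hB hA hb hR (Or.inl h3)
    · exfalso
      have hK0 : K = 0 := by omega
      subst hK0
      refine not_breaksDown hA hB.small (CondLE.one hA) ?_ ?_ h2
      · have := hB.small.sm
        push_cast at this ⊢
        linarith
      · rw [hR.p_zero]; exact hb

/-- the roundoff is small compared with the condition number -/
theorem small_cond {n t : ℕ} (hn : 1 ≤ n) {κ : ℝ} (hκ : 1 ≤ κ)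
    (h : Real.logb 2 κ + 25 * (n * Real.logb 2 (n + 1)) ≤ t) :
    8 * (n : ℝ) ^ 2 * (1 / 2) ^ t * κ < 1 := by
  have h1 := two_pow_ge' (n := n) hκ h
  have h2 : κ * (16 * (n : ℝ) ^ 2) ≤ 2 ^ t :=
    le_trans (mul_le_mul_of_nonneg_left (num_small hn) (by linarith)) h1
  have h3 := half_pow_mul h2
  linarith

/-- The upper bound for `t^*` in the strict reading. -/
theorem upper_strong (n : ℕ) (hn : 2 ≤ n) (ε : ℝ) (hε : 0 < ε) (hε1 : ε < 1) (κ : ℝ≥0∞)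
    (hκ : 1 ≤ κ) (hκt : κ ≠ ⊤) (t : ℕ)
    (h : Real.logb 2 (1 / ε) + ((n : ℝ) - 1) *
      Real.logb 2 (min κ (ENNReal.ofReal (1 / ε))).toReal + 25 * (n * Real.logb 2 (n + 1)) ≤ t)
    (h' : Real.logb 2 κ.toReal + 25 * (n * Real.logb 2 (n + 1)) ≤ t) :
    StrongGuarantee n κ ε t := by
  intro A b hA hcond hb hfA hfb R K hR hK
  have hG := upper_bound n (by omega) ε hε hε1 κ hκ t h A b hA hcond hb hfA hfb R K hR
  rcases hK with h1 | ⟨h1, h2 | h2⟩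
  · exact hG (Or.inl h1)
  · exact hG (Or.inr ⟨h1, h2⟩)
  · rcases Nat.eq_or_lt_of_le h1 with h3 | h3
    · exact hG (Or.inl h3)
    · by_contra hcon
      push Not at hcon
      have hκ1 : 1 ≤ κ.toReal := by
        rw [← ENNReal.toReal_one]
        exact ENNReal.toReal_mono hκt hκ
      have hsm := small_cond (by omega) hκ1 h'
      have hκr := hcond.real hκt
      refine not_breaksDown hA ?_ hκr hsm ?_ h2
      · refine ⟨by positivity, by omega, ?_⟩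
        have h4 : 16 * (n : ℝ) ^ 2 ≤ 2 ^ t := by
          refine le_trans (num_small (by omega)) (le_trans ?_ (two_pow_ge' (n := n) hκ1 h'))
          have : (0 : ℝ) ≤ ((n : ℝ) + 1) ^ (25 * n) := by positivity
          nlinarith
        exact half_pow_mul h4
      · have hfail : ∀ j ≤ K, Fail (opT A) ε
            (WithLp.toLp 2 ((nrm b)⁻¹ • b) : EuclideanSpace ℝ (Fin n))
            (fun k => WithLp.toLp 2 ((specNorm A * (nrm b)⁻¹) • R.x k)) j :=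
          fun j hj => fail_of_eta hA hb (hcon j hj)
        have hp : (WithLp.toLp 2 ((nrm b)⁻¹ • R.p K) : EuclideanSpace ℝ (Fin n)) ≠ 0 := by
          rcases regimes (by omega) hε hε1 hκ h with ⟨h4, _⟩ | ⟨_, _, hB⟩ | ⟨_, _, _, hB⟩
          · omega
          · exact no_breakdown (goodOp_opT hA hb) (hB.par2 hn rfl) (hR.pcg hA hb hB.small)
              (norm_toLp_inv hb) h3 hfail
          · exact no_breakdownZ (goodOp_opT hA hb) (coercive_opT hA hb hκr) (hB.parZ hn)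
              (hR.pcg hA hb hB.small) (norm_toLp_inv hb) h3 hfail
        intro h0
        apply hp
        rw [h0, smul_zero, WithLp.toLp_zero]

end Pool.Agent.Lib.MP_02bbae_an
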