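import Mathlib
import Pool.Agent.Lib.MP_02bbae_an.LargeUpper
import Pool.Agent.Lib.MP_02bbae_an.Upper

/-!
# Large dimension: the upper bound
-/

set_option autoImplicit false

open scoped InnerProductSpace RealInnerProductSpace ENNReal

namespace Pool.Agent.Lib.MP_02bbae_an

/-- as long as all iterates fail, the direction is not zero -/
theorem large_ne {E : Type*} [NormedAddCommGroup E] [InnerProductSpace ℝ E]
    {T : E →ₗ[ℝ] E} {ε L γ : ℝ} {b : E} {x r p : ℕ → E} {α β σ : ℕ → ℝ} {K : ℕ}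
    (hT : GoodOp T) (hP : ∀ K' : ℕ, 1 ≤ K' → K' ≤ K → Par3 ε L γ K')
    (H : PCG T γ K b x r p α β σ)
    (hb : ‖b‖ = 1) (hF : ∀ j ≤ K, Fail T ε b x j) : p K ≠ 0 := by
  rcases Nat.eq_zero_or_pos K with h0 | h0
  · subst h0
    rw [H.p0]
    intro h
    rw [h, norm_zero] at hb
    exact zero_ne_one hb
  · obtain ⟨k, rfl⟩ : ∃ k, K = k + 1 := ⟨K - 1, by omega⟩
    have hP' := hP (k + 1) h0 (le_refl _)
    obtain ⟨h1, -, -⟩ := LS.all hT hP' H hb k (le_refl _) hF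
    have h2 := LS.two (α := α) hT hP' hb (le_refl _) h1.pos h1.ip h1.gap h1.Ef
      (hF (k + 1) (le_refl _))
    intro h
    have h3 := h2.Pl
    rw [h, norm_zero] at h3
    linarith [h1.pos]

/-- the data for large dimension -/
structure BigN (n t : ℕ) (ε : ℝ) : Prop where
  hε : 0 < ε
  hε1 : ε ≤ 1
  hn : 73 / ε ^ 2 ≤ n
  ht : 2 * Real.logb 2 n + 11 * Real.logb 2 (1 / ε) + 33 ≤ t

namespace BigN

variable {n t : ℕ} {ε : ℝ} (h : BigN n t ε)
include h

theorem n73 : (73 : ℝ) ≤ n := by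
  have h1 := h.hn
  have hε := h.hε
  have hε1 := h.hε1
  have h2 : (1 : ℝ) ≤ 1 / ε ^ 2 := by
    rw [le_div_iff₀ (by positivity)]; nlinarith
  have h3 : 73 / ε ^ 2 = 73 * (1 / ε ^ 2) := by ring
  linarith

theorem pow_ge : 8589934592 * (n : ℝ) ^ 2 / ε ^ 11 ≤ 2 ^ t := by
  have hn := h.n73
  have hε := h.hε
  apply pow_of_logb (by positivity)
  refine le_trans (le_of_eq ?_) h.ht
  have h1 : 8589934592 * (n : ℝ) ^ 2 / ε ^ 11 = 2 ^ 33 * (n : ℝ) ^ 2 * (1 / ε) ^ 11 := by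
    rw [one_div, inv_pow]; norm_num; ring
  rw [h1, Real.logb_mul (by positivity) (by positivity), Real.logb_mul (by positivity) (by positivity),
    Real.logb_pow, Real.logb_pow, Real.logb_pow, Real.logb_self_eq_one (by norm_num)]
  push_cast
  ring

theorem small : Small n ((1 / 2) ^ t) := by
  have hn := h.n73
  have hε := h.hε
  refine ⟨by positivity, ?_, half_pow_mul (le_trans ?_ h.pow_ge)⟩
  · have : (1 : ℝ) ≤ n := by linarith
    exact_mod_cast this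
  · have h1 : (1 : ℝ) ≤ 1 / ε ^ 11 := by
      rw [le_div_iff₀ (by positivity), one_mul]
      exact pow_le_one₀ hε.le h.hε1
    have h2 : 8589934592 * (n : ℝ) ^ 2 / ε ^ 11 = 8589934592 * (n : ℝ) ^ 2 * (1 / ε ^ 11) := by ring
    rw [h2]
    nlinarith [sq_nonneg (n : ℝ)]

theorem m_le : ⌈71 / ε ^ 2⌉₊ + 1 ≤ n ∧ ((⌈71 / ε ^ 2⌉₊ + 1 : ℕ) : ℝ) ≤ 73 / ε ^ 2 := by
  have hε := h.hε
  have hε1 := h.hε1
  have h2 : (1 : ℝ) ≤ 1 / ε ^ 2 := by
    rw [le_div_iff₀ (by positivity)]; nlinarith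
  have h1 := Nat.ceil_lt_add_one (show 0 ≤ 71 / ε ^ 2 by positivity)
  have h4 : 73 / ε ^ 2 = 71 / ε ^ 2 + 2 * (1 / ε ^ 2) := by ring
  have h3 : ((⌈71 / ε ^ 2⌉₊ + 1 : ℕ) : ℝ) ≤ 73 / ε ^ 2 := by
    push_cast
    linarith
  refine ⟨?_, h3⟩
  have := le_trans h3 h.hn
  exact_mod_cast this

theorem par {K : ℕ} (hK1 : 1 ≤ K) (hK : K ≤ ⌈71 / ε ^ 2⌉₊ + 1) :
    Par3 ε (5 / ε ^ 2) (8 * (n : ℝ) ^ 2 * (1 / 2) ^ t) K := by
  have hε := h.hε
  refine ⟨hε, h.hε1, by field_simp, by positivity, hK1, ?_⟩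
  have h1 := h.m_le.2
  have h2 : (K : ℝ) ≤ 73 / ε ^ 2 := le_trans (by exact_mod_cast hK) h1
  have h3 := half_pow_mul h.pow_ge
  have h4 : 10000 * (K * ((5 / ε ^ 2) ^ 4 * (8 * (n : ℝ) ^ 2 * (1 / 2) ^ t))) ≤
      10000 * (73 / ε ^ 2 * ((5 / ε ^ 2) ^ 4 * (8 * (n : ℝ) ^ 2 * (1 / 2) ^ t))) := by
    apply mul_le_mul_of_nonneg_left _ (by norm_num)
    exact mul_le_mul_of_nonneg_right h2 (by positivity)
  refine le_trans h4 ?_
  have h5 : 10000 * (73 / ε ^ 2 * ((5 / ε ^ 2) ^ 4 * (8 * (n : ℝ) ^ 2 * (1 / 2) ^ t))) =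
      3650000000 / 8589934592 * (ε * (8589934592 * (n : ℝ) ^ 2 / ε ^ 11 * (1 / 2) ^ t)) := by
    field_simp
    ring
  rw [h5]
  have h6 : ε * (8589934592 * (n : ℝ) ^ 2 / ε ^ 11 * (1 / 2) ^ t) ≤ ε * 1 :=
    mul_le_mul_of_nonneg_left h3 hε.le
  linarith

end BigN

/-- The upper bound for `t^*` in large dimension. -/
theorem large_upper (n : ℕ) (ε : ℝ) (hε : 0 < ε) (hε1 : ε ≤ 1) (hn : 73 / ε ^ 2 ≤ n) (κ : ℝ≥0∞)
    (t : ℕ) (h : 2 * Real.logb 2 n + 11 * Real.logb 2 (1 / ε) + 33 ≤ t) : Guarantee n κ ε t := by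
  intro A b hA _ hb _ _ R K hR hK
  have hB : BigN n t ε := ⟨hε, hε1, hn, h⟩
  refine good_run hA hb hB.small ?_ hR hK
  intro x r p α β σ H
  have hm := hB.m_le
  obtain ⟨k, hk, hg⟩ := large_good (goodOp_opT hA hb)
    (hB.par (by omega) (le_refl _)) (H.mono hm.1) (norm_toLp_inv hb) (by
      push_cast
      have h1 := Nat.le_ceil (71 / ε ^ 2)
      rw [div_le_iff₀ (by positivity)] at h1
      linarith)
  refine ⟨k, hk.trans hm.1, ?_⟩
  unfold Fail at hg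
  push Not at hg
  exact hg

/-- The upper bound for `t^*` in large dimension, strict reading. -/
theorem large_upper_strong (n : ℕ) (ε : ℝ) (hε : 0 < ε) (hε1 : ε ≤ 1) (hn : 73 / ε ^ 2 ≤ n)
    (κ : ℝ≥0∞) (hκ : 1 ≤ κ) (hκt : κ ≠ ⊤) (t : ℕ)
    (h : 2 * Real.logb 2 n + 11 * Real.logb 2 (1 / ε) + 33 ≤ t)
    (h' : 2 * Real.logb 2 n + Real.logb 2 κ.toReal + 4 ≤ t) : StrongGuarantee n κ ε t := by
  intro A b hA hcond hb hfA hfb R K hR hK
  have hB : BigN n t ε := ⟨hε, hε1, hn, h⟩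
  have hG := large_upper n ε hε hε1 hn κ t h A b hA hcond hb hfA hfb R K hR
  rcases hK with h1 | ⟨h1, h2 | h2⟩
  · exact hG (Or.inl h1)
  · exact hG (Or.inr ⟨h1, h2⟩)
  · by_contra hcon
    push Not at hcon
    have hm := hB.m_le
    have hfail : ∀ j ≤ K, Fail (opT A) ε
        (WithLp.toLp 2 ((nrm b)⁻¹ • b) : EuclideanSpace ℝ (Fin n))
        (fun k => WithLp.toLp 2 ((specNorm A * (nrm b)⁻¹) • R.x k)) j :=
      fun j hj => fail_of_eta hA hb (hcon j hj)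
    have H := hR.pcg hA hb hB.small
    rcases le_or_gt (⌈71 / ε ^ 2⌉₊ + 1) K with hKm | hKm
    · obtain ⟨k, hk, hg⟩ := large_good (goodOp_opT hA hb)
        (hB.par (by omega) (le_refl _)) (H.mono hKm) (norm_toLp_inv hb) (by
          push_cast
          have h1 := Nat.le_ceil (71 / ε ^ 2)
          rw [div_le_iff₀ (by positivity)] at h1
          linarith)
      exact hg (hfail k (hk.trans hKm))
    · have hκ1 : 1 ≤ κ.toReal := by
        rw [← ENNReal.toReal_one]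
        exact ENNReal.toReal_mono hκt hκ
      have hn73 := hB.n73
      have hsm : 8 * (n : ℝ) ^ 2 * (1 / 2) ^ t * κ.toReal < 1 := by
        have h3 : 16 * (n : ℝ) ^ 2 * κ.toReal ≤ 2 ^ t := by
          apply pow_of_logb (by positivity)
          have h4 : (16 : ℝ) * (n : ℝ) ^ 2 * κ.toReal = 2 ^ 4 * (n : ℝ) ^ 2 * κ.toReal := by
            norm_num
          rw [h4, Real.logb_mul (by positivity) (by positivity),
            Real.logb_mul (by positivity) (by positivity),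
            Real.logb_pow, Real.logb_pow, Real.logb_self_eq_one (by norm_num)]
          push_cast
          linarith
        have h4 := half_pow_mul h3
        linarith
      have hp := large_ne (goodOp_opT hA hb) (fun K' hK1 hK' => hB.par hK1 (by omega)) H
        (norm_toLp_inv hb) hfail
      refine not_breaksDown hA hB.small (hcond.real hκt) hsm ?_ h2
      intro h0
      apply hp
      simp only [h0, smul_zero, WithLp.toLp_zero]

end Pool.Agent.Lib.MP_02bbae_an
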