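import Mathlib
import Pool.Agent.Lib.MP_02bbae_an.LowerBound

/-!
# Breakdown: the computed `pᵀ A p` may vanish when `κ` is large compared with `2 ^ t`
-/

set_option autoImplicit false

open scoped InnerProductSpace RealInnerProductSpace ENNReal

namespace Pool.Agent.Lib.MP_02bbae_an

/-- the matrix -/
noncomputable def Bmat (m : ℕ) (a : ℝ) : Matrix (Fin (m + 2)) (Fin (m + 2)) ℝ :=
  fun i j => if i = j then 1 else if (i = 0 ∧ j = 1) ∨ (i = 1 ∧ j = 0) then -a else 0

/-- the right-hand side -/
noncomputable def Bvec (m : ℕ) : Fin (m + 2) → ℝ := fun i => if i = 0 ∨ i = 1 then 1 else 0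

theorem Bmat_quad (m : ℕ) (a : ℝ) (v : Fin (m + 2) → ℝ) :
    v ⬝ᵥ (Bmat m a).mulVec v = v ⬝ᵥ v - 2 * a * (v 0 * v 1) := by
  have h1 : (Bmat m a).mulVec v = fun i => v i - (if i = 0 then a * v 1 else 0)
      - (if i = 1 then a * v 0 else 0) := by
    funext i
    have h2 : ∀ j, Bmat m a i j * v j = (if j = i then v j else 0)
        + (if j = 1 then (if i = 0 then -(a * v 1) else 0) else 0)
        + (if j = 0 then (if i = 1 then -(a * v 0) else 0) else 0) := by
      intro j
      unfold Bmat
      by_cases hij : i = j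
      · subst hij
        rw [if_pos rfl, if_pos rfl]
        by_cases h0 : i = 0
        · subst h0; simp
        · by_cases h1 : i = 1
          · subst h1; simp
          · simp [h0, h1]
      · rw [if_neg hij, if_neg (Ne.symm hij)]
        by_cases h0 : i = 0
        · subst h0
          by_cases h1 : j = 1
          · subst h1; simp
          · have : j ≠ 0 := Ne.symm hij
            simp [h1, this]
        · by_cases h1 : i = 1
          · subst h1
            by_cases h2 : j = 0
            · subst h2; simp
            · have : j ≠ 1 := Ne.symm hij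
              simp [h2, this]
          · simp [h0, h1]
    show ∑ j, Bmat m a i j * v j = _
    rw [Finset.sum_congr rfl fun j _ => h2 j, Finset.sum_add_distrib, Finset.sum_add_distrib,
      Finset.sum_ite_eq', Finset.sum_ite_eq', Finset.sum_ite_eq']
    simp only [Finset.mem_univ, if_true]
    split_ifs <;> ring
  rw [h1]
  unfold dotProduct
  have h3 : ∀ i : Fin (m + 2), v i * (v i - (if i = 0 then a * v 1 else 0)
      - (if i = 1 then a * v 0 else 0)) = v i * v i - (if i = 0 then a * (v 0 * v 1) else 0)
      - (if i = 1 then a * (v 0 * v 1) else 0) := by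
    intro i
    by_cases h0 : i = 0
    · subst h0; simp; ring
    · by_cases h1 : i = 1
      · subst h1; simp; ring
      · simp [h0, h1]
  rw [Finset.sum_congr rfl fun i _ => h3 i, Finset.sum_sub_distrib, Finset.sum_sub_distrib,
    Finset.sum_ite_eq', Finset.sum_ite_eq']
  simp only [Finset.mem_univ, if_true]
  ring

theorem Bmat_sq_le (m : ℕ) (v : Fin (m + 2) → ℝ) : |2 * (v 0 * v 1)| ≤ v ⬝ᵥ v := by
  have h1 : v 0 ^ 2 + v 1 ^ 2 ≤ v ⬝ᵥ v := by
    rw [dot_succ]
    have := one_sq_le v
    nlinarith
  rw [abs_le]
  constructor <;> nlinarith [sq_nonneg (v 0 - v 1), sq_nonneg (v 0 + v 1)]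

/-- the run that breaks down at once -/
noncomputable def breakRun (m : ℕ) : Run (m + 2) where
  x := fun _ => 0
  r := fun _ => Bvec m
  p := fun _ => Bvec m
  q := fun _ => 0
  q' := fun _ => 0
  ρ := fun _ => 2
  ρ' := fun _ => 2
  ρ'' := fun _ => 2
  σ := fun _ => 0
  α := fun _ => 0
  β := fun _ => 0

theorem break_fails {m t : ℕ} {ε : ℝ} {κ : ℝ≥0∞} (hε : ε < 1) (ht : 1 ≤ t)
    (hκ : 2 ^ (t + 1) ≤ κ) :
    ∃ (A : Matrix (Fin (m + 2)) (Fin (m + 2)) ℝ) (b : Fin (m + 2) → ℝ) (hA : A.PosDef),
      CondLE hA κ ∧ b ≠ 0 ∧ (∀ i j, IsFloat t (A i j)) ∧ (∀ i, IsFloat t (b i)) ∧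
      ∃ R : Run (m + 2), R.Reuses ∧ R.Valid ((1 / 2) ^ t) A b 0 ∧
        R.BreaksDown ((1 / 2) ^ t) A 0 ∧ ε < eta A b (R.x 0) := by
  set u : ℝ := (1 / 2) ^ t with hu'
  have hu : 0 < u := by positivity
  have hu1 : u ≤ 1 / 2 := by
    rw [hu']
    calc ((1 : ℝ) / 2) ^ t ≤ (1 / 2) ^ 1 :=
          pow_le_pow_of_le_one (by norm_num) (by norm_num) ht
      _ = 1 / 2 := by norm_num
  have hu2 : u * 2 ^ t = 1 := by rw [hu', ← mul_pow]; norm_num
  set a : ℝ := 1 - u with ha
  have hlo : ∀ v, u * (v ⬝ᵥ v) ≤ v ⬝ᵥ (Bmat m a).mulVec v := by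
    intro v
    rw [Bmat_quad]
    have h1 := (abs_le.mp (Bmat_sq_le m v)).2
    have h2 : a * (2 * (v 0 * v 1)) ≤ a * (v ⬝ᵥ v) :=
      mul_le_mul_of_nonneg_left h1 (by rw [ha]; linarith)
    rw [ha] at h2 ⊢
    linarith
  have hhi : ∀ v, v ⬝ᵥ (Bmat m a).mulVec v ≤ 2 * (v ⬝ᵥ v) := by
    intro v
    rw [Bmat_quad]
    have h1 := (abs_le.mp (Bmat_sq_le m v)).1
    have h2 : a * (-(v ⬝ᵥ v)) ≤ a * (2 * (v 0 * v 1)) :=
      mul_le_mul_of_nonneg_left h1 (by rw [ha]; linarith)
    have h3 : 0 ≤ v ⬝ᵥ v := by rw [← nrm_sq]; positivity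
    have h4 : u * (v ⬝ᵥ v) ≥ 0 := by positivity
    rw [ha] at h2 ⊢
    linarith
  have hPD : (Bmat m a).PosDef := by
    apply Matrix.PosDef.of_dotProduct_mulVec_pos
    · ext i j
      simp only [Matrix.conjTranspose_apply, star_trivial]
      unfold Bmat
      by_cases hij : i = j
      · rw [if_pos hij, if_pos hij.symm]
      · rw [if_neg hij, if_neg (Ne.symm hij)]
        congr 1
        apply propext
        constructor
        · rintro (⟨h1, h2⟩ | ⟨h1, h2⟩)
          · exact Or.inr ⟨h2, h1⟩
          · exact Or.inl ⟨h2, h1⟩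
        · rintro (⟨h1, h2⟩ | ⟨h1, h2⟩)
          · exact Or.inr ⟨h2, h1⟩
          · exact Or.inl ⟨h2, h1⟩
    · intro x hx
      have h2 : 0 < x ⬝ᵥ x := by
        rw [← nrm_sq]
        have : nrm x ≠ 0 := by
          unfold nrm
          rw [norm_ne_zero_iff]
          intro h
          apply hx
          have := congrArg WithLp.ofLp h
          simpa using this
        positivity
      have h5 : star x ⬝ᵥ (Bmat m a).mulVec x = x ⬝ᵥ (Bmat m a).mulVec x := by simp
      rw [h5]
      have := hlo x
      have : 0 < u * (x ⬝ᵥ x) := by positivity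
      linarith
  have hcond : CondLE hPD κ := by
    apply CondLE_of_bounds hPD hlo hhi
    calc ENNReal.ofReal 2 = 2 ^ (t + 1) * ENNReal.ofReal u := by
          have : (2 : ℝ≥0∞) ^ (t + 1) = ENNReal.ofReal (2 ^ (t + 1)) := by
            rw [ENNReal.ofReal_pow (by norm_num)]; norm_num
          rw [this, ← ENNReal.ofReal_mul (by positivity)]
          congr 1
          rw [pow_succ]
          linarith
      _ ≤ κ * ENNReal.ofReal u := by gcongr
  have haf : IsFloat t a := by
    refine ⟨2 ^ t - 1, -(t : ℤ), ?_, ?_⟩
    · have := one_lt_two_pow_int ht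
      rw [abs_of_pos (by linarith)]
      linarith
    · rw [← half_pow, ← hu']
      push_cast
      rw [ha]; linarith
  have hb0 : Bvec m ≠ 0 := by
    intro h
    have := congrFun h 0
    simp [Bvec] at this
  have hmv : FlMulVec u (Bmat m a) (Bvec m) 0 := by
    intro i
    -- the computed products
    have key : ∃ c : Fin (m + 2) → ℝ, (∀ j, Fl u (Bmat m a i j * Bvec m j) (c j)) ∧
        ∑ j, c j = 0 := by
      by_cases h0 : i = 0
      · refine ⟨fun j => (if j = 0 then a else 0) + (if j = 1 then -a else 0), ?_, ?_⟩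
        · intro j
          by_cases hj0 : j = 0
          · subst hj0
            subst h0
            refine ⟨-u, ?_, ?_⟩
            · rw [abs_neg, abs_of_pos hu]
            · simp [Bmat, Bvec, ha]; ring
          · by_cases hj1 : j = 1
            · subst hj1
              subst h0
              have : Bmat m a 0 1 * Bvec m 1 = -a := by simp [Bmat, Bvec]
              rw [this]
              have := Fl.exact hu.le (-a)
              simpa using this
            · have : Bvec m j = 0 := by simp [Bvec, hj0, hj1]
              rw [this, mul_zero]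
              have := Fl.exact hu.le (0 : ℝ)
              simpa [hj0, hj1] using this
        · rw [Finset.sum_add_distrib, Finset.sum_ite_eq', Finset.sum_ite_eq']
          simp
      · by_cases h1 : i = 1
        · refine ⟨fun j => (if j = 0 then -a else 0) + (if j = 1 then a else 0), ?_, ?_⟩
          · intro j
            by_cases hj0 : j = 0
            · subst hj0
              subst h1
              have : Bmat m a 1 0 * Bvec m 0 = -a := by simp [Bmat, Bvec]
              rw [this]
              have := Fl.exact hu.le (-a)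
              simpa using this
            · by_cases hj1 : j = 1
              · subst hj1
                subst h1
                refine ⟨-u, ?_, ?_⟩
                · rw [abs_neg, abs_of_pos hu]
                · simp [Bmat, Bvec, ha]; ring
              · have : Bvec m j = 0 := by simp [Bvec, hj0, hj1]
                rw [this, mul_zero]
                have := Fl.exact hu.le (0 : ℝ)
                simpa [hj0, hj1] using this
          · rw [Finset.sum_add_distrib, Finset.sum_ite_eq', Finset.sum_ite_eq']
            simp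
        · refine ⟨fun j => 0, ?_, by simp⟩
          intro j
          have : Bmat m a i j * Bvec m j = 0 := by
            by_cases hj : j = 0 ∨ j = 1
            · have : Bmat m a i j = 0 := by
                unfold Bmat
                rw [if_neg, if_neg]
                · rintro (⟨h, -⟩ | ⟨h, -⟩)
                  · exact h0 h
                  · exact h1 h
                · intro hij
                  rcases hj with hj | hj
                  · exact h0 (hij.trans hj)
                  · exact h1 (hij.trans hj)
              rw [this, zero_mul]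
            · have : Bvec m j = 0 := by unfold Bvec; rw [if_neg hj]
              rw [this, mul_zero]
          rw [this]
          exact Fl.exact hu.le 0
    obtain ⟨c, hc1, hc2⟩ := key
    refine ⟨c, hc1, ?_⟩
    have h1 := FlSum.exact hu.le (Finset.univ.val.map c) (by
      intro h
      have h2 := congrArg Multiset.card h
      simp at h2)
    have h2 : (Finset.univ.val.map c).sum = 0 := hc2
    rw [h2] at h1
    exact h1
  have hV : (breakRun m).Valid u (Bmat m a) (Bvec m) 0 := by
    constructor <;> first | rfl | (intro k hk; exact absurd hk (Nat.not_lt_zero k))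
  have hBD : (breakRun m).BreaksDown u (Bmat m a) 0 := by
    refine ⟨hmv, ?_, rfl⟩
    have := FlDot.exact hu.le (by omega : 0 < m + 2) (Bvec m) 0
    rw [dotProduct_zero] at this
    exact this
  refine ⟨Bmat m a, Bvec m, hPD, hcond, hb0,
    (fun i j => by
      unfold Bmat
      split_ifs
      · exact IsFloat.one ht
      · exact haf.neg
      · exact IsFloat.zero t),
    (fun i => by
      unfold Bvec
      split_ifs
      · exact IsFloat.one ht
      · exact IsFloat.zero t), breakRun m, ⟨rfl, rfl, fun _ => rfl⟩, hV, hBD, ?_⟩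
  have hx : (breakRun m).x 0 = 0 := rfl
  rw [hx]
  unfold eta
  have h0 : nrm (0 : Fin (m + 2) → ℝ) = 0 := by unfold nrm; simp
  have hb : nrm (Bvec m) ≠ 0 := by
    unfold nrm
    rw [norm_ne_zero_iff]
    intro h
    apply hb0
    have := congrArg WithLp.ofLp h
    simpa using this
  rw [Matrix.mulVec_zero, sub_zero, h0, mul_zero, zero_add, div_self hb]
  exact hε

theorem not_strong {m t : ℕ} {ε : ℝ} {κ : ℝ≥0∞} (hε : ε < 1) (ht : 1 ≤ t)
    (hκ : 2 ^ (t + 1) ≤ κ) : ¬ StrongGuarantee (m + 2) κ ε t := by
  intro hG
  obtain ⟨A, b, hA, h1, h2, h3, h4, R, _, h5, h6, h7⟩ := break_fails (m := m) hε ht hκ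
  obtain ⟨k, hk, hk2⟩ := hG A b hA h1 h2 h3 h4 R 0 h5 (Or.inr ⟨Nat.zero_le _, Or.inr h6⟩)
  have hk0 : k = 0 := Nat.le_zero.mp hk
  subst hk0
  exact absurd hk2 (not_le.mpr h7)

end Pool.Agent.Lib.MP_02bbae_an
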