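import Mathlib
import Pool.Agent.Lib.MP_02bbae_an.LowerBound

/-!
# The guarantee fails when `n` is large compared with `2 ^ t`
-/

set_option autoImplicit false

open scoped InnerProductSpace RealInnerProductSpace ENNReal

namespace Pool.Agent.Lib.MP_02bbae_an

/-- the computed sum of ones, all errors being `u` -/
noncomputable def upSum (u : ℝ) : ℕ → ℝ
  | 0 => 1
  | j + 1 => (upSum u j + 1) * (1 + u)

theorem flSum_upSum {u : ℝ} (hu : 0 ≤ u) (j : ℕ) :
    FlSum u (Multiset.replicate (j + 1) 1) (upSum u j) := by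
  induction j with
  | zero => simpa [upSum] using FlSum.single (u := u) 1
  | succ j ih =>
    have h1 := FlSum.add ih (FlSum.single (u := u) 1) (c := upSum u (j + 1))
      ⟨u, by rw [abs_of_nonneg hu], rfl⟩
    have h2 : Multiset.replicate (j + 1) (1 : ℝ) + {1} = Multiset.replicate (j + 1 + 1) 1 := by
      rw [Multiset.replicate_succ (1 : ℝ) (j + 1), ← Multiset.singleton_add, add_comm]
    rwa [h2] at h1

theorem upSum_lower {u : ℝ} (hu : 0 ≤ u) (j : ℕ) :
    ((j : ℝ) + 1) + u * (((j : ℝ) + 1) * j / 2) ≤ upSum u j := by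
  induction j with
  | zero => simp [upSum]
  | succ j ih =>
    have h1 : upSum u (j + 1) = (upSum u j + 1) * (1 + u) := rfl
    rw [h1]
    have hj : (0 : ℝ) ≤ j := Nat.cast_nonneg _
    have h2 : (((j : ℝ) + 1) + u * (((j : ℝ) + 1) * j / 2) + 1) * (1 + u)
        ≤ (upSum u j + 1) * (1 + u) := by
      apply mul_le_mul_of_nonneg_right _ (by positivity)
      linarith
    refine le_trans ?_ h2
    push_cast
    have h3 : 0 ≤ u * u * (((j : ℝ) + 1) * j / 2) := by positivity
    nlinarith

/-- the failing run: `μ` is the relative error factor of the first inner product -/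
noncomputable def bigRun (n : ℕ) (μ : ℝ) : Run n where
  x := fun k _ => 1 - (1 - μ) ^ k
  r := fun k _ => (1 - μ) ^ k
  p := fun k _ => if k = 0 then 1 else (1 - μ) ^ k / μ
  q := fun k _ => if k = 0 then 1 else (1 - μ) ^ k / μ
  q' := fun k _ => if k = 0 then 1 else (1 - μ) ^ k / μ
  ρ := fun k => if k = 0 then μ * n else (1 - μ) ^ (2 * k) * n
  ρ' := fun k => if k = 0 then μ * n else (1 - μ) ^ (2 * k) * n
  ρ'' := fun k => (1 - μ) ^ (2 * (k + 1)) * n
  σ := fun k => if k = 0 then n else (1 - μ) ^ (2 * k) / μ ^ 2 * n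
  α := fun k => if k = 0 then μ else μ ^ 2
  β := fun k => if k = 0 then (1 - μ) ^ 2 / μ else (1 - μ) ^ 2

theorem bigRun_reuses (n : ℕ) (μ : ℝ) : (bigRun n μ).Reuses :=
  ⟨rfl, rfl, fun k => by simp [bigRun]⟩

theorem dot_const {n : ℕ} (a b : ℝ) : (fun _ : Fin n => a) ⬝ᵥ (fun _ : Fin n => b) = a * b * n := by
  unfold dotProduct
  rw [Finset.sum_const, Finset.card_univ, Fintype.card_fin, nsmul_eq_mul]; ring

theorem FlDot.const {n : ℕ} {u : ℝ} (hu : 0 ≤ u) (hn : 0 < n) {a b c : ℝ} (h : c = a * b * n) :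
    FlDot u (fun _ : Fin n => a) (fun _ : Fin n => b) c := by
  rw [h, ← dot_const]; exact FlDot.exact hu hn _ _

theorem fails_large {n t : ℕ} {ε : ℝ} {κ : ℝ≥0∞} (hε : ε < 1 / 3) (ht : 1 ≤ t)
    (hκ : 1 ≤ κ) (h : 3 * 2 ^ t + 1 ≤ n) : Fails n κ ε t := by
  set u : ℝ := (1 / 2) ^ t with hu'
  have hu : 0 ≤ u := by positivity
  have hn0 : 0 < n := by omega
  have hnr : 3 * (2 : ℝ) ^ t + 1 ≤ n := by exact_mod_cast h
  have hu2 : u * 2 ^ t = 1 := by rw [hu', ← mul_pow]; norm_num
  have hn1 : (0 : ℝ) < n := by exact_mod_cast hn0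
  set μ : ℝ := upSum u (n - 1) / n with hμ
  have hμn : μ * n = upSum u (n - 1) := by rw [hμ]; field_simp
  have hμ2 : 2 ≤ μ := by
    rw [hμ, le_div_iff₀ hn1]
    have h1 := upSum_lower hu (n - 1)
    have h2 : ((n - 1 : ℕ) : ℝ) = n - 1 := by
      rw [Nat.cast_sub (by omega)]; push_cast; ring
    rw [h2] at h1
    refine le_trans ?_ h1
    have h3 : 3 ≤ u * (n - 1) := by
      calc 3 = u * (3 * 2 ^ t) := by linarith
        _ ≤ u * (n - 1) := mul_le_mul_of_nonneg_left (by linarith) hu
    have h4 : 3 * (n : ℝ) ≤ u * (n - 1) * n := mul_le_mul_of_nonneg_right h3 hn1.le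
    linarith
  have hμ0 : μ ≠ 0 := by linarith
  have hm : 1 - μ ≠ 0 := by linarith
  have hx : ∀ c : ℝ, (1 : Matrix (Fin n) (Fin n) ℝ).mulVec (fun _ => c) = fun _ => c := by
    intro c; rw [Matrix.one_mulVec]
  have hV : (bigRun n μ).Valid u (1 : Matrix (Fin n) (Fin n) ℝ) (fun _ => 1) n := by
    constructor
    · funext i; simp [bigRun]
    · funext i; simp [bigRun]
    · funext i; simp [bigRun]
    · intro k _
      show FlDot u (fun _ => (1 - μ) ^ k) (fun _ => (1 - μ) ^ k)
        (if k = 0 then μ * n else (1 - μ) ^ (2 * k) * n)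
      split_ifs with hk
      · subst hk
        refine ⟨fun _ => 1, fun _ => ?_, ?_⟩
        · simpa using Fl.exact hu (1 : ℝ)
        · have h1 := flSum_upSum hu (n - 1)
          have h2 : n - 1 + 1 = n := by omega
          rw [h2] at h1
          rw [hμn]
          simpa using h1
      · apply FlDot.const hu hn0; ring
    · intro k _; exact FlMulVec.one hu hn0 _
    · intro k _
      show FlDot u (fun _ => if k = 0 then (1 : ℝ) else (1 - μ) ^ k / μ)
        (fun _ => if k = 0 then (1 : ℝ) else (1 - μ) ^ k / μ)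
        (if k = 0 then (n : ℝ) else (1 - μ) ^ (2 * k) / μ ^ 2 * n)
      apply FlDot.const hu hn0
      split_ifs
      · ring
      · rw [two_mul, pow_add]; field_simp
    · intro k _
      show (if k = 0 then (n : ℝ) else (1 - μ) ^ (2 * k) / μ ^ 2 * n) ≠ 0
      split_ifs
      · exact hn1.ne'
      · positivity
    · intro k _
      have : (bigRun n μ).ρ k / (bigRun n μ).σ k = (bigRun n μ).α k := by
        show (if k = 0 then μ * n else (1 - μ) ^ (2 * k) * n)
          / (if k = 0 then (n : ℝ) else (1 - μ) ^ (2 * k) / μ ^ 2 * n)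
          = if k = 0 then μ else μ ^ 2
        split_ifs
        · field_simp
        · field_simp
      rw [this]; exact Fl.exact hu _
    · intro k _
      have := FlAddMul.exact hu ((bigRun n μ).x k) ((bigRun n μ).α k) ((bigRun n μ).p k)
      have e : (bigRun n μ).x k + (bigRun n μ).α k • (bigRun n μ).p k
          = (bigRun n μ).x (k + 1) := by
        funext i
        show 1 - (1 - μ) ^ k + (if k = 0 then μ else μ ^ 2)
          * (if k = 0 then (1 : ℝ) else (1 - μ) ^ k / μ) = 1 - (1 - μ) ^ (k + 1)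
        split_ifs with hk
        · subst hk; simp
        · rw [pow_succ]; field_simp; ring
      rwa [e] at this
    · intro k _; exact FlMulVec.one hu hn0 _
    · intro k _
      have := FlSubMul.exact hu ((bigRun n μ).r k) ((bigRun n μ).α k) ((bigRun n μ).q' k)
      have e : (bigRun n μ).r k - (bigRun n μ).α k • (bigRun n μ).q' k
          = (bigRun n μ).r (k + 1) := by
        funext i
        show (1 - μ) ^ k - (if k = 0 then μ else μ ^ 2)
          * (if k = 0 then (1 : ℝ) else (1 - μ) ^ k / μ) = (1 - μ) ^ (k + 1)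
        split_ifs with hk
        · subst hk; simp
        · rw [pow_succ]; field_simp; ring
      rwa [e] at this
    · intro k _
      show FlDot u (fun _ => (1 - μ) ^ k) (fun _ => (1 - μ) ^ k)
        (if k = 0 then μ * n else (1 - μ) ^ (2 * k) * n)
      split_ifs with hk
      · subst hk
        refine ⟨fun _ => 1, fun _ => ?_, ?_⟩
        · simpa using Fl.exact hu (1 : ℝ)
        · have h1 := flSum_upSum hu (n - 1)
          have h2 : n - 1 + 1 = n := by omega
          rw [h2] at h1
          rw [hμn]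
          simpa using h1
      · apply FlDot.const hu hn0; ring
    · intro k _
      show (if k = 0 then μ * n else (1 - μ) ^ (2 * k) * n) ≠ 0
      split_ifs
      · positivity
      · positivity
    · intro k _
      show FlDot u (fun _ => (1 - μ) ^ (k + 1)) (fun _ => (1 - μ) ^ (k + 1))
        ((1 - μ) ^ (2 * (k + 1)) * n)
      apply FlDot.const hu hn0; ring
    · intro k _
      have : (bigRun n μ).ρ'' k / (bigRun n μ).ρ' k = (bigRun n μ).β k := by
        show (1 - μ) ^ (2 * (k + 1)) * n / (if k = 0 then μ * n else (1 - μ) ^ (2 * k) * n)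
          = if k = 0 then (1 - μ) ^ 2 / μ else (1 - μ) ^ 2
        split_ifs with hk
        · subst hk; field_simp
        · have : (1 - μ) ^ (2 * (k + 1)) = (1 - μ) ^ (2 * k) * (1 - μ) ^ 2 := by
            rw [← pow_add]; congr 1
          rw [this]; field_simp
      rw [this]; exact Fl.exact hu _
    · intro k _
      have := FlAddMul.exact hu ((bigRun n μ).r (k + 1)) ((bigRun n μ).β k) ((bigRun n μ).p k)
      have e : (bigRun n μ).r (k + 1) + (bigRun n μ).β k • (bigRun n μ).p k
          = (bigRun n μ).p (k + 1) := by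
        funext i
        show (1 - μ) ^ (k + 1) + (if k = 0 then (1 - μ) ^ 2 / μ else (1 - μ) ^ 2)
          * (if k = 0 then (1 : ℝ) else (1 - μ) ^ k / μ)
          = if k + 1 = 0 then (1 : ℝ) else (1 - μ) ^ (k + 1) / μ
        rw [if_neg (Nat.succ_ne_zero k)]
        split_ifs with hk
        · subst hk; field_simp; ring
        · have e1 : (1 - μ) ^ (k + 1) = (1 - μ) ^ k * (1 - μ) := pow_succ _ _
          rw [e1]; field_simp; ring
      rwa [e] at this
  refine ⟨1, fun _ => 1, Matrix.PosDef.one,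
    CondLE_of_bounds _ (lo := 1) (hi := 1) (fun v => by rw [Matrix.one_mulVec, one_mul])
      (fun v => by rw [Matrix.one_mulVec, one_mul]) (by simpa using hκ), ?_,
    (fun a c => by
      rw [Matrix.one_apply]
      split_ifs
      · exact IsFloat.one ht
      · exact IsFloat.zero t),
    (fun a => IsFloat.one ht), bigRun n μ, n, bigRun_reuses n μ, hV, Or.inl rfl, fun k _ => ?_⟩
  · intro h0
    have := congrFun h0 ⟨0, hn0⟩
    simp at this
  have hsp : specNorm (1 : Matrix (Fin n) (Fin n) ℝ) ≤ 1 := by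
    apply specNorm_le zero_le_one
    intro v
    rw [Matrix.one_mulVec, one_mul]
  have hsp0 : 0 ≤ specNorm (1 : Matrix (Fin n) (Fin n) ℝ) := norm_nonneg _
  set B := nrm (fun _ : Fin n => (1 : ℝ)) with hB
  have hB0 : 0 < B := by
    have : B ^ 2 = n := by rw [hB, nrm_sq, dot_const]; ring
    have h0 : 0 ≤ B := nrm_nonneg _
    rcases h0.lt_or_eq with h1 | h1
    · exact h1
    · rw [← h1] at this
      norm_num at this
      linarith
  have hc : ∀ c : ℝ, nrm (fun _ : Fin n => c) = |c| * B := by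
    intro c
    have : (fun _ : Fin n => c) = c • (fun _ : Fin n => (1 : ℝ)) := by
      funext i; simp
    rw [this, nrm_smul]
  unfold eta
  have e1 : (bigRun n μ).x k = fun _ => 1 - (1 - μ) ^ k := rfl
  have e2 : (fun _ : Fin n => (1 : ℝ)) - (1 : Matrix (Fin n) (Fin n) ℝ).mulVec
      (fun _ : Fin n => 1 - (1 - μ) ^ k) = fun _ => (1 - μ) ^ k := by
    rw [Matrix.one_mulVec]; funext i; simp
  rw [e1, e2, hc, hc, ← hB]
  set ρ := (1 - μ) ^ k with hρ
  have hρ1 : 1 ≤ |ρ| := by
    rw [hρ, abs_pow]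
    apply one_le_pow₀
    rw [abs_of_nonpos (by linarith)]; linarith
  have h3 : |1 - ρ| ≤ 1 + |ρ| := by
    refine (abs_sub _ _).trans ?_
    rw [abs_one]
  have hden : 0 < specNorm (1 : Matrix (Fin n) (Fin n) ℝ) * (|1 - ρ| * B) + B := by positivity
  rw [lt_div_iff₀ hden]
  have h4 : specNorm (1 : Matrix (Fin n) (Fin n) ℝ) * (|1 - ρ| * B) ≤ 1 * ((1 + |ρ|) * B) :=
    mul_le_mul hsp (mul_le_mul_of_nonneg_right h3 hB0.le) (by positivity) (by norm_num)
  have h5 : specNorm (1 : Matrix (Fin n) (Fin n) ℝ) * (|1 - ρ| * B) + B ≤ 3 * |ρ| * B := by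
    have : 1 * ((1 + |ρ|) * B) + B ≤ 3 * |ρ| * B := by
      have : B ≤ |ρ| * B := by
        calc B = 1 * B := (one_mul B).symm
          _ ≤ |ρ| * B := mul_le_mul_of_nonneg_right hρ1 hB0.le
      linarith
    linarith
  rcases le_or_gt ε 0 with hε0 | hε0
  · have : ε * (specNorm (1 : Matrix (Fin n) (Fin n) ℝ) * (|1 - ρ| * B) + B) ≤ 0 :=
      mul_nonpos_of_nonpos_of_nonneg hε0 hden.le
    have : 0 < |ρ| * B := by positivity
    linarith
  · calc ε * (specNorm (1 : Matrix (Fin n) (Fin n) ℝ) * (|1 - ρ| * B) + B)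
        ≤ ε * (3 * |ρ| * B) := mul_le_mul_of_nonneg_left h5 hε0.le
      _ = (3 * ε) * (|ρ| * B) := by ring
      _ < 1 * (|ρ| * B) := by
        apply mul_lt_mul_of_pos_right _ (by positivity)
        linarith
      _ = |ρ| * B := one_mul _

end Pool.Agent.Lib.MP_02bbae_an
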