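import Mathlib

/-!
# Scalar inequalities for the accelerated rate
-/

set_option autoImplicit false

open Finset

namespace Pool.Agent.Lib.MP_02bbae_an

/-- the scalar data: energies `F`, norms `N`, sums `V`, decrements `τ` -/
structure Sc (ε : ℝ) (K : ℕ) (F N V τ : ℕ → ℝ) : Prop where
  hε : 0 < ε
  V0 : V 0 = 1
  Vs : ∀ k < K, V (k + 1) = V k + 1 / N (k + 1) ^ 2
  Nl : ∀ k ≤ K, 99 / 100 * ε ≤ N k
  inc : ∀ k < K, F k + 49 / 100 * τ k ≤ F (k + 1)
  τ1 : ∀ k < K, 19 / 20 * N k ^ 2 ≤ τ k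
  τ5 : ∀ k < K, N (k + 1) ^ 2 ≤ 5 * τ k

namespace Sc

variable {ε : ℝ} {K : ℕ} {F N V τ : ℕ → ℝ} (h : Sc ε K F N V τ)
include h

theorem Npos {k : ℕ} (hk : k ≤ K) : 0 < N k := by
  have := h.Nl k hk
  have := h.hε
  linarith

theorem τpos {k : ℕ} (hk : k < K) : 0 < τ k := by
  have h1 := h.τ1 k hk
  have h2 := h.Npos hk.le
  nlinarith

theorem V_mono {k q : ℕ} (hk : k + q ≤ K) : V k ≤ V (k + q) := by
  induction q with
  | zero => simp
  | succ q ih =>
    have h1 := ih (by omega)
    have h2 := h.Vs (k + q) (by omega)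
    rw [← add_assoc, h2]
    have : 0 ≤ 1 / N (k + q + 1) ^ 2 := by positivity
    linarith

theorem V_pos {k : ℕ} (hk : k ≤ K) : 0 < V k := by
  have h1 := h.V_mono (k := 0) (q := k) (by omega)
  rw [zero_add, h.V0] at h1
  linarith

theorem F_mono {k q : ℕ} (hk : k + q ≤ K) : F k ≤ F (k + q) := by
  induction q with
  | zero => simp
  | succ q ih =>
    have h1 := ih (by omega)
    have h2 := h.inc (k + q) (by omega)
    have h3 := h.τpos (show k + q < K by omega)
    rw [← add_assoc]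
    linarith

/-- the growth inequality -/
theorem growth {k q : ℕ} (hk : k + q ≤ K) :
    49 / 500 * (q : ℝ) ^ 2 ≤ (V (k + q) - V k) * (F (k + q) - F k) := by
  have h1 : ∑ i ∈ range q, 1 / (5 * τ (k + i)) ≤ V (k + q) - V k := by
    induction q with
    | zero => simp
    | succ q ih =>
      have e1 := ih (by omega)
      have e2 := h.Vs (k + q) (by omega)
      have e3 := h.τ5 (k + q) (by omega)
      have e4 := h.Npos (show k + q + 1 ≤ K by omega)
      rw [sum_range_succ, ← add_assoc, e2]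
      have e5 : 1 / (5 * τ (k + q)) ≤ 1 / N (k + q + 1) ^ 2 :=
        one_div_le_one_div_of_le (by positivity) e3
      linarith
  have h2 : ∑ i ∈ range q, 5 * τ (k + i) ≤ 500 / 49 * (F (k + q) - F k) := by
    clear h1
    induction q with
    | zero => simp
    | succ q ih =>
      have e1 := ih (by omega)
      have e2 := h.inc (k + q) (by omega)
      rw [sum_range_succ, ← add_assoc]
      linarith
  have h3 := sum_sq_le_sum_mul_sum_of_sq_le_mul (range q) (r := fun _ => (1 : ℝ))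
    (f := fun i => 1 / (5 * τ (k + i))) (g := fun i => 5 * τ (k + i))
    (by
      intro i hi
      have := h.τpos (show k + i < K by simp at hi; omega)
      positivity)
    (by
      intro i hi
      have := h.τpos (show k + i < K by simp at hi; omega)
      positivity)
    (by
      intro i hi
      have := h.τpos (show k + i < K by simp at hi; omega)
      apply le_of_eq
      field_simp)
  simp only [sum_const, card_range, nsmul_eq_mul, mul_one] at h3
  have h4 : 0 ≤ V (k + q) - V k := by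
    have := h.V_mono hk
    linarith
  have h5 : 0 ≤ ∑ i ∈ range q, 5 * τ (k + i) := by
    apply sum_nonneg
    intro i hi
    have := h.τpos (show k + i < K by simp at hi; omega)
    positivity
  have h6 := mul_le_mul h1 h2 h5 h4
  have h7 := le_trans h3 h6
  nlinarith

/-- an upper bound for the sum -/
theorem V_le {k : ℕ} (hk : k ≤ K) (hε1 : ε ≤ 1) :
    V k ≤ (k + 1) * (100 / 98 * (1 / ε ^ 2)) := by
  have hε := h.hε
  have hc : (1 : ℝ) ≤ 1 / ε ^ 2 := by
    rw [le_div_iff₀ (by positivity)]; nlinarith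
  induction k with
  | zero =>
    rw [h.V0]
    push_cast
    linarith
  | succ k ih =>
    have e1 := ih (by omega)
    rw [h.Vs k (by omega)]
    have e2 := h.Nl (k + 1) hk
    have e3 := h.Npos hk
    have e4 : 1 / N (k + 1) ^ 2 ≤ 100 / 98 * (1 / ε ^ 2) := by
      rw [div_le_iff₀ (by positivity)]
      have e5 : (99 / 100 * ε) ^ 2 ≤ N (k + 1) ^ 2 := pow_le_pow_left₀ (by positivity) e2 2
      have e6 : 100 / 98 * (1 / ε ^ 2) * N (k + 1) ^ 2 ≥
          100 / 98 * (1 / ε ^ 2) * (99 / 100 * ε) ^ 2 :=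
        mul_le_mul_of_nonneg_left e5 (by positivity)
      have e7 : 100 / 98 * (1 / ε ^ 2) * (99 / 100 * ε) ^ 2 = 9801 / 9800 := by
        field_simp
        norm_num
      linarith
    push_cast
    nlinarith

/-- the finite case -/
theorem fin_case {κ : ℝ} (hκ : 1 ≤ κ)
    (hE : ∀ k ≤ K, F K ≤ F k + 51 / 100 * κ * (1 / V k)) {q J : ℕ} (hq : 6 * κ ≤ (q : ℝ) ^ 2)
    (hJ : 51 / 100 * κ < 2 ^ J * (456 / 1000 * ε ^ 2)) (hK : q * J < K) : False := by
  have hhalf : ∀ k, k + q ≤ K → F K - F (k + q) ≤ 1 / 2 * (F K - F k) := by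
    intro k hk
    have h1 := h.growth hk
    have h2 := hE (k + q) hk
    have hV := h.V_pos hk
    have hVk := h.V_pos (show k ≤ K by omega)
    have h3 : (F K - F (k + q)) * V (k + q) ≤ 51 / 100 * κ := by
      have : F K - F (k + q) ≤ 51 / 100 * κ * (1 / V (k + q)) := by linarith
      have h4 := mul_le_mul_of_nonneg_right this hV.le
      have h5 : 51 / 100 * κ * (1 / V (k + q)) * V (k + q) = 51 / 100 * κ := by field_simp
      linarith
    have hD : 0 ≤ F K - F (k + q) := by
      have := h.F_mono (k := k + q) (q := K - (k + q)) (by omega)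
      rw [show k + q + (K - (k + q)) = K by omega] at this
      linarith
    have hF : 0 ≤ F (k + q) - F k := by
      have := h.F_mono hk
      linarith
    have h6 : (F K - F (k + q)) * (49 / 500 * (q : ℝ) ^ 2) ≤
        51 / 100 * κ * (F (k + q) - F k) := by
      calc (F K - F (k + q)) * (49 / 500 * (q : ℝ) ^ 2)
          ≤ (F K - F (k + q)) * ((V (k + q) - V k) * (F (k + q) - F k)) :=
            mul_le_mul_of_nonneg_left h1 hD
        _ ≤ (F K - F (k + q)) * (V (k + q) * (F (k + q) - F k)) := by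
            apply mul_le_mul_of_nonneg_left _ hD
            apply mul_le_mul_of_nonneg_right _ hF
            linarith
        _ = ((F K - F (k + q)) * V (k + q)) * (F (k + q) - F k) := by ring
        _ ≤ 51 / 100 * κ * (F (k + q) - F k) := mul_le_mul_of_nonneg_right h3 hF
    have h7 : (F K - F (k + q)) * (49 / 500 * (6 * κ)) ≤
        (F K - F (k + q)) * (49 / 500 * (q : ℝ) ^ 2) := by
      apply mul_le_mul_of_nonneg_left _ hD
      linarith
    have h8 : κ * (294 / 500 * (F K - F (k + q))) ≤ κ * (51 / 100 * (F (k + q) - F k)) := by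
      linarith
    have h9 := le_of_mul_le_mul_left h8 (by linarith)
    linarith
  have hind : ∀ j : ℕ, q * j ≤ K → F K - F (q * j) ≤ (1 / 2) ^ j * (51 / 100 * κ) := by
    intro j
    induction j with
    | zero =>
      intro _
      have := hE 0 (Nat.zero_le _)
      rw [h.V0] at this
      rw [mul_zero, pow_zero]
      linarith
    | succ j ih =>
      intro hj
      have e1 : q * (j + 1) = q * j + q := by ring
      rw [e1] at hj ⊢
      have e2 := ih (by omega)
      have e3 := hhalf (q * j) hj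
      rw [pow_succ]
      linarith
  have h1 := hind J hK.le
  have h2 := h.inc (q * J) hK
  have h3 := h.τ1 (q * J) hK
  have h4 := h.Nl (q * J) hK.le
  have hε := h.hε
  have h5 : (99 / 100 * ε) ^ 2 ≤ N (q * J) ^ 2 := pow_le_pow_left₀ (by positivity) h4 2
  have h6 : F (q * J + 1) ≤ F K := by
    have := h.F_mono (k := q * J + 1) (q := K - (q * J + 1)) (by omega)
    rw [show q * J + 1 + (K - (q * J + 1)) = K by omega] at this
    exact this
  have h7 : 456 / 1000 * ε ^ 2 ≤ (1 / 2) ^ J * (51 / 100 * κ) := by nlinarith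
  have h8 : (2 : ℝ) ^ J * (456 / 1000 * ε ^ 2) ≤ 2 ^ J * ((1 / 2) ^ J * (51 / 100 * κ)) :=
    mul_le_mul_of_nonneg_left h7 (by positivity)
  have h9 : (2 : ℝ) ^ J * ((1 / 2) ^ J * (51 / 100 * κ)) = 51 / 100 * κ := by
    rw [← mul_assoc, ← mul_pow]; norm_num
  linarith

/-- doubling -/
theorem double {s : ℝ} (hs : 0 ≤ s)
    (hE : ∀ k j, k ≤ j → j ≤ K → ∀ ρ, 0 < ρ → ρ ^ 2 = 1 / V k →
      ε * F j ≤ ε * F k + 26 / 25 * (ρ * N j + s * ρ ^ 2)) {q : ℕ} (hq0 : 1 ≤ q)
    (hq : 562 ≤ (q : ℝ) ^ 3 * ε ^ 2) (hqs : 22 * s ≤ (q : ℝ) ^ 2 * ε)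
    {k : ℕ} (hk : k + 2 * q ≤ K) : 2 * V k ≤ V (k + 2 * q) := by
  by_contra hcon
  push Not at hcon
  have hε := h.hε
  have hVk := h.V_pos (show k ≤ K by omega)
  set ρ := Real.sqrt (1 / V k) with hρ
  have hρ0 : 0 < ρ := Real.sqrt_pos.mpr (by positivity)
  have hρ2 : ρ ^ 2 = 1 / V k := Real.sq_sqrt (by positivity)
  -- quadratic growth
  have hquad : ∀ j, 1 ≤ j → j ≤ 2 * q → 49 / 500 * (j : ℝ) ^ 2 * ρ ^ 2 ≤ F (k + j) - F k := by
    intro j hj1 hj
    have h1 := h.growth (k := k) (q := j) (by omega)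
    have h2 : V (k + j) ≤ V (k + 2 * q) := by
      have := h.V_mono (k := k + j) (q := 2 * q - j) (by omega)
      rw [show k + j + (2 * q - j) = k + 2 * q by omega] at this
      exact this
    have h3 : 0 ≤ F (k + j) - F k := by
      have := h.F_mono (k := k) (q := j) (by omega)
      linarith
    have h4 : (V (k + j) - V k) * (F (k + j) - F k) ≤ V k * (F (k + j) - F k) :=
      mul_le_mul_of_nonneg_right (by linarith) h3
    have h5 : 49 / 500 * (j : ℝ) ^ 2 * ρ ^ 2 ≤ (V k * (F (k + j) - F k)) * ρ ^ 2 :=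
      mul_le_mul_of_nonneg_right (by linarith) (by positivity)
    have h6 : (V k * (F (k + j) - F k)) * ρ ^ 2 = F (k + j) - F k := by
      rw [hρ2]; field_simp
    linarith
  have hq1 : (1 : ℝ) ≤ q := by exact_mod_cast hq0
  set a := ρ / ε with ha
  have ha0 : 0 < a := by positivity
  have haε : a * ε = ρ := by rw [ha]; field_simp
  -- lower bound for the residual
  have hN : ∀ j, q ≤ j → j ≤ 2 * q → F (k + j) - F k ≤ 52 / 25 * a * N (k + j) := by
    intro j hj1 hj
    have h1 := hE k (k + j) (by omega) (by omega) ρ hρ0 hρ2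
    have h2 := hquad j (by omega) hj
    have hjq : (q : ℝ) ≤ j := by exact_mod_cast hj1
    have h3 : 49 / 500 * (q : ℝ) ^ 2 * ρ ^ 2 ≤ F (k + j) - F k := by
      refine le_trans ?_ h2
      apply mul_le_mul_of_nonneg_right _ (by positivity)
      have : (q : ℝ) ^ 2 ≤ (j : ℝ) ^ 2 := pow_le_pow_left₀ (by positivity) hjq 2
      linarith
    have h4 : 49 / 500 * (22 * s) * ρ ^ 2 ≤ ε * (F (k + j) - F k) := by
      have e1 : 49 / 500 * (22 * s) * ρ ^ 2 ≤ 49 / 500 * ((q : ℝ) ^ 2 * ε) * ρ ^ 2 := by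
        apply mul_le_mul_of_nonneg_right _ (by positivity)
        linarith
      have e2 := mul_le_mul_of_nonneg_left h3 hε.le
      nlinarith
    have h5 : 0 ≤ s * ρ ^ 2 := by positivity
    have h6 : ε * (F (k + j) - F k) ≤ 52 / 25 * (ρ * N (k + j)) := by
      nlinarith
    have h7 : ε * (F (k + j) - F k) ≤ ε * (52 / 25 * a * N (k + j)) := by
      calc ε * (F (k + j) - F k) ≤ 52 / 25 * (ρ * N (k + j)) := h6
        _ = ε * (52 / 25 * a * N (k + j)) := by rw [← haε]; ring
    exact le_of_mul_le_mul_left h7 hε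
  -- growth of the energy
  have hpos : ∀ j, q ≤ j → j ≤ 2 * q → 0 < F (k + j) - F k := by
    intro j hj1 hj
    refine lt_of_lt_of_le ?_ (hquad j (by omega) hj)
    have : (0 : ℝ) < j := by
      have : 0 < j := by omega
      exact_mod_cast this
    positivity
  have hup : ∀ j, q ≤ j → j ≤ 2 * q → F (k + j) - F k ≤ 45 * a ^ 2 := by
    intro j hj1 hj
    have h1 := hN j hj1 hj
    have h2 := hpos j hj1 hj
    obtain ⟨i, rfl⟩ : ∃ i, j = i + 1 := ⟨j - 1, by omega⟩
    have h3 := h.inc (k + i) (by omega)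
    have h4 := h.τ5 (k + i) (by omega)
    have h5 := h.F_mono (k := k) (q := i) (by omega)
    rw [← add_assoc] at h1 h2 ⊢
    have h6 : 49 / 500 * N (k + i + 1) ^ 2 ≤ F (k + i + 1) - F k := by linarith
    have h7 : (F (k + i + 1) - F k) ^ 2 ≤ (52 / 25 * a * N (k + i + 1)) ^ 2 :=
      pow_le_pow_left₀ h2.le h1 2
    have h8 : (52 / 25 * a * N (k + i + 1)) ^ 2 = (52 / 25) ^ 2 * a ^ 2 * N (k + i + 1) ^ 2 := by
      ring
    have h9 : (F (k + i + 1) - F k) * (F (k + i + 1) - F k) ≤
        (F (k + i + 1) - F k) * (45 * a ^ 2) := by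
      have : a ^ 2 * N (k + i + 1) ^ 2 ≤ a ^ 2 * (500 / 49 * (F (k + i + 1) - F k)) := by
        apply mul_le_mul_of_nonneg_left _ (by positivity)
        linarith
      have h10 : 0 ≤ a ^ 2 * (F (k + i + 1) - F k) := by positivity
      nlinarith
    exact le_of_mul_le_mul_left h9 h2
  have hstep : ∀ j, q ≤ j → j < 2 * q →
      1 / (F (k + (j + 1)) - F k) ≤ 1 / (F (k + j) - F k) - 1 / (55 * a ^ 2) := by
    intro j hj1 hj
    have h1 := hN j hj1 hj.le
    have h2 := hpos j hj1 hj.le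
    have h2' := hpos (j + 1) (by omega) (by omega)
    have h3 := h.inc (k + j) (by omega)
    have h4 := h.τ1 (k + j) (by omega)
    have h5 := hup j hj1 hj.le
    have h6 : (F (k + j) - F k) ^ 2 ≤ 10 * a ^ 2 * (F (k + (j + 1)) - F (k + j)) := by
      have e1 : (F (k + j) - F k) ^ 2 ≤ (52 / 25 * a * N (k + j)) ^ 2 :=
        pow_le_pow_left₀ h2.le h1 2
      have e2 : (52 / 25 * a * N (k + j)) ^ 2 = a ^ 2 * ((52 / 25) ^ 2 * N (k + j) ^ 2) := by
        ring
      have e3 : (52 / 25) ^ 2 * N (k + j) ^ 2 ≤ 10 * (F (k + (j + 1)) - F (k + j)) := by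
        rw [← add_assoc]
        nlinarith
      have e4 := mul_le_mul_of_nonneg_left e3 (by positivity : 0 ≤ a ^ 2)
      linarith
    set e := F (k + j) - F k with he
    set e' := F (k + (j + 1)) - F k with he'
    have h7 : F (k + (j + 1)) - F (k + j) = e' - e := by rw [he, he']; ring
    rw [h7] at h6
    have h8 : 55 * a ^ 2 * e ≤ e' * (55 * a ^ 2 - e) := by
      have e1 : 0 ≤ 55 * a ^ 2 - e := by nlinarith [sq_nonneg a]
      have e2 : (10 * a ^ 2 * e + e ^ 2) * (55 * a ^ 2 - e) ≤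
          (10 * a ^ 2 * e') * (55 * a ^ 2 - e) := by
        apply mul_le_mul_of_nonneg_right _ e1
        nlinarith
      have e3 : 10 * a ^ 2 * (55 * a ^ 2 * e) ≤ (10 * a ^ 2 * e + e ^ 2) * (55 * a ^ 2 - e) := by
        have : 0 ≤ e ^ 2 * (45 * a ^ 2 - e) := mul_nonneg (by positivity) (by linarith)
        nlinarith
      have e4 : 10 * a ^ 2 * (55 * a ^ 2 * e) ≤ 10 * a ^ 2 * (e' * (55 * a ^ 2 - e)) := by
        linarith
      exact le_of_mul_le_mul_left e4 (by positivity)
    rw [div_sub_div _ _ h2.ne' (by positivity), div_le_div_iff₀ h2' (by positivity)]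
    linarith
  have hsum : ∀ i, i ≤ q →
      1 / (F (k + (q + i)) - F k) ≤ 1 / (F (k + q) - F k) - i / (55 * a ^ 2) := by
    intro i
    induction i with
    | zero => intro _; simp
    | succ i ih =>
      intro hi
      have h1 := ih (by omega)
      have h2 := hstep (q + i) (by omega) (by omega)
      rw [show k + (q + (i + 1)) = k + (q + i + 1) by ring]
      push_cast
      rw [add_div]
      linarith
  have h1 := hsum q (le_refl _)
  have h2 : 0 < 1 / (F (k + (q + q)) - F k) := by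
    have := hpos (q + q) (by omega) (by omega)
    positivity
  have h3 := hquad q hq0 (by omega)
  have h4 := hpos q (le_refl _) (by omega)
  have h5 : (q : ℝ) / (55 * a ^ 2) < 1 / (F (k + q) - F k) := by linarith
  rw [div_lt_div_iff₀ (by positivity) h4, one_mul] at h5
  have h6 : (q : ℝ) * (49 / 500 * (q : ℝ) ^ 2 * ρ ^ 2) < 55 * a ^ 2 :=
    lt_of_le_of_lt (mul_le_mul_of_nonneg_left h3 (by positivity)) h5
  have h7 : (q : ℝ) * (49 / 500 * (q : ℝ) ^ 2 * ρ ^ 2) =
      49 / 500 * ((q : ℝ) ^ 3 * ε ^ 2) * a ^ 2 := by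
    rw [← haε]; ring
  rw [h7] at h6
  have h8 : 49 / 500 * ((q : ℝ) ^ 3 * ε ^ 2) < 55 := lt_of_mul_lt_mul_right h6 (by positivity)
  linarith

/-- the infinite case -/
theorem inf_case {s : ℝ} (hs : 0 ≤ s) (hε1 : ε ≤ 1)
    (hE : ∀ k j, k ≤ j → j ≤ K → ∀ ρ, 0 < ρ → ρ ^ 2 = 1 / V k →
      ε * F j ≤ ε * F k + 26 / 25 * (ρ * N j + s * ρ ^ 2)) {q J : ℕ} (hq0 : 1 ≤ q)
    (hq : 562 ≤ (q : ℝ) ^ 3 * ε ^ 2) (hqs : 22 * s ≤ (q : ℝ) ^ 2 * ε)
    (hJ : (K + 1) * (100 / 98 * (1 / ε ^ 2)) < 2 ^ J) (hK : 2 * q * J ≤ K) : False := by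
  have hind : ∀ j : ℕ, 2 * q * j ≤ K → 2 ^ j ≤ V (2 * q * j) := by
    intro j
    induction j with
    | zero =>
      intro _
      rw [mul_zero, h.V0, pow_zero]
    | succ j ih =>
      intro hj
      have e1 : 2 * q * (j + 1) = 2 * q * j + 2 * q := by ring
      rw [e1] at hj ⊢
      have e2 := ih (by omega)
      have e3 := h.double hs hE hq0 hq hqs hj
      rw [pow_succ]
      linarith
  have h1 := hind J hK
  have h2 : V (2 * q * J) ≤ V K := by
    have := h.V_mono (k := 2 * q * J) (q := K - 2 * q * J) (by omega)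
    rw [show 2 * q * J + (K - 2 * q * J) = K by omega] at this
    exact this
  have h3 := h.V_le (le_refl K) hε1
  linarith

end Sc

end Pool.Agent.Lib.MP_02bbae_an
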