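import Mathlib
import Pool.Agent.Lib.MP_02bbae_an.SmoothScalar

/-!
# Stages: scalar estimates
-/

set_option autoImplicit false
set_option linter.unusedSectionVars false

open Finset

namespace Pool.Agent.Lib.MP_02bbae_an

/-- partial sums -/
noncomputable def fS (τ : ℕ → ℝ) (k : ℕ) : ℝ := ∑ j ∈ range k, τ j

theorem fS_succ (τ : ℕ → ℝ) (k : ℕ) : fS τ (k + 1) = fS τ k + τ k := by
  unfold fS; rw [sum_range_succ]

/-- the weights -/
noncomputable def om (N V : ℕ → ℝ) (k : ℕ) : ℝ := min (1 / N (k + 1) ^ 2) (V k)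

/-- the normalised step lengths -/
noncomputable def th (N V τ : ℕ → ℝ) (k : ℕ) : ℝ := Real.sqrt (τ k * om N V k)

/-- the scalar data -/
structure Sd (ε s : ℝ) (K : ℕ) (F N V τ : ℕ → ℝ) : Prop extends Sc ε K F N V τ where
  s0 : 0 ≤ s
  s2 : s ^ 2 = K + 1
  star : ∀ K1 ≤ K, 16 * V K1 ≤ V K →
    V K * ∑ k ∈ range K1, τ k * V k * (fS τ K1 - fS τ k) ≤ 4 * (K * (1 / ε ^ 2))
  any : ∀ k j, k ≤ j → j ≤ K → ∀ ρ, 0 < ρ → ρ ^ 2 = 1 / V k →
      ε * F j ≤ ε * F k + 26 / 25 * (ρ * N j + s * ρ ^ 2)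

namespace Sd

variable {ε s : ℝ} {K : ℕ} {F N V τ : ℕ → ℝ} (h : Sd ε s K F N V τ)
include h

theorem Vle {i j : ℕ} (hij : i ≤ j) (hj : j ≤ K) : V i ≤ V j := by
  obtain ⟨q, rfl⟩ := Nat.exists_eq_add_of_le hij
  exact h.V_mono hj

theorem fle {i j : ℕ} (hij : i ≤ j) (hj : j ≤ K) : fS τ i ≤ fS τ j := by
  obtain ⟨q, rfl⟩ := Nat.exists_eq_add_of_le hij
  induction q with
  | zero => simp
  | succ q ih =>
    have h1 := ih (by omega) (by omega)
    have h2 := h.τpos (show i + q < K by omega)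
    rw [← add_assoc, fS_succ]
    linarith

theorem Fle {i j : ℕ} (hij : i ≤ j) (hj : j ≤ K) :
    49 / 100 * (fS τ j - fS τ i) ≤ F j - F i := by
  obtain ⟨q, rfl⟩ := Nat.exists_eq_add_of_le hij
  induction q with
  | zero => simp
  | succ q ih =>
    have h1 := ih (by omega) (by omega)
    have h2 := h.inc (i + q) (by omega)
    rw [← add_assoc, fS_succ]
    linarith

theorem om_nonneg {k : ℕ} (hk : k < K) : 0 ≤ om N V k := by
  unfold om
  have := h.V_pos hk.le
  exact le_min (by positivity) this.le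

theorem th_sq {k : ℕ} (hk : k < K) : th N V τ k ^ 2 = τ k * om N V k := by
  unfold th
  exact Real.sq_sqrt (mul_nonneg (h.τpos hk).le (h.om_nonneg hk))

omit h in
theorem th_nonneg (k : ℕ) : 0 ≤ th N V τ k := Real.sqrt_nonneg _

/-- sum of the weights -/
theorem sum_om {j : ℕ} (q : ℕ) (hq : j + q < K) :
    ∑ k ∈ Ico j (j + q + 1), om N V k ≤ 2 * V (j + q) := by
  have h1 : ∀ q, j + q ≤ K → ∑ k ∈ Ico j (j + q), om N V k ≤ V (j + q) - V j := by
    intro q
    induction q with
    | zero => intro _; simp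
    | succ q ih =>
      intro hq
      have e1 := ih (by omega)
      have e2 := h.Vs (j + q) (by omega)
      have e3 : om N V (j + q) ≤ 1 / N (j + q + 1) ^ 2 := min_le_left _ _
      rw [← add_assoc, sum_Ico_succ_top (by omega), e2]
      linarith
  have h2 := h1 q hq.le
  have h3 : om N V (j + q) ≤ V (j + q) := min_le_right _ _
  have h4 := h.V_pos (show j ≤ K by omega)
  rw [sum_Ico_succ_top (by omega)]
  linarith

theorem sum_τ {j l : ℕ} (hjl : j ≤ l) : ∑ k ∈ Ico j l, τ k = fS τ l - fS τ j := by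
  unfold fS
  rw [sum_Ico_eq_sub _ hjl]

/-- Cauchy-Schwarz on a stage -/
theorem stage_sq {j l : ℕ} (hjl : j < l) (hl : l ≤ K) :
    (∑ k ∈ Ico j l, th N V τ k) ^ 2 ≤ 2 * V (l - 1) * (fS τ l - fS τ j) := by
  have h1 := sum_sq_le_sum_mul_sum_of_sq_le_mul (Ico j l) (r := th N V τ)
    (f := om N V) (g := τ)
    (fun i hi => h.om_nonneg (by simp at hi; omega))
    (fun i hi => (h.τpos (by simp at hi; omega)).le)
    (fun i hi => by rw [h.th_sq (by simp at hi; omega)]; exact le_of_eq (mul_comm _ _))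
  have h2 := h.sum_om (j := j) (l - 1 - j) (by omega)
  rw [show j + (l - 1 - j) + 1 = l by omega, show j + (l - 1 - j) = l - 1 by omega] at h2
  rw [h.sum_τ hjl.le] at h1
  refine le_trans h1 ?_
  apply mul_le_mul_of_nonneg_right h2
  have := h.fle hjl.le hl
  linarith

/-- a stage in the finite case -/
theorem stage_κ {κ : ℝ} (hE : ∀ k ≤ K, F K ≤ F k + 51 / 100 * κ * (1 / V k))
    {j l : ℕ} (hjl : j < l) (hl : l ≤ K) (hV : V (l - 1) ≤ 16 * V j) :
    ∑ k ∈ Ico j l, th N V τ k ≤ Real.sqrt (34 * κ) := by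
  apply Real.le_sqrt_of_sq_le
  have h1 := h.stage_sq hjl hl
  have h2 := h.Fle (show j ≤ K by omega) (le_refl K)
  have h3 := hE j (by omega)
  have h4 := h.fle hl (le_refl K)
  have h5 := h.fle hjl.le hl
  have hVj := h.V_pos (show j ≤ K by omega)
  have h6 : 49 / 100 * (fS τ l - fS τ j) ≤ 51 / 100 * κ * (1 / V j) := by linarith
  have h7 : V j * (49 / 100 * (fS τ l - fS τ j)) ≤ V j * (51 / 100 * κ * (1 / V j)) :=
    mul_le_mul_of_nonneg_left h6 hVj.le
  have h8 : V j * (51 / 100 * κ * (1 / V j)) = 51 / 100 * κ := by field_simp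
  have h9 : 2 * V (l - 1) * (fS τ l - fS τ j) ≤ 2 * (16 * V j) * (fS τ l - fS τ j) := by
    apply mul_le_mul_of_nonneg_right _ (by linarith)
    linarith
  have h10 : 0 ≤ V j * (fS τ l - fS τ j) := mul_nonneg hVj.le (by linarith)
  linarith

/-- a stage in the low range -/
theorem stage_low {R : ℝ} (hR0 : 0 ≤ R) (hR : R ^ 4 = K * (1 / ε ^ 2))
    {j l a : ℕ} (hjl : j < l) (hl : l ≤ K) (hV : V (l - 1) ≤ 16 * V j) (hlV : 16 * V l ≤ V K)
    (ha : 16 ^ a * V (l - 1) ≤ V K) :
    2 ^ a * ∑ k ∈ Ico j l, th N V τ k ≤ 24 / 5 * R := by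
  have h1 := h.stage_sq hjl hl
  have h2 := h.star l hl hlV
  have hVK := h.V_pos (le_refl K)
  have hVj := h.V_pos (show j ≤ K by omega)
  have hVl := h.V_pos (show l - 1 ≤ K by omega)
  have hS0 : 0 ≤ fS τ l - fS τ j := by
    have := h.fle hjl.le hl
    linarith
  set S := fS τ l - fS τ j with hS
  set Θ := ∑ k ∈ Ico j l, th N V τ k with hΘ
  have hΘ0 : 0 ≤ Θ := sum_nonneg fun k _ => th_nonneg k
  -- the quadratic sum
  have h3 : ∀ q, j + q ≤ l → 1 / 2 * (S ^ 2 - (fS τ l - fS τ (j + q)) ^ 2) ≤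
      ∑ k ∈ Ico j (j + q), τ k * (fS τ l - fS τ k) := by
    intro q
    induction q with
    | zero => intro _; simp [hS]
    | succ q ih =>
      intro hq
      have e1 := ih (by omega)
      rw [← add_assoc, sum_Ico_succ_top (by omega), fS_succ]
      nlinarith [sq_nonneg (τ (j + q))]
  have h4 := h3 (l - j) (by omega)
  rw [show j + (l - j) = l by omega, sub_self] at h4
  have h5 : V j * ∑ k ∈ Ico j l, τ k * (fS τ l - fS τ k) ≤
      ∑ k ∈ range l, τ k * V k * (fS τ l - fS τ k) := by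
    have e1 : V j * ∑ k ∈ Ico j l, τ k * (fS τ l - fS τ k) ≤
        ∑ k ∈ Ico j l, τ k * V k * (fS τ l - fS τ k) := by
      rw [mul_sum]
      apply sum_le_sum
      intro k hk
      have hk' := mem_Ico.mp hk
      have f1 := h.Vle hk'.1 (show k ≤ K by omega)
      have f2 := h.τpos (show k < K by omega)
      have f3 := h.fle hk'.2.le hl
      have f4 : 0 ≤ τ k * (fS τ l - fS τ k) := mul_nonneg f2.le (by linarith)
      have f5 := mul_le_mul_of_nonneg_right f1 f4
      linarith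
    refine le_trans e1 ?_
    apply sum_le_sum_of_subset_of_nonneg
    · intro i hi
      simp only [mem_range, mem_Ico] at hi ⊢
      omega
    · intro k hk _
      have hk' := mem_range.mp hk
      have f2 := h.τpos (show k < K by omega)
      have f3 := h.fle hk'.le hl
      have f4 := h.V_pos (show k ≤ K by omega)
      apply mul_nonneg (mul_nonneg f2.le f4.le) (by linarith)
  have h6 : V K * (V j * (1 / 2 * S ^ 2)) ≤ 4 * R ^ 4 := by
    rw [hR]
    refine le_trans ?_ h2
    apply mul_le_mul_of_nonneg_left _ hVK.le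
    refine le_trans ?_ h5
    apply mul_le_mul_of_nonneg_left _ hVj.le
    linarith
  -- the fourth power
  have h7 : Θ ^ 4 ≤ (2 * V (l - 1) * S) ^ 2 := by
    have e1 : Θ ^ 4 = (Θ ^ 2) ^ 2 := by ring
    rw [e1]
    exact pow_le_pow_left₀ (by positivity) h1 2
  have h8 : V K * Θ ^ 4 ≤ 512 * (V (l - 1) * R ^ 4) := by
    have e1 : V K * Θ ^ 4 ≤ V K * (2 * V (l - 1) * S) ^ 2 := mul_le_mul_of_nonneg_left h7 hVK.le
    have e2 : V K * (2 * V (l - 1) * S) ^ 2 = (4 * V (l - 1)) * (V K * (V (l - 1) * S ^ 2)) := by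
      ring
    have e3 : V K * (V (l - 1) * S ^ 2) ≤ V K * (16 * V j * S ^ 2) := by
      apply mul_le_mul_of_nonneg_left _ hVK.le
      exact mul_le_mul_of_nonneg_right hV (by positivity)
    have e4 : V K * (16 * V j * S ^ 2) = 32 * (V K * (V j * (1 / 2 * S ^ 2))) := by ring
    have e5 : V K * (V (l - 1) * S ^ 2) ≤ 128 * R ^ 4 := by linarith
    have e6 : (4 * V (l - 1)) * (V K * (V (l - 1) * S ^ 2)) ≤ (4 * V (l - 1)) * (128 * R ^ 4) :=
      mul_le_mul_of_nonneg_left e5 (by positivity)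
    linarith
  have h9 : V K * (16 ^ a * Θ ^ 4) ≤ V K * (512 * R ^ 4) := by
    have e1 : (16 : ℝ) ^ a * (V K * Θ ^ 4) ≤ 16 ^ a * (512 * (V (l - 1) * R ^ 4)) :=
      mul_le_mul_of_nonneg_left h8 (by positivity)
    have e2 : (512 * R ^ 4) * (16 ^ a * V (l - 1)) ≤ (512 * R ^ 4) * V K :=
      mul_le_mul_of_nonneg_left ha (by positivity)
    linarith
  have h10 := le_of_mul_le_mul_left h9 hVK
  have h11 : (2 ^ a * Θ) ^ 4 ≤ (24 / 5 * R) ^ 4 := by
    have e1 : (2 ^ a * Θ) ^ 4 = 16 ^ a * Θ ^ 4 := by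
      rw [mul_pow, ← pow_mul, mul_comm a 4, pow_mul]; norm_num
    rw [e1]
    refine le_trans h10 ?_
    rw [mul_pow]
    apply mul_le_mul_of_nonneg_right (by norm_num) (by positivity)
  exact le_of_pow_le_pow_left₀ (by norm_num) (by positivity) h11

/-- a general stage -/
theorem stage_any {R : ℝ} (hR0 : 0 ≤ R) (hR : R ^ 4 = K * (1 / ε ^ 2)) (hK : 1 ≤ K)
    {j l : ℕ} (hjl : j < l) (hl : l ≤ K) (hV : V (l - 1) ≤ 16 * V j) :
    ∑ k ∈ Ico j l, th N V τ k ≤ 18 * R := by
  have hε := h.hε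
  have hVj := h.V_pos (show j ≤ K by omega)
  have hs0 := h.s0
  have hs2 := h.s2
  have hK1 : (1 : ℝ) ≤ K := by exact_mod_cast hK
  have hs1 : 1 ≤ s := by nlinarith
  set v := V j with hv
  set B := 9 / 2 * (s / (ε * v)) with hB
  have hB0 : 0 < B := by positivity
  set ρ := Real.sqrt (1 / v) with hρ
  have hρ0 : 0 < ρ := Real.sqrt_pos.mpr (by positivity)
  have hρ2 : ρ ^ 2 = 1 / v := Real.sq_sqrt (by positivity)
  set g : ℕ → ℝ := fun k => fS τ k - fS τ j with hg
  have hgs : ∀ k, g (k + 1) = g k + τ k := by intro k; simp only [hg]; rw [fS_succ]; ring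
  have hg0 : ∀ k, j ≤ k → k ≤ K → 0 ≤ g k := by
    intro k h1 h2
    have := h.fle h1 h2
    simp only [hg]; linarith
  -- the parts
  have hpart1 : ∀ q, j + q ≤ l → ∑ k ∈ (Ico j (j + q)).filter (fun k => g (k + 1) ≤ B), τ k ≤
      min (g (j + q)) B := by
    intro q
    induction q with
    | zero => intro _; simp [hg, hB0.le]
    | succ q ih =>
      intro hq
      have e1 := ih (by omega)
      have e2 := h.τpos (show j + q < K by omega)
      have e3 := hgs (j + q)
      rw [← add_assoc, ← Finset.insert_Ico_right_eq_Ico_add_one (show j ≤ j + q by omega), filter_insert]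
      obtain ⟨e4, e5⟩ := le_min_iff.mp e1
      split_ifs with hc
      · rw [sum_insert (by simp)]
        apply le_min <;> linarith
      · apply le_min <;> linarith
  have hpart2 : ∀ q, j + q ≤ l →
      (g (j + q) ≤ B → ∑ k ∈ (Ico j (j + q)).filter (fun k => ¬ g (k + 1) ≤ B),
        τ k / g (k + 1) ^ 2 ≤ 0) ∧
      (B < g (j + q) → ∑ k ∈ (Ico j (j + q)).filter (fun k => ¬ g (k + 1) ≤ B),
        τ k / g (k + 1) ^ 2 ≤ 2 / B - 1 / g (j + q)) := by
    intro q
    induction q with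
    | zero => intro _; simp [hg]; intro h1; linarith
    | succ q ih =>
      intro hq
      obtain ⟨e1, e1'⟩ := ih (by omega)
      have e2 := h.τpos (show j + q < K by omega)
      have e3 := hgs (j + q)
      have e4 := hg0 (j + q) (by omega) (by omega)
      rw [← add_assoc, ← Finset.insert_Ico_right_eq_Ico_add_one (show j ≤ j + q by omega), filter_insert]
      split_ifs with hc
      · refine ⟨fun _ => e1 (by linarith), fun h1 => absurd hc (not_le.mpr h1)⟩
      · refine ⟨fun h1 => absurd h1 hc, fun h1 => ?_⟩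
        rw [sum_insert (by simp)]
        have hy : 0 < g (j + q + 1) := lt_trans hB0 h1
        rcases le_or_gt (g (j + q)) B with h2 | h2
        · have e5 := e1 h2
          have e6 : τ (j + q) / g (j + q + 1) ^ 2 ≤ 1 / g (j + q + 1) := by
            rw [div_le_div_iff₀ (by positivity) hy]
            nlinarith
          have e7 : 1 / g (j + q + 1) ≤ 1 / B := one_div_le_one_div_of_le hB0 h1.le
          have e8 : 2 / B = 1 / B + 1 / B := by ring
          linarith
        · have e5 := e1' h2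
          have hx : 0 < g (j + q) := lt_trans hB0 h2
          have e6 : τ (j + q) / g (j + q + 1) ^ 2 ≤ 1 / g (j + q) - 1 / g (j + q + 1) := by
            rw [div_sub_div _ _ hx.ne' hy.ne', div_le_div_iff₀ (by positivity) (by positivity)]
            have : τ (j + q) = g (j + q + 1) - g (j + q) := by linarith
            rw [this]
            have f1 : 0 ≤ (g (j + q + 1) - g (j + q)) := by linarith
            have f2 : (g (j + q + 1) - g (j + q)) * (g (j + q) * g (j + q + 1)) ≤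
                (g (j + q + 1) - g (j + q)) * (g (j + q + 1) * g (j + q + 1)) := by
              apply mul_le_mul_of_nonneg_left _ f1
              apply mul_le_mul_of_nonneg_right _ hy.le
              linarith
            nlinarith
          linarith
  have h1 := hpart1 (l - j) (by omega)
  obtain ⟨h2, h2'⟩ := hpart2 (l - j) (by omega)
  rw [show j + (l - j) = l by omega] at h1 h2 h2'
  have h3 : ∑ k ∈ (Ico j l).filter (fun k => ¬ g (k + 1) ≤ B), τ k / g (k + 1) ^ 2 ≤ 2 / B := by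
    rcases le_or_gt (g l) B with h4 | h4
    · exact le_trans (h2 h4) (by positivity)
    · have := h2' h4
      have h5 : 0 < 1 / g l := by have := lt_trans hB0 h4; positivity
      linarith
  -- squares of R
  have hsR : s / ε ≤ 3 / 2 * R ^ 2 := by
    apply le_of_sq_le_sq _ (by positivity)
    have e1 : (s / ε) ^ 2 = (K + 1) * (1 / ε ^ 2) := by rw [div_pow, hs2]; ring
    have e2 : (3 / 2 * R ^ 2) ^ 2 = 9 / 4 * (K * (1 / ε ^ 2)) := by rw [← hR]; ring
    rw [e1, e2]
    have : 0 ≤ 1 / ε ^ 2 := by positivity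
    nlinarith
  have hKR : K / (s * ε) ≤ R ^ 2 := by
    apply le_of_sq_le_sq _ (by positivity)
    have e1 : (K / (s * ε)) ^ 2 = K * (1 / ε ^ 2) * (K / s ^ 2) := by
      rw [div_pow, mul_pow]; field_simp
    have e2 : (R ^ 2) ^ 2 = K * (1 / ε ^ 2) * 1 := by rw [mul_one, ← hR]; ring
    rw [e1, e2]
    apply mul_le_mul_of_nonneg_left _ (by positivity)
    rw [div_le_one (by positivity), hs2]
    linarith
  -- first part
  have hfirst : ∑ k ∈ (Ico j l).filter (fun k => g (k + 1) ≤ B), th N V τ k ≤ 15 * R := by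
    have e1 := sum_sq_le_sum_mul_sum_of_sq_le_mul ((Ico j l).filter (fun k => g (k + 1) ≤ B))
      (r := th N V τ) (f := om N V) (g := τ)
      (fun i hi => h.om_nonneg (by simp at hi; omega))
      (fun i hi => (h.τpos (by simp at hi; omega)).le)
      (fun i hi => by rw [h.th_sq (by simp at hi; omega)]; exact le_of_eq (mul_comm _ _))
    have e2 : ∑ k ∈ (Ico j l).filter (fun k => g (k + 1) ≤ B), om N V k ≤
        ∑ k ∈ Ico j l, om N V k := by
      apply sum_le_sum_of_subset_of_nonneg (filter_subset _ _)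
      intro i hi _
      exact h.om_nonneg (by simp at hi; omega)
    have e3 := h.sum_om (j := j) (l - 1 - j) (by omega)
    rw [show j + (l - 1 - j) + 1 = l by omega, show j + (l - 1 - j) = l - 1 by omega] at e3
    have e4 : ∑ k ∈ (Ico j l).filter (fun k => g (k + 1) ≤ B), om N V k ≤ 32 * v := by linarith
    have e5 : ∑ k ∈ (Ico j l).filter (fun k => g (k + 1) ≤ B), τ k ≤ B :=
      le_trans h1 (min_le_right _ _)
    have e6 : 0 ≤ ∑ k ∈ (Ico j l).filter (fun k => g (k + 1) ≤ B), τ k :=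
      sum_nonneg fun i hi => (h.τpos (by simp at hi; omega)).le
    have e7 := mul_le_mul e4 e5 e6 (by positivity)
    have e8 : 32 * v * B = 144 * (s / ε) := by rw [hB]; field_simp; norm_num
    apply le_of_sq_le_sq _ (by positivity)
    refine le_trans e1 ?_
    rw [e8] at e7
    nlinarith
  -- second part
  have hN : ∀ k ∈ (Ico j l).filter (fun k => ¬ g (k + 1) ≤ B), th N V τ k ^ 2 ≤
      17 / (ε ^ 2 * v) * (τ k / g (k + 1) ^ 2) := by
    intro k hk
    rw [mem_filter, mem_Ico] at hk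
    obtain ⟨⟨hk1, hk2⟩, hk3⟩ := hk
    push Not at hk3
    have hgk : 0 < g (k + 1) := lt_trans hB0 hk3
    have e1 := h.any j (k + 1) (by omega) (by omega) ρ hρ0 hρ2
    have e2 := h.Fle (show j ≤ k + 1 by omega) (show k + 1 ≤ K by omega)
    have e3 : 49 / 100 * (ε * g (k + 1)) ≤ 26 / 25 * (ρ * N (k + 1) + s * ρ ^ 2) := by
      have := mul_le_mul_of_nonneg_left e2 hε.le
      simp only [hg]
      linarith
    have e4 : s * ρ ^ 2 ≤ 2 / 9 * (ε * g (k + 1)) := by
      have f1 : s * ρ ^ 2 = 2 / 9 * (ε * B) := by rw [hρ2, hB]; field_simp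
      rw [f1]
      have := mul_le_mul_of_nonneg_left hk3.le hε.le
      linarith
    have e5 : 248 / 1000 * (ε * g (k + 1)) ≤ ρ * N (k + 1) := by
      have : 0 < ε * g (k + 1) := by positivity
      linarith
    have hNk := h.Npos (show k + 1 ≤ K by omega)
    have e6 : (248 / 1000 * (ε * g (k + 1))) ^ 2 ≤ (ρ * N (k + 1)) ^ 2 :=
      pow_le_pow_left₀ (by positivity) e5 2
    have e7 : (ρ * N (k + 1)) ^ 2 = N (k + 1) ^ 2 / v := by rw [mul_pow, hρ2]; ring
    rw [e7, le_div_iff₀ hVj] at e6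
    rw [h.th_sq (by omega)]
    have e8 : om N V k ≤ 1 / N (k + 1) ^ 2 := min_le_left _ _
    have e9 : 1 / N (k + 1) ^ 2 ≤ 17 / (ε ^ 2 * v) * (1 / g (k + 1) ^ 2) := by
      rw [div_mul_div_comm, div_le_div_iff₀ (by positivity) (by positivity)]
      have f1 : 0 < ε ^ 2 * v * g (k + 1) ^ 2 := by positivity
      nlinarith
    have hτk := h.τpos (show k < K by omega)
    calc τ k * om N V k ≤ τ k * (17 / (ε ^ 2 * v) * (1 / g (k + 1) ^ 2)) :=
          mul_le_mul_of_nonneg_left (le_trans e8 e9) hτk.le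
      _ = _ := by ring
  have hsecond : ∑ k ∈ (Ico j l).filter (fun k => ¬ g (k + 1) ≤ B), th N V τ k ≤ 3 * R := by
    have e1 := sq_sum_le_card_mul_sum_sq (s := (Ico j l).filter (fun k => ¬ g (k + 1) ≤ B))
      (f := th N V τ)
    have e2 : (((Ico j l).filter (fun k => ¬ g (k + 1) ≤ B)).card : ℝ) ≤ K := by
      have f1 := card_filter_le (Ico j l) (fun k => ¬ g (k + 1) ≤ B)
      rw [Nat.card_Ico] at f1
      exact_mod_cast (show ((Ico j l).filter (fun k => ¬ g (k + 1) ≤ B)).card ≤ K by omega)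
    have e3 := sum_le_sum hN
    rw [← mul_sum] at e3
    have e4 : 17 / (ε ^ 2 * v) * ∑ k ∈ (Ico j l).filter (fun k => ¬ g (k + 1) ≤ B),
        τ k / g (k + 1) ^ 2 ≤ 17 / (ε ^ 2 * v) * (2 / B) :=
      mul_le_mul_of_nonneg_left h3 (by positivity)
    have e5 : 17 / (ε ^ 2 * v) * (2 / B) = 68 / 9 * (1 / (s * ε)) := by
      rw [hB]; field_simp; norm_num
    have e6 : 0 ≤ ∑ k ∈ (Ico j l).filter (fun k => ¬ g (k + 1) ≤ B), th N V τ k ^ 2 :=
      sum_nonneg fun _ _ => by positivity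
    have e7 := mul_le_mul e2 (le_trans e3 (le_trans e4 (le_of_eq e5))) e6 (by positivity)
    apply le_of_sq_le_sq _ (by positivity)
    refine le_trans e1 (le_trans e7 ?_)
    have e8 : (K : ℝ) * (68 / 9 * (1 / (s * ε))) = 68 / 9 * (K / (s * ε)) := by ring
    rw [e8]
    nlinarith [sq_nonneg R]
  have hsplit := sum_filter_add_sum_filter_not (Ico j l) (fun k => g (k + 1) ≤ B) (th N V τ)
  linarith

/-- the beginning of a stage -/
theorem exists_stage {l : ℕ} (hl1 : 1 ≤ l) (hl : l ≤ K) :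
    ∃ j < l, V (l - 1) ≤ 16 * V j ∧ (1 ≤ j → 16 * V (j - 1) ≤ V (l - 1)) := by
  classical
  have hex : ∃ j, V (l - 1) ≤ 16 * V j := ⟨l - 1, by
    have := h.V_pos (show l - 1 ≤ K by omega)
    linarith⟩
  refine ⟨Nat.find hex, ?_, Nat.find_spec hex, ?_⟩
  · have h1 : Nat.find hex ≤ l - 1 := Nat.find_min' hex (by
      have := h.V_pos (show l - 1 ≤ K by omega)
      linarith)
    omega
  · intro h1
    have h2 := Nat.find_min hex (m := Nat.find hex - 1) (by omega)
    push Not at h2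
    exact h2.le

/-- the low range -/
theorem low_R {R : ℝ} (hR0 : 0 ≤ R) (hR : R ^ 4 = K * (1 / ε ^ 2)) :
    ∀ l, 1 ≤ l → l ≤ K → 16 * V l ≤ V K → ∀ a : ℕ, 16 ^ a * V (l - 1) ≤ V K →
      2 ^ a * ∑ k ∈ range l, th N V τ k ≤ 48 / 5 * R := by
  intro l
  induction l using Nat.strong_induction_on with
  | _ l ih =>
    intro hl1 hl hlV a ha
    obtain ⟨j, hjl, hj1, hj2⟩ := h.exists_stage hl1 hl
    have h1 := h.stage_low hR0 hR hjl hl hj1 hlV ha
    rcases Nat.eq_zero_or_pos j with h0 | h0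
    · subst h0
      rw [range_eq_Ico]
      linarith
    · have h2 := hj2 h0
      have h3 : (16 : ℝ) ^ (a + 1) * V (j - 1) ≤ V K := by
        refine le_trans ?_ ha
        rw [pow_succ, mul_assoc]
        exact mul_le_mul_of_nonneg_left h2 (by positivity)
      have hVj := h.Vle hjl.le hl
      have h4 := ih j hjl h0 (by omega) (by linarith) (a + 1) h3
      have h5 : ∑ k ∈ range l, th N V τ k = ∑ k ∈ range j, th N V τ k +
          ∑ k ∈ Ico j l, th N V τ k := (sum_range_add_sum_Ico _ hjl.le).symm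
      rw [h5, mul_add]
      rw [pow_succ] at h4
      linarith

theorem low_κ {R κ : ℝ} (hR0 : 0 ≤ R) (hR : R ^ 4 = K * (1 / ε ^ 2))
    (hE : ∀ k ≤ K, F K ≤ F k + 51 / 100 * κ * (1 / V k)) (i : ℕ) :
    ∀ l, 1 ≤ l → l ≤ K → 16 * V l ≤ V K → ∀ a : ℕ, 16 ^ a * V (l - 1) ≤ V K →
      2 ^ (a + i) * (∑ k ∈ range l, th N V τ k - i * Real.sqrt (34 * κ)) ≤ 48 / 5 * R := by
  induction i with
  | zero =>
    intro l hl1 hl hlV a ha
    have := h.low_R hR0 hR l hl1 hl hlV a ha
    simpa using this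
  | succ i ih =>
    intro l hl1 hl hlV a ha
    obtain ⟨j, hjl, hj1, hj2⟩ := h.exists_stage hl1 hl
    have h1 := h.stage_κ hE hjl hl hj1
    have hs0 := Real.sqrt_nonneg (34 * κ)
    rcases Nat.eq_zero_or_pos j with h0 | h0
    · subst h0
      rw [range_eq_Ico]
      have e1 : ∑ k ∈ Ico 0 l, th N V τ k - ((i + 1 : ℕ) : ℝ) * Real.sqrt (34 * κ) ≤ 0 := by
        push_cast
        have : 0 ≤ (i : ℝ) * Real.sqrt (34 * κ) := by positivity
        linarith
      have e2 := mul_nonpos_of_nonneg_of_nonpos (show (0 : ℝ) ≤ 2 ^ (a + (i + 1)) by positivity) e1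
      linarith
    · have h2 := hj2 h0
      have h3 : (16 : ℝ) ^ (a + 1) * V (j - 1) ≤ V K := by
        refine le_trans ?_ ha
        rw [pow_succ, mul_assoc]
        exact mul_le_mul_of_nonneg_left h2 (by positivity)
      have hVj := h.Vle hjl.le hl
      have h4 := ih j h0 (by omega) (by linarith) (a + 1) h3
      have h5 : ∑ k ∈ range l, th N V τ k = ∑ k ∈ range j, th N V τ k +
          ∑ k ∈ Ico j l, th N V τ k := (sum_range_add_sum_Ico _ hjl.le).symm
      rw [show a + (i + 1) = a + 1 + i by ring]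
      refine le_trans ?_ h4
      apply mul_le_mul_of_nonneg_left _ (by positivity)
      rw [h5]
      push_cast
      linarith

/-- the top -/
theorem exists_top : ∃ j ≤ K, V K ≤ 16 * V j ∧ ∀ i < j, 16 * V i ≤ V K := by
  classical
  have hVK := h.V_pos (le_refl K)
  have hex : ∃ j, V K ≤ 16 * V j := ⟨K, by linarith⟩
  refine ⟨Nat.find hex, Nat.find_min' hex (by linarith), Nat.find_spec hex, ?_⟩
  intro i hi
  have h2 := Nat.find_min hex hi
  push Not at h2
  exact h2.le

/-- the total: general case -/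
theorem total_R {R : ℝ} (hR0 : 0 ≤ R) (hR : R ^ 4 = K * (1 / ε ^ 2)) :
    ∑ k ∈ range K, th N V τ k ≤ 41 * R := by
  obtain ⟨j, hjK, hj1, hj2⟩ := h.exists_top
  have htop : ∑ k ∈ Ico j K, th N V τ k ≤ 18 * R := by
    rcases Nat.eq_or_lt_of_le hjK with h0 | h0
    · subst h0; simp; exact hR0
    · apply h.stage_any hR0 hR (by omega) h0 (le_refl K)
      have := h.Vle (show K - 1 ≤ K by omega) (le_refl K)
      linarith
  have h5 : ∑ k ∈ range K, th N V τ k = ∑ k ∈ range j, th N V τ k +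
      ∑ k ∈ Ico j K, th N V τ k := (sum_range_add_sum_Ico _ hjK).symm
  rw [h5]
  rcases Nat.eq_zero_or_pos j with h0 | h0
  · subst h0; simp at htop ⊢; linarith
  · obtain ⟨i, rfl⟩ : ∃ i, j = i + 1 := ⟨j - 1, by omega⟩
    have h6 := hj2 i (Nat.lt_succ_self i)
    have h7 : ∑ k ∈ Ico i (i + 1), th N V τ k ≤ 18 * R := by
      apply h.stage_any hR0 hR (by omega) (Nat.lt_succ_self i) hjK
      have e0 : i + 1 - 1 = i := by omega
      have := h.V_pos (show i ≤ K by omega)
      rw [e0]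
      linarith
    rw [sum_Ico_succ_top (le_refl _), Ico_self, sum_empty, zero_add] at h7
    rw [sum_range_succ]
    rcases Nat.eq_zero_or_pos i with h8 | h8
    · subst h8
      rw [range_zero, sum_empty]
      linarith
    · have h9 := h.low_R hR0 hR i h8 (by omega) h6 1 (by
        have := h.Vle (show i - 1 ≤ i by omega) (show i ≤ K by omega)
        linarith)
      linarith

/-- the total: finite case -/
theorem total_κ {R κ : ℝ} (hR0 : 0 ≤ R) (hR : R ^ 4 = K * (1 / ε ^ 2))
    (hE : ∀ k ≤ K, F K ≤ F k + 51 / 100 * κ * (1 / V k)) (i : ℕ) :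
    ∑ k ∈ range K, th N V τ k ≤ (i + 2) * Real.sqrt (34 * κ) + 24 / 5 * (R / 2 ^ i) := by
  obtain ⟨j, hjK, hj1, hj2⟩ := h.exists_top
  have hs0 := Real.sqrt_nonneg (34 * κ)
  have hi0 : 0 ≤ (i : ℝ) * Real.sqrt (34 * κ) := by positivity
  have hR2 : 0 ≤ R / 2 ^ i := by positivity
  have htop : ∑ k ∈ Ico j K, th N V τ k ≤ Real.sqrt (34 * κ) := by
    rcases Nat.eq_or_lt_of_le hjK with h0 | h0
    · subst h0; simp
    · apply h.stage_κ hE h0 (le_refl K)
      have := h.Vle (show K - 1 ≤ K by omega) (le_refl K)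
      linarith
  have h5 : ∑ k ∈ range K, th N V τ k = ∑ k ∈ range j, th N V τ k +
      ∑ k ∈ Ico j K, th N V τ k := (sum_range_add_sum_Ico _ hjK).symm
  rw [h5]
  rcases Nat.eq_zero_or_pos j with h0 | h0
  · subst h0; rw [range_zero, sum_empty]; linarith
  · obtain ⟨i', rfl⟩ : ∃ i, j = i + 1 := ⟨j - 1, by omega⟩
    have h6 := hj2 i' (Nat.lt_succ_self i')
    have h7 : ∑ k ∈ Ico i' (i' + 1), th N V τ k ≤ Real.sqrt (34 * κ) := by
      apply h.stage_κ hE (Nat.lt_succ_self i') hjK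
      have e0 : i' + 1 - 1 = i' := by omega
      have := h.V_pos (show i' ≤ K by omega)
      rw [e0]
      linarith
    rw [sum_Ico_succ_top (le_refl _), Ico_self, sum_empty, zero_add] at h7
    rw [sum_range_succ]
    rcases Nat.eq_zero_or_pos i' with h8 | h8
    · subst h8
      rw [range_zero, sum_empty]
      linarith
    · have h9 := h.low_κ hR0 hR hE i i' h8 (by omega) h6 1 (by
        have := h.Vle (show i' - 1 ≤ i' by omega) (show i' ≤ K by omega)
        linarith)
      have h10 : ∑ k ∈ range i', th N V τ k - i * Real.sqrt (34 * κ) ≤ 24 / 5 * (R / 2 ^ i) := by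
        rw [pow_add, pow_one] at h9
        rw [mul_div_assoc', le_div_iff₀ (by positivity)]
        linarith
      linarith

end Sd

end Pool.Agent.Lib.MP_02bbae_an
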