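import Mathlib
import Pool.Agent.Lib.MP_02bbae_an.LargeUpper
import Pool.Agent.Lib.MP_02bbae_an.Recursion

/-!
# Residual smoothing of the perturbed recurrences
-/

set_option autoImplicit false
set_option linter.unusedSectionVars false

open scoped InnerProductSpace RealInnerProductSpace
open Finset

namespace Pool.Agent.Lib.MP_02bbae_an

variable {E : Type*} [NormedAddCommGroup E] [InnerProductSpace ℝ E]

/-- `Σ_{i ≤ k} 1 / ‖r i‖²` -/
noncomputable def Vk (r : ℕ → E) (k : ℕ) : ℝ := ∑ i ∈ range (k + 1), 1 / ‖r i‖ ^ 2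

/-- `Σ_{i ≤ k} x i / ‖r i‖²` -/
noncomputable def Yk (r x : ℕ → E) (k : ℕ) : E := ∑ i ∈ range (k + 1), (1 / ‖r i‖ ^ 2) • x i

theorem Vk_succ (r : ℕ → E) (k : ℕ) : Vk r (k + 1) = Vk r k + 1 / ‖r (k + 1)‖ ^ 2 := by
  unfold Vk; rw [sum_range_succ]

theorem Vk_zero (r : ℕ → E) : Vk r 0 = 1 / ‖r 0‖ ^ 2 := by
  unfold Vk; simp

theorem Yk_succ (r x : ℕ → E) (k : ℕ) :
    Yk r x (k + 1) = Yk r x k + (1 / ‖r (k + 1)‖ ^ 2) • x (k + 1) := by
  unfold Yk; rw [sum_range_succ]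

theorem Yk_zero (r x : ℕ → E) : Yk r x 0 = (1 / ‖r 0‖ ^ 2) • x 0 := by
  unfold Yk; simp

theorem Vk_nonneg (r : ℕ → E) (k : ℕ) : 0 ≤ Vk r k := sum_nonneg fun _ _ => by positivity

theorem Vk_mono {r : ℕ → E} {j k : ℕ} (h : j ≤ k) : Vk r j ≤ Vk r k := by
  unfold Vk
  apply sum_le_sum_of_subset_of_nonneg
  · intro i hi
    simp only [mem_range] at hi ⊢
    omega
  · intro i _ _
    positivity

theorem Vk_pos {r : ℕ → E} {k : ℕ} (h : 0 < ‖r 0‖) : 0 < Vk r k := by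
  refine lt_of_lt_of_le ?_ (Vk_mono (Nat.zero_le k))
  rw [Vk_zero]; positivity

theorem Sk_sq_le (r : ℕ → E) (k : ℕ) : Sk r k ^ 2 ≤ (k + 1) * Vk r k := by
  unfold Sk Vk
  have h := sq_sum_le_card_mul_sum_sq (s := range (k + 1)) (f := fun i => 1 / ‖r i‖)
  rw [card_range] at h
  push_cast at h
  refine le_trans h (le_of_eq ?_)
  congr 1
  apply sum_congr rfl
  intro i _
  rw [one_div, inv_pow, one_div]

/-- the parameters of the smoothing argument -/
structure ParM (ε L γ M : ℝ) (m : ℕ) : Prop where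
  par : Par3 ε L γ m
  hM : 13 * m ≤ M * ε ^ 2
  H : 100000 * (γ * M ^ 16) ≤ 1

namespace ParM

variable {ε L γ M : ℝ} {m : ℕ} (h : ParM ε L γ M m)
include h

theorem ε2 : ε ^ 2 ≤ 1 := by
  have := h.par.hε
  have := h.par.hε1
  nlinarith

theorem M0 : 0 < M := by
  have h1 := h.hM
  have h2 := h.par.m1
  have h3 := h.par.hε
  by_contra hc
  push Not at hc
  have : M * ε ^ 2 ≤ 0 := mul_nonpos_of_nonpos_of_nonneg hc (by positivity)
  linarith

theorem M13 : 13 * (m : ℝ) ≤ M := by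
  have h1 := h.hM
  have h2 := h.ε2
  have h3 := h.M0
  nlinarith

theorem M1 : 1 ≤ M := by
  have := h.M13
  have := h.par.m1
  linarith

theorem mM : (m : ℝ) ≤ M := by
  have := h.M13
  have := h.par.m1
  linarith

theorem LM : L ≤ M := by
  have h1 := h.hM
  have h2 := h.par.hL
  have h3 := h.par.m1
  have hε := h.par.hε
  have h4 : L * ε ^ 2 ≤ M * ε ^ 2 := by linarith
  exact le_of_mul_le_mul_right h4 (by positivity)

theorem γM {a : ℕ} (ha : a ≤ 16) : γ * M ^ a ≤ 1 / 100000 := by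
  have h1 := h.H
  have h2 : M ^ a ≤ M ^ 16 := pow_le_pow_right₀ h.M1 ha
  have h3 := mul_le_mul_of_nonneg_left h2 h.par.hγ0
  linarith

theorem pow_mono {a c : ℕ} (hac : a ≤ c) : γ * M ^ a ≤ γ * M ^ c :=
  mul_le_mul_of_nonneg_left (pow_le_pow_right₀ h.M1 hac) h.par.hγ0

theorem mono {K : ℕ} (hK1 : 1 ≤ K) (hK : K ≤ m) : Par3 ε L γ K := by
  refine ⟨h.par.hε, h.par.hε1, h.par.hL, h.par.hγ0, hK1, le_trans ?_ h.par.H⟩
  have h1 : (K : ℝ) ≤ m := by exact_mod_cast hK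
  apply mul_le_mul_of_nonneg_left _ (by norm_num)
  apply mul_le_mul_of_nonneg_right h1
  have := h.par.hγ0
  have := h.par.Lpos
  positivity

end ParM

variable {T : E →ₗ[ℝ] E} {ε L γ M : ℝ} {m : ℕ} {b : E} {x r p : ℕ → E} {α β σ : ℕ → ℝ}

/-- all local states -/
theorem all_steps (hT : GoodOp T) (hP : ParM ε L γ M m) (hb : ‖b‖ = 1) :
    ∀ {K : ℕ}, K ≤ m → PCG T γ K b x r p α β σ → (∀ j ≤ K, Fail T ε b x j) →
    (∀ j ≤ K, LS T ε L γ b x r p α j ∧ LS2 T ε L γ b x r p α j) ∧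
    (∀ j < K, StepOut T ε L γ b x r p α j) := by
  intro K
  induction K with
  | zero =>
    intro _ H hF
    refine ⟨?_, fun j hj => by omega⟩
    intro j hj
    have : j = 0 := by omega
    subst this
    have h0 := LS.zero hT hP.par H hb
    exact ⟨h0, LS.two (α := α) hT hP.par hb (Nat.zero_le _) h0.pos h0.ip h0.gap h0.Ef
      (hF 0 (le_refl _))⟩
  | succ k ih =>
    intro hK H hF
    obtain ⟨h1, h2⟩ := ih (by omega) (H.mono (Nat.le_succ k)) (fun j hj => hF j (by omega))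
    have hPK := hP.mono (show 1 ≤ k + 1 by omega) hK
    have hst := LS.stepOut hT hPK H hb (Nat.lt_succ_self k) (h1 k (le_refl k)).1
      (hF k (by omega)) (hF (k + 1) (le_refl _))
    constructor
    · intro j hj
      rcases Nat.le_succ_iff.mp hj with h | h
      · exact h1 j h
      · subst h
        have h3 := hst.next
        exact ⟨h3, LS.two (α := α) hT hPK hb (le_refl _) h3.pos h3.ip h3.gap h3.Ef
          (hF (k + 1) (le_refl _))⟩
    · intro j hj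
      rcases Nat.lt_succ_iff_lt_or_eq.mp hj with h | h
      · exact h2 j h
      · rw [h]; exact hst

/-- crude bounds -/
structure CB (ε M : ℝ) (x r : ℕ → E) (k : ℕ) : Prop where
  R1 : ‖r k‖ ≤ M
  R2 : 1 ≤ M * ‖r k‖
  X : ‖x k‖ ≤ M

theorem crude (hP : ParM ε L γ M m) {k : ℕ} (h1 : LS T ε L γ b x r p α k)
    (h2 : LS2 T ε L γ b x r p α k) : CB ε M x r k := by
  have hε := hP.par.hε
  have hε1 := hP.par.hε1
  have hM := hP.hM
  have hm := hP.par.m1
  have hM0 := hP.M0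
  have hε2 : 0 < ε ^ 2 := by positivity
  have hR := h1.pos
  have hRu := h1.Ru
  refine ⟨?_, ?_, ?_⟩
  · have e1 : ‖r k‖ * ε ^ 2 ≤ M * ε ^ 2 := by
      have : ‖r k‖ * ε * ε ≤ 12 * ε := mul_le_mul_of_nonneg_right hRu hε.le
      nlinarith
    exact le_of_mul_le_mul_right e1 hε2
  · have e1 : 1 * ε ^ 2 ≤ M * ‖r k‖ * ε ^ 2 := by
      have e2 : (13 : ℝ) ≤ M * ε ^ 2 := by linarith
      have e3 : 13 * ‖r k‖ ≤ M * ε ^ 2 * ‖r k‖ := mul_le_mul_of_nonneg_right e2 hR.le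
      have e4 := h2.Rl
      nlinarith
    exact le_of_mul_le_mul_right e1 hε2
  · have e1 : ‖x k‖ * ε ^ 2 ≤ M * ε ^ 2 := by
      have e2 : ‖x k‖ * ε * ε ≤ 51 / 50 * ‖r k‖ * ε := mul_le_mul_of_nonneg_right h2.xn hε.le
      nlinarith
    exact le_of_mul_le_mul_right e1 hε2

theorem alpha_le (hP : ParM ε L γ M m) {k : ℕ} (h1 : LS T ε L γ b x r p α k)
    (h2 : StepOut T ε L γ b x r p α k) : α k ≤ M := by
  have hR := h1.pos
  have hy := h2.y
  have ha := h2.ha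
  have hp := h2.two.Pl
  rw [abs_of_nonneg (by linarith)] at hy
  have e1 : α k * (99 / 100 * ‖r k‖) ≤ α k * ‖p k‖ := mul_le_mul_of_nonneg_left hp (by linarith)
  have e2 : (99 / 100 * α k) * ‖r k‖ ≤ L * ‖r k‖ := by linarith
  have e3 := le_of_mul_le_mul_right e2 hR
  have hε := hP.par.hε
  have e4 : α k * ε ^ 2 ≤ M * ε ^ 2 := by
    have h5 : (99 / 100 * α k) * ε ^ 2 ≤ L * ε ^ 2 := mul_le_mul_of_nonneg_right e3 (by positivity)
    rw [hP.par.hL] at h5
    have := hP.hM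
    have := hP.par.m1
    linarith
  exact le_of_mul_le_mul_right e4 (by positivity)

end Pool.Agent.Lib.MP_02bbae_an
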