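import Mathlib
import Pool.Agent.Lib.MP_02bbae_an.SmoothDefs

/-!
# The invariants of the smoothing argument
-/

set_option autoImplicit false
set_option linter.unusedSectionVars false

open scoped InnerProductSpace RealInnerProductSpace
open Finset

namespace Pool.Agent.Lib.MP_02bbae_an

variable {E : Type*} [NormedAddCommGroup E] [InnerProductSpace ℝ E]
variable {T : E →ₗ[ℝ] E} {ε L γ M : ℝ} {m : ℕ} {b : E} {x r p : ℕ → E} {α β σ : ℕ → ℝ}

/-- the invariants -/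
structure LX (γ M : ℝ) (x r : ℕ → E) (k : ℕ) : Prop where
  z : |⟪r k, pih r k⟫_ℝ - 1| ≤ k * (8 * (γ * M ^ 8))
  pi : |‖pih r k‖ ^ 2 - Vk r k| ≤ 16 * (γ * M ^ 9) * Vk r k
  c : |⟪r k, Vk r k • x k - Yk r x k⟫_ℝ| ≤ k * (60 * (γ * M ^ 12)) * Vk r k

theorem LX_zero (hP : ParM ε L γ M m) (hr : ‖r 0‖ = 1) (hx : x 0 = 0) : LX γ M x r 0 := by
  have hpi : pih r 0 = r 0 := by rw [pih_zero, hr]; simp
  have hγ0 := hP.par.hγ0
  have hM0 := hP.M0
  refine ⟨?_, ?_, ?_⟩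
  · rw [hpi, real_inner_self_eq_norm_sq, hr]; norm_num
  · rw [hpi, Vk_zero, hr]
    have : 0 ≤ γ * M ^ 9 := by positivity
    norm_num
    exact this
  · rw [Yk_zero, hx]; simp

/-- the sum of the reciprocal norms -/
theorem Sk_le {k : ℕ} (hM0 : 0 < M) (hpos : ∀ j ≤ k, 0 < ‖r j‖) (h : ∀ j ≤ k, 1 ≤ M * ‖r j‖) :
    Sk r k ≤ (k + 1) * M := by
  unfold Sk
  have h1 : ∀ i ∈ range (k + 1), 1 / ‖r i‖ ≤ M := by
    intro i hi
    have hi' : i ≤ k := by simp at hi; omega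
    rw [div_le_iff₀ (hpos i hi')]
    exact h i hi'
  have h2 := sum_le_card_nsmul _ _ _ h1
  rw [card_range, nsmul_eq_mul] at h2
  push_cast at h2
  exact h2

theorem norm_Yk_le {k : ℕ} (hx : ∀ j ≤ k, ‖x j‖ ≤ M) : ‖Yk r x k‖ ≤ M * Vk r k := by
  unfold Yk Vk
  refine le_trans (norm_sum_le _ _) ?_
  rw [mul_sum]
  apply sum_le_sum
  intro i hi
  have hi' : i ≤ k := by simp at hi; omega
  rw [norm_smul, Real.norm_eq_abs, abs_of_nonneg (by positivity), mul_comm]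
  exact mul_le_mul_of_nonneg_right (hx i hi') (by positivity)

/-- the sum of the gaps -/
noncomputable def Gk (T : E →ₗ[ℝ] E) (b : E) (r x : ℕ → E) (k : ℕ) : E :=
  ∑ i ∈ range (k + 1), (1 / ‖r i‖ ^ 2) • (b - T (x i) - r i)

theorem norm_Gk_le {k : ℕ} {g : ℝ} (hg : ∀ j ≤ k, ‖b - T (x j) - r j‖ ≤ g) :
    ‖Gk T b r x k‖ ≤ g * Vk r k := by
  unfold Gk Vk
  refine le_trans (norm_sum_le _ _) ?_
  rw [mul_sum]
  apply sum_le_sum
  intro i hi
  have hi' : i ≤ k := by simp at hi; omega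
  rw [norm_smul, Real.norm_eq_abs, abs_of_nonneg (by positivity), mul_comm]
  exact mul_le_mul_of_nonneg_right (hg i hi') (by positivity)

/-- the residual of the smoothed iterate, multiplied by `Vk` -/
theorem TYk (k : ℕ) : Vk r k • b - T (Yk r x k) = pih r k + Gk T b r x k := by
  unfold Vk Yk pih Gk
  rw [map_sum, sum_smul, ← sum_sub_distrib, ← sum_add_distrib]
  apply sum_congr rfl
  intro i _
  rw [map_smul, ← smul_sub, ← smul_add]
  congr 1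
  abel

/-- one step of the invariants -/
theorem LX.succ (hT : GoodOp T) (hP : ParM ε L γ M m) {k : ℕ} (hk : k + 1 ≤ m)
    (H : PCG T γ (k + 1) b x r p α β σ)
    (hS : ∀ j ≤ k + 1, LS T ε L γ b x r p α j ∧ LS2 T ε L γ b x r p α j)
    (hO : StepOut T ε L γ b x r p α k) (hX : LX γ M x r k) : LX γ M x r (k + 1) := by
  have hγ0 := hP.par.hγ0
  have hM0 := hP.M0
  have hM1 := hP.M1
  have hmM := hP.mM
  have hL0 := hP.par.Lpos
  have hLM := hP.LM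
  have hkm : (k : ℝ) + 1 ≤ m := by exact_mod_cast hk
  have hkM : (k : ℝ) + 1 ≤ M := by linarith
  have hk0 : (0 : ℝ) ≤ k := Nat.cast_nonneg _
  have hpos : ∀ j ≤ k + 1, 0 < ‖r j‖ := fun j hj => (hS j hj).1.pos
  have hcr : ∀ j ≤ k + 1, CB ε M x r j := fun j hj => crude hP (hS j hj).1 (hS j hj).2
  have hgap : ∀ j ≤ k + 1, ‖b - T (x j) - r j‖ ≤ 6 * (γ * M ^ 3) := by
    intro j hj
    refine le_trans (hS j hj).1.gap ?_
    have e1 : (j : ℝ) ≤ M := by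
      have : (j : ℝ) ≤ (k : ℝ) + 1 := by exact_mod_cast hj
      linarith
    have e2 : L ^ 2 * γ ≤ M ^ 2 * γ := mul_le_mul_of_nonneg_right
      (pow_le_pow_left₀ hL0.le hLM 2) hγ0
    have e3 : (j : ℝ) * (L ^ 2 * γ) ≤ M * (M ^ 2 * γ) :=
      mul_le_mul e1 e2 (by positivity) hM0.le
    calc 6 * (j : ℝ) * (L ^ 2 * γ) = 6 * ((j : ℝ) * (L ^ 2 * γ)) := by ring
      _ ≤ 6 * (M * (M ^ 2 * γ)) := by linarith
      _ = 6 * (γ * M ^ 3) := by ring
  have hRk := (hcr k (by omega)).R1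
  have hRk' := (hcr (k + 1) (le_refl _)).R1
  have hNk := hpos k (by omega)
  have hNk' := hpos (k + 1) (le_refl _)
  have hα := hO.ha
  have hαM := alpha_le hP (hS k (by omega)).1 hO
  have hα0 : 0 < α k := by linarith
  -- directions
  have hγ1 : γ ≤ 1 / 100000 := by
    have := hP.γM (a := 0) (by norm_num)
    simpa using this
  have hkγ : (k : ℝ) * γ ≤ 1 / 100000 := by
    have h1 := hP.γM (a := 1) (by norm_num)
    rw [pow_one] at h1
    have h2 : (k : ℝ) * γ ≤ M * γ := mul_le_mul_of_nonneg_right (by linarith) hγ0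
    linarith
  have hpos' : ∀ j ≤ k, 0 < ‖r j‖ := fun j hj => hpos j (by omega)
  have hpk : ‖p k‖ ≤ 1001 / 1000 * Pk r k := by
    have h1 := p_norm hγ0 (k := k) (by linarith) (by rw [H.p0, H.r0])
      (fun j hj => H.hp j (by omega)) (fun j hj => H.hβ j (by omega)) hpos' k (le_refl k)
    refine le_trans h1 ?_
    apply mul_le_mul_of_nonneg_right _ (Pk_nonneg r k)
    linarith
  have hfk : ‖p k - ‖r k‖ ^ 2 • pih r k‖ ≤ (3 * k * γ) * Pk r k :=
    f_bound hγ0 (by linarith) (by rw [H.p0, H.r0])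
      (fun j hj => H.hp j (by omega)) (fun j hj => H.hβ j (by omega)) hpos' k (le_refl k)
  have hpik : ‖pih r k‖ ≤ Sk r k := pih_norm hpos'
  have hSk : Sk r k ≤ (k + 1) * M :=
    Sk_le hM0 hpos' (fun j hj => (hcr j (by omega)).R2)
  have hSk0 := Sk_nonneg r k
  have hSk2 : Sk r k ≤ M ^ 2 := by nlinarith
  have hSsq := Sk_sq_le r k
  have hV0 := Vk_nonneg r k
  -- z
  have hU : Uk r α k ≤ M ^ 7 := by
    have e1 : Uk r α k = α k * (‖r k‖ ^ 2 * Sk r k ^ 2) := by unfold Uk Pk; ring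
    have e2 : ‖r k‖ ^ 2 ≤ M ^ 2 := pow_le_pow_left₀ hNk.le hRk 2
    have e3 : Sk r k ^ 2 ≤ (M ^ 2) ^ 2 := pow_le_pow_left₀ hSk0 hSk2 2
    have e4 : ‖r k‖ ^ 2 * Sk r k ^ 2 ≤ M ^ 2 * (M ^ 2) ^ 2 :=
      mul_le_mul e2 e3 (by positivity) (by positivity)
    rw [e1]
    calc α k * (‖r k‖ ^ 2 * Sk r k ^ 2) ≤ M * (M ^ 2 * (M ^ 2) ^ 2) :=
          mul_le_mul hαM e4 (by positivity) hM0.le
      _ = M ^ 7 := by ring
  have hU0 : 0 ≤ Uk r α k := by
    unfold Uk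
    have := Pk_nonneg r k
    positivity
  have hZ := Z_eq hT hγ0 hpos' (by linarith) (H.hr k (Nat.lt_succ_self k))
    (H.hσ k (Nat.lt_succ_self k)) (H.hα k (Nat.lt_succ_self k)) hpk hfk
  have hz1 : |⟪pih r k, r (k + 1)⟫_ℝ| ≤ ((k + 1 : ℕ) : ℝ) * (8 * (γ * M ^ 8)) := by
    have e1 : (7 + 4 * (k : ℝ)) * γ * Uk r α k ≤ (8 * M) * γ * M ^ 7 := by
      apply mul_le_mul _ hU hU0 (by positivity)
      apply mul_le_mul_of_nonneg_right _ hγ0
      have := hP.M13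
      linarith
    have e2 := hX.z
    push_cast
    have e3 : (8 * M) * γ * M ^ 7 = 8 * (γ * M ^ 8) := by ring
    linarith
  have hself : ⟪r (k + 1), pih r (k + 1)⟫_ℝ - 1 = ⟪pih r k, r (k + 1)⟫_ℝ := by
    rw [pih_succ, inner_add_right, inner_smul_right, real_inner_self_eq_norm_sq, real_inner_comm]
    have : 1 / ‖r (k + 1)‖ ^ 2 * ‖r (k + 1)‖ ^ 2 = 1 := by field_simp
    rw [this]; ring
  -- pi
  have hzM : |⟪pih r k, r (k + 1)⟫_ℝ| ≤ 8 * (γ * M ^ 9) := by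
    refine le_trans hz1 ?_
    push_cast
    have e1 : ((k : ℝ) + 1) * (8 * (γ * M ^ 8)) ≤ M * (8 * (γ * M ^ 8)) :=
      mul_le_mul_of_nonneg_right hkM (by positivity)
    have e2 : M * (8 * (γ * M ^ 8)) = 8 * (γ * M ^ 9) := by ring
    linarith
  have hpi : |‖pih r (k + 1)‖ ^ 2 - Vk r (k + 1)| ≤ 16 * (γ * M ^ 9) * Vk r (k + 1) := by
    have e1 : ‖pih r (k + 1)‖ ^ 2 - Vk r (k + 1) = (‖pih r k‖ ^ 2 - Vk r k) +
        2 * (1 / ‖r (k + 1)‖ ^ 2) * ⟪pih r k, r (k + 1)⟫_ℝ := by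
      rw [pih_succ, norm_add_sq_real, inner_smul_right, norm_smul, Vk_succ, mul_pow,
        Real.norm_eq_abs, sq_abs]
      have : (1 / ‖r (k + 1)‖ ^ 2) ^ 2 * ‖r (k + 1)‖ ^ 2 = 1 / ‖r (k + 1)‖ ^ 2 := by field_simp
      rw [this]; ring
    rw [e1]
    refine le_trans (abs_add_le _ _) ?_
    rw [abs_mul, abs_of_nonneg (by positivity : 0 ≤ 2 * (1 / ‖r (k + 1)‖ ^ 2)), Vk_succ]
    have e2 := hX.pi
    have e3 := mul_le_mul_of_nonneg_left hzM (by positivity : 0 ≤ 2 * (1 / ‖r (k + 1)‖ ^ 2))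
    linarith
  refine ⟨by rw [hself]; exact hz1, hpi, ?_⟩
  -- c
  set V := Vk r k with hV
  set Q := V • x k - Yk r x k with hQ
  set e := x (k + 1) - (x k + α k • p k) with he
  set f := r (k + 1) - (r k - α k • T (p k)) with hf
  set G := Gk T b r x k with hG
  set g := b - T (x k) - r k with hg
  set N := ‖r k‖ with hN
  have hVle : V ≤ Vk r (k + 1) := Vk_mono (Nat.le_succ k)
  have hQ' : Vk r (k + 1) • x (k + 1) - Yk r x (k + 1) = Q + V • (α k • p k + e) := by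
    rw [Vk_succ, Yk_succ, add_smul, hQ, he]
    simp only [smul_add, smul_sub]
    abel
  have hTQ : T Q = pih r k + G - V • r k - V • g := by
    have e1 : T (Yk r x k) = V • b - pih r k - G := by
      have := TYk (T := T) (b := b) (r := r) (x := x) k
      rw [← hV, ← hG] at this
      rw [← sub_eq_iff_eq_add] at this
      rw [← this]; abel
    have e2 : T (x k) = b - r k - g := by rw [hg]; abel
    rw [hQ, map_sub, map_smul, e1, e2]
    simp only [smul_sub]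
    abel
  have hmain : ⟪r (k + 1), Q + V • (α k • p k + e)⟫_ℝ = ⟪r k, Q⟫_ℝ
      - α k * (⟪p k, pih r k⟫_ℝ - V * ⟪r k, p k⟫_ℝ)
      - α k * ⟪p k, G⟫_ℝ + α k * (V * ⟪p k, g⟫_ℝ) + ⟪f, Q⟫_ℝ
      + V * (α k * ⟪r (k + 1), p k⟫_ℝ) + V * ⟪r (k + 1), e⟫_ℝ := by
    have e1 : ⟪r (k + 1), Q⟫_ℝ = ⟪r k, Q⟫_ℝ - α k * ⟪p k, T Q⟫_ℝ + ⟪f, Q⟫_ℝ := by
      have : r (k + 1) = r k - α k • T (p k) + f := by rw [hf]; abel
      conv_lhs => rw [this]
      rw [inner_add_left, inner_sub_left, inner_smul_left, hT.sym]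
      simp
    have e2 : ⟪p k, T Q⟫_ℝ = ⟪p k, pih r k⟫_ℝ + ⟪p k, G⟫_ℝ - V * ⟪p k, r k⟫_ℝ
        - V * ⟪p k, g⟫_ℝ := by
      rw [hTQ, inner_sub_right, inner_sub_right, inner_add_right, inner_smul_right,
        inner_smul_right]
    have e3 : ⟪r (k + 1), Q + V • (α k • p k + e)⟫_ℝ = ⟪r (k + 1), Q⟫_ℝ +
        V * (α k * ⟪r (k + 1), p k⟫_ℝ + ⟪r (k + 1), e⟫_ℝ) := by
      rw [inner_add_right (r (k + 1)) Q, inner_smul_right, inner_add_right, inner_smul_right]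
    rw [e3, e1, e2, real_inner_comm (r k) (p k)]
    ring
  have hy := hO.y
  rw [abs_of_nonneg hα0.le] at hy
  have hLN : L * N ≤ M ^ 2 := by
    calc L * N ≤ M * M := mul_le_mul hLM hRk hNk.le hM0.le
      _ = M ^ 2 := by ring
  have hyM : α k * ‖p k‖ ≤ M ^ 2 := le_trans hy hLN
  have hN2 : N ^ 2 ≤ M ^ 2 := pow_le_pow_left₀ hNk.le hRk 2
  have hαN : α k * N ^ 2 ≤ M ^ 3 := by
    calc α k * N ^ 2 ≤ M * M ^ 2 := mul_le_mul hαM hN2 (by positivity) hM0.le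
      _ = M ^ 3 := by ring
  have hL4 : L ^ 4 * γ ≤ M ^ 4 * γ := mul_le_mul_of_nonneg_right
      (pow_le_pow_left₀ hL0.le hLM 4) hγ0
  have hL2 : L ^ 2 * γ ≤ M ^ 2 * γ := mul_le_mul_of_nonneg_right
      (pow_le_pow_left₀ hL0.le hLM 2) hγ0
  have hkL4 : (k : ℝ) * (L ^ 4 * γ) ≤ γ * M ^ 5 := by
    calc (k : ℝ) * (L ^ 4 * γ) ≤ M * (M ^ 4 * γ) :=
          mul_le_mul (by linarith) hL4 (by positivity) hM0.le
      _ = γ * M ^ 5 := by ring
  -- term 1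
  have t1 : |α k * (⟪p k, pih r k⟫_ℝ - V * ⟪r k, p k⟫_ℝ)| ≤ 27 * (γ * M ^ 12) * V := by
    have e1 : ⟪p k, pih r k⟫_ℝ - V * ⟪r k, p k⟫_ℝ = N ^ 2 * (‖pih r k‖ ^ 2 - V) +
        ⟪p k - N ^ 2 • pih r k, pih r k⟫_ℝ - V * (⟪r k, p k⟫_ℝ - N ^ 2) := by
      rw [inner_sub_left, inner_smul_left, real_inner_self_eq_norm_sq]
      simp; ring
    have e2 : |N ^ 2 * (‖pih r k‖ ^ 2 - V)| ≤ N ^ 2 * (16 * (γ * M ^ 9) * V) := by
      rw [abs_mul, abs_of_nonneg (by positivity : 0 ≤ N ^ 2)]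
      exact mul_le_mul_of_nonneg_left hX.pi (by positivity)
    have e3 : |⟪p k - N ^ 2 • pih r k, pih r k⟫_ℝ| ≤ N ^ 2 * (3 * (γ * M ^ 2) * V) := by
      refine le_trans (abs_real_inner_le_norm _ _) ?_
      have f1 : ‖p k - N ^ 2 • pih r k‖ * ‖pih r k‖ ≤ ((3 * k * γ) * Pk r k) * Sk r k :=
        mul_le_mul hfk hpik (norm_nonneg _) (mul_nonneg (by positivity) (Pk_nonneg r k))
      refine le_trans f1 ?_
      have f2 : ((3 * k * γ) * Pk r k) * Sk r k = N ^ 2 * ((3 * k * γ) * Sk r k ^ 2) := by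
        unfold Pk; ring
      rw [f2]
      apply mul_le_mul_of_nonneg_left _ (by positivity)
      have f3 : (3 * k * γ) * Sk r k ^ 2 ≤ (3 * k * γ) * ((k + 1) * V) :=
        mul_le_mul_of_nonneg_left hSsq (by positivity)
      have f4 : (k : ℝ) * (k + 1) ≤ M ^ 2 := by
        calc (k : ℝ) * (k + 1) ≤ M * M := mul_le_mul (by linarith) hkM (by positivity) hM0.le
          _ = M ^ 2 := by ring
      have f5 : (3 * k * γ) * ((k + 1) * V) = 3 * (γ * (k * (k + 1))) * V := by ring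
      have f6 : 3 * (γ * (k * (k + 1))) * V ≤ 3 * (γ * M ^ 2) * V := by
        apply mul_le_mul_of_nonneg_right _ hV0
        apply mul_le_mul_of_nonneg_left _ (by norm_num)
        exact mul_le_mul_of_nonneg_left f4 hγ0
      linarith
    have e4 : |V * (⟪r k, p k⟫_ℝ - N ^ 2)| ≤ N ^ 2 * (8 * (γ * M ^ 5) * V) := by
      rw [abs_mul, abs_of_nonneg hV0]
      have f1 := (hS k (by omega)).1.ip
      have f2 : (8 * (k : ℝ) * (L ^ 4 * γ)) * N ^ 2 ≤ (8 * (γ * M ^ 5)) * N ^ 2 := by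
        apply mul_le_mul_of_nonneg_right _ (by positivity)
        linarith
      have f3 := mul_le_mul_of_nonneg_left (le_trans f1 f2) hV0
      linarith
    have e5 : |⟪p k, pih r k⟫_ℝ - V * ⟪r k, p k⟫_ℝ| ≤ N ^ 2 * (27 * (γ * M ^ 9) * V) := by
      rw [e1]
      have g1 := abs_sub (N ^ 2 * (‖pih r k‖ ^ 2 - V) + ⟪p k - N ^ 2 • pih r k, pih r k⟫_ℝ)
        (V * (⟪r k, p k⟫_ℝ - N ^ 2))
      have g2 := abs_add_le (N ^ 2 * (‖pih r k‖ ^ 2 - V)) ⟪p k - N ^ 2 • pih r k, pih r k⟫_ℝ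
      have g3 : N ^ 2 * (3 * (γ * M ^ 2) * V) ≤ N ^ 2 * (3 * (γ * M ^ 9) * V) := by
        apply mul_le_mul_of_nonneg_left _ (by positivity)
        apply mul_le_mul_of_nonneg_right _ hV0
        have := hP.pow_mono (show 2 ≤ 9 by norm_num)
        linarith
      have g4 : N ^ 2 * (8 * (γ * M ^ 5) * V) ≤ N ^ 2 * (8 * (γ * M ^ 9) * V) := by
        apply mul_le_mul_of_nonneg_left _ (by positivity)
        apply mul_le_mul_of_nonneg_right _ hV0
        have := hP.pow_mono (show 5 ≤ 9 by norm_num)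
        linarith
      linarith
    rw [abs_mul, abs_of_pos hα0]
    calc α k * |⟪p k, pih r k⟫_ℝ - V * ⟪r k, p k⟫_ℝ| ≤ α k * (N ^ 2 * (27 * (γ * M ^ 9) * V)) :=
          mul_le_mul_of_nonneg_left e5 hα0.le
      _ = (α k * N ^ 2) * (27 * (γ * M ^ 9) * V) := by ring
      _ ≤ M ^ 3 * (27 * (γ * M ^ 9) * V) :=
          mul_le_mul_of_nonneg_right hαN (by positivity)
      _ = 27 * (γ * M ^ 12) * V := by ring
  have hGn : ‖G‖ ≤ 6 * (γ * M ^ 3) * V := norm_Gk_le (fun j hj => hgap j (by omega))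
  have hgn : ‖g‖ ≤ 6 * (γ * M ^ 3) := hgap k (by omega)
  have t2 : |α k * ⟪p k, G⟫_ℝ| ≤ 6 * (γ * M ^ 5) * V := by
    rw [abs_mul, abs_of_pos hα0]
    have e1 := mul_le_mul_of_nonneg_left (abs_real_inner_le_norm (p k) G) hα0.le
    have e2 : α k * (‖p k‖ * ‖G‖) = (α k * ‖p k‖) * ‖G‖ := by ring
    have e3 : (α k * ‖p k‖) * ‖G‖ ≤ M ^ 2 * (6 * (γ * M ^ 3) * V) :=
      mul_le_mul hyM hGn (norm_nonneg _) (by positivity)
    have e4 : M ^ 2 * (6 * (γ * M ^ 3) * V) = 6 * (γ * M ^ 5) * V := by ring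
    linarith
  have t3 : |α k * (V * ⟪p k, g⟫_ℝ)| ≤ 6 * (γ * M ^ 5) * V := by
    rw [abs_mul, abs_of_pos hα0, abs_mul, abs_of_nonneg hV0]
    have e1 := abs_real_inner_le_norm (p k) g
    have e2 : α k * (V * |⟪p k, g⟫_ℝ|) ≤ α k * (V * (‖p k‖ * ‖g‖)) := by
      apply mul_le_mul_of_nonneg_left _ hα0.le
      exact mul_le_mul_of_nonneg_left e1 hV0
    have e3 : (α k * ‖p k‖) * ‖g‖ ≤ M ^ 2 * (6 * (γ * M ^ 3)) :=
      mul_le_mul hyM hgn (norm_nonneg _) (by positivity)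
    have e4 := mul_le_mul_of_nonneg_right e3 hV0
    have e5 : M ^ 2 * (6 * (γ * M ^ 3)) * V = 6 * (γ * M ^ 5) * V := by ring
    linarith
  have hQn : ‖Q‖ ≤ 2 * M * V := by
    rw [hQ]
    refine le_trans (norm_sub_le _ _) ?_
    rw [norm_smul, Real.norm_eq_abs, abs_of_nonneg hV0]
    have e1 := norm_Yk_le (r := r) (fun j (hj : j ≤ k) => (hcr j (by omega)).X)
    have e2 := mul_le_mul_of_nonneg_left (hcr k (by omega)).X hV0
    linarith
  have t4 : |⟪f, Q⟫_ℝ| ≤ 12 / 5 * (γ * M ^ 3) * V := by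
    refine le_trans (abs_real_inner_le_norm _ _) ?_
    have e1 : ‖f‖ ≤ 6 / 5 * (γ * M ^ 2) := by
      refine le_trans hO.fb ?_
      apply mul_le_mul_of_nonneg_left _ (by norm_num)
      exact mul_le_mul_of_nonneg_left hLN hγ0
    have e2 : ‖f‖ * ‖Q‖ ≤ (6 / 5 * (γ * M ^ 2)) * (2 * M * V) :=
      mul_le_mul e1 hQn (norm_nonneg _) (by positivity)
    have e3 : (6 / 5 * (γ * M ^ 2)) * (2 * M * V) = 12 / 5 * (γ * M ^ 3) * V := by ring
    linarith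
  have t5 : |V * (α k * ⟪r (k + 1), p k⟫_ℝ)| ≤ 11 * (γ * M ^ 8) * V := by
    rw [abs_mul, abs_of_nonneg hV0, abs_mul, abs_of_pos hα0]
    have e1 : |⟪r (k + 1), p k⟫_ℝ| ≤ (8 * (γ * M ^ 5) + 5 / 2 * (γ * M ^ 5)) * N ^ 2 := by
      refine le_trans hO.nu ?_
      apply mul_le_mul_of_nonneg_right _ (by positivity)
      have := hP.pow_mono (show 2 ≤ 5 by norm_num)
      linarith
    have e2 := mul_le_mul_of_nonneg_left e1 hα0.le
    have e3 : α k * ((8 * (γ * M ^ 5) + 5 / 2 * (γ * M ^ 5)) * N ^ 2) =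
      (α k * N ^ 2) * (21 / 2 * (γ * M ^ 5)) := by ring
    have e4 : (α k * N ^ 2) * (21 / 2 * (γ * M ^ 5)) ≤ M ^ 3 * (21 / 2 * (γ * M ^ 5)) :=
      mul_le_mul_of_nonneg_right hαN (by positivity)
    have e5 : M ^ 3 * (21 / 2 * (γ * M ^ 5)) = 21 / 2 * (γ * M ^ 8) := by ring
    have e6 : α k * |⟪r (k + 1), p k⟫_ℝ| ≤ 11 * (γ * M ^ 8) := by
      have : 0 ≤ γ * M ^ 8 := by positivity
      linarith
    have := mul_le_mul_of_nonneg_left e6 hV0
    linarith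
  have t6 : |V * ⟪r (k + 1), e⟫_ℝ| ≤ 5 / 4 * (γ * M ^ 3) * V := by
    rw [abs_mul, abs_of_nonneg hV0]
    have e1 : ‖e‖ ≤ 5 / 4 * (γ * M ^ 2) := by
      refine le_trans hO.eb ?_
      apply mul_le_mul_of_nonneg_left _ (by norm_num)
      exact mul_le_mul_of_nonneg_left hLN hγ0
    have e2 : |⟪r (k + 1), e⟫_ℝ| ≤ M * (5 / 4 * (γ * M ^ 2)) := by
      refine le_trans (abs_real_inner_le_norm _ _) ?_
      exact mul_le_mul hRk' e1 (norm_nonneg _) hM0.le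
    have e3 := mul_le_mul_of_nonneg_left e2 hV0
    have e4 : V * (M * (5 / 4 * (γ * M ^ 2))) = 5 / 4 * (γ * M ^ 3) * V := by ring
    linarith
  -- raise the powers
  have up : ∀ {a : ℕ} {c : ℝ}, 0 ≤ c → a ≤ 12 → c * (γ * M ^ a) * V ≤ c * (γ * M ^ 12) * V := by
    intro a c hc ha
    apply mul_le_mul_of_nonneg_right _ hV0
    exact mul_le_mul_of_nonneg_left (hP.pow_mono ha) hc
  have u2 := up (c := 6) (by norm_num) (show 5 ≤ 12 by norm_num)
  have u4 := up (c := 12 / 5) (by norm_num) (show 3 ≤ 12 by norm_num)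
  have u5 := up (c := 11) (by norm_num) (show 8 ≤ 12 by norm_num)
  have u6 := up (c := 5 / 4) (by norm_num) (show 3 ≤ 12 by norm_num)
  have hc0 := hX.c
  rw [← hV, ← hQ] at hc0
  have hbnd : |⟪r (k + 1), Q + V • (α k • p k + e)⟫_ℝ| ≤
      ((k + 1 : ℕ) : ℝ) * (60 * (γ * M ^ 12)) * V := by
    rw [hmain]
    obtain ⟨a1, a2⟩ := abs_le.mp t1
    obtain ⟨b1, b2⟩ := abs_le.mp t2
    obtain ⟨c1, c2⟩ := abs_le.mp t3
    obtain ⟨d1, d2⟩ := abs_le.mp t4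
    obtain ⟨f1, f2⟩ := abs_le.mp t5
    obtain ⟨g1, g2⟩ := abs_le.mp t6
    obtain ⟨h1, h2⟩ := abs_le.mp hc0
    have hV12 : 0 ≤ (γ * M ^ 12) * V := by positivity
    push_cast
    rw [abs_le]
    constructor <;> linarith only [a1, a2, b1, b2, c1, c2, d1, d2, f1, f2, g1, g2, h1, h2, u2, u4,
      u5, u6, hV12]
  rw [hQ']
  refine le_trans hbnd ?_
  apply mul_le_mul_of_nonneg_left hVle
  positivity

/-- the invariants hold as long as all iterates fail -/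
theorem LX_all (hT : GoodOp T) (hP : ParM ε L γ M m) (hb : ‖b‖ = 1) :
    ∀ {K : ℕ}, K ≤ m → PCG T γ K b x r p α β σ → (∀ j ≤ K, Fail T ε b x j) →
    ∀ k ≤ K, LX γ M x r k := by
  intro K hK H hF k
  obtain ⟨h1, h2⟩ := all_steps hT hP hb hK H hF
  induction k with
  | zero =>
    intro _
    exact LX_zero hP (by rw [H.r0, hb]) H.x0
  | succ k ih =>
    intro hk
    exact LX.succ hT hP (by omega) (H.mono hk) (fun j hj => h1 j (by omega)) (h2 k (by omega))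
      (ih (by omega))

end Pool.Agent.Lib.MP_02bbae_an
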