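import Mathlib
import Pool.Agent.Lib.MP_02bbae_an.SmoothInv

/-!
# Energy inequalities for the smoothed iterates
-/

set_option autoImplicit false
set_option linter.unusedSectionVars false

open scoped InnerProductSpace RealInnerProductSpace
open Finset

namespace Pool.Agent.Lib.MP_02bbae_an

variable {E : Type*} [NormedAddCommGroup E] [InnerProductSpace ℝ E]
variable {T : E →ₗ[ℝ] E} {ε L γ M : ℝ} {m : ℕ} {b : E} {x r p : ℕ → E} {α β σ : ℕ → ℝ}

/-- the energy -/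
noncomputable def Phi (T : E →ₗ[ℝ] E) (b z : E) : ℝ := ⟪b, z⟫_ℝ - 1 / 2 * ⟪z, T z⟫_ℝ

theorem Phi_sub (hT : GoodOp T) (b z y : E) :
    Phi T b z = Phi T b y + ⟪b - T y, z - y⟫_ℝ - 1 / 2 * ⟪z - y, T (z - y)⟫_ℝ := by
  unfold Phi
  rw [map_sub, inner_sub_left, inner_sub_right, inner_sub_right, inner_sub_right, inner_sub_left,
    inner_sub_left, hT.sym y z, hT.sym y y, real_inner_comm (T z) y, ← hT.sym z y,
    real_inner_comm y (T z)]
  ring

/-- two tangents -/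
theorem Phi_two (hT : GoodOp T) (b z y w : E) :
    Phi T b z ≤ Phi T b w + ⟪b - T w, y - w⟫_ℝ + ⟪b - T y, z - y⟫_ℝ
      - 1 / 2 * ⟪z - y, T (z - y)⟫_ℝ := by
  have h1 := Phi_sub hT b z y
  have h2 := Phi_sub hT b y w
  have h3 := hT.pos (y - w)
  linarith

/-- the smoothed iterate -/
noncomputable def yk (r x : ℕ → E) (k : ℕ) : E := (1 / Vk r k) • Yk r x k

/-- everything which is used about the smoothed iterate -/
structure SM (T : E →ₗ[ℝ] E) (ε : ℝ) (b : E) (x r : ℕ → E) (k : ℕ) : Prop where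
  /-- the residual of the smoothed iterate -/
  res : ‖b - T (yk r x k)‖ ^ 2 ≤ 101 / 100 * (1 / Vk r k)
  /-- the tangent at the iterate -/
  tan : ⟪b - T (x k), yk r x k - x k⟫_ℝ ≤ 1 / 1000 * (1 / Vk r k)
  /-- the norm of the smoothed iterate -/
  nrm : ε ^ 2 * ‖yk r x k‖ ^ 2 ≤ 21 / 20 * ((k + 1) * (1 / Vk r k))

theorem SM_of (hP : ParM ε L γ M m) {k : ℕ} (hk : k ≤ m)
    (hS : ∀ j ≤ k, LS T ε L γ b x r p α j ∧ LS2 T ε L γ b x r p α j)
    (hX : LX γ M x r k) : SM T ε b x r k := by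
  have hγ0 := hP.par.hγ0
  have hε := hP.par.hε
  have hM0 := hP.M0
  have hM1 := hP.M1
  have hmM := hP.mM
  have hL0 := hP.par.Lpos
  have hLM := hP.LM
  have hkm : (k : ℝ) ≤ m := by exact_mod_cast hk
  have hkM : (k : ℝ) ≤ M := by linarith
  have hkM1 : (k : ℝ) + 1 ≤ M := by
    have := hP.M13
    have := hP.par.m1
    linarith
  have hk0 : (0 : ℝ) ≤ k := Nat.cast_nonneg _
  have hpos : ∀ j ≤ k, 0 < ‖r j‖ := fun j hj => (hS j hj).1.pos
  have hcr : ∀ j ≤ k, CB ε M x r j := fun j hj => crude hP (hS j hj).1 (hS j hj).2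
  have hgap : ∀ j ≤ k, ‖b - T (x j) - r j‖ ≤ 6 * (γ * M ^ 3) := by
    intro j hj
    refine le_trans (hS j hj).1.gap ?_
    have e1 : (j : ℝ) ≤ M := by
      have : (j : ℝ) ≤ (k : ℝ) := by exact_mod_cast hj
      linarith
    have e2 : L ^ 2 * γ ≤ M ^ 2 * γ := mul_le_mul_of_nonneg_right
      (pow_le_pow_left₀ hL0.le hLM 2) hγ0
    have e3 : (j : ℝ) * (L ^ 2 * γ) ≤ M * (M ^ 2 * γ) :=
      mul_le_mul e1 e2 (by positivity) hM0.le
    calc 6 * (j : ℝ) * (L ^ 2 * γ) = 6 * ((j : ℝ) * (L ^ 2 * γ)) := by ring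
      _ ≤ 6 * (M * (M ^ 2 * γ)) := by linarith
      _ = 6 * (γ * M ^ 3) := by ring
  have hV0 : 0 < Vk r k := Vk_pos (hpos 0 (Nat.zero_le _))
  set V := Vk r k with hV
  -- an upper bound for `V`
  have hVM : V ≤ M ^ 3 := by
    have h1 : ∀ i ∈ range (k + 1), 1 / ‖r i‖ ^ 2 ≤ M ^ 2 := by
      intro i hi
      have hi' : i ≤ k := by simp at hi; omega
      rw [div_le_iff₀ (pow_pos (hpos i hi') 2), ← mul_pow]
      have := (hcr i hi').R2
      nlinarith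
    have h2 := sum_le_card_nsmul _ _ _ h1
    rw [card_range, nsmul_eq_mul] at h2
    push_cast at h2
    have h3 : ((k : ℝ) + 1) * M ^ 2 ≤ M * M ^ 2 := mul_le_mul_of_nonneg_right hkM1 (by positivity)
    calc V ≤ ((k : ℝ) + 1) * M ^ 2 := h2
      _ ≤ M * M ^ 2 := h3
      _ = M ^ 3 := by ring
  have hVinv : 1 ≤ M ^ 3 * (1 / V) := by
    rw [mul_one_div, le_div_iff₀ hV0, one_mul]; exact hVM
  have hVi0 : 0 < 1 / V := by positivity
  refine ⟨?_, ?_, ?_⟩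
  · have e1 : b - T (yk r x k) = (1 / V) • (pih r k + Gk T b r x k) := by
      rw [← TYk, ← hV, yk, ← hV, map_smul, smul_sub, smul_smul]
      congr 1
      rw [one_div, inv_mul_cancel₀ hV0.ne', one_smul]
    have hG : ‖Gk T b r x k‖ ≤ 6 * (γ * M ^ 3) * V := norm_Gk_le hgap
    have hpi := (abs_le.mp hX.pi).2
    rw [← hV] at hpi
    have hpi2 : ‖pih r k‖ ^ 2 ≤ (1 + 16 / 100000) * V := by
      have : 16 * (γ * M ^ 9) * V ≤ 16 / 100000 * V := by
        apply mul_le_mul_of_nonneg_right _ hV0.le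
        have := hP.γM (a := 9) (by norm_num)
        linarith
      linarith
    have hG2 : ‖Gk T b r x k‖ ^ 2 ≤ 1 / 100000 * V := by
      have h1 : ‖Gk T b r x k‖ ^ 2 ≤ (6 * (γ * M ^ 3) * V) ^ 2 :=
        pow_le_pow_left₀ (norm_nonneg _) hG 2
      have h2 : (6 * (γ * M ^ 3) * V) ^ 2 = (36 * (γ * M ^ 3) * (γ * M ^ 3 * V)) * V := by ring
      have h3 : γ * M ^ 3 * V ≤ γ * M ^ 6 := by
        have := mul_le_mul_of_nonneg_left hVM (by positivity : 0 ≤ γ * M ^ 3)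
        calc γ * M ^ 3 * V ≤ γ * M ^ 3 * M ^ 3 := this
          _ = γ * M ^ 6 := by ring
      have h4 := hP.γM (a := 6) (by norm_num)
      have h5 := hP.γM (a := 3) (by norm_num)
      have h6 : 0 ≤ γ * M ^ 3 := by positivity
      have h7 : 36 * (γ * M ^ 3) * (γ * M ^ 3 * V) ≤ 36 * (1 / 100000) * (1 / 100000) := by
        apply mul_le_mul (by linarith) (by linarith) (by positivity) (by norm_num)
      have h8 := mul_le_mul_of_nonneg_right h7 hV0.le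
      rw [← h2] at h8
      have : (36 * (1 / 100000) * (1 / 100000) : ℝ) * V ≤ 1 / 100000 * V := by
        apply mul_le_mul_of_nonneg_right (by norm_num) hV0.le
      linarith
    rw [e1, norm_smul, mul_pow, Real.norm_eq_abs, sq_abs]
    have hsum : ‖pih r k + Gk T b r x k‖ ^ 2 ≤ 101 / 100 * V := by
      have h1 := norm_add_le (pih r k) (Gk T b r x k)
      have h2 : ‖pih r k + Gk T b r x k‖ ^ 2 ≤ (‖pih r k‖ + ‖Gk T b r x k‖) ^ 2 :=
        pow_le_pow_left₀ (norm_nonneg _) h1 2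
      nlinarith [sq_nonneg (‖pih r k‖ - 200 * ‖Gk T b r x k‖)]
    calc (1 / V) ^ 2 * ‖pih r k + Gk T b r x k‖ ^ 2 ≤ (1 / V) ^ 2 * (101 / 100 * V) :=
          mul_le_mul_of_nonneg_left hsum (by positivity)
      _ = 101 / 100 * (1 / V) := by field_simp
  · have hY : yk r x k - x k = -((1 / V) • (V • x k - Yk r x k)) := by
      rw [yk, ← hV, smul_sub, smul_smul, one_div, inv_mul_cancel₀ hV0.ne', one_smul]
      abel
    have hc := hX.c
    rw [← hV] at hc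
    have e1 : ⟪b - T (x k), yk r x k - x k⟫_ℝ = -(1 / V) * ⟪r k, V • x k - Yk r x k⟫_ℝ +
        ⟪b - T (x k) - r k, yk r x k - x k⟫_ℝ := by
      conv_rhs => rw [inner_sub_left]
      rw [hY, inner_neg_right, inner_neg_right, inner_smul_right, inner_smul_right]
      ring
    have hyn : ‖yk r x k‖ ≤ M := by
      rw [yk, ← hV, norm_smul, Real.norm_eq_abs, abs_of_pos hVi0]
      have h1 := norm_Yk_le (r := r) (fun j (hj : j ≤ k) => (hcr j hj).X)
      rw [← hV] at h1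
      calc 1 / V * ‖Yk r x k‖ ≤ 1 / V * (M * V) := mul_le_mul_of_nonneg_left h1 hVi0.le
        _ = M := by field_simp
    have hxn := (hcr k (le_refl _)).X
    have hyx : ‖yk r x k - x k‖ ≤ 2 * M := le_trans (norm_sub_le _ _) (by linarith)
    have e2 : ⟪b - T (x k) - r k, yk r x k - x k⟫_ℝ ≤ 12 * (γ * M ^ 4) := by
      refine le_trans (real_inner_le_norm _ _) ?_
      have := mul_le_mul (hgap k (le_refl _)) hyx (norm_nonneg _) (by positivity)
      calc ‖b - T (x k) - r k‖ * ‖yk r x k - x k‖ ≤ 6 * (γ * M ^ 3) * (2 * M) := this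
        _ = 12 * (γ * M ^ 4) := by ring
    have e3 : -(1 / V) * ⟪r k, V • x k - Yk r x k⟫_ℝ ≤ 60 * (γ * M ^ 13) := by
      have h1 := (abs_le.mp hc).1
      have h2 : (1 / V) * (-⟪r k, V • x k - Yk r x k⟫_ℝ) ≤
          (1 / V) * (k * (60 * (γ * M ^ 12)) * V) :=
        mul_le_mul_of_nonneg_left (by linarith) hVi0.le
      have h3 : (1 / V) * (k * (60 * (γ * M ^ 12)) * V) = k * (60 * (γ * M ^ 12)) := by
        field_simp
      have h4 : (k : ℝ) * (60 * (γ * M ^ 12)) ≤ M * (60 * (γ * M ^ 12)) :=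
        mul_le_mul_of_nonneg_right hkM (by positivity)
      have h5 : M * (60 * (γ * M ^ 12)) = 60 * (γ * M ^ 13) := by ring
      linarith
    have e4 : 72 * (γ * M ^ 13) ≤ 1 / 1000 * (1 / V) := by
      have h1 : γ * M ^ 13 * 1 ≤ γ * M ^ 13 * (M ^ 3 * (1 / V)) :=
        mul_le_mul_of_nonneg_left hVinv (by positivity)
      have h2 : γ * M ^ 13 * (M ^ 3 * (1 / V)) = (γ * M ^ 16) * (1 / V) := by ring
      have h3 : (γ * M ^ 16) * (1 / V) ≤ 1 / 100000 * (1 / V) :=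
        mul_le_mul_of_nonneg_right (hP.γM (le_refl _)) hVi0.le
      linarith
    have e5 := hP.pow_mono (show 4 ≤ 13 by norm_num)
    rw [e1]
    linarith
  · -- the norm
    have h1 : ε * ‖Yk r x k‖ ≤ 51 / 50 * Sk r k := by
      unfold Yk Sk
      calc ε * ‖∑ i ∈ range (k + 1), (1 / ‖r i‖ ^ 2) • x i‖
          ≤ ε * ∑ i ∈ range (k + 1), ‖(1 / ‖r i‖ ^ 2) • x i‖ :=
            mul_le_mul_of_nonneg_left (norm_sum_le _ _) hε.le
        _ = ∑ i ∈ range (k + 1), ε * ‖(1 / ‖r i‖ ^ 2) • x i‖ := by rw [mul_sum]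
        _ ≤ ∑ i ∈ range (k + 1), 51 / 50 * (1 / ‖r i‖) := by
            apply sum_le_sum
            intro i hi
            have hi' : i ≤ k := by simp at hi; omega
            have hp := hpos i hi'
            have hx := (hS i hi').2.xn
            rw [norm_smul, Real.norm_eq_abs, abs_of_nonneg (by positivity)]
            calc ε * (1 / ‖r i‖ ^ 2 * ‖x i‖) = (‖x i‖ * ε) * (1 / ‖r i‖ ^ 2) := by ring
              _ ≤ (51 / 50 * ‖r i‖) * (1 / ‖r i‖ ^ 2) :=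
                  mul_le_mul_of_nonneg_right hx (by positivity)
              _ = 51 / 50 * (1 / ‖r i‖) := by field_simp
        _ = 51 / 50 * ∑ i ∈ range (k + 1), 1 / ‖r i‖ := by rw [mul_sum]
    have h2 := Sk_sq_le r k
    rw [← hV] at h2
    have h3 : (ε * ‖Yk r x k‖) ^ 2 ≤ (51 / 50 * Sk r k) ^ 2 :=
      pow_le_pow_left₀ (by positivity) h1 2
    rw [yk, ← hV, norm_smul, Real.norm_eq_abs, abs_of_pos hVi0]
    calc ε ^ 2 * (1 / V * ‖Yk r x k‖) ^ 2 = (1 / V) ^ 2 * (ε * ‖Yk r x k‖) ^ 2 := by ring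
      _ ≤ (1 / V) ^ 2 * (21 / 20 * ((k + 1) * V)) := by
          apply mul_le_mul_of_nonneg_left _ (by positivity)
          nlinarith
      _ = 21 / 20 * ((k + 1) * (1 / V)) := by field_simp

/-- energy inequality for a coercive operator -/
theorem SM.coer (hT : GoodOp T) {κ : ℝ} (hκ1 : 1 ≤ κ) (hκ : ∀ v, ‖v‖ ^ 2 ≤ κ * ⟪v, T v⟫_ℝ)
    {k : ℕ} (h : SM T ε b x r k) (z : E) :
    Phi T b z ≤ Phi T b (x k) + 51 / 100 * κ * (1 / Vk r k) := by
  set y := yk r x k with hy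
  have h1 := Phi_two hT b z y (x k)
  have h2 := h.tan
  have h3 := h.res
  rw [← hy] at h2 h3
  set v := b - T y with hv
  set w := z - y with hw
  have h4 := hκ w
  have h5 : ⟪v, w⟫_ℝ ≤ κ / 2 * ‖v‖ ^ 2 + 1 / 2 * ⟪w, T w⟫_ℝ := by
    have e1 := real_inner_le_norm v w
    have e2 : κ * (‖v‖ * ‖w‖) ≤ κ * (κ / 2 * ‖v‖ ^ 2 + 1 / 2 * ⟪w, T w⟫_ℝ) := by
      nlinarith [sq_nonneg (κ * ‖v‖ - ‖w‖)]
    have e3 := le_of_mul_le_mul_left e2 (by linarith)
    linarith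
  have h6 : κ / 2 * ‖v‖ ^ 2 ≤ κ / 2 * (101 / 100 * (1 / Vk r k)) :=
    mul_le_mul_of_nonneg_left h3 (by linarith)
  have h7 : 1 / Vk r k ≤ κ * (1 / Vk r k) := by
    have : 0 ≤ 1 / Vk r k := by have := Vk_nonneg r k; positivity
    nlinarith
  generalize 1 / Vk r k = R at h2 h3 h6 h7 ⊢
  nlinarith

/-- energy inequality without coercivity -/
theorem SM.any (hT : GoodOp T) (hε : 0 < ε) {ρ : ℝ} (hρ : 0 < ρ)
    {k : ℕ} (hρ2 : ρ ^ 2 = 1 / Vk r k) (h : SM T ε b x r k) {z : E} {N s : ℝ}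
    (hz : ‖z‖ * ε ≤ 51 / 50 * N) (hN : 0 ≤ N) (hs0 : 0 ≤ s) (hs : (k : ℝ) + 1 ≤ s ^ 2)
    (hε1 : ε ≤ 1) :
    ε * Phi T b z ≤ ε * Phi T b (x k) + 26 / 25 * (ρ * N + s * ρ ^ 2) := by
  set y := yk r x k with hy
  have h1 := Phi_two hT b z y (x k)
  have h2 := h.tan
  have h3 := h.res
  have h4 := h.nrm
  rw [← hy, ← hρ2] at h2 h3 h4
  have h5 := hT.pos (z - y)
  have h6 : ‖b - T y‖ ≤ 201 / 200 * ρ := by
    apply le_of_sq_le_sq _ (by positivity)
    nlinarith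
  have h7 : ε * ‖y‖ ≤ 103 / 100 * (s * ρ) := by
    apply le_of_sq_le_sq _ (by positivity)
    have : (k + 1) * ρ ^ 2 ≤ s ^ 2 * ρ ^ 2 := mul_le_mul_of_nonneg_right hs (by positivity)
    nlinarith
  have h8 : ε * ‖z - y‖ ≤ 51 / 50 * N + 103 / 100 * (s * ρ) := by
    have := mul_le_mul_of_nonneg_left (norm_sub_le z y) hε.le
    linarith
  have h9 : ε * ⟪b - T y, z - y⟫_ℝ ≤ (201 / 200 * ρ) * (51 / 50 * N + 103 / 100 * (s * ρ)) := by
    have e1 := mul_le_mul_of_nonneg_left (real_inner_le_norm (b - T y) (z - y)) hε.le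
    have e2 : ε * (‖b - T y‖ * ‖z - y‖) = ‖b - T y‖ * (ε * ‖z - y‖) := by ring
    have e3 := mul_le_mul h6 h8 (by positivity) (by positivity)
    linarith
  have h10 : ε * ⟪b - T (x k), y - x k⟫_ℝ ≤ 1 / 1000 * ρ ^ 2 := by
    have e1 := mul_le_mul_of_nonneg_left h2 hε.le
    have e2 : ε * (1 / 1000 * ρ ^ 2) ≤ 1 * (1 / 1000 * ρ ^ 2) :=
      mul_le_mul_of_nonneg_right hε1 (by positivity)
    linarith
  have h11 : 1 ≤ s := by
    have : (0 : ℝ) ≤ k := Nat.cast_nonneg _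
    nlinarith
  have h12 : ρ ^ 2 ≤ s * ρ ^ 2 := by nlinarith [sq_nonneg ρ]
  have h13 : ε * Phi T b z ≤ ε * (Phi T b (x k) + ⟪b - T (x k), y - x k⟫_ℝ
      + ⟪b - T y, z - y⟫_ℝ) := mul_le_mul_of_nonneg_left (by linarith) hε.le
  have h14 : 0 ≤ ρ * N := by positivity
  have h15 : 0 ≤ s * ρ ^ 2 := by positivity
  nlinarith

end Pool.Agent.Lib.MP_02bbae_an
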