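import Mathlib
import Pool.Agent.Lib.MP_02bbae_an.SmoothEnergy
import Pool.Agent.Lib.MP_02bbae_an.SmoothScalar

/-!
# The accelerated rate from local relations: abstract theorems
-/

set_option autoImplicit false
set_option linter.unusedSectionVars false

open scoped InnerProductSpace RealInnerProductSpace
open Finset

namespace Pool.Agent.Lib.MP_02bbae_an

variable {E : Type*} [NormedAddCommGroup E] [InnerProductSpace ℝ E]
variable {T : E →ₗ[ℝ] E} {ε L γ M : ℝ} {m : ℕ} {b : E} {x r p : ℕ → E} {α β σ : ℕ → ℝ}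

/-- the parameters from one smallness condition -/
theorem ParM.of (hε : 0 < ε) (hε1 : ε ≤ 1) (hγ : 0 ≤ γ) (hm : 1 ≤ m)
    (hM : 13 * m ≤ M * ε ^ 2) (H : 100000 * (γ * M ^ 16) ≤ 1) : ParM ε (5 / ε ^ 2) γ M m := by
  have hm1 : (1 : ℝ) ≤ m := by exact_mod_cast hm
  have hε2 : 0 < ε ^ 2 := by positivity
  have hε21 : ε ^ 2 ≤ 1 := by nlinarith
  have hM0 : 0 < M := by
    by_contra hc
    push Not at hc
    have : M * ε ^ 2 ≤ 0 := mul_nonpos_of_nonpos_of_nonneg hc hε2.le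
    linarith
  have hM13 : 13 * (m : ℝ) ≤ M := by nlinarith
  have hM1 : 1 ≤ M := by linarith
  have hLM : 5 / ε ^ 2 ≤ M := by
    rw [div_le_iff₀ hε2]; linarith
  refine ⟨⟨hε, hε1, by field_simp, hγ, hm, ?_⟩, hM, H⟩
  have h1 : (5 / ε ^ 2) ^ 4 * γ ≤ M ^ 4 * γ :=
    mul_le_mul_of_nonneg_right (pow_le_pow_left₀ (by positivity) hLM 4) hγ
  have h2 : (m : ℝ) * ((5 / ε ^ 2) ^ 4 * γ) ≤ M * (M ^ 4 * γ) :=
    mul_le_mul (by linarith) h1 (by positivity) hM0.le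
  have h3 : M * (M ^ 4 * γ) = γ * M ^ 5 := by ring
  have h4 : γ * M ^ 6 ≤ γ * M ^ 16 :=
    mul_le_mul_of_nonneg_left (pow_le_pow_right₀ hM1 (by norm_num)) hγ
  have h5 : γ * M ^ 6 = (γ * M ^ 5) * M := by ring
  have h6 : 1 ≤ M * ε := by
    have : M * ε ^ 2 ≤ M * ε := by
      apply mul_le_mul_of_nonneg_left _ hM0.le
      nlinarith
    linarith
  have h7 : 0 ≤ γ * M ^ 5 := by positivity
  have h8 : (γ * M ^ 5) * 1 ≤ (γ * M ^ 5) * (M * ε) := mul_le_mul_of_nonneg_left h6 h7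
  have h9 : (γ * M ^ 5) * (M * ε) = (γ * M ^ 6) * ε := by ring
  have h10 : (γ * M ^ 6) * ε ≤ (1 / 100000) * ε :=
    mul_le_mul_of_nonneg_right (by linarith) hε.le
  linarith

/-- the scalar data of a run all of whose iterates fail -/
theorem Sc_of (hT : GoodOp T) (hP : ParM ε L γ M m) (hb : ‖b‖ = 1)
    (H : PCG T γ m b x r p α β σ) (hF : ∀ j ≤ m, Fail T ε b x j) :
    Sc ε m (fun k => Phi T b (x k)) (fun k => ‖r k‖) (Vk r) (fun k => α k * ‖r k‖ ^ 2) ∧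
      ∀ k ≤ m, SM T ε b x r k ∧ ‖x k‖ * ε ≤ 51 / 50 * ‖r k‖ := by
  obtain ⟨h1, h2⟩ := all_steps hT hP hb (le_refl m) H hF
  have h3 := LX_all hT hP hb (le_refl m) H hF
  refine ⟨⟨hP.par.hε, ?_, fun k _ => Vk_succ r k, fun k hk => (h1 k hk).2.Rl,
    fun k hk => (h2 k hk).inc, fun k hk => ?_, fun k hk => (h2 k hk).R5⟩,
    fun k hk => ⟨SM_of hP hk (fun j hj => h1 j (by omega)) (h3 k hk), (h1 k hk).2.xn⟩⟩
  · rw [Vk_zero, H.r0, hb]; norm_num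
  · exact mul_le_mul_of_nonneg_right (h2 k hk).ha (by positivity)

/-- the case of a finite condition number -/
theorem sharp_fin (hT : GoodOp T) {κ : ℝ} (hκ1 : 1 ≤ κ) (hκ : ∀ v, ‖v‖ ^ 2 ≤ κ * ⟪v, T v⟫_ℝ)
    (hP : ParM ε L γ M m) (hb : ‖b‖ = 1) (H : PCG T γ m b x r p α β σ) {q J : ℕ}
    (hq : 6 * κ ≤ (q : ℝ) ^ 2) (hJ : 51 / 100 * κ < 2 ^ J * (456 / 1000 * ε ^ 2))
    (hm : q * J < m) : ∃ k ≤ m, ¬ Fail T ε b x k := by
  by_contra hcon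
  push Not at hcon
  obtain ⟨h1, h2⟩ := Sc_of hT hP hb H hcon
  exact h1.fin_case hκ1 (fun k hk => (h2 k hk).1.coer hT hκ1 hκ (x m)) hq hJ hm

/-- the general case -/
theorem sharp_inf (hT : GoodOp T) (hP : ParM ε L γ M m) (hb : ‖b‖ = 1)
    (H : PCG T γ m b x r p α β σ) {q J : ℕ} {s : ℝ} (hs : 0 ≤ s) (hsm : (m : ℝ) + 1 ≤ s ^ 2)
    (hq0 : 1 ≤ q) (hq : 562 ≤ (q : ℝ) ^ 3 * ε ^ 2) (hqs : 22 * s ≤ (q : ℝ) ^ 2 * ε)
    (hJ : (m + 1) * (100 / 98 * (1 / ε ^ 2)) < 2 ^ J) (hm : 2 * q * J ≤ m) :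
    ∃ k ≤ m, ¬ Fail T ε b x k := by
  by_contra hcon
  push Not at hcon
  obtain ⟨h1, h2⟩ := Sc_of hT hP hb H hcon
  refine h1.inf_case hs hP.par.hε1 ?_ hq0 hq hqs hJ hm
  intro k j hkj hj ρ hρ hρ2
  refine (h2 k (by omega)).1.any hT hP.par.hε hρ hρ2 (h2 j hj).2 (norm_nonneg _) hs ?_ hP.par.hε1
  have : (k : ℝ) ≤ m := by exact_mod_cast (show k ≤ m by omega)
  linarith

end Pool.Agent.Lib.MP_02bbae_an
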