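import Mathlib
import Pool.Agent.Lib.MP_02bbae_an.SmoothMain

/-!
# A second energy inequality
-/

set_option autoImplicit false
set_option linter.unusedSectionVars false

open scoped InnerProductSpace RealInnerProductSpace
open Finset

namespace Pool.Agent.Lib.MP_02bbae_an

variable {E : Type*} [NormedAddCommGroup E] [InnerProductSpace ℝ E]
variable {T : E →ₗ[ℝ] E} {ε L γ M : ℝ} {m : ℕ} {b : E} {x r p : ℕ → E} {α β σ : ℕ → ℝ}

/-- the data of a run all of whose iterates fail -/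
structure Dat (T : E →ₗ[ℝ] E) (ε γ M : ℝ) (b : E) (x r : ℕ → E) (α : ℕ → ℝ) (m : ℕ) : Prop where
  op : GoodOp T
  γ0 : 0 ≤ γ
  hε : 0 < ε
  hε1 : ε ≤ 1
  M1 : 1 ≤ M
  mM : (m : ℝ) + 1 ≤ M
  sm : 100000 * (γ * M ^ 24) ≤ 1
  x0 : x 0 = 0
  r0 : ‖r 0‖ = 1
  pos : ∀ k ≤ m, 0 < ‖r k‖
  R1 : ∀ k ≤ m, ‖r k‖ ≤ M
  R2 : ∀ k ≤ m, 1 ≤ M * ‖r k‖
  X : ∀ k ≤ m, ‖x k‖ ≤ M
  xn : ∀ k ≤ m, ‖x k‖ * ε ≤ 51 / 50 * ‖r k‖
  gap : ∀ k ≤ m, ‖b - T (x k) - r k‖ ≤ 6 * (γ * M ^ 3)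
  a1 : ∀ k < m, 19 / 20 ≤ α k
  aM : ∀ k < m, α k ≤ M
  R5 : ∀ k < m, ‖r (k + 1)‖ ^ 2 ≤ 5 * (α k * ‖r k‖ ^ 2)
  inc : ∀ k < m, Phi T b (x k) + 49 / 100 * (α k * ‖r k‖ ^ 2) ≤ Phi T b (x (k + 1))
  dx : ∀ k < m, ‖x (k + 1) - x k - (α k * ‖r k‖ ^ 2) • pih r k‖ ≤ 5 * (γ * M ^ 6)
  lx : ∀ k ≤ m, LX γ M x r k

theorem Dat.of (hT : GoodOp T) (hP : ParM ε L γ M m) (hb : ‖b‖ = 1)
    (hG : 100000 * (γ * M ^ 24) ≤ 1)
    (H : PCG T γ m b x r p α β σ) (hF : ∀ j ≤ m, Fail T ε b x j) : Dat T ε γ M b x r α m := by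
  obtain ⟨h1, h2⟩ := all_steps hT hP hb (le_refl m) H hF
  have h3 := LX_all hT hP hb (le_refl m) H hF
  have hγ0 := hP.par.hγ0
  have hM0 := hP.M0
  have hM1 := hP.M1
  have hmM := hP.mM
  have hL0 := hP.par.Lpos
  have hLM := hP.LM
  have hcr : ∀ j ≤ m, CB ε M x r j := fun j hj => crude hP (h1 j hj).1 (h1 j hj).2
  have hpos : ∀ j ≤ m, 0 < ‖r j‖ := fun j hj => (h1 j hj).1.pos
  have hM13 := hP.M13
  have hm1 := hP.par.m1
  refine ⟨hT, hγ0, hP.par.hε, hP.par.hε1, hM1, by linarith, hG, H.x0, by rw [H.r0, hb], hpos,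
    fun k hk => (hcr k hk).R1, fun k hk => (hcr k hk).R2, fun k hk => (hcr k hk).X,
    fun k hk => (h1 k hk).2.xn, ?_, fun k hk => (h2 k hk).ha,
    fun k hk => alpha_le hP (h1 k hk.le).1 (h2 k hk), fun k hk => (h2 k hk).R5,
    fun k hk => (h2 k hk).inc, ?_, h3⟩
  · intro j hj
    refine le_trans (h1 j hj).1.gap ?_
    have e1 : (j : ℝ) ≤ M := by
      have : (j : ℝ) ≤ m := by exact_mod_cast hj
      linarith
    have e2 : L ^ 2 * γ ≤ M ^ 2 * γ := mul_le_mul_of_nonneg_right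
      (pow_le_pow_left₀ hL0.le hLM 2) hγ0
    have e3 : (j : ℝ) * (L ^ 2 * γ) ≤ M * (M ^ 2 * γ) :=
      mul_le_mul e1 e2 (by positivity) hM0.le
    calc 6 * (j : ℝ) * (L ^ 2 * γ) = 6 * ((j : ℝ) * (L ^ 2 * γ)) := by ring
      _ ≤ 6 * (M * (M ^ 2 * γ)) := by linarith
      _ = 6 * (γ * M ^ 3) := by ring
  · intro k hk
    have hO := h2 k hk
    have hNk := hpos k hk.le
    have hkm : (k : ℝ) + 1 ≤ m := by exact_mod_cast hk
    have hk0 : (0 : ℝ) ≤ k := Nat.cast_nonneg _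
    have hRk := (hcr k hk.le).R1
    have hαM := alpha_le hP (h1 k hk.le).1 hO
    have hα0 : 0 < α k := by have := hO.ha; linarith
    have hkγ : (k : ℝ) * γ ≤ 1 / 100 := by
      have h1 := hP.γM (a := 1) (by norm_num)
      rw [pow_one] at h1
      have h2 : (k : ℝ) * γ ≤ M * γ := mul_le_mul_of_nonneg_right (by linarith) hγ0
      linarith
    have hpos' : ∀ j ≤ k, 0 < ‖r j‖ := fun j hj => hpos j (by omega)
    have hfk : ‖p k - ‖r k‖ ^ 2 • pih r k‖ ≤ (3 * k * γ) * Pk r k :=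
      f_bound hγ0 hkγ (by rw [H.p0, H.r0])
        (fun j hj => H.hp j (by omega)) (fun j hj => H.hβ j (by omega)) hpos' k (le_refl k)
    have hSk : Sk r k ≤ (k + 1) * M :=
      Sk_le hM0 hpos' (fun j hj => (hcr j (by omega)).R2)
    have hSk0 := Sk_nonneg r k
    have hSk2 : Sk r k ≤ M ^ 2 := by nlinarith
    have hPk4 : Pk r k ≤ M ^ 4 := by
      unfold Pk
      calc ‖r k‖ ^ 2 * Sk r k ≤ M ^ 2 * M ^ 2 :=
            mul_le_mul (pow_le_pow_left₀ hNk.le hRk 2) hSk2 hSk0 (by positivity)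
        _ = M ^ 4 := by ring
    have e1 : x (k + 1) - x k - (α k * ‖r k‖ ^ 2) • pih r k =
        (x (k + 1) - (x k + α k • p k)) + α k • (p k - ‖r k‖ ^ 2 • pih r k) := by
      rw [smul_sub, smul_smul]; abel
    rw [e1]
    refine le_trans (norm_add_le _ _) ?_
    rw [norm_smul, Real.norm_eq_abs, abs_of_pos hα0]
    have hLN : L * ‖r k‖ ≤ M ^ 2 := by
      calc L * ‖r k‖ ≤ M * M := mul_le_mul hLM hRk hNk.le hM0.le
        _ = M ^ 2 := by ring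
    have e2 : ‖x (k + 1) - (x k + α k • p k)‖ ≤ 5 / 4 * (γ * M ^ 2) := by
      refine le_trans hO.eb ?_
      apply mul_le_mul_of_nonneg_left _ (by norm_num)
      exact mul_le_mul_of_nonneg_left hLN hγ0
    have e3 : ‖p k - ‖r k‖ ^ 2 • pih r k‖ ≤ 3 * (γ * M ^ 5) := by
      refine le_trans hfk ?_
      have f1 : (k : ℝ) * Pk r k ≤ M * M ^ 4 := mul_le_mul (by linarith) hPk4 (Pk_nonneg r k) hM0.le
      have f2 := mul_le_mul_of_nonneg_left f1 hγ0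
      calc (3 * k * γ) * Pk r k = 3 * (γ * (k * Pk r k)) := by ring
        _ ≤ 3 * (γ * (M * M ^ 4)) := by linarith
        _ = 3 * (γ * M ^ 5) := by ring
    have e4 : α k * ‖p k - ‖r k‖ ^ 2 • pih r k‖ ≤ M * (3 * (γ * M ^ 5)) :=
      mul_le_mul hαM e3 (norm_nonneg _) hM0.le
    have e5 : M * (3 * (γ * M ^ 5)) = 3 * (γ * M ^ 6) := by ring
    have e6 := hP.pow_mono (show 2 ≤ 6 by norm_num)
    have e7 : 0 ≤ γ * M ^ 6 := by positivity
    linarith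

namespace Dat

variable (h : Dat T ε γ M b x r α m)
include h

theorem M0 : 0 < M := by linarith [h.M1]

theorem γM {a : ℕ} (ha : a ≤ 24) : γ * M ^ a ≤ 1 / 100000 := by
  have h1 := h.sm
  have h2 : M ^ a ≤ M ^ 24 := pow_le_pow_right₀ h.M1 ha
  have h3 := mul_le_mul_of_nonneg_left h2 h.γ0
  linarith

theorem pow_mono {a c : ℕ} (hac : a ≤ c) : γ * M ^ a ≤ γ * M ^ c :=
  mul_le_mul_of_nonneg_left (pow_le_pow_right₀ h.M1 hac) h.γ0

theorem Vpos (k : ℕ) : 0 < Vk r k := Vk_pos (h.pos 0 (Nat.zero_le _))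

theorem VM {k : ℕ} (hk : k ≤ m) : Vk r k ≤ M ^ 3 := by
  have hM0 := h.M0
  have h1 : ∀ i ∈ range (k + 1), 1 / ‖r i‖ ^ 2 ≤ M ^ 2 := by
    intro i hi
    have hi' : i ≤ k := by simp at hi; omega
    rw [div_le_iff₀ (pow_pos (h.pos i (by omega)) 2), ← mul_pow]
    have := h.R2 i (by omega)
    nlinarith
  have h2 := sum_le_card_nsmul _ _ _ h1
  rw [card_range, nsmul_eq_mul] at h2
  push_cast at h2
  have hkm : (k : ℝ) ≤ m := by exact_mod_cast hk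
  have h3 : ((k : ℝ) + 1) * M ^ 2 ≤ M * M ^ 2 :=
    mul_le_mul_of_nonneg_right (by linarith [h.mM]) (by positivity)
  calc Vk r k ≤ ((k : ℝ) + 1) * M ^ 2 := h2
    _ ≤ M * M ^ 2 := h3
    _ = M ^ 3 := by ring

theorem invN {k : ℕ} : 1 / ‖r k‖ ^ 2 ≤ Vk r k := by
  have := h.γ0
  unfold Vk
  apply single_le_sum (f := fun i => 1 / ‖r i‖ ^ 2) (fun _ _ => by positivity)
  simp

theorem τpos {k : ℕ} (hk : k < m) : 0 < α k * ‖r k‖ ^ 2 := by
  have h1 := h.a1 k hk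
  have h2 := h.pos k hk.le
  have : 0 < α k := by linarith
  positivity

theorem τM {k : ℕ} (hk : k < m) : α k * ‖r k‖ ^ 2 ≤ M ^ 3 := by
  have h1 := h.aM k hk
  have h2 := h.pos k hk.le
  have h3 := h.R1 k hk.le
  calc α k * ‖r k‖ ^ 2 ≤ M * M ^ 2 :=
        mul_le_mul h1 (pow_le_pow_left₀ h2.le h3 2) (by positivity) h.M0.le
    _ = M ^ 3 := by ring

/-- the norm of `pih` -/
theorem pi_sq {k : ℕ} (hk : k ≤ m) : 999 / 1000 * Vk r k ≤ ‖pih r k‖ ^ 2 ∧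
    ‖pih r k‖ ≤ 1001 / 1000 * Real.sqrt (Vk r k) := by
  have hV := h.Vpos k
  have h1 := (h.lx k hk).pi
  have h2 : 16 * (γ * M ^ 9) * Vk r k ≤ 16 / 100000 * Vk r k := by
    apply mul_le_mul_of_nonneg_right _ hV.le
    have := h.γM (a := 9) (by norm_num)
    linarith
  obtain ⟨h3, h4⟩ := abs_le.mp h1
  refine ⟨by linarith, ?_⟩
  apply le_of_sq_le_sq _ (by positivity)
  rw [mul_pow, Real.sq_sqrt hV.le]
  linarith

/-- the length of a step -/
theorem dxn {k : ℕ} (hk : k < m) :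
    ‖x (k + 1) - x k‖ ≤ 1002 / 1000 * (α k * ‖r k‖ ^ 2 * Real.sqrt (Vk r k)) := by
  have hV := h.Vpos k
  have hN := h.pos k hk.le
  have hτ := h.τpos hk
  have hM0 := h.M0
  obtain ⟨-, h1⟩ := h.pi_sq hk.le
  set τ := α k * ‖r k‖ ^ 2 with hτd
  set v := Real.sqrt (Vk r k) with hv
  have hv0 : 0 < v := Real.sqrt_pos.mpr hV
  have h2 : ‖x (k + 1) - x k‖ ≤ ‖x (k + 1) - x k - τ • pih r k‖ + ‖τ • pih r k‖ := by
    have := norm_add_le (x (k + 1) - x k - τ • pih r k) (τ • pih r k)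
    rwa [sub_add_cancel] at this
  rw [norm_smul, Real.norm_eq_abs, abs_of_pos hτ] at h2
  have h3 := h.dx k hk
  rw [← hτd] at h3
  have h4 : τ * ‖pih r k‖ ≤ τ * (1001 / 1000 * v) := mul_le_mul_of_nonneg_left h1 hτ.le
  have h5 : 1 / ‖r k‖ ≤ v := by
    apply Real.le_sqrt_of_sq_le
    rw [div_pow, one_pow]
    exact h.invN
  have h6 : 19 / 20 * ‖r k‖ ≤ τ * v := by
    have e1 : 19 / 20 * ‖r k‖ ^ 2 ≤ τ := mul_le_mul_of_nonneg_right (h.a1 k hk) (by positivity)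
    calc 19 / 20 * ‖r k‖ = (19 / 20 * ‖r k‖ ^ 2) * (1 / ‖r k‖) := by field_simp
      _ ≤ τ * v := mul_le_mul e1 h5 (by positivity) hτ.le
  have h7 : 5 * (γ * M ^ 6) ≤ 1 / 1000 * (τ * v) := by
    have e1 := h.R2 k hk.le
    have e2 := h.γM (a := 7) (by norm_num)
    have e3 : γ * M ^ 6 ≤ (γ * M ^ 6) * (M * ‖r k‖) := by
      have : 0 ≤ γ * M ^ 6 := by have := h.γ0; positivity
      nlinarith
    have e4 : (γ * M ^ 6) * (M * ‖r k‖) = (γ * M ^ 7) * ‖r k‖ := by ring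
    have e5 : (γ * M ^ 7) * ‖r k‖ ≤ 1 / 100000 * ‖r k‖ := mul_le_mul_of_nonneg_right e2 hN.le
    linarith
  linarith

/-- the distance between the iterates and the smoothed iterates -/
theorem Qn {K : ℕ} (hK : K ≤ m) {k : ℕ} (hk : k < K) :
    ‖Vk r k • x (k + 1) - Yk r x k‖ ≤ 1002 / 1000 * (Real.sqrt (Vk r K) *
      ∑ l ∈ range (k + 1), α l * ‖r l‖ ^ 2 * Vk r l) := by
  have hstep : ∀ l < K, ‖Vk r l • (x (l + 1) - x l)‖ ≤
      1002 / 1000 * (Real.sqrt (Vk r K) * (α l * ‖r l‖ ^ 2 * Vk r l)) := by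
    intro l hl
    have hV := h.Vpos l
    rw [norm_smul, Real.norm_eq_abs, abs_of_pos hV]
    have h1 := mul_le_mul_of_nonneg_left (h.dxn (show l < m by omega)) hV.le
    have h2 : Real.sqrt (Vk r l) ≤ Real.sqrt (Vk r K) := Real.sqrt_le_sqrt (Vk_mono hl.le)
    have h3 : (α l * ‖r l‖ ^ 2 * Vk r l) * Real.sqrt (Vk r l) ≤
        (α l * ‖r l‖ ^ 2 * Vk r l) * Real.sqrt (Vk r K) := by
      apply mul_le_mul_of_nonneg_left h2
      have := h.τpos (show l < m by omega)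
      positivity
    linarith
  induction k with
  | zero =>
    have h1 := hstep 0 hk
    have e1 : Vk r 0 • x (0 + 1) - Yk r x 0 = Vk r 0 • (x (0 + 1) - x 0) := by
      rw [smul_sub, Vk_zero, Yk_zero]
    rw [e1, zero_add, sum_range_one]
    exact h1
  | succ k ih =>
    have h1 := hstep (k + 1) hk
    have h2 := ih (by omega)
    have e1 : Vk r (k + 1) • x (k + 1 + 1) - Yk r x (k + 1) =
        (Vk r k • x (k + 1) - Yk r x k) + Vk r (k + 1) • (x (k + 1 + 1) - x (k + 1)) := by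
      rw [smul_sub, Yk_succ, Vk_succ, add_smul, add_smul]
      abel
    rw [e1, sum_range_succ, mul_add, mul_add]
    exact le_trans (norm_add_le _ _) (by linarith)

/-- the telescoping sum -/
theorem tele (W : E) (c : ℝ) (K : ℕ) :
    ∑ k ∈ range K, (2 * ⟪x (k + 1) - x k, W - c • x (k + 1)⟫_ℝ + c * ‖x (k + 1) - x k‖ ^ 2) =
      2 * ⟪x K, W⟫_ℝ - c * ‖x K‖ ^ 2 := by
  induction K with
  | zero => simp [h.x0]
  | succ K ih =>
    rw [sum_range_succ, ih]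
    rw [norm_sub_sq_real, inner_sub_left, inner_sub_right, inner_sub_right, inner_smul_right,
      inner_smul_right, real_inner_self_eq_norm_sq, real_inner_comm (x (K + 1)) (x K)]
    ring

theorem upper_sum {K1 : ℕ} (q : ℕ) (hq : K1 + q ≤ m) :
    2 * ⟪x K1, Yk r x (K1 + q) - Yk r x K1⟫_ℝ - (Vk r (K1 + q) - Vk r K1) * ‖x K1‖ ^ 2 ≤
      q * (10404 / 10000 * (1 / ε ^ 2)) := by
  have hε := h.hε
  induction q with
  | zero => simp
  | succ q ih =>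
    have h1 := ih (by omega)
    have hN := h.pos (K1 + q + 1) (by omega)
    have hx := h.xn (K1 + q + 1) (by omega)
    rw [← add_assoc, Yk_succ, Vk_succ]
    have e1 : 2 * ⟪x K1, Yk r x (K1 + q) + (1 / ‖r (K1 + q + 1)‖ ^ 2) • x (K1 + q + 1)
        - Yk r x K1⟫_ℝ - (Vk r (K1 + q) + 1 / ‖r (K1 + q + 1)‖ ^ 2 - Vk r K1) * ‖x K1‖ ^ 2 =
        (2 * ⟪x K1, Yk r x (K1 + q) - Yk r x K1⟫_ℝ -
          (Vk r (K1 + q) - Vk r K1) * ‖x K1‖ ^ 2) +
        (1 / ‖r (K1 + q + 1)‖ ^ 2) * (2 * ⟪x K1, x (K1 + q + 1)⟫_ℝ - ‖x K1‖ ^ 2) := by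
      rw [inner_sub_right, inner_sub_right, inner_add_right, inner_smul_right]
      ring
    rw [e1]
    have e2 : 2 * ⟪x K1, x (K1 + q + 1)⟫_ℝ - ‖x K1‖ ^ 2 ≤ ‖x (K1 + q + 1)‖ ^ 2 := by
      have := norm_sub_sq_real (x K1) (x (K1 + q + 1))
      have h0 : 0 ≤ ‖x K1 - x (K1 + q + 1)‖ ^ 2 := by positivity
      linarith
    have e3 : (‖x (K1 + q + 1)‖ * ε) ^ 2 ≤ (51 / 50 * ‖r (K1 + q + 1)‖) ^ 2 :=
      pow_le_pow_left₀ (by positivity) hx 2
    have e4 : (1 / ‖r (K1 + q + 1)‖ ^ 2) * ‖x (K1 + q + 1)‖ ^ 2 ≤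
        10404 / 10000 * (1 / ε ^ 2) := by
      rw [one_div_mul_eq_div, mul_one_div, div_le_div_iff₀ (by positivity) (by positivity)]
      have : (‖x (K1 + q + 1)‖ * ε) ^ 2 = ‖x (K1 + q + 1)‖ ^ 2 * ε ^ 2 := by ring
      rw [← this]
      linarith
    have e5 := mul_le_mul_of_nonneg_left e2 (by positivity : 0 ≤ 1 / ‖r (K1 + q + 1)‖ ^ 2)
    push_cast
    linarith

theorem lower_sum {K1 k : ℕ} (q : ℕ) (hq : K1 + q ≤ m) :
    (Vk r (K1 + q) - Vk r K1) * (Phi T b (x K1) - Phi T b (x (k + 1))) ≤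
      ⟪b - T (x (k + 1)), (Yk r x (K1 + q) - Yk r x K1) -
        (Vk r (K1 + q) - Vk r K1) • x (k + 1)⟫_ℝ := by
  induction q with
  | zero => simp
  | succ q ih =>
    have h1 := ih (by omega)
    have hN := h.pos (K1 + q + 1) (by omega)
    rw [← add_assoc, Yk_succ, Vk_succ]
    have e1 : Yk r x (K1 + q) + (1 / ‖r (K1 + q + 1)‖ ^ 2) • x (K1 + q + 1) - Yk r x K1 -
        (Vk r (K1 + q) + 1 / ‖r (K1 + q + 1)‖ ^ 2 - Vk r K1) • x (k + 1) =
        ((Yk r x (K1 + q) - Yk r x K1) - (Vk r (K1 + q) - Vk r K1) • x (k + 1)) +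
        (1 / ‖r (K1 + q + 1)‖ ^ 2) • (x (K1 + q + 1) - x (k + 1)) := by
      simp only [smul_sub, sub_smul, add_smul]
      abel
    rw [e1, inner_add_right, inner_smul_right]
    have e2 := Phi_sub h.op b (x (K1 + q + 1)) (x (k + 1))
    have e3 := h.op.pos (x (K1 + q + 1) - x (k + 1))
    have e4 : ∀ j, K1 + j ≤ m → Phi T b (x K1) ≤ Phi T b (x (K1 + j)) := by
      intro j
      induction j with
      | zero => intro _; simp
      | succ j ihj =>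
        intro hj
        have f1 := ihj (by omega)
        have f2 := h.inc (K1 + j) (by omega)
        have f3 := h.τpos (show K1 + j < m by omega)
        rw [← add_assoc]
        linarith
    have e5 := e4 (q + 1) hq
    rw [← add_assoc] at e5
    have e6 : Phi T b (x K1) - Phi T b (x (k + 1)) ≤
        ⟪b - T (x (k + 1)), x (K1 + q + 1) - x (k + 1)⟫_ℝ := by linarith
    have e7 := mul_le_mul_of_nonneg_left e6 (by positivity : 0 ≤ 1 / ‖r (K1 + q + 1)‖ ^ 2)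
    linarith

theorem Phi_diff {k : ℕ} (j : ℕ) (hj : k + j ≤ m) :
    49 / 100 * (Ek r α (k + j) - Ek r α k) ≤ Phi T b (x (k + j)) - Phi T b (x k) := by
  induction j with
  | zero => simp
  | succ j ih =>
    have h1 := ih (by omega)
    have h2 := h.inc (k + j) (by omega)
    rw [← add_assoc, Ek_succ]
    linarith

/-- one term -/
theorem term {K1 k : ℕ} (hk : k < K1) (hK1 : K1 ≤ m) :
    2 * (α k * ‖r k‖ ^ 2) * (Vk r k * ((Vk r m - Vk r K1) *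
        (49 / 100 * (Ek r α K1 - Ek r α (k + 1)))) -
      (1002 / 1000 * (Real.sqrt (Vk r K1) * ∑ l ∈ range (k + 1), α l * ‖r l‖ ^ 2 * Vk r l)) *
        (1001 / 1000 * (Real.sqrt (Vk r m) + Real.sqrt (Vk r K1)))) +
      (Vk r m - Vk r K1) * ((α k * ‖r k‖ ^ 2) ^ 2 * (999 / 1000 * Vk r k)) ≤
    (2 * ⟪x (k + 1) - x k, (Yk r x m - Yk r x K1) - (Vk r m - Vk r K1) • x (k + 1)⟫_ℝ +
      (Vk r m - Vk r K1) * ‖x (k + 1) - x k‖ ^ 2) + 280 * (γ * M ^ 22) := by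
  have hγ0 := h.γ0
  have hM0 := h.M0
  have hM1 := h.M1
  have hkm : k < m := by omega
  have hV0 := h.Vpos k
  have hVk1 : Vk r k ≤ Vk r (k + 1) := Vk_mono (Nat.le_succ k)
  have hVm := h.VM (le_refl m)
  have hV1m : Vk r K1 ≤ Vk r m := Vk_mono hK1
  have hV10 := h.Vpos K1
  have hτ0 := h.τpos hkm
  have hτM := h.τM hkm
  have hd := h.dx k hkm
  obtain ⟨hpi1, hpi2⟩ := h.pi_sq hkm.le
  obtain ⟨-, hpim⟩ := h.pi_sq (le_refl m)
  obtain ⟨-, hpiK⟩ := h.pi_sq hK1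
  have hQ := h.Qn hK1 hk
  have hlow := h.lower_sum (K1 := K1) (k := k) (m - K1) (by omega)
  rw [show K1 + (m - K1) = m by omega] at hlow
  have hE := h.Phi_diff (k := k + 1) (K1 - (k + 1)) (by omega)
  rw [show k + 1 + (K1 - (k + 1)) = K1 by omega] at hE
  have hc := (h.lx (k + 1) (by omega)).c
  have hkM : ((k + 1 : ℕ) : ℝ) ≤ M := by
    have : ((k + 1 : ℕ) : ℝ) ≤ m := by exact_mod_cast (show k + 1 ≤ m by omega)
    linarith [h.mM]
  set V := Vk r m with hV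
  set V1 := Vk r K1 with hV1
  set Q := Vk r k • x (k + 1) - Yk r x k with hQd
  set τ := α k * ‖r k‖ ^ 2 with hτd
  set U := (Yk r x m - Yk r x K1) - (V - V1) • x (k + 1) with hU
  set d := x (k + 1) - x k - τ • pih r k with hdd
  set A := ∑ l ∈ range (k + 1), α l * ‖r l‖ ^ 2 * Vk r l with hA
  set g := b - T (x (k + 1)) - r (k + 1) with hg
  have hgn : ‖g‖ ≤ 6 * (γ * M ^ 3) := h.gap (k + 1) (by omega)
  have hΔ0 : 0 ≤ V - V1 := by linarith
  have hΔM : V - V1 ≤ M ^ 3 := by linarith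
  have hxk := h.X (k + 1) (by omega)
  have hYm : ‖Yk r x m‖ ≤ M ^ 4 := by
    have h1 := norm_Yk_le (r := r) (fun j (hj : j ≤ m) => h.X j hj)
    calc ‖Yk r x m‖ ≤ M * V := h1
      _ ≤ M * M ^ 3 := mul_le_mul_of_nonneg_left hVm hM0.le
      _ = M ^ 4 := by ring
  have hYK : ‖Yk r x K1‖ ≤ M ^ 4 := by
    have h1 := norm_Yk_le (r := r) (fun j (hj : j ≤ K1) => h.X j (hj.trans hK1))
    calc ‖Yk r x K1‖ ≤ M * V1 := h1
      _ ≤ M * M ^ 3 := mul_le_mul_of_nonneg_left (by linarith) hM0.le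
      _ = M ^ 4 := by ring
  have hUn : ‖U‖ ≤ 3 * M ^ 4 := by
    have h1 := norm_sub_le (Yk r x m - Yk r x K1) ((V - V1) • x (k + 1))
    have h2 := norm_sub_le (Yk r x m) (Yk r x K1)
    rw [norm_smul, Real.norm_eq_abs, abs_of_nonneg hΔ0] at h1
    have h3 : (V - V1) * ‖x (k + 1)‖ ≤ M ^ 3 * M :=
      mul_le_mul hΔM hxk (norm_nonneg _) (by positivity)
    have h4 : M ^ 3 * M = M ^ 4 := by ring
    linarith
  have hVkM : Vk r k ≤ M ^ 3 := h.VM hkm.le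
  have hVk1M : Vk r (k + 1) ≤ M ^ 3 := h.VM (show k + 1 ≤ m by omega)
  have hQn : ‖Q‖ ≤ 2 * M ^ 4 := by
    have h1 := norm_sub_le (Vk r k • x (k + 1)) (Yk r x k)
    rw [norm_smul, Real.norm_eq_abs, abs_of_pos hV0] at h1
    have h2 := norm_Yk_le (r := r) (fun j (hj : j ≤ k) => h.X j (by omega))
    have h3 : Vk r k * ‖x (k + 1)‖ ≤ M ^ 3 * M :=
      mul_le_mul hVkM hxk (norm_nonneg _) (by positivity)
    have h4 : M * Vk r k ≤ M * M ^ 3 := mul_le_mul_of_nonneg_left hVkM hM0.le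
    have h5 : M ^ 3 * M = M ^ 4 := by ring
    have h6 : M * M ^ 3 = M ^ 4 := by ring
    linarith
  have hGk : ‖Gk T b r x k‖ ≤ 6 * (γ * M ^ 6) := by
    have h1 := norm_Gk_le (T := T) (b := b) (r := r) (fun j (hj : j ≤ k) => h.gap j (by omega))
    calc ‖Gk T b r x k‖ ≤ 6 * (γ * M ^ 3) * Vk r k := h1
      _ ≤ 6 * (γ * M ^ 3) * M ^ 3 := mul_le_mul_of_nonneg_left hVkM (by positivity)
      _ = 6 * (γ * M ^ 6) := by ring
  have hGm : ‖Gk T b r x m‖ ≤ 6 * (γ * M ^ 6) := by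
    have h1 := norm_Gk_le (T := T) (b := b) (r := r) (fun j (hj : j ≤ m) => h.gap j hj)
    calc ‖Gk T b r x m‖ ≤ 6 * (γ * M ^ 3) * Vk r m := h1
      _ ≤ 6 * (γ * M ^ 3) * M ^ 3 := mul_le_mul_of_nonneg_left hVm (by positivity)
      _ = 6 * (γ * M ^ 6) := by ring
  have hGK : ‖Gk T b r x K1‖ ≤ 6 * (γ * M ^ 6) := by
    have h1 := norm_Gk_le (T := T) (b := b) (r := r) (fun j (hj : j ≤ K1) =>
      h.gap j (hj.trans hK1))
    calc ‖Gk T b r x K1‖ ≤ 6 * (γ * M ^ 3) * Vk r K1 := h1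
      _ ≤ 6 * (γ * M ^ 3) * M ^ 3 :=
          mul_le_mul_of_nonneg_left (h.VM hK1) (by positivity)
      _ = 6 * (γ * M ^ 6) := by ring
  -- the identities
  have hpi : pih r k = Vk r k • (b - T (x (k + 1))) + T Q - Gk T b r x k := by
    have h1 := TYk (T := T) (b := b) (r := r) (x := x) k
    rw [hQd, map_sub, map_smul, smul_sub]
    rw [eq_sub_iff_add_eq, ← h1]
    abel
  have hTU : T U = (V - V1) • (r (k + 1) + g) - (pih r m - pih r K1) -
      (Gk T b r x m - Gk T b r x K1) := by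
    have h1 := TYk (T := T) (b := b) (r := r) (x := x) m
    have h2 := TYk (T := T) (b := b) (r := r) (x := x) K1
    rw [← hV] at h1
    rw [← hV1] at h2
    have h3 : T (Yk r x m) = V • b - (pih r m + Gk T b r x m) := by rw [← h1]; abel
    have h4 : T (Yk r x K1) = V1 • b - (pih r K1 + Gk T b r x K1) := by rw [← h2]; abel
    have h5 : r (k + 1) + g = b - T (x (k + 1)) := by rw [hg]; abel
    rw [hU, map_sub, map_sub, map_smul, h3, h4, h5, smul_sub, sub_smul V V1 b]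
    abel
  have hin : ⟪pih r k, U⟫_ℝ = Vk r k * ⟪b - T (x (k + 1)), U⟫_ℝ +
      ((V - V1) * ⟪Q, r (k + 1)⟫_ℝ + (V - V1) * ⟪Q, g⟫_ℝ - ⟪Q, pih r m - pih r K1⟫_ℝ -
        ⟪Q, Gk T b r x m - Gk T b r x K1⟫_ℝ) - ⟪Gk T b r x k, U⟫_ℝ := by
    conv_lhs => rw [hpi]
    rw [inner_sub_left, inner_add_left, inner_smul_left, h.op.sym Q U, hTU]
    conv_lhs => rw [inner_sub_right (x := Q), inner_sub_right (x := Q), inner_smul_right,
      inner_add_right]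
    simp only [conj_trivial]
    ring
  -- bounds
  have b1 : |⟪Q, r (k + 1)⟫_ℝ| ≤ 60 * (γ * M ^ 16) := by
    have e1 : Vk r (k + 1) • x (k + 1) - Yk r x (k + 1) = Q := by
      rw [Vk_succ, Yk_succ, add_smul, hQd]; abel
    rw [e1] at hc
    rw [real_inner_comm]
    refine le_trans hc ?_
    have e2 : ((k + 1 : ℕ) : ℝ) * (60 * (γ * M ^ 12)) * Vk r (k + 1) ≤
        M * (60 * (γ * M ^ 12)) * M ^ 3 := by
      apply mul_le_mul _ hVk1M (h.Vpos _).le (by positivity)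
      exact mul_le_mul_of_nonneg_right hkM (by positivity)
    calc _ ≤ M * (60 * (γ * M ^ 12)) * M ^ 3 := e2
      _ = 60 * (γ * M ^ 16) := by ring
  have b2 : |⟪Q, g⟫_ℝ| ≤ 12 * (γ * M ^ 7) := by
    refine le_trans (abs_real_inner_le_norm _ _) ?_
    calc ‖Q‖ * ‖g‖ ≤ (2 * M ^ 4) * (6 * (γ * M ^ 3)) :=
          mul_le_mul hQn hgn (norm_nonneg _) (by positivity)
      _ = 12 * (γ * M ^ 7) := by ring
  have b3 : ⟪Q, pih r m - pih r K1⟫_ℝ ≤ (1002 / 1000 * (Real.sqrt V1 * A)) *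
      (1001 / 1000 * (Real.sqrt V + Real.sqrt V1)) := by
    refine le_trans (real_inner_le_norm _ _) ?_
    have e1 := norm_sub_le (pih r m) (pih r K1)
    exact mul_le_mul hQ (by linarith) (norm_nonneg _) (le_trans (norm_nonneg _) hQ)
  have b4 : |⟪Q, Gk T b r x m - Gk T b r x K1⟫_ℝ| ≤ 24 * (γ * M ^ 10) := by
    refine le_trans (abs_real_inner_le_norm _ _) ?_
    have e1 := norm_sub_le (Gk T b r x m) (Gk T b r x K1)
    calc ‖Q‖ * ‖Gk T b r x m - Gk T b r x K1‖ ≤ (2 * M ^ 4) * (12 * (γ * M ^ 6)) :=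
          mul_le_mul hQn (by linarith) (norm_nonneg _) (by positivity)
      _ = 24 * (γ * M ^ 10) := by ring
  have b5 : |⟪Gk T b r x k, U⟫_ℝ| ≤ 18 * (γ * M ^ 10) := by
    refine le_trans (abs_real_inner_le_norm _ _) ?_
    calc ‖Gk T b r x k‖ * ‖U‖ ≤ (6 * (γ * M ^ 6)) * (3 * M ^ 4) :=
          mul_le_mul hGk hUn (norm_nonneg _) (by positivity)
      _ = 18 * (γ * M ^ 10) := by ring
  have b6 : |⟪d, U⟫_ℝ| ≤ 15 * (γ * M ^ 10) := by
    refine le_trans (abs_real_inner_le_norm _ _) ?_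
    calc ‖d‖ * ‖U‖ ≤ (5 * (γ * M ^ 6)) * (3 * M ^ 4) :=
          mul_le_mul hd hUn (norm_nonneg _) (by positivity)
      _ = 15 * (γ * M ^ 10) := by ring
  -- the inner product
  have hV0M : 0 ≤ Vk r k := hV0.le
  have c1 : Vk r k * ((V - V1) * (49 / 100 * (Ek r α K1 - Ek r α (k + 1)))) ≤
      Vk r k * ⟪b - T (x (k + 1)), U⟫_ℝ := by
    apply mul_le_mul_of_nonneg_left _ hV0M
    refine le_trans ?_ hlow
    exact mul_le_mul_of_nonneg_left hE hΔ0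
  have c2 : |(V - V1) * ⟪Q, r (k + 1)⟫_ℝ| ≤ 60 * (γ * M ^ 19) := by
    rw [abs_mul, abs_of_nonneg hΔ0]
    calc (V - V1) * |⟪Q, r (k + 1)⟫_ℝ| ≤ M ^ 3 * (60 * (γ * M ^ 16)) :=
          mul_le_mul hΔM b1 (abs_nonneg _) (by positivity)
      _ = 60 * (γ * M ^ 19) := by ring
  have c3 : |(V - V1) * ⟪Q, g⟫_ℝ| ≤ 12 * (γ * M ^ 10) := by
    rw [abs_mul, abs_of_nonneg hΔ0]
    calc (V - V1) * |⟪Q, g⟫_ℝ| ≤ M ^ 3 * (12 * (γ * M ^ 7)) :=
          mul_le_mul hΔM b2 (abs_nonneg _) (by positivity)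
      _ = 12 * (γ * M ^ 10) := by ring
  have p1 := h.pow_mono (show 10 ≤ 19 by norm_num)
  have hin2 : Vk r k * ((V - V1) * (49 / 100 * (Ek r α K1 - Ek r α (k + 1)))) -
      (1002 / 1000 * (Real.sqrt V1 * A)) * (1001 / 1000 * (Real.sqrt V + Real.sqrt V1)) -
      114 * (γ * M ^ 19) ≤ ⟪pih r k, U⟫_ℝ := by
    rw [hin]
    have q1 := (abs_le.mp c2).1
    have q2 := (abs_le.mp c3).1
    have q3 := (abs_le.mp b4).2
    have q4 := (abs_le.mp b5).2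
    linarith
  have hin3 : τ * (Vk r k * ((V - V1) * (49 / 100 * (Ek r α K1 - Ek r α (k + 1)))) -
      (1002 / 1000 * (Real.sqrt V1 * A)) * (1001 / 1000 * (Real.sqrt V + Real.sqrt V1))) -
      114 * (γ * M ^ 22) ≤ τ * ⟪pih r k, U⟫_ℝ := by
    have e1 := mul_le_mul_of_nonneg_left hin2 hτ0.le
    have e2 : τ * (114 * (γ * M ^ 19)) ≤ M ^ 3 * (114 * (γ * M ^ 19)) :=
      mul_le_mul_of_nonneg_right hτM (by positivity)
    have e3 : M ^ 3 * (114 * (γ * M ^ 19)) = 114 * (γ * M ^ 22) := by ring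
    linarith
  have hdecomp : x (k + 1) - x k = τ • pih r k + d := by rw [hdd]; abel
  have hin4 : ⟪x (k + 1) - x k, U⟫_ℝ = τ * ⟪pih r k, U⟫_ℝ + ⟪d, U⟫_ℝ := by
    rw [hdecomp, inner_add_left, inner_smul_left]; simp
  -- the square
  have hpiM : ‖pih r k‖ ≤ 2 * M ^ 2 := by
    have e1 : Real.sqrt (Vk r k) ≤ M ^ 2 := by
      rw [Real.sqrt_le_left (by positivity)]
      refine le_trans hVkM ?_
      calc M ^ 3 ≤ M ^ 4 := pow_le_pow_right₀ hM1 (by norm_num)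
        _ = (M ^ 2) ^ 2 := by ring
    have : 0 ≤ M ^ 2 := by positivity
    linarith
  have hsq : τ ^ 2 * (999 / 1000 * Vk r k) - 20 * (γ * M ^ 11) ≤ ‖x (k + 1) - x k‖ ^ 2 := by
    rw [hdecomp, norm_add_sq_real, norm_smul, Real.norm_eq_abs, abs_of_pos hτ0, mul_pow,
      inner_smul_left]
    have e1 : τ ^ 2 * (999 / 1000 * Vk r k) ≤ τ ^ 2 * ‖pih r k‖ ^ 2 :=
      mul_le_mul_of_nonneg_left hpi1 (by positivity)
    have e2 : |τ * ⟪pih r k, d⟫_ℝ| ≤ 10 * (γ * M ^ 11) := by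
      rw [abs_mul, abs_of_pos hτ0]
      have f1 : |⟪pih r k, d⟫_ℝ| ≤ (2 * M ^ 2) * (5 * (γ * M ^ 6)) :=
        le_trans (abs_real_inner_le_norm _ _) (mul_le_mul hpiM hd (norm_nonneg _) (by positivity))
      calc τ * |⟪pih r k, d⟫_ℝ| ≤ M ^ 3 * ((2 * M ^ 2) * (5 * (γ * M ^ 6))) :=
            mul_le_mul hτM f1 (abs_nonneg _) (by positivity)
        _ = 10 * (γ * M ^ 11) := by ring
    have e3 := (abs_le.mp e2).1
    have e4 : 0 ≤ ‖d‖ ^ 2 := by positivity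
    simp only [conj_trivial]
    linarith
  have hsq2 : (V - V1) * (τ ^ 2 * (999 / 1000 * Vk r k)) - 20 * (γ * M ^ 14) ≤
      (V - V1) * ‖x (k + 1) - x k‖ ^ 2 := by
    have e1 := mul_le_mul_of_nonneg_left hsq hΔ0
    have e2 : (V - V1) * (20 * (γ * M ^ 11)) ≤ M ^ 3 * (20 * (γ * M ^ 11)) :=
      mul_le_mul_of_nonneg_right hΔM (by positivity)
    have e3 : M ^ 3 * (20 * (γ * M ^ 11)) = 20 * (γ * M ^ 14) := by ring
    linarith
  rw [hin4]
  have q5 := (abs_le.mp b6).1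
  have p2 := h.pow_mono (show 10 ≤ 22 by norm_num)
  have p3 := h.pow_mono (show 14 ≤ 22 by norm_num)
  have p4 : 0 ≤ γ * M ^ 22 := by positivity
  linarith

/-- the second energy inequality -/
theorem star {K1 : ℕ} (hK1 : K1 ≤ m) (hV : 16 * Vk r K1 ≤ Vk r m) (hm : 1 ≤ m) :
    Vk r m * ∑ k ∈ range K1, α k * ‖r k‖ ^ 2 * Vk r k * (Ek r α K1 - Ek r α k) ≤
      4 * (m * (1 / ε ^ 2)) := by
  have hγ0 := h.γ0
  have hM0 := h.M0
  have hM1 := h.M1
  have hε := h.hε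
  have hε1 := h.hε1
  have hV0 := h.Vpos m
  have hV10 := h.Vpos K1
  have hsum := sum_le_sum (fun k (hk : k ∈ range K1) => h.term (mem_range.mp hk) hK1)
  have hr : ∑ i ∈ range K1, ((2 * ⟪x (i + 1) - x i, (Yk r x m - Yk r x K1) -
      (Vk r m - Vk r K1) • x (i + 1)⟫_ℝ + (Vk r m - Vk r K1) * ‖x (i + 1) - x i‖ ^ 2) +
        280 * (γ * M ^ 22)) = (2 * ⟪x K1, Yk r x m - Yk r x K1⟫_ℝ -
      (Vk r m - Vk r K1) * ‖x K1‖ ^ 2) + K1 * (280 * (γ * M ^ 22)) := by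
    rw [sum_add_distrib, h.tele, sum_const, card_range, nsmul_eq_mul]
  rw [hr] at hsum
  have hup := h.upper_sum (K1 := K1) (m - K1) (by omega)
  rw [show K1 + (m - K1) = m by omega] at hup
  set V := Vk r m with hVd
  set V1 := Vk r K1 with hV1d
  set B := ∑ k ∈ range K1, α k * ‖r k‖ ^ 2 * Vk r k * (Ek r α K1 - Ek r α k) with hB
  have hτ : ∀ k < K1, 0 < α k * ‖r k‖ ^ 2 := fun k hk => h.τpos (by omega)
  have hEmono : ∀ k, k ≤ K1 → Ek r α k ≤ Ek r α K1 := by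
    intro k hk
    unfold Ek
    apply sum_le_sum_of_subset_of_nonneg
    · intro i hi
      simp only [mem_range] at hi ⊢
      omega
    · intro i hi _
      exact (hτ i (mem_range.mp hi)).le
  have hB0 : 0 ≤ B := by
    apply sum_nonneg
    intro k hk
    have hk' := mem_range.mp hk
    have := hτ k hk'
    have := h.Vpos k
    have := hEmono k hk'.le
    apply mul_nonneg (by positivity) (by linarith)
  -- summation by parts
  have hparts : ∀ q, ∑ k ∈ range q, α k * ‖r k‖ ^ 2 *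
      ∑ l ∈ range (k + 1), α l * ‖r l‖ ^ 2 * Vk r l =
      ∑ k ∈ range q, α k * ‖r k‖ ^ 2 * Vk r k * (Ek r α q - Ek r α k) := by
    intro q
    induction q with
    | zero => simp
    | succ q ih =>
      rw [sum_range_succ, ih, sum_range_succ (fun k => α k * ‖r k‖ ^ 2 * Vk r k *
        (Ek r α (q + 1) - Ek r α k))]
      have e1 : ∀ k, α k * ‖r k‖ ^ 2 * Vk r k * (Ek r α (q + 1) - Ek r α k) =
          α k * ‖r k‖ ^ 2 * Vk r k * (Ek r α q - Ek r α k) +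
          (α q * ‖r q‖ ^ 2) * (α k * ‖r k‖ ^ 2 * Vk r k) := by
        intro k
        rw [Ek_succ]; ring
      rw [sum_congr rfl (fun k _ => e1 k), sum_add_distrib, ← mul_sum, Ek_succ]
      rw [sum_range_succ (fun l => α l * ‖r l‖ ^ 2 * Vk r l)]
      ring
  have hlhs : ∀ v vm : ℝ, ∑ k ∈ range K1, (2 * (α k * ‖r k‖ ^ 2) * (Vk r k * ((V - V1) *
        (49 / 100 * (Ek r α K1 - Ek r α (k + 1)))) -
      (1002 / 1000 * (v * ∑ l ∈ range (k + 1), α l * ‖r l‖ ^ 2 * Vk r l)) *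
        (1001 / 1000 * (vm + v))) +
      (V - V1) * ((α k * ‖r k‖ ^ 2) ^ 2 * (999 / 1000 * Vk r k))) =
      49 / 50 * (V - V1) * B + 19 / 1000 * ((V - V1) * ∑ k ∈ range K1,
        (α k * ‖r k‖ ^ 2) ^ 2 * Vk r k) - 2 * (1002 / 1000) * (1001 / 1000) * (v * (vm + v)) *
        B := by
    intro v vm
    have e1 : ∀ k, 2 * (α k * ‖r k‖ ^ 2) * (Vk r k * ((V - V1) *
        (49 / 100 * (Ek r α K1 - Ek r α (k + 1)))) -
      (1002 / 1000 * (v * ∑ l ∈ range (k + 1), α l * ‖r l‖ ^ 2 * Vk r l)) *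
        (1001 / 1000 * (vm + v))) +
      (V - V1) * ((α k * ‖r k‖ ^ 2) ^ 2 * (999 / 1000 * Vk r k)) =
      49 / 50 * (V - V1) * (α k * ‖r k‖ ^ 2 * Vk r k * (Ek r α K1 - Ek r α k)) +
      19 / 1000 * ((V - V1) * ((α k * ‖r k‖ ^ 2) ^ 2 * Vk r k)) -
      2 * (1002 / 1000) * (1001 / 1000) * (v * (vm + v)) * (α k * ‖r k‖ ^ 2 *
        ∑ l ∈ range (k + 1), α l * ‖r l‖ ^ 2 * Vk r l) := by
      intro k
      rw [Ek_succ]
      ring
    rw [sum_congr rfl (fun k _ => e1 k), sum_sub_distrib, sum_add_distrib, ← mul_sum, ← mul_sum,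
      ← mul_sum, ← mul_sum, hparts K1]
  rw [hlhs] at hsum
  have hsq : 0 ≤ (V - V1) * ∑ k ∈ range K1, (α k * ‖r k‖ ^ 2) ^ 2 * Vk r k := by
    apply mul_nonneg (by linarith)
    apply sum_nonneg
    intro k _
    have := h.Vpos k
    positivity
  have hvv : Real.sqrt V1 * (Real.sqrt V + Real.sqrt V1) ≤ 5 / 16 * V := by
    have e1 : Real.sqrt V1 ≤ 1 / 4 * Real.sqrt V := by
      apply Real.sqrt_le_left (by positivity) |>.mpr
      rw [mul_pow, Real.sq_sqrt hV0.le]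
      linarith
    have e2 := Real.sqrt_nonneg V
    have e3 := Real.sqrt_nonneg V1
    have e4 := Real.sq_sqrt hV0.le
    calc Real.sqrt V1 * (Real.sqrt V + Real.sqrt V1)
        ≤ (1 / 4 * Real.sqrt V) * (5 / 4 * Real.sqrt V) :=
          mul_le_mul e1 (by linarith) (by positivity) (by positivity)
      _ = 5 / 16 * Real.sqrt V ^ 2 := by ring
      _ = 5 / 16 * V := by rw [e4]
  have hvB : Real.sqrt V1 * (Real.sqrt V + Real.sqrt V1) * B ≤ 5 / 16 * V * B :=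
    mul_le_mul_of_nonneg_right hvv hB0
  have hVB : 15 / 16 * V * B ≤ (V - V1) * B := by
    apply mul_le_mul_of_nonneg_right _ hB0
    linarith
  have hK : (K1 : ℝ) * (280 * (γ * M ^ 22)) ≤ 280 / 100000 := by
    have e1 : (K1 : ℝ) ≤ M := by
      have : (K1 : ℝ) ≤ m := by exact_mod_cast hK1
      linarith [h.mM]
    have e2 : (K1 : ℝ) * (280 * (γ * M ^ 22)) ≤ M * (280 * (γ * M ^ 22)) :=
      mul_le_mul_of_nonneg_right e1 (by positivity)
    have e3 : M * (280 * (γ * M ^ 22)) = 280 * (γ * M ^ 23) := by ring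
    have e4 := h.γM (a := 23) (by norm_num)
    linarith
  have hmε : 1 ≤ (m : ℝ) * (1 / ε ^ 2) := by
    have e1 : (1 : ℝ) ≤ m := by exact_mod_cast hm
    have e2 : (1 : ℝ) ≤ 1 / ε ^ 2 := by
      rw [le_div_iff₀ (by positivity)]; nlinarith
    nlinarith
  have hmK : ((m - K1 : ℕ) : ℝ) * (10404 / 10000 * (1 / ε ^ 2)) ≤
      10404 / 10000 * (m * (1 / ε ^ 2)) := by
    have e1 : ((m - K1 : ℕ) : ℝ) ≤ m := by exact_mod_cast Nat.sub_le m K1
    have e2 : 0 ≤ 1 / ε ^ 2 := by positivity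
    nlinarith
  have hVB0 : 0 ≤ V * B := by positivity
  nlinarith

end Dat

end Pool.Agent.Lib.MP_02bbae_an
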