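import Mathlib
import Pool.Agent.Lib.MP_02bbae_an.Star
import Pool.Agent.Lib.MP_02bbae_an.Stage
import Pool.Agent.Lib.MP_02bbae_an.Main

/-!
# The loss of orthogonality in terms of the step lengths
-/

set_option autoImplicit false
set_option linter.unusedSectionVars false

open scoped InnerProductSpace RealInnerProductSpace
open Finset

namespace Pool.Agent.Lib.MP_02bbae_an

variable {E : Type*} [NormedAddCommGroup E] [InnerProductSpace ℝ E]
variable {T : E →ₗ[ℝ] E} {ε L γ M : ℝ} {m : ℕ} {b : E} {x r p : ℕ → E} {α β σ : ℕ → ℝ}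

/-- the bound for the loss of orthogonality -/
noncomputable def Dp (γ : ℝ) (m : ℕ) (r : ℕ → E) (α : ℕ → ℝ) : ℕ → ℝ
  | 0 => 3 * (γ * (m : ℝ) ^ 2) * Vk r 0
  | k + 1 => 20 * (α k * ‖r k‖ ^ 2 * (1 / ‖r (k + 1)‖ ^ 2)) * Dp γ m r α k

/-- the bound for the inner products -/
noncomputable def zp (γ : ℝ) (m : ℕ) (r : ℕ → E) (α : ℕ → ℝ) : ℕ → ℝ
  | 0 => 0
  | k + 1 => 133 / 10 * (α k * ‖r k‖ ^ 2) * Dp γ m r α k

/-- the sum -/
noncomputable def Dz (z : ℕ → ℝ) (r : ℕ → E) (k : ℕ) : ℝ :=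
  ∑ l ∈ range (k + 1), z l / ‖r l‖ ^ 2

theorem Dz_succ (z : ℕ → ℝ) (r : ℕ → E) (k : ℕ) :
    Dz z r (k + 1) = Dz z r k + z (k + 1) / ‖r (k + 1)‖ ^ 2 := by
  unfold Dz; rw [sum_range_succ]

theorem Dz_mono {z : ℕ → ℝ} (hz : ∀ l, 0 ≤ z l) {r : ℕ → E} {i k : ℕ} (h : i ≤ k) :
    Dz z r i ≤ Dz z r k := by
  unfold Dz
  apply sum_le_sum_of_subset_of_nonneg
  · intro i hi
    simp only [mem_range] at hi ⊢
    omega
  · intro i _ _
    have := hz i
    positivity

theorem z_le_Dz {z : ℕ → ℝ} (hz : ∀ l, 0 ≤ z l) {r : ℕ → E} {k : ℕ} (h : 0 < ‖r k‖) :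
    z k ≤ ‖r k‖ ^ 2 * Dz z r k := by
  have h1 : z k / ‖r k‖ ^ 2 ≤ Dz z r k := by
    unfold Dz
    apply single_le_sum (f := fun l => z l / ‖r l‖ ^ 2)
      (fun l _ => by have := hz l; positivity) (by simp)
  rw [div_le_iff₀ (by positivity)] at h1
  linarith

/-- the inner products with `pih` -/
theorem rpi_Dz {r : ℕ → E} {k : ℕ} {z : ℕ → ℝ} (hpos : ∀ j ≤ k, 0 < ‖r j‖)
    (hz : ∀ l, 0 ≤ z l)
    (hZ : ∀ j l, j < l → l ≤ k → |⟪pih r j, r l⟫_ℝ| ≤ z l) {i : ℕ} :
    ∀ l, i ≤ l → l ≤ k → |⟪r i, pih r l⟫_ℝ - 1| ≤ 2 * ‖r i‖ ^ 2 * Dz z r l := by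
  intro l hil
  induction l, hil using Nat.le_induction with
  | base =>
    intro hi
    have h1 := rpi_self hpos hz hZ hi
    have h2 := z_le_Dz hz (hpos i hi)
    have h3 := hz i
    linarith
  | succ l hil ih =>
    intro hl
    have h1 := rpi_succ hpos hz hZ hil hl
    have h2 := ih (by omega)
    rw [Dz_succ]
    have h3 : 2 * ‖r i‖ ^ 2 * z (l + 1) / ‖r (l + 1)‖ ^ 2 =
        2 * ‖r i‖ ^ 2 * (z (l + 1) / ‖r (l + 1)‖ ^ 2) := by ring
    rw [h3] at h1
    linarith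

namespace Dat

variable (h : Dat T ε γ M b x r α m)
include h

theorem Dp_nonneg {k : ℕ} (hk : k ≤ m) : 0 ≤ Dp γ m r α k := by
  induction k with
  | zero =>
    unfold Dp
    have := h.γ0
    have := h.Vpos 0
    positivity
  | succ k ih =>
    have h1 := ih (by omega)
    have h2 := h.τpos (show k < m by omega)
    unfold Dp
    positivity

/-- the recursion -/
theorem ortho_step (H : PCG T γ m b x r p α β σ) {k : ℕ} (hk : k < m) {z : ℕ → ℝ}
    (hz : ∀ l, 0 ≤ z l) (hZ : ∀ j l, j < l → l ≤ k → |⟪pih r j, r l⟫_ℝ| ≤ z l) :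
    ∀ j ≤ k, |⟪pih r j, r (k + 1)⟫_ℝ| ≤
      133 / 10 * (α k * ‖r k‖ ^ 2) * (Dz z r k + 3 * (γ * (m : ℝ) ^ 2) * Vk r k) := by
  have hγ0 := h.γ0
  have hM0 := h.M0
  have hm1 : ((k : ℝ) + 1) ≤ m := by exact_mod_cast hk
  have hk0 : (0 : ℝ) ≤ k := Nat.cast_nonneg _
  have hpos' : ∀ j ≤ k, 0 < ‖r j‖ := fun j hj => h.pos j (by omega)
  have hkγ : (k : ℝ) * γ ≤ 1 / 100000 := by
    have h1 := h.γM (a := 1) (by norm_num)
    rw [pow_one] at h1
    have h2 : (k : ℝ) * γ ≤ M * γ := mul_le_mul_of_nonneg_right (by linarith [h.mM]) hγ0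
    linarith
  have hpk : ∀ j ≤ k, ‖p j‖ ≤ 1001 / 1000 * Pk r j := by
    intro j hj
    have h1 := p_norm hγ0 (k := k) (by linarith) (by rw [H.p0, H.r0])
      (fun j hj => H.hp j (by omega)) (fun j hj => H.hβ j (by omega)) hpos' j hj
    refine le_trans h1 ?_
    apply mul_le_mul_of_nonneg_right _ (Pk_nonneg r j)
    have hjk : (j : ℝ) ≤ k := by exact_mod_cast hj
    have : (j : ℝ) * γ ≤ k * γ := mul_le_mul_of_nonneg_right hjk hγ0
    linarith
  have hfk : ∀ j ≤ k, ‖p j - ‖r j‖ ^ 2 • pih r j‖ ≤ (3 * j * γ) * Pk r j :=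
    f_bound hγ0 (k := k) (by linarith) (by rw [H.p0, H.r0])
      (fun j hj => H.hp j (by omega)) (fun j hj => H.hβ j (by omega)) hpos'
  have hNk := hpos' k (le_refl k)
  have hτk := h.τpos hk
  have hV0 := h.Vpos k
  -- the quantity `U`
  have hU : Uk r α k ≤ (α k * ‖r k‖ ^ 2) * ((k + 1) * Vk r k) := by
    have e1 : Uk r α k = (α k * ‖r k‖ ^ 2) * Sk r k ^ 2 := by unfold Uk Pk; ring
    rw [e1]
    exact mul_le_mul_of_nonneg_left (Sk_sq_le r k) hτk.le
  have hU0 : 0 ≤ Uk r α k := by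
    have : 0 < α k := by have := h.a1 k hk; linarith
    unfold Uk
    have := Pk_nonneg r k
    have := Sk_nonneg r k
    positivity
  set D := Dz z r k with hD
  set τ := α k * ‖r k‖ ^ 2 with hτ
  set X := 3 * (γ * (m : ℝ) ^ 2) * Vk r k with hX
  have hD0 : 0 ≤ D := sum_nonneg fun l _ => by have := hz l; positivity
  have hX0 : 0 ≤ X := by positivity
  have hUX : ∀ c : ℝ, 0 ≤ c → c ≤ m → c * (γ * Uk r α k) ≤ 1 / 3 * (τ * X) := by
    intro c hc0 hc
    have e1 : c * (γ * Uk r α k) ≤ m * (γ * (τ * (m * Vk r k))) := by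
      apply mul_le_mul hc _ (by positivity) (by positivity)
      apply mul_le_mul_of_nonneg_left _ hγ0
      refine le_trans hU ?_
      apply mul_le_mul_of_nonneg_left _ hτk.le
      exact mul_le_mul_of_nonneg_right hm1 hV0.le
    have e2 : m * (γ * (τ * (m * Vk r k))) = 1 / 3 * (τ * X) := by rw [hX]; ring
    linarith
  have hτX : 0 ≤ τ * X := by positivity
  have hτD : 0 ≤ τ * D := by positivity
  have hτN : ‖r k‖ ^ 2 ≤ 20 / 19 * τ := by
    have : 19 / 20 * ‖r k‖ ^ 2 ≤ τ := mul_le_mul_of_nonneg_right (h.a1 k hk) (by positivity)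
    linarith
  have hzk : z k ≤ 20 / 19 * (τ * D) := by
    have e1 := z_le_Dz hz hNk
    have e2 : ‖r k‖ ^ 2 * D ≤ (20 / 19 * τ) * D := mul_le_mul_of_nonneg_right hτN hD0
    linarith
  intro j hj
  rcases Nat.lt_or_eq_of_le hj with hj' | hj'
  · -- j < k
    have h1 := Z_lt h.op hγ0 hj' hpos' (by linarith [h.a1 j (by omega)])
      (by linarith [h.a1 k hk]) (by
        have h5 := h.R5 j (by omega)
        have h6 := h.τpos (show j < m by omega)
        linarith) (H.hr j (by omega)) (H.hr k hk) (hpk j hj) (hpk k (le_refl k)) (hfk j hj)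
      (hfk k (le_refl k))
    have h2 := hZ j k hj' (le_refl k)
    have h3 := rpi_Dz hpos' hz hZ (i := j) k hj (le_refl k)
    have h4 := rpi_Dz hpos' hz hZ (i := j + 1) k (by omega) (le_refl k)
    have hτj := h.τpos (show j < m by omega)
    set τj := α j * ‖r j‖ ^ 2 with hτjd
    have h5 : |⟪r j, pih r k⟫_ℝ - ⟪r (j + 1), pih r k⟫_ℝ| ≤ 1211 / 100 * (τj * D) := by
      have e1 : ⟪r j, pih r k⟫_ℝ - ⟪r (j + 1), pih r k⟫_ℝ =
        (⟪r j, pih r k⟫_ℝ - 1) - (⟪r (j + 1), pih r k⟫_ℝ - 1) := by ring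
      rw [e1]
      refine le_trans (abs_sub _ _) ?_
      have e2 := h.R5 j (by omega)
      have e3 : 19 / 20 * ‖r j‖ ^ 2 ≤ τj :=
        mul_le_mul_of_nonneg_right (h.a1 j (by omega)) (by positivity)
      rw [← hτjd] at e2
      have e4 : (‖r j‖ ^ 2 + ‖r (j + 1)‖ ^ 2) * D ≤ (1211 / 200 * τj) * D := by
        apply mul_le_mul_of_nonneg_right _ hD0
        linarith
      linarith
    have h6 : τ / τj * |⟪r j, pih r k⟫_ℝ - ⟪r (j + 1), pih r k⟫_ℝ| ≤
        1211 / 100 * (τ * D) := by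
      have e1 := mul_le_mul_of_nonneg_left h5 (by positivity : 0 ≤ τ / τj)
      have e2 : τ / τj * (1211 / 100 * (τj * D)) = 1211 / 100 * (τ * D) := by field_simp
      linarith
    have h7 := hUX k hk0 (by linarith)
    have h8 : 31 * (k : ℝ) * γ * Uk r α k = 31 * (k * (γ * Uk r α k)) := by ring
    rw [h8] at h1
    linarith
  · -- j = k
    subst hj'
    have h1 := Z_eq h.op hγ0 hpos' (by linarith [h.a1 j hk]) (H.hr j hk) (H.hσ j hk)
      (H.hα j hk) (hpk j (le_refl j)) (hfk j (le_refl j))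
    have h2 := rpi_self hpos' hz hZ (le_refl j)
    have h7 := hUX (j + 1) (by linarith) hm1
    have h8 : (7 + 4 * (j : ℝ)) * γ * Uk r α j ≤ 7 * ((j + 1) * (γ * Uk r α j)) := by
      have : 0 ≤ (j : ℝ) * (γ * Uk r α j) := by positivity
      linarith
    linarith

/-- the bounds -/
theorem ortho_all (H : PCG T γ m b x r p α β σ) : ∀ k ≤ m,
    (∀ j l, j < l → l ≤ k → |⟪pih r j, r l⟫_ℝ| ≤ zp γ m r α l) ∧
    Dz (zp γ m r α) r k + 3 * (γ * (m : ℝ) ^ 2) * Vk r k ≤ Dp γ m r α k := by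
  have hγ0 := h.γ0
  intro k
  induction k with
  | zero =>
    intro _
    refine ⟨fun j l hjl hl => by omega, ?_⟩
    unfold Dz Dp
    simp [zp]
  | succ k ih =>
    intro hk
    obtain ⟨h1, h2⟩ := ih (by omega)
    have hkm : k < m := by omega
    have hτ := h.τpos hkm
    have hN := h.pos k (by omega)
    have hN' := h.pos (k + 1) hk
    have hD0 := h.Dp_nonneg hkm.le
    -- a nonnegative version of `z`
    set z : ℕ → ℝ := fun l => if l ≤ k then zp γ m r α l else 0 with hz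
    have hz0 : ∀ l, 0 ≤ z l := by
      intro l
      simp only [hz]
      split_ifs with hl
      · rcases Nat.eq_zero_or_pos l with h0 | h0
        · subst h0; simp [zp]
        · obtain ⟨i, rfl⟩ : ∃ i, l = i + 1 := ⟨l - 1, by omega⟩
          have e1 := h.τpos (show i < m by omega)
          have e2 := h.Dp_nonneg (show i ≤ m by omega)
          unfold zp
          positivity
      · exact le_refl _
    have hzeq : ∀ l ≤ k, z l = zp γ m r α l := fun l hl => by simp only [hz]; rw [if_pos hl]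
    have hDz : Dz z r k = Dz (zp γ m r α) r k := by
      unfold Dz
      apply sum_congr rfl
      intro l hl
      rw [hzeq l (by simp at hl; omega)]
    have h3 := h.ortho_step H hkm hz0 (fun j l hjl hl => by rw [hzeq l hl]; exact h1 j l hjl hl)
    rw [hDz] at h3
    have h4 : ∀ j ≤ k, |⟪pih r j, r (k + 1)⟫_ℝ| ≤ zp γ m r α (k + 1) := by
      intro j hj
      refine le_trans (h3 j hj) ?_
      unfold zp
      exact mul_le_mul_of_nonneg_left h2 (by positivity)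
    refine ⟨?_, ?_⟩
    · intro j l hjl hl
      rcases Nat.lt_or_eq_of_le hl with hl' | hl'
      · exact h1 j l hjl (by omega)
      · subst hl'
        exact h4 j (by omega)
    · rw [Dz_succ, Vk_succ]
      have hzp : zp γ m r α (k + 1) = 133 / 10 * (α k * ‖r k‖ ^ 2) * Dp γ m r α k := rfl
      have hDp : Dp γ m r α (k + 1) =
        20 * (α k * ‖r k‖ ^ 2 * (1 / ‖r (k + 1)‖ ^ 2)) * Dp γ m r α k := rfl
      rw [hzp, hDp]
      set τ := α k * ‖r k‖ ^ 2 with hτd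
      set w := 1 / ‖r (k + 1)‖ ^ 2 with hw
      have hw0 : 0 < w := by positivity
      set D := Dp γ m r α k with hD
      have hV0 := h.Vpos k
      have e1 : 133 / 10 * τ * D / ‖r (k + 1)‖ ^ 2 = 133 / 10 * (τ * w * D) := by
        rw [hw]; ring
      have e2 : 1 / 5 * D ≤ τ * w * D := by
        apply mul_le_mul_of_nonneg_right _ hD0
        have := h.R5 k hkm
        rw [hw, mul_one_div, le_div_iff₀ (by positivity)]
        linarith
      -- 3γm² ≤ D / V ≤ D N²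
      have e3 : 3 * (γ * (m : ℝ) ^ 2) ≤ D * ‖r k‖ ^ 2 := by
        have f1 : 3 * (γ * (m : ℝ) ^ 2) * Vk r k ≤ D := by
          have : 0 ≤ Dz (zp γ m r α) r k := by
            rw [← hDz]
            exact sum_nonneg fun l _ => by have := hz0 l; positivity
          linarith
        have f2 : 1 ≤ Vk r k * ‖r k‖ ^ 2 := by
          have := h.invN (k := k)
          rwa [div_le_iff₀ (by positivity)] at this
        have f3 : 3 * (γ * (m : ℝ) ^ 2) * 1 ≤ 3 * (γ * (m : ℝ) ^ 2) * (Vk r k * ‖r k‖ ^ 2) :=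
          mul_le_mul_of_nonneg_left f2 (by positivity)
        have f4 := mul_le_mul_of_nonneg_right f1 (by positivity : 0 ≤ ‖r k‖ ^ 2)
        linarith
      have e4 : 3 * (γ * (m : ℝ) ^ 2) * w ≤ 20 / 19 * (τ * w * D) := by
        have f1 : ‖r k‖ ^ 2 ≤ 20 / 19 * τ := by
          have : 19 / 20 * ‖r k‖ ^ 2 ≤ τ := mul_le_mul_of_nonneg_right (h.a1 k hkm) (by positivity)
          linarith
        have f2 : D * ‖r k‖ ^ 2 ≤ D * (20 / 19 * τ) := mul_le_mul_of_nonneg_left f1 hD0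
        have f3 := mul_le_mul_of_nonneg_right (le_trans e3 f2) hw0.le
        linarith
      rw [e1]
      have e5 : 0 ≤ τ * w * D := by positivity
      linarith

/-- the product formula -/
theorem Dp_eq : ∀ k ≤ m, Dp γ m r α k = 3 * (γ * (m : ℝ) ^ 2) *
    (20 ^ k * ∏ i ∈ range k, (α i * ‖r i‖ ^ 2 * (1 / ‖r (i + 1)‖ ^ 2))) := by
  intro k
  induction k with
  | zero =>
    intro _
    have : Vk r 0 = 1 := by rw [Vk_zero, h.r0]; norm_num
    unfold Dp
    rw [this]; simp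
  | succ k ih =>
    intro hk
    have h1 := ih (by omega)
    rw [prod_range_succ, pow_succ]
    unfold Dp
    rw [h1]; ring

/-- nearly orthogonal residuals -/
theorem ortho_final [FiniteDimensional ℝ E] (H : PCG T γ m b x r p α β σ) (hm : 1 ≤ m)
    (hD : 2 * M ^ 3 * Dp γ m r α m < 1) : m + 1 ≤ Module.finrank ℝ E := by
  obtain ⟨h1, h2⟩ := h.ortho_all H m (le_refl m)
  have hM0 := h.M0
  have hDp0 := h.Dp_nonneg (le_refl m)
  have hγ0 := h.γ0
  set z : ℕ → ℝ := fun l => if l ≤ m then zp γ m r α l else 0 with hz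
  have hz0 : ∀ l, 0 ≤ z l := by
    intro l
    simp only [hz]
    split_ifs with hl
    · rcases Nat.eq_zero_or_pos l with h0 | h0
      · subst h0; simp [zp]
      · obtain ⟨i, rfl⟩ : ∃ i, l = i + 1 := ⟨l - 1, by omega⟩
        have e1 := h.τpos (show i < m by omega)
        have e2 := h.Dp_nonneg (show i ≤ m by omega)
        unfold zp
        positivity
    · exact le_refl _
  have hzeq : ∀ l ≤ m, z l = zp γ m r α l := fun l hl => by simp only [hz]; rw [if_pos hl]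
  have hDz : Dz z r m = Dz (zp γ m r α) r m := by
    unfold Dz
    apply sum_congr rfl
    intro l hl
    rw [hzeq l (by simp at hl; omega)]
  have hDle : Dz z r m ≤ Dp γ m r α m := by
    rw [hDz]
    have : 0 ≤ 3 * (γ * (m : ℝ) ^ 2) * Vk r m := by
      have := h.Vpos m
      positivity
    linarith
  refine card_le_finrank (w := 2 * M ^ 2 * Dp γ m r α m) h.pos (by positivity) ?_ ?_
  · have e1 : (m : ℝ) ≤ M := by linarith [h.mM]
    calc (m : ℝ) * (2 * M ^ 2 * Dp γ m r α m) ≤ M * (2 * M ^ 2 * Dp γ m r α m) :=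
          mul_le_mul_of_nonneg_right e1 (by positivity)
      _ = 2 * M ^ 3 * Dp γ m r α m := by ring
      _ < 1 := hD
  · intro i j hij hj
    have e1 := inner_of_Z (k := m) h.pos hz0
      (fun j l hjl hl => by rw [hzeq l hl]; exact h1 j l hjl hl) hij hj
    have e2 := z_le_Dz hz0 (h.pos j hj)
    have e3 : Dz z r j ≤ Dp γ m r α m := le_trans (Dz_mono hz0 hj) hDle
    have hNi := h.pos i (by omega)
    have hNj := h.pos j hj
    have e4 : ‖r j‖ ^ 2 * Dz z r j ≤ ‖r j‖ ^ 2 * Dp γ m r α m :=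
      mul_le_mul_of_nonneg_left e3 (by positivity)
    have e5 : ‖r i‖ * ‖r j‖ ≤ M ^ 2 := by
      calc ‖r i‖ * ‖r j‖ ≤ M * M :=
            mul_le_mul (h.R1 i (by omega)) (h.R1 j hj) hNj.le hM0.le
        _ = M ^ 2 := by ring
    calc |⟪r i, r j⟫_ℝ| ≤ 2 * ‖r i‖ ^ 2 * z j := e1
      _ ≤ 2 * ‖r i‖ ^ 2 * (‖r j‖ ^ 2 * Dp γ m r α m) :=
          mul_le_mul_of_nonneg_left (e2.trans e4) (by positivity)
      _ = (2 * Dp γ m r α m * ‖r i‖ * ‖r j‖) * (‖r i‖ * ‖r j‖) := by ring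
      _ ≤ (2 * Dp γ m r α m * ‖r i‖ * ‖r j‖) * M ^ 2 :=
          mul_le_mul_of_nonneg_left e5 (by positivity)
      _ = 2 * M ^ 2 * Dp γ m r α m * ‖r i‖ * ‖r j‖ := by ring

end Dat

/-- the product of the step lengths -/
theorem prod_le {K : ℕ} {ε s : ℝ} {F N V τ : ℕ → ℝ} (h : Sd ε s K F N V τ) :
    ∀ q ≤ K, ∏ k ∈ range q, (τ k * (1 / N (k + 1) ^ 2)) ≤
      V q * ∏ k ∈ range q, th N V τ k ^ 2 := by
  intro q
  induction q with
  | zero => intro _; simp [h.V0]
  | succ q ih =>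
    intro hq
    have h1 := ih (by omega)
    have hτ := h.τpos (show q < K by omega)
    have hV := h.V_pos (show q ≤ K by omega)
    have hV' := h.V_pos hq
    have hN := h.Npos hq
    have hP : 0 ≤ ∏ k ∈ range q, th N V τ k ^ 2 := prod_nonneg fun _ _ => by positivity
    rw [prod_range_succ, prod_range_succ, h.th_sq (show q < K by omega)]
    have h2 : V q * (1 / N (q + 1) ^ 2) ≤ V (q + 1) * om N V q := by
      unfold om
      rw [h.Vs q (by omega)]
      have hw : 0 < 1 / N (q + 1) ^ 2 := by positivity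
      rcases le_total (1 / N (q + 1) ^ 2) (V q) with h3 | h3
      · rw [min_eq_left h3]
        apply mul_le_mul_of_nonneg_right _ hw.le
        linarith
      · rw [min_eq_right h3, mul_comm]
        apply mul_le_mul_of_nonneg_right _ hV.le
        linarith
    calc (∏ k ∈ range q, (τ k * (1 / N (k + 1) ^ 2))) * (τ q * (1 / N (q + 1) ^ 2))
        ≤ (V q * ∏ k ∈ range q, th N V τ k ^ 2) * (τ q * (1 / N (q + 1) ^ 2)) :=
          mul_le_mul_of_nonneg_right h1 (by positivity)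
      _ = (τ q * ∏ k ∈ range q, th N V τ k ^ 2) * (V q * (1 / N (q + 1) ^ 2)) := by ring
      _ ≤ (τ q * ∏ k ∈ range q, th N V τ k ^ 2) * (V (q + 1) * om N V q) :=
          mul_le_mul_of_nonneg_left h2 (by positivity)
      _ = _ := by ring

/-- the inequality between the arithmetic and the geometric mean -/
theorem prod_le_pow {K : ℕ} (hK : 1 ≤ K) {z : ℕ → ℝ} (hz : ∀ i, 0 ≤ z i) :
    ∏ i ∈ range K, z i ≤ ((∑ i ∈ range K, z i) / K) ^ K := by
  have hK0 : (0 : ℝ) < K := by exact_mod_cast hK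
  have h1 := Real.geom_mean_le_arith_mean (range K) (fun _ => (1 : ℝ)) z (fun _ _ => by norm_num)
    (by simp; omega) (fun i _ => hz i)
  simp only [Real.rpow_one, sum_const, card_range, nsmul_eq_mul, mul_one, one_mul] at h1
  have h2 : 0 ≤ ∏ i ∈ range K, z i := prod_nonneg fun i _ => hz i
  have h3 := pow_le_pow_left₀ (by positivity) h1 K
  rw [← Real.rpow_natCast, ← Real.rpow_mul h2, inv_mul_cancel₀ hK0.ne', Real.rpow_one] at h3
  exact h3

/-- the scalar data of a run all of whose iterates fail -/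
theorem Dat.sd (h : Dat T ε γ M b x r α m) (hm : 1 ≤ m)
    (hSM : ∀ k ≤ m, SM T ε b x r k) (hRl : ∀ k ≤ m, 99 / 100 * ε ≤ ‖r k‖) :
    Sd ε (Real.sqrt (m + 1)) m (fun k => Phi T b (x k)) (fun k => ‖r k‖) (Vk r)
      (fun k => α k * ‖r k‖ ^ 2) := by
  refine ⟨⟨h.hε, ?_, fun k _ => Vk_succ r k, hRl, h.inc, fun k hk => ?_, h.R5⟩,
    Real.sqrt_nonneg _, Real.sq_sqrt (by positivity), ?_, ?_⟩
  · rw [Vk_zero, h.r0]; norm_num
  · exact mul_le_mul_of_nonneg_right (h.a1 k hk) (by positivity)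
  · intro K1 hK1 hV
    exact h.star hK1 hV hm
  · intro k j hkj hj ρ hρ hρ2
    refine (hSM k (by omega)).any h.op h.hε hρ hρ2 (h.xn j hj) (norm_nonneg _)
      (Real.sqrt_nonneg _) ?_ h.hε1
    rw [Real.sq_sqrt (by positivity)]
    have : (k : ℝ) ≤ m := by exact_mod_cast (show k ≤ m by omega)
    linarith

/-- the sum of the normalised step lengths -/
noncomputable def Th (r : ℕ → E) (α : ℕ → ℝ) (m : ℕ) : ℝ :=
  ∑ k ∈ range m, th (fun k => ‖r k‖) (Vk r) (fun k => α k * ‖r k‖ ^ 2) k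

/-- Main abstract theorem on runs all of whose iterates fail. -/
theorem run_fail [FiniteDimensional ℝ E] (hT : GoodOp T) (hP : ParM ε L γ M m) (hb : ‖b‖ = 1)
    (hG : 100000 * (γ * M ^ 24) ≤ 1)
    (H : PCG T γ m b x r p α β σ) (hF : ∀ j ≤ m, Fail T ε b x j) {R : ℝ} (hR0 : 0 ≤ R)
    (hR : R ^ 4 = m * (1 / ε ^ 2)) :
    (m : ℝ) ≤ 9 / 4 * Th r α m ∧ Th r α m ≤ 41 * R ∧
    (∀ κ : ℝ, 1 ≤ κ → (∀ v, ‖v‖ ^ 2 ≤ κ * ⟪v, T v⟫_ℝ) → ∀ i : ℕ,
      Th r α m ≤ (i + 2) * Real.sqrt (34 * κ) + 24 / 5 * (R / 2 ^ i)) ∧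
    (6 * (γ * M ^ 8) * (20 * (Th r α m / m) ^ 2) ^ m < 1 → m + 1 ≤ Module.finrank ℝ E) := by
  have hm := hP.par.hm
  have hm0 : (0 : ℝ) < m := by exact_mod_cast hm
  have hD := Dat.of hT hP hb hG H hF
  obtain ⟨h1, h2⟩ := all_steps hT hP hb (le_refl m) H hF
  have h3 := LX_all hT hP hb (le_refl m) H hF
  have hSM : ∀ k ≤ m, SM T ε b x r k := fun k hk =>
    SM_of hP hk (fun j hj => h1 j (by omega)) (h3 k hk)
  have hS := hD.sd hm hSM (fun k hk => (h1 k hk).2.Rl)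
  have hγ0 := hD.γ0
  have hM0 := hD.M0
  have hM1 := hD.M1
  refine ⟨?_, hS.total_R hR0 hR, ?_, ?_⟩
  · -- the lower bound
    have e1 : ∀ k ∈ range m, (4 / 9 : ℝ) ≤
        th (fun k => ‖r k‖) (Vk r) (fun k => α k * ‖r k‖ ^ 2) k := by
      intro k hk
      have hk' := mem_range.mp hk
      apply Real.le_sqrt_of_sq_le
      have hτ := hD.τpos hk'
      have f1 := hD.R5 k hk'
      have f2 := hD.invN (k := k)
      have hN := hD.pos k hk'.le
      have hN' := hD.pos (k + 1) hk'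
      have f3 : 19 / 20 * ‖r k‖ ^ 2 ≤ α k * ‖r k‖ ^ 2 :=
        mul_le_mul_of_nonneg_right (hD.a1 k hk') (by positivity)
      unfold om
      rcases le_total (1 / ‖r (k + 1)‖ ^ 2) (Vk r k) with f4 | f4
      · rw [min_eq_left f4, mul_one_div, le_div_iff₀ (by positivity)]
        linarith
      · rw [min_eq_right f4]
        have f5 : 1 ≤ Vk r k * ‖r k‖ ^ 2 := by
          rwa [div_le_iff₀ (by positivity)] at f2
        have f6 := mul_le_mul_of_nonneg_left f3 (hD.Vpos k).le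
        linarith
    have e2 := card_nsmul_le_sum _ _ _ e1
    rw [card_range, nsmul_eq_mul] at e2
    unfold Th
    linarith
  · intro κ hκ1 hκ i
    exact hS.total_κ hR0 hR (fun k hk => (hSM k hk).coer hT hκ1 hκ (x m)) i
  · intro hsmall
    apply hD.ortho_final H hm
    refine lt_of_le_of_lt ?_ hsmall
    rw [hD.Dp_eq m (le_refl m)]
    have e1 := prod_le hS m (le_refl m)
    have e2 : ∏ k ∈ range m, th (fun k => ‖r k‖) (Vk r) (fun k => α k * ‖r k‖ ^ 2) k ^ 2 ≤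
        ((Th r α m / m) ^ 2) ^ m := by
      rw [prod_pow]
      have f1 := prod_le_pow hm (z := th (fun k => ‖r k‖) (Vk r) (fun k => α k * ‖r k‖ ^ 2))
        (fun i => Sd.th_nonneg i)
      have f2 : 0 ≤ ∏ k ∈ range m, th (fun k => ‖r k‖) (Vk r) (fun k => α k * ‖r k‖ ^ 2) k :=
        prod_nonneg fun i _ => Sd.th_nonneg i
      have f3 := pow_le_pow_left₀ f2 f1 2
      rw [← pow_mul, mul_comm 2 m, pow_mul]
      exact f3
    have e3 : ∏ k ∈ range m, (α k * ‖r k‖ ^ 2 * (1 / ‖r (k + 1)‖ ^ 2)) ≤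
        M ^ 3 * ((Th r α m / m) ^ 2) ^ m := by
      refine le_trans e1 ?_
      exact mul_le_mul (hD.VM (le_refl m)) e2 (prod_nonneg fun _ _ => by positivity) (by positivity)
    have e4 : (m : ℝ) ≤ M := by linarith [hD.mM]
    have e5 : 0 ≤ ∏ k ∈ range m, (α k * ‖r k‖ ^ 2 * (1 / ‖r (k + 1)‖ ^ 2)) := by
      apply prod_nonneg
      intro k hk
      have := hD.τpos (mem_range.mp hk)
      positivity
    have e6 : γ * (m : ℝ) ^ 2 ≤ γ * M ^ 2 :=
      mul_le_mul_of_nonneg_left (pow_le_pow_left₀ hm0.le e4 2) hγ0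
    have e7 : 3 * (γ * (m : ℝ) ^ 2) * (20 ^ m * ∏ k ∈ range m, (α k * ‖r k‖ ^ 2 *
        (1 / ‖r (k + 1)‖ ^ 2))) ≤ 3 * (γ * M ^ 2) * (20 ^ m * (M ^ 3 *
          ((Th r α m / m) ^ 2) ^ m)) := by
      apply mul_le_mul (by linarith) _ (by positivity) (by positivity)
      exact mul_le_mul_of_nonneg_left e3 (by positivity)
    calc 2 * M ^ 3 * (3 * (γ * (m : ℝ) ^ 2) * (20 ^ m * ∏ k ∈ range m, (α k * ‖r k‖ ^ 2 *
        (1 / ‖r (k + 1)‖ ^ 2)))) ≤ 2 * M ^ 3 * (3 * (γ * M ^ 2) * (20 ^ m * (M ^ 3 *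
          ((Th r α m / m) ^ 2) ^ m))) := mul_le_mul_of_nonneg_left e7 (by positivity)
      _ = 6 * (γ * M ^ 8) * (20 * (Th r α m / m) ^ 2) ^ m := by rw [mul_pow]; ring

end Pool.Agent.Lib.MP_02bbae_an
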