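import Mathlib
import Pool.Agent.Lib.MP_02bbae_an.SmoothMain
import Pool.Agent.Lib.MP_02bbae_an.LargeAssembly

/-!
# Large dimension: the sharp upper bound
-/

set_option autoImplicit false

open scoped InnerProductSpace RealInnerProductSpace ENNReal

namespace Pool.Agent.Lib.MP_02bbae_an

theorem logb_ge_one {ε : ℝ} (hε : 0 < ε) (hε1 : ε ≤ 1) : 1 ≤ Real.logb 2 (2 / ε) := by
  rw [Real.le_logb_iff_rpow_le (by norm_num) (by positivity), Real.rpow_one, le_div_iff₀ hε]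
  linarith

/-- the choice of the parameters for a finite condition number -/
theorem choose_A {k ε : ℝ} (hε : 0 < ε) (hε1 : ε ≤ 1) (hk : 1 ≤ k) (hk2 : k ≤ (1 / ε) ^ 2) :
    ∃ q J : ℕ, 6 * k ≤ (q : ℝ) ^ 2 ∧ 51 / 100 * k < 2 ^ J * (456 / 1000 * ε ^ 2) ∧
      (q : ℝ) * J + 1 ≤ 15 * (Real.sqrt k * Real.logb 2 (2 / ε)) := by
  have hl := logb_ge_one hε hε1
  set l := Real.logb 2 (2 / ε) with hldef
  have hs1 : 1 ≤ Real.sqrt k := Real.one_le_sqrt.mpr hk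
  have hs2 : Real.sqrt k ^ 2 = k := Real.sq_sqrt (by linarith)
  set s := Real.sqrt k with hs
  set X := 28 / 25 * k / ε ^ 2 with hX
  have hi : (1 : ℝ) ≤ 1 / ε ^ 2 := by
    rw [le_div_iff₀ (by positivity)]; nlinarith
  have hX1 : 1 ≤ X := by
    have : X = 28 / 25 * k * (1 / ε ^ 2) := by rw [hX]; ring
    rw [this]; nlinarith
  have hLX : 0 ≤ Real.logb 2 X := Real.logb_nonneg (by norm_num) hX1
  refine ⟨⌈49 / 20 * s⌉₊, ⌊Real.logb 2 X⌋₊ + 1, ?_, ?_, ?_⟩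
  · have h1 := Nat.le_ceil (49 / 20 * s)
    have h2 : (49 / 20 * s) ^ 2 ≤ (⌈49 / 20 * s⌉₊ : ℝ) ^ 2 := pow_le_pow_left₀ (by positivity) h1 2
    nlinarith
  · have h1 := Nat.lt_floor_add_one (Real.logb 2 X)
    have h2 : X < 2 ^ (⌊Real.logb 2 X⌋₊ + 1) := by
      rw [← Real.rpow_natCast, ← Real.logb_lt_iff_lt_rpow (by norm_num) (by linarith)]
      push_cast
      exact h1
    have h3 : X * (456 / 1000 * ε ^ 2) < 2 ^ (⌊Real.logb 2 X⌋₊ + 1) * (456 / 1000 * ε ^ 2) :=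
      mul_lt_mul_of_pos_right h2 (by positivity)
    have h4 : X * (456 / 1000 * ε ^ 2) = 28 / 25 * 456 / 1000 * k := by
      rw [hX]; field_simp
    linarith
  · have h1 := Nat.ceil_lt_add_one (show 0 ≤ 49 / 20 * s by positivity)
    have h2 := Nat.floor_le hLX
    have h3 : Real.logb 2 X + 1 ≤ 4 * l := by
      have e1 : Real.logb 2 X + 1 = Real.logb 2 (X * 2) := by
        rw [Real.logb_mul (by positivity) (by norm_num), Real.logb_self_eq_one (by norm_num)]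
      have e2 : 4 * l = Real.logb 2 ((2 / ε) ^ 4) := by
        rw [Real.logb_pow]; push_cast; rfl
      rw [e1, e2]
      apply Real.logb_le_logb_of_le (by norm_num) (by positivity)
      have e3 : X * 2 = 56 / 25 * (k * (1 / ε) ^ 2) := by rw [hX]; field_simp; norm_num
      have e4 : (2 / ε) ^ 4 = 16 * ((1 / ε) ^ 2 * (1 / ε) ^ 2) := by ring
      rw [e3, e4]
      have e5 : k * (1 / ε) ^ 2 ≤ (1 / ε) ^ 2 * (1 / ε) ^ 2 :=
        mul_le_mul_of_nonneg_right hk2 (by positivity)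
      have e6 : 0 ≤ (1 / ε) ^ 2 * (1 / ε) ^ 2 := by positivity
      linarith
    have h4 : ((⌊Real.logb 2 X⌋₊ + 1 : ℕ) : ℝ) ≤ 4 * l := by push_cast; linarith
    have h5 : (⌈49 / 20 * s⌉₊ : ℝ) ≤ 69 / 20 * s := by linarith
    have h6 := mul_le_mul h5 h4 (by positivity) (by positivity)
    have h7 : 1 ≤ s * l := by nlinarith
    linarith

theorem pow_four_le {J : ℕ} (hJ : 24 ≤ J) : (2 * (J : ℝ) + 1) ^ 4 ≤ 2 ^ J := by
  induction J, hJ using Nat.le_induction with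
  | base => norm_num
  | succ J hJ ih =>
    have hJ' : (24 : ℝ) ≤ J := by exact_mod_cast hJ
    push_cast
    have h1 : 2 * ((J : ℝ) + 1) + 1 ≤ 51 / 49 * (2 * J + 1) := by linarith
    have h2 : (2 * ((J : ℝ) + 1) + 1) ^ 4 ≤ (51 / 49 * (2 * J + 1)) ^ 4 :=
      pow_le_pow_left₀ (by positivity) h1 4
    have h3 : (51 / 49 * (2 * (J : ℝ) + 1)) ^ 4 = (51 / 49) ^ 4 * (2 * (J : ℝ) + 1) ^ 4 := by ring
    have h4 : (51 / 49 : ℝ) ^ 4 ≤ 2 := by norm_num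
    have h5 : 0 ≤ (2 * (J : ℝ) + 1) ^ 4 := by positivity
    rw [pow_succ (2 : ℝ) J]
    nlinarith

/-- the choice of the parameters in general -/
theorem choose_B {ε : ℝ} (hε : 0 < ε) (hε1 : ε ≤ 1) :
    ∃ q J : ℕ, 1 ≤ q ∧ 1 ≤ J ∧ 562 ≤ (q : ℝ) ^ 3 * ε ^ 2 ∧
      (22 * Real.sqrt (2 * q * J + 1)) ≤ (q : ℝ) ^ 2 * ε ∧
      (2 * q * J + 1) * (100 / 98 * (1 / ε ^ 2)) < (2 : ℝ) ^ J ∧
      (2 * q * J : ℝ) ≤ 1550 * ((1 / ε) ^ (2 / 3 : ℝ) * Real.logb 2 (2 / ε) ^ (4 / 3 : ℝ)) := by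
  have hl := logb_ge_one hε hε1
  set l := Real.logb 2 (2 / ε) with hldef
  set J := ⌈24 * l⌉₊ with hJ
  have hJ1 : 24 * l ≤ J := Nat.le_ceil _
  have hJ2 : (J : ℝ) ≤ 25 * l := by
    have := Nat.ceil_lt_add_one (show 0 ≤ 24 * l by positivity)
    linarith
  have hJ24 : 24 ≤ J := by
    have : (24 : ℝ) ≤ J := by linarith
    exact_mod_cast this
  have hJ24' : (24 : ℝ) ≤ J := by exact_mod_cast hJ24
  set X := 484 * (2 * (J : ℝ) + 1) / ε ^ 2 with hX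
  have hi : (1 : ℝ) ≤ 1 / ε ^ 2 := by
    rw [le_div_iff₀ (by positivity)]; nlinarith
  have hXe : X = 484 * (2 * (J : ℝ) + 1) * (1 / ε ^ 2) := by rw [hX]; ring
  have hX1 : 1 ≤ X := by rw [hXe]; nlinarith
  have hX0 : 0 < X := by linarith
  set q := ⌈X ^ (1 / 3 : ℝ)⌉₊ with hq
  have hq1 : X ^ (1 / 3 : ℝ) ≤ q := Nat.le_ceil _
  have hXr : 1 ≤ X ^ (1 / 3 : ℝ) := Real.one_le_rpow hX1 (by norm_num)
  have hq2 : (q : ℝ) ≤ X ^ (1 / 3 : ℝ) + 1 :=
    (Nat.ceil_lt_add_one (by positivity)).le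
  have hqr : (1 : ℝ) ≤ q := by linarith
  have hq3 : X ≤ (q : ℝ) ^ 3 := by
    have e1 : (X ^ (1 / 3 : ℝ)) ^ 3 ≤ (q : ℝ) ^ 3 := pow_le_pow_left₀ (by positivity) hq1 3
    have e2 : (X ^ (1 / 3 : ℝ)) ^ 3 = X := by
      rw [← Real.rpow_natCast, ← Real.rpow_mul hX0.le]; norm_num
    linarith
  have hq4 : 484 * (2 * (J : ℝ) + 1) ≤ (q : ℝ) ^ 3 * ε ^ 2 := by
    have e1 := mul_le_mul_of_nonneg_right hq3 (by positivity : 0 ≤ ε ^ 2)
    have e2 : X * ε ^ 2 = 484 * (2 * (J : ℝ) + 1) := by rw [hX]; field_simp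
    linarith
  have hqX : (q : ℝ) ≤ 2 * X := by
    have e1 : X ^ (1 / 3 : ℝ) ≤ X ^ (1 : ℝ) := Real.rpow_le_rpow_of_exponent_le hX1 (by norm_num)
    rw [Real.rpow_one] at e1
    linarith
  have hm1 : 2 * (q : ℝ) * J + 1 ≤ q * (2 * J + 1) := by nlinarith
  refine ⟨q, J, by exact_mod_cast hqr, by omega, by linarith, ?_, ?_, ?_⟩
  · apply le_of_sq_le_sq _ (by positivity)
    rw [mul_pow, Real.sq_sqrt (by positivity)]
    have e1 : (q : ℝ) * (484 * (2 * (J : ℝ) + 1)) ≤ q * ((q : ℝ) ^ 3 * ε ^ 2) :=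
      mul_le_mul_of_nonneg_left hq4 (by positivity)
    nlinarith
  · -- the exponential inequality
    have e1 : (2 * (q : ℝ) * J + 1) * (100 / 98 * (1 / ε ^ 2)) ≤
        988 * (2 * (J : ℝ) + 1) ^ 2 * (1 / ε) ^ 4 := by
      have f1 : (q : ℝ) * (2 * J + 1) ≤ 2 * X * (2 * J + 1) :=
        mul_le_mul_of_nonneg_right hqX (by positivity)
      have f2 : (2 * (q : ℝ) * J + 1) * (100 / 98 * (1 / ε ^ 2)) ≤
          (2 * X * (2 * J + 1)) * (100 / 98 * (1 / ε ^ 2)) :=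
        mul_le_mul_of_nonneg_right (by linarith) (by positivity)
      have f3 : (2 * X * (2 * (J : ℝ) + 1)) * (100 / 98 * (1 / ε ^ 2)) =
          96800 / 98 * ((2 * (J : ℝ) + 1) ^ 2 * (1 / ε) ^ 4) := by
        rw [hX]; field_simp; norm_num
      have f4 : 0 ≤ (2 * (J : ℝ) + 1) ^ 2 * (1 / ε) ^ 4 := by positivity
      linarith
    have e2 : (2 / ε) ^ 24 ≤ (2 : ℝ) ^ J := by
      apply pow_of_logb (by positivity)
      rw [Real.logb_pow]
      push_cast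
      linarith
    have e3 := pow_four_le hJ24
    have e4 : (988 * (2 * (J : ℝ) + 1) ^ 2 * (1 / ε) ^ 4) ^ 2 < ((2 : ℝ) ^ J) ^ 2 := by
      have f1 : (1 / ε) ^ 8 ≤ (1 / ε) ^ 24 := by
        apply pow_le_pow_right₀ _ (by norm_num)
        rw [le_div_iff₀ hε]; linarith
      have f2 : (2 / ε) ^ 24 = 16777216 * (1 / ε) ^ 24 := by ring
      have f3 : (988 * (2 * (J : ℝ) + 1) ^ 2 * (1 / ε) ^ 4) ^ 2 =
          (2 * (J : ℝ) + 1) ^ 4 * (976144 * (1 / ε) ^ 8) := by ring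
      have f4 : 976144 * (1 / ε) ^ 8 < (2 : ℝ) ^ J := by
        have : 0 < (1 / ε) ^ 8 := by positivity
        linarith
      rw [f3, sq]
      exact mul_lt_mul' e3 f4 (by positivity) (by positivity)
    have e5 := lt_of_pow_lt_pow_left₀ 2 (by positivity) e4
    linarith
  · -- the size
    have e1 : X ≤ 27000 * (l * (1 / ε) ^ 2) := by
      have f1 : 2 * (J : ℝ) + 1 ≤ 51 * l := by linarith
      have f2 : X = 484 * (2 * (J : ℝ) + 1) * (1 / ε) ^ 2 := by rw [hX]; ring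
      have f3 : 484 * (2 * (J : ℝ) + 1) * (1 / ε) ^ 2 ≤ 484 * (51 * l) * (1 / ε) ^ 2 := by
        apply mul_le_mul_of_nonneg_right _ (by positivity)
        linarith
      have f4 : 0 ≤ l * (1 / ε) ^ 2 := by positivity
      linarith
    have e2 : X ^ (1 / 3 : ℝ) ≤ 30 * (l ^ (1 / 3 : ℝ) * (1 / ε) ^ (2 / 3 : ℝ)) := by
      have f1 : X ^ (1 / 3 : ℝ) ≤ (27000 * (l * (1 / ε) ^ 2)) ^ (1 / 3 : ℝ) :=
        Real.rpow_le_rpow hX0.le e1 (by norm_num)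
      have f2 : (27000 * (l * (1 / ε) ^ 2)) ^ (1 / 3 : ℝ) =
          30 * (l ^ (1 / 3 : ℝ) * (1 / ε) ^ (2 / 3 : ℝ)) := by
        rw [Real.mul_rpow (by norm_num) (by positivity), Real.mul_rpow (by positivity) (by positivity)]
        congr 1
        · rw [show (27000 : ℝ) = 30 ^ (3 : ℝ) by norm_num, ← Real.rpow_mul (by norm_num)]
          norm_num
        · congr 1
          rw [← Real.rpow_natCast, ← Real.rpow_mul (by positivity)]
          norm_num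
      linarith
    have e3 : 1 ≤ l ^ (1 / 3 : ℝ) * (1 / ε) ^ (2 / 3 : ℝ) := by
      have f1 : 1 ≤ l ^ (1 / 3 : ℝ) := Real.one_le_rpow hl (by norm_num)
      have f2 : 1 ≤ (1 / ε) ^ (2 / 3 : ℝ) := by
        apply Real.one_le_rpow _ (by norm_num)
        rw [le_div_iff₀ hε]; linarith
      nlinarith
    have e4 : (q : ℝ) ≤ 31 * (l ^ (1 / 3 : ℝ) * (1 / ε) ^ (2 / 3 : ℝ)) := by linarith
    have e5 : l ^ (4 / 3 : ℝ) = l ^ (1 / 3 : ℝ) * l := by
      rw [show (4 / 3 : ℝ) = 1 / 3 + 1 by norm_num, Real.rpow_add (by linarith), Real.rpow_one]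
    have e6 : (q : ℝ) * J ≤ (31 * (l ^ (1 / 3 : ℝ) * (1 / ε) ^ (2 / 3 : ℝ))) * (25 * l) :=
      mul_le_mul e4 hJ2 (by positivity) (by positivity)
    rw [e5]
    calc 2 * (q : ℝ) * J = 2 * ((q : ℝ) * J) := by ring
      _ ≤ 2 * ((31 * (l ^ (1 / 3 : ℝ) * (1 / ε) ^ (2 / 3 : ℝ))) * (25 * l)) := by linarith
      _ = 1550 * ((1 / ε) ^ (2 / 3 : ℝ) * (l ^ (1 / 3 : ℝ) * l)) := by ring

/-- the threshold -/
noncomputable def thr (κ : ℝ≥0∞) (ε : ℝ) : ℝ :=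
  Real.sqrt (min κ (ENNReal.ofReal ((1 / ε) ^ (4 / 3 : ℝ)))).toReal *
    Real.logb 2 (2 / ε) ^ (4 / 3 : ℝ)

/-- there is a number of steps which is enough -/
theorem sharp_exists {n : ℕ} {κ : ℝ≥0∞} {ε : ℝ} (hε : 0 < ε) (hε1 : ε ≤ 1) (hκ : 1 ≤ κ)
    (hn : 1550 * thr κ ε ≤ n) : ∃ m : ℕ, 1 ≤ m ∧ m ≤ n ∧ (m : ℝ) ≤ 1550 * (2 / ε) ^ 2 ∧
      ∀ (T : EuclideanSpace ℝ (Fin n) →ₗ[ℝ] EuclideanSpace ℝ (Fin n)), GoodOp T →
      (κ ≠ ⊤ → ∀ v, ‖v‖ ^ 2 ≤ κ.toReal * ⟪v, T v⟫_ℝ) → ∀ (L γ M : ℝ), ParM ε L γ M m →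
      ∀ (b : EuclideanSpace ℝ (Fin n)) (x r p : ℕ → EuclideanSpace ℝ (Fin n)) (α β σ : ℕ → ℝ),
      ‖b‖ = 1 → PCG T γ m b x r p α β σ → ∃ k ≤ m, ¬ Fail T ε b x k := by
  have hl := logb_ge_one hε hε1
  have hi : 1 ≤ 1 / ε := by rw [le_div_iff₀ hε]; linarith
  have hl2 : Real.logb 2 (2 / ε) ≤ 2 / ε := by
    have h1 : (0 : ℝ) < 2 / ε := by positivity
    rw [Real.logb_le_iff_le_rpow (by norm_num) h1]
    have h2 : 1 ≤ 2 / ε := by rw [le_div_iff₀ hε]; linarith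
    have h3 := one_add_mul_self_le_rpow_one_add (s := 1) (by norm_num) h2
    norm_num at h3
    linarith
  have hl43 : Real.logb 2 (2 / ε) ≤ Real.logb 2 (2 / ε) ^ (4 / 3 : ℝ) := by
    conv_lhs => rw [← Real.rpow_one (Real.logb 2 (2 / ε))]
    exact Real.rpow_le_rpow_of_exponent_le hl (by norm_num)
  have hl43' : Real.logb 2 (2 / ε) ^ (4 / 3 : ℝ) ≤ (2 / ε) ^ (4 / 3 : ℝ) :=
    Real.rpow_le_rpow (by linarith) hl2 (by norm_num)
  have hbig : (1 / ε) ^ (2 / 3 : ℝ) * Real.logb 2 (2 / ε) ^ (4 / 3 : ℝ) ≤ (2 / ε) ^ 2 := by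
    have h1 : (1 / ε) ^ (2 / 3 : ℝ) ≤ (2 / ε) ^ (2 / 3 : ℝ) := by
      apply Real.rpow_le_rpow (by positivity) _ (by norm_num)
      apply div_le_div_of_nonneg_right (by norm_num) hε.le
    calc (1 / ε) ^ (2 / 3 : ℝ) * Real.logb 2 (2 / ε) ^ (4 / 3 : ℝ)
        ≤ (2 / ε) ^ (2 / 3 : ℝ) * (2 / ε) ^ (4 / 3 : ℝ) :=
          mul_le_mul h1 hl43' (by positivity) (by positivity)
      _ = (2 / ε) ^ 2 := by
          rw [← Real.rpow_add (by positivity), ← Real.rpow_natCast]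
          norm_num
  have hpow0 : 0 ≤ (1 / ε) ^ (4 / 3 : ℝ) := by positivity
  rcases le_total κ (ENNReal.ofReal ((1 / ε) ^ (4 / 3 : ℝ))) with hle | hle
  · -- finite case
    have hκt : κ ≠ ⊤ := ne_top_of_le_ne_top ENNReal.ofReal_ne_top hle
    have hk1 : 1 ≤ κ.toReal := by
      rw [← ENNReal.toReal_one]
      exact ENNReal.toReal_mono hκt hκ
    have hk2 : κ.toReal ≤ (1 / ε) ^ (4 / 3 : ℝ) := ENNReal.toReal_le_of_le_ofReal hpow0 hle
    have hk3 : κ.toReal ≤ (1 / ε) ^ 2 := by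
      refine le_trans hk2 ?_
      rw [← Real.rpow_natCast]
      exact Real.rpow_le_rpow_of_exponent_le hi (by norm_num)
    obtain ⟨q, J, hq, hJ, hqJ⟩ := choose_A hε hε1 hk1 hk3
    have hthr : thr κ ε = Real.sqrt κ.toReal * Real.logb 2 (2 / ε) ^ (4 / 3 : ℝ) := by
      unfold thr; rw [min_eq_left hle]
    have hsq : Real.sqrt κ.toReal ≤ (1 / ε) ^ (2 / 3 : ℝ) := by
      rw [Real.sqrt_le_left (by positivity), ← Real.rpow_natCast, ← Real.rpow_mul (by positivity)]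
      norm_num at hk2 ⊢
      exact hk2
    have hm1 : (q : ℝ) * J + 1 ≤ 15 * thr κ ε := by
      rw [hthr]
      refine le_trans hqJ ?_
      apply mul_le_mul_of_nonneg_left _ (by norm_num)
      exact mul_le_mul_of_nonneg_left hl43 (Real.sqrt_nonneg _)
    have ht0 : 0 ≤ thr κ ε := by
      rw [hthr]
      exact mul_nonneg (Real.sqrt_nonneg _) (by positivity)
    have ht1 : thr κ ε ≤ (2 / ε) ^ 2 := by
      rw [hthr]
      refine le_trans ?_ hbig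
      exact mul_le_mul_of_nonneg_right hsq (by positivity)
    refine ⟨q * J + 1, by omega, ?_, ?_, ?_⟩
    · have : ((q * J + 1 : ℕ) : ℝ) ≤ n := by push_cast; linarith
      exact_mod_cast this
    · push_cast; linarith
    · intro T hT hc L γ M hP b x r p α β σ hb H
      exact sharp_fin hT hk1 (hc hκt) hP hb H hq hJ (by omega)
  · -- general case
    obtain ⟨q, J, hq0, hJ0, hq, hqs, hJ, hqJ⟩ := choose_B hε hε1
    have hthr : thr κ ε = (1 / ε) ^ (2 / 3 : ℝ) * Real.logb 2 (2 / ε) ^ (4 / 3 : ℝ) := by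
      unfold thr
      rw [min_eq_right hle, ENNReal.toReal_ofReal hpow0, Real.sqrt_eq_rpow,
        ← Real.rpow_mul (by positivity)]
      norm_num
    rw [← hthr] at hqJ hbig
    refine ⟨2 * q * J, Nat.mul_pos (Nat.mul_pos two_pos hq0) hJ0, ?_, ?_, ?_⟩
    · have : ((2 * q * J : ℕ) : ℝ) ≤ n := by push_cast; linarith
      exact_mod_cast this
    · push_cast; linarith
    · intro T hT _ L γ M hP b x r p α β σ hb H
      refine sharp_inf hT hP hb H (q := q) (J := J) (s := Real.sqrt (2 * q * J + 1))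
        (Real.sqrt_nonneg _) ?_ hq0 hq hqs ?_ (le_refl _)
      · rw [Real.sq_sqrt (by positivity)]
        push_cast
        exact le_refl _
      · push_cast
        exact hJ

/-- the data for large dimension -/
structure Big2 (n t : ℕ) (ε : ℝ) : Prop where
  hn : 1 ≤ n
  hε : 0 < ε
  hε1 : ε ≤ 1
  ht : 2 * Real.logb 2 n + 292 * Real.logb 2 (2 / ε) ≤ t

namespace Big2

variable {n t : ℕ} {ε : ℝ} (h : Big2 n t ε)
include h

theorem n1 : (1 : ℝ) ≤ n := by exact_mod_cast h.hn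

theorem two_le : 2 ≤ 2 / ε := by
  rw [le_div_iff₀ h.hε]
  have := h.hε1
  linarith

theorem pow_ge : (n : ℝ) ^ 2 * (2 / ε) ^ 292 ≤ 2 ^ t := by
  have hn := h.n1
  have hε := h.hε
  apply pow_of_logb (by positivity)
  refine le_trans (le_of_eq ?_) h.ht
  rw [Real.logb_mul (by positivity) (by positivity), Real.logb_pow, Real.logb_pow]
  push_cast
  ring

theorem small : Small n ((1 / 2) ^ t) := by
  have hn := h.n1
  refine ⟨by positivity, h.hn, half_pow_mul (le_trans ?_ h.pow_ge)⟩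
  have h1 : (2 : ℝ) ^ 292 ≤ (2 / ε) ^ 292 := pow_le_pow_left₀ (by norm_num) h.two_le _
  have h3 : (2 : ℝ) ^ 4 ≤ 2 ^ 292 := pow_le_pow_right₀ (by norm_num) (by norm_num)
  have h2 : (16 : ℝ) ≤ (2 / ε) ^ 292 := le_trans (le_trans (by norm_num) h3) h1
  calc 16 * (n : ℝ) ^ 2 = (n : ℝ) ^ 2 * 16 := by ring
    _ ≤ (n : ℝ) ^ 2 * (2 / ε) ^ 292 := mul_le_mul_of_nonneg_left h2 (by positivity)

theorem par {m : ℕ} (hm : 1 ≤ m) (hm2 : (m : ℝ) ≤ 1550 * (2 / ε) ^ 2) :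
    ParM ε (5 / ε ^ 2) (8 * (n : ℝ) ^ 2 * (1 / 2) ^ t) (8192 * (2 / ε) ^ 4) m := by
  have hε := h.hε
  have hn := h.n1
  refine ParM.of hε h.hε1 (by positivity) hm ?_ ?_
  · have e1 : (8192 * (2 / ε) ^ 4) * ε ^ 2 = 32768 * (2 / ε) ^ 2 := by
      field_simp
      norm_num
    have e2 : 0 ≤ (2 / ε) ^ 2 := by positivity
    rw [e1]; linarith
  · have e1 : 100000 * (8 * (n : ℝ) ^ 2 * (1 / 2) ^ t * (8192 * (2 / ε) ^ 4) ^ 16) =
        (n : ℝ) ^ 2 * (800000 * 2 ^ 208) * (2 / ε) ^ 64 * (1 / 2) ^ t := by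
      rw [mul_pow, ← pow_mul]
      norm_num
      ring
    rw [e1]
    apply half_pow_mul
    refine le_trans ?_ h.pow_ge
    have e2 : (2 : ℝ) ^ 228 ≤ (2 / ε) ^ 228 := pow_le_pow_left₀ (by norm_num) h.two_le _
    have e4 : (2 : ℝ) ^ 228 = 2 ^ 20 * 2 ^ 208 := by rw [← pow_add]
    have e5 : (800000 * 2 ^ 208 : ℝ) ≤ 2 ^ 20 * 2 ^ 208 :=
      mul_le_mul_of_nonneg_right (by norm_num) (by positivity)
    have e3 : (800000 * 2 ^ 208 : ℝ) ≤ (2 / ε) ^ 228 := by linarith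
    calc (n : ℝ) ^ 2 * (800000 * 2 ^ 208) * (2 / ε) ^ 64
        = (n : ℝ) ^ 2 * ((800000 * 2 ^ 208) * (2 / ε) ^ 64) := by ring
      _ ≤ (n : ℝ) ^ 2 * ((2 / ε) ^ 228 * (2 / ε) ^ 64) := by
          apply mul_le_mul_of_nonneg_left _ (by positivity)
          exact mul_le_mul_of_nonneg_right e3 (by positivity)
      _ = (n : ℝ) ^ 2 * (2 / ε) ^ 292 := by rw [← pow_add]

end Big2

/-- the upper bound above the threshold -/
theorem sharp_upper (n : ℕ) (hn1 : 1 ≤ n) (ε : ℝ) (hε : 0 < ε) (hε1 : ε ≤ 1) (κ : ℝ≥0∞)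
    (hκ : 1 ≤ κ) (hn : 1550 * thr κ ε ≤ n) (t : ℕ)
    (h : 2 * Real.logb 2 n + 292 * Real.logb 2 (2 / ε) ≤ t) : Guarantee n κ ε t := by
  intro A b hA hcond hb _ _ R K hR hK
  have hB : Big2 n t ε := ⟨hn1, hε, hε1, h⟩
  obtain ⟨m, hm1, hmn, hm2, hm⟩ := sharp_exists hε hε1 hκ hn
  refine good_run hA hb hB.small ?_ hR hK
  intro x r p α β σ H
  obtain ⟨k, hk, hg⟩ := hm (opT A) (goodOp_opT hA hb)
    (fun hκt => coercive_opT hA hb (hcond.real hκt)) _ _ _ (hB.par hm1 hm2) _ x r p α β σ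
    (norm_toLp_inv hb) (H.mono hmn)
  refine ⟨k, hk.trans hmn, ?_⟩
  unfold Fail at hg
  push Not at hg
  exact hg

/-- the upper bound above the threshold, strict reading -/
theorem sharp_upper_strong (n : ℕ) (hn1 : 1 ≤ n) (ε : ℝ) (hε : 0 < ε) (hε1 : ε ≤ 1) (κ : ℝ≥0∞)
    (hκ : 1 ≤ κ) (hκt : κ ≠ ⊤) (hn : 1550 * thr κ ε ≤ n) (t : ℕ)
    (h : 2 * Real.logb 2 n + 292 * Real.logb 2 (2 / ε) ≤ t)
    (h' : 2 * Real.logb 2 n + Real.logb 2 κ.toReal + 4 ≤ t) : StrongGuarantee n κ ε t := by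
  intro A b hA hcond hb hfA hfb R K hR hK
  have hB : Big2 n t ε := ⟨hn1, hε, hε1, h⟩
  have hG := sharp_upper n hn1 ε hε hε1 κ hκ hn t h A b hA hcond hb hfA hfb R K hR
  rcases hK with h1 | ⟨h1, h2 | h2⟩
  · exact hG (Or.inl h1)
  · exact hG (Or.inr ⟨h1, h2⟩)
  · by_contra hcon
    push Not at hcon
    obtain ⟨m, hm1, hmn, hm2, hm⟩ := sharp_exists hε hε1 hκ hn
    have hfail : ∀ j ≤ K, Fail (opT A) ε
        (WithLp.toLp 2 ((nrm b)⁻¹ • b) : EuclideanSpace ℝ (Fin n))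
        (fun k => WithLp.toLp 2 ((specNorm A * (nrm b)⁻¹) • R.x k)) j :=
      fun j hj => fail_of_eta hA hb (hcon j hj)
    have H := hR.pcg hA hb hB.small
    have hP := hB.par hm1 hm2
    rcases le_or_gt m K with hKm | hKm
    · obtain ⟨k, hk, hg⟩ := hm (opT A) (goodOp_opT hA hb)
        (fun hκt => coercive_opT hA hb (hcond.real hκt)) _ _ _ hP _ _ _ _ _ _ _
        (norm_toLp_inv hb) (H.mono hKm)
      exact hg (hfail k (hk.trans hKm))
    · have hκ1 : 1 ≤ κ.toReal := by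
        rw [← ENNReal.toReal_one]
        exact ENNReal.toReal_mono hκt hκ
      have hn' := hB.n1
      have hsm : 8 * (n : ℝ) ^ 2 * (1 / 2) ^ t * κ.toReal < 1 := by
        have h3 : 16 * (n : ℝ) ^ 2 * κ.toReal ≤ 2 ^ t := by
          apply pow_of_logb (by positivity)
          have h4 : (16 : ℝ) * (n : ℝ) ^ 2 * κ.toReal = 2 ^ 4 * (n : ℝ) ^ 2 * κ.toReal := by
            norm_num
          rw [h4, Real.logb_mul (by positivity) (by positivity),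
            Real.logb_mul (by positivity) (by positivity),
            Real.logb_pow, Real.logb_pow, Real.logb_self_eq_one (by norm_num)]
          push_cast
          linarith
        have h4 := half_pow_mul h3
        linarith
      have hp := large_ne (goodOp_opT hA hb) (fun K' hK1 hK' => hP.mono hK1 (by omega)) H
        (norm_toLp_inv hb) hfail
      refine not_breaksDown hA hB.small (hcond.real hκt) hsm ?_ h2
      intro h0
      apply hp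
      simp only [h0, smul_zero, WithLp.toLp_zero]

end Pool.Agent.Lib.MP_02bbae_an
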