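import Mathlib
import Pool.Agent.Lib.MP_02bbae_an.Ortho
import Pool.Agent.Lib.MP_02bbae_an.SharpAssembly

/-!
# The upper bound in all regimes
-/

set_option autoImplicit false

open scoped InnerProductSpace RealInnerProductSpace ENNReal

namespace Pool.Agent.Lib.MP_02bbae_an

/-- `min (√κ) (ε ^ (-2/3))` -/
noncomputable def thrN (κ : ℝ≥0∞) (ε : ℝ) : ℝ :=
  Real.sqrt (min κ (ENNReal.ofReal ((1 / ε) ^ (4 / 3 : ℝ)))).toReal

/-- the threshold -/
noncomputable def thrT (κ : ℝ≥0∞) (ε : ℝ) : ℝ :=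
  thrN κ ε * (1 + Real.logb 2 ((1 / ε) ^ (2 / 3 : ℝ) / thrN κ ε))

theorem thrN_props {ε : ℝ} (hε : 0 < ε) (hε1 : ε ≤ 1) {κ : ℝ≥0∞} (hκ : 1 ≤ κ) :
    1 ≤ thrN κ ε ∧ thrN κ ε ≤ (1 / ε) ^ (2 / 3 : ℝ) ∧
    ((thrN κ ε = (1 / ε) ^ (2 / 3 : ℝ)) ∨ (κ ≠ ⊤ ∧ 1 ≤ κ.toReal ∧ thrN κ ε ^ 2 = κ.toReal)) ∧
    ENNReal.ofReal (thrN κ ε ^ 2) ≤ κ := by
  have hi : 1 ≤ 1 / ε := by rw [le_div_iff₀ hε]; linarith
  have hmt : min κ (ENNReal.ofReal ((1 / ε) ^ (4 / 3 : ℝ))) ≠ ⊤ :=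
    ne_top_of_le_ne_top ENNReal.ofReal_ne_top (min_le_right _ _)
  have hpow0 : 0 ≤ (1 / ε) ^ (4 / 3 : ℝ) := by positivity
  have hN2 : thrN κ ε ^ 2 = (min κ (ENNReal.ofReal ((1 / ε) ^ (4 / 3 : ℝ)))).toReal := by
    unfold thrN
    rw [Real.sq_sqrt ENNReal.toReal_nonneg]
  have hP2 : ((1 / ε) ^ (2 / 3 : ℝ)) ^ 2 = (1 / ε) ^ (4 / 3 : ℝ) := by
    rw [← Real.rpow_natCast, ← Real.rpow_mul (by positivity)]
    norm_num
  refine ⟨?_, ?_, ?_, ?_⟩
  · unfold thrN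
    rw [Real.one_le_sqrt, ← ENNReal.toReal_one]
    apply ENNReal.toReal_mono hmt
    apply le_min hκ
    rw [← ENNReal.ofReal_one]
    exact ENNReal.ofReal_le_ofReal (Real.one_le_rpow hi (by norm_num))
  · unfold thrN
    rw [Real.sqrt_le_left (by positivity), hP2]
    exact ENNReal.toReal_le_of_le_ofReal hpow0 (min_le_right κ _)
  · rcases le_total κ (ENNReal.ofReal ((1 / ε) ^ (4 / 3 : ℝ))) with hle | hle
    · right
      have hκt : κ ≠ ⊤ := ne_top_of_le_ne_top ENNReal.ofReal_ne_top hle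
      refine ⟨hκt, ?_, ?_⟩
      · rw [← ENNReal.toReal_one]
        exact ENNReal.toReal_mono hκt hκ
      · rw [hN2, min_eq_left hle]
    · left
      unfold thrN
      rw [min_eq_right hle, ENNReal.toReal_ofReal hpow0, ← hP2, Real.sqrt_sq (by positivity)]
  · rw [hN2, ENNReal.ofReal_toReal hmt]
    exact min_le_left _ _

theorem thrT_props {ε : ℝ} (hε : 0 < ε) (hε1 : ε ≤ 1) {κ : ℝ≥0∞} (hκ : 1 ≤ κ) :
    0 ≤ Real.logb 2 ((1 / ε) ^ (2 / 3 : ℝ) / thrN κ ε) ∧ thrN κ ε ≤ thrT κ ε ∧ 1 ≤ thrT κ ε ∧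
      thrT κ ε ≤ 2 * (1 / ε) ^ (2 / 3 : ℝ) := by
  obtain ⟨h1, h2, -, -⟩ := thrN_props hε hε1 hκ
  have hN0 : 0 < thrN κ ε := by linarith
  set P := (1 / ε) ^ (2 / 3 : ℝ) with hP
  set N := thrN κ ε with hN
  have hy : 1 ≤ P / N := by rw [le_div_iff₀ hN0]; linarith
  have hl : 0 ≤ Real.logb 2 (P / N) := Real.logb_nonneg (by norm_num) hy
  have hly : Real.logb 2 (P / N) ≤ P / N := by
    rw [Real.logb_le_iff_le_rpow (by norm_num) (by linarith)]
    have h3 := one_add_mul_self_le_rpow_one_add (s := 1) (by norm_num) hy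
    norm_num at h3
    linarith
  have hT : thrT κ ε = N * (1 + Real.logb 2 (P / N)) := rfl
  have e1 : N ≤ thrT κ ε := by
    rw [hT]
    have := mul_nonneg hN0.le hl
    linarith
  refine ⟨hl, e1, by linarith, ?_⟩
  rw [hT]
  have e2 : N * Real.logb 2 (P / N) ≤ N * (P / N) := mul_le_mul_of_nonneg_left hly hN0.le
  have e3 : N * (P / N) = P := by field_simp
  linarith

/-- the scalar part -/
theorem phase_scalar {ε : ℝ} (hε : 0 < ε) (hε1 : ε ≤ 1) {κ : ℝ≥0∞} (hκ : 1 ≤ κ) {m Θ R : ℝ}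
    (hm : 1 ≤ m) (hR0 : 0 ≤ R) (hR : R ^ 4 = m * (1 / ε ^ 2)) (h1 : m ≤ 9 / 4 * Θ)
    (h2 : Θ ≤ 41 * R)
    (h3 : κ ≠ ⊤ → ∀ i : ℕ, Θ ≤ (i + 2) * Real.sqrt (34 * κ.toReal) + 24 / 5 * (R / 2 ^ i)) :
    m ≤ 417 * thrT κ ε ∧ Θ ≤ 190 * thrT κ ε := by
  obtain ⟨k1, k2, k3, -⟩ := thrN_props hε hε1 hκ
  obtain ⟨l1, l2, l3, -⟩ := thrT_props hε hε1 hκ
  have hT : thrT κ ε = thrN κ ε * (1 + Real.logb 2 ((1 / ε) ^ (2 / 3 : ℝ) / thrN κ ε)) := rfl
  have hP3 : ((1 / ε) ^ (2 / 3 : ℝ)) ^ 3 = 1 / ε ^ 2 := by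
    rw [← Real.rpow_natCast, ← Real.rpow_mul (by positivity)]
    norm_num
  rw [← hP3] at hR
  set P := (1 / ε) ^ (2 / 3 : ℝ) with hP
  set N := thrN κ ε with hN
  have hN0 : 0 < N := by linarith
  have hP0 : 0 < P := by linarith
  have hΘ0 : 0 ≤ Θ := by linarith
  have hm0 : 0 < m := by linarith
  rcases k3 with k3 | ⟨hκt, hκ1, k3⟩
  · -- no condition number
    have hTP : thrT κ ε = P := by
      rw [hT, k3, div_self hP0.ne', Real.logb_one]; ring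
    rw [hTP]
    have e1 : m ≤ 369 / 4 * R := by linarith
    have e2 : m ^ 4 ≤ (369 / 4 * R) ^ 4 := pow_le_pow_left₀ hm0.le e1 4
    have e3 : (369 / 4 * R) ^ 4 = (369 / 4) ^ 4 * (m * P ^ 3) := by rw [mul_pow, hR]
    have e4 : m * m ^ 3 ≤ m * (417 * P) ^ 3 := by
      have f1 : m * m ^ 3 = m ^ 4 := by ring
      have f2 : (369 / 4 : ℝ) ^ 4 * (m * P ^ 3) ≤ 417 ^ 3 * (m * P ^ 3) :=
        mul_le_mul_of_nonneg_right (by norm_num) (by positivity)
      rw [f1]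
      refine e2.trans ?_
      rw [e3]
      refine f2.trans (le_of_eq ?_)
      ring
    have e5 := le_of_mul_le_mul_left e4 hm0
    have e6 : m ≤ 417 * P := le_of_pow_le_pow_left₀ (by norm_num) (by positivity) e5
    refine ⟨e6, ?_⟩
    have e7 : Θ ^ 4 ≤ (190 * P) ^ 4 := by
      have f1 : Θ ^ 4 ≤ (41 * R) ^ 4 := pow_le_pow_left₀ hΘ0 h2 4
      have f2 : (41 * R) ^ 4 = 41 ^ 4 * (m * P ^ 3) := by rw [mul_pow, hR]
      have f3 : m * P ^ 3 ≤ (417 * P) * P ^ 3 := mul_le_mul_of_nonneg_right e6 (by positivity)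
      rw [f2] at f1
      refine f1.trans ?_
      have f4 : (190 * P) ^ 4 = 190 ^ 4 * (P * P ^ 3) := by ring
      rw [f4]
      have f5 : 0 ≤ P * P ^ 3 := by positivity
      nlinarith
    exact le_of_pow_le_pow_left₀ (by norm_num) (by positivity) e7
  · -- finite condition number
    have h4 := h3 hκt
    have hsq : Real.sqrt (34 * κ.toReal) ≤ 146 / 25 * N := by
      rw [← k3]
      apply Real.sqrt_le_iff.mpr
      refine ⟨by positivity, ?_⟩
      nlinarith [sq_nonneg N]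
    set y := P / N with hy
    have hy1 : 1 ≤ y := by rw [hy, le_div_iff₀ hN0]; linarith
    have hy0 : 0 < y := by linarith
    set l := Real.logb 2 y with hl
    have hi1 : l ≤ (⌈l⌉₊ : ℕ) := Nat.le_ceil l
    have hi2 := Nat.ceil_lt_add_one l1
    have hyi : y ≤ 2 ^ ⌈l⌉₊ := pow_of_logb hy0 hi1
    have h5 := h4 ⌈l⌉₊
    set W := R / y with hW
    have hW0 : 0 ≤ W := by positivity
    have hW4 : W ^ 4 ≤ m * N ^ 3 := by
      have e1 : W ^ 4 = m * N ^ 3 * (1 / y) := by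
        rw [hW, div_pow, hR, hy]
        field_simp
      rw [e1]
      have e2 : 1 / y ≤ 1 := by rw [div_le_one hy0]; exact hy1
      exact mul_le_of_le_one_right (by positivity) e2
    have hRW : R / 2 ^ ⌈l⌉₊ ≤ W := by
      rw [hW]
      exact div_le_div_of_nonneg_left hR0 hy0 hyi
    have h6 : Θ ≤ 438 / 25 * thrT κ ε + 24 / 5 * W := by
      have e1 : ((⌈l⌉₊ : ℝ) + 2) * Real.sqrt (34 * κ.toReal) ≤ (3 * (1 + l)) * (146 / 25 * N) := by
        apply mul_le_mul (by linarith) hsq (Real.sqrt_nonneg _) (by linarith)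
      have e2 : (3 * (1 + l)) * (146 / 25 * N) = 438 / 25 * thrT κ ε := by rw [hT]; ring
      linarith
    set X := thrT κ ε with hX
    have hX0 : 0 < X := by linarith
    have h7 : m ≤ 417 * X := by
      by_contra hcon
      push Not at hcon
      have e1 : N ≤ m / 417 := by rw [le_div_iff₀ (by norm_num)]; linarith
      have e2 : W ^ 4 ≤ (m / 92) ^ 4 := by
        refine hW4.trans ?_
        have f1 : N ^ 3 ≤ (m / 417) ^ 3 := pow_le_pow_left₀ hN0.le e1 3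
        have f2 := mul_le_mul_of_nonneg_left f1 hm0.le
        refine f2.trans ?_
        have f3 : m * (m / 417) ^ 3 = m ^ 4 * (1 / 417 ^ 3) := by ring
        have f4 : (m / 92) ^ 4 = m ^ 4 * (1 / 92 ^ 4) := by ring
        rw [f3, f4]
        apply mul_le_mul_of_nonneg_left _ (by positivity)
        norm_num
      have e3 : W ≤ m / 92 := le_of_pow_le_pow_left₀ (by norm_num) (by positivity) e2
      linarith
    refine ⟨h7, ?_⟩
    have h8 : W ≤ 5 * X := by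
      apply le_of_pow_le_pow_left₀ (n := 4) (by norm_num) (by positivity)
      refine hW4.trans ?_
      have f1 : N ^ 3 ≤ X ^ 3 := pow_le_pow_left₀ hN0.le l2 3
      have f2 : m * N ^ 3 ≤ (417 * X) * X ^ 3 := mul_le_mul h7 f1 (by positivity) (by positivity)
      refine f2.trans ?_
      have f3 : 0 ≤ X * X ^ 3 := by positivity
      nlinarith
    linarith

/-- there is a number of steps which is enough -/
theorem phase_exists {n : ℕ} {κ : ℝ≥0∞} {ε : ℝ} (hn1 : 1 ≤ n) (hε : 0 < ε) (hε1 : ε ≤ 1)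
    (hκ : 1 ≤ κ) : ∃ m : ℕ, 1 ≤ m ∧ m ≤ n ∧ (m : ℝ) ≤ 1550 * (2 / ε) ^ 2 ∧
      ∀ (T : EuclideanSpace ℝ (Fin n) →ₗ[ℝ] EuclideanSpace ℝ (Fin n)), GoodOp T →
      (κ ≠ ⊤ → ∀ v, ‖v‖ ^ 2 ≤ κ.toReal * ⟪v, T v⟫_ℝ) → ∀ (L γ M : ℝ), ParM ε L γ M m →
      100000 * (γ * M ^ 24) ≤ 1 →
      ((n : ℝ) < 418 * thrT κ ε → 6 * (γ * M ^ 8) * ((1024 * thrT κ ε / n) ^ 2) ^ n < 1) →
      ∀ (b : EuclideanSpace ℝ (Fin n)) (x r p : ℕ → EuclideanSpace ℝ (Fin n)) (α β σ : ℕ → ℝ),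
      ‖b‖ = 1 → PCG T γ m b x r p α β σ → ∃ k ≤ m, ¬ Fail T ε b x k := by
  obtain ⟨l1, l2, l3, l4⟩ := thrT_props hε hε1 hκ
  have hi : 1 ≤ 1 / ε := by rw [le_div_iff₀ hε]; linarith
  have hbig : ∀ m : ℕ, (m : ℝ) ≤ 418 * thrT κ ε → (m : ℝ) ≤ 1550 * (2 / ε) ^ 2 := by
    intro m hm
    have h1 : (1 / ε) ^ (2 / 3 : ℝ) ≤ (1 / ε) ^ (2 : ℝ) :=
      Real.rpow_le_rpow_of_exponent_le hi (by norm_num)
    rw [Real.rpow_two] at h1
    have h2 : (2 / ε) ^ 2 = 4 * (1 / ε) ^ 2 := by ring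
    rw [h2]
    have h3 : 0 ≤ (1 / ε) ^ 2 := by positivity
    linarith
  -- the abstract statement
  have habs : ∀ m : ℕ, ∀ (T : EuclideanSpace ℝ (Fin n) →ₗ[ℝ] EuclideanSpace ℝ (Fin n)),
      GoodOp T → (κ ≠ ⊤ → ∀ v, ‖v‖ ^ 2 ≤ κ.toReal * ⟪v, T v⟫_ℝ) → ∀ (L γ M : ℝ),
      ParM ε L γ M m → 100000 * (γ * M ^ 24) ≤ 1 →
      ∀ (b : EuclideanSpace ℝ (Fin n)) (x r p : ℕ → EuclideanSpace ℝ (Fin n)) (α β σ : ℕ → ℝ),
      ‖b‖ = 1 → PCG T γ m b x r p α β σ → (∀ k ≤ m, Fail T ε b x k) →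
      (m : ℝ) ≤ 417 * thrT κ ε ∧ Th r α m ≤ 190 * thrT κ ε ∧
      (6 * (γ * M ^ 8) * (20 * (Th r α m / m) ^ 2) ^ m < 1 → m + 1 ≤ n) := by
    intro m T hT hc L γ M hP hG b x r p α β σ hb H hF
    have hm := hP.par.hm
    have hm1 : (1 : ℝ) ≤ m := by exact_mod_cast hm
    set R := Real.sqrt (Real.sqrt ((m : ℝ) * (1 / ε ^ 2))) with hR
    have hR4 : R ^ 4 = m * (1 / ε ^ 2) := by
      have e1 : R ^ 4 = (R ^ 2) ^ 2 := by ring
      rw [e1, hR, Real.sq_sqrt (Real.sqrt_nonneg _), Real.sq_sqrt (by positivity)]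
    have hR0 : 0 ≤ R := Real.sqrt_nonneg _
    obtain ⟨q1, q2, q3, q4⟩ := run_fail hT hP hb hG H hF hR0 hR4
    have hs := phase_scalar hε hε1 hκ hm1 hR0 hR4 q1 q2 (fun hκt => q3 κ.toReal (by
      rw [← ENNReal.toReal_one]
      exact ENNReal.toReal_mono hκt hκ) (hc hκt))
    rw [finrank_euclideanSpace_fin] at q4
    exact ⟨hs.1, hs.2, q4⟩
  rcases le_or_gt (418 * thrT κ ε) n with hcase | hcase
  · -- many steps
    have hfl := Nat.lt_floor_add_one (417 * thrT κ ε)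
    have hfl2 := Nat.floor_le (show 0 ≤ 417 * thrT κ ε by linarith)
    have hle : ((⌊417 * thrT κ ε⌋₊ + 1 : ℕ) : ℝ) ≤ 418 * thrT κ ε := by
      push_cast; linarith
    refine ⟨⌊417 * thrT κ ε⌋₊ + 1, by omega, ?_, hbig _ hle, ?_⟩
    · have : ((⌊417 * thrT κ ε⌋₊ + 1 : ℕ) : ℝ) ≤ n := hle.trans hcase
      exact_mod_cast this
    · intro T hT hc L γ M hP hG _ b x r p α β σ hb H
      by_contra hcon
      push Not at hcon
      obtain ⟨h1, -, -⟩ := habs _ T hT hc L γ M hP hG b x r p α β σ hb H hcon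
      push_cast at h1
      linarith
  · -- all steps
    refine ⟨n, hn1, le_refl n, hbig n hcase.le, ?_⟩
    intro T hT hc L γ M hP hG hsm b x r p α β σ hb H
    by_contra hcon
    push Not at hcon
    obtain ⟨h1, h2, h3⟩ := habs _ T hT hc L γ M hP hG b x r p α β σ hb H hcon
    have h4 := hsm hcase
    have hn0 : (0 : ℝ) < n := by exact_mod_cast hn1
    have hTh0 : 0 ≤ Th r α n := Finset.sum_nonneg fun _ _ => Real.sqrt_nonneg _
    have h5 : 20 * (Th r α n / n) ^ 2 ≤ (1024 * thrT κ ε / n) ^ 2 := by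
      have e1 : Th r α n / n ≤ 190 * thrT κ ε / n := div_le_div_of_nonneg_right h2 hn0.le
      have e2 : (Th r α n / n) ^ 2 ≤ (190 * thrT κ ε / n) ^ 2 := pow_le_pow_left₀ (by positivity) e1 2
      have e3 : (190 * thrT κ ε / n) ^ 2 = 36100 * (thrT κ ε / n) ^ 2 := by ring
      have e4 : (1024 * thrT κ ε / n) ^ 2 = 1048576 * (thrT κ ε / n) ^ 2 := by ring
      have e5 : 0 ≤ (thrT κ ε / n) ^ 2 := by positivity
      rw [e4]
      linarith
    have h6 := pow_le_pow_left₀ (by positivity) h5 n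
    have hγ0 := hP.par.hγ0
    have hM0 := hP.M0
    have h7 := h3 (lt_of_le_of_lt (mul_le_mul_of_nonneg_left h6 (by positivity)) h4)
    omega

/-- the data for the upper bound -/
structure Big3 (n t : ℕ) (κ : ℝ≥0∞) (ε : ℝ) : Prop where
  hn : 1 ≤ n
  hε : 0 < ε
  hε1 : ε ≤ 1
  hκ : 1 ≤ κ
  ht : 2 * Real.logb 2 n + 428 * Real.logb 2 (2 / ε) +
    2 * (n * max 0 (Real.logb 2 (1024 * thrT κ ε / n))) ≤ t

namespace Big3

variable {n t : ℕ} {ε : ℝ} {κ : ℝ≥0∞} (h : Big3 n t κ ε)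
include h

theorem n1 : (1 : ℝ) ≤ n := by exact_mod_cast h.hn

theorem big2 : Big2 n t ε := by
  refine ⟨h.hn, h.hε, h.hε1, le_trans ?_ h.ht⟩
  have h1 := logb_ge_one h.hε h.hε1
  have h2 : 0 ≤ (n : ℝ) * max 0 (Real.logb 2 (1024 * thrT κ ε / n)) := by positivity
  linarith

theorem pow_ge : (n : ℝ) ^ 2 * (2 / ε) ^ 428 ≤ 2 ^ t := by
  have hn := h.n1
  have hε := h.hε
  apply pow_of_logb (by positivity)
  refine le_trans (le_of_eq ?_) (le_trans ?_ h.ht) (b := 2 * Real.logb 2 n +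
    428 * Real.logb 2 (2 / ε))
  · rw [Real.logb_mul (by positivity) (by positivity), Real.logb_pow, Real.logb_pow]
    push_cast
    ring
  · have h2 : 0 ≤ (n : ℝ) * max 0 (Real.logb 2 (1024 * thrT κ ε / n)) := by positivity
    linarith

theorem sm24 : 100000 * (8 * (n : ℝ) ^ 2 * (1 / 2) ^ t * (8192 * (2 / ε) ^ 4) ^ 24) ≤ 1 := by
  have hε := h.hε
  have hn := h.n1
  have h2 := h.big2.two_le
  have hp := h.pow_ge
  set z := 2 / ε with hz
  have hz0 : 0 < z := by linarith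
  have e1 : (8192 * z ^ 4) ^ 24 ≤ z ^ 408 := by
    have f1 : (8192 : ℝ) ≤ z ^ 13 := by
      calc (8192 : ℝ) = 2 ^ 13 := by norm_num
        _ ≤ z ^ 13 := pow_le_pow_left₀ (by norm_num) h2 _
    have f2 : 8192 * z ^ 4 ≤ z ^ 17 := by
      calc 8192 * z ^ 4 ≤ z ^ 13 * z ^ 4 := mul_le_mul_of_nonneg_right f1 (by positivity)
        _ = z ^ 17 := by rw [← pow_add]
    calc (8192 * z ^ 4) ^ 24 ≤ (z ^ 17) ^ 24 := pow_le_pow_left₀ (by positivity) f2 _
      _ = z ^ 408 := by rw [← pow_mul]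
  have e2 : (800000 : ℝ) ≤ z ^ 20 := by
    calc (800000 : ℝ) ≤ 2 ^ 20 := by norm_num
      _ ≤ z ^ 20 := pow_le_pow_left₀ (by norm_num) h2 _
  have e3 : 800000 * (8192 * z ^ 4) ^ 24 ≤ z ^ 428 := by
    calc 800000 * (8192 * z ^ 4) ^ 24 ≤ z ^ 20 * z ^ 408 :=
          mul_le_mul e2 e1 (by positivity) (by positivity)
      _ = z ^ 428 := by rw [← pow_add]
  have e4 : (n : ℝ) ^ 2 * (800000 * (8192 * z ^ 4) ^ 24) ≤ 2 ^ t :=
    (mul_le_mul_of_nonneg_left e3 (by positivity)).trans hp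
  have e5 := half_pow_mul e4
  refine le_trans (le_of_eq ?_) e5
  ring

theorem ortho : 6 * (8 * (n : ℝ) ^ 2 * (1 / 2) ^ t * (8192 * (2 / ε) ^ 4) ^ 8) *
    ((1024 * thrT κ ε / n) ^ 2) ^ n < 1 := by
  have hε := h.hε
  have hn := h.n1
  have hn0 : (0 : ℝ) < n := by linarith
  have h2 := h.big2.two_le
  obtain ⟨l1, l2, l3, l4⟩ := thrT_props hε h.hε1 h.hκ
  have hT0 : 0 < thrT κ ε := by linarith
  have ht := h.ht
  set y := 1024 * thrT κ ε / n with hy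
  have hy0 : 0 < y := by positivity
  set z := 2 / ε with hz
  have hz0 : 0 < z := by linarith
  have e0 : (n : ℝ) ^ 2 * z ^ 428 * (y ^ 2) ^ n ≤ 2 ^ t := by
    apply pow_of_logb (by positivity)
    refine le_trans ?_ ht
    rw [Real.logb_mul (by positivity) (by positivity), Real.logb_mul (by positivity) (by positivity),
      Real.logb_pow, Real.logb_pow, Real.logb_pow, Real.logb_pow]
    push_cast
    have e1 : (n : ℝ) * Real.logb 2 y ≤ n * max 0 (Real.logb 2 y) :=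
      mul_le_mul_of_nonneg_left (le_max_right _ _) hn0.le
    linarith
  have e1 : (8192 * z ^ 4) ^ 8 ≤ z ^ 136 := by
    have f1 : (8192 : ℝ) ≤ z ^ 13 := by
      calc (8192 : ℝ) = 2 ^ 13 := by norm_num
        _ ≤ z ^ 13 := pow_le_pow_left₀ (by norm_num) h2 _
    have f2 : 8192 * z ^ 4 ≤ z ^ 17 := by
      calc 8192 * z ^ 4 ≤ z ^ 13 * z ^ 4 := mul_le_mul_of_nonneg_right f1 (by positivity)
        _ = z ^ 17 := by rw [← pow_add]
    calc (8192 * z ^ 4) ^ 8 ≤ (z ^ 17) ^ 8 := pow_le_pow_left₀ (by positivity) f2 _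
      _ = z ^ 136 := by rw [← pow_mul]
  have e2 : (96 : ℝ) ≤ z ^ 7 := by
    calc (96 : ℝ) ≤ 2 ^ 7 := by norm_num
      _ ≤ z ^ 7 := pow_le_pow_left₀ (by norm_num) h2 _
  have e3 : 96 * (8192 * z ^ 4) ^ 8 ≤ z ^ 428 := by
    calc 96 * (8192 * z ^ 4) ^ 8 ≤ z ^ 7 * z ^ 136 :=
          mul_le_mul e2 e1 (by positivity) (by positivity)
      _ = z ^ 143 := by rw [← pow_add]
      _ ≤ z ^ 428 := pow_le_pow_right₀ (by linarith) (by norm_num)
  have e4 : (n : ℝ) ^ 2 * (96 * (8192 * z ^ 4) ^ 8) * (y ^ 2) ^ n ≤ 2 ^ t := by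
    refine le_trans ?_ e0
    apply mul_le_mul_of_nonneg_right _ (by positivity)
    exact mul_le_mul_of_nonneg_left e3 (by positivity)
  have e5 := half_pow_mul e4
  have e6 : 6 * (8 * (n : ℝ) ^ 2 * (1 / 2) ^ t * (8192 * z ^ 4) ^ 8) * (y ^ 2) ^ n =
      1 / 2 * ((n : ℝ) ^ 2 * (96 * (8192 * z ^ 4) ^ 8) * (y ^ 2) ^ n * (1 / 2) ^ t) := by
    ring
  rw [e6]
  linarith

end Big3

/-- The upper bound, all regimes. -/
theorem phase_upper {n t : ℕ} {ε : ℝ} {κ : ℝ≥0∞} (hB : Big3 n t κ ε) : Guarantee n κ ε t := by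
  intro A b hA hcond hb _ _ R K hR hK
  obtain ⟨m, hm1, hmn, hm2, hm⟩ := phase_exists hB.hn hB.hε hB.hε1 hB.hκ
  refine good_run hA hb hB.big2.small ?_ hR hK
  intro x r p α β σ H
  obtain ⟨k, hk, hg⟩ := hm (opT A) (goodOp_opT hA hb)
    (fun hκt => coercive_opT hA hb (hcond.real hκt)) _ _ _ (hB.big2.par hm1 hm2) hB.sm24
    (fun _ => hB.ortho) _ x r p α β σ
    (norm_toLp_inv hb) (H.mono hmn)
  refine ⟨k, hk.trans hmn, ?_⟩
  unfold Fail at hg
  push Not at hg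
  exact hg

/-- The upper bound, all regimes, strict reading. -/
theorem phase_upper_strong {n t : ℕ} {ε : ℝ} {κ : ℝ≥0∞} (hB : Big3 n t κ ε) (hκt : κ ≠ ⊤)
    (h' : 2 * Real.logb 2 n + Real.logb 2 κ.toReal + 4 ≤ t) : StrongGuarantee n κ ε t := by
  intro A b hA hcond hb hfA hfb R K hR hK
  have hG := phase_upper hB A b hA hcond hb hfA hfb R K hR
  rcases hK with h1 | ⟨h1, h2 | h2⟩
  · exact hG (Or.inl h1)
  · exact hG (Or.inr ⟨h1, h2⟩)
  · by_contra hcon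
    push Not at hcon
    obtain ⟨m, hm1, hmn, hm2, hm⟩ := phase_exists hB.hn hB.hε hB.hε1 hB.hκ
    have hfail : ∀ j ≤ K, Fail (opT A) ε
        (WithLp.toLp 2 ((nrm b)⁻¹ • b) : EuclideanSpace ℝ (Fin n))
        (fun k => WithLp.toLp 2 ((specNorm A * (nrm b)⁻¹) • R.x k)) j :=
      fun j hj => fail_of_eta hA hb (hcon j hj)
    have H := hR.pcg hA hb hB.big2.small
    have hP := hB.big2.par hm1 hm2
    rcases le_or_gt m K with hKm | hKm
    · obtain ⟨k, hk, hg⟩ := hm (opT A) (goodOp_opT hA hb)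
        (fun hκt => coercive_opT hA hb (hcond.real hκt)) _ _ _ hP hB.sm24 (fun _ => hB.ortho)
        _ _ _ _ _ _ _ (norm_toLp_inv hb) (H.mono hKm)
      exact hg (hfail k (hk.trans hKm))
    · have hκ1 : 1 ≤ κ.toReal := by
        rw [← ENNReal.toReal_one]
        exact ENNReal.toReal_mono hκt hB.hκ
      have hn' := hB.n1
      have hsm : 8 * (n : ℝ) ^ 2 * (1 / 2) ^ t * κ.toReal < 1 := by
        have h3 : 16 * (n : ℝ) ^ 2 * κ.toReal ≤ 2 ^ t := by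
          apply pow_of_logb (by positivity)
          have h4 : (16 : ℝ) * (n : ℝ) ^ 2 * κ.toReal = 2 ^ 4 * (n : ℝ) ^ 2 * κ.toReal := by
            norm_num
          rw [h4, Real.logb_mul (by positivity) (by positivity),
            Real.logb_mul (by positivity) (by positivity),
            Real.logb_pow, Real.logb_pow, Real.logb_self_eq_one (by norm_num)]
          push_cast
          linarith
        have h4 := half_pow_mul h3
        linarith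
      have hp := large_ne (goodOp_opT hA hb) (fun K' hK1 hK' => hP.mono hK1 (by omega)) H
        (norm_toLp_inv hb) hfail
      refine not_breaksDown hA hB.big2.small (hcond.real hκt) hsm ?_ h2
      intro h0
      apply hp
      simp only [h0, smul_zero, WithLp.toLp_zero]

end Pool.Agent.Lib.MP_02bbae_an
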