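import Mathlib
import Pool.Agent.Lib.MP_02bbae_an.LowerSys

/-!
# The perturbed recurrence of the lower bound: estimates which do not depend on the dimension
-/

set_option autoImplicit false

open scoped InnerProductSpace RealInnerProductSpace

namespace Pool.Agent.Lib.MP_02bbae_an

variable {V : Type*} [NormedAddCommGroup V] [InnerProductSpace ℝ V]

/-- the parameters -/
structure QPar (n : ℕ) (s lam δ Λ r : ℝ) : Prop where
  hn : 2 ≤ n
  hs : 0 < s
  hs1 : s * (64 * n) ≤ 1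
  hs2 : s ≤ lam
  hl : 0 < lam
  hΛ0 : 0 < Λ
  hΛ : lam * (1 + Λ) ^ 2 = Λ
  hΛ1 : 20000 * Λ ≤ 1
  hδ : δ = s * Λ ^ (n - 1)
  hr : 1 ≤ r

/-- the invariant -/
structure QInv (T : V →ₗ[ℝ] V) (s Λ r : ℝ) (e I : ℕ → V) (c g : ℕ → ℝ) (ρ π : ℕ → V)
    (X θ d : ℝ) (k : ℕ) : Prop where
  iρ : ‖ρ k - e k‖ ≤ X
  iT : ‖T (π k - I k)‖ ≤ 13 * X
  iw : |⟪π k, T (π k)⟫_ℝ - 1| ≤ 40 * X
  iπ : ‖π k - I k‖ ≤ 6 * r * X
  id : |c k - (1 + Λ) * g k| ≤ d * (s * X)
  igl : (1 - θ) * (s * X) ≤ |g k|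
  igu : |g k| ≤ (1 + θ) * (s * X)

section

variable {n : ℕ} {s lam δ Λ r : ℝ} {T : V →ₗ[ℝ] V} {e I : ℕ → V} {c g a β : ℕ → ℝ} {ρ π : ℕ → V}

theorem QPar.consts (P : QPar n s lam δ Λ r) : lam ≤ Λ ∧ Λ ≤ 10002 / 10000 * lam ∧
    s ≤ Λ ∧ s ≤ 1 / 20000 ∧ lam ≤ 1 / 20000 ∧ Λ ≤ 1 / 20000 := by
  have h1 := P.hΛ
  have h2 := P.hΛ0
  have h3 := P.hΛ1
  have h4 := P.hl
  have h5 := P.hs2
  have h0 : 1 ≤ (1 + Λ) ^ 2 := by nlinarith
  have h6 : lam ≤ Λ := by
    have := mul_le_mul_of_nonneg_left h0 h4.le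
    linarith
  have h7 : Λ ≤ 10002 / 10000 * lam := by
    have h8 : (1 + Λ) ^ 2 ≤ 10002 / 10000 := by nlinarith
    have := mul_le_mul_of_nonneg_left h8 h4.le
    linarith
  exact ⟨h6, h7, by linarith, by linarith, by linarith, by linarith⟩

theorem QPar.hn' (h : QPar n s lam δ Λ r) : (2 : ℝ) ≤ n := by exact_mod_cast h.hn

theorem QPar.inv (P : QPar n s lam δ Λ r) : 1 / lam = 2 + Λ + 1 / Λ := by
  have h1 := P.hΛ
  have h2 := P.hΛ0
  have h3 := P.hl
  rw [eq_comm, ← sub_eq_zero]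
  have : 2 + Λ + 1 / Λ - 1 / lam = (lam * (1 + Λ) ^ 2 - Λ) / (Λ * lam) := by
    field_simp
    ring
  rw [this, h1, sub_self, zero_div]

/-- the size of `c` -/
theorem QInv.ic (P : QPar n s lam δ Λ r) {X θ d : ℝ} {k : ℕ} (hX0 : 0 < X) (hθ : θ ≤ 1 / 8)
    (hd : d ≤ 1 / 100) (h : QInv T s Λ r e I c g ρ π X θ d k) : |c k| ≤ 6 / 5 * (s * X) := by
  obtain ⟨k1, k2, k3, k4, k5, k6⟩ := P.consts
  have hs := P.hs
  have hΛ0 := P.hΛ0
  have h1 : |c k| ≤ |c k - (1 + Λ) * g k| + |(1 + Λ) * g k| := by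
    calc |c k| = |(c k - (1 + Λ) * g k) + (1 + Λ) * g k| := by congr 1; ring
      _ ≤ _ := abs_add_le _ _
  have h2 := h.id
  have h3 := h.igu
  have hsX : 0 < s * X := by positivity
  have h4 : |(1 + Λ) * g k| ≤ (1 + Λ) * ((1 + θ) * (s * X)) := by
    rw [abs_mul, abs_of_pos (by linarith)]
    exact mul_le_mul_of_nonneg_left h3 (by linarith)
  have h5 : (1 + Λ) * ((1 + θ) * (s * X)) ≤ 10001 / 10000 * (9 / 8 * (s * X)) := by
    apply mul_le_mul (by linarith) _ _ (by norm_num)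
    · apply mul_le_mul_of_nonneg_right (by linarith) hsX.le
    · exact le_trans (abs_nonneg _) h3
  have h6 : d * (s * X) ≤ 1 / 100 * (s * X) := mul_le_mul_of_nonneg_right hd hsX.le
  linarith

/-- estimate of the squared residual -/
theorem QInv.hk (P : QPar n s lam δ Λ r) (S : LSys n s lam δ T e I c g a β ρ π) {X : ℝ} {k : ℕ}
    (hk1 : 1 ≤ k) (hkn : k < n) (hX0 : 0 < X) (hX : X ≤ Λ)
    (iρ : ‖ρ k - e k‖ ≤ X) (ic : |c k| ≤ 6 / 5 * (s * X)) :
    |‖ρ k‖ ^ 2 + c k ^ 2 / s ^ 2 - 1| ≤ 21 / 10 * X := by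
  obtain ⟨k1, k2, k3, k4, k5, k6⟩ := P.consts
  have hs := P.hs
  have h1 := norm_sq_near (S.he1 k hk1 hkn) iρ
  have h2 : c k ^ 2 / s ^ 2 ≤ 2 * X ^ 2 := by
    rw [div_le_iff₀ (by positivity)]
    have := sq_le_sq' (by linarith [abs_nonneg (c k)]) ic
    rw [sq_abs] at this
    nlinarith
  have h3 : 0 ≤ c k ^ 2 / s ^ 2 := by positivity
  have h4 : X ^ 2 ≤ 1 / 20000 * X := by nlinarith
  rw [abs_le] at h1 ⊢
  constructor <;> linarith

theorem QInv.wk (P : QPar n s lam δ Λ r) {X : ℝ} {k : ℕ} (hX0 : 0 < X) (hX : X ≤ Λ)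
    (iw : |⟪π k, T (π k)⟫_ℝ - 1| ≤ 40 * X) (igu : |g k| ≤ 9 / 8 * (s * X)) :
    |⟪π k, T (π k)⟫_ℝ + g k ^ 2 / (lam * s ^ 2) - 1| ≤ 42 * X := by
  obtain ⟨k1, k2, k3, k4, k5, k6⟩ := P.consts
  have hs := P.hs
  have hl := P.hl
  have h3 : g k ^ 2 / (lam * s ^ 2) ≤ 2 * X := by
    rw [div_le_iff₀ (by positivity)]
    have h := sq_le_sq' (by linarith [abs_nonneg (g k)]) igu
    rw [sq_abs] at h
    have : X * X ≤ X * (10002 / 10000 * lam) := mul_le_mul_of_nonneg_left (by linarith) hX0.le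
    have h4 : (9 / 8 * (s * X)) ^ 2 = 81 / 64 * s ^ 2 * (X * X) := by ring
    have h5 : 81 / 64 * s ^ 2 * (X * X) ≤ 81 / 64 * s ^ 2 * (X * (10002 / 10000 * lam)) :=
      mul_le_mul_of_nonneg_left this (by positivity)
    have h6 : 0 ≤ s ^ 2 * (X * lam) := by positivity
    calc g k ^ 2 ≤ (9 / 8 * (s * X)) ^ 2 := h
      _ ≤ 81 / 64 * s ^ 2 * (X * (10002 / 10000 * lam)) := by rw [h4]; exact h5
      _ ≤ 2 * X * (lam * s ^ 2) := by nlinarith
  have h4 : 0 ≤ g k ^ 2 / (lam * s ^ 2) := by positivity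
  rw [abs_le] at iw ⊢
  constructor <;> linarith

theorem QInv.ak (P : QPar n s lam δ Λ r) (S : LSys n s lam δ T e I c g a β ρ π) {X : ℝ} {k : ℕ}
    (hk1 : 1 ≤ k) (hkn : k < n) (hX0 : 0 < X) (hX : X ≤ Λ)
    (iρ : ‖ρ k - e k‖ ≤ X) (ic : |c k| ≤ 6 / 5 * (s * X))
    (iw : |⟪π k, T (π k)⟫_ℝ - 1| ≤ 40 * X) (igu : |g k| ≤ 9 / 8 * (s * X)) :
    |a k - 1| ≤ 45 * X := by
  obtain ⟨k1, k2, k3, k4, k5, k6⟩ := P.consts
  have h1 := QInv.hk P S hk1 hkn hX0 hX iρ ic
  have h2 := QInv.wk P hX0 hX iw igu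
  rw [S.ha k hk1 hkn]
  set h := ‖ρ k‖ ^ 2 + c k ^ 2 / s ^ 2
  set w := ⟪π k, T (π k)⟫_ℝ + g k ^ 2 / (lam * s ^ 2)
  have hw : 99 / 100 ≤ w := by
    have := (abs_le.mp h2).1
    linarith
  have hw0 : 0 < w := by linarith
  have h3 : h / w - 1 = (h - w) / w := by field_simp
  rw [h3, abs_div, abs_of_pos hw0, div_le_iff₀ hw0]
  have h4 : |h - w| ≤ 21 / 10 * X + 42 * X := by
    have : h - w = (h - 1) - (w - 1) := by ring
    rw [this]
    exact (abs_sub _ _).trans (add_le_add h1 h2)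
  calc |h - w| ≤ 21 / 10 * X + 42 * X := h4
    _ ≤ 45 * X * (99 / 100) := by linarith
    _ ≤ 45 * X * w := mul_le_mul_of_nonneg_left hw (by positivity)

theorem QInv.step (P : QPar n s lam δ Λ r) (S : LSys n s lam δ T e I c g a β ρ π)
    (hIr : ∀ i, 1 ≤ i → i < n → ‖I i‖ ≤ r) {X X' θ θ' d d' : ℝ} {k : ℕ}
    (hk1 : 1 ≤ k) (hkn : k + 1 < n) (hX0 : 0 < X') (hX : X' ≤ Λ) (hXX : X = Λ * X')
    (hθ0 : 0 ≤ θ) (hθ : θ ≤ 1 / 8) (hd0 : 0 ≤ d) (hd : d ≤ 1 / 100)
    (hθ' : θ + 13 / 10 * (Λ * d + 60 * X + s) ≤ θ')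
    (hd' : Λ * d + 10 * X + 11 / 10 * s ≤ d')
    (h : QInv T s Λ r e I c g ρ π X θ d k) : QInv T s Λ r e I c g ρ π X' θ' d' (k + 1) := by
  obtain ⟨k1, k2, k3, k4, k5, k6⟩ := P.consts
  have hs := P.hs
  have hl := P.hl
  have hΛ0 := P.hΛ0
  have hr := P.hr
  have hkn' : k < n := by omega
  have hk1' : 1 ≤ k + 1 := by omega
  have hX0' : 0 < X := by rw [hXX]; positivity
  have hXX' : X ≤ X' / 20000 := by
    rw [hXX]
    calc Λ * X' ≤ 1 / 20000 * X' := mul_le_mul_of_nonneg_right k6 hX0.le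
      _ = X' / 20000 := by ring
  have hXl : X ≤ Λ := by linarith
  have gu : |g k| ≤ 9 / 8 * (s * X) := by
    refine h.igu.trans ?_
    apply mul_le_mul_of_nonneg_right (by linarith) (by positivity)
  have gl : 7 / 8 * (s * X) ≤ |g k| := by
    refine le_trans ?_ h.igl
    apply mul_le_mul_of_nonneg_right (by linarith) (by positivity)
  have hic := h.ic P hX0' hθ hd
  have hak := QInv.ak P S hk1 hkn' hX0' hXl h.iρ hic h.iw gu
  have hhk := QInv.hk P S hk1 hkn' hX0' hXl h.iρ hic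
  have hX' : X' * 20000 ≤ 1 := by linarith
  have hau : |a k| ≤ 101 / 100 := by
    have : |a k| ≤ |a k - 1| + 1 := by
      calc |a k| = |(a k - 1) + 1| := by congr 1; ring
        _ ≤ |a k - 1| + |1| := abs_add_le _ _
        _ = _ := by rw [abs_one]
    linarith
  have hΛl : Λ / lam ≤ 10002 / 10000 := by rw [div_le_iff₀ hl]; exact k2
  have hgl : |g k| / lam ≤ 12 / 10 * (s * X') := by
    have h1 : |g k| / lam ≤ (9 / 8 * (s * X)) / lam := div_le_div_of_nonneg_right gu hl.le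
    have h2 : (9 / 8 * (s * X)) / lam = 9 / 8 * (s * X') * (Λ / lam) := by
      rw [hXX]; ring
    have h3 : 9 / 8 * (s * X') * (Λ / lam) ≤ 9 / 8 * (s * X') * (10002 / 10000) :=
      mul_le_mul_of_nonneg_left hΛl (by positivity)
    have h4 : 0 < s * X' := by positivity
    linarith
  -- |a g / lam|
  have hagl : |a k / lam * g k| ≤ 1.3 * (s * X') := by
    have h1 : |a k / lam * g k| = |a k| * (|g k| / lam) := by
      rw [abs_mul, abs_div, abs_of_pos hl]; ring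
    rw [h1]
    have h2 := mul_le_mul hau hgl (by positivity) (by norm_num)
    have h4 : 0 < s * X' := by positivity
    linarith
  have ee1 : ‖e 1‖ = 1 := S.he1 1 le_rfl (by omega)
  -- rho
  have e1 : ρ (k + 1) - e (k + 1) = (ρ k - e k) - (a k - 1) • (T (I k)) - a k • T (π k - I k)
      + (a k / lam * g k) • e 1 := by
    have hek : e (k + 1) = e k - T (I k) := by rw [S.hTI k hk1 hkn]; abel
    rw [S.hρ k hk1 hkn', map_sub, sub_smul, one_smul, smul_sub, hek]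
    abel
  have iρ' : ‖ρ (k + 1) - e (k + 1)‖ ≤ X' := by
    rw [e1]
    have h1 : ‖(a k - 1) • (T (I k))‖ ≤ 45 * X * 2 := by
      rw [norm_smul, Real.norm_eq_abs]
      exact mul_le_mul hak (S.hTI2 k hk1 hkn') (norm_nonneg _) (by positivity)
    have h2 : ‖a k • T (π k - I k)‖ ≤ 101 / 100 * (13 * X) := by
      rw [norm_smul, Real.norm_eq_abs]
      exact mul_le_mul hau h.iT (norm_nonneg _) (by norm_num)
    have h3 : ‖(a k / lam * g k) • e 1‖ ≤ 1.3 * (s * X') := by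
      rw [norm_smul, Real.norm_eq_abs, ee1, mul_one]; exact hagl
    have h4 : s * X' ≤ X' / 20000 := by
      calc s * X' ≤ 1 / 20000 * X' := mul_le_mul_of_nonneg_right k4 hX0.le
        _ = X' / 20000 := by ring
    calc _ ≤ ‖ρ k - e k‖ + ‖(a k - 1) • (T (I k))‖ + ‖a k • T (π k - I k)‖
          + ‖(a k / lam * g k) • e 1‖ := by
          refine (norm_add_le _ _).trans (add_le_add ?_ le_rfl)
          refine (norm_sub_le _ _).trans (add_le_add ?_ le_rfl)
          exact norm_sub_le _ _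
      _ ≤ X + 45 * X * 2 + 101 / 100 * (13 * X) + 1.3 * (s * X') :=
          add_le_add (add_le_add (add_le_add h.iρ h1) h2) h3
      _ ≤ X' := by linarith
  -- a crude bound for c
  have ic' : |c (k + 1)| ≤ 6 / 5 * (s * X') + 6 / 5 * (s * X) * 0 + (1 / 5) * (s * X') := by
    rw [S.hc k hk1 hkn']
    have h1 : |c k - a k / lam * g k| ≤ |c k| + |a k / lam * g k| := abs_sub _ _
    have h2 : s * X ≤ s * X' / 20000 := by
      calc s * X ≤ s * (X' / 20000) := mul_le_mul_of_nonneg_left hXX' hs.le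
        _ = s * X' / 20000 := by ring
    have h3 : 0 ≤ s * X' := by positivity
    linarith
  have hhk' : |‖ρ (k + 1)‖ ^ 2 + c (k + 1) ^ 2 / s ^ 2 - 1| ≤ 21 / 10 * X' := by
    have h1 := norm_sq_near (S.he1 (k + 1) hk1' hkn) iρ'
    have h2 : c (k + 1) ^ 2 / s ^ 2 ≤ 2 * X' ^ 2 := by
      rw [div_le_iff₀ (by positivity)]
      have h3 : |c (k + 1)| ≤ 7 / 5 * (s * X') := by linarith
      have h5 := sq_le_sq' (by linarith [abs_nonneg (c (k + 1))]) h3
      rw [sq_abs] at h5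
      have h6 : (7 / 5 * (s * X')) ^ 2 = 49 / 25 * (X' ^ 2 * s ^ 2) := by ring
      have h7 : 0 ≤ X' ^ 2 * s ^ 2 := by positivity
      linarith only [h5, h6, h7]
    have h3 : 0 ≤ c (k + 1) ^ 2 / s ^ 2 := by positivity
    have h4 : X' ^ 2 ≤ 1 / 20000 * X' := by
      have : X' * X' ≤ 1 / 20000 * X' := mul_le_mul_of_nonneg_right (by linarith) hX0.le
      linarith only [this]
    rw [abs_le] at h1 ⊢
    obtain ⟨h5, h6⟩ := h1
    constructor <;> linarith only [h5, h6, h2, h3, h4, hX0]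
  -- beta
  have hβ : |β k - 1| ≤ 3 * X' := by
    rw [S.hβ k hk1 hkn']
    set h0 := ‖ρ k‖ ^ 2 + c k ^ 2 / s ^ 2
    set h1 := ‖ρ (k + 1)‖ ^ 2 + c (k + 1) ^ 2 / s ^ 2
    have hw : 99 / 100 ≤ h0 := by
      have := (abs_le.mp hhk).1
      linarith
    have hw0 : 0 < h0 := by linarith
    have h3 : h1 / h0 - 1 = (h1 - h0) / h0 := by field_simp
    rw [h3, abs_div, abs_of_pos hw0, div_le_iff₀ hw0]
    have h4 : |h1 - h0| ≤ 21 / 10 * X' + 21 / 10 * X := by
      have : h1 - h0 = (h1 - 1) - (h0 - 1) := by ring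
      rw [this]
      exact (abs_sub _ _).trans (add_le_add hhk' hhk)
    calc |h1 - h0| ≤ 21 / 10 * X' + 21 / 10 * X := h4
      _ ≤ 3 * X' * (99 / 100) := by linarith
      _ ≤ 3 * X' * h0 := mul_le_mul_of_nonneg_left hw (by positivity)
  have hβu : |β k| ≤ 101 / 100 := by
    have : |β k| ≤ |β k - 1| + 1 := by
      calc |β k| = |(β k - 1) + 1| := by congr 1; ring
        _ ≤ |β k - 1| + |1| := abs_add_le _ _
        _ = _ := by rw [abs_one]
    linarith
  -- pi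
  have e2 : π (k + 1) - I (k + 1) = (ρ (k + 1) - e (k + 1)) + (β k - 1) • I k
      + β k • (π k - I k) := by
    rw [S.hπ k hk1 hkn', S.hIs k hk1 hkn, smul_sub, sub_smul, one_smul]
    abel
  have iπ' : ‖π (k + 1) - I (k + 1)‖ ≤ 6 * r * X' := by
    rw [e2]
    have h1 : ‖(β k - 1) • I k‖ ≤ 3 * X' * r := by
      rw [norm_smul, Real.norm_eq_abs]
      exact mul_le_mul hβ (hIr k hk1 hkn') (norm_nonneg _) (by positivity)
    have h2 : ‖β k • (π k - I k)‖ ≤ 101 / 100 * (6 * r * X) := by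
      rw [norm_smul, Real.norm_eq_abs]
      exact mul_le_mul hβu h.iπ (norm_nonneg _) (by norm_num)
    have h6 : 1 * X' ≤ r * X' := mul_le_mul_of_nonneg_right hr hX0.le
    have h7 : r * X ≤ r * (X' / 20000) := mul_le_mul_of_nonneg_left hXX' (by linarith)
    calc _ ≤ ‖ρ (k + 1) - e (k + 1)‖ + ‖(β k - 1) • I k‖ + ‖β k • (π k - I k)‖ := by
          refine (norm_add_le _ _).trans (add_le_add ?_ le_rfl)
          exact norm_add_le _ _
      _ ≤ X' + 3 * X' * r + 101 / 100 * (6 * r * X) :=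
          add_le_add (add_le_add iρ' h1) h2
      _ ≤ 6 * r * X' := by
          have h8 : 0 ≤ r * X' := by positivity
          linarith only [h6, h7, h8]
  have iT' : ‖T (π (k + 1) - I (k + 1))‖ ≤ 13 * X' := by
    rw [e2, map_add, map_add, map_smul, map_smul]
    have h0 : ‖T (ρ (k + 1) - e (k + 1))‖ ≤ 4 * X' :=
      (S.bd _).trans (mul_le_mul_of_nonneg_left iρ' (by norm_num))
    have h1 : ‖(β k - 1) • T (I k)‖ ≤ 3 * X' * 2 := by
      rw [norm_smul, Real.norm_eq_abs]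
      exact mul_le_mul hβ (S.hTI2 k hk1 hkn') (norm_nonneg _) (by positivity)
    have h2 : ‖β k • T (π k - I k)‖ ≤ 101 / 100 * (13 * X) := by
      rw [norm_smul, Real.norm_eq_abs]
      exact mul_le_mul hβu h.iT (norm_nonneg _) (by norm_num)
    calc _ ≤ ‖T (ρ (k + 1) - e (k + 1))‖ + ‖(β k - 1) • T (I k)‖ + ‖β k • T (π k - I k)‖ := by
          refine (norm_add_le _ _).trans (add_le_add ?_ le_rfl)
          exact norm_add_le _ _
      _ ≤ 4 * X' + 3 * X' * 2 + 101 / 100 * (13 * X) := add_le_add (add_le_add h0 h1) h2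
      _ ≤ 13 * X' := by linarith
  -- w
  have iw' : |⟪π (k + 1), T (π (k + 1))⟫_ℝ - 1| ≤ 40 * X' := by
    have hee : ‖e (k + 1)‖ = 1 := S.he1 (k + 1) hk1' hkn
    set z := ρ (k + 1) - e (k + 1) with hz
    have hρz : ρ (k + 1) = e (k + 1) + z := by rw [hz]; abel
    have q0 : ⟪e (k + 1), T (e (k + 1))⟫_ℝ + 2 * ⟪e (k + 1), T (I k)⟫_ℝ = 0 := by
      have q1 := S.hTI3 (k + 1) hk1' hkn
      have q2 := S.hTI3 k hk1 hkn'
      rw [S.hIs k hk1 hkn, map_add, inner_add_left, inner_add_right, inner_add_right, q2,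
        ← S.sym (I k) (e (k + 1)), real_inner_comm (e (k + 1)) (T (I k))] at q1
      linarith
    have q1 : ⟪ρ (k + 1), T (ρ (k + 1))⟫_ℝ = ⟪e (k + 1), T (e (k + 1))⟫_ℝ
        + 2 * ⟪z, T (e (k + 1))⟫_ℝ + ⟪z, T z⟫_ℝ := by
      rw [hρz, map_add, inner_add_left, inner_add_right, inner_add_right,
        ← S.sym (e (k + 1)) z, real_inner_comm z (T (e (k + 1)))]
      ring
    have q2 : ⟪π (k + 1), T (π (k + 1))⟫_ℝ = ⟪ρ (k + 1), T (ρ (k + 1))⟫_ℝ
        + 2 * β k * ⟪ρ (k + 1), T (π k)⟫_ℝ + β k ^ 2 * ⟪π k, T (π k)⟫_ℝ := by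
      rw [S.hπ k hk1 hkn', map_add, map_smul, inner_add_left, inner_add_right, inner_add_right,
        inner_smul_left, inner_smul_left, inner_smul_right, inner_smul_right,
        ← S.sym (π k) (ρ (k + 1)), real_inner_comm (ρ (k + 1)) (T (π k))]
      simp
      ring
    have q3 : ⟪ρ (k + 1), T (π k)⟫_ℝ = ⟪e (k + 1), T (I k)⟫_ℝ + ⟪e (k + 1), T (π k - I k)⟫_ℝ
        + ⟪z, T (π k)⟫_ℝ := by
      rw [hρz, inner_add_left, map_sub, inner_sub_right]
      ring
    have n1 : |⟪z, T (e (k + 1))⟫_ℝ| ≤ X' * 4 := by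
      refine (abs_real_inner_le_norm _ _).trans ?_
      refine mul_le_mul iρ' ((S.bd _).trans ?_) (norm_nonneg _) hX0.le
      rw [hee, mul_one]
    have n2 : |⟪z, T z⟫_ℝ| ≤ X' * (4 * X') := by
      refine (abs_real_inner_le_norm _ _).trans ?_
      refine mul_le_mul iρ' ((S.bd _).trans ?_) (norm_nonneg _) hX0.le
      exact mul_le_mul_of_nonneg_left iρ' (by norm_num)
    have nT : ‖T (π k)‖ ≤ 2 + 13 * X := by
      have : T (π k) = T (I k) + T (π k - I k) := by rw [map_sub]; abel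
      rw [this]
      exact (norm_add_le _ _).trans (add_le_add (S.hTI2 k hk1 hkn') h.iT)
    have n3 : |⟪e (k + 1), T (π k - I k)⟫_ℝ| ≤ 13 * X := by
      refine (abs_real_inner_le_norm _ _).trans ?_
      rw [hee, one_mul]; exact h.iT
    have n4 : |⟪z, T (π k)⟫_ℝ| ≤ X' * (2 + 13 * X) := by
      refine (abs_real_inner_le_norm _ _).trans ?_
      exact mul_le_mul iρ' nT (norm_nonneg _) hX0.le
    have n5 : |⟪e (k + 1), T (I k)⟫_ℝ| ≤ 2 := by
      refine (abs_real_inner_le_norm _ _).trans ?_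
      rw [hee, one_mul]; exact S.hTI2 k hk1 hkn'
    -- the expansion
    have key : ⟪π (k + 1), T (π (k + 1))⟫_ℝ - 1 = 2 * ⟪z, T (e (k + 1))⟫_ℝ + ⟪z, T z⟫_ℝ
        + 2 * (β k - 1) * ⟪e (k + 1), T (I k)⟫_ℝ
        + 2 * β k * (⟪e (k + 1), T (π k - I k)⟫_ℝ + ⟪z, T (π k)⟫_ℝ)
        + (β k ^ 2 - 1) * ⟪π k, T (π k)⟫_ℝ + (⟪π k, T (π k)⟫_ℝ - 1) := by
      rw [q2, q1, q3]
      linear_combination q0
    have b1 : |2 * (β k - 1) * ⟪e (k + 1), T (I k)⟫_ℝ| ≤ 2 * (3 * X') * 2 := by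
      rw [abs_mul, abs_mul, abs_two]
      apply mul_le_mul _ n5 (abs_nonneg _) (by positivity)
      linarith
    have b2 : |2 * β k * (⟪e (k + 1), T (π k - I k)⟫_ℝ + ⟪z, T (π k)⟫_ℝ)| ≤
        2 * (101 / 100) * (13 * X + X' * (2 + 13 * X)) := by
      rw [abs_mul, abs_mul, abs_two]
      apply mul_le_mul _ ((abs_add_le _ _).trans (add_le_add n3 n4)) (abs_nonneg _) (by norm_num)
      linarith
    have b3 : |(β k ^ 2 - 1) * ⟪π k, T (π k)⟫_ℝ| ≤ (3 * X' * (201 / 100)) * (101 / 100) := by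
      rw [abs_mul]
      apply mul_le_mul _ _ (abs_nonneg _) (by positivity)
      · have : β k ^ 2 - 1 = (β k - 1) * (β k + 1) := by ring
        rw [this, abs_mul]
        apply mul_le_mul hβ _ (abs_nonneg _) (by positivity)
        refine (abs_add_le _ _).trans ?_
        rw [abs_one]; linarith
      · have h9 : |⟪π k, T (π k)⟫_ℝ| ≤ |⟪π k, T (π k)⟫_ℝ - 1| + |1| := by
          calc |⟪π k, T (π k)⟫_ℝ| = |(⟪π k, T (π k)⟫_ℝ - 1) + 1| := by congr 1; ring
            _ ≤ _ := abs_add_le _ _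
        rw [abs_one] at h9
        linarith [h.iw]
    have hXX2 : X' * X' ≤ 1 / 20000 * X' := mul_le_mul_of_nonneg_right (by linarith) hX0.le
    have hXX3 : X' * X ≤ 1 / 20000 * X' := by
      have : X' * X ≤ X' * (1 / 20000) := mul_le_mul_of_nonneg_left (by linarith) hX0.le
      linarith
    rw [key]
    have iw := h.iw
    rw [abs_le] at n1 n2 b1 b2 b3 iw ⊢
    obtain ⟨n11, n12⟩ := n1
    obtain ⟨n21, n22⟩ := n2
    obtain ⟨b11, b12⟩ := b1
    obtain ⟨b21, b22⟩ := b2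
    obtain ⟨b31, b32⟩ := b3
    obtain ⟨i1, i2⟩ := iw
    constructor <;> linarith only [n11, n12, n21, n22, b11, b12, b21, b22, b31, b32, i1, i2, hXX2,
      hXX3, hXX', hX0]
  -- the linear recurrence
  have hG : 0 < |g k| := by
    have : 0 < s * X := by positivity
    linarith
  have hin : |⟪e 1, ρ (k + 1)⟫_ℝ| ≤ X' := by
    have h1 : ⟪e 1, ρ (k + 1)⟫_ℝ = ⟪e 1, ρ (k + 1) - e (k + 1)⟫_ℝ := by
      rw [inner_sub_right, S.heo (k + 1) (by omega) hkn, sub_zero]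
    rw [h1]
    refine (abs_real_inner_le_norm _ _).trans ?_
    rw [ee1, one_mul]; exact iρ'
  have hlinv := P.inv
  have hgΛ : Λ * (g k / Λ) = g k := by field_simp
  set E1 := -((a k - 1) / lam * g k) with hE1
  set E2 := (β k - 1) * g k - s ^ 2 * ⟪e 1, ρ (k + 1)⟫_ℝ with hE2
  set D := c k - (1 + Λ) * g k with hD
  have r1 : c (k + 1) = D - (1 + 1 / Λ) * g k + E1 := by
    rw [S.hc k hk1 hkn', hD, hE1]
    have : a k / lam * g k = (a k - 1) / lam * g k + (1 / lam) * g k := by ring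
    rw [this, hlinv]; ring
  have r2 : g (k + 1) = -(g k / Λ) + (D + E1 + E2) := by
    rw [S.hg k hk1 hkn', r1, hE2]; ring
  have r3 : c (k + 1) - (1 + Λ) * g (k + 1) = -(Λ * D) - Λ * E1 - (1 + Λ) * E2 := by
    rw [r2, r1]
    linear_combination hgΛ
  have bE1 : |E1| ≤ 45 * X * (12 / 10 * (s * X')) := by
    rw [hE1, abs_neg, abs_mul, abs_div, abs_of_pos hl]
    have : |a k - 1| / lam * |g k| = |a k - 1| * (|g k| / lam) := by ring
    rw [this]
    exact mul_le_mul hak hgl (by positivity) (by positivity)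
  have bE2 : |E2| ≤ 3 * X' * (9 / 8 * (s * X)) + s ^ 2 * X' := by
    rw [hE2]
    refine (abs_sub _ _).trans (add_le_add ?_ ?_)
    · rw [abs_mul]
      exact mul_le_mul hβ gu (abs_nonneg _) (by positivity)
    · rw [abs_mul, abs_of_pos (by positivity : (0 : ℝ) < s ^ 2)]
      exact mul_le_mul_of_nonneg_left hin (by positivity)
  have bD : |D| ≤ d * (s * X) := h.id
  have hsX' : 0 < s * X' := by positivity
  have id' : |c (k + 1) - (1 + Λ) * g (k + 1)| ≤ d' * (s * X') := by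
    rw [r3]
    have h1 : |-(Λ * D) - Λ * E1 - (1 + Λ) * E2| ≤ Λ * |D| + Λ * |E1| + (1 + Λ) * |E2| := by
      refine (abs_sub _ _).trans (add_le_add ((abs_sub _ _).trans (add_le_add ?_ ?_)) ?_)
      · rw [abs_neg, abs_mul, abs_of_pos hΛ0]
      · rw [abs_mul, abs_of_pos hΛ0]
      · rw [abs_mul, abs_of_pos (by linarith)]
    refine h1.trans ?_
    have h2 : Λ * |D| ≤ Λ * (d * (s * X)) := mul_le_mul_of_nonneg_left bD hΛ0.le
    have h3 : Λ * |E1| ≤ Λ * (45 * X * (12 / 10 * (s * X'))) :=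
      mul_le_mul_of_nonneg_left bE1 hΛ0.le
    have h4 : (1 + Λ) * |E2| ≤ (10001 / 10000) * (3 * X' * (9 / 8 * (s * X)) + s ^ 2 * X') :=
      mul_le_mul (by linarith) bE2 (abs_nonneg _) (by norm_num)
    have h5 : Λ * (d * (s * X)) ≤ (Λ * d) * (s * X') := by
      have : Λ * (d * (s * X)) = (Λ * d) * (s * X) := by ring
      rw [this]
      apply mul_le_mul_of_nonneg_left _ (by positivity)
      exact mul_le_mul_of_nonneg_left (by linarith) hs.le
    have h6 : Λ * (45 * X * (12 / 10 * (s * X'))) ≤ (1 * X) * (s * X') := by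
      have : Λ * (45 * X * (12 / 10 * (s * X'))) = (54 * Λ) * (X * (s * X')) := by ring
      rw [this]
      exact (mul_le_mul_of_nonneg_right (by linarith) (by positivity)).trans
        (le_of_eq (by ring : (1 : ℝ) * (X * (s * X')) = 1 * X * (s * X')))
    have h7 : (10001 / 10000) * (3 * X' * (9 / 8 * (s * X)) + s ^ 2 * X') ≤
        (4 * X + 11 / 10 * s) * (s * X') := by
      have h8 : 0 ≤ X * (s * X') := by positivity
      have h9 : 0 ≤ s * (s * X') := by positivity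
      linarith only [h8, h9]
    have h8 : (Λ * d + 10 * X + 11 / 10 * s) * (s * X') ≤ d' * (s * X') :=
      mul_le_mul_of_nonneg_right hd' hsX'.le
    have h9 : 0 ≤ X * (s * X') := by positivity
    linarith only [h2, h3, h4, h5, h6, h7, h8, h9]
  -- the relative error
  set Y := |g k| / Λ with hY
  have hY0 : 0 < Y := by positivity
  have hYX : 7 / 8 * (s * X') ≤ Y := by
    rw [hY, le_div_iff₀ hΛ0]
    have : 7 / 8 * (s * X') * Λ = 7 / 8 * (s * X) := by rw [hXX]; ring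
    linarith
  have err : |D + E1 + E2| ≤ (8 / 7 * (Λ * d + 60 * X + s)) * Y := by
    have h1 : |D + E1 + E2| ≤ |D| + |E1| + |E2| :=
      (abs_add_le _ _).trans (add_le_add (abs_add_le _ _) le_rfl)
    have h2 : d * (s * X) = (Λ * d) * (s * X') := by rw [hXX]; ring
    have h3 : 45 * X * (12 / 10 * (s * X')) + (3 * X' * (9 / 8 * (s * X)) + s ^ 2 * X') ≤
        (60 * X + s) * (s * X') := by
      have h8 : 0 ≤ X * (s * X') := by positivity
      linarith only [h8]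
    have h4 : |D + E1 + E2| ≤ (Λ * d + 60 * X + s) * (s * X') := by
      rw [h2] at bD
      linarith
    have h5 : s * X' ≤ 8 / 7 * Y := by linarith
    have h6 : (Λ * d + 60 * X + s) * (s * X') ≤ (Λ * d + 60 * X + s) * (8 / 7 * Y) :=
      mul_le_mul_of_nonneg_left h5 (by positivity)
    linarith
  have habs : |-(g k / Λ)| = Y := by rw [abs_neg, abs_div, abs_of_pos hΛ0]
  set q := 8 / 7 * (Λ * d + 60 * X + s) with hq
  have hq0 : 0 ≤ q := by rw [hq]; positivity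
  have g_up : |g (k + 1)| ≤ (1 + q) * Y := by
    rw [r2]
    refine (abs_add_le _ _).trans ?_
    rw [habs]; linarith
  have g_lo : (1 - q) * Y ≤ |g (k + 1)| := by
    rw [r2]
    have h1 := abs_sub_abs_le_abs_sub (-(g k / Λ)) (-(D + E1 + E2))
    rw [sub_neg_eq_add, abs_neg (D + E1 + E2), habs] at h1
    linarith
  have hYu : Y ≤ (1 + θ) * (s * X') := by
    rw [hY, div_le_iff₀ hΛ0]
    refine h.igu.trans (le_of_eq ?_)
    rw [hXX]; ring
  have hYl : (1 - θ) * (s * X') ≤ Y := by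
    rw [hY, le_div_iff₀ hΛ0]
    refine le_trans (le_of_eq ?_) h.igl
    rw [hXX]; ring
  have hqθ : θ + 9 / 8 * q ≤ θ' := by
    rw [hq]; linarith [hθ', show 0 ≤ Λ * d + 60 * X + s by positivity]
  refine ⟨iρ', iT', iw', iπ', id', ?_, ?_⟩
  · -- lower bound
    by_cases hq1 : q ≤ 1
    · calc (1 - θ') * (s * X') ≤ ((1 - q) * (1 - θ)) * (s * X') := by
            apply mul_le_mul_of_nonneg_right _ hsX'.le
            have := mul_nonneg hq0 hθ0
            linarith only [this, hqθ, hq0]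
        _ = (1 - q) * ((1 - θ) * (s * X')) := by ring
        _ ≤ (1 - q) * Y := mul_le_mul_of_nonneg_left hYl (by linarith)
        _ ≤ _ := g_lo
    · push Not at hq1
      have : (1 - θ') * (s * X') ≤ 0 := by
        apply mul_nonpos_of_nonpos_of_nonneg _ hsX'.le
        linarith
      exact this.trans (abs_nonneg _)
  · calc |g (k + 1)| ≤ (1 + q) * Y := g_up
      _ ≤ (1 + q) * ((1 + θ) * (s * X')) := mul_le_mul_of_nonneg_left hYu (by linarith)
      _ = ((1 + q) * (1 + θ)) * (s * X') := by ring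
      _ ≤ (1 + θ') * (s * X') := by
          apply mul_le_mul_of_nonneg_right _ hsX'.le
          have := mul_le_mul_of_nonneg_left hθ hq0
          linarith only [this, hqθ]

end

end Pool.Agent.Lib.MP_02bbae_an
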