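import Mathlib
import Pool.Agent.Lib.MP_02bbae_an.SharpLowerStep

/-!
# The perturbed recurrence of the lower bound: the induction
-/

set_option autoImplicit false

open scoped InnerProductSpace RealInnerProductSpace

namespace Pool.Agent.Lib.MP_02bbae_an

variable {V : Type*} [NormedAddCommGroup V] [InnerProductSpace ℝ V]
variable {n : ℕ} {s lam δ Λ r : ℝ} {T : V →ₗ[ℝ] V} {e I : ℕ → V} {c g a β : ℕ → ℝ} {ρ π : ℕ → V}

/-- the relative error of `g` -/
noncomputable def thQ (n : ℕ) (s Λ : ℝ) (k : ℕ) : ℝ := 4 * Λ * (1 - Λ ^ k) + Λ ^ (n - k) + 2 * k * s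

/-- the deviation from the eigenvector -/
noncomputable def dQ (n : ℕ) (s Λ : ℝ) (k : ℕ) : ℝ := 2 * Λ ^ k + 11 * Λ ^ (n - k) + 2 * s

theorem QPar.pow_le (P : QPar n s lam δ Λ r) {j : ℕ} (hj : 1 ≤ j) : Λ ^ j ≤ Λ := by
  have := P.consts.2.2.2.2.2
  exact pow_le_of_le_one P.hΛ0.le (by linarith) (by omega)

theorem QPar.thQ_le (P : QPar n s lam δ Λ r) {k : ℕ} (hk : k < n) :
    0 ≤ thQ n s Λ k ∧ thQ n s Λ k ≤ 1 / 8 := by
  obtain ⟨k1, k2, k3, k4, k5, k6⟩ := P.consts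
  have hs := P.hs
  have hs1 := P.hs1
  have hΛ0 := P.hΛ0
  have h1 := P.pow_le (j := n - k) (by omega)
  have h2 : 0 < Λ ^ (n - k) := by positivity
  have h3 : 0 < Λ ^ k := by positivity
  have h4 : Λ ^ k ≤ 1 := pow_le_one₀ hΛ0.le (by linarith)
  have h5 : (k : ℝ) ≤ n := by exact_mod_cast hk.le
  have h6 : (k : ℝ) * s ≤ n * s := mul_le_mul_of_nonneg_right h5 hs.le
  have h7 : 0 ≤ (k : ℝ) * s := by positivity
  unfold thQ
  constructor
  · have : 0 ≤ 4 * Λ * (1 - Λ ^ k) := mul_nonneg (by linarith) (by linarith)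
    linarith
  · have : 4 * Λ * (1 - Λ ^ k) ≤ 4 * Λ * 1 := mul_le_mul_of_nonneg_left (by linarith) (by linarith)
    linarith

theorem QPar.dQ_le (P : QPar n s lam δ Λ r) {k : ℕ} (hk1 : 1 ≤ k) (hk : k < n) :
    0 ≤ dQ n s Λ k ∧ dQ n s Λ k ≤ 1 / 100 := by
  obtain ⟨k1, k2, k3, k4, k5, k6⟩ := P.consts
  have hs := P.hs
  have hΛ0 := P.hΛ0
  have h1 := P.pow_le (j := n - k) (by omega)
  have h2 := P.pow_le (j := k) hk1
  unfold dQ
  constructor
  · positivity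
  · linarith

theorem QInv.base (P : QPar n s lam δ Λ r) (S : LSys n s lam δ T e I c g a β ρ π) :
    QInv T s Λ r e I c g ρ π (Λ ^ (n - 1)) (thQ n s Λ 1) (dQ n s Λ 1) 1 := by
  obtain ⟨k1, k2, k3, k4, k5, k6⟩ := P.consts
  have hn := P.hn
  have hs := P.hs
  have hΛ0 := P.hΛ0
  have hr := P.hr
  have hX := P.pow_le (j := n - 1) (by omega)
  have hX0 : 0 < Λ ^ (n - 1) := by positivity
  have hδ := P.hδ
  have hδ0 : 0 < δ := by rw [hδ]; positivity
  have ee1 : ‖e 1‖ = 1 := S.he1 1 le_rfl (by omega)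
  have hth : thQ n s Λ 1 = 4 * Λ * (1 - Λ) + Λ ^ (n - 1) + 2 * s := by
    unfold thQ; rw [pow_one]; push_cast; ring
  have hdd : dQ n s Λ 1 = 2 * Λ + 11 * Λ ^ (n - 1) + 2 * s := by
    unfold dQ; rw [pow_one]
  rw [hth, hdd]
  set X := Λ ^ (n - 1)
  have hδX : δ ≤ X / 20000 := by
    rw [hδ]
    calc s * X ≤ 1 / 20000 * X := mul_le_mul_of_nonneg_right k4 hX0.le
      _ = X / 20000 := by ring
  have hδs : δ ≤ s / 20000 := by
    rw [hδ]
    calc s * X ≤ s * (1 / 20000) := mul_le_mul_of_nonneg_left (by linarith) hs.le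
      _ = s / 20000 := by ring
  have hss : s ^ 2 ≤ s / 20000 := by
    calc s ^ 2 = s * s := by ring
      _ ≤ s * (1 / 20000) := mul_le_mul_of_nonneg_left k4 hs.le
      _ = s / 20000 := by ring
  have hd1 : (1 + δ) • e 1 - e 1 = δ • e 1 := by rw [add_smul, one_smul]; abel
  have hd : ‖(1 + δ) • e 1 - e 1‖ = δ := by
    rw [hd1, norm_smul, ee1, mul_one, Real.norm_eq_abs, abs_of_pos hδ0]
  have hm : s ^ 2 * (1 + δ) ≤ s / 10000 := by
    have : s ^ 2 * (1 + δ) ≤ s ^ 2 * 2 := mul_le_mul_of_nonneg_left (by linarith) (by positivity)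
    linarith
  have hm0 : 0 ≤ δ + s ^ 2 * (1 + δ) := by positivity
  have hmu : δ + s ^ 2 * (1 + δ) ≤ 2 * s := by linarith
  have hg : |g 1| = (s * X) * (1 - (δ + s ^ 2 * (1 + δ))) := by
    rw [S.g1, ← hδ]
    have h1 : -δ * (1 - δ - s ^ 2 * (1 + δ)) = -(δ * (1 - (δ + s ^ 2 * (1 + δ)))) := by ring
    rw [h1, abs_neg, abs_of_nonneg]
    apply mul_nonneg hδ0.le
    linarith
  refine ⟨?_, ?_, ?_, ?_, ?_, ?_, ?_⟩
  · rw [S.ρ1, hd]; linarith
  · rw [S.π1, S.hI1, hd1]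
    refine (S.bd _).trans ?_
    rw [norm_smul, ee1, mul_one, Real.norm_eq_abs, abs_of_pos hδ0]
    linarith
  · have h1 : ⟪e 1, T (e 1)⟫_ℝ = 1 := by
      have := S.hTI3 1 le_rfl (by omega)
      rwa [S.hI1] at this
    rw [S.π1, map_smul, inner_smul_left, inner_smul_right, h1]
    simp only [conj_trivial, mul_one]
    have h2 : (1 + δ) * (1 + δ) - 1 = δ * (2 + δ) := by ring
    rw [h2, abs_of_pos (by positivity)]
    have h3 : δ * (2 + δ) ≤ δ * 3 := mul_le_mul_of_nonneg_left (by linarith) hδ0.le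
    linarith
  · rw [S.π1, S.hI1, hd]
    have : 1 * X ≤ r * X := mul_le_mul_of_nonneg_right hr hX0.le
    linarith
  · rw [S.c1, S.g1, ← hδ]
    have h1 : -δ - (1 + Λ) * (-δ * (1 - δ - s ^ 2 * (1 + δ))) =
        δ * (Λ - (1 + Λ) * (δ + s ^ 2 * (1 + δ))) := by ring
    rw [h1, abs_mul, abs_of_pos hδ0, mul_comm]
    apply mul_le_mul_of_nonneg_right _ hδ0.le
    refine (abs_sub _ _).trans ?_
    rw [abs_of_pos hΛ0, abs_of_nonneg (by positivity)]
    have h2 : (1 + Λ) * (δ + s ^ 2 * (1 + δ)) ≤ 2 * (δ + s ^ 2 * (1 + δ)) :=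
      mul_le_mul_of_nonneg_right (by linarith) hm0
    linarith
  · rw [hg, mul_comm]
    apply mul_le_mul_of_nonneg_left _ (by positivity)
    have : 0 ≤ 4 * Λ * (1 - Λ) := mul_nonneg (by linarith) (by linarith)
    linarith
  · rw [hg, mul_comm]
    apply mul_le_mul_of_nonneg_right _ (by positivity)
    have : 0 ≤ 4 * Λ * (1 - Λ) := mul_nonneg (by linarith) (by linarith)
    linarith

theorem QInv.all (P : QPar n s lam δ Λ r) (S : LSys n s lam δ T e I c g a β ρ π)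
    (hIr : ∀ i, 1 ≤ i → i < n → ‖I i‖ ≤ r) :
    ∀ k, 1 ≤ k → k < n →
      QInv T s Λ r e I c g ρ π (Λ ^ (n - k)) (thQ n s Λ k) (dQ n s Λ k) k := by
  intro k hk1
  induction k, hk1 using Nat.le_induction with
  | base => intro _; exact QInv.base P S
  | succ k hk1 ih =>
    intro hkn
    obtain ⟨k1, k2, k3, k4, k5, k6⟩ := P.consts
    have hs := P.hs
    have hΛ0 := P.hΛ0
    have he : n - k = (n - (k + 1)) + 1 := by omega
    have hXX : Λ ^ (n - k) = Λ * Λ ^ (n - (k + 1)) := by rw [he, pow_succ]; ring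
    obtain ⟨t1, t2⟩ := P.thQ_le (k := k) (by omega)
    obtain ⟨d1, d2⟩ := P.dQ_le (k := k) hk1 (by omega)
    refine QInv.step P S hIr hk1 hkn (pow_pos hΛ0 _) (P.pow_le (by omega)) hXX t1 t2 d1 d2 ?_ ?_
      (ih (by omega))
    · unfold thQ dQ
      rw [hXX]
      set Y := Λ ^ (n - (k + 1)) with hY
      have hY0 : 0 < Y := by positivity
      have hk0 : 0 < Λ ^ k := by positivity
      rw [pow_succ]
      push_cast
      have e1 : Λ * Y ≤ 1 / 20000 * Y := mul_le_mul_of_nonneg_right k6 hY0.le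
      have e2 : Λ * (Λ * Y) ≤ 1 / 20000 * (Λ * Y) :=
        mul_le_mul_of_nonneg_right k6 (by positivity)
      have e3 : Λ * s ≤ 1 / 20000 * s := mul_le_mul_of_nonneg_right k6 hs.le
      have e4 : Λ * (Λ * Λ ^ k) ≤ 1 / 20000 * (Λ * Λ ^ k) :=
        mul_le_mul_of_nonneg_right k6 (by positivity)
      have e5 : 0 < Λ * Λ ^ k := by positivity
      linarith only [e1, e2, e3, e4, e5, hY0, hs]
    · unfold dQ
      rw [hXX]
      set Y := Λ ^ (n - (k + 1)) with hY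
      have hY0 : 0 < Y := by positivity
      rw [pow_succ]
      have e1 : Λ * Y ≤ 1 / 20000 * Y := mul_le_mul_of_nonneg_right k6 hY0.le
      have e2 : Λ * (Λ * Y) ≤ 1 / 20000 * (Λ * Y) :=
        mul_le_mul_of_nonneg_right k6 (by positivity)
      have e3 : Λ * s ≤ 1 / 20000 * s := mul_le_mul_of_nonneg_right k6 hs.le
      linarith only [e1, e2, e3, hY0, hs]

/-- what the analysis gives -/
theorem QInv.out (P : QPar n s lam δ Λ r) (S : LSys n s lam δ T e I c g a β ρ π)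
    (hIr : ∀ i, 1 ≤ i → i < n → ‖I i‖ ≤ r) {k : ℕ} (hk1 : 1 ≤ k) (hkn : k < n) :
    |a k - 1| ≤ 1 / 100 ∧ 1 / 2 ≤ ‖ρ k‖ ∧ |g k| ≤ s ∧ ‖π k‖ ≤ 101 / 100 * r ∧
    99 / 100 ≤ ⟪π k, T (π k)⟫_ℝ + g k ^ 2 / (lam * s ^ 2) ∧
    1 / 2 ≤ ‖ρ k‖ ^ 2 + c k ^ 2 / s ^ 2 := by
  obtain ⟨k1, k2, k3, k4, k5, k6⟩ := P.consts
  have hs := P.hs
  have hr := P.hr
  have hΛ0 := P.hΛ0
  have h := QInv.all P S hIr k hk1 hkn
  obtain ⟨t1, t2⟩ := P.thQ_le hkn
  obtain ⟨d1, d2⟩ := P.dQ_le hk1 hkn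
  have hX := P.pow_le (j := n - k) (by omega)
  have hX0 : 0 < Λ ^ (n - k) := pow_pos hΛ0 _
  set X := Λ ^ (n - k)
  have gu : |g k| ≤ 9 / 8 * (s * X) := by
    refine h.igu.trans ?_
    apply mul_le_mul_of_nonneg_right (by linarith) (by positivity)
  have hic := h.ic P hX0 t2 d2
  have hak := QInv.ak P S hk1 hkn hX0 hX h.iρ hic h.iw gu
  have hwk := QInv.wk P hX0 hX h.iw gu
  have hhk := QInv.hk P S hk1 hkn hX0 hX h.iρ hic
  have ee : ‖e k‖ = 1 := S.he1 k hk1 hkn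
  refine ⟨by linarith, ?_, ?_, ?_, ?_, ?_⟩
  · have : ‖e k‖ ≤ ‖ρ k‖ + ‖ρ k - e k‖ := by
      calc ‖e k‖ = ‖ρ k - (ρ k - e k)‖ := by congr 1; abel
        _ ≤ ‖ρ k‖ + ‖ρ k - e k‖ := norm_sub_le _ _
    linarith [h.iρ]
  · have : s * X ≤ s * (1 / 20000) := mul_le_mul_of_nonneg_left (by linarith) hs.le
    linarith
  · have h1 : ‖π k‖ ≤ ‖I k‖ + ‖π k - I k‖ := by
      calc ‖π k‖ = ‖I k + (π k - I k)‖ := by congr 1; abel
        _ ≤ _ := norm_add_le _ _
    have h2 := hIr k hk1 hkn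
    have h3 : r * X ≤ r * (1 / 20000) := mul_le_mul_of_nonneg_left (by linarith) (by linarith)
    linarith [h.iπ]
  · linarith [(abs_le.mp hwk).1]
  · linarith [(abs_le.mp hhk).1]

theorem QInv.final (P : QPar n s lam δ Λ r) (S : LSys n s lam δ T e I c g a β ρ π)
    (hIr : ∀ i, 1 ≤ i → i < n → ‖I i‖ ≤ r) : s / 2 ≤ |c n| := by
  obtain ⟨k1, k2, k3, k4, k5, k6⟩ := P.consts
  have hs := P.hs
  have hl := P.hl
  have hΛ0 := P.hΛ0
  have hn := P.hn
  obtain ⟨k, rfl⟩ : ∃ k, n = k + 1 := ⟨n - 1, by omega⟩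
  have hk1 : 1 ≤ k := by omega
  have hkn : k < k + 1 := by omega
  have h := QInv.all P S hIr k hk1 hkn
  obtain ⟨t1, t2⟩ := P.thQ_le hkn
  obtain ⟨d1, d2⟩ := P.dQ_le hk1 hkn
  have hXe : Λ ^ (k + 1 - k) = Λ := by
    have : k + 1 - k = 1 := by omega
    rw [this, pow_one]
  rw [hXe] at h
  have gl : 7 / 8 * (s * Λ) ≤ |g k| := by
    refine le_trans ?_ h.igl
    apply mul_le_mul_of_nonneg_right (by linarith) (by positivity)
  have hic := h.ic P hΛ0 t2 d2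
  have hout := (QInv.out P S hIr hk1 hkn).1
  rw [S.hc k hk1 hkn]
  have h1 : 99 / 100 ≤ |a k| := by
    have h0 : |(1 : ℝ)| ≤ |a k| + |a k - 1| := by
      calc |(1 : ℝ)| = |a k - (a k - 1)| := by congr 1; ring
        _ ≤ _ := abs_sub _ _
    rw [abs_one] at h0
    linarith
  have h2 : 297 / 400 * s ≤ |a k / lam * g k| := by
    rw [abs_mul, abs_div, abs_of_pos hl]
    have e1 : 7 / 8 * (s * lam) ≤ |g k| := by
      refine le_trans ?_ gl
      have : s * lam ≤ s * Λ := mul_le_mul_of_nonneg_left k1 hs.le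
      linarith
    calc 297 / 400 * s ≤ (99 / 100) / lam * (7 / 8 * (s * lam)) := by
          have : (99 / 100) / lam * (7 / 8 * (s * lam)) = 693 / 800 * s := by field_simp; ring
          rw [this]; linarith
      _ ≤ |a k| / lam * |g k| := by
        apply mul_le_mul (div_le_div_of_nonneg_right h1 hl.le) e1 (by positivity) (by positivity)
  have h3 : |a k / lam * g k| ≤ |c k - a k / lam * g k| + |c k| := by
    calc |a k / lam * g k| = |c k - (c k - a k / lam * g k)| := by congr 1; ring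
      _ ≤ |c k| + |c k - a k / lam * g k| := abs_sub _ _
      _ = _ := add_comm _ _
  have h4 : s * Λ ≤ s * (1 / 20000) := mul_le_mul_of_nonneg_left k6 hs.le
  linarith

end Pool.Agent.Lib.MP_02bbae_an
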