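import Mathlib
import Pool.Agent.Lib.MP_02bbae_an.SharpLowerInd
import Pool.Agent.Lib.MP_02bbae_an.LowerBound

/-!
# The failing run, with estimates which do not depend on the dimension
-/

set_option autoImplicit false

open scoped InnerProductSpace RealInnerProductSpace ENNReal

namespace Pool.Agent.Lib.MP_02bbae_an

variable {m : ℕ} {s lam δ μ Λ r : ℝ}

/-- the squared norm of a partial sum -/
theorem IV_norm_sq {k : ℕ} (h1 : 1 ≤ k) : ‖IV m k‖ ^ 2 ≤ k := by
  induction k, h1 using Nat.le_induction with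
  | base =>
    rw [IV_one]
    have h := eV_norm_le (m := m) 1
    have h0 := norm_nonneg (eV m 1)
    push_cast
    nlinarith
  | succ k hk ih =>
    have horth : ⟪IV m k, eV m (k + 1)⟫_ℝ = 0 := by
      rw [inner_EV]
      unfold IV eV dotProduct
      apply Finset.sum_eq_zero
      intro j _
      change (if (j : ℕ) + 1 ≤ k then (1 : ℝ) else 0) * (if (j : ℕ) + 1 = k + 1 then (1 : ℝ) else 0)
        = 0
      by_cases h : (j : ℕ) + 1 ≤ k
      · have : ¬ (j : ℕ) + 1 = k + 1 := by omega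
        rw [if_neg this, mul_zero]
      · rw [if_neg h, zero_mul]
    rw [IV_succ, norm_add_sq_real, horth]
    have h := eV_norm_le (m := m) (k + 1)
    have h0 := norm_nonneg (eV m (k + 1))
    push_cast
    nlinarith

/-- the further parameters -/
structure QPar2 (m : ℕ) (s lam δ μ Λ r : ℝ) : Prop extends QPar (m + 2) s lam δ Λ r where
  hr2 : r ^ 2 = (m : ℝ) + 2
  hsl : 3 * ((m : ℝ) + 2) * r * s ≤ lam
  hμ0 : 0 ≤ μ
  hμ : μ ≤ s ^ 2

theorem QPar2.c (P : QPar2 m s lam δ μ Λ r) : s * ((m : ℝ) + 2) ≤ 1 / 64 ∧ s ≤ 1 / 128 ∧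
    3 * (s * ((m : ℝ) + 2)) ≤ lam ∧ lam ≤ 1 / 12000 ∧ 6 * s ≤ lam := by
  obtain ⟨k1, k2, k3, k4, k5, k6⟩ := P.toQPar.consts
  have h6 := P.hsl
  have hr := P.hr
  have hs := P.hs
  have hm : (0 : ℝ) ≤ m := Nat.cast_nonneg _
  have h7 : 3 * ((m : ℝ) + 2) * 1 * s ≤ 3 * ((m : ℝ) + 2) * r * s := by
    apply mul_le_mul_of_nonneg_right _ hs.le
    apply mul_le_mul_of_nonneg_left hr (by positivity)
  have h8 : 0 ≤ (m : ℝ) * s := by positivity
  refine ⟨by linarith, by linarith, by linarith, by linarith, by linarith⟩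

theorem QPar2.hIr (P : QPar2 m s lam δ μ Λ r) : ∀ i, 1 ≤ i → i < m + 2 → ‖IV m i‖ ≤ r := by
  intro i h1 h2
  have h3 := IV_norm_sq (m := m) h1
  have h4 : (i : ℝ) ≤ m + 2 := by
    have : i ≤ m + 2 := by omega
    exact_mod_cast this
  apply le_of_sq_le_sq _ (by linarith [P.hr])
  rw [P.hr2]; linarith

theorem QAmat_upper (P : QPar2 m s lam δ μ Λ r) (v : Fin (m + 2) → ℝ) :
    v ⬝ᵥ (Amat m s lam μ).mulVec v ≤ 2 * (v ⬝ᵥ v) := by
  obtain ⟨h1, h2, h3, h4, h5⟩ := P.c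
  have hs := P.hs
  have hl := P.hl
  rw [Amat_quad]
  have h6 : tl v ⬝ᵥ (Tmat m).mulVec (tl v) ≤ 4 * (tl v ⬝ᵥ tl v) := T_upper _
  have h7 := one_sq_le v
  have h8 := dot_succ v v
  have h9 : 0 ≤ (s ^ 2 - μ) * v 1 ^ 2 := mul_nonneg (by linarith [P.hμ]) (sq_nonneg _)
  have h10 : (v 0 - s * v 1) ^ 2 ≤ (1 + s ^ 2) * (v 0 ^ 2 + v 1 ^ 2) := by
    nlinarith [sq_nonneg (s * v 0 + v 1)]
  have h11 : lam * (tl v ⬝ᵥ (Tmat m).mulVec (tl v)) ≤ lam * (4 * (tl v ⬝ᵥ tl v)) :=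
    mul_le_mul_of_nonneg_left h6 hl.le
  have h12 : 0 ≤ v 0 ^ 2 := sq_nonneg _
  have h13 : 0 ≤ v 1 ^ 2 := sq_nonneg _
  have h14 : s ^ 2 ≤ 1 / 2 := by nlinarith
  have h15 : (1 + s ^ 2) * (v 0 ^ 2 + v 1 ^ 2) ≤ (3 / 2) * (v 0 ^ 2 + v 1 ^ 2) := by
    apply mul_le_mul_of_nonneg_right _ (by positivity); linarith
  have h16 : lam * (4 * (tl v ⬝ᵥ tl v)) ≤ 1 / 12000 * (4 * (tl v ⬝ᵥ tl v)) := by
    apply mul_le_mul_of_nonneg_right h4; linarith
  rw [h8]
  nlinarith

theorem QAmat_lower (P : QPar2 m s lam δ μ Λ r) (v : Fin (m + 2) → ℝ) :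
    lam / (4 * ((m : ℝ) + 2) ^ 2) * (v ⬝ᵥ v) ≤ v ⬝ᵥ (Amat m s lam μ).mulVec v := by
  obtain ⟨h1, h2, h3, h4, h5⟩ := P.c
  have hs := P.hs
  have hl := P.hl
  rw [Amat_quad]
  have h6 : tl v ⬝ᵥ tl v ≤ ((m : ℝ) + 1) ^ 2 * (tl v ⬝ᵥ (Tmat m).mulVec (tl v)) := T_lower _
  have h7 := one_sq_le v
  have h8 := dot_succ v v
  have hm : (0 : ℝ) ≤ m := Nat.cast_nonneg _
  set Q := tl v ⬝ᵥ tl v with hQ
  set R := tl v ⬝ᵥ (Tmat m).mulVec (tl v) with hR
  set N := ((m : ℝ) + 2) ^ 2 with hN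
  have hN4 : 4 ≤ N := by rw [hN]; nlinarith
  have hQ0 : 0 ≤ Q := le_trans (sq_nonneg _) h7
  have hMN : ((m : ℝ) + 1) ^ 2 ≤ N := by rw [hN]; nlinarith
  have hR0 : 0 ≤ R := by
    by_contra hc
    push Not at hc
    have : ((m : ℝ) + 1) ^ 2 * R < 0 := mul_neg_of_pos_of_neg (by positivity) hc
    linarith
  have hQR : Q ≤ N * R := h6.trans (mul_le_mul_of_nonneg_right hMN hR0)
  have h9 : (s ^ 2 - μ) * v 1 ^ 2 ≤ s ^ 2 * Q := by
    have h91 : (s ^ 2 - μ) * v 1 ^ 2 ≤ s ^ 2 * v 1 ^ 2 :=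
      mul_le_mul_of_nonneg_right (by linarith [P.hμ0]) (sq_nonneg _)
    exact h91.trans (mul_le_mul_of_nonneg_left h7 (by positivity))
  have h10 : v 0 ^ 2 ≤ 2 * (v 0 - s * v 1) ^ 2 + 2 * s ^ 2 * v 1 ^ 2 := by
    nlinarith [sq_nonneg (v 0 - 2 * (s * v 1))]
  have h11 : 2 * s ^ 2 * v 1 ^ 2 ≤ 2 * s ^ 2 * Q := mul_le_mul_of_nonneg_left h7 (by positivity)
  have hs2 : s ^ 2 ≤ 1 / 100 := by nlinarith
  rw [h8]
  rw [div_mul_eq_mul_div, div_le_iff₀ (by positivity)]
  have h12 : v 0 * v 0 = v 0 ^ 2 := by ring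
  rw [h12]
  have hgg : 0 ≤ (v 0 - s * v 1) ^ 2 := sq_nonneg _
  set gg := (v 0 - s * v 1) ^ 2
  -- lam * (v0² + Q) ≤ (gg + lam R - (s²-μ) v1²) * (4N)
  have h13 : lam * (v 0 ^ 2 + Q) ≤ lam * (2 * gg + (1 + 2 * (1 / 100)) * Q) := by
    apply mul_le_mul_of_nonneg_left _ hl.le
    have : 2 * s ^ 2 * Q ≤ 2 * (1 / 100) * Q := by
      apply mul_le_mul_of_nonneg_right _ hQ0; linarith
    linarith
  have h14 : s ^ 2 * N ≤ lam / 300 := by
    have h141 : s ^ 2 * N = (s * ((m : ℝ) + 2)) * (s * ((m : ℝ) + 2)) := by rw [hN]; ring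
    have h142 : (s * ((m : ℝ) + 2)) * (s * ((m : ℝ) + 2)) ≤ (lam / 3) * (1 / 64) :=
      mul_le_mul (by linarith) h1 (by positivity) (by positivity)
    have h143 : (s * ((m : ℝ) + 2)) * (s * ((m : ℝ) + 2)) ≤ (lam / 3) * (lam / 3) :=
      mul_le_mul (by linarith) (by linarith) (by positivity) (by positivity)
    have h144 : (lam / 3) * (lam / 3) ≤ (lam / 3) * (1 / 12000) :=
      mul_le_mul_of_nonneg_left (by linarith) (by positivity)
    linarith
  have h15 : (s ^ 2 - μ) * v 1 ^ 2 * (4 * N) ≤ 4 * (lam / 300) * Q := by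
    calc (s ^ 2 - μ) * v 1 ^ 2 * (4 * N) ≤ s ^ 2 * Q * (4 * N) :=
          mul_le_mul_of_nonneg_right h9 (by positivity)
      _ = 4 * (s ^ 2 * N) * Q := by ring
      _ ≤ 4 * (lam / 300) * Q := by
          apply mul_le_mul_of_nonneg_right _ hQ0; linarith
  have h16 : lam * Q * 4 ≤ lam * R * (4 * N) := by
    have := mul_le_mul_of_nonneg_left hQR hl.le
    nlinarith
  have h17 : lam * (2 * gg) ≤ gg * (4 * N) := by
    have : lam * 2 ≤ 4 * N := by linarith
    calc lam * (2 * gg) = (lam * 2) * gg := by ring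
      _ ≤ (4 * N) * gg := mul_le_mul_of_nonneg_right this hgg
      _ = _ := by ring
  have h18 : 0 ≤ lam * Q := mul_nonneg hl.le hQ0
  calc lam * (v 0 ^ 2 + Q) ≤ lam * (2 * gg + (1 + 2 * (1 / 100)) * Q) := h13
    _ = lam * (2 * gg) + 1.02 * (lam * Q) := by ring
    _ ≤ gg * (4 * N) + (4 - 4 / 300) * (lam * Q) := by linarith
    _ ≤ gg * (4 * N) + lam * R * (4 * N) - (s ^ 2 - μ) * v 1 ^ 2 * (4 * N) := by linarith
    _ = _ := by ring

theorem QAmat_posDef (P : QPar2 m s lam δ μ Λ r) : (Amat m s lam μ).PosDef := by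
  apply Matrix.PosDef.of_dotProduct_mulVec_pos
  · ext i j
    simp only [Matrix.conjTranspose_apply, star_trivial]
    exact aent_symm s lam μ j i
  · intro x hx
    have h1 := QAmat_lower P x
    have h2 : 0 < x ⬝ᵥ x := by
      rw [← nrm_sq]
      have : nrm x ≠ 0 := by
        unfold nrm
        rw [norm_ne_zero_iff]
        intro h
        apply hx
        have := congrArg WithLp.ofLp h
        simpa using this
      positivity
    have h3 := P.hl
    have h4 : 0 < lam / (4 * ((m : ℝ) + 2) ^ 2) * (x ⬝ᵥ x) := by positivity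
    have h5 : star x ⬝ᵥ (Amat m s lam μ).mulVec x = x ⬝ᵥ (Amat m s lam μ).mulVec x := by
      simp
    rw [h5]
    linarith

theorem QAmat_spec (P : QPar2 m s lam δ μ Λ r) : specNorm (Amat m s lam μ) ≤ 2 := by
  apply specNorm_le (by norm_num)
  intro v
  obtain ⟨h1, h2, h3, h4, h5⟩ := P.c
  have hs := P.hs
  have hl := P.hl
  set N := nrm v with hN
  have hN0 : 0 ≤ N := nrm_nonneg v
  have hv0 := abs_coord_le v 0
  have hv1 := abs_coord_le v 1
  -- the simulated matrix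
  have e1 : (Amat m s lam μ).mulVec v
      = (Amat m s lam (s ^ 2)).mulVec v - Pi.single 1 ((s ^ 2 - μ) * v 1) := by
    rw [← Amat_diff (lam := lam)]; abel
  have e2 : nrm (Pi.single 1 ((s ^ 2 - μ) * v 1) : Fin (m + 2) → ℝ) ≤ 1 / 100 * N := by
    rw [nrm_single, abs_mul]
    apply mul_le_mul _ hv1 (abs_nonneg _) (by norm_num)
    rw [abs_of_nonneg (by linarith [P.hμ])]
    nlinarith [P.hμ0]
  have e3 : nrm ((Amat m s lam (s ^ 2)).mulVec v) ≤ 3 / 2 * N := by
    apply nrm_le (by positivity)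
    rw [sc_norm m hs.ne', Amat_zero]
    have e4 : ‖sc m s ((Amat m s lam (s ^ 2)).mulVec v)‖ ≤ (4 * lam * N + (2 * N) * s) / s := by
      rw [sc_mulVec m lam hs.ne']
      refine (norm_sub_le _ _).trans ?_
      rw [norm_smul, norm_smul, Real.norm_eq_abs, Real.norm_eq_abs, abs_of_pos hl,
        eV_norm le_rfl (by omega), mul_one]
      have e5 : ‖Top m (sc m s v)‖ ≤ 4 * (N / s) := by
        refine (Top_bd _).trans ?_
        apply mul_le_mul_of_nonneg_left _ (by norm_num)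
        have e6 := sc_norm m hs.ne' v
        rw [le_div_iff₀ hs]
        have e7 : (‖sc m s v‖ * s) ^ 2 ≤ N ^ 2 := by
          rw [hN, nrm_sq, e6]
          have : 0 ≤ v 0 ^ 2 / s ^ 2 := by positivity
          nlinarith [sq_nonneg s]
        exact le_of_sq_le_sq e7 hN0
      have e8 : |v 0 - s * v 1| ≤ 2 * N := by
        refine (abs_sub _ _).trans ?_
        rw [abs_mul, abs_of_pos hs]
        nlinarith
      calc lam * ‖Top m (sc m s v)‖ + |v 0 - s * v 1|
          ≤ lam * (4 * (N / s)) + 2 * N :=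
            add_le_add (mul_le_mul_of_nonneg_left e5 hl.le) e8
        _ = (4 * lam * N + (2 * N) * s) / s := by field_simp
    have e9 : (4 * lam * N + (2 * N) * s) ≤ 1 / 10 * N := by nlinarith
    have e10 : s ^ 2 * ‖sc m s ((Amat m s lam (s ^ 2)).mulVec v)‖ ^ 2 ≤ (1 / 10 * N) ^ 2 := by
      rw [← mul_pow]
      apply pow_le_pow_left₀ (by positivity)
      rw [le_div_iff₀ hs] at e4
      linarith
    have e11 : |v 0 - s * v 1| ≤ 129 / 128 * N := by
      refine (abs_sub _ _).trans ?_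
      rw [abs_mul, abs_of_pos hs]
      nlinarith
    have e12 : (v 0 - s * v 1) ^ 2 ≤ (129 / 128 * N) ^ 2 := by
      rw [← sq_abs]
      exact pow_le_pow_left₀ (abs_nonneg _) e11 2
    have e13 : s ^ 2 * (‖sc m s ((Amat m s lam (s ^ 2)).mulVec v)‖ ^ 2
        + (v 0 - s * v 1) ^ 2 / s ^ 2)
        = s ^ 2 * ‖sc m s ((Amat m s lam (s ^ 2)).mulVec v)‖ ^ 2 + (v 0 - s * v 1) ^ 2 := by
      have := hs.ne'
      field_simp
    rw [e13]
    nlinarith
  rw [e1]
  refine (nrm_sub_le _ _).trans ?_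
  linarith

/-! ## The run -/

section

variable (P : QPar2 m s lam δ μ Λ r)
include P

theorem QPar2.sys : LSys (m + 2) s lam δ (Top m) (eV m) (IV m)
      (fun k => rS m s lam δ k 0) (fun k => pS m s lam δ k 0 - s * pS m s lam δ k 1)
      (fun k => lam * cgα (AS m s lam) (bS m) δ k) (fun k => cgβ (AS m s lam) (bS m) δ k)
      (fun k => sc m s (rS m s lam δ k)) (fun k => sc m s (pS m s lam δ k)) :=
  lsys m lam δ P.hs.ne' P.hl.ne'

theorem QPar2.r_pos {k : ℕ} (hk1 : 1 ≤ k) (hk : k ≤ m + 2) :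
    s / 2 ≤ nrm (rS m s lam δ k) := by
  have hs := P.hs
  apply le_nrm
  by_cases h : k < m + 2
  · obtain ⟨-, h2, -, -, -, -⟩ := QInv.out P.toQPar P.sys P.hIr hk1 h
    rw [sc_norm m hs.ne']
    have h3 : (1 / 2 : ℝ) ^ 2 ≤ ‖sc m s (rS m s lam δ k)‖ ^ 2 :=
      pow_le_pow_left₀ (by norm_num) h2 2
    have h4 : 0 ≤ rS m s lam δ k 0 ^ 2 / s ^ 2 := by positivity
    have h5 : s ^ 2 * ((1 / 2 : ℝ) ^ 2) ≤ s ^ 2 * (‖sc m s (rS m s lam δ k)‖ ^ 2
      + rS m s lam δ k 0 ^ 2 / s ^ 2) := by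
      apply mul_le_mul_of_nonneg_left _ (by positivity); linarith
    calc (s / 2) ^ 2 = s ^ 2 * ((1 / 2 : ℝ) ^ 2) := by ring
      _ ≤ _ := h5
  · have hk2 : k = m + 2 := by omega
    subst hk2
    have h1 := QInv.final P.toQPar P.sys P.hIr
    have h2 : (s / 2) ^ 2 ≤ |rS m s lam δ (m + 2) 0| ^ 2 :=
      pow_le_pow_left₀ (by positivity) h1 2
    rw [sq_abs] at h2
    rw [dot_succ]
    have h3 : 0 ≤ tl (rS m s lam δ (m + 2)) ⬝ᵥ tl (rS m s lam δ (m + 2)) := by
      rw [← nrm_sq]; positivity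
    nlinarith

theorem QPar2.step_norm {k : ℕ} (hk1 : 1 ≤ k) (hk : k < m + 2) :
    nrm (cgα (AS m s lam) (bS m) δ k • pS m s lam δ k) ≤ 2.1 * r * s / lam := by
  have hs := P.hs
  have hl := P.hl
  obtain ⟨c1, c2, c3, c4, c5⟩ := P.c
  obtain ⟨h1, -, h3, h4, -, -⟩ := QInv.out P.toQPar P.sys P.hIr hk1 hk
  have hm : (0 : ℝ) ≤ m := Nat.cast_nonneg _
  have hr := P.hr
  have hr2 := P.hr2
  have hrN : r ≤ (m : ℝ) + 2 := by rw [← hr2]; nlinarith
  have hsr : s * r ≤ 1 / 64 := (mul_le_mul_of_nonneg_left hrN hs.le).trans c1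
  -- d
  have hd : |pS m s lam δ k 0| ≤ s * 1.02 := by
    have e1 : pS m s lam δ k 0 = (pS m s lam δ k 0 - s * pS m s lam δ k 1)
        + s * pS m s lam δ k 1 := by ring
    have e0 := inner_e1_sc m hs.ne' (pS m s lam δ k)
    rw [e1]
    refine (abs_add_le _ _).trans ?_
    have e2 : |⟪eV m 1, sc m s (pS m s lam δ k)⟫_ℝ| ≤ 101 / 100 * r := by
      refine (abs_real_inner_le_norm _ _).trans ?_
      rw [eV_norm le_rfl (by omega), one_mul]; exact h4
    have e3 : |s * pS m s lam δ k 1| ≤ s ^ 2 * (101 / 100 * r) := by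
      rw [← e0, abs_mul, abs_of_pos (by positivity : (0 : ℝ) < s ^ 2)]
      exact mul_le_mul_of_nonneg_left e2 (by positivity)
    have e4 : s ^ 2 * (101 / 100 * r) ≤ s * (101 / 6400) := by
      have : s ^ 2 * (101 / 100 * r) = s * (101 / 100 * (s * r)) := by ring
      rw [this]
      exact mul_le_mul_of_nonneg_left (by linarith) hs.le
    linarith
  have hp : nrm (pS m s lam δ k) ≤ 2 * r * s := by
    apply nrm_le (by positivity)
    rw [sc_norm m hs.ne']
    have e1 : s ^ 2 * (‖sc m s (pS m s lam δ k)‖ ^ 2 + pS m s lam δ k 0 ^ 2 / s ^ 2)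
        = s ^ 2 * ‖sc m s (pS m s lam δ k)‖ ^ 2 + pS m s lam δ k 0 ^ 2 := by
      field_simp
    rw [e1]
    have e2 : pS m s lam δ k 0 ^ 2 ≤ (s * 1.02) ^ 2 := by
      rw [← sq_abs]
      exact pow_le_pow_left₀ (abs_nonneg _) hd 2
    have e3 : ‖sc m s (pS m s lam δ k)‖ ^ 2 ≤ (101 / 100 * r) ^ 2 :=
      pow_le_pow_left₀ (norm_nonneg _) h4 2
    have e4 : s ^ 2 * ‖sc m s (pS m s lam δ k)‖ ^ 2 ≤ s ^ 2 * (101 / 100 * r) ^ 2 :=
      mul_le_mul_of_nonneg_left e3 (by positivity)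
    have e5 : (1 : ℝ) ≤ r ^ 2 := by nlinarith
    have e6 : s ^ 2 * 1 ≤ s ^ 2 * r ^ 2 := mul_le_mul_of_nonneg_left e5 (by positivity)
    have e7 : (2 * r * s) ^ 2 = 4 * (s ^ 2 * r ^ 2) := by ring
    have e8 : s ^ 2 * (101 / 100 * r) ^ 2 = 10201 / 10000 * (s ^ 2 * r ^ 2) := by ring
    have e9 : (s * 1.02) ^ 2 = 1.0404 * (s ^ 2 * 1) := by ring
    rw [e7]
    rw [e8] at e4
    rw [e9] at e2
    have e10 : 0 ≤ s ^ 2 * r ^ 2 := by positivity
    linarith only [e2, e4, e6, e10]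
  have ha : |cgα (AS m s lam) (bS m) δ k| ≤ 1.01 / lam := by
    rw [le_div_iff₀ hl]
    have e1 : |lam * cgα (AS m s lam) (bS m) δ k| ≤ 1.01 := by
      calc |lam * cgα (AS m s lam) (bS m) δ k|
          = |(lam * cgα (AS m s lam) (bS m) δ k - 1) + 1| := by congr 1; ring
        _ ≤ |lam * cgα (AS m s lam) (bS m) δ k - 1| + |1| := abs_add_le _ _
        _ ≤ 1 / 100 + 1 := by rw [abs_one]; linarith
        _ = 1.01 := by norm_num
    rw [abs_mul, abs_of_pos hl] at e1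
    linarith
  rw [nrm_smul]
  calc |cgα (AS m s lam) (bS m) δ k| * nrm (pS m s lam δ k)
      ≤ 1.01 / lam * (2 * r * s) := mul_le_mul ha hp (nrm_nonneg _) (by positivity)
    _ ≤ 2.1 * r * s / lam := by
      have : 1.01 / lam * (2 * r * s) = 2.02 * r * s / lam := by ring
      rw [this]
      apply div_le_div_of_nonneg_right _ hl.le
      have : 0 < r * s := by positivity
      linarith

theorem QPar2.x_norm {k : ℕ} (hk : k ≤ m + 2) : nrm (xS m s lam δ k) ≤ 3 := by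
  have hs := P.hs
  have hl := P.hl
  obtain ⟨c1, c2, c3, c4, c5⟩ := P.c
  obtain ⟨a1, a2, a3⟩ := alpha_zero (m := m) (s := s) (lam := lam) (δ := δ)
  have hm : (0 : ℝ) ≤ m := Nat.cast_nonneg _
  have hΛ0 := P.hΛ0
  have hr := P.hr
  have hδ : δ ≤ 1 / 2 := by
    rw [P.hδ]
    have h2 := P.pow_le (j := m + 2 - 1) (by omega)
    have h1 : 0 < Λ ^ (m + 2 - 1) := by positivity
    have h3 := P.toQPar.consts.2.2.2.2.2
    have h4 : s * Λ ^ (m + 2 - 1) ≤ 1 * (1 / 2) :=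
      mul_le_mul (by linarith) (by linarith) h1.le (by norm_num)
    linarith
  have hδ0 : 0 < δ := by rw [P.hδ]; positivity
  have main : ∀ k, k + 1 ≤ m + 2 → nrm (xS m s lam δ (k + 1))
      ≤ 3 / 2 + k * (2.1 * r * s / lam) := by
    intro k
    induction k with
    | zero =>
      intro _
      have e1 : xS m s lam δ (0 + 1) = (1 + δ) • bS m := by
        have := cgx_succ (AS m s lam) (bS m) δ 0
        rw [cgx_zero, cgp_zero, a1, zero_add, zero_add] at this
        exact this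
      rw [e1, nrm_smul, a2, abs_of_pos (by linarith)]
      push_cast
      linarith
    | succ k ih =>
      intro hk
      have e1 := cgx_succ (AS m s lam) (bS m) δ (k + 1)
      change xS m s lam δ (k + 1 + 1) = _ at e1
      rw [e1]
      refine (nrm_add_le _ _).trans ?_
      have e2 := ih (by omega)
      have e3 := P.step_norm (k := k + 1) (by omega) (by omega)
      push_cast
      have e4 : nrm (cgx (AS m s lam) (bS m) δ (k + 1)) ≤ 3 / 2
        + k * (2.1 * r * s / lam) := e2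
      have e5 : nrm (cgα (AS m s lam) (bS m) δ (k + 1) • cgp (AS m s lam) (bS m) δ (k + 1))
        ≤ 2.1 * r * s / lam := e3
      linarith
  rcases Nat.eq_zero_or_pos k with h0 | h0
  · subst h0
    have : xS m s lam δ 0 = 0 := rfl
    rw [this]
    have : nrm (0 : Fin (m + 2) → ℝ) = 0 := by unfold nrm; simp
    rw [this]; norm_num
  · obtain ⟨j, rfl⟩ : ∃ j, k = j + 1 := ⟨k - 1, by omega⟩
    refine (main j hk).trans ?_
    have hj : (j : ℝ) ≤ m + 2 := by
      have : j ≤ m + 2 := by omega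
      exact_mod_cast this
    have h1 : (j : ℝ) * (2.1 * r * s / lam)
        ≤ (m + 2) * (2.1 * r * s / lam) :=
      mul_le_mul_of_nonneg_right hj (by positivity)
    have h2 : ((m : ℝ) + 2) * (2.1 * r * s / lam) ≤ 0.7 := by
      have : ((m : ℝ) + 2) * (2.1 * r * s / lam)
        = 0.7 * (3 * ((m : ℝ) + 2) * r * s) / lam := by ring
      rw [this, div_le_iff₀ hl]
      exact mul_le_mul_of_nonneg_left P.hsl (by norm_num)
    linarith

theorem QPar2.eta_big {ε : ℝ} (hε : 0 < ε) (hsε : 22 * ε ≤ s) {k : ℕ} (hk : k ≤ m + 2) :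
    ε < eta (Amat m s lam μ) (bS m) (xS m s lam δ k) := by
  have hs := P.hs
  obtain ⟨c1, c2, c3, c4, c5⟩ := P.c
  obtain ⟨a1, a2, a3⟩ := alpha_zero (m := m) (s := s) (lam := lam) (δ := δ)
  have hx := P.x_norm hk
  rcases Nat.eq_zero_or_pos k with h0 | h0
  · subst h0
    have h00 : xS m s lam δ 0 = 0 := rfl
    rw [h00]
    apply eta_lb (X := 3) (s := 1) a2 (QAmat_spec P) (by rw [← h00]; exact hx) _ hε
    · linarith
    · rw [Matrix.mulVec_zero, sub_zero, a2]
  · apply eta_lb (X := 3) (s := s / 3) a2 (QAmat_spec P) hx _ hε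
    · linarith
    · have e1 : bS m - (Amat m s lam μ).mulVec (xS m s lam δ k)
          = rS m s lam δ k - -(Pi.single 1 ((s ^ 2 - μ) * xS m s lam δ k 1)) := by
        rw [← Amat_diff (lam := lam)]
        have := cgr_eq (AS m s lam) (bS m) δ k
        change rS m s lam δ k = _ at this
        rw [this]
        abel
      have e2 := P.r_pos h0 hk
      have e3 : nrm (Pi.single 1 ((s ^ 2 - μ) * xS m s lam δ k 1) : Fin (m + 2) → ℝ)
          ≤ 3 / 128 * s := by
        rw [nrm_single, abs_mul, abs_of_nonneg (by linarith [P.hμ])]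
        have h1 : |xS m s lam δ k 1| ≤ 3 := (abs_coord_le _ _).trans hx
        have h2 : s ^ 2 - μ ≤ 1 / 128 * s := by nlinarith [P.hμ0]
        calc (s ^ 2 - μ) * |xS m s lam δ k 1| ≤ (1 / 128 * s) * 3 :=
              mul_le_mul h2 h1 (abs_nonneg _) (by positivity)
          _ = _ := by ring
      have e4 : nrm (rS m s lam δ k) ≤ nrm (bS m - (Amat m s lam μ).mulVec (xS m s lam δ k))
          + nrm (Pi.single 1 ((s ^ 2 - μ) * xS m s lam δ k 1) : Fin (m + 2) → ℝ) := by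
        have : rS m s lam δ k = (bS m - (Amat m s lam μ).mulVec (xS m s lam δ k))
          - Pi.single 1 ((s ^ 2 - μ) * xS m s lam δ k 1) := by
          rw [e1]; abel
        calc nrm (rS m s lam δ k) = nrm ((bS m - (Amat m s lam μ).mulVec (xS m s lam δ k))
          - Pi.single 1 ((s ^ 2 - μ) * xS m s lam δ k 1)) := by rw [← this]
          _ ≤ _ := nrm_sub_le _ _
      linarith

theorem QPar2.valid {u : ℝ} (hu : 0 ≤ u) (hδ : δ ≤ u)
    (hμ' : μ = s ^ 2 ∨ (μ = 0 ∧ s ^ 2 ≤ u * lam)) :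
    (failRun m s lam δ).Valid u (Amat m s lam μ) (bS m) (m + 2) := by
  have hs := P.hs
  have hl := P.hl
  obtain ⟨c1, c2, c3, c4, c5⟩ := P.c
  obtain ⟨a1, a2, a3⟩ := alpha_zero (m := m) (s := s) (lam := lam) (δ := δ)
  have hΛ0 := P.hΛ0
  have hδ0 : 0 < δ := by rw [P.hδ]; positivity
  have hr : ∀ k ≤ m + 2, rS m s lam δ k ⬝ᵥ rS m s lam δ k ≠ 0 := by
    intro k hk
    rw [← nrm_sq]
    rcases Nat.eq_zero_or_pos k with h0 | h0
    · subst h0
      have : rS m s lam δ 0 = bS m := rfl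
      rw [this, a2]; norm_num
    · have := P.r_pos h0 hk
      have h2 : 0 < nrm (rS m s lam δ k) := by linarith
      positivity
  have hp : ∀ k < m + 2, pS m s lam δ k ⬝ᵥ (AS m s lam).mulVec (pS m s lam δ k) ≠ 0 := by
    intro k hk
    rcases Nat.eq_zero_or_pos k with h0 | h0
    · subst h0
      have h1 : cgα (AS m s lam) (bS m) δ 0 = 1 + δ := a1
      intro hc
      unfold cgα cgA at h1
      change pS m s lam δ 0 ⬝ᵥ (AS m s lam).mulVec (pS m s lam δ 0) = 0 at hc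
      change (rS m s lam δ 0 ⬝ᵥ rS m s lam δ 0) / (pS m s lam δ 0 ⬝ᵥ (AS m s lam).mulVec
        (pS m s lam δ 0)) * _ = _ at h1
      rw [hc, div_zero, zero_mul] at h1
      linarith
    · obtain ⟨-, -, -, -, h5, -⟩ := QInv.out P.toQPar P.sys P.hIr h0 hk
      rw [sc_quad m lam hs.ne' hl.ne']
      have : 0 < lam * s ^ 2 := by positivity
      have h6 : (0 : ℝ) < ⟪sc m s (pS m s lam δ k), Top m (sc m s (pS m s lam δ k))⟫_ℝ
        + (pS m s lam δ k 0 - s * pS m s lam δ k 1) ^ 2 / (lam * s ^ 2) := by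
        have h7 : (99 / 100 : ℝ) ≤ ⟪sc m s (pS m s lam δ k), Top m (sc m s (pS m s lam δ k))⟫_ℝ
          + (pS m s lam δ k 0 - s * pS m s lam δ k 1) ^ 2 / (lam * s ^ 2) := h5
        linarith
      positivity
  have hmv : ∀ p : Fin (m + 2) → ℝ, FlMulVec u (Amat m s lam μ) p ((AS m s lam).mulVec p) := by
    intro p i
    apply FlDot.pert hu (by omega)
    intro j
    rcases hμ' with h | ⟨h, h'⟩
    · refine ⟨0, by simpa using hu, ?_⟩
      rw [h]; simp
    · by_cases hij : (i : ℕ) = 1 ∧ (j : ℕ) = 1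
      · refine ⟨s ^ 2 / lam, ?_, ?_⟩
        · rw [abs_of_pos (by positivity), div_le_iff₀ hl]; exact h'
        · unfold AS Amat
          rw [hij.1, hij.2, h]
          unfold aent
          simp [tent]
          field_simp
      · refine ⟨0, by simpa using hu, ?_⟩
        unfold AS Amat aent
        rw [if_neg hij, if_neg hij]; ring
  constructor
  · rfl
  · rfl
  · rfl
  · intro k _; exact FlDot.exact hu (by omega) _ _
  · intro k _; exact hmv _
  · intro k _; exact FlDot.exact hu (by omega) _ _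
  · intro k hk; exact hp k hk
  · intro k hk
    refine ⟨if k = 0 then δ else 0, ?_, rfl⟩
    split_ifs
    · rw [abs_of_pos hδ0]; exact hδ
    · simpa using hu
  · intro k _
    have := cgx_succ (AS m s lam) (bS m) δ k
    show FlAddMul u (cgx (AS m s lam) (bS m) δ k) (cgα (AS m s lam) (bS m) δ k)
      (cgp (AS m s lam) (bS m) δ k) (cgx (AS m s lam) (bS m) δ (k + 1))
    rw [this]
    exact FlAddMul.exact hu _ _ _
  · intro k _; exact hmv _
  · intro k _
    have := cgr_succ (AS m s lam) (bS m) δ k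
    show FlSubMul u (cgr (AS m s lam) (bS m) δ k) (cgα (AS m s lam) (bS m) δ k)
      ((AS m s lam).mulVec (cgp (AS m s lam) (bS m) δ k)) (cgr (AS m s lam) (bS m) δ (k + 1))
    rw [this]
    exact FlSubMul.exact hu _ _ _
  · intro k _; exact FlDot.exact hu (by omega) _ _
  · intro k hk; exact hr k hk.le
  · intro k _; exact FlDot.exact hu (by omega) _ _
  · intro k _; exact Fl.exact hu _
  · intro k _
    have := cgp_succ (AS m s lam) (bS m) δ k
    show FlAddMul u (cgr (AS m s lam) (bS m) δ (k + 1)) (cgβ (AS m s lam) (bS m) δ k)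
      (cgp (AS m s lam) (bS m) δ k) (cgp (AS m s lam) (bS m) δ (k + 1))
    rw [this]
    exact FlAddMul.exact hu _ _ _

end

/-- the root -/
theorem exists_root {lam : ℝ} (hl : 0 < lam) (hl1 : 40000 * lam ≤ 1) :
    ∃ Λ : ℝ, 0 < Λ ∧ Λ ≤ 2 * lam ∧ lam * (1 + Λ) ^ 2 = Λ := by
  have hc : ContinuousOn (fun x : ℝ => x - lam * (1 + x) ^ 2) (Set.Icc 0 (2 * lam)) := by
    fun_prop
  have h0 : (0 : ℝ) - lam * (1 + 0) ^ 2 ≤ 0 := by
    norm_num
    exact hl.le
  have h1 : 0 ≤ (2 * lam) - lam * (1 + 2 * lam) ^ 2 := by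
    have h2 : (1 + 2 * lam) ^ 2 ≤ 2 := by nlinarith
    have := mul_le_mul_of_nonneg_left h2 hl.le
    linarith
  obtain ⟨x, hx, hx2⟩ := intermediate_value_Icc (by linarith) hc ⟨h0, h1⟩
  refine ⟨x, ?_, hx.2, ?_⟩
  · rcases hx.1.lt_or_eq with h | h
    · exact h
    · exfalso
      rw [← h] at hx2
      norm_num at hx2
      exact hl.ne' hx2
  · simp only at hx2
    linarith

theorem fails_sharp {m i l t : ℕ} {ε : ℝ} {κ : ℝ≥0∞} (hε : 0 < ε) (ht : 1 ≤ t)
    (h2 : 40000 * ((1 : ℝ) / 2) ^ l ≤ 1)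
    (h3 : 3 * ((m : ℝ) + 2) * Real.sqrt (m + 2) * ((1 : ℝ) / 2) ^ i ≤ (1 / 2) ^ l)
    (h4 : 22 * ε ≤ (1 / 2) ^ i)
    (h5 : ENNReal.ofReal 2
      ≤ κ * ENNReal.ofReal (((1 : ℝ) / 2) ^ l / (4 * ((m : ℝ) + 2) ^ 2)))
    (h6 : t ≤ i + (l - 1) * (m + 1)) : Fails (m + 2) κ ε t := by
  set s : ℝ := (1 / 2) ^ i with hs
  set lam : ℝ := (1 / 2) ^ l with hlam
  have hm : (0 : ℝ) ≤ m := Nat.cast_nonneg _
  have hs0 : 0 < s := by positivity
  have hl0 : 0 < lam := by positivity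
  have hr1 : 1 ≤ Real.sqrt ((m : ℝ) + 2) := by
    rw [Real.one_le_sqrt]; linarith
  have hr2 : Real.sqrt ((m : ℝ) + 2) ^ 2 = (m : ℝ) + 2 := Real.sq_sqrt (by linarith)
  set r := Real.sqrt ((m : ℝ) + 2) with hr
  obtain ⟨Λ, hΛ0, hΛ1, hΛ⟩ := exists_root hl0 h2
  have h7 : 3 * ((m : ℝ) + 2) * 1 * s ≤ 3 * ((m : ℝ) + 2) * r * s := by
    apply mul_le_mul_of_nonneg_right _ hs0.le
    apply mul_le_mul_of_nonneg_left hr1 (by positivity)
  have h8 : 0 ≤ (m : ℝ) * s := by positivity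
  have hsl : s < lam := by linarith
  have hli : l ≤ i := by
    by_contra hc
    push Not at hc
    have : lam ≤ s := by
      rw [hs, hlam]
      exact pow_le_pow_of_le_one (by norm_num) (by norm_num) hc.le
    linarith
  have hl1 : 1 ≤ l := by
    by_contra hc
    have : l = 0 := by omega
    rw [hlam, this] at h2
    norm_num at h2
  have hi : 1 ≤ i := by omega
  set μ : ℝ := if 2 * i + 1 ≤ t + l then s ^ 2 else 0 with hμ
  have P : QPar2 m s lam (s * Λ ^ (m + 1)) μ Λ r := by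
    refine ⟨⟨by omega, hs0, ?_, hsl.le, hl0, hΛ0, hΛ, by linarith, rfl, hr1⟩, hr2, h3, ?_, ?_⟩
    · push_cast
      linarith
    · rw [hμ]; split_ifs <;> positivity
    · rw [hμ]; split_ifs
      · exact le_rfl
      · positivity
  have hu : (0 : ℝ) ≤ (1 / 2) ^ t := by positivity
  have hδ : s * Λ ^ (m + 1) ≤ (1 / 2) ^ t := by
    have h9 : Λ ≤ (1 / 2) ^ (l - 1) := by
      refine hΛ1.trans (le_of_eq ?_)
      rw [hlam]
      obtain ⟨l', rfl⟩ : ∃ l', l = l' + 1 := ⟨l - 1, by omega⟩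
      rw [Nat.add_sub_cancel, pow_succ]
      ring
    calc s * Λ ^ (m + 1) ≤ s * ((1 / 2) ^ (l - 1)) ^ (m + 1) := by
          apply mul_le_mul_of_nonneg_left _ hs0.le
          exact pow_le_pow_left₀ hΛ0.le h9 _
      _ = (1 / 2) ^ (i + (l - 1) * (m + 1)) := by
          rw [hs, ← pow_mul, ← pow_add]
      _ ≤ (1 / 2) ^ t := pow_le_pow_of_le_one (by norm_num) (by norm_num) h6
  have hμ' : μ = s ^ 2 ∨ (μ = 0 ∧ s ^ 2 ≤ (1 / 2) ^ t * lam) := by
    rw [hμ]
    split_ifs with hc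
    · left; rfl
    · right
      refine ⟨rfl, ?_⟩
      rw [hs, hlam, ← pow_mul, ← pow_add]
      exact pow_le_pow_of_le_one (by norm_num) (by norm_num) (by omega)
  have hV := P.valid hu hδ hμ'
  have hb : bS m ≠ 0 := by
    intro h
    have := congrFun h 0
    simp [bS] at this
  exact ⟨Amat m s lam μ, bS m, QAmat_posDef P,
    CondLE_of_bounds _ (QAmat_lower P) (QAmat_upper P) h5, hb,
    (fun a b => isFloat_aent ht hi hli (by
      rw [hμ]
      split_ifs with hc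
      · left; exact ⟨rfl, hc⟩
      · right; rfl) a b),
    (fun a => by
      unfold bS
      by_cases ha : a = 0
      · rw [ha, Pi.single_eq_same]; exact IsFloat.one ht
      · rw [Pi.single_eq_of_ne ha]; exact IsFloat.zero t),
    failRun m s lam (s * Λ ^ (m + 1)), m + 2, failRun_reuses, hV, Or.inl rfl,
    fun k hk => P.eta_big hε h4 hk⟩

/-- `8 * 2 ^ t ≤ x` -/
theorem eight_pow_le {t : ℕ} {x : ℝ} (hx : 0 < x) (h : (t : ℝ) ≤ Real.logb 2 x - 3) :
    8 * 2 ^ t ≤ x := by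
  have h1 : ((t + 3 : ℕ) : ℝ) ≤ Real.logb 2 x := by push_cast; linarith
  rw [Real.le_logb_iff_rpow_le (by norm_num) hx, Real.rpow_natCast, pow_add] at h1
  linarith

theorem fails_triv' {n t : ℕ} {ε : ℝ} {κ : ℝ≥0∞} (hn : 1 ≤ n) (hε : 0 < ε) (ht : 1 ≤ t)
    (hκ : 1 ≤ κ) (h : (t : ℝ) ≤ Real.logb 2 (1 / ε) - 3) : Fails n κ ε t := by
  have h2 := eight_pow_le (by positivity) h
  apply fails_triv hn hε ht hκ
  rw [le_div_iff₀ hε] at h2
  have h3 : (0 : ℝ) < (1 / 2) ^ t := by positivity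
  have h4 : (2 : ℝ) ^ t * (1 / 2) ^ t = 1 := by rw [← mul_pow]; norm_num
  have h5 := mul_le_mul_of_nonneg_right h2 h3.le
  have h6 : 8 * 2 ^ t * ε * (1 / 2) ^ t = 8 * ε * (2 ^ t * (1 / 2) ^ t) := by ring
  rw [h6, h4] at h5
  linarith

/-- The lower bound with the right powers of the dimension. -/
theorem sharp_lower (n : ℕ) (hn : 1 ≤ n) (ε : ℝ) (hε : 0 < ε) (κ : ℝ≥0∞) (hκ : 1 ≤ κ)
    (q : ℝ) (hq0 : 0 < q) (hq1 : ENNReal.ofReal (q * (n : ℝ) ^ 2) ≤ κ)
    (hq2 : q * (n * Real.sqrt n) * ε ≤ 1) (t : ℕ) (ht : 1 ≤ t)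
    (h : (t : ℝ) ≤ Real.logb 2 (1 / ε) + ((n : ℝ) - 1) * (Real.logb 2 q - 24) - 3) :
    Fails n κ ε t := by
  have hn1 : (1 : ℝ) ≤ n := by exact_mod_cast hn
  by_cases hq : q < 10560000
  · apply fails_triv' hn hε ht hκ
    have h1 : Real.logb 2 q ≤ 24 := by
      calc Real.logb 2 q ≤ Real.logb 2 (2 ^ 24) :=
            Real.logb_le_logb_of_le (by norm_num) hq0 (by linarith)
        _ = 24 := by
            rw [Real.logb_pow, Real.logb_self_eq_one (by norm_num)]; norm_num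
    have h2 : ((n : ℝ) - 1) * (Real.logb 2 q - 24) ≤ 0 :=
      mul_nonpos_of_nonneg_of_nonpos (by linarith) (by linarith)
    linarith
  push Not at hq
  rcases Nat.lt_or_ge n 2 with hn2 | hn2
  · have hn1' : n = 1 := by omega
    subst hn1'
    apply fails_triv' hn hε ht hκ
    push_cast at h
    rw [sub_self, zero_mul, add_zero] at h
    exact h
  obtain ⟨m, rfl⟩ : ∃ m, n = m + 2 := ⟨n - 2, by omega⟩
  have hm : (0 : ℝ) ≤ m := Nat.cast_nonneg _
  push_cast at hq1 hq2 h hn1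
  set N : ℝ := (m : ℝ) + 2 with hN
  have hN2 : 2 ≤ N := by linarith
  have hr1 : 1 ≤ Real.sqrt N := by rw [Real.one_le_sqrt]; linarith
  have hNr : 1 ≤ N * Real.sqrt N := by nlinarith
  have hqε : q * ε ≤ 1 := by
    have : q * 1 * ε ≤ q * (N * Real.sqrt N) * ε := by
      apply mul_le_mul_of_nonneg_right _ hε.le
      exact mul_le_mul_of_nonneg_left hNr hq0.le
    linarith
  have hy : 22 * ε ≤ 1 := by nlinarith
  obtain ⟨i, hi1, hi2, hi3⟩ := exists_half_pow (by positivity : 0 < 22 * ε) hy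
  have hz0 : 0 < 132 / q := by positivity
  have hz1 : 132 / q ≤ 1 := by rw [div_le_one hq0]; linarith
  obtain ⟨l, hl1, hl2, hl3⟩ := exists_half_pow hz0 hz1
  refine fails_sharp (i := i) (l := l) hε ht ?_ ?_ hi1 ?_ ?_
  · have h1 : ((1 : ℝ) / 2) ^ l ≤ 2 * (132 / q) := hl2.le
    have h2 : 2 * (132 / q) * 40000 ≤ 1 := by
      have : 2 * (132 / q) * 40000 = 10560000 / q := by ring
      rw [this, div_le_one hq0]; exact hq
    linarith
  · refine le_trans ?_ hl1
    have e1 : ((1 : ℝ) / 2) ^ i ≤ 2 * (22 * ε) := hi2.le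
    calc 3 * N * Real.sqrt N * (1 / 2) ^ i ≤ 3 * N * Real.sqrt N * (2 * (22 * ε)) :=
          mul_le_mul_of_nonneg_left e1 (by positivity)
      _ = 132 * (N * Real.sqrt N * ε) := by ring
      _ ≤ 132 * (1 / q) := by
          apply mul_le_mul_of_nonneg_left _ (by norm_num)
          rw [le_div_iff₀ hq0]
          linarith
      _ = 132 / q := by ring
  · calc ENNReal.ofReal 2
        ≤ ENNReal.ofReal (q * N ^ 2 * (((1 : ℝ) / 2) ^ l / (4 * N ^ 2))) := by
          apply ENNReal.ofReal_le_ofReal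
          have e1 : q * N ^ 2 * (132 / q / (4 * N ^ 2)) = 33 := by
            field_simp
            norm_num
          have e2 : q * N ^ 2 * (132 / q / (4 * N ^ 2))
              ≤ q * N ^ 2 * (((1 : ℝ) / 2) ^ l / (4 * N ^ 2)) := by
            apply mul_le_mul_of_nonneg_left _ (by positivity)
            exact div_le_div_of_nonneg_right hl1 (by positivity)
          linarith
      _ = ENNReal.ofReal (q * N ^ 2) * ENNReal.ofReal (((1 : ℝ) / 2) ^ l / (4 * N ^ 2)) :=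
          ENNReal.ofReal_mul (by positivity)
      _ ≤ κ * ENNReal.ofReal (((1 : ℝ) / 2) ^ l / (4 * N ^ 2)) := by gcongr
  · -- the count
    have h2 : ∀ a : ℝ, 0 < a → Real.logb 2 (1 / a) = - Real.logb 2 a := by
      intro a _
      rw [one_div, Real.logb_inv]
    have e1 : Real.logb 2 (1 / ε) - 5 ≤ Real.logb 2 (1 / (22 * ε)) := by
      rw [h2 (22 * ε) (by positivity), h2 ε hε, Real.logb_mul (by norm_num) hε.ne']
      have : Real.logb 2 22 ≤ 5 := by
        calc Real.logb 2 22 ≤ Real.logb 2 (2 ^ 5) :=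
              Real.logb_le_logb_of_le (by norm_num) (by norm_num) (by norm_num)
          _ = 5 := by
              rw [Real.logb_pow, Real.logb_self_eq_one (by norm_num)]; norm_num
      linarith
    have e2 : Real.logb 2 q - 8 ≤ Real.logb 2 (1 / (132 / q)) := by
      rw [one_div_div, Real.logb_div hq0.ne' (by norm_num)]
      have : Real.logb 2 132 ≤ 8 := by
        calc Real.logb 2 132 ≤ Real.logb 2 (2 ^ 8) :=
              Real.logb_le_logb_of_le (by norm_num) (by norm_num) (by norm_num)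
          _ = 8 := by
              rw [Real.logb_pow, Real.logb_self_eq_one (by norm_num)]; norm_num
      linarith
    have hl1' : 1 ≤ l := by
      by_contra hc
      have h0 : l = 0 := by omega
      rw [h0] at hl3 hl2
      have : 2 * (132 / q) < 1 := by
        have : 2 * (132 / q) = 264 / q := by ring
        rw [this, div_lt_one hq0]; linarith
      rw [pow_zero] at hl2
      linarith
    have e3 : (t : ℝ) ≤ ((i + (l - 1) * (m + 1) : ℕ) : ℝ) := by
      push_cast [Nat.cast_sub hl1']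
      have e4 : ((m : ℝ) + 1) * (Real.logb 2 q - 10) ≤ (m + 1) * ((l : ℝ) - 1) :=
        mul_le_mul_of_nonneg_left (by linarith) (by linarith)
      have e5 : N - 1 = (m : ℝ) + 1 := by rw [hN]; ring
      rw [e5] at h
      have e6 : ((m : ℝ) + 1) * (Real.logb 2 q - 24) = ((m : ℝ) + 1) * (Real.logb 2 q - 10)
        - 14 * ((m : ℝ) + 1) := by ring
      rw [e6] at h
      linarith
    exact_mod_cast e3

end Pool.Agent.Lib.MP_02bbae_an
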