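import Mathlib
import Pool.Agent.Lib.MP_02bbae_an.LowerLarge
import Pool.Agent.Lib.MP_02bbae_an.LowerBreak

/-!
# The precision `t^*` for a class of runs
-/

set_option autoImplicit false

open scoped ENNReal

namespace Pool.Agent.Lib.MP_02bbae_an

/-- With `t` bits, every run of conjugate gradients in the class `C` reaches a backward error at
most `ε` within `n` steps. A run is finished after `K` steps if `K = n` or the residual `r K` is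
zero or, if `strict` holds, the computed value of `p Kᵀ A p K` is zero. -/
def GuaranteeFor {n : ℕ} (strict : Prop) (C : Run n → Prop) (κ : ℝ≥0∞) (ε : ℝ) (t : ℕ) : Prop :=
  ∀ (A : Matrix (Fin n) (Fin n) ℝ) (b : Fin n → ℝ) (hA : A.PosDef), CondLE hA κ → b ≠ 0 →
    (∀ i j, IsFloat t (A i j)) → (∀ i, IsFloat t (b i)) →
    ∀ (R : Run n) (K : ℕ), C R → R.Valid ((1 / 2) ^ t) A b K →
      (K = n ∨ K ≤ n ∧ (R.r K = 0 ∨ strict ∧ R.BreaksDown ((1 / 2) ^ t) A K)) →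
      ∃ k ≤ K, eta A b (R.x k) ≤ ε

/-- The least number of bits for which the guarantee holds, `⊤` if there is none. -/
noncomputable def tstarFor {n : ℕ} (strict : Prop) (C : Run n → Prop) (κ : ℝ≥0∞) (ε : ℝ) : ℕ∞ :=
  ⨅ t : {t : ℕ // 1 ≤ t ∧ GuaranteeFor strict C κ ε t}, ((t : ℕ) : ℕ∞)

theorem Guarantee.for {n : ℕ} {κ : ℝ≥0∞} {ε : ℝ} {t : ℕ} (h : Guarantee n κ ε t)
    (C : Run n → Prop) : GuaranteeFor False C κ ε t := by
  intro A b hA h1 h2 h3 h4 R K _ h5 h6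
  refine h A b hA h1 h2 h3 h4 R K h5 (h6.imp_right fun h => ⟨h.1, ?_⟩)
  rcases h.2 with h7 | h7
  · exact h7
  · exact absurd h7.1 id

theorem StrongGuarantee.for {n : ℕ} {κ : ℝ≥0∞} {ε : ℝ} {t : ℕ} (h : StrongGuarantee n κ ε t)
    (C : Run n → Prop) : GuaranteeFor True C κ ε t := by
  intro A b hA h1 h2 h3 h4 R K _ h5 h6
  exact h A b hA h1 h2 h3 h4 R K h5
    (h6.imp_right fun h => ⟨h.1, h.2.imp_right fun h => h.2⟩)

theorem Fails.not_for {n : ℕ} {κ : ℝ≥0∞} {ε : ℝ} {t : ℕ} (h : Fails n κ ε t) (strict : Prop)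
    {C : Run n → Prop} (hC : ∀ R : Run n, R.Reuses → C R) : ¬ GuaranteeFor strict C κ ε t := by
  obtain ⟨A, b, hA, h1, h2, h3, h4, R, K, h0, h5, h6, h7⟩ := h
  intro hG
  obtain ⟨k, hk, hk2⟩ := hG A b hA h1 h2 h3 h4 R K (hC R h0) h5
    (h6.imp_right fun h => ⟨h.1, Or.inl h.2⟩)
  exact absurd hk2 (not_le.mpr (h7 k hk))

theorem not_for_break {m t : ℕ} {ε : ℝ} {κ : ℝ≥0∞} (hε : ε < 1) (ht : 1 ≤ t)
    (hκ : 2 ^ (t + 1) ≤ κ) {C : Run (m + 2) → Prop} (hC : ∀ R : Run (m + 2), R.Reuses → C R) :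
    ¬ GuaranteeFor True C κ ε t := by
  intro hG
  obtain ⟨A, b, hA, h1, h2, h3, h4, R, h0, h5, h6, h7⟩ := break_fails (m := m) hε ht hκ
  obtain ⟨k, hk, hk2⟩ := hG A b hA h1 h2 h3 h4 R 0 (hC R h0) h5
    (Or.inr ⟨Nat.zero_le _, Or.inr ⟨trivial, h6⟩⟩)
  have hk0 : k = 0 := Nat.le_zero.mp hk
  subst hk0
  exact absurd hk2 (not_le.mpr h7)

/-- the infimum is attained -/
theorem inf_attained {G : ℕ → Prop} (h : ∃ t, 1 ≤ t ∧ G t) :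
    ∃ T : ℕ, (1 ≤ T ∧ G T) ∧ (⨅ t : {t : ℕ // 1 ≤ t ∧ G t}, ((t : ℕ) : ℕ∞)) = T ∧
      ∀ t, 1 ≤ t → G t → T ≤ t := by
  classical
  obtain ⟨T, hT, hmin⟩ : ∃ T, (1 ≤ T ∧ G T) ∧ ∀ t, 1 ≤ t ∧ G t → T ≤ t :=
    ⟨Nat.find h, Nat.find_spec h, fun t ht => Nat.find_min' h ht⟩
  refine ⟨T, hT, le_antisymm ?_ ?_, fun t h1 h2 => hmin t ⟨h1, h2⟩⟩
  · exact iInf_le (fun t : {t : ℕ // 1 ≤ t ∧ G t} => ((t : ℕ) : ℕ∞)) ⟨T, hT⟩
  · refine le_iInf fun t => ?_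
    exact_mod_cast hmin t.1 t.2

/-- if the guarantee never holds then the infimum is infinite -/
theorem inf_top {G : ℕ → Prop} (h : ∀ t, 1 ≤ t → ¬ G t) :
    (⨅ t : {t : ℕ // 1 ≤ t ∧ G t}, ((t : ℕ) : ℕ∞)) = ⊤ := by
  have : IsEmpty {t : ℕ // 1 ≤ t ∧ G t} := ⟨fun t => h t.1 t.2.1 t.2.2⟩
  exact iInf_of_empty _

end Pool.Agent.Lib.MP_02bbae_an
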