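import Mathlib
import Pool.Agent.Lib.MP_02bbae_an.PhaseUpper
import Pool.Agent.Lib.MP_02bbae_an.SharpLower
import Pool.Agent.Lib.MP_02bbae_an.BlockLower
import Pool.Agent.Lib.MP_02bbae_an.Tstar

/-!
# The lower bound in all regimes
-/

set_option autoImplicit false

open scoped ENNReal

namespace Pool.Agent.Lib.MP_02bbae_an

/-- two-sided bound for an infimum of this kind -/
theorem inf_bound {G : ℕ → Prop} {F U : ℝ} (hF : 1 ≤ F)
    (hup : ∀ t : ℕ, F ≤ t → G t) (hlo : ∀ t : ℕ, 1 ≤ t → (t : ℝ) ≤ U → ¬ G t) :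
    ∃ T : ℕ, (⨅ t : {t : ℕ // 1 ≤ t ∧ G t}, ((t : ℕ) : ℕ∞)) = T ∧ U ≤ T ∧ (T : ℝ) ≤ F + 1 := by
  have h1 : F ≤ (⌈F⌉₊ : ℕ) := Nat.le_ceil F
  have h2 : 1 ≤ ⌈F⌉₊ := by
    rw [Nat.one_le_ceil_iff]
    linarith
  obtain ⟨T, hT, hT2, hT3⟩ := inf_attained (G := G) ⟨⌈F⌉₊, h2, hup _ h1⟩
  refine ⟨T, hT2, ?_, ?_⟩
  · by_contra hcon
    push Not at hcon
    exact hlo T hT.1 hcon.le hT.2
  · have h3 : T ≤ ⌈F⌉₊ := hT3 _ h2 (hup _ h1)
    have h4 : (T : ℝ) ≤ (⌈F⌉₊ : ℕ) := by exact_mod_cast h3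
    have h5 := Nat.ceil_lt_add_one (show 0 ≤ F by linarith)
    linarith

/-- the guarantee does not hold for small `t` -/
theorem lower_log {n t : ℕ} {ε : ℝ} {κ : ℝ≥0∞} (hn : 1 ≤ n) (hε : 0 < ε) (hε1 : ε < 1 / 3)
    (hκ : 1 ≤ κ) (ht : 1 ≤ t)
    (h : (t : ℝ) ≤ max (Real.logb 2 n) (Real.logb 2 (1 / ε)) - 3) : Fails n κ ε t := by
  have hn1 : (1 : ℝ) ≤ n := by exact_mod_cast hn
  rcases le_total (Real.logb 2 n) (Real.logb 2 (1 / ε)) with h1 | h1
  · rw [max_eq_right h1] at h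
    exact fails_triv' hn hε ht hκ h
  · rw [max_eq_left h1] at h
    have h2 := eight_pow_le (by linarith) h
    apply fails_large hε1 ht hκ
    have h3 : (1 : ℝ) ≤ 2 ^ t := one_le_pow₀ (by norm_num)
    have h4 : ((3 * 2 ^ t + 1 : ℕ) : ℝ) ≤ n := by push_cast; linarith
    exact_mod_cast h4

/-- zero denominators -/
theorem lower_break {n t : ℕ} {ε : ℝ} {κ : ℝ≥0∞} {P : Run n → Prop} (hn : 2 ≤ n) (hε1 : ε < 1)
    (ht : 1 ≤ t) (hP : ∀ R : Run n, R.Reuses → P R) (hκ1 : 1 ≤ κ.toReal) (hκt : κ ≠ ⊤)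
    (h : (t : ℝ) ≤ Real.logb 2 κ.toReal - 1) : ¬ GuaranteeFor True P κ ε t := by
  obtain ⟨m, rfl⟩ : ∃ m, n = m + 2 := ⟨n - 2, by omega⟩
  apply not_for_break hε1 ht _ hP
  have h5 : ((t + 1 : ℕ) : ℝ) ≤ Real.logb 2 κ.toReal := by push_cast; linarith
  rw [Real.le_logb_iff_rpow_le (by norm_num) (by linarith), Real.rpow_natCast] at h5
  rw [← ENNReal.ofReal_toReal hκt]
  calc (2 : ℝ≥0∞) ^ (t + 1) = ENNReal.ofReal (2 ^ (t + 1)) := by
        rw [ENNReal.ofReal_pow (by norm_num)]; norm_num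
    _ ≤ ENNReal.ofReal κ.toReal := ENNReal.ofReal_le_ofReal h5

/-- the lower bound for `n ≤ thrN κ ε` -/
theorem lower_sub {n t : ℕ} {ε : ℝ} (hε : 0 < ε) (hε1 : ε ≤ 1) {κ : ℝ≥0∞} (hκ : 1 ≤ κ)
    (hn : 1 ≤ n) (hnN : n ≤ thrN κ ε) (ht : 1 ≤ t)
    (h : (t : ℝ) ≤ Real.logb 2 (1 / ε)
      + ((n : ℝ) - 1) * (3 / 2 * Real.logb 2 (thrN κ ε / n) - 24) - 3) :
    Fails n κ ε t := by
  obtain ⟨h1, h3, -, h2⟩ := thrN_props hε hε1 hκ
  set N := thrN κ ε with hN
  have hn1 : (1 : ℝ) ≤ n := by exact_mod_cast hn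
  have hn0 : (0 : ℝ) < n := by linarith
  have hx1 : 1 ≤ N / n := by rw [le_div_iff₀ hn0]; linarith
  have hx0 : 0 < N / n := by linarith
  have hN0 : 0 < N := by linarith
  refine sharp_lower n hn ε hε κ hκ ((N / n) ^ (3 / 2 : ℝ)) (by positivity) ?_ ?_ t ht ?_
  · refine le_trans (ENNReal.ofReal_le_ofReal ?_) h2
    have e1 : (N / n) ^ (3 / 2 : ℝ) ≤ (N / n) ^ 2 := by
      rw [← Real.rpow_natCast]
      exact Real.rpow_le_rpow_of_exponent_le hx1 (by norm_num)
    calc (N / n) ^ (3 / 2 : ℝ) * (n : ℝ) ^ 2 ≤ (N / n) ^ 2 * (n : ℝ) ^ 2 :=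
          mul_le_mul_of_nonneg_right e1 (by positivity)
      _ = N ^ 2 := by field_simp
  · have e1 : (n : ℝ) * Real.sqrt n = (n : ℝ) ^ (3 / 2 : ℝ) := by
      rw [Real.sqrt_eq_rpow, show (3 / 2 : ℝ) = 1 + 1 / 2 by norm_num, Real.rpow_add hn0,
        Real.rpow_one]
    have e2 : (N / n) ^ (3 / 2 : ℝ) * (n : ℝ) ^ (3 / 2 : ℝ) = N ^ (3 / 2 : ℝ) := by
      rw [← Real.mul_rpow hx0.le hn0.le, div_mul_cancel₀ _ hn0.ne']
    have e3 : N ^ (3 / 2 : ℝ) ≤ 1 / ε := by
      calc N ^ (3 / 2 : ℝ) ≤ ((1 / ε) ^ (2 / 3 : ℝ)) ^ (3 / 2 : ℝ) :=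
            Real.rpow_le_rpow hN0.le h3 (by norm_num)
        _ = 1 / ε := by
            rw [← Real.rpow_mul (by positivity)]
            norm_num
    rw [e1, e2]
    calc N ^ (3 / 2 : ℝ) * ε ≤ 1 / ε * ε := mul_le_mul_of_nonneg_right e3 hε.le
      _ = 1 := by field_simp
  · rw [Real.logb_rpow_eq_mul_logb_of_pos hx0]
    exact h

theorem logb_two_le_self {x : ℝ} (hx : 0 < x) : Real.logb 2 x ≤ x := by
  rcases le_total 1 x with h | h
  · rw [Real.logb_le_iff_le_rpow (by norm_num) hx]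
    have h3 := one_add_mul_self_le_rpow_one_add (s := 1) (by norm_num) h
    norm_num at h3
    linarith
  · have : Real.logb 2 x ≤ 0 := Real.logb_nonpos (by norm_num) hx.le h
    linarith

/-- the largest power of two below a real number -/
theorem exists_two_pow {x : ℝ} (hx : 1 ≤ x) :
    ∃ l : ℕ, (2 : ℝ) ^ l ≤ x ∧ x < 2 * 2 ^ l ∧ Real.logb 2 x - 1 < l := by
  have hx0 : 0 < x := by linarith
  have h0 : 0 ≤ Real.logb 2 x := Real.logb_nonneg (by norm_num) hx
  have h1 := Nat.floor_le h0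
  have h2 := Nat.lt_floor_add_one (Real.logb 2 x)
  refine ⟨⌊Real.logb 2 x⌋₊, ?_, ?_, by linarith⟩
  · rw [Real.le_logb_iff_rpow_le (by norm_num) hx0, Real.rpow_natCast] at h1
    exact h1
  · rw [Real.logb_lt_iff_lt_rpow (by norm_num) hx0, Real.rpow_add (by norm_num),
      Real.rpow_natCast, Real.rpow_one] at h2
    linarith

/-- the lower bound for `n` small compared with the threshold -/
theorem lower_region {n t : ℕ} {ε : ℝ} {κ : ℝ≥0∞} (hn : 1 ≤ n) (hε : 0 < ε) (hε1 : ε < 1 / 3)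
    (hκ : 1 ≤ κ) (ht : 1 ≤ t) (hC : 2 ^ 64 * (n : ℝ) ≤ thrT κ ε)
    (h : (t : ℝ) ≤ 1 / 100 * (n * Real.logb 2 (thrT κ ε / n))) : Fails n κ ε t := by
  by_cases hL : (t : ℝ) ≤ Real.logb 2 (1 / ε) - 3
  · exact lower_log hn hε hε1 hκ ht (hL.trans (by
      have := le_max_right (Real.logb 2 (n : ℝ)) (Real.logb 2 (1 / ε))
      linarith))
  push Not at hL
  obtain ⟨N1, N2, -, N4⟩ := thrN_props hε (by linarith) hκ
  obtain ⟨T1, T2, T3, T4⟩ := thrT_props hε (by linarith) hκ
  have hT : thrT κ ε = thrN κ ε * (1 + Real.logb 2 ((1 / ε) ^ (2 / 3 : ℝ) / thrN κ ε)) := rfl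
  have hn1 : (1 : ℝ) ≤ n := by exact_mod_cast hn
  have hn0 : (0 : ℝ) < n := by linarith
  have ht1 : (1 : ℝ) ≤ t := by exact_mod_cast ht
  have hi0 : 0 < 1 / ε := by positivity
  have hPL : Real.logb 2 ((1 / ε) ^ (2 / 3 : ℝ)) = 2 / 3 * Real.logb 2 (1 / ε) :=
    Real.logb_rpow_eq_mul_logb_of_pos hi0
  have hP32 : ((1 / ε) ^ (2 / 3 : ℝ)) ^ (3 / 2 : ℝ) = 1 / ε := by
    rw [← Real.rpow_mul (by positivity)]
    norm_num
  set T := thrT κ ε with hTd
  set N := thrN κ ε with hNd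
  set P := (1 / ε) ^ (2 / 3 : ℝ) with hPd
  set L := Real.logb 2 (1 / ε) with hLd
  set ℓ := Real.logb 2 (P / N) with hℓd
  have hN0 : 0 < N := by linarith
  have hP0 : 0 < P := by linarith
  have hT0 : 0 < T := by linarith
  have hℓL : ℓ = 2 / 3 * L - Real.logb 2 N := by
    rw [hℓd, Real.logb_div hP0.ne' hN0.ne', hPL]
  have hlN : 0 ≤ Real.logb 2 N := Real.logb_nonneg (by norm_num) N1
  set z := Real.logb 2 N with hzd
  -- y
  have hx : (2 : ℝ) ^ 64 ≤ T / n := by rw [le_div_iff₀ hn0]; exact hC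
  have hx0 : 0 < T / n := by positivity
  set y := Real.logb 2 (T / n) with hyd
  have hy : 64 ≤ y := by
    rw [hyd, Real.le_logb_iff_rpow_le (by norm_num) hx0]
    norm_num at hx ⊢
    exact hx
  -- n = 1
  rcases Nat.lt_or_ge n 2 with hn2 | hn2
  · have hn1' : n = 1 := by omega
    exfalso
    have h1 : y ≤ 1 + 2 / 3 * L := by
      have e1 : T / n ≤ 2 * P := by rw [hn1']; simpa using T4
      calc y ≤ Real.logb 2 (2 * P) := Real.logb_le_logb_of_le (by norm_num) hx0 e1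
        _ = 1 + 2 / 3 * L := by
          rw [Real.logb_mul (by norm_num) hP0.ne', Real.logb_self_eq_one (by norm_num), hPL]
    rw [hn1'] at h
    push_cast at h
    linarith
  have hn2' : (2 : ℝ) ≤ n := by exact_mod_cast hn2
  by_cases hA : (n : ℝ) * (1 + ℓ) ≤ N ∨ ℓ ≤ 4
  · -- the construction without blocks
    have hnN : (n : ℝ) ≤ N := by
      rcases hA with hA | hA
      · have : (n : ℝ) * 1 ≤ n * (1 + ℓ) := mul_le_mul_of_nonneg_left (by linarith) hn0.le
        linarith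
      · have h1 : N * (1 + ℓ) ≤ N * 5 := mul_le_mul_of_nonneg_left (by linarith) hN0.le
        have h2 : (2 : ℝ) ^ 64 * n = 18446744073709551616 * n := by norm_num
        linarith
    have hNn0 : 0 < N / n := by positivity
    have hxy : y / 2 - 3 ≤ Real.logb 2 (N / n) := by
      rcases hA with hA | hA
      · have h1 : T / n ≤ (N / n) ^ 2 := by
          have e1 : 1 + ℓ ≤ N / n := by rw [le_div_iff₀ hn0]; linarith
          calc T / n = N / n * (1 + ℓ) := by rw [hT]; ring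
            _ ≤ N / n * (N / n) := mul_le_mul_of_nonneg_left e1 hNn0.le
            _ = _ := by ring
        have h2 := Real.logb_le_logb_of_le (b := 2) (by norm_num) hx0 h1
        rw [Real.logb_pow] at h2
        push_cast at h2
        linarith
      · have h1 : T / n ≤ 2 ^ 3 * (N / n) := by
          calc T / n = N / n * (1 + ℓ) := by rw [hT]; ring
            _ ≤ N / n * 8 := mul_le_mul_of_nonneg_left (by linarith) hNn0.le
            _ = _ := by ring
        have h2 := Real.logb_le_logb_of_le (b := 2) (by norm_num) hx0 h1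
        rw [Real.logb_mul (by norm_num) hNn0.ne', Real.logb_pow,
          Real.logb_self_eq_one (by norm_num)] at h2
        push_cast at h2
        linarith
    refine lower_sub hε (by linarith) hκ hn hnN ht ?_
    rw [← hLd, ← hNd]
    have h1 : y / 4 ≤ 3 / 2 * Real.logb 2 (N / n) - 24 := by linarith
    have h2 : (n : ℝ) / 2 * (y / 4) ≤ (n - 1) * (3 / 2 * Real.logb 2 (N / n) - 24) :=
      mul_le_mul (by linarith) h1 (by linarith) (by linarith)
    have h3 : 2 * 64 ≤ (n : ℝ) * y := mul_le_mul hn2' hy (by norm_num) hn0.le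
    have h4 : 0 ≤ L := Real.logb_nonneg (by norm_num) (by rw [le_div_iff₀ hε]; linarith)
    linarith
  · -- blocks
    push Not at hA
    obtain ⟨hA1, hA2⟩ := hA
    obtain ⟨m, rfl⟩ : ∃ m, n = m + 2 := ⟨n - 2, by omega⟩
    set nn : ℝ := ((m + 2 : ℕ) : ℝ) with hnn
    have hnm : nn = (m : ℝ) + 2 := by rw [hnn]; push_cast; ring
    have hE : 1 / ε = N ^ (3 / 2 : ℝ) * 2 ^ (3 / 2 * ℓ : ℝ) := by
      have e1 : P = N * 2 ^ ℓ := by
        rw [hℓd, Real.rpow_logb (by norm_num) (by norm_num) (by positivity)]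
        field_simp
      rw [← hP32, e1, Real.mul_rpow hN0.le (by positivity), ← Real.rpow_mul (by norm_num)]
      congr 2
      ring
    have hL6 : 6 ≤ L := by linarith
    have ht3 : 3 ≤ t := by
      have : (3 : ℝ) < t := by linarith
      have : 3 < t := by exact_mod_cast this
      omega
    have hℓ0 : 0 < ℓ := by linarith
    have hcast : ∀ l : ℕ, (t : ℝ) ≤ ((l : ℝ) - 1) * (m + 1) → 1 ≤ l → t ≤ (l - 1) * (m + 1) := by
      intro l h1 h2
      have : (t : ℝ) ≤ (((l - 1) * (m + 1) : ℕ) : ℝ) := by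
        push_cast [Nat.cast_sub h2]
        exact h1
      exact_mod_cast this
    have hl1 : ∀ l : ℕ, (20000 : ℝ) ≤ 2 ^ l → 1 ≤ l := by
      intro l h1
      by_contra hc
      have : l = 0 := by omega
      rw [this] at h1
      norm_num at h1
    have hmm : nn / 2 ≤ (m : ℝ) + 1 := by linarith
    rcases le_total ℓ (4 * nn) with hB | hB
    · -- several blocks
      set q := ⌈4 * nn / ℓ⌉₊ with hqd
      have hq1 : 4 * nn / ℓ ≤ q := Nat.le_ceil _
      have hq2 : (q : ℝ) < 4 * nn / ℓ + 1 := Nat.ceil_lt_add_one (by positivity)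
      have hq0 : (0 : ℝ) < q := lt_of_lt_of_le (by positivity) hq1
      have hq3 : (q : ℝ) ≤ 8 * nn / ℓ := by
        have : 1 ≤ 4 * nn / ℓ := by rw [le_div_iff₀ hℓ0]; linarith
        have e : 8 * nn / ℓ = 2 * (4 * nn / ℓ) := by ring
        linarith
      have hqℓ : 4 * nn ≤ q * ℓ := by
        rw [div_le_iff₀ hℓ0] at hq1; exact hq1
      have hqℓ2 : q * ℓ ≤ 8 * nn := by
        rw [le_div_iff₀ hℓ0] at hq3; exact hq3
      have hNq : T / nn ≤ 10 * (N / q) := by
        have e1 : T * q ≤ 10 * N * nn := by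
          have e2 : q * (1 + ℓ) ≤ q * (5 / 4 * ℓ) := mul_le_mul_of_nonneg_left (by linarith) hq0.le
          have e3 : N * (q * (1 + ℓ)) ≤ N * (10 * nn) :=
            mul_le_mul_of_nonneg_left (by linarith) hN0.le
          have e4 : T * q = N * (q * (1 + ℓ)) := by rw [hT]; ring
          rw [e4]; linarith
        have e5 : 10 * (N / q) = 10 * N / q := by ring
        rw [e5, div_le_div_iff₀ hn0 hq0]
        exact e1
      have hNqx : (2 : ℝ) ^ 64 / 10 ≤ N / q := by linarith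
      have hN512 : 512 ≤ N := by
        have h1 : N / q ≤ N := by
          apply div_le_self hN0.le
          have : 1 ≤ q := by
            have : 0 < q := by exact_mod_cast hq0
            omega
          exact_mod_cast this
        norm_num at hNqx
        linarith
      have hX : (T / nn) ^ 2 / 3200 ≤ N ^ 2 / (32 * (q : ℝ) ^ 2) := by
        have e1 : (T / nn) ^ 2 ≤ (10 * (N / q)) ^ 2 := pow_le_pow_left₀ hx0.le hNq 2
        have e2 : N ^ 2 / (32 * (q : ℝ) ^ 2) = (10 * (N / q)) ^ 2 / 3200 := by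
          field_simp
          norm_num
        rw [e2]
        linarith
      have hX1 : (2 : ℝ) ^ 16 ≤ (T / nn) ^ 2 / 3200 := by
        have e1 : ((2 : ℝ) ^ 64) ^ 2 ≤ (T / nn) ^ 2 := pow_le_pow_left₀ (by norm_num) hx 2
        norm_num at e1 ⊢
        linarith
      obtain ⟨l, l1, l2, l3⟩ := exists_two_pow (x := N ^ 2 / (32 * (q : ℝ) ^ 2))
        (by norm_num at hX1; linarith)
      have hl : (20000 : ℝ) ≤ 2 ^ l := by
        norm_num at hX1
        linarith
      have hlog : 2 * y - 12 ≤ Real.logb 2 (N ^ 2 / (32 * (q : ℝ) ^ 2)) := by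
        have e1 : (T / nn) ^ 2 / 2 ^ 12 ≤ N ^ 2 / (32 * (q : ℝ) ^ 2) := by
          refine le_trans ?_ hX
          apply div_le_div_of_nonneg_left (by positivity) (by norm_num) (by norm_num)
        have e2 := Real.logb_le_logb_of_le (b := 2) (by norm_num) (by positivity) e1
        rw [Real.logb_div (by positivity) (by norm_num), Real.logb_pow, Real.logb_pow,
          Real.logb_self_eq_one (by norm_num)] at e2
        push_cast at e2
        linarith
      refine block_lower (N := N) (ell := ℓ) (q := q) (l := l) hε hN512 N4 hA2.le hE ?_ ?_ hl ?_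
        ht3 ?_
      · rw [← hnm]; exact hA1.le
      · rw [← hnm]; exact hqℓ
      · rw [le_div_iff₀ (by positivity)] at l1
        linarith
      · apply hcast l _ (hl1 l hl)
        have e1 : 2 * y - 14 ≤ (l : ℝ) - 1 := by linarith
        have e2 : (2 * y - 14) * (nn / 2) ≤ ((l : ℝ) - 1) * (m + 1) :=
          mul_le_mul e1 hmm (by linarith) (by linarith)
        have e3 : 0 ≤ nn * (y - 64) := mul_nonneg hn0.le (by linarith)
        have e4 : 0 ≤ nn := hn0.le
        linarith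
    · -- one block after another
      have hny : nn * y ≤ nn * z + (1 + ℓ) := by
        have e1 : T / nn = N * ((1 + ℓ) / nn) := by rw [hT]; ring
        have e2 : y = z + Real.logb 2 ((1 + ℓ) / nn) := by
          rw [hyd, e1, Real.logb_mul hN0.ne' (by positivity)]
        have e3 : nn * Real.logb 2 ((1 + ℓ) / nn) ≤ nn * ((1 + ℓ) / nn) :=
          mul_le_mul_of_nonneg_left (logb_two_le_self (by positivity)) hn0.le
        have e4 : nn * ((1 + ℓ) / nn) = 1 + ℓ := by field_simp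
        rw [e2, mul_add]
        linarith
      by_cases hz : z < 11
      · exfalso
        have e1 : nn * z ≤ nn * 11 := mul_le_mul_of_nonneg_left hz.le hn0.le
        linarith
      push Not at hz
      have hN11 : (2 : ℝ) ^ 11 ≤ N := by
        rw [hzd, Real.le_logb_iff_rpow_le (by norm_num) hN0] at hz
        norm_num at hz ⊢
        exact hz
      have hX1 : (2 : ℝ) ^ 16 ≤ N ^ 2 / (32 * ((1 : ℕ) : ℝ) ^ 2) := by
        have e1 : ((2 : ℝ) ^ 11) ^ 2 ≤ N ^ 2 := pow_le_pow_left₀ (by norm_num) hN11 2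
        push_cast
        norm_num at e1 ⊢
        linarith
      obtain ⟨l, l1, l2, l3⟩ := exists_two_pow (x := N ^ 2 / (32 * ((1 : ℕ) : ℝ) ^ 2))
        (by norm_num at hX1; push_cast; norm_num; linarith)
      have hl : (20000 : ℝ) ≤ 2 ^ l := by
        norm_num at hX1 l2
        linarith
      have hlog : 2 * z - 5 ≤ Real.logb 2 (N ^ 2 / (32 * ((1 : ℕ) : ℝ) ^ 2)) := by
        have e1 : N ^ 2 / (32 * ((1 : ℕ) : ℝ) ^ 2) = N ^ 2 / 2 ^ 5 := by norm_num
        rw [e1, Real.logb_div (by positivity) (by norm_num), Real.logb_pow, Real.logb_pow,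
          Real.logb_self_eq_one (by norm_num)]
        push_cast
        linarith
      refine block_lower (N := N) (ell := ℓ) (q := 1) (l := l) hε (by norm_num at hN11; linarith) N4
        hA2.le hE ?_ ?_ hl ?_ ht3 ?_
      · rw [← hnm]; exact hA1.le
      · rw [← hnm]; push_cast; linarith
      · rw [le_div_iff₀ (by positivity)] at l1
        linarith
      · apply hcast l _ (hl1 l hl)
        have e1 : 2 * z - 7 ≤ (l : ℝ) - 1 := by linarith
        have e2 : (2 * z - 7) * (nn / 2) ≤ ((l : ℝ) - 1) * (m + 1) :=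
          mul_le_mul e1 hmm (by linarith) (by linarith)
        have e3 : 0 ≤ nn * (z - 7) := mul_nonneg hn0.le (by linarith)
        have e4 : 0 ≤ nn * z := mul_nonneg hn0.le hlN
        linarith

end Pool.Agent.Lib.MP_02bbae_an
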